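import Pool.Agent.Lib.MP_865fc0_ag.TW.Spec

/-!
# MP_865fc0_ag, TW, module BAS: Bogomolov's inequality on `P^1 x P^1`, with a jump
-/

set_option autoImplicit false

open scoped Pointwise
open Filter

namespace Pool.Agent.Lib.LP.TW

noncomputable section

namespace BASM

section

variable {V : Type} [AddCommGroup V] [Module ℂ V] [Module K V] [IsScalarTower ℂ K V]

lemma tw_mono {F G : Chart → Submodule ℂ V} (h : F ≤ G) (a b : ℤ) : tw a b F ≤ tw a b G := by
  intro s v hv
  rw [mem_tw] at hv ⊢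
  exact h s hv

variable [Module.Finite K V]

lemma lead_tw {F : Chart → Submodule ℂ V} (hF : IsLat F) (n : ℤ) : lead (tw n n F) = lead F := by
  have h := hF.chi_eq
  unfold lead at h ⊢
  rw [hF.chi_tw, hF.chi_tw, hF.chi_tw, hF.chi_tw]
  rw [h (1 + n) (1 + n), h (1 + n) (0 + n), h (0 + n) (1 + n), h (0 + n) (0 + n)]
  ring

lemma lam_tw {F : Chart → Submodule ℂ V} (hF : IsLat F) (n : ℤ) :
    lam (tw n n F) = lam F + 2 * n * lead F := by
  rw [lam_eq, lam_eq, hF.chi_tw, hF.chi_tw, hF.chi_tw]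
  rw [hF.chi_eq (1 + n) (0 + n), hF.chi_eq (0 + n) (1 + n), hF.chi_eq (0 + n) (0 + n)]
  unfold ca cb
  ring

lemma chi_tw0 {F : Chart → Submodule ℂ V} (hF : IsLat F) (n : ℤ) :
    chi (tw n n F) 0 0 = chi F 0 0 + n * lam F + n ^ 2 * lead F := by
  rw [hF.chi_tw, hF.chi_eq (0 + n) (0 + n)]
  unfold lam
  ring

lemma sst_tw {F : Chart → Submodule ℂ V} (hF : IsLat F) (hS : Sst R F) (n : ℤ) :
    Sst R (tw n n F) := by
  intro E' hE' hOE' hE'F
  have h1 : IsLat (tw (-n) (-n) E') := hE'.tw _ _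
  have h2 : R • tw (-n) (-n) E' = tw (-n) (-n) E' := by rw [smul_tw, hOE']
  have h3 : tw (-n) (-n) E' ≤ F := by
    have := tw_mono hE'F (-n) (-n)
    rwa [tw_tw, neg_add_cancel, tw_zero] at this
  have h4 := hS _ h1 h2 h3
  rw [lam_tw hE', lead_tw hE'] at h4
  rw [lam_tw hF, lead_tw hF]
  nlinarith

lemma key (hVAN : SpecVAN) (F : Chart → Submodule ℂ V) (hF : IsLat F) (hS : Sst R F)
    (hpos : 0 < lead F) : cc F ≤ mm F ^ 2 / 4 := by
  have hposQ : (0 : ℚ) < (lead F : ℚ) := by exact_mod_cast hpos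
  set n : ℤ := round (-(mm F) / 2) with hn
  have hr := abs_le.mp (abs_sub_round (-(mm F) / 2))
  rw [← hn] at hr
  have hF' : IsLat (tw n n F) := hF.tw _ _
  have hl : lead (tw n n F) = lead F := lead_tw hF n
  have hm : mm (tw n n F) = mm F + 2 * n := by
    unfold mm
    rw [hl, lam_tw hF]
    push_cast
    field_simp
  have h1 : chi (tw n n F) 0 0 ≤ 0 := by
    apply hVAN V (tw n n F) hF' (sst_tw hF hS n) (by rw [hl]; exact hpos)
    · rw [hm]
      linarith [hr.1, hr.2]
    · rw [hm]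
      linarith [hr.1, hr.2]
  rw [chi_tw0 hF] at h1
  have h2 : (chi F 0 0 : ℚ) + n * lam F + n ^ 2 * lead F ≤ 0 := by exact_mod_cast h1
  have h3 : cc F ≤ -(n * mm F) - n ^ 2 := by
    unfold cc mm
    rw [div_le_iff₀ hposQ]
    have : (-((n : ℚ) * ((lam F : ℚ) / (lead F : ℚ))) - (n : ℚ) ^ 2) * (lead F : ℚ) =
        -(n * lam F) - n ^ 2 * lead F := by
      field_simp
    rw [this]
    linarith
  nlinarith [sq_nonneg (mm F / 2 + n)]

lemma key2 (hVAN : SpecVAN) (F : Chart → Submodule ℂ V) (hF : IsLat F) (hS : Sst R F)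
    (hpos : 0 < lead F) (h1 : 1 < mm F) (h2 : mm F < 2) : cc F ≤ mm F ^ 2 / 4 - 1 / 4 := by
  have hposQ : (0 : ℚ) < (lead F : ℚ) := by exact_mod_cast hpos
  have h3 := hVAN V F hF hS hpos (by linarith) h2
  have h4 : cc F ≤ 0 := by
    unfold cc
    apply div_nonpos_of_nonpos_of_nonneg _ hposQ.le
    exact_mod_cast h3
  nlinarith

end

end BASM

open BASM in
theorem specBAS (hVAN : SpecVAN) : SpecBAS := by
  refine ⟨?_, 1, one_pos, 1 / 4, by norm_num, ?_⟩
  · intro V i1 i2 m1 i4 m2 i6 i7 i8 F hF hOF hS hpos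
    have hm : m2 = m1 := by
      apply Module.ext'
      intro r v
      have h := i7.smul_assoc r (1 : K) v
      rw [smul_eq_mul, mul_one] at h
      rw [h]
      congr 1
      exact @one_smul K V _ m2.toMulAction v
    subst hm
    rw [add_zero]
    exact key hVAN F hF hS hpos
  · intro V i1 i2 m1 i4 m2 i6 i7 i8 F hF hOF hS hpos h1 h2
    have hm : m2 = m1 := by
      apply Module.ext'
      intro r v
      have h := i7.smul_assoc r (1 : K) v
      rw [smul_eq_mul, mul_one] at h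
      rw [h]
      congr 1
      exact @one_smul K V _ m2.toMulAction v
    subst hm
    rw [add_zero]
    exact key2 hVAN F hF hS hpos (by linarith) h2

end

end Pool.Agent.Lib.LP.TW
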