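import Pool.Agent.Lib.MP_865fc0_ag.TW.Spec

/-!
# MP_865fc0_ag, TW: module BDD (slopes of sublattices are bounded)
-/

set_option autoImplicit false

open scoped Pointwise
open Filter

namespace Pool.Agent.Lib.LP.TW

noncomputable section

namespace BDDM

/-- `dim U` of the coordinates are linearly independent on `U`. -/
theorem exists_coords {k V : Type} [Field k] [AddCommGroup V] [Module k V] [Module.Finite k V]
    {d : ℕ} (b : Module.Basis (Fin d) k V) (U : Submodule k V) :
    ∃ S : Finset (Fin d), S.card = Module.finrank k U ∧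
      ∀ v ∈ U, (∀ i ∈ S, b.repr v i = 0) → v = 0 := by
  classical
  let φ : Fin d → Module.Dual k U := fun i => (b.coord i) ∘ₗ U.subtype
  have hφ : ∀ i (v : U), φ i v = b.repr (v : V) i := fun i v => rfl
  have hspan : Submodule.span k (Set.range φ) = ⊤ := by
    have h1 : Function.Surjective (U.subtype).dualMap :=
      LinearMap.dualMap_surjective_of_injective (Submodule.injective_subtype U)
    have h2 : Submodule.span k (Set.range fun i => b.coord i) = ⊤ := by
      have h3 := b.dualBasis.span_eq
      rw [← h3]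
      congr 2
      funext i
      rw [b.coe_dualBasis]
    have h4 : Set.range φ = (U.subtype).dualMap '' (Set.range fun i => b.coord i) := by
      rw [← Set.range_comp]
      rfl
    rw [h4, ← Submodule.map_span, h2, Submodule.map_top, LinearMap.range_eq_top]
    exact h1
  obtain ⟨T, hTs, hTspan, hTli⟩ := exists_linearIndependent k (Set.range φ)
  rw [hspan] at hTspan
  have hTfin : T.Finite := (Set.finite_range φ).subset hTs
  have : Fintype T := hTfin.fintype
  have hex : ∀ ψ : T, ∃ i, φ i = ψ := fun ψ => hTs ψ.2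
  choose g hg using hex
  have hginj : Function.Injective g := by
    intro ψ ψ' h
    apply Subtype.ext
    rw [← hg ψ, ← hg ψ', h]
  refine ⟨Finset.univ.image g, ?_, ?_⟩
  · rw [Finset.card_image_of_injective _ hginj]
    let B : Module.Basis T k (Module.Dual k U) := Module.Basis.mk hTli (by
      rw [Subtype.range_coe_subtype, Set.ofPred_mem_eq, hTspan])
    have h1 := Module.finrank_eq_card_basis B
    rw [Subspace.dual_finrank_eq] at h1
    rw [h1]
    rfl
  · intro v hv h
    have h1 : ∀ ψ : Module.Dual k U, ψ ⟨v, hv⟩ = 0 := by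
      intro ψ
      have h2 : ψ ∈ Submodule.span k T := by
        rw [hTspan]
        exact Submodule.mem_top
      induction h2 using Submodule.span_induction with
      | mem ψ hψ =>
        have h3 : φ (g ⟨ψ, hψ⟩) = ψ := hg ⟨ψ, hψ⟩
        rw [← h3, hφ]
        exact h (g ⟨ψ, hψ⟩) (Finset.mem_image.2 ⟨⟨ψ, hψ⟩, Finset.mem_univ _, rfl⟩)
      | zero => rfl
      | add a c _ _ ha hc => rw [LinearMap.add_apply, ha, hc, add_zero]
      | smul a c _ hc => rw [LinearMap.smul_apply, hc, smul_zero]
    have h3 := (Module.forall_dual_apply_eq_zero_iff k (⟨v, hv⟩ : U)).1 h1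
    exact congrArg Subtype.val h3

theorem finrank_le {V : Type} [AddCommGroup V] [Module ℂ V] [Module K V]
    [IsScalarTower ℂ K V] [Module.Finite K V] {F E : Chart → Submodule ℂ V} (hE : IsLat E)
    (hEF : E ≤ F) {d : ℕ} (b : Module.Basis (Fin d) K V) {c : K} {N : ℕ} (hc : c ≠ 0)
    (hb : ∀ n : ℕ, ∀ v ∈ Sec F n n, ∀ i, c * b.repr v i ∈ W (n + N)) (n : ℕ) :
    Module.finrank ℂ (Sec E n n) ≤
      Module.finrank K (Submodule.span K (E (false, false) : Set V)) *
        ((n + N + 1) * (n + N + 1)) := by
  classical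
  obtain ⟨S, hS, hS0⟩ := exists_coords b (Submodule.span K (E (false, false) : Set V))
  have hU : ∀ v ∈ Sec E (n : ℤ) n, v ∈ Submodule.span K (E (false, false) : Set V) := by
    intro v hv
    have h1 := hE.mem_span ((mem_Sec_diag.1 hv) (false, false))
    have h2 := (Submodule.span K (E (false, false) : Set V)).smul_mem (w (false, false) ^ n) h1
    rwa [smul_smul, mul_inv_cancel₀ (pow_ne_zero n (w_ne_zero _)), one_smul] at h2
  let f : Sec E n n →ₗ[ℂ] (S → W ((n + N : ℕ) : ℤ)) :=
    { toFun := fun v i => ⟨c * b.repr v i, by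
        push_cast
        exact hb n v (Sec_mono hEF _ _ v.2) i⟩
      map_add' := by
        intro v v'
        ext i
        simp [mul_add]
      map_smul' := by
        intro a v
        ext i
        have : b.repr (a • (v : V)) i = a • b.repr v i := by
          rw [← algebraMap_smul K a (v : V), map_smul, Finsupp.smul_apply, algebraMap_smul]
        simp [this] }
  have hf : Function.Injective f := by
    intro v v' h
    apply Subtype.ext
    rw [← sub_eq_zero]
    apply hS0
    · exact Submodule.sub_mem _ (hU v v.2) (hU v' v'.2)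
    · intro i hi
      have h1 := congrArg (fun g => ((g ⟨i, hi⟩ : W ((n + N : ℕ) : ℤ)) : K)) h
      simp only [f, LinearMap.coe_mk, AddHom.coe_mk] at h1
      have h2 := mul_left_cancel₀ hc h1
      rw [map_sub, Finsupp.sub_apply, h2, sub_self]
  have : Module.Finite ℂ (W ((n + N : ℕ) : ℤ)) := Module.Finite.iff_fg.2 (fg_W _)
  have h3 := LinearMap.finrank_le_finrank_of_injective hf
  rw [Module.finrank_pi_fintype] at h3
  simp only [finrank_W, Finset.sum_const, Finset.card_univ, Fintype.card_coe,
    smul_eq_mul] at h3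
  rw [hS] at h3
  exact h3

end BDDM

open BDDM in
theorem specBDD : SpecBDD := by
  intro V _ _ _ _ _ F hF
  obtain ⟨d, b, c, N, hc, hb⟩ := IsLat.exists_bound' (F := F)
    (fun s => by obtain ⟨T, hT, h⟩ := hF.fg s; exact ⟨T, hT, h.le⟩)
  refine ⟨2 * (N + 1), fun E hE hEF => ?_⟩
  have hl := hE.lead_eq
  have h1 := finrank_le hE hEF b hc hb
  have h : 0 ≤ 2 * ((N : ℤ) + 1) * lead E - lam E := by
    apply nonneg_of_eventually' (c := lead E * ((N : ℤ) + 1) ^ 2 - chi E 0 0)
    filter_upwards [hE.h0_diag] with n hn
    have h2 := h1 n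
    zify at h2
    rw [hn, ← hl] at h2
    unfold lam
    nlinarith
  linarith

end

end Pool.Agent.Lib.LP.TW
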