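import Pool.Agent.Lib.MP_865fc0_ag.TW.Spec

/-!
# MP_865fc0_ag, TW, module BDM
-/

set_option autoImplicit false

open scoped Pointwise
open Filter

namespace Pool.Agent.Lib.LP.TW

namespace BDMM

variable {V : Type} [AddCommGroup V] [Module ℂ V] [Module K V] [IsScalarTower ℂ K V]
variable {F : Chart → Submodule ℂ V}

lemma ratio (s : Chart) (i j : ℕ) (a b a' b' : ℤ) :
    (wx s ^ a' * wu s ^ b')⁻¹ * (x ^ i * u ^ j) * (wx s ^ a * wu s ^ b) =
      mon ((i : ℤ) - (if s.1 then a' - a else 0), (j : ℤ) - (if s.2 then b' - b else 0)) := by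
  have hx := x_ne_zero
  have hu := u_ne_zero
  unfold wx wu mon
  simp only
  rw [zpow_sub₀ hx, zpow_sub₀ hu, zpow_natCast, zpow_natCast]
  split_ifs
  · rw [zpow_sub₀ hx, zpow_sub₀ hu]
    field_simp
  · rw [zpow_sub₀ hx]
    simp only [one_zpow, zpow_zero]
    field_simp
  · rw [zpow_sub₀ hu]
    simp only [one_zpow, zpow_zero]
    field_simp
  · simp

lemma up (hF : IsLat F) (i j : ℕ) {a b a' b' : ℤ} (hi : (i : ℤ) ≤ a' - a) (hj : (j : ℤ) ≤ b' - b)
    {v : V} (hv : v ∈ Sec F a b) : (x ^ i * u ^ j) • v ∈ Sec F a' b' := by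
  rw [mem_Sec] at hv ⊢
  intro s
  have hr : (wx s ^ a' * wu s ^ b')⁻¹ * (x ^ i * u ^ j) * (wx s ^ a * wu s ^ b) ∈ R s := by
    rw [ratio, R_eq]
    apply mon_mem_MonS
    simp only [Quad, Set.mem_ofPred_eq]
    split_ifs <;> omega
  have h0 := wab_ne_zero s a b
  have e : (wx s ^ a' * wu s ^ b')⁻¹ • (x ^ i * u ^ j) • v =
      ((wx s ^ a' * wu s ^ b')⁻¹ * (x ^ i * u ^ j) * (wx s ^ a * wu s ^ b)) •
        ((wx s ^ a * wu s ^ b)⁻¹ • v) := by
    rw [smul_smul, smul_smul]
    congr 1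
    rw [mul_assoc _ (wx s ^ a * wu s ^ b), mul_inv_cancel₀ h0, mul_one]
  rw [e]
  exact hF.smul_mem hr (hv s)

lemma up0 (hF : IsLat F) {a b a' b' : ℤ} (hi : a ≤ a') (hj : b ≤ b') :
    Sec F a b ≤ Sec F a' b' := by
  intro v hv
  have h := up hF 0 0 (a' := a') (b' := b') (by push_cast; linarith) (by push_cast; linarith) hv
  simpa using h

end BDMM

open BDMM in
theorem specBDM : SpecBDM := by
  intro V _ _ _ _ F hF N
  constructor
  · unfold Bd
    rw [Submodule.smul_sup, Submodule.smul_sup, Submodule.smul_sup]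
    refine sup_le (sup_le ?_ ?_) (sup_le ?_ ?_)
    · intro v hv
      obtain ⟨n, hn, rfl⟩ := mem_line_smul.1 hv
      refine Submodule.mem_sup_left (Submodule.mem_sup_left ?_)
      have h := up hF 1 1 (a' := ((N + 1 : ℕ) : ℤ)) (b' := 2 * ((N + 1 : ℕ) : ℤ))
        (by push_cast; linarith) (by push_cast; linarith) hn
      simpa using h
    · intro v hv
      obtain ⟨n, hn, rfl⟩ := mem_line_smul.1 hv
      obtain ⟨n', hn', rfl⟩ := mem_line_smul.1 hn
      refine Submodule.mem_sup_left (Submodule.mem_sup_right ?_)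
      rw [mem_line_smul]
      have h := up hF 0 1 (a' := ((N + 1 : ℕ) : ℤ)) (b' := 2 * ((N + 1 : ℕ) : ℤ))
        (by push_cast; linarith) (by push_cast; linarith) hn'
      refine ⟨_, h, ?_⟩
      rw [smul_smul, smul_smul]
      congr 1
      ring
    · intro v hv
      obtain ⟨n, hn, rfl⟩ := mem_line_smul.1 hv
      refine Submodule.mem_sup_right (Submodule.mem_sup_left ?_)
      have h := up hF 1 1 (a' := 2 * ((N + 1 : ℕ) : ℤ)) (b' := ((N + 1 : ℕ) : ℤ))
        (by push_cast; linarith) (by push_cast; linarith) hn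
      simpa using h
    · intro v hv
      obtain ⟨n, hn, rfl⟩ := mem_line_smul.1 hv
      obtain ⟨n', hn', rfl⟩ := mem_line_smul.1 hn
      refine Submodule.mem_sup_right (Submodule.mem_sup_right ?_)
      rw [mem_line_smul]
      have h := up hF 1 0 (a' := 2 * ((N + 1 : ℕ) : ℤ)) (b' := ((N + 1 : ℕ) : ℤ))
        (by push_cast; linarith) (by push_cast; linarith) hn'
      refine ⟨_, h, ?_⟩
      rw [smul_smul, smul_smul]
      congr 1
      ring
  · unfold Bd
    have hN : (0 : ℤ) ≤ N := Int.natCast_nonneg N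
    refine sup_le (sup_le ?_ ?_) (sup_le ?_ ?_)
    · exact up0 hF (by linarith) le_rfl
    · intro v hv
      obtain ⟨n, hn, rfl⟩ := mem_line_smul.1 hv
      have h := up hF N 0 (a' := 2 * (N : ℤ)) (b' := 2 * (N : ℤ)) (by linarith) (by simp) hn
      simpa using h
    · exact up0 hF le_rfl (by linarith)
    · intro v hv
      obtain ⟨n, hn, rfl⟩ := mem_line_smul.1 hv
      have h := up hF 0 N (a' := 2 * (N : ℤ)) (b' := 2 * (N : ℤ)) (by simp) (by linarith) hn
      simpa using h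

end Pool.Agent.Lib.LP.TW
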