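import Pool.Agent.Lib.MP_865fc0_ag.TW.Spec

/-!
# MP_865fc0_ag, TW: module BIG, the bigraded section module of a lattice is finitely generated
-/

set_option autoImplicit false

open scoped Pointwise
open Filter

namespace Pool.Agent.Lib.LP.TW

namespace BIGM

open Polynomial

section gen

variable {k : Type} [Field k] {A : Type} [CommRing A] [Algebra k A]
variable {V : Type} [AddCommGroup V] [Module k V] [Module A V] [IsScalarTower k A V]

/-- the four generators `T`, `x T`, `U`, `u U` -/
noncomputable def ge (x' u' : A) (i : Fin 4) : A[X][X] :=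
  if i = 0 then monomial 0 (monomial 1 1) else
    if i = 1 then monomial 0 (monomial 1 x') else
      if i = 2 then monomial 1 (monomial 0 1) else monomial 1 (monomial 0 u')

/-- the bigraded ring -/
noncomputable def SG (k : Type) [Field k] {A : Type} [CommRing A] [Algebra k A] (x' u' : A) :
    Subalgebra k A[X][X] :=
  Algebra.adjoin k (Set.range (ge x' u'))

instance (x' u' : A) : IsNoetherianRing (SG k x' u') := by
  have : Algebra.FiniteType k (SG k x' u') := Algebra.FiniteType.adjoin_of_finite (Set.finite_range _)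
  exact Algebra.FiniteType.isNoetherianRing k (SG k x' u')

theorem ge_mem (x' u' : A) (i : Fin 4) : ge x' u' i ∈ SG k x' u' :=
  Algebra.subset_adjoin ⟨i, rfl⟩

theorem cf_smul (i j : ℕ) (r : A) (f : PolynomialModule A[X] (PolynomialModule A V)) (a b : ℕ) :
    (((monomial j (monomial i r) : A[X][X]) • f).coeff b).coeff a =
      if j ≤ b ∧ i ≤ a then r • (f.coeff (b - j)).coeff (a - i) else 0 := by
  rw [PolynomialModule.monomial_smul_apply]
  by_cases hj : j ≤ b
  · rw [if_pos hj, PolynomialModule.monomial_smul_apply]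
    by_cases hi : i ≤ a
    · rw [if_pos hi, if_pos ⟨hj, hi⟩]
    · rw [if_neg hi, if_neg (fun h => hi h.2)]
  · rw [if_neg hj, if_neg (fun h => hj h.1)]
    rfl

/-- a family closed under the four generators -/
structure Clo (x' u' : A) (N : ℕ → ℕ → Submodule k V) : Prop where
  T : ∀ a b, ∀ v ∈ N a b, v ∈ N (a + 1) b
  X : ∀ a b, ∀ v ∈ N a b, x' • v ∈ N (a + 1) b
  U : ∀ a b, ∀ v ∈ N a b, v ∈ N a (b + 1)
  Y : ∀ a b, ∀ v ∈ N a b, u' • v ∈ N a (b + 1)

/-- The graded module of a family of subspaces. -/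
noncomputable def fam {x' u' : A} {N : ℕ → ℕ → Submodule k V} (hN : Clo x' u' N) :
    Submodule (SG k x' u') (PolynomialModule A[X] (PolynomialModule A V)) where
  carrier := {f | ∀ a b, (f.coeff b).coeff a ∈ N a b}
  add_mem' := by
    intro f g hf hg a b
    rw [PolynomialModule.coeff_add, Finsupp.add_apply, PolynomialModule.coeff_add,
      Finsupp.add_apply]
    exact (N a b).add_mem (hf a b) (hg a b)
  zero_mem' := by
    intro a b
    exact (N a b).zero_mem
  smul_mem' := by
    rintro ⟨c, hc⟩ f hf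
    have key : ∀ f : PolynomialModule A[X] (PolynomialModule A V),
        (∀ a b, (f.coeff b).coeff a ∈ N a b) →
        ∀ a b, ((c • f).coeff b).coeff a ∈ N a b := by
      unfold SG at hc
      induction hc using Algebra.adjoin_induction with
      | mem c hc =>
        obtain ⟨i, rfl⟩ := hc
        intro f hf a b
        unfold ge
        split_ifs
        · rw [cf_smul]
          split_ifs with h
          · obtain ⟨m, rfl⟩ := Nat.exists_eq_add_of_le' h.2
            rw [one_smul]
            simpa using hN.T m b _ (hf m b)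
          · exact (N a b).zero_mem
        · rw [cf_smul]
          split_ifs with h
          · obtain ⟨m, rfl⟩ := Nat.exists_eq_add_of_le' h.2
            simpa using hN.X m b _ (hf m b)
          · exact (N a b).zero_mem
        · rw [cf_smul]
          split_ifs with h
          · obtain ⟨m, rfl⟩ := Nat.exists_eq_add_of_le' h.1
            rw [one_smul]
            simpa using hN.U a m _ (hf a m)
          · exact (N a b).zero_mem
        · rw [cf_smul]
          split_ifs with h
          · obtain ⟨m, rfl⟩ := Nat.exists_eq_add_of_le' h.1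
            simpa using hN.Y a m _ (hf a m)
          · exact (N a b).zero_mem
      | algebraMap r =>
        intro f hf a b
        have : (algebraMap k A[X][X] r) = monomial 0 (monomial 0 (algebraMap k A r)) := rfl
        rw [this, cf_smul, if_pos ⟨Nat.zero_le _, Nat.zero_le _⟩, Nat.sub_zero, Nat.sub_zero,
          algebraMap_smul]
        exact (N a b).smul_mem _ (hf a b)
      | add c d _ _ hc hd =>
        intro f hf a b
        rw [add_smul, PolynomialModule.coeff_add, Finsupp.add_apply, PolynomialModule.coeff_add,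
          Finsupp.add_apply]
        exact (N a b).add_mem (hc f hf a b) (hd f hf a b)
      | mul c d _ _ hc hd =>
        intro f hf a b
        rw [mul_smul]
        exact hc _ (hd f hf) a b
    exact key f hf

theorem mem_fam {x' u' : A} {N : ℕ → ℕ → Submodule k V} {hN : Clo x' u' N}
    {f : PolynomialModule A[X] (PolynomialModule A V)} :
    f ∈ fam hN ↔ ∀ a b, (f.coeff b).coeff a ∈ N a b := Iff.rfl

/-- the monomial `v T^a U^b` -/
noncomputable def sg (A : Type) [CommRing A] {V : Type} [AddCommGroup V] [Module A V] (a b : ℕ)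
    (v : V) : PolynomialModule A[X] (PolynomialModule A V) :=
  PolynomialModule.single A[X] b (PolynomialModule.single A a v)

theorem cf_sg (a b : ℕ) (v : V) (a' b' : ℕ) :
    ((sg A a b v).coeff b').coeff a' = if b = b' ∧ a = a' then v else 0 := by
  unfold sg
  rw [PolynomialModule.coeff_single, Finsupp.single_apply]
  by_cases hb : b = b'
  · rw [if_pos hb, PolynomialModule.coeff_single, Finsupp.single_apply]
    by_cases ha : a = a'
    · rw [if_pos ha, if_pos ⟨hb, ha⟩]
    · rw [if_neg ha, if_neg (fun h => ha h.2)]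
  · rw [if_neg hb, if_neg (fun h => hb h.1)]
    rfl

theorem smul_sg (i j : ℕ) (r : A) (a b : ℕ) (v : V) :
    (monomial j (monomial i r) : A[X][X]) • sg A a b v = sg A (i + a) (j + b) (r • v) := by
  unfold sg
  rw [PolynomialModule.monomial_smul_single, PolynomialModule.monomial_smul_single]

theorem sg_add (a b : ℕ) (v w : V) : sg A a b (v + w) = sg A a b v + sg A a b w := by
  unfold sg
  rw [PolynomialModule.single_add, PolynomialModule.single_add]

theorem sg_zero (a b : ℕ) : sg A a b (0 : V) = 0 := by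
  unfold sg
  rw [PolynomialModule.single_zero, PolynomialModule.single_zero]

theorem sg_mem {x' u' : A} {N : ℕ → ℕ → Submodule k V} {hN : Clo x' u' N} {a b : ℕ} {v : V}
    (hv : v ∈ N a b) : sg A a b v ∈ fam hN := by
  intro a' b'
  rw [cf_sg]
  split_ifs with h
  · rw [← h.1, ← h.2]; exact hv
  · exact (N a' b').zero_mem

/-- the elements `x'^p u'^q e_i` -/
def Mo (x' u' : A) {d : ℕ} (e : Fin d → V) (m n : ℕ) : Set V :=
  {v | ∃ (p q : ℕ) (i : Fin d), p ≤ m ∧ q ≤ n ∧ v = (x' ^ p * u' ^ q) • e i}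

/-- the bounding module -/
noncomputable def QQ (k : Type) [Field k] {A : Type} [CommRing A] [Algebra k A] {V : Type}
    [AddCommGroup V] [Module A V] (x' u' : A) {d : ℕ} (e : Fin d → V) (N0 : ℕ) :
    Submodule (SG k x' u') (PolynomialModule A[X] (PolynomialModule A V)) :=
  Submodule.span (SG k x' u') ((fun v => sg A 0 0 v) '' Mo x' u' e N0 N0)

theorem Mo_finite (x' u' : A) {d : ℕ} (e : Fin d → V) (m n : ℕ) : (Mo x' u' e m n).Finite := by
  have h : Mo x' u' e m n ⊆ (fun t : ℕ × ℕ × Fin d => (x' ^ t.1 * u' ^ t.2.1) • e t.2.2) ''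
      ((Finset.range (m + 1) ×ˢ (Finset.range (n + 1) ×ˢ (Finset.univ : Finset (Fin d))) :
        Finset (ℕ × ℕ × Fin d)) : Set (ℕ × ℕ × Fin d)) := by
    rintro v ⟨p, q, i, hp, hq, rfl⟩
    refine ⟨(p, q, i), ?_, rfl⟩
    rw [Finset.mem_coe, Finset.mem_product, Finset.mem_product]
    exact ⟨Finset.mem_range.2 (Nat.lt_succ_of_le hp), Finset.mem_range.2 (Nat.lt_succ_of_le hq),
      Finset.mem_univ _⟩
  exact Set.Finite.subset ((Finset.finite_toSet _).image _) h

omit [Module k V] [IsScalarTower k A V] in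
theorem gen_smul_mem {x' u' : A} {P : Submodule (SG k x' u')
      (PolynomialModule A[X] (PolynomialModule A V))} (i : Fin 4)
    {f : PolynomialModule A[X] (PolynomialModule A V)} (hf : f ∈ P) : ge x' u' i • f ∈ P :=
  P.smul_mem (⟨ge x' u' i, ge_mem x' u' i⟩ : SG k x' u') hf

omit [Module k V] [IsScalarTower k A V] in
theorem QQ_mono (x' u' : A) {d : ℕ} (e : Fin d → V) (N0 : ℕ) : ∀ a b : ℕ,
    ∀ v ∈ Mo x' u' e (a + N0) (b + N0), sg A a b v ∈ QQ k x' u' e N0 := by
  intro a
  induction a with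
  | zero =>
    intro b
    induction b with
    | zero =>
      intro v hv
      rw [zero_add] at hv
      exact Submodule.subset_span ⟨v, hv, rfl⟩
    | succ b ih =>
      rintro v ⟨p, q, i, hp, hq, rfl⟩
      by_cases hq' : q ≤ b + N0
      · have h1 := gen_smul_mem (k := k) (x' := x') (u' := u') 2 (ih _ ⟨p, q, i, hp, hq', rfl⟩)
        have h2 : ge x' u' 2 = monomial 1 (monomial 0 1) := by simp [ge]
        rw [h2, smul_sg, one_smul, zero_add, add_comm 1 b] at h1
        exact h1
      · obtain ⟨q', rfl⟩ : ∃ q', q = q' + 1 := ⟨q - 1, by omega⟩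
        have h1 := gen_smul_mem (k := k) (x' := x') (u' := u') 3
          (ih _ ⟨p, q', i, hp, by omega, rfl⟩)
        have h2 : ge x' u' 3 = monomial 1 (monomial 0 u') := by simp [ge]
        rw [h2, smul_sg, smul_smul, zero_add, add_comm 1 b] at h1
        have h3 : u' * (x' ^ p * u' ^ q') = x' ^ p * u' ^ (q' + 1) := by ring
        rw [h3] at h1
        exact h1
  | succ a ih =>
    intro b v hv
    obtain ⟨p, q, i, hp, hq, rfl⟩ := hv
    by_cases hp' : p ≤ a + N0
    · have h1 := gen_smul_mem (k := k) (x' := x') (u' := u') 0 (ih b _ ⟨p, q, i, hp', hq, rfl⟩)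
      have h2 : ge x' u' 0 = monomial 0 (monomial 1 1) := by simp [ge]
      rw [h2, smul_sg, one_smul, zero_add, add_comm 1 a] at h1
      exact h1
    · obtain ⟨p', rfl⟩ : ∃ p', p = p' + 1 := ⟨p - 1, by omega⟩
      have h1 := gen_smul_mem (k := k) (x' := x') (u' := u') 1
        (ih b _ ⟨p', q, i, by omega, hq, rfl⟩)
      have h2 : ge x' u' 1 = monomial 0 (monomial 1 x') := by simp [ge]
      rw [h2, smul_sg, smul_smul, zero_add, add_comm 1 a] at h1
      have h3 : x' * (x' ^ p' * u' ^ q) = x' ^ (p' + 1) * u' ^ q := by ring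
      rw [h3] at h1
      exact h1

theorem QQ_span (x' u' : A) {d : ℕ} (e : Fin d → V) (N0 a b : ℕ) (v : V)
    (hv : v ∈ Submodule.span k (Mo x' u' e (a + N0) (b + N0))) :
    sg A a b v ∈ QQ k x' u' e N0 := by
  induction hv using Submodule.span_induction with
  | mem v hv => exact QQ_mono x' u' e N0 a b v hv
  | zero => rw [sg_zero]; exact Submodule.zero_mem _
  | add v w _ _ hv hw => rw [sg_add]; exact Submodule.add_mem _ hv hw
  | smul c v _ hv =>
    have h1 : sg A a b (c • v) = (algebraMap k A[X][X] c) • sg A a b v := by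
      have h2 : (algebraMap k A[X][X] c) = monomial 0 (monomial 0 (algebraMap k A c)) := rfl
      rw [h2, smul_sg, algebraMap_smul, zero_add, zero_add]
    rw [h1]
    exact (QQ k x' u' e N0).smul_mem (⟨algebraMap k A[X][X] c,
      (SG k x' u').algebraMap_mem c⟩ : SG k x' u') hv

theorem gen (x' u' : A) (N : ℕ → ℕ → Submodule k V) (hN : Clo x' u' N) {d : ℕ} (e : Fin d → V)
    (N0 : ℕ) (hb : ∀ a b, N a b ≤ Submodule.span k (Mo x' u' e (a + N0) (b + N0))) :
    ∃ n0 : ℕ, ∀ a : ℕ, n0 ≤ a → ∀ b : ℕ, ∀ v ∈ N (a + 1) b,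
      ∃ v1 ∈ N a b, ∃ v2 ∈ N a b, v = v1 + x' • v2 := by
  classical
  have hQfg : (QQ k x' u' e N0).FG := Submodule.fg_span ((Mo_finite x' u' e N0 N0).image _)
  have hle : fam hN ≤ QQ k x' u' e N0 := by
    intro f hf
    have h1 : ∀ g : PolynomialModule A V, g = ∑ n ∈ g.coeff.support,
        PolynomialModule.single A n (g.coeff n) := by
      intro g
      apply PolynomialModule.coeff_injective
      rw [PolynomialModule.coeff_sum]
      simp only [PolynomialModule.coeff_single]
      exact (Finsupp.sum_single g.coeff).symm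
    have h2 : f = ∑ n ∈ f.coeff.support, PolynomialModule.single A[X] n (f.coeff n) := by
      apply PolynomialModule.coeff_injective
      rw [PolynomialModule.coeff_sum]
      simp only [PolynomialModule.coeff_single]
      exact (Finsupp.sum_single f.coeff).symm
    rw [h2]
    refine Submodule.sum_mem _ fun b _ => ?_
    have h3 : PolynomialModule.single A[X] b (f.coeff b) =
        ∑ a ∈ (f.coeff b).coeff.support, sg A a b ((f.coeff b).coeff a) := by
      conv_lhs => rw [h1 (f.coeff b)]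
      exact map_sum (PolynomialModule.lsingle A[X] b) _ _
    rw [h3]
    exact Submodule.sum_mem _ fun a _ => QQ_span x' u' e N0 a b _ (hb a b (hf a b))
  have hfg : (fam hN).FG := by
    have := @Submodule.FG.of_le (SG k x' u') (PolynomialModule A[X] (PolynomialModule A V))
      _ _ _ _ _ _ hQfg hle
    exact this
  obtain ⟨g, hg⟩ := hfg
  obtain ⟨n1, hn1⟩ : ∃ n1 : ℕ, ∀ f ∈ g, ∀ a b, n1 < a → (f.coeff b).coeff a = 0 := by
    refine ⟨∑ f ∈ g, ∑ b ∈ f.coeff.support, (f.coeff b).coeff.support.sup id,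
      fun f hf a b ha => ?_⟩
    by_contra hne
    have h0 : b ∈ f.coeff.support := by
      rw [Finsupp.mem_support_iff]
      intro h
      rw [h] at hne
      exact hne rfl
    have h1 : a ∈ (f.coeff b).coeff.support := Finsupp.mem_support_iff.2 hne
    have h2 : a ≤ (f.coeff b).coeff.support.sup id := Finset.le_sup (f := id) h1
    have h3 : (f.coeff b).coeff.support.sup id ≤
        ∑ b ∈ f.coeff.support, (f.coeff b).coeff.support.sup id :=
      Finset.single_le_sum (f := fun b => (f.coeff b).coeff.support.sup id)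
        (fun _ _ => Nat.zero_le _) h0
    have h4 : (∑ b ∈ f.coeff.support, (f.coeff b).coeff.support.sup id) ≤
        ∑ f ∈ g, ∑ b ∈ f.coeff.support, (f.coeff b).coeff.support.sup id :=
      Finset.single_le_sum (f := fun f : PolynomialModule A[X] (PolynomialModule A V) =>
        ∑ b ∈ f.coeff.support, (f.coeff b).coeff.support.sup id)
        (fun _ _ => Nat.zero_le _) hf
    omega
  refine ⟨n1, ?_⟩
  -- the comparison family
  let xm : V →ₗ[k] V := (LinearMap.lsmul A V x').restrictScalars k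
  let um : V →ₗ[k] V := (LinearMap.lsmul A V u').restrictScalars k
  let N' : ℕ → ℕ → Submodule k V := fun a b =>
    if a ≤ n1 then N a b else N (a - 1) b ⊔ (N (a - 1) b).map xm
  have hN'le : ∀ a b, N' a b ≤ N a b := by
    intro a b
    simp only [N']
    split_ifs with h
    · exact le_refl _
    · obtain ⟨m, rfl⟩ : ∃ m, a = m + 1 := ⟨a - 1, by omega⟩
      rw [Nat.add_sub_cancel]
      apply sup_le
      · exact fun v hv => hN.T m b v hv
      · rintro _ ⟨v, hv, rfl⟩
        exact hN.X m b v hv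
  have hN' : Clo x' u' N' := by
    refine ⟨?_, ?_, ?_, ?_⟩
    · intro a b v hv
      have hv' := hN'le a b hv
      simp only [N']
      split_ifs with h
      · exact hN.T a b v hv'
      · rw [Nat.add_sub_cancel]
        exact Submodule.mem_sup_left hv'
    · intro a b v hv
      have hv' := hN'le a b hv
      simp only [N']
      split_ifs with h
      · exact hN.X a b v hv'
      · rw [Nat.add_sub_cancel]
        exact Submodule.mem_sup_right ⟨v, hv', rfl⟩
    · intro a b v hv
      simp only [N'] at hv ⊢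
      split_ifs at hv ⊢ with h
      · exact hN.U a b v hv
      · obtain ⟨v1, hv1, _, ⟨v2, hv2, rfl⟩, rfl⟩ := Submodule.mem_sup.1 hv
        exact Submodule.add_mem_sup (hN.U _ b v1 hv1) ⟨v2, hN.U _ b v2 hv2, rfl⟩
    · intro a b v hv
      simp only [N'] at hv ⊢
      split_ifs at hv ⊢ with h
      · exact hN.Y a b v hv
      · obtain ⟨v1, hv1, _, ⟨v2, hv2, rfl⟩, rfl⟩ := Submodule.mem_sup.1 hv
        rw [smul_add]
        refine Submodule.add_mem_sup (hN.Y _ b v1 hv1) ⟨u' • v2, hN.Y _ b v2 hv2, ?_⟩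
        show x' • u' • v2 = u' • x' • v2
        rw [smul_smul, smul_smul, mul_comm]
  have hle2 : fam hN ≤ fam hN' := by
    rw [← hg, Submodule.span_le]
    intro f hf a b
    have hf2 : f ∈ fam hN := by rw [← hg]; exact Submodule.subset_span hf
    by_cases h : a ≤ n1
    · simp only [N', if_pos h]
      exact hf2 a b
    · rw [hn1 f hf a b (by omega)]
      exact (N' a b).zero_mem
  intro a ha b v hv
  have h1 := hle2 (sg_mem (hN := hN) hv) (a + 1) b
  rw [cf_sg, if_pos ⟨rfl, rfl⟩] at h1
  simp only [N'] at h1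
  rw [if_neg (by omega), Nat.add_sub_cancel] at h1
  obtain ⟨v1, hv1, _, ⟨v2, hv2, rfl⟩, rfl⟩ := Submodule.mem_sup.1 h1
  exact ⟨v1, hv1, v2, hv2, rfl⟩

end gen

section sec

variable {V : Type} [AddCommGroup V] [Module ℂ V] [Module K V] [IsScalarTower ℂ K V]
variable {F : Chart → Submodule ℂ V}

theorem wx_inv_mem (s : Chart) : (wx s)⁻¹ ∈ R s := by
  have h : (wx s)⁻¹ = mon ((if s.1 then -1 else 0), 0) := by
    unfold wx mon
    split_ifs <;> simp
  rw [h, R_eq]
  apply mon_mem_MonS
  simp only [Quad, Set.mem_ofPred_eq]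
  split_ifs <;> omega

theorem wu_inv_mem (s : Chart) : (wu s)⁻¹ ∈ R s := by
  have h : (wu s)⁻¹ = mon (0, (if s.2 then -1 else 0)) := by
    unfold wu mon
    split_ifs <;> simp
  rw [h, R_eq]
  apply mon_mem_MonS
  simp only [Quad, Set.mem_ofPred_eq]
  split_ifs <;> omega

theorem x_div_mem (s : Chart) : (wx s)⁻¹ * x ∈ R s := by
  have h : (wx s)⁻¹ * x = mon ((if s.1 then 0 else 1), 0) := by
    unfold wx mon
    split_ifs
    · simp [inv_mul_cancel₀ x_ne_zero]
    · simp
  rw [h, R_eq]
  apply mon_mem_MonS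
  simp only [Quad, Set.mem_ofPred_eq]
  split_ifs <;> omega

theorem u_div_mem (s : Chart) : (wu s)⁻¹ * u ∈ R s := by
  have h : (wu s)⁻¹ * u = mon (0, (if s.2 then 0 else 1)) := by
    unfold wu mon
    split_ifs
    · simp [inv_mul_cancel₀ u_ne_zero]
    · simp
  rw [h, R_eq]
  apply mon_mem_MonS
  simp only [Quad, Set.mem_ofPred_eq]
  split_ifs <;> omega

theorem clo_Sec (hF : IsLat F) : Clo x u (fun a b : ℕ => Sec F (a : ℤ) (b : ℤ)) := by
  have hx : ∀ (s : Chart) (a b : ℕ), (wx s ^ ((a + 1 : ℕ) : ℤ) * wu s ^ (b : ℤ))⁻¹ =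
      (wx s)⁻¹ * (wx s ^ (a : ℤ) * wu s ^ (b : ℤ))⁻¹ := by
    intro s a b
    push_cast
    rw [zpow_add_one₀ (wx_ne_zero s), ← mul_inv]
    congr 1
    ring
  have hu : ∀ (s : Chart) (a b : ℕ), (wx s ^ (a : ℤ) * wu s ^ ((b + 1 : ℕ) : ℤ))⁻¹ =
      (wu s)⁻¹ * (wx s ^ (a : ℤ) * wu s ^ (b : ℤ))⁻¹ := by
    intro s a b
    push_cast
    rw [zpow_add_one₀ (wu_ne_zero s), ← mul_inv]
    congr 1
    ring
  refine ⟨?_, ?_, ?_, ?_⟩
  · intro a b v hv
    rw [mem_Sec] at hv ⊢
    intro s
    rw [hx, mul_smul]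
    exact hF.smul_mem (wx_inv_mem s) (hv s)
  · intro a b v hv
    rw [mem_Sec] at hv ⊢
    intro s
    have h1 : (wx s ^ ((a + 1 : ℕ) : ℤ) * wu s ^ (b : ℤ))⁻¹ • x • v =
        ((wx s)⁻¹ * x) • (wx s ^ (a : ℤ) * wu s ^ (b : ℤ))⁻¹ • v := by
      rw [hx, smul_smul, smul_smul]
      congr 1
      ring
    rw [h1]
    exact hF.smul_mem (x_div_mem s) (hv s)
  · intro a b v hv
    rw [mem_Sec] at hv ⊢
    intro s
    rw [hu, mul_smul]
    exact hF.smul_mem (wu_inv_mem s) (hv s)
  · intro a b v hv
    rw [mem_Sec] at hv ⊢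
    intro s
    have h1 : (wx s ^ (a : ℤ) * wu s ^ ((b + 1 : ℕ) : ℤ))⁻¹ • u • v =
        ((wu s)⁻¹ * u) • (wx s ^ (a : ℤ) * wu s ^ (b : ℤ))⁻¹ • v := by
      rw [hu, smul_smul, smul_smul]
      congr 1
      ring
    rw [h1]
    exact hF.smul_mem (u_div_mem s) (hv s)

/-- The coordinates of the local sections of a lattice are bounded. -/
theorem exists_coord [Module.Finite K V] (hF : IsLat F) :
    ∃ (d : ℕ) (b : Module.Basis (Fin d) K V) (c : K) (N : ℕ), c ≠ 0 ∧
      ∀ (s : Chart) (v : V), v ∈ F s → ∀ i, (w s ^ N)⁻¹ * (c * b.repr v i) ∈ R s := by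
  choose T hTfg hT using hF.fg
  let b := Module.finBasis K V
  obtain ⟨t, ht⟩ : (⨆ s, T s).FG := Submodule.fg_iSup _ hTfg
  classical
  obtain ⟨c, hc, N, hN⟩ := exists_denom
    ((t ×ˢ (Finset.univ : Finset (Fin (Module.finrank K V)))).image fun p => b.repr p.1 p.2)
  refine ⟨_, b, c, N, hc, fun s v hv i => ?_⟩
  -- coordinates of elements of `T`
  have hcoord : ∀ y ∈ (⨆ s, T s), ∀ i, c * b.repr y i ∈ W N := by
    intro y hy i
    rw [← ht] at hy
    induction hy using Submodule.span_induction with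
    | mem y hy =>
      apply hN
      rw [Finset.mem_image]
      exact ⟨(y, i), by simpa using hy, rfl⟩
    | zero => simp
    | add y z _ _ hy hz =>
      rw [map_add, Finsupp.add_apply, mul_add]; exact Submodule.add_mem _ hy hz
    | smul a y _ hy =>
      have : b.repr (a • y) i = a • b.repr y i := by
        rw [← algebraMap_smul K a y, map_smul, Finsupp.smul_apply, algebraMap_smul]
      rw [this, mul_smul_comm]; exact Submodule.smul_mem _ _ hy
  have hcoord2 : ∀ y ∈ R s • T s, c * b.repr y i ∈ line (w s ^ N) * R s := by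
    intro y hy
    refine Submodule.smul_induction_on hy ?_ ?_
    · intro r hr y hy
      rw [map_smul, Finsupp.smul_apply, smul_eq_mul]
      have h1 : c * b.repr y i ∈ W N := hcoord y ((le_iSup T s) hy) i
      have h2 : c * (r * b.repr y i) = r * (c * b.repr y i) := by ring
      rw [h2]
      have := Submodule.mul_mem_mul hr h1
      rw [R_mul_W] at this
      exact this
    · intro y z hy hz
      rw [map_add, Finsupp.add_apply, mul_add]; exact Submodule.add_mem _ hy hz
  have hv' : v ∈ R s • T s := by rw [← hT s]; exact hv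
  have h3 : c * b.repr v i ∈ line (w s ^ N) • R s := hcoord2 v hv'
  rw [mem_line_smul_K (pow_ne_zero _ (w_ne_zero s)), smul_eq_mul] at h3
  exact h3

theorem exists_Mo [Module.Finite K V] (hF : IsLat F) :
    ∃ (d : ℕ) (e : Fin d → V) (N : ℕ), ∀ a b : ℕ,
      Sec F (a : ℤ) (b : ℤ) ≤ Submodule.span ℂ (Mo x u e (a + N) (b + N)) := by
  obtain ⟨d, B, c, N, hc, h⟩ := exists_coord hF
  refine ⟨d, fun i => c⁻¹ • B i, N, fun a b v hv => ?_⟩
  have hcv : ∀ i, c * B.repr v i ∈ MonS (Box2 ((a : ℤ) + N) ((b : ℤ) + N)) := by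
    intro i
    rw [← Sec_R, mem_Sec]
    intro s
    rw [mem_Sec] at hv
    have h1 := h s _ (hv s) i
    rw [map_smul, Finsupp.smul_apply, smul_eq_mul] at h1
    have h2 : (wx s ^ ((a : ℤ) + N) * wu s ^ ((b : ℤ) + N))⁻¹ • (c * B.repr v i) =
        (w s ^ N)⁻¹ * (c * ((wx s ^ (a : ℤ) * wu s ^ (b : ℤ))⁻¹ * B.repr v i)) := by
      have h3 : w s ^ N = wx s ^ (N : ℤ) * wu s ^ (N : ℤ) := by
        rw [w_zpow, zpow_natCast]
      rw [smul_eq_mul, h3, zpow_add₀ (wx_ne_zero s), zpow_add₀ (wu_ne_zero s), mul_inv, mul_inv,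
        mul_inv, mul_inv, mul_inv]
      ring
    rw [h2]
    exact h1
  have hv2 : v = ∑ i, (c * B.repr v i) • (c⁻¹ • B i) := by
    conv_lhs => rw [← B.sum_repr v]
    refine Finset.sum_congr rfl fun i _ => ?_
    rw [smul_smul]
    congr 1
    field_simp
  rw [hv2]
  refine Submodule.sum_mem _ fun i _ => ?_
  have key : ∀ z ∈ MonS (Box2 ((a : ℤ) + N) ((b : ℤ) + N)),
      z • (c⁻¹ • B i) ∈ Submodule.span ℂ (Mo x u (fun i => c⁻¹ • B i) (a + N) (b + N)) := by
    intro z hz
    unfold MonS at hz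
    induction hz using Submodule.span_induction with
    | mem z hz =>
      obtain ⟨p, hp, rfl⟩ := hz
      simp only [Box2, Set.mem_ofPred_eq] at hp
      apply Submodule.subset_span
      refine ⟨p.1.toNat, p.2.toNat, i, by omega, by omega, ?_⟩
      unfold mon
      rw [← zpow_natCast, ← zpow_natCast, Int.toNat_of_nonneg hp.1.1,
        Int.toNat_of_nonneg hp.2.1]
    | zero => rw [zero_smul]; exact Submodule.zero_mem _
    | add y z _ _ hy hz => rw [add_smul]; exact Submodule.add_mem _ hy hz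
    | smul r y _ hy => rw [smul_assoc]; exact Submodule.smul_mem _ r hy
  exact key _ (hcv i)

end sec

end BIGM

open BIGM in
theorem specBIG : SpecBIG := by
  intro V _ _ _ _ _ F hF
  obtain ⟨d, e, N, hN⟩ := exists_Mo hF
  have hclo := clo_Sec hF
  obtain ⟨n1, hn1⟩ := gen x u (fun a b : ℕ => Sec F (a : ℤ) (b : ℤ)) hclo e N hN
  have hclo' : Clo u x (fun a b : ℕ => Sec F (b : ℤ) (a : ℤ)) :=
    ⟨fun a b v hv => hclo.U b a v hv, fun a b v hv => hclo.Y b a v hv,
      fun a b v hv => hclo.T b a v hv, fun a b v hv => hclo.X b a v hv⟩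
  have hN' : ∀ a b : ℕ, Sec F (b : ℤ) (a : ℤ) ≤
      Submodule.span ℂ (Mo u x e (a + N) (b + N)) := by
    intro a b
    refine (hN b a).trans (Submodule.span_mono ?_)
    rintro v ⟨p, q, i, hp, hq, rfl⟩
    exact ⟨q, p, i, hq, hp, by rw [mul_comm]⟩
  obtain ⟨n2, hn2⟩ := gen u x (fun a b : ℕ => Sec F (b : ℤ) (a : ℤ)) hclo' e N hN'
  refine ⟨max n1 n2, fun a ha b => ⟨?_, ?_⟩⟩
  · intro v hv
    have hv' : v ∈ Sec F ((a + 1 : ℕ) : ℤ) (b : ℤ) := by
      push_cast
      exact hv
    obtain ⟨v1, hv1, v2, hv2, rfl⟩ := hn1 a (le_trans (le_max_left _ _) ha) b v hv'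
    exact Submodule.add_mem_sup hv1 (mem_line_smul.2 ⟨v2, hv2, rfl⟩)
  · intro v hv
    have hv' : v ∈ Sec F (b : ℤ) ((a + 1 : ℕ) : ℤ) := by
      push_cast
      exact hv
    obtain ⟨v1, hv1, v2, hv2, rfl⟩ := hn2 a (le_trans (le_max_right _ _) ha) b v hv'
    exact Submodule.add_mem_sup hv1 (mem_line_smul.2 ⟨v2, hv2, rfl⟩)

end Pool.Agent.Lib.LP.TW
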