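import Pool.Agent.Lib.MP_865fc0_ag.TW.SpecC

/-!
# CDB: lattices over a cyclic cover
-/

set_option autoImplicit false

open scoped Pointwise
open Filter

namespace Pool.Agent.Lib.LP.TW

namespace CDBM

section

variable {C : Type} [Field C] [Algebra ℂ C] [Algebra K C] [IsScalarTower ℂ K C]
variable {O : Chart → Submodule ℂ C}
variable {V : Type} [AddCommGroup V] [Module ℂ V] [Module K V] [IsScalarTower ℂ K V]
variable [Module C V] [IsScalarTower ℂ C V] [IsScalarTower K C V]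

/-- stability from elements -/
theorem stab (hO : Full C O) {G : Chart → Submodule ℂ V}
    (h : ∀ s, ∀ r ∈ O s, ∀ v ∈ G s, r • v ∈ G s) : O • G = G := by
  apply hO.ring.smul_eq_of_le
  intro s
  show O s • G s ≤ G s
  rw [Submodule.smul_le]
  exact h s

omit [Algebra K C] [IsScalarTower ℂ K C] [Module K V] [IsScalarTower ℂ K V] [IsScalarTower K C V] in
theorem stab' {G : Chart → Submodule ℂ V} (hG : O • G = G) {s : Chart} {r : C} (hr : r ∈ O s)
    {v : V} (hv : v ∈ G s) : r • v ∈ G s := by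
  have h : r • v ∈ (O • G) s := Submodule.smul_mem_smul hr hv
  rwa [hG] at h

/-- the twist by an opaque function -/
structure Om (a : ℕ) (s : Chart) (ω : K) : Prop where
  eq : ω = wx s ^ (-(a : ℤ)) * wu s ^ (-(a : ℤ))

theorem exists_om (a : ℕ) (s : Chart) : ∃ ω : K, Om a s ω := ⟨_, ⟨rfl⟩⟩

theorem Om.ne {a : ℕ} {s : Chart} {ω : K} (hω : Om a s ω) : ω ≠ 0 := by
  rw [hω.eq]
  exact wab_ne_zero s _ _

theorem Om.pow {a : ℕ} {s : Chart} {ω : K} (hω : Om a s ω) (i : ℕ) :
    wx s ^ (-((a * i : ℕ) : ℤ)) * wu s ^ (-((a * i : ℕ) : ℤ)) = ω ^ i := by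
  have e1 : (-((a * i : ℕ) : ℤ)) = (-(a : ℤ)) * (i : ℤ) := by
    push_cast
    ring
  rw [e1, zpow_mul, zpow_mul, zpow_natCast, zpow_natCast, ← mul_pow, ← hω.eq]

theorem mem_tw' {G : Chart → Submodule ℂ V} {a : ℕ} {s : Chart} {ω : K} (hω : Om a s ω) (i : ℕ)
    {v : V} (hv : v ∈ G s) :
    ω ^ i • v ∈ tw (-((a * i : ℕ) : ℤ)) (-((a * i : ℕ) : ℤ)) G s := by
  rw [mem_tw, hω.pow, smul_smul, inv_mul_cancel₀ (pow_ne_zero i hω.ne), one_smul]
  exact hv

theorem of_tw {G : Chart → Submodule ℂ V} {a : ℕ} {s : Chart} {ω : K} (hω : Om a s ω) (i : ℕ)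
    {v : V} (hv : v ∈ tw (-((a * i : ℕ) : ℤ)) (-((a * i : ℕ) : ℤ)) G s) :
    ∃ v' ∈ G s, v = ω ^ i • v' := by
  rw [mem_tw, hω.pow] at hv
  exact ⟨_, hv, by rw [smul_smul, mul_inv_cancel₀ (pow_ne_zero i hω.ne), one_smul]⟩

theorem tw_one (a : ℕ) (G : Chart → Submodule ℂ V) :
    tw (-((a * 1 : ℕ) : ℤ)) (-((a * 1 : ℕ) : ℤ)) G = tw (-(a : ℤ)) (-(a : ℤ)) G := by
  rw [mul_one]

theorem one_mem (hO : Full C O) (s : Chart) : (1 : C) ∈ O s :=
  Submodule.one_le.1 (hO.ring.one s)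

end

section

variable {C C' : Type} [Field C] [Algebra ℂ C] [Algebra K C] [IsScalarTower ℂ K C]
  [Field C'] [Algebra ℂ C'] [Algebra K C'] [IsScalarTower ℂ K C'] [Algebra C C']
  [IsScalarTower K C C'] [IsScalarTower ℂ C C'] {O : Chart → Submodule ℂ C}
  {O' : Chart → Submodule ℂ C'} {d a : ℕ} {y : C'}

omit [IsScalarTower K C C'] [IsScalarTower ℂ C C'] in
/-- the monomials of the ring -/
theorem mem_mon (hD : CCov C C' O O' d a y) {s : Chart} {i : ℕ} (hi : i < d) {g : C}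
    (hg : g ∈ tw (-((a * i : ℕ) : ℤ)) (-((a * i : ℕ) : ℤ)) O s) :
    algebraMap C C' g * y ^ i ∈ O' s := by
  classical
  refine (hD.eq s _).2 ⟨fun j => if j = i then g else 0, ?_, ?_⟩
  · intro j _
    by_cases h : j = i
    · subst h
      simpa using hg
    · simp only [if_neg h]
      exact Submodule.zero_mem _
  · rw [Finset.sum_eq_single i]
    · simp only [if_true]
    · intro j _ hj
      simp only [if_neg hj, map_zero, zero_mul]
    · intro h
      exact absurd (Finset.mem_range.2 hi) h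

theorem mem_f (hD : CCov C C' O O' d a y) {s : Chart} {f : C} (hf : f ∈ O s) :
    algebraMap C C' f ∈ O' s := by
  have hd := hD.deg
  obtain ⟨ω, hω⟩ := exists_om a s
  have h1 := mem_tw' hω 0 hf
  rw [pow_zero, one_smul] at h1
  have h2 := mem_mon hD (i := 0) (by omega) h1
  rwa [pow_zero, mul_one] at h2

theorem mem_d (hO : Full C O) (hO' : Full C' O') (hD : CCov C C' O O' d a y) {s : Chart} {ω : K}
    (hω : Om a s ω) {f : C} (hf : y ^ d = algebraMap C C' f) : ω ^ d • f ∈ O s := by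
  classical
  have hd := hD.deg
  obtain ⟨e, rfl⟩ : ∃ e, d = e + 1 := ⟨d - 1, by omega⟩
  have h1 := mem_mon hD (i := e) (by omega) (mem_tw' hω e (one_mem hO s))
  have h1' := mem_mon hD (i := 1) (by omega) (mem_tw' hω 1 (one_mem hO s))
  have h2 : (algebraMap C C' (ω ^ e • (1 : C)) * y ^ e) *
      (algebraMap C C' (ω ^ 1 • (1 : C)) * y ^ 1) ∈ O' s := by
    have h3 := Submodule.mul_mem_mul h1 h1'
    have h4 := congrFun hO'.ring.mul s
    rw [Pi.mul_apply] at h4
    rwa [h4] at h3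
  have h5 : (algebraMap C C' (ω ^ e • (1 : C)) * y ^ e) *
      (algebraMap C C' (ω ^ 1 • (1 : C)) * y ^ 1) = algebraMap C C' (ω ^ (e + 1) • f) := by
    rw [mul_mul_mul_comm, ← pow_add, hf, ← map_mul, ← map_mul]
    congr 1
    rw [smul_mul_smul_comm, smul_mul_assoc, one_mul, one_mul, ← pow_add]
  rw [h5] at h2
  obtain ⟨g, hg, h6⟩ := (hD.eq s _).1 h2
  have h8 := hD.free (fun i => g i - if i = 0 then ω ^ (e + 1) • f else 0) (by
    have h9 : ∀ i ∈ Finset.range (e + 1),
        algebraMap C C' (g i - if i = 0 then ω ^ (e + 1) • f else 0) * y ^ i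
        = algebraMap C C' (g i) * y ^ i
          - (if i = 0 then algebraMap C C' (ω ^ (e + 1) • f) else 0) := by
      intro i _
      by_cases hi : i = 0
      · subst hi
        simp
      · simp [hi]
    rw [Finset.sum_congr rfl h9, Finset.sum_sub_distrib, ← h6, Finset.sum_ite_eq',
      if_pos (Finset.mem_range.2 (by omega)), sub_self]) 0 (by omega)
  simp only [if_true] at h8
  rw [← sub_eq_zero.1 h8]
  obtain ⟨g', hg', h10⟩ := of_tw hω 0 (hg 0 (by omega))
  rw [h10, pow_zero, one_smul]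
  exact hg'

end

end CDBM

open CDBM in
theorem specCDB : SpecCDB := by
  intro C C' _ _ _ _ _ _ _ _ _ _ _ O O' d a y hO hO' hD V _ _ _ _ _ _ _ _ _ _ _ F hF
  have hd := hD.deg
  have hyK : ∀ (i : ℕ) (k : K) (v : V), y ^ i • k • v = k • y ^ i • v := fun i k v => by
    rw [← algebraMap_smul C' k v, ← algebraMap_smul C' k (y ^ i • v), smul_smul, smul_smul,
      mul_comm]
  have hCK : ∀ (k : K) (c : C) (v : V), c • k • v = k • c • v := fun k c v => by
    rw [← algebraMap_smul C k v, ← algebraMap_smul C k (c • v), smul_smul, smul_smul, mul_comm]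
  refine ⟨?_, ?_, ?_⟩
  · intro hOF
    refine ⟨?_, ?_⟩
    · apply stab hO
      intro s f hf v hv
      rw [← algebraMap_smul C' f v]
      exact stab' hOF (mem_f hD hf) hv
    · intro s v hv
      obtain ⟨v₁, hv₁, rfl⟩ := mem_ln_smul.1 hv
      obtain ⟨ω, hω⟩ := exists_om a s
      rw [← tw_one] at hv₁
      obtain ⟨v', hv', rfl⟩ := of_tw hω 1 hv₁
      have h2 := stab' hOF (mem_mon hD (i := 1) (by omega) (mem_tw' hω 1 (one_mem hO s))) hv'
      have h3 : (algebraMap C C' (ω ^ 1 • (1 : C)) * y ^ 1) • v' = y • ω ^ 1 • v' := by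
        have h4 := hyK 1 (ω ^ 1) v'
        rw [pow_one y] at h4
        rw [mul_smul, algebraMap_smul, smul_assoc, one_smul, pow_one y, h4]
      rwa [h3] at h2
  · intro hOF hy
    have hstep : ∀ (s : Chart) (ω : K), Om a s ω → ∀ (i : ℕ), ∀ u ∈ F s, y ^ i • ω ^ i • u ∈ F s := by
      intro s ω hω i
      induction i with
      | zero =>
        intro u hu
        rwa [pow_zero, pow_zero, one_smul, one_smul]
      | succ i ih =>
        intro u hu
        have h1 := ih u hu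
        have h2 := mem_tw' hω 1 h1
        rw [tw_one] at h2
        have h3 : y • ω ^ 1 • y ^ i • ω ^ i • u ∈ F s := hy s (mem_ln_smul.2 ⟨_, h2, rfl⟩)
        have h4 : y • ω ^ 1 • y ^ i • ω ^ i • u = y ^ (i + 1) • ω ^ (i + 1) • u := by
          rw [← hyK i (ω ^ 1), smul_smul (ω ^ 1) (ω ^ i) u, ← pow_add, add_comm 1 i, smul_smul,
            ← pow_succ']
        rwa [h4] at h3
    apply stab hO'
    intro s r hr v hv
    obtain ⟨ω, hω⟩ := exists_om a s
    obtain ⟨g, hg, rfl⟩ := (hD.eq s r).1 hr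
    rw [Finset.sum_smul]
    refine Submodule.sum_mem _ ?_
    intro i hi
    obtain ⟨g', hg', h1⟩ := of_tw hω i (hg i (Finset.mem_range.1 hi))
    have h2 := hstep s ω hω i (g' • v) (stab' hOF hg' hv)
    have h4 : (algebraMap C C' (g i) * y ^ i) • v = y ^ i • ω ^ i • g' • v := by
      rw [h1, mul_comm, mul_smul, algebraMap_smul, smul_assoc]
    rw [h4]
    exact h2
  · intro hOF s v hv
    obtain ⟨v₁, hv₁, rfl⟩ := mem_ln_smul.1 hv
    obtain ⟨ω, hω⟩ := exists_om a s
    obtain ⟨v', hv', rfl⟩ := of_tw hω d hv₁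
    obtain ⟨f, hf⟩ := hD.root
    have h9 : y ^ d • ω ^ d • v' = (ω ^ d • f) • v' := by
      rw [hf, algebraMap_smul, hCK, smul_assoc]
    rw [h9]
    exact stab' hOF (mem_d hO hO' hD hω hf) hv'

end Pool.Agent.Lib.LP.TW
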