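import Pool.Agent.Lib.MP_865fc0_ag.TW.Spec

/-!
# DCB: lattices over a double cover
-/

set_option autoImplicit false

open scoped Pointwise
open Filter

namespace Pool.Agent.Lib.LP.TW

namespace DCBM

section

variable {C : Type} [Field C] [Algebra ℂ C] [Algebra K C] [IsScalarTower ℂ K C]
variable {O : Chart → Submodule ℂ C}
variable {V : Type} [AddCommGroup V] [Module ℂ V] [Module K V] [IsScalarTower ℂ K V]
variable [Module C V] [IsScalarTower ℂ C V] [IsScalarTower K C V]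

/-- stability from elements -/
theorem stab (hO : Full C O) {G : Chart → Submodule ℂ V}
    (h : ∀ s, ∀ r ∈ O s, ∀ v ∈ G s, r • v ∈ G s) : O • G = G := by
  apply hO.ring.smul_eq_of_le
  intro s
  show O s • G s ≤ G s
  rw [Submodule.smul_le]
  exact h s

theorem stab' {G : Chart → Submodule ℂ V} (hG : O • G = G) {s : Chart} {r : C} (hr : r ∈ O s)
    {v : V} (hv : v ∈ G s) : r • v ∈ G s := by
  have h : r • v ∈ (O • G) s := Submodule.smul_mem_smul hr hv
  rwa [hG] at h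

/-- the twist by an opaque function -/
structure Om (a : ℕ) (s : Chart) (ω : K) : Prop where
  eq : ω = wx s ^ (-(a : ℤ)) * wu s ^ (-(a : ℤ))

theorem exists_om (a : ℕ) (s : Chart) : ∃ ω : K, Om a s ω := ⟨_, ⟨rfl⟩⟩

theorem mem_tw' {G : Chart → Submodule ℂ V} {a : ℕ} {s : Chart} {ω : K} (hω : Om a s ω) {v : V}
    (hv : v ∈ G s) : ω • v ∈ tw (-(a : ℤ)) (-(a : ℤ)) G s := by
  rw [mem_tw, ← hω.eq, smul_smul, inv_mul_cancel₀ (by rw [hω.eq]; exact wab_ne_zero s _ _), one_smul]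
  exact hv

theorem of_tw {G : Chart → Submodule ℂ V} {a : ℕ} {s : Chart} {ω : K} (hω : Om a s ω) {v : V}
    (hv : v ∈ tw (-(a : ℤ)) (-(a : ℤ)) G s) : ∃ v' ∈ G s, v = ω • v' := by
  rw [mem_tw, ← hω.eq] at hv
  exact ⟨_, hv, by rw [smul_smul, mul_inv_cancel₀ (by rw [hω.eq]; exact wab_ne_zero s _ _), one_smul]⟩

theorem of_tw2 {G : Chart → Submodule ℂ V} {a : ℕ} {s : Chart} {ω : K} (hω : Om a s ω) {v : V}
    (hv : v ∈ tw (-2 * (a : ℤ)) (-2 * (a : ℤ)) G s) : ∃ v' ∈ G s, v = (ω * ω) • v' := by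
  have hω2 : wx s ^ (-2 * (a : ℤ)) * wu s ^ (-2 * (a : ℤ)) = ω * ω := by
    have e1 : (-2 * (a : ℤ)) = -(a : ℤ) + -(a : ℤ) := by ring
    rw [e1, zpow_add₀ (wx_ne_zero s), zpow_add₀ (wu_ne_zero s), hω.eq]
    ring
  have h0 : ω ≠ 0 := by rw [hω.eq]; exact wab_ne_zero s _ _
  rw [mem_tw, hω2] at hv
  exact ⟨_, hv, by rw [smul_smul, mul_inv_cancel₀ (mul_ne_zero h0 h0), one_smul]⟩

theorem one_mem (hO : Full C O) (s : Chart) : (1 : C) ∈ O s :=
  Submodule.one_le.1 (hO.ring.one s)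

end

section

variable {C C' : Type} [Field C] [Algebra ℂ C] [Algebra K C] [IsScalarTower ℂ K C]
  [Field C'] [Algebra ℂ C'] [Algebra K C'] [IsScalarTower ℂ K C'] [Algebra C C']
  [IsScalarTower K C C'] [IsScalarTower ℂ C C'] {O : Chart → Submodule ℂ C}
  {O' : Chart → Submodule ℂ C'} {a : ℕ} {y : C'}

theorem mem_f (hD : DCov C C' O O' a y) {s : Chart} {f : C} (hf : f ∈ O s) :
    algebraMap C C' f ∈ O' s :=
  (hD.eq s _).2 ⟨f, hf, 0, Submodule.zero_mem _, by rw [map_zero, zero_mul, add_zero]⟩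

theorem mem_y (hO : Full C O) (hD : DCov C C' O O' a y) {s : Chart} {ω : K} (hω : Om a s ω) :
    algebraMap C C' (ω • (1 : C)) * y ∈ O' s :=
  (hD.eq s _).2 ⟨0, Submodule.zero_mem _, ω • (1 : C), mem_tw' hω (one_mem hO s), by
    rw [map_zero, zero_add]⟩

theorem mem_d (hO : Full C O) (hO' : Full C' O') (hD : DCov C C' O O' a y) {s : Chart} {ω : K}
    (hω : Om a s ω) {d : C} (hd : y * y = algebraMap C C' d) : (ω * ω) • d ∈ O s := by
  have h1 := mem_y hO hD hω
  have h2 : (algebraMap C C' (ω • (1 : C)) * y) * (algebraMap C C' (ω • (1 : C)) * y) ∈ O' s := by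
    have h3 := Submodule.mul_mem_mul h1 h1
    have h4 := congrFun hO'.ring.mul s
    rw [Pi.mul_apply] at h4
    rwa [h4] at h3
  have h5 : (algebraMap C C' (ω • (1 : C)) * y) * (algebraMap C C' (ω • (1 : C)) * y) =
      algebraMap C C' ((ω * ω) • d) := by
    rw [mul_mul_mul_comm, hd, ← map_mul, ← map_mul]
    congr 1
    rw [smul_mul_smul_comm, smul_mul_assoc, one_mul, one_mul]
  rw [h5] at h2
  obtain ⟨f, hf, g, -, h6⟩ := (hD.eq s _).1 h2
  have h8 := hD.free ((ω * ω) • d - f) (-g) (by rw [map_sub, map_neg, h6]; ring)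
  rw [sub_eq_zero.1 h8.1]
  exact hf

end

end DCBM

open DCBM in
theorem specDCB : SpecDCB := by
  intro C C' _ _ _ _ _ _ _ _ _ _ _ O O' a y hO hO' hD V _ _ _ _ _ _ _ _ _ _ _ F hF
  have hyK : ∀ (k : K) (v : V), y • k • v = k • y • v := fun k v => by
    rw [← algebraMap_smul C' k v, ← algebraMap_smul C' k (y • v), smul_smul, smul_smul, mul_comm]
  have hyC : ∀ (c : C) (v : V), y • c • v = c • y • v := fun k v => by
    rw [← algebraMap_smul C' k v, ← algebraMap_smul C' k (y • v), smul_smul, smul_smul, mul_comm]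
  have hCK : ∀ (k : K) (c : C) (v : V), c • k • v = k • c • v := fun k c v => by
    rw [← algebraMap_smul C k v, ← algebraMap_smul C k (c • v), smul_smul, smul_smul, mul_comm]
  refine ⟨?_, ?_, ?_⟩
  · intro hOF
    refine ⟨?_, ?_⟩
    · apply stab hO
      intro s f hf v hv
      rw [← algebraMap_smul C' f v]
      exact stab' hOF (mem_f hD hf) hv
    · intro s v hv
      obtain ⟨v₁, hv₁, rfl⟩ := mem_ln_smul.1 hv
      obtain ⟨ω, hω⟩ := exists_om a s
      obtain ⟨v', hv', rfl⟩ := of_tw hω hv₁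
      have h2 := stab' hOF (mem_y hO hD hω) hv'
      have h3 : (algebraMap C C' (ω • (1 : C)) * y) • v' = y • ω • v' := by
        rw [mul_smul, algebraMap_smul, smul_assoc, one_smul, hyK]
      rwa [h3] at h2
  · intro hOF hy
    apply stab hO'
    intro s r hr v hv
    obtain ⟨ω, hω⟩ := exists_om a s
    obtain ⟨f, hf, g, hg, rfl⟩ := (hD.eq s r).1 hr
    obtain ⟨g', hg', rfl⟩ := of_tw hω hg
    rw [add_smul]
    refine Submodule.add_mem _ ?_ ?_
    · rw [algebraMap_smul]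
      exact stab' hOF hf hv
    · have h1 : g' • v ∈ F s := stab' hOF hg' hv
      have h2 : ω • g' • v ∈ tw (-(a : ℤ)) (-(a : ℤ)) F s := mem_tw' hω h1
      have h3 : y • ω • g' • v ∈ F s := hy s (mem_ln_smul.2 ⟨_, h2, rfl⟩)
      have h4 : (algebraMap C C' (ω • g') * y) • v = y • ω • g' • v := by
        rw [mul_smul, algebraMap_smul, smul_assoc, hyK, hyC]
      rw [h4]
      exact h3
  · intro hOF
    refine ⟨?_, ?_⟩
    · apply stab hO
      intro s r hr v hv
      obtain ⟨ω, hω⟩ := exists_om a s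
      obtain ⟨v₁, hv₁, rfl⟩ := mem_ln_smul.1 hv
      obtain ⟨v', hv', rfl⟩ := of_tw hω hv₁
      refine mem_ln_smul.2 ⟨_, mem_tw' hω (stab' hOF hr hv'), ?_⟩
      rw [← hyC, hCK]
    · intro s v hv
      obtain ⟨v₁, hv₁, rfl⟩ := mem_ln_smul.1 hv
      obtain ⟨v₂, hv₂, rfl⟩ := mem_ln_smul.1 hv₁
      obtain ⟨ω, hω⟩ := exists_om a s
      obtain ⟨v', hv', rfl⟩ := of_tw2 hω hv₂
      obtain ⟨d, hd⟩ := hD.sq
      have h9 : y • y • (ω * ω) • v' = ((ω * ω) • d) • v' := by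
        rw [smul_smul, hd, algebraMap_smul, hCK, smul_assoc]
      rw [h9]
      exact stab' hOF (mem_d hO hO' hD hω hd) hv'

end Pool.Agent.Lib.LP.TW
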