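import Pool.Agent.Lib.MP_865fc0_ag.TW.SpecC

/-!
# MP_865fc0_ag, TW, module DIV: divisibility

Everything is reduced to one chart: with `g = wx s ^ (-a) * wu s ^ (-a)`, `z = y g` and `N = F s` we
have `z N ⊆ N`, `v_i = g ^ i n_i` with `n_i ∈ N`, and the claim is
`∑ (c z) ^ i n_i ∈ z ^ j N` (`key`, by synthetic division).
-/

set_option autoImplicit false

open scoped Pointwise
open Filter

namespace Pool.Agent.Lib.LP.TW

noncomputable section

namespace DIVM

section abs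

variable {C' V : Type} [Field C'] [Algebra ℂ C'] [AddCommGroup V] [Module ℂ V] [Module C' V]
  [IsScalarTower ℂ C' V]

theorem pow_mem {z : C'} {N : Submodule ℂ V} (hz : ∀ v ∈ N, z • v ∈ N) (c : ℂ) (i : ℕ) {v : V}
    (hv : v ∈ N) : (algebraMap ℂ C' c * z) ^ i • v ∈ N := by
  induction i with
  | zero => simpa using hv
  | succ i ih =>
    rw [pow_succ', mul_smul, mul_smul, algebraMap_smul]
    exact N.smul_mem _ (hz _ ih)

/-- synthetic division -/
theorem division (X Z : C') (n : ℕ) (v : ℕ → V) :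
    ∑ l ∈ Finset.range n, X ^ l • v l = (X - Z) • ∑ i ∈ Finset.range n, X ^ i •
      (∑ l ∈ Finset.range n, if i < l then Z ^ (l - 1 - i) • v l else 0) +
      ∑ l ∈ Finset.range n, Z ^ l • v l := by
  have h1 : ∑ i ∈ Finset.range n, X ^ i •
      (∑ l ∈ Finset.range n, if i < l then Z ^ (l - 1 - i) • v l else 0) =
      ∑ l ∈ Finset.range n, (∑ i ∈ Finset.range l, X ^ i * Z ^ (l - 1 - i)) • v l := by
    simp_rw [Finset.smul_sum]
    rw [Finset.sum_comm]
    refine Finset.sum_congr rfl fun l hl => ?_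
    rw [Finset.sum_smul]
    have hsub : Finset.range l ⊆ Finset.range n :=
      Finset.range_subset_range.2 (Finset.mem_range.1 hl).le
    rw [← Finset.sum_subset hsub]
    · refine Finset.sum_congr rfl fun i hi => ?_
      rw [if_pos (Finset.mem_range.1 hi), mul_smul]
    · intro i _ hi
      rw [if_neg (fun h => hi (Finset.mem_range.2 h)), smul_zero]
  rw [h1, Finset.smul_sum, ← Finset.sum_add_distrib]
  refine Finset.sum_congr rfl fun l _ => ?_
  rw [← mul_smul, ← add_smul]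
  congr 1
  rw [mul_comm (X - Z), geom_sum₂_mul]
  ring

theorem key {z : C'} (hz0 : z ≠ 0) {N : Submodule ℂ V} (hz : ∀ v ∈ N, z • v ∈ N) (n : ℕ) :
    ∀ (j : ℕ) (ζ : ℕ → ℂ), (∀ k < j, ∀ l < j, ζ k = ζ l → k = l) → ∀ v : ℕ → V,
      (∀ i < n, v i ∈ N) →
      (∀ k < j, ∑ i ∈ Finset.range n, (algebraMap ℂ C' (ζ k) * z) ^ i • v i = 0) → ∀ c : ℂ,
      ∃ m ∈ N, ∑ i ∈ Finset.range n, (algebraMap ℂ C' c * z) ^ i • v i = z ^ j • m := by
  intro j
  induction j with
  | zero =>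
    intro ζ _ v hv _ c
    refine ⟨_, ?_, by rw [pow_zero, one_smul]⟩
    exact N.sum_mem fun i hi => pow_mem hz c i (hv i (Finset.mem_range.1 hi))
  | succ j ih =>
    intro ζ hζ v hv h0 c
    set q : ℕ → V := fun i => ∑ l ∈ Finset.range n,
      if i < l then (algebraMap ℂ C' (ζ 0) * z) ^ (l - 1 - i) • v l else 0 with hq
    have hqN : ∀ i < n, q i ∈ N := by
      intro i _
      refine N.sum_mem fun l hl => ?_
      split_ifs
      · exact pow_mem hz _ _ (hv l (Finset.mem_range.1 hl))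
      · exact N.zero_mem
    have hdiv : ∀ c : ℂ, ∑ i ∈ Finset.range n, (algebraMap ℂ C' c * z) ^ i • v i =
        (algebraMap ℂ C' (c - ζ 0) * z) •
          ∑ i ∈ Finset.range n, (algebraMap ℂ C' c * z) ^ i • q i := by
      intro c
      rw [division (algebraMap ℂ C' c * z) (algebraMap ℂ C' (ζ 0) * z) n v,
        h0 0 (Nat.succ_pos j), add_zero, map_sub, sub_mul]
    have hq0 : ∀ k < j, ∑ i ∈ Finset.range n, (algebraMap ℂ C' (ζ (k + 1)) * z) ^ i • q i = 0 := by
      intro k hk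
      have h1 := hdiv (ζ (k + 1))
      rw [h0 (k + 1) (by omega)] at h1
      have h2 : algebraMap ℂ C' (ζ (k + 1) - ζ 0) * z ≠ 0 := by
        refine mul_ne_zero ?_ hz0
        rw [map_ne_zero_iff _ (algebraMap ℂ C').injective, sub_ne_zero]
        intro h
        have := hζ (k + 1) (by omega) 0 (by omega) h
        omega
      exact (smul_eq_zero.1 h1.symm).resolve_left h2
    obtain ⟨m, hm, hm2⟩ := ih (fun k => ζ (k + 1))
      (fun k hk l hl h => by
        have := hζ (k + 1) (by omega) (l + 1) (by omega) h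
        omega) q hqN hq0 c
    refine ⟨(c - ζ 0) • m, N.smul_mem _ hm, ?_⟩
    rw [hdiv c, hm2, ← algebraMap_smul C' (c - ζ 0) m, ← mul_smul, ← mul_smul]
    congr 1
    ring

end abs

end DIVM

open DIVM in
theorem specDIV : SpecDIV := by
  intro C' _ _ _ _ V _ _ _ _ _ _ _ F _ a y hy hF s n j ζ hζ v hv h0 c
  set g : K := wx s ^ (-(a : ℤ)) * wu s ^ (-(a : ℤ)) with hg
  have hg0 : g ≠ 0 := wab_ne_zero s _ _
  have hpow : ∀ i : ℕ, wx s ^ (-((a * i : ℕ) : ℤ)) * wu s ^ (-((a * i : ℕ) : ℤ)) = g ^ i := by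
    intro i
    have h1 : (-((a * i : ℕ) : ℤ)) = (-(a : ℤ)) * (i : ℤ) := by push_cast; ring
    rw [h1, zpow_mul, zpow_mul, zpow_natCast, zpow_natCast, hg, mul_pow]
  set z : C' := y * algebraMap K C' g with hzdef
  have hz0 : z ≠ 0 := mul_ne_zero hy ((map_ne_zero_iff _ (algebraMap K C').injective).2 hg0)
  have hz : ∀ v ∈ F s, z • v ∈ F s := by
    intro v hv
    apply hF s
    show z • v ∈ line y • tw (-(a : ℤ)) (-(a : ℤ)) F s
    rw [mem_line_smul]
    refine ⟨g • v, ?_, ?_⟩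
    · rw [mem_tw, ← hg, inv_smul_smul₀ hg0]
      exact hv
    · rw [hzdef, mul_smul y (algebraMap K C' g) v, algebraMap_smul]
  have hpz : ∀ (c : ℂ) (i : ℕ) (m : V),
      (algebraMap ℂ C' c * y) ^ i • (g ^ i • m) = (algebraMap ℂ C' c * z) ^ i • m := by
    intro c i m
    rw [← algebraMap_smul C' (g ^ i) m, ← mul_smul, map_pow, ← mul_pow, hzdef, mul_assoc]
  have hv' : ∀ i < n, (g ^ i)⁻¹ • v i ∈ F s := by
    intro i hi
    have := hv i hi
    rw [mem_tw, hpow] at this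
    exact this
  have hsum : ∀ c : ℂ, ∑ i ∈ Finset.range n, (algebraMap ℂ C' c * y) ^ i • v i =
      ∑ i ∈ Finset.range n, (algebraMap ℂ C' c * z) ^ i • ((g ^ i)⁻¹ • v i) := by
    intro c
    refine Finset.sum_congr rfl fun i _ => ?_
    rw [← hpz c i, smul_inv_smul₀ (pow_ne_zero i hg0)]
  obtain ⟨m, hm, hm2⟩ := key hz0 hz n j ζ hζ (fun i => (g ^ i)⁻¹ • v i) hv'
    (fun k hk => by rw [← hsum]; exact h0 k hk) c
  show _ ∈ line (y ^ j) • tw (-((a * j : ℕ) : ℤ)) (-((a * j : ℕ) : ℤ)) F s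
  rw [mem_line_smul]
  refine ⟨g ^ j • m, ?_, ?_⟩
  · rw [mem_tw, hpow, inv_smul_smul₀ (pow_ne_zero j hg0)]
    exact hm
  · rw [hsum c, hm2, ← algebraMap_smul C' (g ^ j) m, ← mul_smul, map_pow, ← mul_pow]

end

end Pool.Agent.Lib.LP.TW
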