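import Pool.Agent.Lib.MP_865fc0_ag.TW.SpecC

/-!
# MP_865fc0_ag, TW, module FUC: the structure sheaf of a cyclic cover
-/

set_option autoImplicit false
set_option linter.unusedSectionVars false

open scoped Pointwise
open Filter

namespace Pool.Agent.Lib.LP.TW

noncomputable section

namespace FUCM

section

variable {L L' : Type} [Field L] [Algebra ℂ L] [Algebra K L] [IsScalarTower ℂ K L]
variable [Field L'] [Algebra ℂ L'] [Algebra K L'] [IsScalarTower ℂ K L'] [Algebra L L']
variable [IsScalarTower K L L'] [IsScalarTower ℂ L L']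

variable (L) in
/-- the map `g ↦ g y^i` -/
def q (y : L') (i : ℕ) : L →ₗ[K] L' :=
  (LinearMap.mulRight K (y ^ i)).comp (IsScalarTower.toAlgHom K L L').toLinearMap

theorem q_apply (y : L') (i : ℕ) (g : L) : q L y i g = algebraMap L L' g * y ^ i := rfl

/-- the partial sums -/
def Pk (O : Chart → Submodule ℂ L) (a : ℕ) (y : L') : ℕ → Chart → Submodule ℂ L'
  | 0 => ⊥
  | k + 1 => Pk O a y k ⊔ mapL (q L y k) (tw (-((a * k : ℕ) : ℤ)) (-((a * k : ℕ) : ℤ)) O)

variable {O : Chart → Submodule ℂ L} {O' : Chart → Submodule ℂ L'} {d a : ℕ} {y : L'}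

theorem mem_Pk (k : ℕ) (s : Chart) (v : L') : v ∈ Pk O a y k s ↔ ∃ g : ℕ → L,
    (∀ i < k, g i ∈ tw (-((a * i : ℕ) : ℤ)) (-((a * i : ℕ) : ℤ)) O s) ∧
      v = ∑ i ∈ Finset.range k, algebraMap L L' (g i) * y ^ i := by
  induction k generalizing v with
  | zero =>
    show v ∈ (⊥ : Submodule ℂ L') ↔ _
    rw [Submodule.mem_bot]
    constructor
    · intro hv
      exact ⟨0, fun i hi => absurd hi (Nat.not_lt_zero i), by rw [Finset.sum_range_zero]; exact hv⟩
    · rintro ⟨g, -, hv⟩
      rwa [Finset.sum_range_zero] at hv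
  | succ k ih =>
    show v ∈ (Pk O a y k ⊔ mapL (q L y k) (tw (-((a * k : ℕ) : ℤ)) (-((a * k : ℕ) : ℤ)) O)) s ↔ _
    rw [Pi.sup_apply, Submodule.mem_sup]
    constructor
    · rintro ⟨v1, hv1, _, ⟨h, hh, rfl⟩, rfl⟩
      obtain ⟨g, hg, rfl⟩ := (ih v1).1 hv1
      refine ⟨Function.update g k h, ?_, ?_⟩
      · intro i hi
        rcases Nat.lt_succ_iff_lt_or_eq.1 hi with hi | hi
        · rw [Function.update_of_ne hi.ne]
          exact hg i hi
        · rw [hi, Function.update_self]
          exact hh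
      · rw [Finset.sum_range_succ, Function.update_self]
        congr 1
        apply Finset.sum_congr rfl
        intro i hi
        rw [Function.update_of_ne (Finset.mem_range.1 hi).ne]
    · rintro ⟨g, hg, rfl⟩
      refine ⟨∑ i ∈ Finset.range k, algebraMap L L' (g i) * y ^ i,
        (ih _).2 ⟨g, fun i hi => hg i (hi.trans (Nat.lt_succ_self k)), rfl⟩,
        algebraMap L L' (g k) * y ^ k, ⟨g k, hg k (Nat.lt_succ_self k), rfl⟩, ?_⟩
      rw [Finset.sum_range_succ]

theorem O'_eq (h : CCov L L' O O' d a y) : O' = Pk O a y d := by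
  funext s
  ext v
  rw [h.eq, mem_Pk]

theorem y_ne (h : CCov L L' O O' d a y) : y ≠ 0 := by
  intro hy
  have h1 := h.free (fun i => if i = 1 then 1 else 0) (by
    apply Finset.sum_eq_zero
    intro i _
    by_cases hi : i = 1
    · rw [hi, hy, pow_one, mul_zero]
    · rw [if_neg hi, map_zero, zero_mul]) 1 h.deg
  rw [if_pos rfl] at h1
  exact one_ne_zero h1

theorem inj (h : CCov L L' O O' d a y) (k : ℕ) : Function.Injective (q L y k) := by
  rw [← LinearMap.ker_eq_bot, LinearMap.ker_eq_bot']
  intro g hg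
  rw [q_apply] at hg
  rcases mul_eq_zero.1 hg with h1 | h1
  · exact (map_eq_zero _).1 h1
  · exact absurd h1 (pow_ne_zero _ (y_ne h))

theorem inf_eq (h : CCov L L' O O' d a y) {k : ℕ} (hk : k < d) :
    Pk O a y k ⊓ mapL (q L y k) (tw (-((a * k : ℕ) : ℤ)) (-((a * k : ℕ) : ℤ)) O) = ⊥ := by
  funext s
  rw [Pi.inf_apply, Pi.bot_apply, eq_bot_iff]
  rintro v ⟨hv, ⟨g0, _, hg0⟩⟩
  obtain ⟨g, hg, hgv⟩ := (mem_Pk k s v).1 hv
  have hg0' : algebraMap L L' g0 * y ^ k = v := hg0
  obtain ⟨g', hg'⟩ : ∃ g' : ℕ → L, g' = fun i => if i < k then g i else if i = k then -g0 else 0 :=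
    ⟨_, rfl⟩
  have h1 : ∑ i ∈ Finset.range d, algebraMap L L' (g' i) * y ^ i = 0 := by
    have h2 : ∑ i ∈ Finset.range (k + 1), algebraMap L L' (g' i) * y ^ i =
        ∑ i ∈ Finset.range d, algebraMap L L' (g' i) * y ^ i := by
      apply Finset.sum_subset
      · intro i hi
        rw [Finset.mem_range] at hi ⊢
        omega
      · intro i _ hi
        rw [Finset.mem_range, not_lt] at hi
        have h3 : g' i = 0 := by
          rw [hg']
          show (if i < k then g i else if i = k then -g0 else 0) = 0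
          rw [if_neg (by omega), if_neg (by omega)]
        rw [h3, map_zero, zero_mul]
    rw [← h2, Finset.sum_range_succ]
    have h4 : g' k = -g0 := by
      rw [hg']
      show (if k < k then g k else if k = k then -g0 else 0) = -g0
      rw [if_neg (lt_irrefl k), if_pos rfl]
    have h5 : ∑ i ∈ Finset.range k, algebraMap L L' (g' i) * y ^ i = v := by
      rw [hgv]
      apply Finset.sum_congr rfl
      intro i hi
      have h6 : g' i = g i := by
        rw [hg']
        show (if i < k then g i else if i = k then -g0 else 0) = g i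
        rw [if_pos (Finset.mem_range.1 hi)]
      rw [h6]
    rw [h5, h4, map_neg, neg_mul, hg0', add_neg_cancel]
  have h7 := h.free g' h1 k hk
  have h4 : g' k = -g0 := by
    rw [hg']
    show (if k < k then g k else if k = k then -g0 else 0) = -g0
    rw [if_neg (lt_irrefl k), if_pos rfl]
  rw [h4, neg_eq_zero] at h7
  rw [Submodule.mem_bot, ← hg0', h7, map_zero, zero_mul]

/-- `L'` is isomorphic to the `d`-th power of `L` -/
def equ (h : CCov L L' O O' d a y) : (Fin d → L) ≃ₗ[K] L' :=
  LinearEquiv.ofBijective (∑ i : Fin d, (q L y i).comp (LinearMap.proj i)) (by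
    have happ : ∀ g : Fin d → L, (∑ i : Fin d, (q L y i).comp (LinearMap.proj i)) g =
        ∑ i : Fin d, algebraMap L L' (g i) * y ^ (i : ℕ) := by
      intro g
      rw [LinearMap.sum_apply]
      rfl
    constructor
    · rw [← LinearMap.ker_eq_bot, LinearMap.ker_eq_bot']
      intro g hg
      rw [happ] at hg
      have h1 := h.free (fun i => if hi : i < d then g ⟨i, hi⟩ else 0) (by
        rw [Finset.sum_range, ← hg]
        apply Finset.sum_congr rfl
        intro i _
        rw [dif_pos i.2])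
      funext i
      have h2 := h1 i i.2
      rw [dif_pos i.2] at h2
      exact h2
    · intro v
      obtain ⟨g, hv⟩ := h.gen v
      refine ⟨fun i => g i, ?_⟩
      rw [happ, hv, Finset.sum_range])

theorem finite' (h : CCov L L' O O' d a y) (hf : Module.Finite K L) : Module.Finite K L' :=
  Module.Finite.equiv (equ h)

theorem finrank' (h : CCov L L' O O' d a y) (hf : Module.Finite K L) :
    Module.finrank K L' = d * Module.finrank K L := by
  rw [← (equ h).finrank_eq, Module.finrank_pi_fintype, Finset.sum_const, Finset.card_univ,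
    Fintype.card_fin, smul_eq_mul]

theorem latk (hO : IsLat O) (k : ℕ) : IsLat (Pk O a y k) := by
  induction k with
  | zero => exact IsLat.bot
  | succ k ih => exact ih.sup ((hO.tw _ _).map _)

theorem tw_ff (a b : ℤ) (O : Chart → Submodule ℂ L) : tw a b O (false, false) = O (false, false) := by
  unfold tw wx wu
  simp only [Bool.false_eq_true, if_false, one_zpow, mul_one, line_one]
  exact Submodule.one_smul _

theorem span' (h : CCov L L' O O' d a y)
    (hs : Submodule.span K (O (false, false) : Set L) = ⊤) :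
    Submodule.span K (O' (false, false) : Set L') = ⊤ := by
  have h1 : ∀ i < d, ∀ f : L, q L y i f ∈ Submodule.span K (O' (false, false) : Set L') := by
    intro i hi f
    have h2 : Submodule.map (q L y i) (Submodule.span K (O (false, false) : Set L)) ≤
        Submodule.span K (O' (false, false) : Set L') := by
      rw [Submodule.map_span, Submodule.span_le]
      rintro _ ⟨g, hg, rfl⟩
      apply Submodule.subset_span
      rw [SetLike.mem_coe, h.eq]
      refine ⟨Function.update (0 : ℕ → L) i g, ?_, ?_⟩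
      · intro j _
        rw [tw_ff]
        by_cases hj : j = i
        · rw [hj, Function.update_self]
          exact hg
        · rw [Function.update_of_ne hj]
          exact Submodule.zero_mem _
      · rw [q_apply, Finset.sum_eq_single i]
        · rw [Function.update_self]
        · intro j _ hj
          rw [Function.update_of_ne hj, Pi.zero_apply, map_zero, zero_mul]
        · intro hi'
          exact absurd (Finset.mem_range.2 hi) hi'
    apply h2
    rw [hs]
    exact ⟨f, Submodule.mem_top, rfl⟩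
  rw [eq_top_iff]
  intro v _
  obtain ⟨g, hv⟩ := h.gen v
  rw [hv]
  exact Submodule.sum_mem _ fun i hi => h1 i (Finset.mem_range.1 hi) (g i)

theorem chik (h : CCov L L' O O' d a y) (hf : Module.Finite K L) (hO : IsLat O) (b c : ℤ) (k : ℕ)
    (hk : k ≤ d) : chi (Pk O a y k) b c =
      lead O * (k * b * c - (b + c) * a * (∑ i ∈ Finset.range k, (i : ℤ)) +
        a ^ 2 * ∑ i ∈ Finset.range k, (i : ℤ) ^ 2) +
      ca O * (k * b - a * ∑ i ∈ Finset.range k, (i : ℤ)) +
      cb O * (k * c - a * ∑ i ∈ Finset.range k, (i : ℤ)) + k * chi O 0 0 := by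
  have hf' : Module.Finite K L' := finite' h hf
  induction k with
  | zero =>
    show chi (⊥ : Chart → Submodule ℂ L') b c = _
    rw [IsLat.chi_bot, Finset.sum_range_zero, Finset.sum_range_zero]
    push_cast
    ring
  | succ k ih =>
    have h1 := (latk (a := a) (y := y) hO k).chi_sup
      ((hO.tw (-((a * k : ℕ) : ℤ)) (-((a * k : ℕ) : ℤ))).map (q L y k)) b c
    rw [inf_eq h hk, IsLat.chi_bot, ih (by omega),
      (hO.tw (-((a * k : ℕ) : ℤ)) (-((a * k : ℕ) : ℤ))).chi_map_of_injective (q L y k) (inj h k),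
      hO.chi_tw, hO.chi_eq (b + -((a * k : ℕ) : ℤ)) (c + -((a * k : ℕ) : ℤ)), add_zero] at h1
    show chi (Pk O a y k ⊔ mapL (q L y k) (tw (-((a * k : ℕ) : ℤ)) (-((a * k : ℕ) : ℤ)) O)) b c = _
    rw [h1, Finset.sum_range_succ, Finset.sum_range_succ]
    push_cast
    ring

theorem chiO' (h : CCov L L' O O' d a y) (hf : Module.Finite K L) (hO : IsLat O) (b c : ℤ) :
    chi O' b c =
      lead O * (d * b * c - (b + c) * a * (∑ i ∈ Finset.range d, (i : ℤ)) +
        a ^ 2 * ∑ i ∈ Finset.range d, (i : ℤ) ^ 2) +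
      ca O * (d * b - a * ∑ i ∈ Finset.range d, (i : ℤ)) +
      cb O * (d * c - a * ∑ i ∈ Finset.range d, (i : ℤ)) + d * chi O 0 0 := by
  have h1 := chik h hf hO b c d le_rfl
  rwa [← O'_eq h] at h1

theorem sum1 (d : ℕ) : 2 * ∑ i ∈ Finset.range d, (i : ℤ) = d * (d - 1) := by
  induction d with
  | zero => simp
  | succ d ih =>
    rw [Finset.sum_range_succ, mul_add, ih]
    push_cast
    ring

theorem sum2 (d : ℕ) : 6 * ∑ i ∈ Finset.range d, (i : ℤ) ^ 2 = (d - 1) * d * (2 * d - 1) := by
  induction d with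
  | zero => simp
  | succ d ih =>
    rw [Finset.sum_range_succ, mul_add, ih]
    push_cast
    ring

end

end FUCM

theorem specFUC : SpecFUC := by
  intro L L' _ _ _ _ _ _ _ _ _ _ _ d a y p e h hF hlam hchi
  have hfin : Module.Finite K L := hF.fin
  have hfin' : Module.Finite K L' := FUCM.finite' h hfin
  have hO : IsLat (strSheaf L) := hF.ring.lat
  have hrank := FUCM.finrank' h hfin
  have hlead : lead (strSheaf L) = Module.finrank K L := hO.lead_of_full hF.span
  have hlam' : lam (strSheaf L) = ca (strSheaf L) + cb (strSheaf L) := rfl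
  have hc := FUCM.chiO' h hfin hO
  have hlat : IsLat (strSheaf L') := by
    rw [FUCM.O'_eq h]
    exact FUCM.latk hO d
  obtain ⟨S1, hS1⟩ : ∃ S1 : ℤ, S1 = ∑ i ∈ Finset.range d, (i : ℤ) := ⟨_, rfl⟩
  obtain ⟨S2, hS2⟩ : ∃ S2 : ℤ, S2 = ∑ i ∈ Finset.range d, (i : ℤ) ^ 2 := ⟨_, rfl⟩
  have e1 := FUCM.sum1 d
  have e2 := FUCM.sum2 d
  rw [← hS1] at e1
  rw [← hS2] at e2
  rw [hlam'] at hlam
  refine ⟨⟨hfin', ⟨hlat, ?_, ?_⟩, FUCM.span' h hF.span⟩, ?_, ?_⟩
  · funext s
    exact Subalgebra.isIdempotentElem_toSubmodule _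
  · intro s
    rw [Pi.one_apply, Submodule.one_le]
    exact (Oalg L' s).one_mem
  · rw [lam_eq, hc, hc, hc, hlead, hrank, ← hS1, ← hS2]
    push_cast
    linear_combination (d : ℤ) * hlam - (a : ℤ) * (Module.finrank K L : ℤ) * e1
  · rw [hc, hlead, hrank, ← hS1, ← hS2]
    have hlamQ : (ca (strSheaf L) : ℚ) + cb (strSheaf L) = p * Module.finrank K L := by
      exact_mod_cast hlam
    have e1Q : 2 * (S1 : ℚ) = d * (d - 1) := by exact_mod_cast e1
    have e2Q : 6 * (S2 : ℚ) = (d - 1) * d * (2 * d - 1) := by exact_mod_cast e2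
    push_cast
    linear_combination (d : ℚ) * hchi - (a : ℚ) * S1 * hlamQ -
      (a : ℚ) * p * (Module.finrank K L : ℚ) / 2 * e1Q +
      (a : ℚ) ^ 2 * (Module.finrank K L : ℚ) / 6 * e2Q

end

end Pool.Agent.Lib.LP.TW
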