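import Pool.Agent.Lib.MP_865fc0_ag.TW.SpecG
import Pool.Agent.Lib.MP_865fc0_ag.TW.FUC

/-!
# MP_865fc0_ag, TW, module DUA: the Euler characteristic of the canonical sheaf of a cyclic cover
-/

set_option autoImplicit false
set_option linter.unusedSectionVars false

open scoped Pointwise
open Filter

namespace Pool.Agent.Lib.LP.TW

noncomputable section

namespace DUAM

open FUCM (Pk q q_apply mem_Pk)

section

variable {L L' : Type} [Field L] [Algebra ℂ L] [Algebra K L] [IsScalarTower ℂ K L]
variable [Field L'] [Algebra ℂ L'] [Algebra K L'] [IsScalarTower ℂ K L'] [Algebra L L']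
variable [IsScalarTower K L L'] [IsScalarTower ℂ L L']
variable {O : Chart → Submodule ℂ L} {O' : Chart → Submodule ℂ L'} {d a : ℕ} {y : L'}

theorem smul_mapq (W F : Chart → Submodule ℂ L) (y : L') (k : ℕ) :
    W • mapL (q L y k) F = mapL (q L y k) (W • F) := by
  funext s
  have hq : ∀ r n : L, q L y k (r * n) = r • q L y k n := by
    intro r n
    rw [q_apply, q_apply, map_mul, Algebra.smul_def, mul_assoc]
  apply le_antisymm
  · show W s • mapL (q L y k) F s ≤ _
    rw [Submodule.smul_le]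
    rintro r hr _ ⟨n, hn, rfl⟩
    exact ⟨r * n, Submodule.smul_mem_smul hr hn, hq r n⟩
  · show (W s • F s).map ((q L y k).restrictScalars ℂ) ≤ W s • mapL (q L y k) F s
    rw [Submodule.map_le_iff_le_comap, Submodule.smul_le]
    intro r hr n hn
    rw [Submodule.mem_comap]
    have h1 : (q L y k).restrictScalars ℂ (r • n) = r • q L y k n := hq r n
    rw [h1]
    exact Submodule.smul_mem_smul hr (Submodule.mem_map_of_mem hn)

theorem smul_Pk (W O : Chart → Submodule ℂ L) (a : ℕ) (y : L') (k : ℕ) :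
    W • Pk O a y k = Pk (W * O) a y k := by
  induction k with
  | zero =>
    show W • (⊥ : Chart → Submodule ℂ L') = ⊥
    funext s
    exact Submodule.smul_bot (W s)
  | succ k ih =>
    show W • (Pk O a y k ⊔ mapL (q L y k) (tw (-((a * k : ℕ) : ℤ)) (-((a * k : ℕ) : ℤ)) O)) =
      Pk (W * O) a y k ⊔ mapL (q L y k) (tw (-((a * k : ℕ) : ℤ)) (-((a * k : ℕ) : ℤ)) (W * O))
    rw [Ssup, ih, smul_mapq, smul_tw]
    rfl

theorem inf_eqW (h : CCov L L' O O' d a y) (W : Chart → Submodule ℂ L) {k : ℕ} (hk : k < d) :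
    Pk W a y k ⊓ mapL (q L y k) (tw (-((a * k : ℕ) : ℤ)) (-((a * k : ℕ) : ℤ)) W) = ⊥ := by
  funext s
  rw [Pi.inf_apply, Pi.bot_apply, eq_bot_iff]
  rintro v ⟨hv, ⟨g0, _, hg0⟩⟩
  obtain ⟨g, hg, hgv⟩ := (mem_Pk k s v).1 hv
  have hg0' : algebraMap L L' g0 * y ^ k = v := hg0
  obtain ⟨g', hg'⟩ : ∃ g' : ℕ → L, g' = fun i => if i < k then g i else if i = k then -g0 else 0 :=
    ⟨_, rfl⟩
  have h1 : ∑ i ∈ Finset.range d, algebraMap L L' (g' i) * y ^ i = 0 := by
    have h2 : ∑ i ∈ Finset.range (k + 1), algebraMap L L' (g' i) * y ^ i =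
        ∑ i ∈ Finset.range d, algebraMap L L' (g' i) * y ^ i := by
      apply Finset.sum_subset
      · intro i hi
        rw [Finset.mem_range] at hi ⊢
        omega
      · intro i _ hi
        rw [Finset.mem_range, not_lt] at hi
        have h3 : g' i = 0 := by
          rw [hg']
          show (if i < k then g i else if i = k then -g0 else 0) = 0
          rw [if_neg (by omega), if_neg (by omega)]
        rw [h3, map_zero, zero_mul]
    rw [← h2, Finset.sum_range_succ]
    have h4 : g' k = -g0 := by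
      rw [hg']
      show (if k < k then g k else if k = k then -g0 else 0) = -g0
      rw [if_neg (lt_irrefl k), if_pos rfl]
    have h5 : ∑ i ∈ Finset.range k, algebraMap L L' (g' i) * y ^ i = v := by
      rw [hgv]
      apply Finset.sum_congr rfl
      intro i hi
      have h6 : g' i = g i := by
        rw [hg']
        show (if i < k then g i else if i = k then -g0 else 0) = g i
        rw [if_pos (Finset.mem_range.1 hi)]
      rw [h6]
    rw [h5, h4, map_neg, neg_mul, hg0', add_neg_cancel]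
  have h7 := h.free g' h1 k hk
  have h4 : g' k = -g0 := by
    rw [hg']
    show (if k < k then g k else if k = k then -g0 else 0) = -g0
    rw [if_neg (lt_irrefl k), if_pos rfl]
  rw [h4, neg_eq_zero] at h7
  rw [Submodule.mem_bot, ← hg0', h7, map_zero, zero_mul]

theorem chiW (h : CCov L L' O O' d a y) (hf : Module.Finite K L) {W : Chart → Submodule ℂ L}
    (hW : IsLat W) (b c : ℤ) (k : ℕ) (hk : k ≤ d) : chi (Pk W a y k) b c =
      lead W * (k * b * c - (b + c) * a * (∑ i ∈ Finset.range k, (i : ℤ)) +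
        a ^ 2 * ∑ i ∈ Finset.range k, (i : ℤ) ^ 2) +
      ca W * (k * b - a * ∑ i ∈ Finset.range k, (i : ℤ)) +
      cb W * (k * c - a * ∑ i ∈ Finset.range k, (i : ℤ)) + k * chi W 0 0 := by
  have hf' : Module.Finite K L' := FUCM.finite' h hf
  induction k with
  | zero =>
    show chi (⊥ : Chart → Submodule ℂ L') b c = _
    rw [IsLat.chi_bot, Finset.sum_range_zero, Finset.sum_range_zero]
    push_cast
    ring
  | succ k ih =>
    have h1 := (FUCM.latk (a := a) (y := y) hW k).chi_sup
      ((hW.tw (-((a * k : ℕ) : ℤ)) (-((a * k : ℕ) : ℤ))).map (q L y k)) b c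
    rw [inf_eqW h W hk, IsLat.chi_bot, ih (by omega),
      (hW.tw (-((a * k : ℕ) : ℤ)) (-((a * k : ℕ) : ℤ))).chi_map_of_injective (q L y k)
        (FUCM.inj h k),
      hW.chi_tw, hW.chi_eq (b + -((a * k : ℕ) : ℤ)) (c + -((a * k : ℕ) : ℤ)), add_zero] at h1
    show chi (Pk W a y k ⊔ mapL (q L y k) (tw (-((a * k : ℕ) : ℤ)) (-((a * k : ℕ) : ℤ)) W)) b c = _
    rw [h1, Finset.sum_range_succ, Finset.sum_range_succ]
    push_cast
    ring

theorem spanW {O W M : Chart → Submodule ℂ L} (hF : Full L O) (hI : Inv L O W M) :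
    Submodule.span K (W (false, false) : Set L) = ⊤ := by
  have hone : (1 : L) ∈ O (false, false) := Submodule.one_le.1 (hF.ring.one (false, false))
  have hmul : W (false, false) * M (false, false) = O (false, false) :=
    congrFun hI.mul (false, false)
  have hst : O (false, false) * W (false, false) = W (false, false) :=
    congrFun hI.st (false, false)
  have hne : W (false, false) ≠ ⊥ := by
    intro h0
    rw [h0, Submodule.bot_mul] at hmul
    rw [← hmul, Submodule.mem_bot] at hone
    exact one_ne_zero hone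
  obtain ⟨w, hw, hw0⟩ := Submodule.exists_mem_ne_zero_of_ne_bot hne
  have h2 : Submodule.map (LinearMap.mulLeft K w)
      (Submodule.span K (O (false, false) : Set L)) ≤
      Submodule.span K (W (false, false) : Set L) := by
    rw [Submodule.map_span, Submodule.span_le]
    rintro _ ⟨g, hg, rfl⟩
    apply Submodule.subset_span
    rw [SetLike.mem_coe, LinearMap.mulLeft_apply, mul_comm, ← hst]
    exact Submodule.mul_mem_mul hg hw
  rw [eq_top_iff]
  intro v _
  apply h2
  rw [hF.span]
  refine ⟨w⁻¹ * v, Submodule.mem_top, ?_⟩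
  rw [LinearMap.mulLeft_apply, mul_inv_cancel_left₀ hw0]

end

end DUAM

theorem specDUA (hOMI : SpecOMI) : SpecDUA := by
  intro L L' _ _ _ _ _ _ _ _ _ _ _ d a y M p h hF hF' hI hlamO hLam hchi
  have hfin : Module.Finite K L := hF.fin
  have hfin' : Module.Finite K L' := hF'.fin
  have hO : IsLat (strSheaf L) := hF.ring.lat
  obtain ⟨⟨M', hI'⟩, hom⟩ := hOMI L L' d a y M h hF hF' hI
  have h1 := hom L' (strSheaf L') hF'.ring.lat hF'.ring.mul
  have e1 : canonicalSheaf L' • strSheaf L' = canonicalSheaf L' := by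
    have h2 := hI'.st
    rw [mul_comm] at h2
    exact h2
  have e2 : canonicalSheaf L * strSheaf L = canonicalSheaf L := by
    rw [mul_comm]
    exact hI.st
  have e3 : canonicalSheaf L • strSheaf L' = FUCM.Pk (canonicalSheaf L) a y d := by
    rw [FUCM.O'_eq h, DUAM.smul_Pk, e2]
  have hn : lead (canonicalSheaf L) = Module.finrank K L :=
    hI.lat.lead_of_full (DUAM.spanW hF hI)
  have hleadO : lead (strSheaf L) = Module.finrank K L := hO.lead_of_full hF.span
  have hlam1 := hLam L (strSheaf L) hO hF.ring.mul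
  have e4 : (canonicalSheaf L • strSheaf L : Chart → Submodule ℂ L) = canonicalSheaf L := e2
  rw [e4, hleadO, hlamO] at hlam1
  have hlam2 : ca (canonicalSheaf L) + cb (canonicalSheaf L) =
      -(ca (strSheaf L) + cb (strSheaf L)) := by
    have h3 : (lam (canonicalSheaf L) : ℚ) = -(lam (strSheaf L) : ℚ) := by
      rw [hlam1, hlamO]
      push_cast
      ring
    have h4 : lam (canonicalSheaf L) = -lam (strSheaf L) := by exact_mod_cast h3
    exact h4
  have h5 := FUCM.chiO' h hfin hO 0 0
  have h6 := DUAM.chiW h hfin hI.lat ((a * (d - 1) : ℕ) : ℤ) ((a * (d - 1) : ℕ) : ℤ) d le_rfl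
  rw [e1, e3, h6] at h1
  rw [h1, h5, hn, hleadO]
  have hj : ((a * (d - 1) : ℕ) : ℤ) = a * (d - 1) := by
    rw [Nat.cast_mul, Nat.cast_sub (by have := h.deg; omega), Nat.cast_one]
  rw [hj]
  have hS := FUCM.sum1 d
  obtain ⟨S1, hS1⟩ : ∃ S1 : ℤ, S1 = ∑ i ∈ Finset.range d, (i : ℤ) := ⟨_, rfl⟩
  obtain ⟨S2, hS2⟩ : ∃ S2 : ℤ, S2 = ∑ i ∈ Finset.range d, (i : ℤ) ^ 2 := ⟨_, rfl⟩
  rw [← hS1] at hS
  rw [← hS1, ← hS2]
  linear_combination ((d : ℤ) * (a * (d - 1)) - a * S1) * hlam2 + (d : ℤ) * hchi -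
    (a : ℤ) * ((Module.finrank K L : ℤ) * (a * (d - 1)) -
      (ca (strSheaf L) + cb (strSheaf L))) * hS

end

end Pool.Agent.Lib.LP.TW
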