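import Pool.Agent.Lib.MP_865fc0_ag.Defs

/-!
# The definitions used in the statement on towers of cyclic covers

`K = ℂ(x,u)`, the charts, the generators `wx`, `wu`, `w` of `O(1,0)`, `O(0,1)`, `O(1,1)` and the
coordinate rings `Ralg s` of the four standard charts of `P^1 × P^1` are in `Defs.lean`; its header
explains the set-up.  The definitions below are the same as the ones there, written without proofs.

* `L / K` is a finite field extension; the surface `S` is the normalization of `P^1 × P^1` in `L`; it
  is polarized by `H`, the pull back of `O(1,1)`.  `Oalg L s` is the ring of functions on the preimage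
  `U_s` of the chart `s`: the elements of `L` which are integral over `Ralg s`.
* A torsion-free coherent sheaf `F` on `S` is given by its modules of sections `F s ⊆ V` over the
  `U_s`, where `V` is an `L`-vector space (`IsSheaf`).
* Euler characteristics are values of the Hilbert polynomial (`eulerChar`); degree, slope,
  semistability and second Chern character are obtained from them by the theorem of Riemann-Roch.
* `Phi L` is the Le Potier function of `(S, H)`, with values in the extended real line.
-/

open scoped Pointwise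
open Filter

namespace Pool.Agent.Lib.LePotier

open Pool.Agent.Lib.LP (K Chart wx wu w Ralg)

section surface

variable (L : Type*) [Field L] [Algebra ℂ L] [Algebra K L] [IsScalarTower ℂ K L]

/-- The coordinate ring of the affine open subset `U_s` of `S`: the elements of `L` which are integral
over the coordinate ring of the chart `s` of `P^1 × P^1` (they form a ring, which contains `ℂ`). -/
noncomputable def Oalg (s : Chart) : Subalgebra ℂ L :=
  Algebra.adjoin ℂ {v : L | IsIntegral (Ralg s) v}

/-- `H^1(S, O_S) = 0`, in terms of Čech cocycles for the affine covering `(U_s)`; the ring of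
functions on `U_s ∩ U_t` is generated by those on `U_s` and those on `U_t`. -/
def H1Vanishes : Prop :=
  ∀ c : Chart → Chart → L, (∀ s t, c s t ∈ Oalg L s ⊔ Oalg L t) →
    (∀ s t r, c s t + c t r = c s r) →
    ∃ g : Chart → L, (∀ s, g s ∈ Oalg L s) ∧ ∀ s t, c s t = g s - g t

/-- The structure sheaf of `S`, as a subsheaf of the constant sheaf `L`. -/
noncomputable def strSheaf (s : Chart) : Submodule ℂ L := Subalgebra.toSubmodule (Oalg L s)

/-- The canonical sheaf `ω_S`, as a subsheaf of the constant sheaf `L`: since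
`π_* ω_S = Hom(π_* O_S, ω_P)`, `ω_P = O(-2,-2)`, its sections over `U_s` are the `v ∈ L` such that
`Tr_{L/K}(a v)` is a section of `O(-2,-2)` over the chart `s` for all `a ∈ O_S(U_s)` (they form a
subspace). -/
noncomputable def canonicalSheaf (s : Chart) : Submodule ℂ L :=
  Submodule.span ℂ {v | ∀ a ∈ Oalg L s, wx s ^ 2 * wu s ^ 2 * Algebra.trace K L (a * v) ∈ Ralg s}

end surface

section sheaves

variable {V : Type*} [AddCommGroup V] [Module ℂ V] [Module K V]

/-- The global sections of the twist `F(a,b) = F ⊗ π^* O(a,b)`, for a sheaf `F` given by its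
sections over the four charts (the set of these `v` is a subspace). -/
noncomputable def sections (F : Chart → Submodule ℂ V) (a b : ℤ) : Submodule ℂ V :=
  Submodule.span ℂ {v | ∀ s, (wx s ^ a * wu s ^ b)⁻¹ • v ∈ F s}

/-- `p` is the Hilbert polynomial of `F`: it is of the form `A a b + α a + β b + γ`, and
`h^0(F(n + a, n + b)) = p (n + a) (n + b)` for all large `n`. -/
def IsHilbertPolynomial (F : Chart → Submodule ℂ V) (p : ℤ → ℤ → ℤ) : Prop :=
  (∃ A α β γ : ℤ, ∀ a b, p a b = A * a * b + α * a + β * b + γ) ∧
  ∀ a b : ℤ, ∀ᶠ n : ℕ in atTop,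
    (Module.finrank ℂ (sections F (n + a) (n + b)) : ℤ) = p (n + a) (n + b)

open Classical in
/-- The Euler characteristic `χ(F(a,b))`: the value at `(a,b)` of the Hilbert polynomial of `F`. -/
noncomputable def eulerChar (F : Chart → Submodule ℂ V) : ℤ → ℤ → ℤ :=
  if h : ∃ p, IsHilbertPolynomial F p then h.choose else 0

/-- The coefficient of `n` in the polynomial `χ(F(n,n))` of degree at most two in `n`. -/
noncomputable def linCoeff (F : Chart → Submodule ℂ V) : ℚ :=
  (eulerChar F 1 1 - eulerChar F (-1) (-1)) / 2

variable (L : Type*) [Field L] [Algebra ℂ L] [Algebra K L] [IsScalarTower ℂ K L]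
variable [Module L V] [IsScalarTower ℂ L V] [IsScalarTower K L V]

/-- `F` is a coherent sheaf on `S`, contained in the constant sheaf `V`: over each `U_s` it is a
finitely generated `O_S(U_s)`-submodule `F s` of the `L`-vector space `V`, and these modules agree
on the intersections of the charts (the open subset `U_s ∩ U_t` of `U_t` is the set where
`w s / w t` does not vanish). -/
structure IsSheaf (F : Chart → Submodule ℂ V) : Prop where
  fg : ∀ s, ∃ T : Finset V, (F s : Set V) = Submodule.span (Oalg L s) (T : Set V)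
  glue : ∀ s t, ∀ v ∈ F s, ∃ n : ℕ, (w s / w t) ^ n • v ∈ F t

/-- The rank of `F`: the dimension of the `L`-vector space spanned by `F`. -/
noncomputable def rk (F : Chart → Submodule ℂ V) : ℕ :=
  Module.finrank L (Submodule.span L (⋃ s, (F s : Set V)))

/-- The degree `H · ch_1(F)`. By Riemann-Roch `χ(F(n,n))` is equal to
`rk(F) (H^2) n^2 / 2 + (H · ch_1(F) - rk(F) (H · K_S) / 2) n + χ(F)`. -/
noncomputable def deg (F : Chart → Submodule ℂ V) : ℚ :=
  linCoeff F - rk L F * linCoeff (strSheaf L)

/-- `H^2 = 2 [L : K]`, since `H = π^* O(1,1)` and `O(1,1)^2 = 2`. -/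
noncomputable def Hsq : ℚ := 2 * Module.finrank K L

/-- The slope `μ_H(F) = H · ch_1(F) / (H^2 rk(F))`. -/
noncomputable def slope (F : Chart → Submodule ℂ V) : ℚ :=
  deg L F / (Hsq L * rk L F)

/-- The tensor product `F ⊗ ω_S`: the subsheaf of `V` generated by the products of sections of
`ω_S` and of `F`. -/
noncomputable def twistCanonical (F : Chart → Submodule ℂ V) (s : Chart) : Submodule ℂ V :=
  canonicalSheaf L s • F s

/-- The degree of the second Chern character of `F`. By Riemann-Roch
`χ(F) = ch_2(F) - (K_S · ch_1(F)) / 2 + rk(F) χ(O_S)` and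
`χ(F ⊗ ω_S) = ch_2(F) + (K_S · ch_1(F)) / 2 + rk(F) χ(O_S)`. -/
noncomputable def ch2 (F : Chart → Submodule ℂ V) : ℚ :=
  (eulerChar F 0 0 + eulerChar (twistCanonical L F) 0 0) / 2 -
    rk L F * eulerChar (strSheaf L) 0 0

/-- Slope semistability of a torsion-free sheaf: `μ_H(E) ≤ μ_H(F / E)` for all subsheaves `E`
with `0 < rk E < rk F` (for nonzero `E` of full rank, `F / E` is a torsion sheaf or zero, and
its slope is `+∞`). The common factor `1 / H^2` is left out on both sides. -/
def IsSemistable (F : Chart → Submodule ℂ V) : Prop :=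
  ∀ E : Chart → Submodule ℂ V, IsSheaf L E → E ≤ F → 0 < rk L E → rk L E < rk L F →
    deg L E / rk L E ≤ (deg L F - deg L E) / (rk L F - rk L E)

end sheaves

section LePotier

variable (L : Type*) [Field L] [Algebra ℂ L] [Algebra K L] [IsScalarTower ℂ K L]

/-- The Le Potier function `Φ_{S,H}`, with values in the extended real line:
`Φ(t) = lim_{ε → 0+} sup {ch_2(F) / (H^2 rk(F))}`, the supremum being over all semistable
torsion-free coherent sheaves `F` of rank `r > 0` (subsheaves of rank `r` of the constant sheaf
`L^r`) with `|μ_H(F) - t| < ε`. -/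
noncomputable def Phi (t : ℝ) : EReal :=
  ⨅ ε : {ε : ℝ // 0 < ε}, sSup {c : EReal | ∃ (r : ℕ) (F : Chart → Submodule ℂ (Fin r → L)),
    0 < r ∧ IsSheaf L F ∧ rk L F = r ∧ IsSemistable L F ∧ |(slope L F : ℝ) - t| < ε ∧
    c = ((ch2 L F / (Hsq L * r) : ℚ) : ℝ)}

end LePotier

/-- Let `S`, `S'` be the surfaces with the function fields `L ⊆ L'`.  `S'` is the cyclic cover of `S`
of degree `d ≥ 2`, totally branched along the divisor `y^d = 0` of `|d a H|`, `a ≥ 1`:
`y^d ∈ L`, the powers `y^i`, `i < d`, are a basis of `L'` over `L`, and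
`O_{S'} = ⊕_{i < d} O_S(-ia,-ia) y^i`. -/
structure CyclicCover (L L' : Type) [Field L] [Algebra ℂ L] [Algebra K L] [IsScalarTower ℂ K L]
    [Field L'] [Algebra ℂ L'] [Algebra K L'] [IsScalarTower ℂ K L'] [Algebra L L']
    (d a : ℕ) (y : L') : Prop where
  two_le : 2 ≤ d
  one_le : 1 ≤ a
  root : ∃ f : L, y ^ d = algebraMap L L' f
  unique : ∀ g : ℕ → L, ∑ i ∈ Finset.range d, algebraMap L L' (g i) * y ^ i = 0 → ∀ i < d, g i = 0
  exists_repr : ∀ v : L', ∃ g : ℕ → L, v = ∑ i ∈ Finset.range d, algebraMap L L' (g i) * y ^ i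
  mem_iff : ∀ (s : Chart) (v : L'), v ∈ Oalg L' s ↔ ∃ g : ℕ → L,
    (∀ i < d, algebraMap K L (w s ^ (a * i)) * g i ∈ Oalg L s) ∧
      v = ∑ i ∈ Finset.range d, algebraMap L L' (g i) * y ^ i

/-- The function fields of the surfaces obtained from `P^1 x P^1` by finitely many cyclic covers,
each totally branched along a (reduced) divisor of `|d a H|`, `d ≥ 2` its degree, `a ≥ 1`. -/
inductive Tower : (L : Type) → [Field L] → [Algebra ℂ L] → [Algebra K L] → Prop
  | base : Tower K
  | step (L L' : Type) [Field L] [Algebra ℂ L] [Algebra K L] [IsScalarTower ℂ K L] [Field L']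
      [Algebra ℂ L'] [Algebra K L'] [IsScalarTower ℂ K L'] [Algebra L L'] [IsScalarTower K L L']
      [IsScalarTower ℂ L L'] (d a : ℕ) (y : L') :
      Tower L → CyclicCover L L' d a y → Tower L'

/-- The curve `f = 0` of bidegree `(m,m)` on `P^1 x P^1` is reduced. -/
def ReducedCurve (f : K) (m : ℕ) : Prop :=
  ∀ s : Chart, ∃ φ : Ralg s, Squarefree φ ∧ f = w s ^ m * (φ : K)

end Pool.Agent.Lib.LePotier
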