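import Pool.Agent.Lib.MP_865fc0_ag.TW.DefI

/-!
# The definitions used in the statement on the inheritance of the jump, general form

The surfaces, sheaves, `Phi` and `CyclicCover` are in `Def.lean`, `CanonicalClass` and `JumpsBy` in
`DefI.lean`.
-/

namespace Pool.Agent.Lib.LePotier

open Pool.Agent.Lib.LP (K Chart w Ralg)

variable (L : Type) [Field L] [Algebra ℂ L] [Algebra K L] [IsScalarTower ℂ K L]

/-- The canonical sheaf of `S` is invertible (for instance `S` is smooth): there is a coherent sheaf `M` of
fractional ideals with `ω_S M = O_S`. -/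
def Gorenstein : Prop :=
  ∃ M : Chart → Submodule ℂ L, IsSheaf L M ∧ ∀ s, canonicalSheaf L s * M s = strSheaf L s

/-- `χ(ω_S) = χ(O_S)`: a case of Serre duality, which holds for all `S`. -/
def SerreDuality : Prop := eulerChar (canonicalSheaf L) 0 0 = eulerChar (strSheaf L) 0 0

end Pool.Agent.Lib.LePotier
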