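import Pool.Agent.Lib.MP_865fc0_ag.TW.Def

/-!
# The definitions used in the statement on the inheritance of the jump

The surfaces, sheaves, `Phi` and `CyclicCover` are in `Def.lean`.
-/

namespace Pool.Agent.Lib.LePotier

open Pool.Agent.Lib.LP (K Chart w Ralg)

variable (L : Type) [Field L] [Algebra ℂ L] [Algebra K L] [IsScalarTower ℂ K L]

/-- The canonical divisor of `S` is linearly equivalent to `k H`: `ω_S = z O_S(k,k)` for some `z ∈ L`. -/
def CanonicalClass (k : ℤ) : Prop :=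
  ∃ z : L, z ≠ 0 ∧ ∀ (s : Chart) (v : L),
    v ∈ canonicalSheaf L s ↔ algebraMap K L (w s ^ (-k)) * (z⁻¹ * v) ∈ Oalg L s

/-- `Φ(t) ≤ t²/2` for all `t` (for smooth surfaces the inequality of Bogomolov, with the Hodge index
theorem), and `Φ(t) ≤ t²/2 - δ` for `-η < t < 0`. -/
def JumpsBy (η δ : ℝ) : Prop :=
  (∀ t : ℝ, Phi L t ≤ ((t ^ 2 / 2 : ℝ) : EReal)) ∧
  ∀ t : ℝ, -η < t → t < 0 → Phi L t ≤ ((t ^ 2 / 2 - δ : ℝ) : EReal)

end Pool.Agent.Lib.LePotier
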