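import Pool.Agent.Lib.MP_865fc0_ag.TW.SpecC

/-!
# MP_865fc0_ag, TW, module EXA: homogeneous components of integral elements
-/

set_option autoImplicit false

namespace Pool.Agent.Lib.LP.TW

namespace EXAM

open Polynomial

/-- the orthogonality of the powers of a root of unity -/
theorem orth {L : Type} [Field L] {d : ℕ} {z : L} (hz : IsPrimitiveRoot z d) {i j : ℕ}
    (hi : i < d) (hj : j < d) :
    ∑ k ∈ Finset.range d, z ^ (k * (d - i)) * z ^ (k * j) = if j = i then (d : L) else 0 := by
  have h1 : ∀ k ∈ Finset.range d, z ^ (k * (d - i)) * z ^ (k * j) = (z ^ (d - i + j)) ^ k := by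
    intro k _
    rw [← pow_add, ← pow_mul]
    congr 1
    ring
  rw [Finset.sum_congr rfl h1]
  split_ifs with h
  · have h2 : z ^ (d - i + j) = 1 := by
      rw [h, show d - i + i = d by omega, hz.pow_eq_one]
    rw [h2]
    simp
  · have h2 : z ^ (d - i + j) ≠ 1 := by
      intro h3
      have h4 := (hz.pow_eq_one_iff_dvd _).1 h3
      obtain ⟨q, hq⟩ := h4
      have h5 : q < 2 := by
        by_contra h6
        have : d * 2 ≤ d * q := Nat.mul_le_mul_left _ (by omega)
        omega
      have h6 : q = 0 ∨ q = 1 := by omega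
      rcases h6 with rfl | rfl <;> omega
    have h3 := mul_geom_sum (z ^ (d - i + j)) d
    have h4 : (z ^ (d - i + j)) ^ d = 1 := by
      rw [← pow_mul, mul_comm, pow_mul, hz.pow_eq_one, one_pow]
    rw [h4, sub_self] at h3
    exact (mul_eq_zero.1 h3).resolve_left (sub_ne_zero.2 h2)

end EXAM

open EXAM Polynomial in
theorem specEXA : SpecEXA := by
  intro L _ _ _ _ d y f hd hy hn hgen s g hint i hi
  have : Module.Finite K L := Module.finite_of_finrank_pos (by omega)
  have hspan : ⊤ ≤ Submodule.span K (Set.range fun i : Fin d => y ^ (i : ℕ)) := by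
    intro v _
    obtain ⟨h, rfl⟩ := hgen v
    refine Submodule.sum_mem _ fun i hi => ?_
    rw [← Algebra.smul_def]
    exact Submodule.smul_mem _ _ (Submodule.subset_span ⟨⟨i, Finset.mem_range.1 hi⟩, rfl⟩)
  let b := basisOfTopLeSpanOfCardEqFinrank (fun i : Fin d => y ^ (i : ℕ)) hspan (by simp [hn])
  let pb : PowerBasis K L :=
    { gen := y
      dim := d
      basis := b
      basis_eq_pow := fun i => by simp [b] }
  have hdeg : (minpoly K y).natDegree = d := pb.natDegree_minpoly
  have hmin : minpoly K y = X ^ d - C f := by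
    have h1 : (X ^ d - C f : K[X]).Monic := monic_X_pow_sub_C f (by omega)
    have h2 : minpoly K y ∣ X ^ d - C f := by
      apply minpoly.dvd
      simp [hy]
    refine (eq_of_monic_of_dvd_of_natDegree_le (minpoly.monic (Algebra.IsIntegral.isIntegral y)) h1 h2
      ?_).symm
    rw [natDegree_X_pow_sub_C, hdeg]
  obtain ⟨ζ, hζ⟩ : ∃ ζ : ℂ, IsPrimitiveRoot ζ d := ⟨_, Complex.isPrimitiveRoot_exp d (by omega)⟩
  have hz : IsPrimitiveRoot (algebraMap ℂ L ζ) d := hζ.map_of_injective (algebraMap ℂ L).injective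
  set z : L := algebraMap ℂ L ζ with hzdef
  have hroot : ∀ k : ℕ, aeval (z ^ k * y) (minpoly K pb.gen) = 0 := by
    intro k
    show aeval (z ^ k * y) (minpoly K y) = 0
    rw [hmin, map_sub, map_pow, aeval_X, aeval_C, mul_pow, hy, ← pow_mul, mul_comm k d, pow_mul,
      hz.pow_eq_one, one_pow, one_mul, sub_self]
  let σ : ℕ → (L →ₐ[K] L) := fun k => pb.lift (z ^ k * y) (hroot k)
  have hσ : ∀ k, σ k y = z ^ k * y := fun k => pb.lift_gen _ (hroot k)
  have hσv : ∀ k, σ k (∑ j ∈ Finset.range d, algebraMap K L (g j) * y ^ j) =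
      ∑ j ∈ Finset.range d, algebraMap K L (g j) * (z ^ (k * j) * y ^ j) := by
    intro k
    rw [map_sum]
    apply Finset.sum_congr rfl
    intro j _
    rw [map_mul, AlgHom.commutes, map_pow, hσ, mul_pow, ← pow_mul]
  have hσi : ∀ k, IsIntegral (Ralg s)
      (σ k (∑ j ∈ Finset.range d, algebraMap K L (g j) * y ^ j)) := fun k =>
    hint.map (σ k)
  have hconst : ∀ c : ℂ, IsIntegral (Ralg s) (algebraMap ℂ L c) := by
    intro c
    have h1 : algebraMap ℂ L c = algebraMap (Ralg s) L (algebraMap ℂ (Ralg s) c) := by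
      rw [IsScalarTower.algebraMap_apply ℂ K L, IsScalarTower.algebraMap_apply (Ralg s) K L]
      rfl
    rw [h1]
    exact isIntegral_algebraMap
  have hkey : algebraMap K L (g i) * y ^ i = algebraMap ℂ L ((d : ℂ)⁻¹) *
      ∑ k ∈ Finset.range d, z ^ (k * (d - i)) *
        σ k (∑ j ∈ Finset.range d, algebraMap K L (g j) * y ^ j) := by
    have h1 : ∑ k ∈ Finset.range d, z ^ (k * (d - i)) *
        σ k (∑ j ∈ Finset.range d, algebraMap K L (g j) * y ^ j) =
        ∑ j ∈ Finset.range d, (algebraMap K L (g j) * y ^ j) *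
          ∑ k ∈ Finset.range d, z ^ (k * (d - i)) * z ^ (k * j) := by
      simp only [hσv, Finset.mul_sum]
      rw [Finset.sum_comm]
      apply Finset.sum_congr rfl
      intro j _
      apply Finset.sum_congr rfl
      intro k _
      ring
    have h2 : ∀ j ∈ Finset.range d, (algebraMap K L (g j) * y ^ j) *
          ∑ k ∈ Finset.range d, z ^ (k * (d - i)) * z ^ (k * j) =
        if j = i then (algebraMap K L (g i) * y ^ i) * (d : L) else 0 := by
      intro j hj
      rw [orth hz hi (Finset.mem_range.1 hj)]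
      by_cases hji : j = i
      · rw [if_pos hji, if_pos hji, hji]
      · rw [if_neg hji, if_neg hji, mul_zero]
    rw [h1, Finset.sum_congr rfl h2, Finset.sum_ite_eq', if_pos (Finset.mem_range.2 hi)]
    have h3 : (algebraMap ℂ L ((d : ℂ)⁻¹)) * (d : L) = 1 := by
      have h4 : ((d : ℕ) : L) = algebraMap ℂ L (d : ℂ) := by simp
      rw [h4, ← map_mul, inv_mul_cancel₀ (by exact_mod_cast (show d ≠ 0 by omega)), map_one]
    linear_combination (-(algebraMap K L (g i) * y ^ i)) * h3
  rw [hkey]
  apply (hconst _).mul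
  apply IsIntegral.sum
  intro k _
  apply IsIntegral.mul _ (hσi k)
  rw [hzdef, ← map_pow]
  exact hconst _

end Pool.Agent.Lib.LP.TW
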