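import Pool.Agent.Lib.MP_865fc0_ag.TW.Spec
import Pool.Agent.Lib.MP_865fc0_ag.Poly

/-!
# MP_865fc0_ag, TW, module EXS: explicit double planes (helper74)
-/

set_option autoImplicit false

open scoped Pointwise

namespace Pool.Agent.Lib.LP.TW

namespace EXSM

theorem mem_of_sq_mul_mem (s : Chart) {φ : Ralg s} (hφ : Squarefree φ) {k : K}
    (h : k * k * (φ : K) ∈ Ralg s) : k ∈ Ralg s := by
  obtain ⟨a, b, hab, hk⟩ := IsFractionRing.exists_reduced_fraction (A := Ralg s) (K := K) k
  have hk' : k * ((b : Ralg s) : K) = (a : K) := by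
    rw [← hk]
    exact IsLocalization.mk'_spec K a b
  have h1 : a * a * φ = ⟨_, h⟩ * ((b : Ralg s) * (b : Ralg s)) := by
    apply Subtype.ext
    change (a : K) * (a : K) * (φ : K) = (k * k * (φ : K)) * (((b : Ralg s) : K) *
      ((b : Ralg s) : K))
    rw [← hk']
    ring
  have h2 : (b : Ralg s) * (b : Ralg s) ∣ φ := by
    have h3 : IsRelPrime ((b : Ralg s) * (b : Ralg s)) (a * a) :=
      (hab.symm.mul_left hab.symm).mul_right (hab.symm.mul_left hab.symm)
    exact h3.dvd_of_dvd_mul_left (Dvd.intro_left _ h1.symm)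
  have h8 : IsUnit (b : Ralg s) := hφ _ h2
  obtain ⟨b', hb'⟩ := h8.exists_right_inv
  have h9 : k = ((a * b' : Ralg s) : K) := by
    have h10 : ((b : Ralg s) : K) * (b' : K) = 1 := congrArg Subtype.val hb'
    change k = (a : K) * (b' : K)
    rw [← hk', mul_assoc, h10, mul_one]
  rw [h9]
  exact (a * b').2

theorem mem_strSheaf_K {s : Chart} {g : K} : g ∈ strSheaf K s ↔ g ∈ Ralg s := by
  constructor
  · intro h
    have h' : IsIntegral (Ralg s) g := h
    exact mem_Ralg_of_isIntegral s h'
  · intro h
    have h' : IsIntegral (Ralg s) g := by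
      have h1 : algebraMap (Ralg s) K ⟨g, h⟩ = g := rfl
      rw [← h1]
      exact isIntegral_algebraMap
    exact h'

theorem wab_inv (s : Chart) (a : ℕ) :
    (wx s ^ (-(a : ℤ)) * wu s ^ (-(a : ℤ)))⁻¹ = w s ^ a := by
  unfold w
  rw [zpow_neg, zpow_neg, zpow_natCast, zpow_natCast, mul_inv, inv_inv, inv_inv, mul_pow]

theorem mem_tw_K {s : Chart} {a : ℕ} {g : K} :
    g ∈ tw (-(a : ℤ)) (-(a : ℤ)) (strSheaf K) s ↔ w s ^ a * g ∈ Ralg s := by
  rw [mem_tw, wab_inv, smul_eq_mul, mem_strSheaf_K]

section

variable {L : Type} [Field L] [Algebra ℂ L] [Algebra K L] [IsScalarTower ℂ K L]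

theorem mem_Ralg_of_algebraMap {s : Chart} {g : K} (h : IsIntegral (Ralg s) (algebraMap K L g)) :
    g ∈ Ralg s := by
  apply mem_Ralg_of_isIntegral
  rwa [isIntegral_algebraMap_iff (algebraMap K L).injective] at h

theorem isIntegral_of_mem {s : Chart} {g : K} (h : g ∈ Ralg s) :
    IsIntegral (Ralg s) (algebraMap K L g) := by
  have h1 : algebraMap (Ralg s) L ⟨g, h⟩ = algebraMap K L g := rfl
  rw [← h1]
  exact isIntegral_algebraMap

omit [Algebra ℂ L] [IsScalarTower ℂ K L] in
theorem free {y : L} {f : K} (hy : y * y = algebraMap K L f) (hns : ∀ k : K, k * k ≠ f)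
    (g h : K) (h0 : algebraMap K L g + algebraMap K L h * y = 0) : g = 0 ∧ h = 0 := by
  have hh : h = 0 := by
    by_contra hne
    have hL : algebraMap K L h ≠ 0 := fun h1 => hne ((algebraMap K L).injective (by
      rw [h1, map_zero]))
    have h2 : y = algebraMap K L (-g / h) := by
      rw [map_div₀, map_neg, eq_div_iff hL]
      linear_combination h0
    apply hns (-g / h)
    apply (algebraMap K L).injective
    rw [map_mul, ← h2, hy]
  refine ⟨?_, hh⟩
  rw [hh, map_zero, zero_mul, add_zero] at h0
  exact (algebraMap K L).injective (by rw [h0, map_zero])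

omit [Algebra ℂ L] [IsScalarTower ℂ K L] in
theorem uniq {y : L} {f : K} (hy : y * y = algebraMap K L f) (hns : ∀ k : K, k * k ≠ f)
    {g h g' h' : K} (h0 : algebraMap K L g + algebraMap K L h * y =
      algebraMap K L g' + algebraMap K L h' * y) : g = g' ∧ h = h' := by
  have h1 := free hy hns (g - g') (h - h') (by
    rw [map_sub, map_sub]
    linear_combination h0)
  exact ⟨sub_eq_zero.1 h1.1, sub_eq_zero.1 h1.2⟩

omit [Algebra ℂ L] [IsScalarTower ℂ K L] in
/-- the conjugation -/
theorem exists_conj {y : L} {f : K} (hy : y * y = algebraMap K L f) (hns : ∀ k : K, k * k ≠ f)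
    (hgen : ∀ v : L, ∃ g h : K, v = algebraMap K L g + algebraMap K L h * y) :
    ∃ σ : L →ₐ[K] L, ∀ g h : K, σ (algebraMap K L g + algebraMap K L h * y) =
      algebraMap K L g - algebraMap K L h * y := by
  choose G H hGH using hgen
  have key : ∀ (v : L) (g h : K), v = algebraMap K L g + algebraMap K L h * y →
      algebraMap K L (G v) - algebraMap K L (H v) * y =
        algebraMap K L g - algebraMap K L h * y := by
    intro v g h hv
    have h1 := uniq hy hns ((hGH v).symm.trans hv)
    rw [h1.1, h1.2]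
  refine ⟨{ toFun := fun v => algebraMap K L (G v) - algebraMap K L (H v) * y
            map_one' := ?_, map_mul' := ?_, map_zero' := ?_, map_add' := ?_, commutes' := ?_ },
    fun g h => key _ g h rfl⟩
  · rw [key 1 1 0 (by simp)]
    simp
  · intro v v'
    rw [key (v * v') (G v * G v' + H v * H v' * f) (G v * H v' + H v * G v') (by
      conv_lhs => rw [hGH v, hGH v']
      simp only [map_add, map_mul]
      linear_combination (algebraMap K L (H v) * algebraMap K L (H v')) * hy)]
    simp only [map_add, map_mul]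
    linear_combination (-(algebraMap K L (H v) * algebraMap K L (H v'))) * hy
  · rw [key 0 0 0 (by simp)]
    simp
  · intro v v'
    rw [key (v + v') (G v + G v') (H v + H v') (by
      conv_lhs => rw [hGH v, hGH v']
      simp only [map_add]
      ring)]
    simp only [map_add]
    ring
  · intro r
    rw [key (algebraMap K L r) r 0 (by simp)]
    simp

end

end EXSM

open EXSM in
theorem specEXS : SpecEXS := by
  intro L _ _ _ _ a y f ha hy hns hgen hs
  refine ⟨ha, ⟨f, hy⟩, fun g h h0 => free hy hns g h h0, hgen, ?_⟩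
  intro s v
  obtain ⟨φ, hφ, hf⟩ := hs s
  have hmem : ∀ z : L, z ∈ strSheaf L s ↔ IsIntegral (Ralg s) z := fun z => Iff.rfl
  rw [hmem]
  constructor
  · intro hv
    obtain ⟨g, h, hvg⟩ := hgen v
    obtain ⟨σ, hσ⟩ := exists_conj hy hns hgen
    have hσv : IsIntegral (Ralg s) (σ v) := hv.map σ
    have h1 : v + σ v = algebraMap K L (2 * g) := by
      rw [hvg, hσ, map_mul, map_ofNat]
      ring
    have h2 : 2 * g ∈ Ralg s := by
      apply mem_Ralg_of_algebraMap (L := L)
      rw [← h1]
      exact hv.add hσv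
    have h3 : g ∈ Ralg s := by
      have h8 : g = (2⁻¹ : ℂ) • (2 * g) := by
        rw [Algebra.smul_def, map_inv₀, map_ofNat, inv_mul_cancel_left₀]
        norm_num
      rw [h8]
      exact (Ralg s).smul_mem h2 _
    have h4 : IsIntegral (Ralg s) (algebraMap K L h * y) := by
      have h5 : algebraMap K L h * y = v - algebraMap K L g := by rw [hvg]; ring
      rw [h5]
      exact hv.sub (isIntegral_of_mem h3)
    have h6 : h * h * f ∈ Ralg s := by
      apply mem_Ralg_of_algebraMap (L := L)
      have h7 : algebraMap K L (h * h * f) = (algebraMap K L h * y) * (algebraMap K L h * y) := by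
        rw [map_mul, map_mul, ← hy]
        ring
      rw [h7]
      exact h4.mul h4
    have h9 : w s ^ a * h ∈ Ralg s := by
      apply mem_of_sq_mul_mem s hφ
      have h10 : w s ^ a * h * (w s ^ a * h) * (φ : K) = h * h * f := by
        rw [hf, two_mul, pow_add]
        ring
      rw [h10]
      exact h6
    exact ⟨g, mem_strSheaf_K.2 h3, h, mem_tw_K.2 h9, hvg⟩
  · rintro ⟨g, hg, h, hh, rfl⟩
    have h1 : IsIntegral (Ralg s) (algebraMap K L g) := isIntegral_of_mem (mem_strSheaf_K.1 hg)
    have h2 : IsIntegral (Ralg s) (algebraMap K L h * y) := by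
      apply IsIntegral.of_pow (n := 2) (by norm_num)
      have h3 : w s ^ a * h ∈ Ralg s := mem_tw_K.1 hh
      have h4 : (algebraMap K L h * y) ^ 2 =
          algebraMap K L ((w s ^ a * h) * (w s ^ a * h) * (φ : K)) := by
        have h5 : w s ^ a * h * (w s ^ a * h) * (φ : K) = h * h * f := by
          rw [hf, two_mul, pow_add]
          ring
        rw [h5, map_mul, map_mul, ← hy]
        ring
      rw [h4]
      exact isIntegral_of_mem ((Ralg s).mul_mem ((Ralg s).mul_mem h3 h3) φ.2)
    exact h1.add h2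

end Pool.Agent.Lib.LP.TW
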