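import Pool.Agent.Lib.MP_865fc0_ag.TW.SpecC
import Pool.Agent.Lib.MP_865fc0_ag.TW.EXS

/-!
# MP_865fc0_ag, TW, module EXC: explicit cyclic covers (helper74)
-/

set_option autoImplicit false

open scoped Pointwise

namespace Pool.Agent.Lib.LP.TW

namespace EXCM

open EXSM

/-- a prime whose `d`-th power divides the `i`-th power, `i < d`, divides twice -/
theorem sq_dvd {A : Type*} [CommRing A] [IsDomain A] {π φ : A} (hπ : Prime π) {i d : ℕ}
    (hi : i < d) (h : π ^ d ∣ φ ^ i) : π * π ∣ φ := by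
  have h1 : π ∣ φ := hπ.dvd_of_dvd_pow (dvd_trans (dvd_pow_self π (by omega)) h)
  obtain ⟨ψ, hψ⟩ := h1
  have h2 : π ^ i * π ^ (d - i) ∣ π ^ i * ψ ^ i := by
    rw [← pow_add, Nat.add_sub_cancel' hi.le, ← mul_pow, ← hψ]
    exact h
  have h3 : π ^ (d - i) ∣ ψ ^ i := (mul_dvd_mul_iff_left (pow_ne_zero i hπ.ne_zero)).1 h2
  have h4 : π ∣ ψ := hπ.dvd_of_dvd_pow (dvd_trans (dvd_pow_self π (by omega)) h3)
  rw [hψ]
  exact mul_dvd_mul_left π h4

theorem mem_of_pow_mul_mem (s : Chart) {φ : Ralg s} (hφ : Squarefree φ) {k : K} {i d : ℕ}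
    (hi : i < d) (h : k ^ d * (φ : K) ^ i ∈ Ralg s) : k ∈ Ralg s := by
  obtain ⟨a, b, hab, hk⟩ := IsFractionRing.exists_reduced_fraction (A := Ralg s) (K := K) k
  have hk' : k * ((b : Ralg s) : K) = (a : K) := by
    rw [← hk]
    exact IsLocalization.mk'_spec K a b
  have h1 : a ^ d * φ ^ i = ⟨_, h⟩ * (b : Ralg s) ^ d := by
    apply Subtype.ext
    change (a : K) ^ d * (φ : K) ^ i = (k ^ d * (φ : K) ^ i) * ((b : Ralg s) : K) ^ d
    rw [← hk']
    ring
  have h2 : (b : Ralg s) ^ d ∣ φ ^ i := by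
    have h3 : IsRelPrime ((b : Ralg s) ^ d) (a ^ d) := hab.symm.pow
    exact h3.dvd_of_dvd_mul_left (Dvd.intro_left _ h1.symm)
  have h8 : IsUnit (b : Ralg s) := by
    by_contra hnu
    have hb0 : (b : Ralg s) ≠ 0 := nonZeroDivisors.ne_zero b.2
    obtain ⟨π, hπ, hπb⟩ := WfDvdMonoid.exists_irreducible_factor hnu hb0
    have hp : Prime π := UniqueFactorizationMonoid.irreducible_iff_prime.1 hπ
    have h4 : π * π ∣ φ := sq_dvd hp hi (dvd_trans (pow_dvd_pow_of_dvd hπb d) h2)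
    exact hp.not_isUnit (hφ π h4)
  obtain ⟨b', hb'⟩ := h8.exists_right_inv
  have h9 : k = ((a * b' : Ralg s) : K) := by
    have h10 : ((b : Ralg s) : K) * (b' : K) = 1 := congrArg Subtype.val hb'
    change k = (a : K) * (b' : K)
    rw [← hk', mul_assoc, h10, mul_one]
  rw [h9]
  exact (a * b').2

section

variable {L : Type} [Field L] [Algebra ℂ L] [Algebra K L] [IsScalarTower ℂ K L]

omit [Algebra ℂ L] [IsScalarTower ℂ K L] in
theorem free {d : ℕ} {y : L} (hfin : Module.finrank K L = d)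
    (hgen : ∀ v : L, ∃ g : ℕ → K, v = ∑ i ∈ Finset.range d, algebraMap K L (g i) * y ^ i)
    (g : ℕ → K) (h0 : ∑ i ∈ Finset.range d, algebraMap K L (g i) * y ^ i = 0) :
    ∀ i < d, g i = 0 := by
  have hspan : ⊤ ≤ Submodule.span K (Set.range fun i : Fin d => y ^ (i : ℕ)) := by
    intro v _
    obtain ⟨c, hc⟩ := hgen v
    rw [hc]
    refine Submodule.sum_mem _ fun i hi => ?_
    rw [← Algebra.smul_def]
    exact Submodule.smul_mem _ _ (Submodule.subset_span ⟨⟨i, Finset.mem_range.1 hi⟩, rfl⟩)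
  have hli : LinearIndependent K fun i : Fin d => y ^ (i : ℕ) :=
    linearIndependent_of_top_le_span_of_card_eq_finrank hspan (by
      rw [Fintype.card_fin, hfin])
  rw [Fintype.linearIndependent_iff] at hli
  intro i hi
  refine hli (fun i => g i) ?_ ⟨i, hi⟩
  rw [← h0, Finset.sum_range]
  exact Finset.sum_congr rfl fun j _ => Algebra.smul_def _ _

end

end EXCM

open EXSM EXCM in
theorem specEXC (hEXA : SpecEXA) : SpecEXC := by
  intro L _ _ _ _ d a y f hd ha hy hfin hgen hs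
  refine ⟨hd, ha, ⟨f, hy⟩, EXCM.free hfin hgen, hgen, ?_⟩
  intro s v
  obtain ⟨φ, hφ, hf⟩ := hs s
  have hmem : ∀ z : L, z ∈ strSheaf L s ↔ IsIntegral (Ralg s) z := fun z => Iff.rfl
  rw [hmem]
  have hpow : ∀ (g : K) (i : ℕ), (algebraMap K L g * y ^ i) ^ d =
      algebraMap K L ((w s ^ (a * i) * g) ^ d * (φ : K) ^ i) := by
    intro g i
    have h1 : (w s ^ (a * i) * g) ^ d * (φ : K) ^ i = g ^ d * f ^ i := by
      rw [hf]
      ring
    rw [h1, map_mul, map_pow, map_pow, ← hy]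
    ring
  constructor
  · intro hv
    obtain ⟨g, hg⟩ := hgen v
    rw [hg] at hv
    refine ⟨g, fun i hi => mem_tw_K.2 ?_, hg⟩
    have h1 := hEXA L d y f hd hy hfin hgen s g hv i hi
    apply mem_of_pow_mul_mem s hφ hi
    apply mem_Ralg_of_algebraMap (L := L)
    rw [← hpow]
    exact h1.pow d
  · rintro ⟨g, hg, rfl⟩
    refine IsIntegral.sum _ fun i hi => ?_
    have hi' := Finset.mem_range.1 hi
    apply IsIntegral.of_pow (n := d) (by omega)
    rw [hpow]
    have h3 : w s ^ (a * i) * g i ∈ Ralg s := mem_tw_K.1 (hg i hi')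
    exact isIntegral_of_mem ((Ralg s).mul_mem (pow_mem h3 d) (pow_mem φ.2 i))

end Pool.Agent.Lib.LP.TW
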