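import Pool.Agent.Lib.MP_865fc0_ag.TW.Spec

/-!
# MP_865fc0_ag, TW, module EXM: maximal sublattices
-/

set_option autoImplicit false

open scoped Pointwise
open Filter

namespace Pool.Agent.Lib.LP.TW

theorem specEXM (hBDD : SpecBDD) : SpecEXM := by
  intro C _ _ _ _ O V _ _ _ _ _ _ _ _ F hF τ
  obtain ⟨B, hB⟩ := hBDD V F hF
  obtain ⟨n, hn⟩ : ∃ n : ℤ, n = (Module.finrank K V : ℤ) := ⟨_, rfl⟩
  have hlead : ∀ E : Chart → Submodule ℂ V, IsLat E → 0 ≤ lead E ∧ lead E ≤ n := by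
    intro E hE
    refine ⟨hE.lead_nonneg, ?_⟩
    rw [hE.lead_eq, hn]
    exact_mod_cast Submodule.finrank_le _
  have hq : (0 : ℤ) < (τ.den : ℤ) := by exact_mod_cast τ.pos
  have hqQ : (0 : ℚ) < (τ.den : ℚ) := by exact_mod_cast τ.pos
  have hτ : τ * (τ.den : ℚ) = (τ.num : ℚ) := Rat.mul_den_eq_num τ
  let P : ℤ → Prop := fun z => ∃ E : Chart → Submodule ℂ V, IsLat E ∧ O • E = E ∧ E ≤ F ∧
    (τ.den : ℤ) * lam E - τ.num * lead E = z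
  have hP : ∃ z, P z := by
    refine ⟨_, ⊥, IsLat.bot, ?_, bot_le, rfl⟩
    funext s
    exact Submodule.smul_bot _
  have hbd : ∃ b : ℤ, ∀ z : ℤ, P z → z ≤ b := by
    refine ⟨|(τ.den : ℤ) * B - τ.num| * n, ?_⟩
    rintro z ⟨E, hE, -, hEF, rfl⟩
    obtain ⟨h0, h1⟩ := hlead E hE
    have h2 := hB E hE hEF
    have h3 : (τ.den : ℤ) * lam E ≤ (τ.den : ℤ) * (B * lead E) :=
      mul_le_mul_of_nonneg_left h2 hq.le
    have h4 : ((τ.den : ℤ) * B - τ.num) * lead E ≤ |(τ.den : ℤ) * B - τ.num| * lead E :=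
      mul_le_mul_of_nonneg_right (le_abs_self _) h0
    have h5 : |(τ.den : ℤ) * B - τ.num| * lead E ≤ |(τ.den : ℤ) * B - τ.num| * n :=
      mul_le_mul_of_nonneg_left h1 (abs_nonneg _)
    nlinarith
  obtain ⟨z, ⟨E₀, hE₀, hO, hle, hz⟩, hmax⟩ := Int.exists_greatest_of_bdd hbd hP
  refine ⟨E₀, hE₀, hO, hle, ?_⟩
  intro E hE hOE hEF
  have h6 : (τ.den : ℤ) * lam E - τ.num * lead E ≤ (τ.den : ℤ) * lam E₀ - τ.num * lead E₀ := by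
    rw [hz]
    exact hmax _ ⟨E, hE, hOE, hEF, rfl⟩
  have h7 : (τ.den : ℚ) * (lam E : ℚ) - (τ.num : ℚ) * (lead E : ℚ) ≤
      (τ.den : ℚ) * (lam E₀ : ℚ) - (τ.num : ℚ) * (lead E₀ : ℚ) := by exact_mod_cast h6
  rw [← hτ] at h7
  have h8 : (τ.den : ℚ) * ((lam E : ℚ) - τ * lead E) ≤
      (τ.den : ℚ) * ((lam E₀ : ℚ) - τ * lead E₀) := by
    calc (τ.den : ℚ) * ((lam E : ℚ) - τ * lead E)
        = (τ.den : ℚ) * (lam E : ℚ) - τ * (τ.den : ℚ) * (lead E : ℚ) := by ring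
      _ ≤ (τ.den : ℚ) * (lam E₀ : ℚ) - τ * (τ.den : ℚ) * (lead E₀ : ℚ) := h7
      _ = (τ.den : ℚ) * ((lam E₀ : ℚ) - τ * lead E₀) := by ring
  exact le_of_mul_le_mul_left h8 hqQ

end Pool.Agent.Lib.LP.TW
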