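import Pool.Agent.Lib.MP_865fc0_ag.TW.SpecC

/-!
# MP_865fc0_ag, module FIL: the filtration of `G ⊗ O'` for a cyclic cover
-/

set_option autoImplicit false

open scoped Pointwise
open Filter

namespace Pool.Agent.Lib.LP.TW

noncomputable section

namespace FILM

section pi

variable {V : Type} [AddCommGroup V] [Module ℂ V] [Module K V] [IsScalarTower ℂ K V] {n : ℕ}

/-- vectors with components in `T i` for `i ∈ S`, and `0` otherwise -/
def PS (T : Fin n → Chart → Submodule ℂ V) (S : Finset (Fin n)) (s : Chart) :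
    Submodule ℂ (Fin n → V) where
  carrier := {v | (∀ i ∈ S, v i ∈ T i s) ∧ ∀ i, i ∉ S → v i = 0}
  add_mem' := fun {u v} hu hv => ⟨fun i hi => (T i s).add_mem (hu.1 i hi) (hv.1 i hi),
    fun i hi => by rw [Pi.add_apply, hu.2 i hi, hv.2 i hi, add_zero]⟩
  zero_mem' := ⟨fun i _ => (T i s).zero_mem, fun i _ => rfl⟩
  smul_mem' := fun c v hv => ⟨fun i hi => (T i s).smul_mem c (hv.1 i hi),
    fun i hi => by rw [Pi.smul_apply, hv.2 i hi, smul_zero]⟩

theorem mem_PS {T : Fin n → Chart → Submodule ℂ V} {S : Finset (Fin n)} {s : Chart}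
    {v : Fin n → V} : v ∈ PS T S s ↔ (∀ i ∈ S, v i ∈ T i s) ∧ ∀ i, i ∉ S → v i = 0 := Iff.rfl

theorem PS_empty (T : Fin n → Chart → Submodule ℂ V) : PS T ∅ = ⊥ := by
  funext s
  rw [Pi.bot_apply, eq_bot_iff]
  intro v hv
  rw [Submodule.mem_bot]
  funext i
  exact hv.2 i (Finset.notMem_empty i)

theorem mem_mapL_single {T : Chart → Submodule ℂ V} {j : Fin n} {s : Chart} {v : Fin n → V} :
    v ∈ mapL (LinearMap.single K (fun _ : Fin n => V) j) T s ↔
      v j ∈ T s ∧ ∀ i, i ≠ j → v i = 0 := by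
  rw [mem_mapL]
  constructor
  · rintro ⟨m, hm, rfl⟩
    rw [LinearMap.coe_single]
    refine ⟨by rw [Pi.single_eq_same]; exact hm, fun i hi => by rw [Pi.single_eq_of_ne hi]⟩
  · rintro ⟨h1, h2⟩
    refine ⟨v j, h1, ?_⟩
    rw [LinearMap.coe_single]
    funext i
    by_cases hi : i = j
    · subst hi; rw [Pi.single_eq_same]
    · rw [Pi.single_eq_of_ne hi, h2 i hi]

theorem PS_insert (T : Fin n → Chart → Submodule ℂ V) (S : Finset (Fin n)) (j : Fin n)
    (hj : j ∉ S) :
    PS T (insert j S) = PS T S ⊔ mapL (LinearMap.single K (fun _ : Fin n => V) j) (T j) := by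
  funext s
  apply le_antisymm
  · intro v hv
    rw [Pi.sup_apply, Submodule.mem_sup]
    refine ⟨Function.update v j 0, ⟨fun i hi => ?_, fun i hi => ?_⟩, Pi.single j (v j), ?_, ?_⟩
    · have hij : i ≠ j := fun h => hj (h ▸ hi)
      rw [Function.update_of_ne hij]
      exact hv.1 i (Finset.mem_insert_of_mem hi)
    · by_cases hij : i = j
      · subst hij; rw [Function.update_self]
      · rw [Function.update_of_ne hij]
        exact hv.2 i (by rw [Finset.mem_insert]; tauto)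
    · rw [mem_mapL_single]
      refine ⟨by rw [Pi.single_eq_same]; exact hv.1 j (Finset.mem_insert_self j S),
        fun i hi => by rw [Pi.single_eq_of_ne hi]⟩
    · funext i
      rw [Pi.add_apply]
      by_cases hij : i = j
      · subst hij; rw [Function.update_self, Pi.single_eq_same, zero_add]
      · rw [Function.update_of_ne hij, Pi.single_eq_of_ne hij, add_zero]
  · refine sup_le ?_ ?_
    · intro v hv
      refine ⟨fun i hi => ?_, fun i hi => ?_⟩
      · rw [Finset.mem_insert] at hi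
        rcases hi with rfl | hi
        · rw [hv.2 i hj]; exact Submodule.zero_mem _
        · exact hv.1 i hi
      · exact hv.2 i (fun h => hi (Finset.mem_insert_of_mem h))
    · intro v hv
      rw [mem_mapL_single] at hv
      refine ⟨fun i hi => ?_, fun i hi => ?_⟩
      · by_cases hij : i = j
        · subst hij; exact hv.1
        · rw [hv.2 i hij]; exact Submodule.zero_mem _
      · exact hv.2 i (fun h => hi (h ▸ Finset.mem_insert_self j S))

theorem PS_inf (T : Fin n → Chart → Submodule ℂ V) (S : Finset (Fin n)) (j : Fin n)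
    (hj : j ∉ S) :
    PS T S ⊓ mapL (LinearMap.single K (fun _ : Fin n => V) j) (T j) = ⊥ := by
  funext s
  rw [Pi.bot_apply, eq_bot_iff]
  rintro v ⟨h1, h2⟩
  rw [SetLike.mem_coe, mem_mapL_single] at h2
  rw [Submodule.mem_bot]
  funext i
  by_cases hij : i = j
  · subst hij; exact h1.2 i hj
  · exact h2.2 i hij

theorem PS_lat [Module.Finite K V] (T : Fin n → Chart → Submodule ℂ V) (hT : ∀ i, IsLat (T i))
    (S : Finset (Fin n)) :
    IsLat (PS T S) ∧ ∀ b c : ℤ, chi (PS T S) b c = ∑ i ∈ S, chi (T i) b c := by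
  classical
  induction S using Finset.induction_on with
  | empty =>
    rw [PS_empty]
    refine ⟨IsLat.bot, fun b c => ?_⟩
    rw [IsLat.chi_bot, Finset.sum_empty]
  | insert j S hj ih =>
    have h1 : IsLat (mapL (LinearMap.single K (fun _ : Fin n => V) j) (T j)) := (hT j).map _
    refine ⟨by rw [PS_insert T S j hj]; exact ih.1.sup h1, fun b c => ?_⟩
    have h2 := ih.1.chi_sup h1 b c
    rw [PS_inf T S j hj, IsLat.chi_bot, add_zero, ← PS_insert T S j hj] at h2
    have h3 : chi (mapL (LinearMap.single K (fun _ : Fin n => V) j) (T j)) b c =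
        chi (T j) b c := by
      refine (hT j).chi_map_of_injective _ ?_ b c
      rw [LinearMap.coe_single]
      exact Pi.single_injective j
    rw [h2, h3, ih.2 b c, Finset.sum_insert hj, add_comm]

end pi

/-- the filtration by the kernels -/
def PP {W V : Type} [AddCommGroup W] [Module ℂ W] [Module K W] [IsScalarTower ℂ K W]
    [AddCommGroup V] [Module ℂ V] [Module K V] [IsScalarTower ℂ K V]
    (P : Chart → Submodule ℂ W) (ev : ℕ → W →ₗ[K] V) : ℕ → Chart → Submodule ℂ W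
  | 0 => P
  | j + 1 => fun s => PP P ev j s ⊓ LinearMap.ker ((ev j).restrictScalars ℂ)

section filt

variable {W V : Type} [AddCommGroup W] [Module ℂ W] [Module K W] [IsScalarTower ℂ K W]
  [AddCommGroup V] [Module ℂ V] [Module K V] [IsScalarTower ℂ K V]
  {P : Chart → Submodule ℂ W} {ev : ℕ → W →ₗ[K] V}

theorem mem_PP {j : ℕ} {s : Chart} {v : W} :
    v ∈ PP P ev j s ↔ v ∈ P s ∧ ∀ k < j, ev k v = 0 := by
  induction j with
  | zero => exact ⟨fun h => ⟨h, fun k hk => absurd hk (Nat.not_lt_zero k)⟩, fun h => h.1⟩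
  | succ j ih =>
    change v ∈ PP P ev j s ⊓ LinearMap.ker ((ev j).restrictScalars ℂ) ↔ _
    rw [Submodule.mem_inf, ih, LinearMap.mem_ker, LinearMap.restrictScalars_apply]
    constructor
    · rintro ⟨⟨h1, h2⟩, h3⟩
      refine ⟨h1, fun k hk => ?_⟩
      rcases Nat.lt_succ_iff_lt_or_eq.1 hk with h | rfl
      · exact h2 k h
      · exact h3
    · rintro ⟨h1, h2⟩
      exact ⟨⟨h1, fun k hk => h2 k (hk.trans (Nat.lt_succ_self j))⟩, h2 j (Nat.lt_succ_self j)⟩

theorem PP_lat (hP : IsLat P) (j : ℕ) : IsLat (PP P ev j) := by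
  induction j with
  | zero => exact hP
  | succ j ih => exact ih.inf_ker (ev j)

theorem PP_chi [Module.Finite K W] [Module.Finite K V] (hP : IsLat P) (d : ℕ) (b c : ℤ) :
    chi P b c = (∑ j ∈ Finset.range d, chi (mapL (ev j) (PP P ev j)) b c) +
      chi (PP P ev d) b c := by
  induction d with
  | zero => rw [Finset.range_zero, Finset.sum_empty, zero_add]; rfl
  | succ d ih =>
    have h1 := (PP_lat (ev := ev) hP d).chi_map (ev d) b c
    have h2 : chi (PP P ev (d + 1)) b c =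
        chi (fun s => PP P ev d s ⊓ LinearMap.ker ((ev d).restrictScalars ℂ)) b c := rfl
    rw [ih, Finset.sum_range_succ, h2]
    linarith

end filt

/-- the Vandermonde system -/
theorem vand {V : Type} [AddCommGroup V] [Module ℂ V] (n : ℕ) (z : Fin n → ℂ)
    (hz : Function.Injective z) (u : Fin n → V) (h : ∀ k, ∑ i : Fin n, z k ^ (i : ℕ) • u i = 0) :
    u = 0 := by
  have hdet : IsUnit (Matrix.vandermonde z).det :=
    isUnit_iff_ne_zero.2 (Matrix.det_vandermonde_ne_zero_iff.2 hz)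
  funext l
  have h1 : ∑ k : Fin n, (Matrix.vandermonde z)⁻¹ l k • ∑ i : Fin n, z k ^ (i : ℕ) • u i = u l := by
    simp_rw [Finset.smul_sum, ← mul_smul]
    rw [Finset.sum_comm]
    simp_rw [← Finset.sum_smul]
    have h2 : ∀ i : Fin n, ∑ k : Fin n, (Matrix.vandermonde z)⁻¹ l k * z k ^ (i : ℕ) =
        (1 : Matrix (Fin n) (Fin n) ℂ) l i := by
      intro i
      rw [← Matrix.nonsing_inv_mul _ hdet, Matrix.mul_apply]
      rfl
    simp_rw [h2, Matrix.one_apply, ite_smul, one_smul, zero_smul]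
    rw [Finset.sum_ite_eq]
    simp
  rw [← h1]
  simp_rw [h]
  simp

/-- the evaluation `v ↦ ∑ Y^i v_i` -/
def evl {C' : Type} [CommRing C'] [Algebra K C'] (V : Type) [AddCommGroup V] [Module K V]
    [Module C' V] [IsScalarTower K C' V] (n : ℕ) (Y : C') : (Fin n → V) →ₗ[K] V :=
  ∑ i : Fin n, (mulE V (Y ^ (i : ℕ))) ∘ₗ LinearMap.proj i

theorem evl_apply {C' : Type} [CommRing C'] [Algebra K C'] {V : Type} [AddCommGroup V] [Module K V]
    [Module C' V] [IsScalarTower K C' V] (n : ℕ) (Y : C') (v : Fin n → V) :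
    evl V n Y v = ∑ i : Fin n, Y ^ (i : ℕ) • v i := by
  unfold evl
  rw [LinearMap.sum_apply]
  rfl

/-- the shift -/
def sh {C' : Type} [CommRing C'] {V : Type} [AddCommGroup V] [Module C' V] (n : ℕ) (g : C')
    (v : Fin (n + 1) → V) : Fin (n + 1) → V :=
  Fin.cons (g • v (Fin.last n)) (fun i : Fin n => v i.castSucc)

theorem evl_sh {C' : Type} [CommRing C'] [Algebra K C'] {V : Type} [AddCommGroup V] [Module K V]
    [Module C' V] [IsScalarTower K C' V] (n : ℕ) (Y g : C') (hY : Y ^ (n + 1) = g)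
    (v : Fin (n + 1) → V) : evl V (n + 1) Y (sh n g v) = Y • evl V (n + 1) Y v := by
  rw [evl_apply, evl_apply, Fin.sum_univ_succ, Fin.sum_univ_castSucc, smul_add, Finset.smul_sum]
  unfold sh
  simp only [Fin.cons_zero, Fin.cons_succ, Fin.val_zero, pow_zero, one_smul, Fin.val_succ,
    Fin.val_castSucc, Fin.val_last]
  rw [← mul_smul, ← pow_succ', hY, add_comm]
  congr 1
  refine Finset.sum_congr rfl fun i _ => ?_
  rw [← mul_smul, ← pow_succ']

end FILM

open FILM in
theorem specFIL (hCDB : SpecCDB) (hDIV : SpecDIV) : SpecFIL := by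
  intro C C' _ _ _ _ _ _ _ _ _ _ _ O O' d a y hO hO' hcov V _ _ _ _ _ _ _ _ _ _ _ _ F hF hOF
    G hG hOG hGF
  have hd := hcov.deg
  have hy0 : y ≠ 0 := by
    intro h
    have h1 := hcov.free (fun i => if i = 1 then 1 else 0) (by
      refine Finset.sum_eq_zero fun i _ => ?_
      by_cases hi : i = 1
      · subst hi; rw [h, pow_one, mul_zero]
      · rw [if_neg hi, map_zero, zero_mul]) 1 (by omega)
    exact one_ne_zero h1
  obtain ⟨n, rfl⟩ : ∃ n, d = n + 1 := ⟨d - 1, by omega⟩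
  obtain ⟨ζ, hζ⟩ : ∃ ζ : ℂ, IsPrimitiveRoot ζ (n + 1) :=
    ⟨_, Complex.isPrimitiveRoot_exp (n + 1) (Nat.succ_ne_zero n)⟩
  obtain ⟨z, hz⟩ : ∃ z : ℕ → ℂ, z = fun k => ζ ^ k := ⟨_, rfl⟩
  have hzinj : ∀ k < n + 1, ∀ l < n + 1, z k = z l → k = l := by
    intro k hk l hl h
    rw [hz] at h
    exact hζ.pow_inj hk hl h
  have hz0 : ∀ k, z k ≠ 0 := by
    intro k
    rw [hz]
    exact pow_ne_zero _ (hζ.ne_zero (Nat.succ_ne_zero n))
  have hzd : ∀ k, z k ^ (n + 1) = 1 := by
    intro k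
    rw [hz]
    change (ζ ^ k) ^ (n + 1) = 1
    rw [← pow_mul, mul_comm, pow_mul, hζ.pow_eq_one, one_pow]
  obtain ⟨Y, hYd⟩ : ∃ Y : ℕ → C', ∀ k, Y k = algebraMap ℂ C' (z k) * y := ⟨_, fun _ => rfl⟩
  have hY : ∀ k, Y k ^ (n + 1) = y ^ (n + 1) := by
    intro k
    rw [hYd, mul_pow, ← map_pow, hzd, map_one, one_mul]
  obtain ⟨ev, hev⟩ : ∃ ev : ℕ → (Fin (n + 1) → V) →ₗ[K] V, ∀ k, ev k = evl V (n + 1) (Y k) :=
    ⟨_, fun _ => rfl⟩
  obtain ⟨T, hTd⟩ : ∃ T : Fin (n + 1) → Chart → Submodule ℂ V, ∀ i, T i =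
      tw (-((a * (i : ℕ) : ℕ) : ℤ)) (-((a * (i : ℕ) : ℕ) : ℤ)) G := ⟨_, fun _ => rfl⟩
  have hT : ∀ i, IsLat (T i) := fun i => by rw [hTd]; exact hG.tw _ _
  have hP := PS_lat T hT Finset.univ
  have memP : ∀ s v, v ∈ PS T Finset.univ s ↔ ∀ i, v i ∈ T i s := by
    intro s v
    rw [mem_PS]
    exact ⟨fun h i => h.1 i (Finset.mem_univ i),
      fun h => ⟨fun i _ => h i, fun i hi => absurd (Finset.mem_univ i) hi⟩⟩
  obtain ⟨I, hId⟩ : ∃ I : ℕ → Chart → Submodule ℂ V, ∀ j, I j =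
      mapL (ev j) (PP (PS T Finset.univ) ev j) := ⟨_, fun _ => rfl⟩
  have hI : ∀ j, IsLat (I j) := fun j => by rw [hId]; exact (PP_lat hP.1 j).map _
  have memI : ∀ j s m, m ∈ I j s ↔ ∃ v, ((∀ i, v i ∈ T i s) ∧ ∀ k < j, ev k v = 0) ∧
      ev j v = m := by
    intro j s m
    rw [hId, mem_mapL]
    constructor
    · rintro ⟨v, hv, h⟩
      rw [mem_PP, memP] at hv
      exact ⟨v, hv, h⟩
    · rintro ⟨v, hv, h⟩
      refine ⟨v, ?_, h⟩
      rw [mem_PP, memP]
      exact hv
  -- stability over `O`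
  have hTO : ∀ i s (c : C) (x : V), c ∈ O s → x ∈ T i s → c • x ∈ T i s := by
    intro i s c x hc hx
    have h1 : O • T i = T i := by
      rw [hTd, smul_tw, hOG]
    rw [← h1]
    exact Submodule.smul_mem_smul hc hx
  have hevC : ∀ k (c : C) (v : Fin (n + 1) → V), ev k (c • v) = c • ev k v := by
    intro k c v
    rw [hev, evl_apply, evl_apply, Finset.smul_sum]
    refine Finset.sum_congr rfl fun i _ => ?_
    rw [Pi.smul_apply, smul_comm]
  have hIO : ∀ j, O • I j = I j := by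
    intro j
    refine hO.ring.smul_eq_of_le ?_
    intro s
    change O s • I j s ≤ I j s
    rw [Submodule.smul_le]
    intro c hc m hm
    rw [memI] at hm ⊢
    obtain ⟨v, hv, rfl⟩ := hm
    refine ⟨c • v, ⟨fun i => hTO i s c _ hc (hv.1 i), fun k hk => ?_⟩, hevC j c v⟩
    rw [hevC, hv.2 k hk, smul_zero]
  have hCG := (hCDB C C' O O' (n + 1) a y hO hO' hcov V G hG).2.2 hOG
  have hCF := (hCDB C C' O O' (n + 1) a y hO hO' hcov V F hF).1 hOF
  -- stability under `y`
  have hIy : ∀ j, ln y • tw (-a) (-a) (I j) ≤ I j := by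
    intro j s m' hm'
    rw [mem_ln_smul] at hm'
    obtain ⟨m, hm, rfl⟩ := hm'
    rw [mem_tw, memI] at hm
    obtain ⟨v, hv, hvm⟩ := hm
    have hκ0 : wx s ^ (-(a : ℤ)) * wu s ^ (-(a : ℤ)) ≠ 0 := wab_ne_zero s _ _
    obtain ⟨κ, hκ⟩ : ∃ κ : K, κ = wx s ^ (-(a : ℤ)) * wu s ^ (-(a : ℤ)) := ⟨_, rfl⟩
    rw [← hκ] at hκ0 hvm
    have e1 : ev j (κ • v) = m := by
      rw [map_smul, hvm, smul_smul, mul_inv_cancel₀ hκ0, one_smul]
    have hv' : ∀ i, (κ • v) i ∈ tw (-a) (-a) (T i) s := by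
      intro i
      rw [mem_tw, ← hκ, Pi.smul_apply, smul_smul, inv_mul_cancel₀ hκ0, one_smul]
      exact hv.1 i
    rw [memI]
    refine ⟨(z j)⁻¹ • sh n (y ^ (n + 1)) (κ • v), ⟨fun i => ?_, fun k hk => ?_⟩, ?_⟩
    · rw [Pi.smul_apply]
      refine Submodule.smul_mem _ _ ?_
      refine Fin.cases ?_ (fun i => ?_) i
      · have h1 : y ^ (n + 1) • (κ • v) (Fin.last n) ∈ G s := by
          refine hCG s (mem_ln_smul.2 ⟨_, ?_, rfl⟩)
          have h2 := hv' (Fin.last n)
          rw [hTd, tw_tw] at h2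
          have h3 : -(a : ℤ) + -((a * ((Fin.last n : Fin (n + 1)) : ℕ) : ℕ) : ℤ) =
              -((a * (n + 1) : ℕ) : ℤ) := by
            rw [Fin.val_last]; push_cast; ring
          rw [h3] at h2
          exact h2
        change y ^ (n + 1) • (κ • v) (Fin.last n) ∈ T 0 s
        rw [hTd]
        have h4 : -((a * ((0 : Fin (n + 1)) : ℕ) : ℕ) : ℤ) = 0 := by simp
        rw [h4, tw_zero]
        exact h1
      · change (κ • v) i.castSucc ∈ T i.succ s
        have h2 := hv' i.castSucc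
        rw [hTd, tw_tw] at h2
        rw [hTd]
        have h3 : -(a : ℤ) + -((a * ((i.castSucc : Fin (n + 1)) : ℕ) : ℕ) : ℤ) =
            -((a * ((i.succ : Fin (n + 1)) : ℕ) : ℕ) : ℤ) := by
          rw [Fin.val_castSucc, Fin.val_succ]; push_cast; ring
        rw [h3] at h2
        exact h2
    · rw [(ev k).map_smul_of_tower, hev, evl_sh n (Y k) _ (hY k), ← hev, map_smul, hv.2 k hk,
        smul_zero, smul_zero, smul_zero]
    · rw [(ev j).map_smul_of_tower, hev, evl_sh n (Y j) _ (hY j), ← hev, e1, hYd, mul_smul,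
        algebraMap_smul, smul_smul, inv_mul_cancel₀ (hz0 j), one_smul]
  have hIO' : ∀ j, O' • I j = I j := fun j =>
    (hCDB C C' O O' (n + 1) a y hO hO' hcov V (I j) (hI j)).2.1 (hIO j) (hIy j)
  -- divisibility
  have hIF : ∀ j < n + 1, I j ≤ ln (y ^ j) • tw (-((a * j : ℕ) : ℤ)) (-((a * j : ℕ) : ℤ)) F := by
    intro j hj s m hm
    rw [memI] at hm
    obtain ⟨v, hv, rfl⟩ := hm
    obtain ⟨v', hv'⟩ : ∃ v' : ℕ → V, ∀ i (h : i < n + 1), v' i = v ⟨i, h⟩ :=
      ⟨fun i => if h : i < n + 1 then v ⟨i, h⟩ else 0, fun i h => dif_pos h⟩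
    have hsum : ∀ Z : C', ∑ i ∈ Finset.range (n + 1), Z ^ i • v' i = evl V (n + 1) Z v := by
      intro Z
      rw [evl_apply, ← Fin.sum_univ_eq_sum_range (fun i => Z ^ i • v' i)]
      refine Finset.sum_congr rfl fun i _ => ?_
      rw [hv' i i.2]
    have h1 := hDIV C' V F hF a y hy0 hCF.2 s (n + 1) j z
      (fun k hk l hl h => hzinj k (hk.trans hj) l (hl.trans hj) h) v' (fun i hi => by
        rw [hv' i hi]
        have h2 := hv.1 ⟨i, hi⟩
        rw [hTd, mem_tw] at h2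
        rw [mem_tw]
        exact hGF s h2) (fun k hk => by
        rw [hsum, ← hYd, ← hev]
        exact hv.2 k hk) (z j)
    rw [hsum, ← hYd, ← hev] at h1
    exact h1
  -- the end of the filtration
  have hPd : PP (PS T Finset.univ) ev (n + 1) = ⊥ := by
    funext s
    rw [Pi.bot_apply, eq_bot_iff]
    intro v hv
    rw [mem_PP] at hv
    rw [Submodule.mem_bot]
    have h1 := vand (n + 1) (fun k : Fin (n + 1) => z k)
      (fun k l h => Fin.ext (hzinj k k.2 l l.2 h)) (fun i => y ^ (i : ℕ) • v i) (by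
        intro k
        have h2 := hv.2 k k.2
        rw [hev, evl_apply] at h2
        rw [← h2]
        refine Finset.sum_congr rfl fun i _ => ?_
        rw [hYd, mul_pow, mul_smul, ← map_pow, algebraMap_smul])
    funext i
    have h3 := congrFun h1 i
    exact (smul_eq_zero.1 h3).resolve_left (pow_ne_zero _ hy0)
  refine ⟨fun j => ln ((y ^ j)⁻¹) • tw ((a * j : ℕ) : ℤ) ((a * j : ℕ) : ℤ) (I j), ?_, ?_⟩
  · intro j hj
    refine ⟨((hI j).tw _ _).ln_smul _, ?_, ?_⟩
    · change O' • ln ((y ^ j)⁻¹) • tw ((a * j : ℕ) : ℤ) ((a * j : ℕ) : ℤ) (I j) = _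
      rw [← mulS, mul_comm, mulS, smul_tw, hIO']
    · have h1 : tw ((a * j : ℕ) : ℤ) ((a * j : ℕ) : ℤ) (I j) ≤ ln (y ^ j) • F := by
        have h2 : tw ((a * j : ℕ) : ℤ) ((a * j : ℕ) : ℤ) (I j) ≤
            tw ((a * j : ℕ) : ℤ) ((a * j : ℕ) : ℤ)
              (ln (y ^ j) • tw (-((a * j : ℕ) : ℤ)) (-((a * j : ℕ) : ℤ)) F) := by
          intro s m hm
          rw [mem_tw] at hm ⊢
          exact hIF j hj s hm
        rw [← smul_tw, tw_tw, add_neg_cancel, tw_zero] at h2
        exact h2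
      intro s m hm
      rw [mem_ln_smul] at hm
      obtain ⟨x', hx', rfl⟩ := hm
      have h2 := h1 s hx'
      rw [mem_ln_smul] at h2
      obtain ⟨x'', hx'', rfl⟩ := h2
      rw [smul_smul, inv_mul_cancel₀ (pow_ne_zero _ hy0), one_smul]
      exact hx''
  · intro b c
    have h1 := PP_chi (ev := ev) hP.1 (n + 1) b c
    rw [hPd, IsLat.chi_bot, add_zero, hP.2 b c] at h1
    have h2 : ∑ j ∈ Finset.range (n + 1),
        chi (ln ((y ^ j)⁻¹) • tw ((a * j : ℕ) : ℤ) ((a * j : ℕ) : ℤ) (I j))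
          (b - (a * j : ℕ)) (c - (a * j : ℕ)) = ∑ j ∈ Finset.range (n + 1), chi (I j) b c := by
      refine Finset.sum_congr rfl fun j _ => ?_
      rw [((hI j).tw _ _).chi_ln (isUnit_iff_ne_zero.2 (inv_ne_zero (pow_ne_zero _ hy0))),
        (hI j).chi_tw, sub_add_cancel, sub_add_cancel]
    have h3 : ∑ j ∈ Finset.range (n + 1), chi G (b - (a * j : ℕ)) (c - (a * j : ℕ)) =
        ∑ i : Fin (n + 1), chi (T i) b c := by
      rw [← Fin.sum_univ_eq_sum_range (fun j => chi G (b - (a * j : ℕ)) (c - (a * j : ℕ)))]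
      refine Finset.sum_congr rfl fun i _ => ?_
      rw [hTd, hG.chi_tw, sub_eq_add_neg, sub_eq_add_neg]
    rw [h2, h3, h1]
    refine Finset.sum_congr rfl fun j _ => ?_
    rw [hId]

end

end Pool.Agent.Lib.LP.TW
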