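import Pool.Agent.Lib.MP_865fc0_ag.TW.Spec
import Pool.Agent.Lib.MP_865fc0_ag.Poly

/-!
# MP_865fc0_ag, TW: the base of the tower (`P^1 x P^1`)
-/

set_option autoImplicit false

open scoped Pointwise

namespace Pool.Agent.Lib.LP.TW

namespace FUBM

theorem str_eq : strSheaf K = R := by
  funext s
  ext v
  constructor
  · intro h
    have h1 : IsIntegral (Ralg s) v := h
    exact mem_Ralg_of_isIntegral s h1
  · intro h
    have h1 : IsIntegral (Ralg s) (algebraMap (Ralg s) K ⟨v, h⟩) := isIntegral_algebraMap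
    exact h1

theorem full : Full K R where
  fin := inferInstance
  ring := ⟨isLat_R, by funext s; exact R_mul_R s, fun s => one_le_R s⟩
  span := (Ideal.eq_top_iff_one _).2 (Submodule.subset_span (one_mem_R _))

theorem mem_Oalg (s : Chart) (a : K) : a ∈ Oalg K s ↔ a ∈ Ralg s := by
  have h := congrFun str_eq s
  have h1 : a ∈ strSheaf K s ↔ a ∈ R s := by rw [h]
  exact h1

theorem can_eq : canonicalSheaf K = tw (-2) (-2) R := by
  funext s
  ext v
  rw [mem_tw]
  have hx := wx_ne_zero s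
  have hu := wu_ne_zero s
  have e : (wx s ^ (-2 : ℤ) * wu s ^ (-2 : ℤ))⁻¹ • v = wx s ^ 2 * wu s ^ 2 * v := by
    have e1 : wx s ^ (-2 : ℤ) = (wx s ^ 2)⁻¹ := by
      rw [zpow_neg]; norm_cast
    have e2 : wu s ^ (-2 : ℤ) = (wu s ^ 2)⁻¹ := by
      rw [zpow_neg]; norm_cast
    rw [e1, e2, ← mul_inv, inv_inv, smul_eq_mul]
  rw [e]
  constructor
  · intro h
    have h1 : wx s ^ 2 * wu s ^ 2 * Algebra.trace K K (1 * v) ∈ Ralg s := h 1 (Oalg K s).one_mem
    rw [Algebra.trace_self_apply, one_mul] at h1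
    exact h1
  · intro h a ha
    show wx s ^ 2 * wu s ^ 2 * Algebra.trace K K (a * v) ∈ Ralg s
    rw [Algebra.trace_self_apply]
    have h2 : wx s ^ 2 * wu s ^ 2 * (a * v) = a * (wx s ^ 2 * wu s ^ 2 * v) := by ring
    rw [h2]
    exact (Ralg s).mul_mem ((mem_Oalg s a).1 ha) h

end FUBM

/-- **FUB** -/
theorem specFUB : SpecFUB := by
  refine ⟨FUBM.str_eq, FUBM.full, ?_, ?_, FUBM.can_eq⟩
  · rw [lam_eq, chi_R, chi_R, chi_R]
    norm_num
  · rw [chi_R]
    norm_num

end Pool.Agent.Lib.LP.TW
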