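import Pool.Agent.Lib.MP_865fc0_ag.TW.SpecG
import Pool.Agent.Lib.MP_865fc0_ag.TW.FUC

/-!
# MP_865fc0_ag, TW, module FUG: the structure sheaf of a cyclic cover, rational constants
-/

set_option autoImplicit false
set_option linter.unusedSectionVars false

open scoped Pointwise
open Filter

namespace Pool.Agent.Lib.LP.TW

noncomputable section

theorem specFUG : SpecFUG := by
  intro L L' _ _ _ _ _ _ _ _ _ _ _ d a y p e h hF hlam hchi
  have hfin : Module.Finite K L := hF.fin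
  have hfin' : Module.Finite K L' := FUCM.finite' h hfin
  have hO : IsLat (strSheaf L) := hF.ring.lat
  have hrank := FUCM.finrank' h hfin
  have hlead : lead (strSheaf L) = Module.finrank K L := hO.lead_of_full hF.span
  have hlam' : lam (strSheaf L) = ca (strSheaf L) + cb (strSheaf L) := rfl
  have hc := FUCM.chiO' h hfin hO
  have hlat : IsLat (strSheaf L') := by
    rw [FUCM.O'_eq h]
    exact FUCM.latk hO d
  obtain ⟨S1, hS1⟩ : ∃ S1 : ℤ, S1 = ∑ i ∈ Finset.range d, (i : ℤ) := ⟨_, rfl⟩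
  obtain ⟨S2, hS2⟩ : ∃ S2 : ℤ, S2 = ∑ i ∈ Finset.range d, (i : ℤ) ^ 2 := ⟨_, rfl⟩
  have e1 := FUCM.sum1 d
  have e2 := FUCM.sum2 d
  rw [← hS1] at e1
  rw [← hS2] at e2
  rw [hlam'] at hlam
  have hlamQ : (ca (strSheaf L) : ℚ) + cb (strSheaf L) = p * Module.finrank K L := by
    exact_mod_cast hlam
  have e1Q : 2 * (S1 : ℚ) = d * (d - 1) := by exact_mod_cast e1
  have e2Q : 6 * (S2 : ℚ) = (d - 1) * d * (2 * d - 1) := by exact_mod_cast e2
  refine ⟨⟨hfin', ⟨hlat, ?_, ?_⟩, FUCM.span' h hF.span⟩, ?_, ?_⟩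
  · funext s
    exact Subalgebra.isIdempotentElem_toSubmodule _
  · intro s
    rw [Pi.one_apply, Submodule.one_le]
    exact (Oalg L' s).one_mem
  · rw [lam_eq, hc, hc, hc, hlead, hrank, ← hS1, ← hS2]
    push_cast
    linear_combination (d : ℚ) * hlamQ - (a : ℚ) * (Module.finrank K L : ℚ) * e1Q
  · rw [hc, hlead, hrank, ← hS1, ← hS2]
    push_cast
    linear_combination (d : ℚ) * hchi - (a : ℚ) * S1 * hlamQ -
      (a : ℚ) * p * (Module.finrank K L : ℚ) / 2 * e1Q +
      (a : ℚ) ^ 2 * (Module.finrank K L : ℚ) / 6 * e2Q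

end

end Pool.Agent.Lib.LP.TW
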