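import Pool.Agent.Lib.MP_865fc0_ag.TW.SpecI

/-! # MP_865fc0_ag, TW, module FUL: the structure sheaf of the normalization -/

set_option autoImplicit false

open scoped Pointwise

namespace Pool.Agent.Lib.LP.TW

namespace FULM

open Polynomial

variable (L : Type) [Field L] [Algebra ℂ L] [Algebra K L] [IsScalarTower ℂ K L]

theorem mem_str {s : Chart} {v : L} : v ∈ strSheaf L s ↔ IsIntegral (Ralg s) v := Iff.rfl

theorem fg [FiniteDimensional K L] (s : Chart) :
    ∃ T : Submodule ℂ L, T.FG ∧ strSheaf L s = R s • T := by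
  have : CharZero K := charZero_of_injective_algebraMap (algebraMap ℂ K).injective
  have : Algebra.IsSeparable K L := inferInstance
  have hfin : Module.Finite (Ralg s) (integralClosure (Ralg s) L) :=
    IsIntegralClosure.finite (Ralg s) K L (integralClosure (Ralg s) L)
  have h1 : (Subalgebra.toSubmodule (integralClosure (Ralg s) L)).FG :=
    Module.Finite.iff_fg.1 hfin
  obtain ⟨t, ht⟩ := h1
  refine ⟨Submodule.span ℂ (t : Set L), ⟨t, rfl⟩, ?_⟩
  rw [smul_R_span, ht]
  rfl

theorem glue (s t : Chart) (v : L) (hv : v ∈ strSheaf L s) :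
    ∃ n : ℕ, (w s / w t) ^ n • v ∈ strSheaf L t := by
  rw [mem_str] at hv
  obtain ⟨P, hP, hPv⟩ := hv
  -- a common exponent
  have hex : ∀ i : ℕ, ∃ m : ℕ, (w s / w t) ^ m • ((P.coeff i : Ralg s) : K) ∈ R t := fun i =>
    isLat_R.glue s t _ (P.coeff i).2
  choose m hm using hex
  set M : ℕ := ∑ i ∈ Finset.range (P.natDegree + 1), m i with hM
  have hm' : ∀ i, i ≤ P.natDegree → (w s / w t) ^ M * ((P.coeff i : Ralg s) : K) ∈ Ralg t := by
    intro i hi
    have h1 : m i ≤ M := Finset.single_le_sum (f := m) (fun _ _ => Nat.zero_le _)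
      (Finset.mem_range.2 (by omega))
    have h2 := isLat_R.glue_mono h1 (hm i)
    rw [smul_eq_mul] at h2
    exact h2
  refine ⟨M, ?_⟩
  rw [mem_str]
  set c : K := (w s / w t) ^ M with hc
  have hcR : c ∈ Ralg t := (Ralg t).pow_mem (w_div_mem s t) _
  set P' : K[X] := P.map (algebraMap (Ralg s) K) with hP'
  have hP'm : P'.Monic := hP.map _
  have hP'v : aeval v P' = 0 := by
    rw [hP', aeval_map_algebraMap]
    exact hPv
  have hdeg : P'.natDegree = P.natDegree := hP.natDegree_map _
  set Q : K[X] := scaleRoots P' c with hQ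
  have hQm : Q.Monic := (monic_scaleRoots_iff c).2 hP'm
  have hQv : aeval (algebraMap K L c * v) Q = 0 := scaleRoots_aeval_eq_zero hP'v
  have hQl : Q ∈ lifts (algebraMap (Ralg t) K) := by
    rw [lifts_iff_coeff_lifts]
    intro i
    rw [hQ, coeff_scaleRoots, hP', coeff_map, ← hP', hdeg]
    rcases lt_trichotomy i P.natDegree with h | h | h
    · have h1 : P.natDegree - i = (P.natDegree - i - 1) + 1 := by omega
      have h2 : algebraMap (Ralg s) K (P.coeff i) * c ^ (P.natDegree - i) =
          c ^ (P.natDegree - i - 1) * (c * ((P.coeff i : Ralg s) : K)) := by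
        rw [h1, pow_succ]
        change ((P.coeff i : Ralg s) : K) * _ = _
        rw [Nat.add_sub_cancel]
        ring
      rw [h2]
      exact ⟨⟨_, (Ralg t).mul_mem ((Ralg t).pow_mem hcR _) (hm' i h.le)⟩, rfl⟩
    · rw [h, Nat.sub_self, pow_zero, mul_one, hP.coeff_natDegree, map_one]
      exact ⟨1, map_one _⟩
    · rw [coeff_eq_zero_of_natDegree_lt h, map_zero, zero_mul]
      exact ⟨0, map_zero _⟩
  obtain ⟨q, hq1, -, hq3⟩ := lifts_and_natDegree_eq_and_monic hQl hQm
  refine ⟨q, hq3, ?_⟩
  rw [Algebra.smul_def, ← aeval_def]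
  rw [← hq1, aeval_map_algebraMap] at hQv
  exact hQv

theorem isRingLat [FiniteDimensional K L] : IsRingLat (strSheaf L) where
  lat := ⟨fg L, glue L⟩
  mul := by
    funext s
    exact (Subalgebra.isIdempotentElem_toSubmodule (Oalg L s)).eq
  one := by
    intro s
    exact Submodule.one_le.2 (Oalg L s).one_mem

theorem span_top [FiniteDimensional K L] :
    Submodule.span K (strSheaf L (false, false) : Set L) = ⊤ := by
  rw [eq_top_iff]
  intro l _
  have h1 : IsAlgebraic (Ralg (false, false)) l :=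
    (IsFractionRing.isAlgebraic_iff (Ralg (false, false)) K L).2 (Algebra.IsAlgebraic.isAlgebraic l)
  obtain ⟨y, hy0, hy⟩ := h1.exists_integral_multiple
  have hy0' : (y : K) ≠ 0 := fun h => hy0 (Subtype.ext h)
  have h2 : l = (y : K)⁻¹ • (y • l) := by
    have h3 : (y • l : L) = (y : K) • l := rfl
    rw [h3, smul_smul, inv_mul_cancel₀ hy0', one_smul]
  rw [h2]
  exact Submodule.smul_mem _ _ (Submodule.subset_span hy)

end FULM

theorem specFUL : SpecFUL := by
  intro L _ _ _ _ hfin
  exact ⟨hfin, FULM.isRingLat L, FULM.span_top L⟩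

end Pool.Agent.Lib.LP.TW
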