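import Pool.Agent.Lib.MP_865fc0_ag.TW.Spec

/-!
# MP_865fc0_ag, TW, module FUS: the structure sheaf of a double cover
-/

set_option autoImplicit false
set_option linter.unusedSectionVars false

open scoped Pointwise
open Filter

namespace Pool.Agent.Lib.LP.TW

noncomputable section

namespace FUSM

section

variable {L L' : Type} [Field L] [Algebra ℂ L] [Algebra K L] [IsScalarTower ℂ K L]
variable [Field L'] [Algebra ℂ L'] [Algebra K L'] [IsScalarTower ℂ K L'] [Algebra L L']
variable [IsScalarTower K L L'] [IsScalarTower ℂ L L']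

variable (L L') in
/-- the inclusion -/
def p1 : L →ₗ[K] L' := (IsScalarTower.toAlgHom K L L').toLinearMap

theorem p1_apply (f : L) : p1 L L' f = algebraMap L L' f := rfl

variable (L) in
/-- the map `g ↦ g y` -/
def p2 (y : L') : L →ₗ[K] L' := (LinearMap.mulRight K y).comp (p1 L L')

theorem p2_apply (y : L') (g : L) : p2 L y g = algebraMap L L' g * y := rfl

variable {O : Chart → Submodule ℂ L} {O' : Chart → Submodule ℂ L'} {a : ℕ} {y : L'}

theorem inj1 (h : DCov L L' O O' a y) : Function.Injective (p1 L L') := by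
  rw [← LinearMap.ker_eq_bot, LinearMap.ker_eq_bot']
  intro f hf
  rw [p1_apply] at hf
  exact (h.free f 0 (by rw [map_zero, zero_mul, add_zero]; exact hf)).1

theorem inj2 (h : DCov L L' O O' a y) : Function.Injective (p2 L y) := by
  rw [← LinearMap.ker_eq_bot, LinearMap.ker_eq_bot']
  intro g hg
  rw [p2_apply] at hg
  exact (h.free 0 g (by rw [map_zero, zero_add]; exact hg)).2

theorem O'_eq (h : DCov L L' O O' a y) :
    O' = mapL (p1 L L') O ⊔ mapL (p2 L y) (tw (-a) (-a) O) := by
  funext s
  ext v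
  rw [h.eq, Pi.sup_apply, Submodule.mem_sup]
  constructor
  · rintro ⟨f, hf, g, hg, rfl⟩
    exact ⟨p1 L L' f, ⟨f, hf, rfl⟩, p2 L y g, ⟨g, hg, rfl⟩, rfl⟩
  · rintro ⟨_, ⟨f, hf, rfl⟩, _, ⟨g, hg, rfl⟩, rfl⟩
    exact ⟨f, hf, g, hg, rfl⟩

theorem inf_eq (h : DCov L L' O O' a y) :
    mapL (p1 L L') O ⊓ mapL (p2 L y) (tw (-a) (-a) O) = ⊥ := by
  funext s
  rw [Pi.inf_apply, Pi.bot_apply, eq_bot_iff]
  rintro v ⟨⟨f, _, hf⟩, ⟨g, _, hg⟩⟩
  have hf' : algebraMap L L' f = v := hf
  have hg' : algebraMap L L' g * y = v := hg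
  have h1 := h.free f (-g) (by rw [map_neg, neg_mul, hf', hg', add_neg_cancel])
  rw [Submodule.mem_bot, ← hf', h1.1, map_zero]

/-- `L'` is isomorphic to `L × L` -/
def equ (h : DCov L L' O O' a y) : (L × L) ≃ₗ[K] L' :=
  LinearEquiv.ofBijective ((p1 L L').coprod (p2 L y)) (by
    constructor
    · rw [← LinearMap.ker_eq_bot, LinearMap.ker_eq_bot']
      rintro ⟨f, g⟩ hfg
      have h1 : algebraMap L L' f + algebraMap L L' g * y = 0 := hfg
      obtain ⟨h2, h3⟩ := h.free f g h1
      rw [h2, h3]
      rfl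
    · intro v
      obtain ⟨f, g, hv⟩ := h.gen v
      exact ⟨(f, g), hv.symm⟩)

theorem finite' (h : DCov L L' O O' a y) (hf : Module.Finite K L) : Module.Finite K L' :=
  Module.Finite.equiv (equ h)

theorem finrank' (h : DCov L L' O O' a y) (hf : Module.Finite K L) :
    Module.finrank K L' = 2 * Module.finrank K L := by
  rw [← (equ h).finrank_eq, Module.finrank_prod]
  ring

theorem lat' (h : DCov L L' O O' a y) (hO : IsLat O) : IsLat O' := by
  rw [O'_eq h]
  exact (hO.map _).sup ((hO.tw _ _).map _)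

theorem tw_ff (a b : ℤ) (O : Chart → Submodule ℂ L) : tw a b O (false, false) = O (false, false) := by
  unfold tw wx wu
  simp only [Bool.false_eq_true, if_false, one_zpow, mul_one, line_one]
  exact Submodule.one_smul _

theorem span' (h : DCov L L' O O' a y)
    (hs : Submodule.span K (O (false, false) : Set L) = ⊤) :
    Submodule.span K (O' (false, false) : Set L') = ⊤ := by
  have h1 : ∀ f : L, p1 L L' f ∈ Submodule.span K (O' (false, false) : Set L') := by
    intro f
    have h2 : Submodule.map (p1 L L') (Submodule.span K (O (false, false) : Set L)) ≤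
        Submodule.span K (O' (false, false) : Set L') := by
      rw [Submodule.map_span, Submodule.span_le]
      rintro _ ⟨g, hg, rfl⟩
      apply Submodule.subset_span
      rw [SetLike.mem_coe, h.eq]
      exact ⟨g, hg, 0, Submodule.zero_mem _, by rw [map_zero, zero_mul, add_zero]; rfl⟩
    apply h2
    rw [hs]
    exact ⟨f, Submodule.mem_top, rfl⟩
  have h3 : ∀ f : L, p2 L y f ∈ Submodule.span K (O' (false, false) : Set L') := by
    intro f
    have h2 : Submodule.map (p2 L y) (Submodule.span K (O (false, false) : Set L)) ≤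
        Submodule.span K (O' (false, false) : Set L') := by
      rw [Submodule.map_span, Submodule.span_le]
      rintro _ ⟨g, hg, rfl⟩
      apply Submodule.subset_span
      rw [SetLike.mem_coe, h.eq]
      refine ⟨0, Submodule.zero_mem _, g, ?_, by rw [map_zero, zero_add]; rfl⟩
      rw [tw_ff]
      exact hg
    apply h2
    rw [hs]
    exact ⟨f, Submodule.mem_top, rfl⟩
  rw [eq_top_iff]
  intro v _
  obtain ⟨f, g, hv⟩ := h.gen v
  rw [hv]
  exact Submodule.add_mem _ (h1 f) (h3 g)

theorem chi' (h : DCov L L' O O' a y) (hf : Module.Finite K L) (hO : IsLat O) (b c : ℤ) :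
    chi O' b c = chi O b c + chi O (b - a) (c - a) := by
  have hf' : Module.Finite K L' := finite' h hf
  have h1 := (hO.map (p1 L L')).chi_sup ((hO.tw (-a) (-a)).map (p2 L y)) b c
  rw [inf_eq h, ← O'_eq h, IsLat.chi_bot, hO.chi_map_of_injective (p1 L L') (inj1 h),
    (hO.tw (-a) (-a)).chi_map_of_injective (p2 L y) (inj2 h), hO.chi_tw, add_zero] at h1
  rw [h1, sub_eq_add_neg, sub_eq_add_neg]

end

end FUSM

theorem specFUS : SpecFUS := by
  intro L L' _ _ _ _ _ _ _ _ _ _ _ a y p e h hF hlam hchi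
  have hfin : Module.Finite K L := hF.fin
  have hfin' : Module.Finite K L' := FUSM.finite' h hfin
  have hO : IsLat (strSheaf L) := hF.ring.lat
  have hrank := FUSM.finrank' h hfin
  have hlead : lead (strSheaf L) = Module.finrank K L := hO.lead_of_full hF.span
  have hlam' : lam (strSheaf L) = ca (strSheaf L) + cb (strSheaf L) := rfl
  have hc := FUSM.chi' h hfin hO
  refine ⟨⟨hfin', ⟨FUSM.lat' h hO, ?_, ?_⟩, FUSM.span' h hF.span⟩, ?_, ?_⟩
  · funext s
    exact Subalgebra.isIdempotentElem_toSubmodule _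
  · intro s
    rw [Pi.one_apply, Submodule.one_le]
    exact (Oalg L' s).one_mem
  · rw [lam_eq, hc, hc, hc, hO.chi_eq 1 0, hO.chi_eq 0 1, hO.chi_eq (1 - a) (0 - a),
      hO.chi_eq (0 - a) (1 - a), hO.chi_eq (0 - a) (0 - a), hlead, hrank]
    rw [hlam'] at hlam
    push_cast
    linear_combination 2 * hlam
  · rw [hc, hO.chi_eq (0 - a) (0 - a), hlead, hrank]
    rw [hlam'] at hlam
    have hlamQ : (ca (strSheaf L) : ℚ) + cb (strSheaf L) = p * Module.finrank K L := by
      exact_mod_cast hlam
    push_cast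
    linear_combination 2 * hchi - (a : ℚ) * hlamQ

end

end Pool.Agent.Lib.LP.TW
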