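import Pool.Agent.Lib.MP_865fc0_ag.TW.Spec

/-!
# MP_865fc0_ag, TW: assembly
-/

open scoped Pointwise
open Filter Topology

namespace Pool.Agent.Lib.LP.TW

theorem not_continuousAt {Φ : ℝ → EReal} (h0 : 0 ≤ Φ 0) {η δ : ℝ} (hη : 0 < η) (hδ : 0 < δ)
    (h : ∀ t : ℝ, -η < t → t < 0 → Φ t ≤ ((-δ : ℝ) : EReal)) : ¬ ContinuousAt Φ 0 := by
  intro hc
  have h1 : Tendsto Φ (𝓝[<] (0 : ℝ)) (𝓝 (Φ 0)) := hc.tendsto.mono_left nhdsWithin_le_nhds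
  have h2 : ∀ᶠ t in 𝓝[<] (0 : ℝ), Φ t ≤ ((-δ : ℝ) : EReal) := by
    have h3 : Set.Ioo (-η) 0 ∈ 𝓝[<] (0 : ℝ) := Ioo_mem_nhdsLT (by linarith)
    filter_upwards [h3] with t ht
    exact h t ht.1 ht.2
  have h4 : Φ 0 ≤ ((-δ : ℝ) : EReal) := le_of_tendsto h1 h2
  have h5 : (0 : EReal) ≤ ((-δ : ℝ) : EReal) := h0.trans h4
  have h6 : (0 : ℝ) ≤ -δ := by exact_mod_cast h5
  linarith

theorem tow_result (hTOW : SpecTOW) (hHCO : SpecHCO) (hPHZ : SpecPHZ) (hPHN : SpecPHN)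
    (L : Type) [Field L] [Algebra ℂ L] [Algebra K L] [IsScalarTower ℂ K L] (hL : Tow L) :
    FiniteDimensional K L ∧ H1Vanishes L ∧ 0 ≤ Phi L 0 ∧
    (∃ η : ℝ, 0 < η ∧ ∃ δ : ℝ, 0 < δ ∧ ∀ t : ℝ, -η < t → t < 0 →
      Phi L t ≤ ((-δ : ℝ) : EReal)) ∧
    ¬ ContinuousAt (Phi L) 0 := by
  obtain ⟨p, e, T⟩ := hTOW L hL
  have h0 := hPHZ L p e T
  obtain ⟨η, hη, δ, hδ, h⟩ := hPHN L p e T
  exact ⟨T.full.fin, hHCO L p e T, h0, ⟨η, hη, δ, hδ, h⟩, not_continuousAt h0 hη hδ h⟩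

end Pool.Agent.Lib.LP.TW
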