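import Pool.Agent.Lib.MP_865fc0_ag.TW.Spec

/-!
# MP_865fc0_ag, TW: towers of cyclic covers of arbitrary degrees (second part of the plan)

THEOREM.  The same for surfaces obtained from `P^1 x P^1` by finitely many cyclic covers of degrees
`d ≥ 2`, each totally branched along a reduced divisor of `|d a H|`, `a ≥ 1`: `y^d = f`,
`O' = ⊕_{i < d} O(-ia,-ia) y^i`.

Idea.  Let `F` be semistable over `O'`, `m = mm F`, `G ≤ F` a sheaf over `O`.  `G ⊗_O O' =
⊕_{i < d} G(-ia) Y^i` is filtered by the common kernels of the evaluations `Y ↦ ζ^k y`, `k < j`; the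
`j`-th quotient is embedded in `F(-ja)` as an `O'`-sheaf (FIL).  So the Harder-Narasimhan polygon of
`F` over `O` is below the one with slopes `t_j = m + a(d-1) - 2aj`, `j < d` (RND), and a convex
piecewise linear majorant of the semistable sheaves over `O` gives the bound for `cc F` (MAG, INC).

Conventions as in Spec.lean: module `XXX` = file `TW/XXX.lean`, imports this file
(`Pool.Agent.Lib.MP_865fc0_ag.TW.SpecC`) and any base file, namespace `Pool.Agent.Lib.LP.TW`, theorem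
`specXXX (hyps in the order of Uses) : SpecXXX`, own lemmas in `namespace XXXM`.
-/

set_option autoImplicit false

open scoped Pointwise
open Filter

namespace Pool.Agent.Lib.LP.TW

noncomputable section

/-- `C' = C(y)`, `y^d ∈ C`, and `O' = ⊕_{i < d} O(-ia,-ia) y^i`: the surface of `O'` is the cyclic
cover of degree `d` of that of `O`, branched along the divisor `y^d = 0` of `|d a H|`. -/
structure CCov (C C' : Type) [Field C] [Algebra ℂ C] [Algebra K C] [IsScalarTower ℂ K C]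
    [Field C'] [Algebra ℂ C'] [Algebra K C'] [IsScalarTower ℂ K C'] [Algebra C C']
    (O : Chart → Submodule ℂ C) (O' : Chart → Submodule ℂ C') (d a : ℕ) (y : C') : Prop where
  deg : 2 ≤ d
  pos : 1 ≤ a
  root : ∃ f : C, y ^ d = algebraMap C C' f
  free : ∀ g : ℕ → C, ∑ i ∈ Finset.range d, algebraMap C C' (g i) * y ^ i = 0 → ∀ i < d, g i = 0
  gen : ∀ v : C', ∃ g : ℕ → C, v = ∑ i ∈ Finset.range d, algebraMap C C' (g i) * y ^ i
  eq : ∀ (s : Chart) (v : C'), v ∈ O' s ↔ ∃ g : ℕ → C,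
    (∀ i < d, g i ∈ tw (-((a * i : ℕ) : ℤ)) (-((a * i : ℕ) : ℤ)) O s) ∧
      v = ∑ i ∈ Finset.range d, algebraMap C C' (g i) * y ^ i

/-- The function fields of the surfaces obtained from `P^1 x P^1` by finitely many cyclic covers,
each branched along a reduced divisor of `|d a H|`, `d ≥ 2` its degree, `a ≥ 1`. -/
inductive TowC : (L : Type) → [Field L] → [Algebra ℂ L] → [Algebra K L] → Prop
  | base : TowC K
  | step (L L' : Type) [Field L] [Algebra ℂ L] [Algebra K L] [IsScalarTower ℂ K L] [Field L']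
      [Algebra ℂ L'] [Algebra K L'] [IsScalarTower ℂ K L'] [Algebra L L'] [IsScalarTower K L L']
      [IsScalarTower ℂ L L'] (d a : ℕ) (y : L') :
      TowC L → CCov L L' (strSheaf L) (strSheaf L') d a y → TowC L'

/-! ## Part 7: sheaves on cyclic covers -/

/-- CDB [140].  Uses: nothing.  As DCB.  First: `O • F ≤ O' • F`; `y g ∈ O' s` for
`g ∈ tw (-a) (-a) O s`.  Second: an element of `O' s` is `∑ g_i y^i`; `g_i F s ≤ tw (-ia) (-ia) F s`
and `ln (y^i) • tw (-ia) (-ia) F ≤ F` by iteration.  Third: for `g ∈ tw (-(d-1)a) (-(d-1)a) O s`,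
`g' ∈ tw (-a) (-a) O s`: `(g y^(d-1)) (g' y) = g g' f ∈ O' s`, so `g g' f ∈ O s` (`free`, `eq`);
`tw (-(d-1)a) O * tw (-a) O = tw (-da) O` since `O * O = O`. -/
def SpecCDB : Prop := ∀ (C C' : Type) [Field C] [Algebra ℂ C] [Algebra K C] [IsScalarTower ℂ K C]
  [Field C'] [Algebra ℂ C'] [Algebra K C'] [IsScalarTower ℂ K C'] [Algebra C C']
  [IsScalarTower K C C'] [IsScalarTower ℂ C C'] (O : Chart → Submodule ℂ C)
  (O' : Chart → Submodule ℂ C') (d a : ℕ) (y : C'), Full C O → Full C' O' →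
  CCov C C' O O' d a y →
  ∀ (V : Type) [AddCommGroup V] [Module ℂ V] [Module K V] [IsScalarTower ℂ K V] [Module C V]
    [IsScalarTower ℂ C V] [IsScalarTower K C V] [Module C' V] [IsScalarTower ℂ C' V]
    [IsScalarTower K C' V] [IsScalarTower C C' V] (F : Chart → Submodule ℂ V), IsLat F →
    (O' • F = F → O • F = F ∧ ln y • tw (-a) (-a) F ≤ F) ∧
    (O • F = F → ln y • tw (-a) (-a) F ≤ F → O' • F = F) ∧
    (O • F = F → ln (y ^ d) • tw (-((a * d : ℕ) : ℤ)) (-((a * d : ℕ) : ℤ)) F ≤ F)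

/-- DIV [130].  Uses: nothing.  Divisibility.  Proof: induction on `j`, for all `F`, `v`, `n`.
`j = 0`: `(c y)^i v_i ∈ F s` since `ln (y^i) • tw (-ai) (-ai) F ≤ F`.  Step: divide by `Y - ζ_0 y`:
`q_i = ∑_{i < l < n} (ζ_0 y)^(l-i-1) v_l ∈ tw (-a(i+1)) (-a(i+1)) F s`,
`∑ Y^i v_i = (Y - ζ_0 y) ∑ Y^i q_i + ∑ (ζ_0 y)^i v_i` for every `Y ∈ C'` (here `Y = c y`).  So
`∑ (c y)^i v_i = (c - ζ_0) y ∑ (c y)^i q_i` for all `c`; since `y` and `ζ_k - ζ_0` act injectively, `q`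
satisfies the hypothesis for `ζ_1, .., ζ_(j-1)`, `n - 1` and `tw (-a) (-a) F`; by induction
`∑ (c y)^i q_i ∈ y^(j-1) tw (-a(j-1)) (tw (-a) F) s`. -/
def SpecDIV : Prop := ∀ (C' : Type) [Field C'] [Algebra ℂ C'] [Algebra K C'] [IsScalarTower ℂ K C']
  (V : Type) [AddCommGroup V] [Module ℂ V] [Module K V] [IsScalarTower ℂ K V] [Module C' V]
  [IsScalarTower ℂ C' V] [IsScalarTower K C' V] (F : Chart → Submodule ℂ V), IsLat F →
  ∀ (a : ℕ) (y : C'), y ≠ 0 → ln y • tw (-a) (-a) F ≤ F →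
  ∀ (s : Chart) (n j : ℕ) (ζ : ℕ → ℂ), (∀ k < j, ∀ l < j, ζ k = ζ l → k = l) →
  ∀ v : ℕ → V, (∀ i < n, v i ∈ tw (-((a * i : ℕ) : ℤ)) (-((a * i : ℕ) : ℤ)) F s) →
  (∀ k < j, ∑ i ∈ Finset.range n, (algebraMap ℂ C' (ζ k) * y) ^ i • v i = 0) →
  ∀ c : ℂ, ∑ i ∈ Finset.range n, (algebraMap ℂ C' c * y) ^ i • v i ∈
    (ln (y ^ j) • tw (-((a * j : ℕ) : ℤ)) (-((a * j : ℕ) : ℤ)) F) s

/-- FIL [280].  Uses: CDB DIV.  Proof: let `W = Fin d → V`, `P s = {v : v_i ∈ tw (-ia) (-ia) G s}`: a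
lattice in `W` (the sum of the `mapL (single i)` of the `tw (-ia) (-ia) G`, with trivial intersections:
`chi P b c = ∑ chi G (b-ia) (c-ia)`, `chi_sup`, `chi_map_of_injective`, `chi_tw`).  Let `ζ` be a
primitive `d`-th root of unity, `ev_k : W → V`, `v ↦ ∑ (ζ^k y)^i v_i`, `K`-linear, and
`P_j s = {v ∈ P s : ev_k v = 0 for k < j}`: lattices (`inf_ker`), `P_0 = P`, `P_d = 0` (a polynomial of
degree `< d` with the `d` roots `ζ^k y` is zero: Vandermonde, or DIV-like division), and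
`chi P_j = chi P_(j+1) + chi (mapL ev_j P_j)` (`chi_map`).  `I_j = mapL ev_j P_j` is stable over `O`, and
`y I_j(-a) ≤ I_j`: the operator `T`, `(T v)_0 = f v_(d-1)`, `(T v)_(i+1) = v_i`, maps `P_j(-a)` to `P_j`
(`f tw (-da) G ≤ G`, CDB) and `ev_j ∘ T = ζ^j y ev_j`.  So `O' • I_j = I_j` (CDB), and by DIV (for `F`;
`P ≤ ⊕ tw (-ia) F`) `I_j ≤ ln (y^j) • tw (-ja) (-ja) F`.  Let `J j = ln (y^j)⁻¹ • tw (ja) (ja) I_j ≤ F`. -/
def SpecFIL : Prop := ∀ (C C' : Type) [Field C] [Algebra ℂ C] [Algebra K C] [IsScalarTower ℂ K C]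
  [Field C'] [Algebra ℂ C'] [Algebra K C'] [IsScalarTower ℂ K C'] [Algebra C C']
  [IsScalarTower K C C'] [IsScalarTower ℂ C C'] (O : Chart → Submodule ℂ C)
  (O' : Chart → Submodule ℂ C') (d a : ℕ) (y : C'), Full C O → Full C' O' →
  CCov C C' O O' d a y →
  ∀ (V : Type) [AddCommGroup V] [Module ℂ V] [Module K V] [IsScalarTower ℂ K V] [Module C V]
    [IsScalarTower ℂ C V] [IsScalarTower K C V] [Module C' V] [IsScalarTower ℂ C' V]
    [IsScalarTower K C' V] [IsScalarTower C C' V] [Module.Finite K V]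
    (F : Chart → Submodule ℂ V), IsLat F → O' • F = F →
    ∀ G : Chart → Submodule ℂ V, IsLat G → O • G = G → G ≤ F →
    ∃ J : ℕ → Chart → Submodule ℂ V, (∀ j < d, IsLat (J j) ∧ O' • J j = J j ∧ J j ≤ F) ∧
      ∀ b c : ℤ, ∑ j ∈ Finset.range d, chi (J j) (b - (a * j : ℕ)) (c - (a * j : ℕ)) =
        ∑ j ∈ Finset.range d, chi G (b - (a * j : ℕ)) (c - (a * j : ℕ))

/-- RND [130].  Uses: FIL.  Proof: from FIL, `∑ lead (J j) = d lead G` and
`∑ (lam (J j) - 2 a j lead (J j)) = d lam G - a d (d-1) lead G`; `Sst`: `lam (J j) ≤ m lead (J j)`,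
`m = mm F`.  So `d (lam G - τ lead G) ≤ ∑ (m + a(d-1) - 2aj - τ) lead (J j)`, and
`0 ≤ lead (J j) ≤ lead F`. -/
def SpecRND : Prop := ∀ (C C' : Type) [Field C] [Algebra ℂ C] [Algebra K C] [IsScalarTower ℂ K C]
  [Field C'] [Algebra ℂ C'] [Algebra K C'] [IsScalarTower ℂ K C'] [Algebra C C']
  [IsScalarTower K C C'] [IsScalarTower ℂ C C'] (O : Chart → Submodule ℂ C)
  (O' : Chart → Submodule ℂ C') (d a : ℕ) (y : C'), Full C O → Full C' O' →
  CCov C C' O O' d a y →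
  ∀ (V : Type) [AddCommGroup V] [Module ℂ V] [Module K V] [IsScalarTower ℂ K V] [Module C V]
    [IsScalarTower ℂ C V] [IsScalarTower K C V] [Module C' V] [IsScalarTower ℂ C' V]
    [IsScalarTower K C' V] [IsScalarTower C C' V] [Module.Finite K V]
    (F : Chart → Submodule ℂ V), IsLat F → O' • F = F → Sst O' F → 0 < lead F →
    ∀ G : Chart → Submodule ℂ V, IsLat G → O • G = G → G ≤ F → ∀ τ : ℚ,
      (d : ℚ) * (lam G - τ * lead G) ≤
        lead F * ∑ j ∈ Finset.range d, max 0 (mm F + a * (d - 1) - 2 * a * j - τ)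

/-- MAG [220].  Uses: HNX QUO.  Convex majorants.  Proof: as MAJ (copy it), by strong induction on
`lead F`, over all `V` and all `γ`.  If `F` is semistable use `0 ≤ γ j` and `E = F`:
`max 0 (lam F - τ_j lead F) ≤ γ j`.  Otherwise `E₁` as in MAJ, semistable of the largest slope, and
`γ' j = γ j - max 0 (lam E₁ - τ_j lead E₁) ≥ 0` works for `F'`: for `E' ≤ F'`, `lam E' - τ_j lead E' =
(lam E'' - τ_j lead E'') - (lam E₁ - τ_j lead E₁)`, and if `mm E₁ < τ_j` then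
`lam E' ≤ mm E₁ lead E' ≤ τ_j lead E'`. -/
def SpecMAG : Prop := ∀ (C : Type) [Field C] [Algebra ℂ C] [Algebra K C] [IsScalarTower ℂ K C]
  (O : Chart → Submodule ℂ C), Full C O → ∀ (A B α β : ℚ) (n : ℕ) (τ c : ℕ → ℚ),
  (∀ j < n, 0 ≤ c j) →
  (∀ (V : Type) [AddCommGroup V] [Module ℂ V] [Module K V] [IsScalarTower ℂ K V] [Module C V]
    [IsScalarTower ℂ C V] [IsScalarTower K C V] [Module.Finite K V] (F : Chart → Submodule ℂ V),
    IsLat F → O • F = F → Sst O F → 0 < lead F → α ≤ mm F → mm F ≤ β →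
    cc F ≤ A + B * mm F + ∑ j ∈ Finset.range n, c j * max 0 (mm F - τ j)) →
  ∀ (V : Type) [AddCommGroup V] [Module ℂ V] [Module K V] [IsScalarTower ℂ K V] [Module C V]
    [IsScalarTower ℂ C V] [IsScalarTower K C V] [Module.Finite K V] (F : Chart → Submodule ℂ V),
    IsLat F → O • F = F → 0 < lead F →
    (∀ E : Chart → Submodule ℂ V, IsLat E → O • E = E → E ≤ F → (lam E : ℚ) ≤ β * lead E) →
    (∀ E : Chart → Submodule ℂ V, IsLat E → O • E = E → E ≤ F →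
      α * ((lead F : ℚ) - lead E) ≤ lam F - lam E) →
    ∀ γ : ℕ → ℚ, (∀ j < n, 0 ≤ γ j) →
    (∀ j < n, ∀ E : Chart → Submodule ℂ V, IsLat E → O • E = E → E ≤ F →
      (lam E : ℚ) - τ j * lead E ≤ γ j) →
    (chi F 0 0 : ℚ) ≤ A * lead F + B * lam F + ∑ j ∈ Finset.range n, c j * γ j

/-- the chord interpolation of `t²/4` at the nodes `α + 2 a l`, `0 ≤ l ≤ d - 1` -/
def chord (d : ℕ) (a α t : ℚ) : ℚ :=
  (-α ^ 2 / 4 + α * a / 2) + (α - a) / 2 * t +
    ∑ l ∈ Finset.range (d - 1), a * max 0 (t - (α + 2 * a * l))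

/-- NUA [120].  Uses: nothing.  Proof: let `α + 2ak ≤ t ≤ α + 2a(k+1)`, `0 ≤ k ≤ d - 2`; then
`chord d a α t = -α²/4 + αa/2 + (α-a)t/2 + a ∑_{l ≤ k} (t - α - 2al)
= t²/4 + (t - (α + 2ak)) (α + 2a(k+1) - t)/4` (the terms with `l > k` are zero). -/
def SpecNUA : Prop := ∀ (d : ℕ) (a α t : ℚ), 2 ≤ d → 0 < a → α ≤ t → t ≤ α + 2 * a * (d - 1) →
  t ^ 2 / 4 ≤ chord d a α t ∧
  (α + 2 * a * (d - 2) ≤ t → chord d a α t =
    t ^ 2 / 4 + (t - (α + 2 * a * (d - 2))) * (α + 2 * a * (d - 1) - t) / 4)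

/-- NUB [120].  Uses: nothing.  Proof: `∑_{i < d} max 0 (2ai - 2al) = a (d-1-l)(d-l)` for `l < d`
(split at `l`, Gauss sum), `∑_{l < d-1} (d-1-l)(d-l) = (d-1) d (d+1)/3`. -/
def SpecNUB : Prop := ∀ (d : ℕ) (a α m : ℚ), 2 ≤ d → 0 < a → m = α + a * (d - 1) →
  (-α ^ 2 / 4 + α * a / 2) + (α - a) / 2 * m +
    ∑ l ∈ Finset.range (d - 1), a * ((∑ j ∈ Finset.range d,
      max 0 (m + a * (d - 1) - 2 * a * j - (α + 2 * a * l))) / d) =
    m ^ 2 / 4 + a ^ 2 * ((d : ℚ) ^ 2 - 1) / 12 ∧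
  ∑ j ∈ Finset.range d, max 0 (m + a * (d - 1) - 2 * a * j - (α + 2 * a * (d - 2))) = 2 * a

/-- INC [230].  Uses: MAG CDB RND NUA NUB.  Proof: let `F` be semistable over `O'`, `m = mm F`,
`α = m - a(d-1)`, `β = m + a(d-1)`; RND with `τ = β` and `τ = α` gives the two slope conditions of MAG
(for `τ = β` the sum is zero; for `τ = α` it is `d (m - α)`).  First part: MAG with the nodes
`τ_l = α + 2al`, `l < d - 1`, `c_l = a`, `γ_l = lead F (∑ ..)/d` from RND, the hypothesis by NUA: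
`cc G ≤ t²/4 + e ≤ e + chord`; NUB evaluates the result.  Second part: `η, δ` those of `O`,
`η' = η/2`, `δ₁ = min δ (min (a η/4) (2 a²))`; change `c_(d-2)` from `a` to `a - δ₁/(2a) ≥ 0`.  For `G`
semistable over `O` of slope `t ≤ τ_(d-2)` nothing changes; for `τ_(d-2) ≤ t ≤ β - η/2`:
`(t - τ_(d-2))(β - t)/4 ≥ (t - τ_(d-2)) η/8 ≥ δ₁ (t - τ_(d-2))/(2a)`; for `t > β - η/2`:
`p - η < t < p` (since `p - η/2 < β < p`), so `cc G ≤ t²/4 + e - δ`.  Result:
`cc F ≤ m²/4 + e + a²(d²-1)/12 - δ₁/d` (second statement of NUB). -/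
def SpecINC : Prop := ∀ (C C' : Type) [Field C] [Algebra ℂ C] [Algebra K C] [IsScalarTower ℂ K C]
  [Field C'] [Algebra ℂ C'] [Algebra K C'] [IsScalarTower ℂ K C'] [Algebra C C']
  [IsScalarTower K C C'] [IsScalarTower ℂ C C'] (O : Chart → Submodule ℂ C)
  (O' : Chart → Submodule ℂ C') (d a : ℕ) (y : C'), Full C O → Full C' O' →
  CCov C C' O O' d a y →
  ∀ p e : ℚ, Good C O p e →
    Good C' O' (p - a * (d - 1)) (e + (a : ℚ) ^ 2 * ((d : ℚ) ^ 2 - 1) / 12)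

/-! ## Part 8: the surfaces of the tower -/

/-- FUC [220].  Uses: nothing.  As FUS.  `finrank K L' = d finrank K L` (basis `y^i`, `i < d`, over `L`).
The partial sums `∑_{i < k} mapL (g ↦ g y^i) (tw (-ia) (-ia) O)` are lattices, by induction on `k`
(trivial intersections: `free`), and `chi O' b c = ∑_{i < d} chi O (b-ia) (c-ia)`.  So
`lam O' = d lam O - a d (d-1) n`, `chi O' 0 0 = d chi O 0 0 - a d(d-1)/2 lam O + a² d(d-1)(2d-1)/6 n`,
`n = finrank K L = lead O`. -/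
def SpecFUC : Prop := ∀ (L L' : Type) [Field L] [Algebra ℂ L] [Algebra K L] [IsScalarTower ℂ K L]
  [Field L'] [Algebra ℂ L'] [Algebra K L'] [IsScalarTower ℂ K L'] [Algebra L L']
  [IsScalarTower K L L'] [IsScalarTower ℂ L L'] (d a : ℕ) (y : L') (p : ℤ) (e : ℚ),
  CCov L L' (strSheaf L) (strSheaf L') d a y → Full L (strSheaf L) →
  lam (strSheaf L) = p * Module.finrank K L →
  (chi (strSheaf L) 0 0 : ℚ) = ((p : ℚ) ^ 2 / 4 + e) * Module.finrank K L →
  Full L' (strSheaf L') ∧ lam (strSheaf L') = (p - a * (d - 1)) * Module.finrank K L' ∧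
  (chi (strSheaf L') 0 0 : ℚ) = (((p - a * (d - 1) : ℤ) : ℚ) ^ 2 / 4 +
    (e + (a : ℚ) ^ 2 * ((d : ℚ) ^ 2 - 1) / 12)) * Module.finrank K L'

/-- OMC [250].  Uses: nothing.  As OMS.  `Tr_{L'/L} (∑ g_i y^i) = d g_0` (for `0 < i < d`
multiplication by `y^i` maps `y^j` to a multiple of a different basis vector).  Write
`v y^(d-1) = ∑ α_j y^j`.  For `i < d`, `g ∈ tw (-ia) (-ia) O s`: `Tr_{L'/L} (g y^i v) = d g α_(d-1-i)`
(`g y^i v = ∑_j g α_j y^(i+j-(d-1))`, exponents between `-(d-1)` and `d-1`, and `y^(-k) = f⁻¹ y^(d-k)`).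
So `v ∈ ω'(s)` iff `α_(d-1-i) g ∈ ω(s)` for all such `g`, iff `α_(d-1-i) ∈ tw (ia) (ia) ω s
= z tw (ia-p) (ia-p) O s` for all `i < d`, iff `v y^(d-1) ∈ z tw ((d-1)a-p) ((d-1)a-p) O' s`.
`z' = z / y^(d-1)`.  (`Tr_{L'/K} = Tr_{L/K} ∘ Tr_{L'/L}`.) -/
def SpecOMC : Prop := ∀ (L L' : Type) [Field L] [Algebra ℂ L] [Algebra K L] [IsScalarTower ℂ K L]
  [Field L'] [Algebra ℂ L'] [Algebra K L'] [IsScalarTower ℂ K L'] [Algebra L L']
  [IsScalarTower K L L'] [IsScalarTower ℂ L L'] (d a : ℕ) (y : L') (p : ℤ),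
  CCov L L' (strSheaf L) (strSheaf L') d a y → Full L (strSheaf L) →
  (∃ z : L, z ≠ 0 ∧ canonicalSheaf L = ln z • tw (-p) (-p) (strSheaf L)) →
  ∃ z : L', z ≠ 0 ∧
    canonicalSheaf L' = ln z • tw (-(p - a * (d - 1))) (-(p - a * (d - 1))) (strSheaf L')

/-- HCC [130].  Uses: nothing.  As HCS, coefficient by coefficient (`c_i` has twist `n - ia`). -/
def SpecHCC : Prop := ∀ (L L' : Type) [Field L] [Algebra ℂ L] [Algebra K L] [IsScalarTower ℂ K L]
  [Field L'] [Algebra ℂ L'] [Algebra K L'] [IsScalarTower ℂ K L'] [Algebra L L']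
  [IsScalarTower K L L'] [IsScalarTower ℂ L L'] (d a : ℕ) (y : L'),
  CCov L L' (strSheaf L) (strSheaf L') d a y → H1n L (strSheaf L) → H1n L' (strSheaf L')

/-- TOC [100].  Uses: BAS INC FUB FUC OMC HCB HCC.  Proof: as TOW, induction on `TowC`. -/
def SpecTOC : Prop := ∀ (L : Type) [Field L] [Algebra ℂ L] [Algebra K L] [IsScalarTower ℂ K L],
  TowC L → ∃ (p : ℤ) (e : ℚ), TF L p e

/-- EXA [180].  Uses: nothing.  The homogeneous components of an integral element are integral.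
Proof: let `ζ` be a primitive `d`-th root of unity.  The `K`-linear map `σ`, `y^i ↦ ζ^i y^i` (`i < d`;
basis, from `finrank = d` and the generation) is multiplicative (`y^(i+j) = f y^(i+j-d)` if
`i + j ≥ d`), so it maps integral elements over `Ralg s` to integral ones, and
`g_i y^i = (1/d) ∑_{k < d} ζ^(-ik) σ^k v`. -/
def SpecEXA : Prop := ∀ (L : Type) [Field L] [Algebra ℂ L] [Algebra K L] [IsScalarTower ℂ K L]
  (d : ℕ) (y : L) (f : K), 2 ≤ d → y ^ d = algebraMap K L f → Module.finrank K L = d →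
  (∀ v : L, ∃ g : ℕ → K, v = ∑ i ∈ Finset.range d, algebraMap K L (g i) * y ^ i) →
  ∀ (s : Chart) (g : ℕ → K),
    IsIntegral (Ralg s) (∑ i ∈ Finset.range d, algebraMap K L (g i) * y ^ i) →
    ∀ i < d, IsIntegral (Ralg s) (algebraMap K L (g i) * y ^ i)

/-- EXC [180].  Uses: EXA.  Explicit cyclic covers are in the class.  Proof: as EXS.  `free` from
`finrank = d`.  `v = ∑ g_i y^i` is integral over `Ralg s` iff all `g_i y^i` are (EXA), iff all
`g_i^d f^i = (g_i y^i)^d` are in `Ralg s` (integrally closed, Poly.lean), iff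
`h_i^d φ^i ∈ Ralg s` with `h_i = g_i (w s)^(ia)`, iff `h_i ∈ Ralg s` (`φ` squarefree, `i < d`, unique
factorization: `h_i = P/Q` coprime, `Q^d` divides `φ^i`), iff `g_i ∈ tw (-ia) (-ia) R s`. -/
def SpecEXC : Prop := ∀ (L : Type) [Field L] [Algebra ℂ L] [Algebra K L] [IsScalarTower ℂ K L]
  (d a : ℕ) (y : L) (f : K), 2 ≤ d → 1 ≤ a → y ^ d = algebraMap K L f → Module.finrank K L = d →
  (∀ v : L, ∃ g : ℕ → K, v = ∑ i ∈ Finset.range d, algebraMap K L (g i) * y ^ i) →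
  (∀ s : Chart, ∃ φ : Ralg s, Squarefree φ ∧ f = w s ^ (d * a) * (φ : K)) →
  CCov K L (strSheaf K) (strSheaf L) d a y

end

end Pool.Agent.Lib.LP.TW
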