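import Pool.Agent.Lib.MP_865fc0_ag.TW.Fin
import Pool.Agent.Lib.MP_865fc0_ag.TW.SpecC

/-!
# MP_865fc0_ag, TW: assembly for towers of cyclic covers
-/

namespace Pool.Agent.Lib.LP.TW

theorem towC_result (hTOC : SpecTOC) (hHCO : SpecHCO) (hPHZ : SpecPHZ) (hPHN : SpecPHN)
    (L : Type) [Field L] [Algebra ℂ L] [Algebra K L] [IsScalarTower ℂ K L] (hL : TowC L) :
    FiniteDimensional K L ∧ H1Vanishes L ∧ 0 ≤ Phi L 0 ∧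
    (∃ η : ℝ, 0 < η ∧ ∃ δ : ℝ, 0 < δ ∧ ∀ t : ℝ, -η < t → t < 0 →
      Phi L t ≤ ((-δ : ℝ) : EReal)) ∧
    ¬ ContinuousAt (Phi L) 0 := by
  obtain ⟨p, e, T⟩ := hTOC L hL
  have h0 := hPHZ L p e T
  obtain ⟨η, hη, δ, hδ, h⟩ := hPHN L p e T
  exact ⟨T.full.fin, hHCO L p e T, h0, ⟨η, hη, δ, hδ, h⟩, not_continuousAt h0 hη hδ h⟩

end Pool.Agent.Lib.LP.TW
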