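import Pool.Agent.Lib.MP_865fc0_ag.TW.Spec

/-!
# MP_865fc0_ag, TW, module HBI: `h0 F a b = chi F a b` for all large `a, b` independently
-/

set_option autoImplicit false

open scoped Pointwise
open Filter

namespace Pool.Agent.Lib.LP.TW

noncomputable section

namespace HBIM

theorem wx_inv_mem (s : Chart) : (wx s)⁻¹ ∈ Ralg s := by
  rcases h : s.1 with _ | _
  · have hw : wx s = 1 := by simp [wx, h]
    rw [hw, inv_one]
    exact (Ralg s).one_mem
  · have hw : wx s = x := by simp [wx, h]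
    rw [hw]
    exact x_inv_mem_R h

theorem wu_inv_mem (s : Chart) : (wu s)⁻¹ ∈ Ralg s := by
  rcases h : s.2 with _ | _
  · have hw : wu s = 1 := by simp [wu, h]
    rw [hw, inv_one]
    exact (Ralg s).one_mem
  · have hw : wu s = u := by simp [wu, h]
    rw [hw]
    exact u_inv_mem_R h

section

variable {V : Type} [AddCommGroup V] [Module ℂ V] [Module K V] [IsScalarTower ℂ K V]
variable {F : Chart → Submodule ℂ V}

theorem Sec_le (hF : IsLat F) {a b a' b' : ℤ} (ha : a ≤ a') (hb : b ≤ b') :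
    Sec F a b ≤ Sec F a' b' := by
  intro v hv
  rw [mem_Sec] at hv ⊢
  intro s
  obtain ⟨i, hi⟩ := Int.eq_ofNat_of_zero_le (sub_nonneg.2 ha)
  obtain ⟨j, hj⟩ := Int.eq_ofNat_of_zero_le (sub_nonneg.2 hb)
  have hr : (wx s)⁻¹ ^ i * (wu s)⁻¹ ^ j ∈ R s :=
    (Ralg s).mul_mem ((Ralg s).pow_mem (wx_inv_mem s) i) ((Ralg s).pow_mem (wu_inv_mem s) j)
  have h1 := hF.smul_mem hr (hv s)
  rw [smul_smul] at h1
  have h2 : (wx s)⁻¹ ^ i * (wu s)⁻¹ ^ j * (wx s ^ a * wu s ^ b)⁻¹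
      = (wx s ^ a' * wu s ^ b')⁻¹ := by
    have e1 : a' = (i : ℤ) + a := by linarith
    have e2 : b' = (j : ℤ) + b := by linarith
    rw [e1, e2, zpow_add₀ (wx_ne_zero s), zpow_add₀ (wu_ne_zero s), zpow_natCast, zpow_natCast,
      inv_pow, inv_pow, ← mul_inv, ← mul_inv]
    congr 1
    ring
  rwa [h2] at h1

theorem fin_Sec [Module.Finite K V] (hF : IsLat F) (a b : ℤ) : Module.Finite ℂ (Sec F a b) := by
  have hn : ∃ n : ℕ, a ≤ n ∧ b ≤ n := ⟨a.toNat + b.toNat, by omega, by omega⟩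
  obtain ⟨n, h1, h2⟩ := hn
  have : Module.Finite ℂ (Sec F (n : ℤ) n) := Module.Finite.iff_fg.2 (hF.fg_Sec n)
  exact Submodule.finiteDimensional_of_le (Sec_le hF h1 h2)

theorem finrank_line (k : K) (hk : k ≠ 0) (M : Submodule ℂ V) :
    Module.finrank ℂ (line k • M : Submodule ℂ V) = Module.finrank ℂ M := by
  have hinj : Function.Injective ((LinearMap.lsmul K V k).restrictScalars ℂ) := by
    intro a b hab
    exact smul_right_injective V hk hab
  have h1 : (line k • M : Submodule ℂ V) = M.map ((LinearMap.lsmul K V k).restrictScalars ℂ) := by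
    ext v
    rw [mem_line_smul, Submodule.mem_map]
    rfl
  rw [h1]
  exact (Submodule.equivMapOfInjective _ hinj M).finrank_eq.symm

theorem diff (k : K) (hk : k ≠ 0) (M P Q : Submodule ℂ V) [Module.Finite ℂ M]
    (hP : P = M ⊔ line k • M) (hQ : M ⊓ line k • M = line k • Q) :
    (Module.finrank ℂ P : ℤ) + Module.finrank ℂ Q = 2 * Module.finrank ℂ M := by
  have : Module.Finite ℂ (line k • M : Submodule ℂ V) := by
    have h1 : (line k • M : Submodule ℂ V) = M.map ((LinearMap.lsmul K V k).restrictScalars ℂ) := by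
      ext v
      rw [mem_line_smul, Submodule.mem_map]
      rfl
    rw [h1]
    infer_instance
  have h1 := Submodule.finrank_sup_add_finrank_inf_eq M (line k • M)
  rw [← hP, hQ, finrank_line k hk, finrank_line k hk] at h1
  omega

theorem inf_x (hF : IsLat F) (a b : ℤ) :
    Sec F a b ⊓ line x • Sec F a b = line x • Sec F (a - 1) b := by
  ext v
  rw [Submodule.mem_inf, mem_line_smul_K x_ne_zero, mem_line_smul_K x_ne_zero]
  have key : ∀ s, (v ∈ tw a b F s ∧ x⁻¹ • v ∈ tw a b F s) ↔ x⁻¹ • v ∈ tw (a - 1) b F s := by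
    intro s
    have h1 := congrFun (hF.tw a b).tw_inf_x s
    have h2 : v ∈ (tw a b F ⊓ LP.sm x (tw a b F)) s ↔ v ∈ LP.sm x (tw (-1) 0 (tw a b F)) s := by
      rw [h1]
    rw [Pi.inf_apply, Submodule.mem_inf, mem_sm x_ne_zero, mem_sm x_ne_zero, tw_tw] at h2
    rw [show a - 1 = -1 + a by ring]
    rw [show (0 : ℤ) + b = b by ring] at h2
    exact h2
  unfold Sec
  rw [Submodule.mem_iInf, Submodule.mem_iInf, Submodule.mem_iInf, ← forall_and]
  exact forall_congr' key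

theorem inf_u (hF : IsLat F) (a b : ℤ) :
    Sec F a b ⊓ line u • Sec F a b = line u • Sec F a (b - 1) := by
  ext v
  rw [Submodule.mem_inf, mem_line_smul_K u_ne_zero, mem_line_smul_K u_ne_zero]
  have key : ∀ s, (v ∈ tw a b F s ∧ u⁻¹ • v ∈ tw a b F s) ↔ u⁻¹ • v ∈ tw a (b - 1) F s := by
    intro s
    have h1 := congrFun (hF.tw a b).tw_inf_u s
    have h2 : v ∈ (tw a b F ⊓ LP.sm u (tw a b F)) s ↔ v ∈ LP.sm u (tw 0 (-1) (tw a b F)) s := by
      rw [h1]
    rw [Pi.inf_apply, Submodule.mem_inf, mem_sm u_ne_zero, mem_sm u_ne_zero, tw_tw] at h2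
    rw [show b - 1 = -1 + b by ring]
    rw [show (0 : ℤ) + a = a by ring] at h2
    exact h2
  unfold Sec
  rw [Submodule.mem_iInf, Submodule.mem_iInf, Submodule.mem_iInf, ← forall_and]
  exact forall_congr' key

theorem sup_x (hF : IsLat F) (a b : ℤ) : Sec F a b ⊔ line x • Sec F a b ≤ Sec F (a + 1) b := by
  have h1 := (hF.tw a b).tw_sup_x
  have key : ∀ s, tw (a + 1) b F s = tw a b F s ⊔ LP.sm x (tw a b F) s := by
    intro s
    have h2 := congrFun h1 s
    rw [tw_tw, Pi.sup_apply] at h2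
    rw [h2, show (1 : ℤ) + a = a + 1 by ring, show (0 : ℤ) + b = b by ring]
  unfold Sec
  apply le_iInf
  intro s
  rw [key s]
  apply sup_le_sup
  · exact iInf_le _ s
  · exact Submodule.smul_mono le_rfl (iInf_le _ s)

theorem sup_u (hF : IsLat F) (a b : ℤ) : Sec F a b ⊔ line u • Sec F a b ≤ Sec F a (b + 1) := by
  have h1 := (hF.tw a b).tw_sup_u
  have key : ∀ s, tw a (b + 1) F s = tw a b F s ⊔ LP.sm u (tw a b F) s := by
    intro s
    have h2 := congrFun h1 s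
    rw [tw_tw, Pi.sup_apply] at h2
    rw [h2, show (1 : ℤ) + b = b + 1 by ring, show (0 : ℤ) + a = a by ring]
  unfold Sec
  apply le_iInf
  intro s
  rw [key s]
  apply sup_le_sup
  · exact iInf_le _ s
  · exact Submodule.smul_mono le_rfl (iInf_le _ s)

end

/-- affine sequences -/
theorem affine (g : ℕ → ℤ) (h : ∀ i, g (i + 2) + g i = 2 * g (i + 1)) (i : ℕ) :
    g i = g 0 + i * (g 1 - g 0) := by
  have key : ∀ i : ℕ, g i = g 0 + i * (g 1 - g 0) ∧ g (i + 1) = g 0 + (i + 1) * (g 1 - g 0) := by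
    intro i
    induction i with
    | zero => constructor <;> simp
    | succ i ih =>
      refine ⟨by rw [ih.2]; push_cast; ring, ?_⟩
      have h1 := h i
      have h2 : g (i + 1 + 1) = 2 * g (i + 1) - g i := by
        have : g (i + 2) = g (i + 1 + 1) := rfl
        linarith
      rw [h2, ih.1, ih.2]
      push_cast
      ring
  exact (key i).1

/-- functions with vanishing second differences are bilinear -/
theorem bilinear (f : ℕ → ℕ → ℤ) (h1 : ∀ i j, f (i + 2) j + f i j = 2 * f (i + 1) j)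
    (h2 : ∀ i j, f i (j + 2) + f i j = 2 * f i (j + 1)) (i j : ℕ) :
    f i j = f 0 0 + i * (f 1 0 - f 0 0) + j * (f 0 1 - f 0 0)
      + i * j * (f 1 1 - f 1 0 - f 0 1 + f 0 0) := by
  have e1 := affine (fun i => f i j) (fun i => h1 i j) i
  have e2 := affine (fun j => f 0 j) (fun j => h2 0 j) j
  have e3 := affine (fun j => f 1 j) (fun j => h2 1 j) j
  rw [e1, e2, e3]
  ring

end HBIM

open HBIM in
theorem specHBI (hBIG : SpecBIG) : SpecHBI := by
  intro V _ _ _ _ _ F hF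
  obtain ⟨m, hm⟩ := hBIG V F hF
  refine ⟨m, ?_⟩
  -- second differences
  have dx : ∀ a b : ℕ, m ≤ a → h0 F ((a : ℤ) + 1) b + h0 F ((a : ℤ) - 1) b = 2 * h0 F a b := by
    intro a b ha
    have := fin_Sec hF (a : ℤ) b
    unfold h0
    exact diff x x_ne_zero (Sec F a b) (Sec F ((a : ℤ) + 1) b) (Sec F ((a : ℤ) - 1) b)
      (le_antisymm (hm a ha b).1 (sup_x hF a b)) (inf_x hF a b)
  have du : ∀ a b : ℕ, m ≤ b → h0 F a ((b : ℤ) + 1) + h0 F a ((b : ℤ) - 1) = 2 * h0 F a b := by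
    intro a b hb
    have := fin_Sec hF (a : ℤ) b
    unfold h0
    exact diff u u_ne_zero (Sec F a b) (Sec F a ((b : ℤ) + 1)) (Sec F a ((b : ℤ) - 1))
      (le_antisymm (hm b hb a).2 (sup_u hF a b)) (inf_u hF a b)
  have hbil := bilinear (fun i j : ℕ => h0 F ((m + i : ℕ) : ℤ) ((m + j : ℕ) : ℤ))
    (by
      intro i j
      have h1 := dx (m + i + 1) (m + j) (by omega)
      have e1 : (((m + i + 1 : ℕ) : ℤ) + 1) = ((m + (i + 2) : ℕ) : ℤ) := by push_cast; ring
      have e2 : (((m + i + 1 : ℕ) : ℤ) - 1) = ((m + i : ℕ) : ℤ) := by push_cast; ring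
      rw [e1, e2] at h1
      exact h1)
    (by
      intro i j
      have h1 := du (m + i) (m + j + 1) (by omega)
      have e1 : (((m + j + 1 : ℕ) : ℤ) + 1) = ((m + (j + 2) : ℕ) : ℤ) := by push_cast; ring
      have e2 : (((m + j + 1 : ℕ) : ℤ) - 1) = ((m + j : ℕ) : ℤ) := by push_cast; ring
      rw [e1, e2] at h1
      exact h1)
  obtain ⟨c0, hc0⟩ : ∃ c, c = h0 F ((m + 0 : ℕ) : ℤ) ((m + 0 : ℕ) : ℤ) := ⟨_, rfl⟩
  obtain ⟨c1, hc1⟩ : ∃ c, c = h0 F ((m + 1 : ℕ) : ℤ) ((m + 0 : ℕ) : ℤ) := ⟨_, rfl⟩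
  obtain ⟨c2, hc2⟩ : ∃ c, c = h0 F ((m + 0 : ℕ) : ℤ) ((m + 1 : ℕ) : ℤ) := ⟨_, rfl⟩
  obtain ⟨c3, hc3⟩ : ∃ c, c = h0 F ((m + 1 : ℕ) : ℤ) ((m + 1 : ℕ) : ℤ) := ⟨_, rfl⟩
  rw [← hc0, ← hc1, ← hc2, ← hc3] at hbil
  set p : ℤ → ℤ → ℤ := fun a b => c0 + (a - m) * (c1 - c0) + (b - m) * (c2 - c0)
    + (a - m) * (b - m) * (c3 - c1 - c2 + c0) with hp
  have hval : ∀ a b : ℤ, (m : ℤ) ≤ a → (m : ℤ) ≤ b → h0 F a b = p a b := by
    intro a b ha hb
    obtain ⟨i, hi⟩ := Int.eq_ofNat_of_zero_le (sub_nonneg.2 ha)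
    obtain ⟨j, hj⟩ := Int.eq_ofNat_of_zero_le (sub_nonneg.2 hb)
    have e1 : a = ((m + i : ℕ) : ℤ) := by push_cast; linarith
    have e2 : b = ((m + j : ℕ) : ℤ) := by push_cast; linarith
    rw [hp]
    simp only
    rw [hi, hj, e1, e2]
    exact hbil i j
  have hpb : IsBil p := by
    refine ⟨c3 - c1 - c2 + c0, (c1 - c0) - m * (c3 - c1 - c2 + c0),
      (c2 - c0) - m * (c3 - c1 - c2 + c0),
      c0 - m * (c1 - c0) - m * (c2 - c0) + m * m * (c3 - c1 - c2 + c0), ?_⟩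
    intro a b
    rw [hp]
    simp only
    ring
  have hhp : HasP F p := by
    intro a b
    filter_upwards [eventually_ge_atTop (m + a.natAbs + b.natAbs)] with n hn
    apply hval
    · omega
    · omega
  intro a b ha hb
  rw [hF.chi_unique hpb hhp]
  exact hval a b (by exact_mod_cast ha) (by exact_mod_cast hb)

end

end Pool.Agent.Lib.LP.TW
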