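import Pool.Agent.Lib.MP_865fc0_ag.TW.Spec

/-!
# TW, module HCB: `H^1(P, O(n,n)) = 0` (adapted from SurfH1.lean)
-/

set_option autoImplicit false

open scoped Pointwise

namespace Pool.Agent.Lib.LP.TW

namespace HCBM

/-- The combinatorial part of the computation. -/
theorem cocycle_base {X Y : Bool → Prop} {c : Chart → Chart → ℂ}
    (h0 : ∀ s t r, c s t + c t r = c s r)
    (hz : ∀ s t : Chart, ¬ ((s.1 = t.1 → X s.1) ∧ (s.2 = t.2 → Y s.2)) → c s t = 0)
    (hXY : Y false → Y true → X false ∨ X true) (hYX : X false → X true → Y false ∨ Y true) :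
    ∃ s0 : Chart, ∀ s : Chart, ¬ (X s.1 ∧ Y s.2) → c s s0 = 0 := by
  have hrow : ∀ a y y', ¬ X a → c (a, y) (a, y') = 0 := by
    intro a y y' h
    apply hz
    intro h'
    exact h (h'.1 rfl)
  have hcol : ∀ b x x', ¬ Y b → c (x, b) (x', b) = 0 := by
    intro b x x' h
    apply hz
    intro h'
    exact h (h'.2 rfl)
  by_cases hX : ∃ a, ¬ X a
  · obtain ⟨a, ha⟩ := hX
    by_cases hY : ∃ b, ¬ Y b
    · obtain ⟨b, hb⟩ := hY
      refine ⟨(a, b), ?_⟩
      rintro ⟨s1, s2⟩ hs
      by_cases h1 : X s1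
      · have h2 : ¬ Y s2 := fun h => hs ⟨h1, h⟩
        rw [← h0 _ (a, s2) _, hcol _ _ _ h2, hrow _ _ _ ha, add_zero]
      · rw [← h0 _ (s1, b) _, hrow _ _ _ h1, hcol _ _ _ hb, add_zero]
    · push Not at hY
      refine ⟨(a, false), ?_⟩
      rintro ⟨s1, s2⟩ hs
      have h1 : ¬ X s1 := fun h => hs ⟨h, hY _⟩
      have h2 : s1 = a := by
        have h3 := hXY (hY _) (hY _)
        cases s1 <;> cases a <;> tauto
      subst h2
      exact hrow _ _ _ h1
  · push Not at hX
    by_cases hY : ∃ b, ¬ Y b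
    · obtain ⟨b, hb⟩ := hY
      refine ⟨(false, b), ?_⟩
      rintro ⟨s1, s2⟩ hs
      have h1 : ¬ Y s2 := fun h => hs ⟨hX _, h⟩
      have h2 : s2 = b := by
        have h3 := hYX (hX _) (hX _)
        cases s2 <;> cases b <;> tauto
      subst h2
      exact hcol _ _ _ h1
    · push Not at hY
      exact ⟨(false, false), fun s hs => absurd ⟨hX _, hY _⟩ hs⟩

/-- the condition on one coordinate -/
def ZZ (n : ℤ) (i : ℤ) (b : Bool) : Prop := if b then i ≤ n else 0 ≤ i

/-- the exponents in the intersection of two charts -/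
def Al2 (n : ℤ) (s t : Chart) : Set (ℤ × ℤ) :=
  {p | (s.1 = t.1 → ZZ n p.1 s.1) ∧ (s.2 = t.2 → ZZ n p.2 s.2)}

theorem loc_le (n : ℤ) (s t : Chart) {v : K} (hv : v ∈ Loc R n s t) : v ∈ MonS (Al2 n s t) := by
  obtain ⟨k, hk⟩ := hv
  unfold tw at hk
  rw [line_wab_smul_R] at hk
  obtain ⟨e, he⟩ : ∃ e : ℤ × ℤ, e = ((if t.1 then (k : ℤ) else 0) - (if s.1 then (k : ℤ) else 0),
      (if t.2 then (k : ℤ) else 0) - (if s.2 then (k : ℤ) else 0)) := ⟨_, rfl⟩
  have e1 : (w t / w s) ^ k = mon e := by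
    rw [div_pow, ← zpow_natCast (w t), ← zpow_natCast (w s), w_pow_eq_mon, w_pow_eq_mon,
      div_eq_iff (mon_ne_zero _), ← mon_add, he]
    congr 1
    ext <;> simp
  have h2 : v = mon (-e) * ((w t / w s) ^ k • v) := by
    rw [e1, smul_eq_mul, ← mul_assoc, ← mon_add, neg_add_cancel, mon_zero, one_mul]
  rw [h2]
  have h3 := Submodule.mul_mem_mul (Submodule.mem_span_singleton_self (R := ℂ) (mon (-e))) hk
  rw [mon_mul_MonS] at h3
  apply MonS_mono _ h3
  rintro _ ⟨q, hq, rfl⟩
  obtain ⟨h4, h5⟩ := hq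
  subst he
  constructor
  · intro h6
    unfold ZZ
    simp only [Prod.fst_add, Prod.fst_neg]
    rw [← h6, sub_self, neg_zero, zero_add]
    exact h4
  · intro h6
    unfold ZZ
    simp only [Prod.snd_add, Prod.snd_neg]
    rw [← h6, sub_self, neg_zero, zero_add]
    exact h5

end HCBM

open HCBM in
theorem specHCB : SpecHCB := by
  classical
  intro n c hc hcoc
  have hinj : Function.Injective (Finsupp.linearCombination ℂ mon) := linearIndependent_mon
  have h1 : ∀ s t, ∃ l ∈ Finsupp.supported ℂ ℂ (Al2 n s t),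
      Finsupp.linearCombination ℂ mon l = c s t := by
    intro s t
    have := loc_le n s t (hc s t)
    unfold MonS at this
    rw [Finsupp.mem_span_image_iff_linearCombination] at this
    exact this
  choose C hC hCc using h1
  have hadd : ∀ s t r, C s t + C t r = C s r := by
    intro s t r
    apply hinj
    rw [map_add, hCc, hCc, hCc, hcoc]
  have hbase : ∀ e : ℤ × ℤ, ∃ s0 : Chart, ∀ s : Chart, ¬ (ZZ n e.1 s.1 ∧ ZZ n e.2 s.2) →
      C s s0 e = 0 := by
    intro e
    apply cocycle_base (X := ZZ n e.1) (Y := ZZ n e.2) (c := fun s t => C s t e)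
    · intro s t r
      rw [← hadd s t r]
      rfl
    · intro s t hst
      by_contra h
      exact hst ((Finsupp.mem_supported _ _).1 (hC s t) (Finsupp.mem_support_iff.2 h))
    · intro h2 h3
      unfold ZZ at h2 h3 ⊢
      simp only [Bool.false_eq_true, if_false, if_true] at h2 h3 ⊢
      omega
    · intro h2 h3
      unfold ZZ at h2 h3 ⊢
      simp only [Bool.false_eq_true, if_false, if_true] at h2 h3 ⊢
      omega
  choose s0 hs0 using hbase
  let G : Chart → (ℤ × ℤ →₀ ℂ) := fun s => ∑ t, (C s t).filter (fun e => s0 e = t)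
  have hG : ∀ s e, G s e = C s (s0 e) e := by
    intro s e
    change (∑ t, (C s t).filter (fun e => s0 e = t)) e = _
    rw [Finsupp.finsetSum_apply, Finset.sum_eq_single (s0 e)]
    · exact Finsupp.filter_apply_pos (fun e' => s0 e' = s0 e) _ rfl
    · intro t _ ht
      exact Finsupp.filter_apply_neg (fun e' => s0 e' = t) _ (Ne.symm ht)
    · intro h
      exact absurd (Finset.mem_univ _) h
  refine ⟨fun s => Finsupp.linearCombination ℂ mon (G s), ?_, ?_⟩
  · intro s
    have h2 : G s ∈ Finsupp.supported ℂ ℂ (Quad2 s n n) := by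
      rw [Finsupp.mem_supported]
      intro e he
      by_contra h
      rw [Finset.mem_coe, Finsupp.mem_support_iff, hG] at he
      exact he (hs0 e s h)
    have h3 : Finsupp.linearCombination ℂ mon (G s) ∈ Submodule.span ℂ (mon '' Quad2 s n n) := by
      rw [Finsupp.mem_span_image_iff_linearCombination]
      exact ⟨G s, h2, rfl⟩
    show Finsupp.linearCombination ℂ mon (G s) ∈ tw n n R s
    unfold tw
    rw [line_wab_smul_R]
    exact h3
  · intro s t
    rw [← hCc, ← map_sub]
    congr 1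
    ext e
    rw [Finsupp.sub_apply, hG, hG, ← hadd s t (s0 e), Finsupp.add_apply]
    ring

end Pool.Agent.Lib.LP.TW
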