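import Pool.Agent.Lib.MP_865fc0_ag.TW.SpecC

/-!
# MP_865fc0_ag, TW, module HCC: vanishing of the first cohomology of the twists goes up a cyclic cover
-/

set_option autoImplicit false

open scoped Pointwise
open Filter

namespace Pool.Agent.Lib.LP.TW

namespace HCCM

section

variable {L L' : Type} [Field L] [Algebra ℂ L] [Algebra K L] [IsScalarTower ℂ K L]
  [Field L'] [Algebra ℂ L'] [Algebra K L'] [IsScalarTower ℂ K L'] [Algebra L L']
  [IsScalarTower K L L'] [IsScalarTower ℂ L L']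

theorem smul_map (κ : K) (f : L) : κ • algebraMap L L' f = algebraMap L L' (κ • f) := by
  rw [Algebra.algebraMap_eq_smul_one, Algebra.algebraMap_eq_smul_one, smul_assoc]

theorem smul_dec (κ : K) (d : ℕ) (g : ℕ → L) (y : L') :
    κ • ∑ i ∈ Finset.range d, algebraMap L L' (g i) * y ^ i =
      ∑ i ∈ Finset.range d, algebraMap L L' (κ • g i) * y ^ i := by
  rw [Finset.smul_sum]
  refine Finset.sum_congr rfl fun i _ => ?_
  rw [← smul_mul_assoc, smul_map]

theorem uniq {O : Chart → Submodule ℂ L} {O' : Chart → Submodule ℂ L'} {d a : ℕ} {y : L'}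
    (h : CCov L L' O O' d a y) {g g' : ℕ → L}
    (e : ∑ i ∈ Finset.range d, algebraMap L L' (g i) * y ^ i =
      ∑ i ∈ Finset.range d, algebraMap L L' (g' i) * y ^ i) : ∀ i < d, g i = g' i := by
  have h1 : ∑ i ∈ Finset.range d, algebraMap L L' (g i - g' i) * y ^ i = 0 := by
    rw [← sub_eq_zero.mpr e, ← Finset.sum_sub_distrib]
    refine Finset.sum_congr rfl fun i _ => ?_
    rw [map_sub]
    ring
  intro i hi
  exact sub_eq_zero.mp (h.free (fun i => g i - g' i) h1 i hi)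

theorem mem_tw_iff {O : Chart → Submodule ℂ L} {O' : Chart → Submodule ℂ L'} {d a : ℕ} {y : L'}
    (h : CCov L L' O O' d a y) (n : ℤ) (s : Chart) (g : ℕ → L) :
    ∑ i ∈ Finset.range d, algebraMap L L' (g i) * y ^ i ∈ tw n n O' s ↔
      ∀ i < d, g i ∈ tw (n - ((a * i : ℕ) : ℤ)) (n - ((a * i : ℕ) : ℤ)) O s := by
  have hg : ∀ i : ℕ, g i ∈ tw (n - ((a * i : ℕ) : ℤ)) (n - ((a * i : ℕ) : ℤ)) O s ↔
      (wx s ^ n * wu s ^ n)⁻¹ • g i ∈ tw (-((a * i : ℕ) : ℤ)) (-((a * i : ℕ) : ℤ)) O s := by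
    intro i
    have h1 : tw (n - ((a * i : ℕ) : ℤ)) (n - ((a * i : ℕ) : ℤ)) O s =
        tw n n (tw (-((a * i : ℕ) : ℤ)) (-((a * i : ℕ) : ℤ)) O) s := by
      rw [tw_tw, ← sub_eq_add_neg]
    rw [h1, mem_tw]
  rw [mem_tw, smul_dec, h.eq]
  constructor
  · rintro ⟨g₁, hg₁, e⟩ i hi
    rw [hg i, uniq h e i hi]
    exact hg₁ i hi
  · intro h1
    exact ⟨_, fun i hi => (hg i).mp (h1 i hi), rfl⟩

end

end HCCM

open HCCM in
theorem specHCC : SpecHCC := by
  intro L L' _ _ _ _ _ _ _ _ _ _ _ d a y h hH n c hc hcoc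
  choose g hg using fun s t => h.gen (c s t)
  have hloc : ∀ s t, ∀ i < d, g s t i ∈ Loc (strSheaf L) (n - ((a * i : ℕ) : ℤ)) s t := by
    intro s t i hi
    obtain ⟨k, hk⟩ := hc s t
    rw [hg s t, smul_dec, mem_tw_iff h] at hk
    exact ⟨k, hk i hi⟩
  have hco : ∀ s t r, ∀ i < d, g s t i + g t r i = g s r i := by
    intro s t r
    refine uniq h (g := fun i => g s t i + g t r i) (g' := g s r) ?_
    rw [← hg s r, ← hcoc s t r, hg s t, hg t r, ← Finset.sum_add_distrib]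
    refine Finset.sum_congr rfl fun i _ => ?_
    rw [map_add]
    ring
  have hex : ∀ i : ℕ, ∃ G : Chart → L, i < d →
      (∀ s, G s ∈ tw (n - ((a * i : ℕ) : ℤ)) (n - ((a * i : ℕ) : ℤ)) (strSheaf L) s) ∧
        ∀ s t, g s t i = G s - G t := by
    intro i
    by_cases hi : i < d
    · obtain ⟨G, h1, h2⟩ := hH (n - ((a * i : ℕ) : ℤ)) (fun s t => g s t i) (fun s t => hloc s t i hi)
        fun s t r => hco s t r i hi
      exact ⟨G, fun _ => ⟨h1, h2⟩⟩
    · exact ⟨fun _ => 0, fun hi' => absurd hi' hi⟩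
  choose G hG using hex
  refine ⟨fun s => ∑ i ∈ Finset.range d, algebraMap L L' (G i s) * y ^ i, ?_, ?_⟩
  · intro s
    exact (mem_tw_iff h n s (fun i => G i s)).mpr fun i hi => (hG i hi).1 s
  · intro s t
    rw [hg s t, ← Finset.sum_sub_distrib]
    refine Finset.sum_congr rfl fun i hi => ?_
    rw [(hG i (Finset.mem_range.mp hi)).2 s t, map_sub]
    ring

end Pool.Agent.Lib.LP.TW
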