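import Pool.Agent.Lib.MP_865fc0_ag.TW.Spec

/-!
# MP_865fc0_ag, TW, module HCO: the first cohomology of the structure sheaf
-/

set_option autoImplicit false

open scoped Pointwise
open Filter

namespace Pool.Agent.Lib.LP.TW

namespace HCOM

variable {L : Type} [Field L] [Algebra ℂ L] [Algebra K L] [IsScalarTower ℂ K L]

/-- the functions on the intersection of the charts `s`, `t`, as a subalgebra -/
def loc (hO : IsLat (strSheaf L)) (s t : Chart) : Subalgebra ℂ L where
  carrier := {v | ∃ k : ℕ, (w t / w s) ^ k • v ∈ strSheaf L s}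
  mul_mem' := by
    rintro a b ⟨k, hk⟩ ⟨l, hl⟩
    refine ⟨k + l, ?_⟩
    have h1 : (w t / w s) ^ (k + l) • (a * b) =
        ((w t / w s) ^ k • a) * ((w t / w s) ^ l • b) := by
      rw [smul_mul_smul_comm, pow_add]
    rw [h1]
    exact (Oalg L s).mul_mem hk hl
  add_mem' := by
    rintro a b ⟨k, hk⟩ ⟨l, hl⟩
    refine ⟨max k l, ?_⟩
    rw [smul_add]
    exact (strSheaf L s).add_mem (hO.glue_mono (le_max_left _ _) hk)
      (hO.glue_mono (le_max_right _ _) hl)
  algebraMap_mem' := by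
    intro r
    refine ⟨0, ?_⟩
    rw [pow_zero, one_smul]
    exact (Oalg L s).algebraMap_mem r

end HCOM

theorem specHCO : SpecHCO := by
  intro L _ _ _ _ p e h c hc hcoc
  have hO : IsLat (strSheaf L) := h.full.ring.lat
  have htw : ∀ (s : Chart) (v : L), v ∈ tw 0 0 (strSheaf L) s ↔ v ∈ strSheaf L s := by
    intro s v
    rw [mem_tw, zpow_zero, zpow_zero, mul_one, inv_one, one_smul]
  obtain ⟨g, hg, hgc⟩ := h.h1 0 c (by
    intro s t
    have h1 : Oalg L s ⊔ Oalg L t ≤ HCOM.loc hO s t := by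
      refine sup_le ?_ ?_
      · intro v hv
        exact ⟨0, by rw [pow_zero, one_smul]; exact hv⟩
      · intro v hv
        obtain ⟨n, hn⟩ := hO.glue t s v hv
        exact ⟨n, hn⟩
    obtain ⟨k, hk⟩ := h1 (hc s t)
    exact ⟨k, (htw s _).2 hk⟩) hcoc
  exact ⟨g, fun s => (htw s _).1 (hg s), hgc⟩

end Pool.Agent.Lib.LP.TW
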