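import Pool.Agent.Lib.MP_865fc0_ag.TW.Spec

/-!
# MP_865fc0_ag, TW, module HCS: vanishing of the first cohomology of the twists goes up a double cover
-/

set_option autoImplicit false

open scoped Pointwise
open Filter

namespace Pool.Agent.Lib.LP.TW

namespace HCSM

section

variable {L L' : Type} [Field L] [Algebra ℂ L] [Algebra K L] [IsScalarTower ℂ K L]
  [Field L'] [Algebra ℂ L'] [Algebra K L'] [IsScalarTower ℂ K L'] [Algebra L L']
  [IsScalarTower K L L'] [IsScalarTower ℂ L L']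

theorem smul_map (κ : K) (f : L) : κ • algebraMap L L' f = algebraMap L L' (κ • f) := by
  rw [Algebra.algebraMap_eq_smul_one, Algebra.algebraMap_eq_smul_one, smul_assoc]

theorem smul_dec (κ : K) (f g : L) (y : L') :
    κ • (algebraMap L L' f + algebraMap L L' g * y) =
      algebraMap L L' (κ • f) + algebraMap L L' (κ • g) * y := by
  rw [smul_add, smul_map, ← smul_mul_assoc, smul_map]

theorem uniq {O : Chart → Submodule ℂ L} {O' : Chart → Submodule ℂ L'} {a : ℕ} {y : L'}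
    (h : DCov L L' O O' a y) {f g f' g' : L}
    (e : algebraMap L L' f + algebraMap L L' g * y = algebraMap L L' f' + algebraMap L L' g' * y) :
    f = f' ∧ g = g' := by
  have h1 : algebraMap L L' (f - f') + algebraMap L L' (g - g') * y = 0 := by
    rw [map_sub, map_sub]
    linear_combination e
  obtain ⟨h2, h3⟩ := h.free _ _ h1
  exact ⟨sub_eq_zero.mp h2, sub_eq_zero.mp h3⟩

theorem mem_tw_iff {O : Chart → Submodule ℂ L} {O' : Chart → Submodule ℂ L'} {a : ℕ} {y : L'}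
    (h : DCov L L' O O' a y) (n : ℤ) (s : Chart) (f g : L) :
    algebraMap L L' f + algebraMap L L' g * y ∈ tw n n O' s ↔
      f ∈ tw n n O s ∧ g ∈ tw (n - a) (n - a) O s := by
  have hg : g ∈ tw (n - a) (n - a) O s ↔
      (wx s ^ n * wu s ^ n)⁻¹ • g ∈ tw (-a) (-a) O s := by
    have h1 : tw (n - a) (n - a) O s = tw n n (tw (-a) (-a) O) s := by
      rw [tw_tw, ← sub_eq_add_neg]
    rw [h1, mem_tw]
  rw [mem_tw, smul_dec, h.eq, hg, mem_tw]
  constructor
  · rintro ⟨f₁, hf₁, g₁, hg₁, e⟩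
    obtain ⟨e1, e2⟩ := uniq h e
    rw [e1, e2]
    exact ⟨hf₁, hg₁⟩
  · rintro ⟨h1, h2⟩
    exact ⟨_, h1, _, h2, rfl⟩

end

end HCSM

open HCSM in
theorem specHCS : SpecHCS := by
  intro L L' _ _ _ _ _ _ _ _ _ _ _ a y h hH n c hc hcoc
  choose f₀ f₁ hf using fun s t => h.gen (c s t)
  have hloc : ∀ s t, f₀ s t ∈ Loc (strSheaf L) n s t ∧ f₁ s t ∈ Loc (strSheaf L) (n - a) s t := by
    intro s t
    obtain ⟨k, hk⟩ := hc s t
    rw [hf s t, smul_dec, mem_tw_iff h] at hk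
    exact ⟨⟨k, hk.1⟩, ⟨k, hk.2⟩⟩
  have hco : ∀ s t r, f₀ s t + f₀ t r = f₀ s r ∧ f₁ s t + f₁ t r = f₁ s r := by
    intro s t r
    apply uniq h
    rw [map_add, map_add, ← hf s r, ← hcoc s t r, hf s t, hf t r]
    ring
  obtain ⟨g₀, hg₀, e₀⟩ := hH n f₀ (fun s t => (hloc s t).1) fun s t r => (hco s t r).1
  obtain ⟨g₁, hg₁, e₁⟩ := hH (n - a) f₁ (fun s t => (hloc s t).2) fun s t r => (hco s t r).2
  refine ⟨fun s => algebraMap L L' (g₀ s) + algebraMap L L' (g₁ s) * y, ?_, ?_⟩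
  · intro s
    exact (mem_tw_iff h n s _ _).mpr ⟨hg₀ s, hg₁ s⟩
  · intro s t
    rw [hf s t, e₀ s t, e₁ s t, map_sub, map_sub]
    ring

end Pool.Agent.Lib.LP.TW
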