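import Pool.Agent.Lib.MP_865fc0_ag.TW.Spec

/-!
# MP_865fc0_ag, TW, module HNX: a stable sublattice of maximal slope

Let `D = (lead F)!`.  For stable sublattices `E` of `F` with `0 < lead E` the integers
`lam E * (D / lead E)` are bounded above by `B * D` (BDD).  An `E` for which this integer is maximal
has maximal slope.
-/

set_option autoImplicit false

open scoped Pointwise
open Filter

namespace Pool.Agent.Lib.LP.TW

noncomputable section

namespace HNXM

variable {V : Type} [AddCommGroup V] [Module ℂ V] [Module K V] [IsScalarTower ℂ K V]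

theorem lead_mono [Module.Finite K V] {E F : Chart → Submodule ℂ V} (hE : IsLat E) (hF : IsLat F)
    (h : E ≤ F) : lead E ≤ lead F := by
  rw [hE.lead_eq, hF.lead_eq]
  exact_mod_cast Submodule.finrank_mono (Submodule.span_mono (h (false, false)))

theorem dvd_fac {k d : ℤ} (hk : 0 < k) (hkd : k ≤ d) : k ∣ ((Nat.factorial d.toNat : ℕ) : ℤ) := by
  have h1 : k.toNat ∣ Nat.factorial d.toNat :=
    Nat.dvd_factorial (by omega) (by omega)
  have h2 : ((k.toNat : ℕ) : ℤ) = k := Int.toNat_of_nonneg hk.le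
  rw [← h2]
  exact_mod_cast h1

end HNXM

open HNXM in
theorem specHNX (hBDD : SpecBDD) : SpecHNX := by
  intro C _ _ _ _ O V _ _ _ _ _ _ _ _ F hF hOF h0
  obtain ⟨B, hB⟩ := hBDD V F hF
  set D : ℤ := ((Nat.factorial (lead F).toNat : ℕ) : ℤ) with hD
  have hDpos : 0 < D := by rw [hD]; exact_mod_cast Nat.factorial_pos _
  let P : ℤ → Prop := fun z => ∃ E : Chart → Submodule ℂ V, IsLat E ∧ O • E = E ∧ E ≤ F ∧
    0 < lead E ∧ z * lead E = lam E * D
  have hbd : ∃ b : ℤ, ∀ z, P z → z ≤ b := by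
    refine ⟨B * D, ?_⟩
    rintro z ⟨E, hE, -, hEF, hl, hz⟩
    have h1 : lam E * D ≤ B * lead E * D := mul_le_mul_of_nonneg_right (hB E hE hEF) hDpos.le
    rw [← hz] at h1
    have h2 : z * lead E ≤ (B * D) * lead E := by
      rw [mul_right_comm]
      exact h1
    exact le_of_mul_le_mul_right h2 hl
  have hex : ∀ E : Chart → Submodule ℂ V, IsLat E → O • E = E → E ≤ F → 0 < lead E →
      ∃ z, P z ∧ z * lead E = lam E * D := by
    intro E hE hOE hEF hl
    obtain ⟨q, hq⟩ := dvd_fac hl (lead_mono hE hF hEF)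
    have h3 : (lam E * q) * lead E = lam E * D := by
      rw [hD, hq]; ring
    exact ⟨lam E * q, ⟨E, hE, hOE, hEF, hl, h3⟩, h3⟩
  obtain ⟨z0, hz0, -⟩ := hex F hF hOF le_rfl h0
  obtain ⟨z, ⟨E, hE, hOE, hEF, hl, hz⟩, hmax⟩ := Int.exists_greatest_of_bdd hbd ⟨z0, hz0⟩
  refine ⟨E, hE, hOE, hEF, hl, ?_⟩
  intro E' hE' hOE' hEF'
  rcases (hE'.lead_nonneg).lt_or_eq with hpos | hzero
  · obtain ⟨z', hz', hz2⟩ := hex E' hE' hOE' hEF' hpos
    have h4 : z' ≤ z := hmax z' hz'
    have h5 : z' * (lead E' * lead E) ≤ z * (lead E' * lead E) :=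
      mul_le_mul_of_nonneg_right h4 (mul_pos hpos hl).le
    have h6 : (lam E' * lead E) * D ≤ (lam E * lead E') * D := by
      calc (lam E' * lead E) * D = (lam E' * D) * lead E := by ring
        _ = z' * (lead E' * lead E) := by rw [← hz2]; ring
        _ ≤ z * (lead E' * lead E) := h5
        _ = (z * lead E) * lead E' := by ring
        _ = (lam E * lead E') * D := by rw [hz]; ring
    exact le_of_mul_le_mul_right h6 hDpos
  · have hbot : E' = ⊥ := hE'.eq_bot_of_lead hzero.symm
    have hlam : lam E' = 0 := by rw [hbot, lam_bot]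
    rw [hlam, ← hzero]
    simp

end

end Pool.Agent.Lib.LP.TW
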