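import Pool.Agent.Lib.MP_865fc0_ag.TW.SpecC

/-!
# MP_865fc0_ag, TW, module INC: Bogomolov's inequality and the jump for a cyclic cover
-/

set_option autoImplicit false

open scoped Pointwise
open Filter

namespace Pool.Agent.Lib.LP.TW

namespace INCM

/-- the distribution of the slopes of `F` over `O` -/
def S (d : ℕ) (a m τ : ℚ) : ℚ :=
  ∑ j ∈ Finset.range d, max 0 (m + a * (d - 1) - 2 * a * j - τ)

theorem S_nonneg (d : ℕ) (a m τ : ℚ) : 0 ≤ S d a m τ :=
  Finset.sum_nonneg fun _ _ => le_max_left _ _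

theorem S_top (d : ℕ) (a m : ℚ) (ha : 0 ≤ a) : S d a m (m + a * (d - 1)) = 0 := by
  unfold S
  apply Finset.sum_eq_zero
  intro j _
  apply max_eq_left
  have : (0 : ℚ) ≤ 2 * a * j := by positivity
  linarith

theorem S_bot (d : ℕ) (a m : ℚ) (ha : 0 ≤ a) : S d a m (m - a * (d - 1)) = d * (a * (d - 1)) := by
  unfold S
  have h : ∀ j ∈ Finset.range d, max 0 (m + a * (d - 1) - 2 * a * j - (m - a * (d - 1))) =
      2 * a * (d - 1) - 2 * a * j := by
    intro j hj
    have h1 : (j : ℚ) + 1 ≤ d := by exact_mod_cast Finset.mem_range.1 hj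
    have h2 : 0 ≤ 2 * a * ((d : ℚ) - 1 - j) := mul_nonneg (by linarith) (by linarith)
    rw [max_eq_right (by linarith)]
    ring
  rw [Finset.sum_congr rfl h, Finset.sum_sub_distrib, Finset.sum_const, Finset.card_range,
    nsmul_eq_mul, ← Finset.mul_sum]
  have h3 : (∑ j ∈ Finset.range d, (j : ℚ)) * 2 = d * (d - 1) := by
    clear h
    induction d with
    | zero => simp
    | succ n ih => rw [Finset.sum_range_succ, add_mul, ih]; push_cast; ring
  linear_combination (-a) * h3

/-- restriction of scalars and convex majorants -/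
theorem key (hMAG : SpecMAG) (hCDB : SpecCDB) (hRND : SpecRND)
    (C C' : Type) [Field C] [Algebra ℂ C] [Algebra K C] [IsScalarTower ℂ K C]
    [Field C'] [Algebra ℂ C'] [Algebra K C'] [IsScalarTower ℂ K C'] [Algebra C C']
    [IsScalarTower K C C'] [IsScalarTower ℂ C C'] (O : Chart → Submodule ℂ C)
    (O' : Chart → Submodule ℂ C') (d a : ℕ) (y : C') (hO : Full C O) (hO' : Full C' O')
    (hD : CCov C C' O O' d a y)
    (V : Type) [AddCommGroup V] [Module ℂ V] [Module K V] [IsScalarTower ℂ K V]
    [Module C' V] [IsScalarTower ℂ C' V] [IsScalarTower K C' V] [Module.Finite K V]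
    (F : Chart → Submodule ℂ V) (hF : IsLat F) (hOF : O' • F = F) (hS : Sst O' F)
    (hlead : 0 < lead F) (A B : ℚ) (n : ℕ) (τ c : ℕ → ℚ) (hc : ∀ j < n, 0 ≤ c j)
    (hAB : ∀ (V : Type) [AddCommGroup V] [Module ℂ V] [Module K V] [IsScalarTower ℂ K V]
      [Module C V] [IsScalarTower ℂ C V] [IsScalarTower K C V] [Module.Finite K V]
      (G : Chart → Submodule ℂ V), IsLat G → O • G = G → Sst O G → 0 < lead G →
      mm F - a * (d - 1) ≤ mm G → mm G ≤ mm F + a * (d - 1) →
      cc G ≤ A + B * mm G + ∑ j ∈ Finset.range n, c j * max 0 (mm G - τ j)) :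
    cc F ≤ A + B * mm F + ∑ j ∈ Finset.range n, c j * (S d a (mm F) (τ j) / d) := by
  letI iC : Module C V := Module.compHom V (algebraMap C C')
  have hsm : ∀ (c : C) (v : V), c • v = (algebraMap C C' c) • v := fun _ _ => rfl
  haveI i1 : IsScalarTower C C' V := ⟨fun c c' v => by
    rw [hsm, Algebra.smul_def, mul_smul]⟩
  haveI i2 : IsScalarTower ℂ C V := ⟨fun z c v => by
    rw [hsm, hsm, Algebra.smul_def, map_mul, ← IsScalarTower.algebraMap_apply, ← Algebra.smul_def,
      smul_assoc]⟩
  haveI i3 : IsScalarTower K C V := ⟨fun z c v => by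
    rw [hsm, hsm, Algebra.smul_def, map_mul, ← IsScalarTower.algebraMap_apply, ← Algebra.smul_def,
      smul_assoc]⟩
  have hOF' : O • F = F := ((hCDB C C' O O' d a y hO hO' hD V F hF).1 hOF).1
  have hR : ∀ G : Chart → Submodule ℂ V, IsLat G → O • G = G → G ≤ F → ∀ τ : ℚ,
      (d : ℚ) * (lam G - τ * lead G) ≤ lead F * S d a (mm F) τ :=
    hRND C C' O O' d a y hO hO' hD V F hF hOF hS hlead
  have hd : (2 : ℚ) ≤ d := by exact_mod_cast hD.deg
  have ha : (0 : ℚ) ≤ a := by positivity
  have hl : (0 : ℚ) < lead F := by exact_mod_cast hlead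
  have hmm : mm F * lead F = lam F := by
    unfold mm
    exact div_mul_cancel₀ _ hl.ne'
  have hres := hMAG C O hO A B (mm F - a * (d - 1)) (mm F + a * (d - 1)) n τ c hc hAB V F hF hOF'
    hlead ?_ ?_ (fun j => lead F * (S d a (mm F) (τ j) / d)) ?_ ?_
  · have h1 : cc F * lead F = chi F 0 0 := by
      unfold cc
      exact div_mul_cancel₀ _ hl.ne'
    rw [← h1, ← hmm] at hres
    have h2 : ∑ j ∈ Finset.range n, c j * (lead F * (S d a (mm F) (τ j) / d)) =
        (∑ j ∈ Finset.range n, c j * (S d a (mm F) (τ j) / d)) * lead F := by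
      rw [Finset.sum_mul]
      apply Finset.sum_congr rfl
      intro j _
      ring
    rw [h2] at hres
    have h3 : A * (lead F : ℚ) + B * (mm F * lead F) +
        (∑ j ∈ Finset.range n, c j * (S d a (mm F) (τ j) / d)) * lead F =
        (A + B * mm F + ∑ j ∈ Finset.range n, c j * (S d a (mm F) (τ j) / d)) * lead F := by
      ring
    rw [h3] at hres
    exact le_of_mul_le_mul_right hres hl
  · intro E hE hOE hEF
    have h1 := hR E hE hOE hEF (mm F + a * (d - 1))
    rw [S_top d a (mm F) ha, mul_zero] at h1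
    have h2 : (lam E : ℚ) - (mm F + a * (d - 1)) * lead E ≤ 0 := by
      by_contra h3
      have h4 := mul_pos (show (0 : ℚ) < d by linarith) (not_le.1 h3)
      linarith
    linarith
  · intro E hE hOE hEF
    have h1 := hR E hE hOE hEF (mm F - a * (d - 1))
    rw [S_bot d a (mm F) ha] at h1
    have h2 : (d : ℚ) * (lam E - (mm F - a * (d - 1)) * lead E) ≤
        d * (lead F * (a * (d - 1))) := by
      linarith
    have h3 := le_of_mul_le_mul_left h2 (show (0 : ℚ) < d by linarith)
    rw [← hmm]
    linarith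
  · intro j _
    have := S_nonneg d a (mm F) (τ j)
    have h5 : (0 : ℚ) ≤ S d a (mm F) (τ j) / d := div_nonneg this (by linarith)
    exact mul_nonneg hl.le h5
  · intro j _ E hE hOE hEF
    have h1 := hR E hE hOE hEF (τ j)
    have h2 : (lam E : ℚ) - τ j * lead E ≤ (lead F * S d a (mm F) (τ j)) / d := by
      rw [le_div_iff₀ (by linarith)]
      linarith
    refine h2.trans (le_of_eq ?_)
    ring

end INCM

open INCM in
theorem specINC (hMAG : SpecMAG) (hCDB : SpecCDB) (hRND : SpecRND) (hNUA : SpecNUA)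
    (hNUB : SpecNUB) : SpecINC := by
  intro C C' _ _ _ _ _ _ _ _ _ _ _ O O' d a y hO hO' hD p e hG
  obtain ⟨hB, η, hη, δ, hδ, hJ⟩ := hG
  have ha1 : (1 : ℚ) ≤ a := by exact_mod_cast hD.pos
  have ha0 : (0 : ℚ) < a := by linarith
  have hd2 : 2 ≤ d := hD.deg
  have hd : (2 : ℚ) ≤ d := by exact_mod_cast hd2
  have hdc : (((d - 2 : ℕ) : ℕ) : ℚ) = (d : ℚ) - 2 := by
    rw [Nat.cast_sub hd2]; norm_num
  refine ⟨?_, η / 2, by positivity, min δ (min (a * η / 4) (2 * a ^ 2)) / d, ?_, ?_⟩
  · intro V _ _ _ _ _ _ _ _ F hF hOF hS hlead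
    set m : ℚ := mm F with hm
    set α : ℚ := m - a * (d - 1) with hα
    have h := key hMAG hCDB hRND C C' O O' d a y hO hO' hD V F hF hOF hS hlead
      ((-α ^ 2 / 4 + α * a / 2) + e) ((α - a) / 2) (d - 1) (fun l => α + 2 * a * l)
      (fun _ => (a : ℚ)) (fun _ _ => ha0.le) ?_
    · rw [← hm] at h
      have h1 := (hNUB d a α m hd2 ha0 (by rw [hα]; ring)).1
      unfold S at h
      beta_reduce at h
      linarith
    · intro V2 _ _ _ _ _ _ _ _ G hGl hOG hSG hleadG h1 h2
      have h3 := hB V2 G hGl hOG hSG hleadG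
      have h4 := (hNUA d a α (mm G) hd2 ha0 h1 (by rw [hα]; linarith)).1
      unfold chord at h4
      beta_reduce
      linarith
  · have : (0 : ℚ) < min δ (min (a * η / 4) (2 * a ^ 2)) :=
      lt_min hδ (lt_min (by positivity) (by positivity))
    have hd0 : (0 : ℚ) < d := by linarith
    positivity
  · intro V _ _ _ _ _ _ _ _ F hF hOF hS hlead hm1 hm2
    set D : ℚ := min δ (min (a * η / 4) (2 * a ^ 2)) with hDdef
    have hD0 : 0 < D := lt_min hδ (lt_min (by positivity) (by positivity))
    have hD1 : D ≤ δ := min_le_left _ _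
    have hD2 : D ≤ a * η / 4 := (min_le_right _ _).trans (min_le_left _ _)
    have hD3 : D ≤ 2 * a ^ 2 := (min_le_right _ _).trans (min_le_right _ _)
    set m : ℚ := mm F with hm
    set α : ℚ := m - a * (d - 1) with hα
    set k : ℚ := D / (2 * a) with hk
    have hk0 : 0 < k := by positivity
    have hka : k * (2 * a) = D := by
      rw [hk]
      field_simp
    have hk8 : k ≤ η / 8 := by
      rw [hk, div_le_iff₀ (by positivity)]
      linarith
    have hkA : k ≤ a := by
      rw [hk, div_le_iff₀ (by positivity)]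
      linarith
    -- the sum with the modified last coefficient
    have hsum : ∀ X : ℕ → ℚ, ∑ l ∈ Finset.range (d - 1),
        ((a : ℚ) - if l = d - 2 then k else 0) * X l =
        (∑ l ∈ Finset.range (d - 1), (a : ℚ) * X l) - k * X (d - 2) := by
      intro X
      have e1 : ∀ l ∈ Finset.range (d - 1), ((a : ℚ) - if l = d - 2 then k else 0) * X l =
          (a : ℚ) * X l - (if l = d - 2 then k * X (d - 2) else 0) := by
        intro l _
        by_cases hl : l = d - 2
        · rw [if_pos hl, if_pos hl, hl]; ring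
        · rw [if_neg hl, if_neg hl]; ring
      rw [Finset.sum_congr rfl e1, Finset.sum_sub_distrib, Finset.sum_ite_eq',
        if_pos (Finset.mem_range.2 (by omega))]
    have h := key hMAG hCDB hRND C C' O O' d a y hO hO' hD V F hF hOF hS hlead
      ((-α ^ 2 / 4 + α * a / 2) + e) ((α - a) / 2) (d - 1) (fun l => α + 2 * a * l)
      (fun l => (a : ℚ) - if l = d - 2 then k else 0) ?_ ?_
    · rw [← hm] at h
      beta_reduce at h
      rw [hsum (fun l => S d a m (α + 2 * a * l) / d)] at h
      have h1 := hNUB d a α m hd2 ha0 (by rw [hα]; ring)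
      have h2 := h1.1
      have h3 := h1.2
      unfold S at h
      beta_reduce at h
      rw [hdc, h3] at h
      have h4 : k * (2 * a / d) = D / d := by
        rw [← hka]; ring
      rw [h4] at h
      linarith
    · intro l _
      beta_reduce
      split_ifs
      · linarith
      · linarith
    · intro V2 _ _ _ _ _ _ _ _ G hGl hOG hSG hleadG h1 h2
      beta_reduce
      rw [hsum (fun l => max 0 (mm G - (α + 2 * a * l)))]
      beta_reduce
      rw [hdc]
      set t : ℚ := mm G with ht
      have hβ : m + a * (d - 1) = α + 2 * a * (d - 1) := by rw [hα]; ring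
      have hN := hNUA d a α t hd2 ha0 h1 (by rw [← hβ]; exact h2)
      have hN1 := hN.1
      have hN2 := hN.2
      unfold chord at hN1 hN2
      rcases le_or_gt t (α + 2 * a * (d - 2)) with hc | hc
      · have h3 := hB V2 G hGl hOG hSG hleadG
        rw [max_eq_left (by linarith : t - (α + 2 * a * ((d : ℚ) - 2)) ≤ 0), mul_zero]
        rw [← ht] at h3
        linarith
      · rw [max_eq_right (by linarith : 0 ≤ t - (α + 2 * a * ((d : ℚ) - 2)))]
        have hN3 := hN2 hc.le
        have hb0 : 0 ≤ α + 2 * a * ((d : ℚ) - 1) - t := by rw [← hβ]; linarith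
        have hT0 : 0 ≤ t - (α + 2 * a * ((d : ℚ) - 2)) := by linarith
        rcases le_or_gt t (α + 2 * a * ((d : ℚ) - 1) - η / 2) with hc' | hc'
        · have h3 := hB V2 G hGl hOG hSG hleadG
          rw [← ht] at h3
          have h4 : k * (t - (α + 2 * a * ((d : ℚ) - 2))) ≤
              (t - (α + 2 * a * ((d : ℚ) - 2))) * (α + 2 * a * ((d : ℚ) - 1) - t) / 4 := by
            have h5 : k ≤ (α + 2 * a * ((d : ℚ) - 1) - t) / 4 := by linarith
            have h6 := mul_le_mul_of_nonneg_right h5 hT0
            linarith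
          linarith
        · have hm1' : p - η / 2 < m + a * (d - 1) := by linarith
          have h3 := hJ V2 G hGl hOG hSG hleadG (by rw [hβ] at hm1'; linarith) (by linarith)
          rw [← ht] at h3
          have h4 : k * (t - (α + 2 * a * ((d : ℚ) - 2))) ≤ k * (2 * a) :=
            mul_le_mul_of_nonneg_left (by linarith) hk0.le
          rw [hka] at h4
          have h5 := mul_nonneg hT0 hb0
          linarith

end Pool.Agent.Lib.LP.TW
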