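import Pool.Agent.Lib.MP_865fc0_ag.TW.Spec

/-!
# MP_865fc0_ag, TW, module IND: Bogomolov's inequality and the jump for a double cover
-/

set_option autoImplicit false

open scoped Pointwise
open Filter

namespace Pool.Agent.Lib.LP.TW

namespace INDM

/-- restriction of scalars and linear majorants -/
theorem key (hMAJ : SpecMAJ) (hDCB : SpecDCB) (hRNA : SpecRNA) (hRNB : SpecRNB)
    (C C' : Type) [Field C] [Algebra ℂ C] [Algebra K C] [IsScalarTower ℂ K C]
    [Field C'] [Algebra ℂ C'] [Algebra K C'] [IsScalarTower ℂ K C'] [Algebra C C']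
    [IsScalarTower K C C'] [IsScalarTower ℂ C C'] (O : Chart → Submodule ℂ C)
    (O' : Chart → Submodule ℂ C') (a : ℕ) (y : C') (hO : Full C O) (hO' : Full C' O')
    (hD : DCov C C' O O' a y)
    (V : Type) [AddCommGroup V] [Module ℂ V] [Module K V] [IsScalarTower ℂ K V]
    [Module C' V] [IsScalarTower ℂ C' V] [IsScalarTower K C' V] [Module.Finite K V]
    (F : Chart → Submodule ℂ V) (hF : IsLat F) (hOF : O' • F = F) (hS : Sst O' F)
    (hlead : 0 < lead F) (A B : ℚ)
    (hAB : ∀ (V : Type) [AddCommGroup V] [Module ℂ V] [Module K V] [IsScalarTower ℂ K V]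
      [Module C V] [IsScalarTower ℂ C V] [IsScalarTower K C V] [Module.Finite K V]
      (G : Chart → Submodule ℂ V), IsLat G → O • G = G → Sst O G → 0 < lead G →
      mm F - a ≤ mm G → mm G ≤ mm F + a → cc G ≤ A + B * mm G) :
    cc F ≤ A + B * mm F := by
  letI iC : Module C V := Module.compHom V (algebraMap C C')
  have hsm : ∀ (c : C) (v : V), c • v = (algebraMap C C' c) • v := fun _ _ => rfl
  haveI i1 : IsScalarTower C C' V := ⟨fun c c' v => by
    rw [hsm, Algebra.smul_def, mul_smul]⟩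
  haveI i2 : IsScalarTower ℂ C V := ⟨fun z c v => by
    rw [hsm, hsm, Algebra.smul_def, map_mul, ← IsScalarTower.algebraMap_apply, ← Algebra.smul_def,
      smul_assoc]⟩
  haveI i3 : IsScalarTower K C V := ⟨fun z c v => by
    rw [hsm, hsm, Algebra.smul_def, map_mul, ← IsScalarTower.algebraMap_apply, ← Algebra.smul_def,
      smul_assoc]⟩
  have hOF' : O • F = F := ((hDCB C C' O O' a y hO hO' hD V F hF).1 hOF).1
  refine hMAJ C O hO A B (mm F - a) (mm F + a) hAB V F hF hOF' hlead ?_ ?_
  · exact hRNA C C' O O' a y hO hO' hD V F hF hOF hS hlead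
  · exact hRNB C C' O O' a y hO hO' hD V F hF hOF hS hlead

end INDM

open INDM in
theorem specIND (hMAJ : SpecMAJ) (hDCB : SpecDCB) (hRNA : SpecRNA) (hRNB : SpecRNB) :
    SpecIND := by
  intro C C' _ _ _ _ _ _ _ _ _ _ _ O O' a y hO hO' hD p e hG
  obtain ⟨hB, η, hη, δ, hδ, hJ⟩ := hG
  have ha : (1 : ℚ) ≤ a := by exact_mod_cast hD.pos
  have ha0 : (0 : ℚ) < a := by linarith
  refine ⟨?_, η / 2, by positivity, min δ (a * η / 4) / 2, ?_, ?_⟩
  · intro V _ _ _ _ _ _ _ _ F hF hOF hS hlead
    have h := key hMAJ hDCB hRNA hRNB C C' O O' a y hO hO' hD V F hF hOF hS hlead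
      (((a : ℚ) ^ 2 - mm F ^ 2) / 4 + e) (mm F / 2) ?_
    · refine h.trans (le_of_eq ?_)
      ring
    · intro V2 _ _ _ _ _ _ _ _ G hGl hOG hSG hleadG h1 h2
      have h3 := hB V2 G hGl hOG hSG hleadG
      have h4 : (mm G - mm F) ^ 2 ≤ (a : ℚ) ^ 2 := by
        nlinarith
      nlinarith
  · have : (0 : ℚ) < min δ (a * η / 4) := lt_min hδ (by positivity)
    linarith
  · intro V _ _ _ _ _ _ _ _ F hF hOF hS hlead hm1 hm2
    set d : ℚ := min δ (a * η / 4) with hd
    have hd0 : 0 < d := lt_min hδ (by positivity)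
    have hd1 : d ≤ δ := min_le_left _ _
    have hd2 : d ≤ a * η / 4 := min_le_right _ _
    have h := key hMAJ hDCB hRNA hRNB C C' O O' a y hO hO' hD V F hF hOF hS hlead
      (((a : ℚ) ^ 2 - mm F ^ 2) / 4 + e - d * (a - mm F) / (2 * a)) (mm F / 2 - d / (2 * a)) ?_
    · refine h.trans (le_of_eq ?_)
      field_simp
      ring
    · intro V2 _ _ _ _ _ _ _ _ G hGl hOG hSG hleadG h1 h2
      set t : ℚ := mm G with ht
      set m : ℚ := mm F with hm
      have hexp : ((a : ℚ) ^ 2 - m ^ 2) / 4 + e - d * (a - m) / (2 * a) +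
          (m / 2 - d / (2 * a)) * t =
          (m ^ 2 + 2 * m * (t - m) + (a : ℚ) ^ 2) / 4 + e - d / (2 * a) * (t - m + a) := by
        field_simp
        ring
      rw [hexp]
      set k : ℚ := d / (2 * a) with hk
      have hk0 : 0 < k := by positivity
      have hka : k * (2 * a) = d := by
        rw [hk]
        field_simp
      have hk8 : k ≤ η / 8 := by
        rw [hk, div_le_iff₀ (by positivity)]
        linarith
      rcases le_or_gt (t - m) (a - η / 2) with hc | hc
      · have h3 := hB V2 G hGl hOG hSG hleadG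
        have h4 : k * (t - m + a) ≤ η / 8 * (t - m + a) :=
          mul_le_mul_of_nonneg_right hk8 (by linarith)
        have h5 : η / 2 * (t - m + a) ≤ (a - (t - m)) * (t - m + a) :=
          mul_le_mul_of_nonneg_right (by linarith) (by linarith)
        have h6 : t ^ 2 = m ^ 2 + 2 * m * (t - m) + (t - m) ^ 2 := by ring
        have h7 : (a - (t - m)) * (t - m + a) = (a : ℚ) ^ 2 - (t - m) ^ 2 := by ring
        rw [← ht, h6] at h3
        rw [h7] at h5
        linarith
      · have h3 := hJ V2 G hGl hOG hSG hleadG (by linarith) (by linarith)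
        have h4 : k * (t - m + a) ≤ k * (2 * a) :=
          mul_le_mul_of_nonneg_left (by linarith) hk0.le
        have h5 : (t - m) ^ 2 ≤ (a : ℚ) ^ 2 := by nlinarith
        have h6 : t ^ 2 = m ^ 2 + 2 * m * (t - m) + (t - m) ^ 2 := by ring
        rw [← ht, h6] at h3
        rw [hka] at h4
        linarith

end Pool.Agent.Lib.LP.TW
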