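import Pool.Agent.Lib.MP_865fc0_ag.TW.SpecG
import Pool.Agent.Lib.MP_865fc0_ag.TW.INC

/-!
# MP_865fc0_ag, TW, module INW: Bogomolov's inequality and the jump for a cyclic cover, general `ω`
-/

set_option autoImplicit false

open scoped Pointwise
open Filter

namespace Pool.Agent.Lib.LP.TW

namespace INWM

open INCM

/-- restriction of scalars and convex majorants -/
theorem key (hMAW : SpecMAW) (hRND : SpecRND) (hCDB : SpecCDB)
    (C C' : Type) [Field C] [Algebra ℂ C] [Algebra K C] [IsScalarTower ℂ K C]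
    [Field C'] [Algebra ℂ C'] [Algebra K C'] [IsScalarTower ℂ K C'] [Algebra C C']
    [IsScalarTower K C C'] [IsScalarTower ℂ C C'] (O W W' : Chart → Submodule ℂ C)
    (O' : Chart → Submodule ℂ C') (d a : ℕ) (y : C') (hO : Full C O) (hI : Inv C O W W')
    (hO' : Full C' O') (hD : CCov C C' O O' d a y)
    (V : Type) [AddCommGroup V] [Module ℂ V] [Module K V] [IsScalarTower ℂ K V] [Module C V]
    [IsScalarTower ℂ C V] [IsScalarTower K C V] [Module C' V] [IsScalarTower ℂ C' V]
    [IsScalarTower K C' V] [IsScalarTower C C' V] [Module.Finite K V]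
    (F : Chart → Submodule ℂ V) (hF : IsLat F) (hOF : O' • F = F) (hS : Sst O' F)
    (hlead : 0 < lead F) (A B : ℚ) (n : ℕ) (τ c : ℕ → ℚ) (hc : ∀ j < n, 0 ≤ c j)
    (hAB : ∀ (V : Type) [AddCommGroup V] [Module ℂ V] [Module K V] [IsScalarTower ℂ K V]
      [Module C V] [IsScalarTower ℂ C V] [IsScalarTower K C V] [Module.Finite K V]
      (G : Chart → Submodule ℂ V), IsLat G → O • G = G → Sst O G → 0 < lead G →
      mm F - a * (d - 1) ≤ mm G → mm G ≤ mm F + a * (d - 1) →
      psi W G ≤ (A + B * mm G + ∑ j ∈ Finset.range n, c j * max 0 (mm G - τ j)) * lead G) :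
    psi W F ≤
      (A + B * mm F + ∑ j ∈ Finset.range n, c j * (S d a (mm F) (τ j) / d)) * lead F := by
  have hOF' : O • F = F := ((hCDB C C' O O' d a y hO hO' hD V F hF).1 hOF).1
  have hR : ∀ G : Chart → Submodule ℂ V, IsLat G → O • G = G → G ≤ F → ∀ τ : ℚ,
      (d : ℚ) * (lam G - τ * lead G) ≤ lead F * S d a (mm F) τ :=
    hRND C C' O O' d a y hO hO' hD V F hF hOF hS hlead
  have hd : (2 : ℚ) ≤ d := by exact_mod_cast hD.deg
  have ha : (0 : ℚ) ≤ a := by positivity
  have hl : (0 : ℚ) < lead F := by exact_mod_cast hlead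
  have hmm : mm F * lead F = lam F := by
    unfold mm
    exact div_mul_cancel₀ _ hl.ne'
  have hres := hMAW C O W W' hO hI A B (mm F - a * (d - 1)) (mm F + a * (d - 1)) n τ c hc hAB V F
    hF hOF' hlead ?_ ?_ (fun j => lead F * (S d a (mm F) (τ j) / d)) ?_ ?_
  · have h2 : ∑ j ∈ Finset.range n, c j * (lead F * (S d a (mm F) (τ j) / d)) =
        (∑ j ∈ Finset.range n, c j * (S d a (mm F) (τ j) / d)) * lead F := by
      rw [Finset.sum_mul]
      apply Finset.sum_congr rfl
      intro j _
      ring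
    rw [h2, ← hmm] at hres
    refine hres.trans (le_of_eq ?_)
    ring
  · intro E hE hOE hEF
    have h1 := hR E hE hOE hEF (mm F + a * (d - 1))
    rw [S_top d a (mm F) ha, mul_zero] at h1
    have h2 : (lam E : ℚ) - (mm F + a * (d - 1)) * lead E ≤ 0 := by
      by_contra h3
      have h4 := mul_pos (show (0 : ℚ) < d by linarith) (not_le.1 h3)
      linarith
    linarith
  · intro E hE hOE hEF
    have h1 := hR E hE hOE hEF (mm F - a * (d - 1))
    rw [S_bot d a (mm F) ha] at h1
    have h2 : (d : ℚ) * (lam E - (mm F - a * (d - 1)) * lead E) ≤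
        d * (lead F * (a * (d - 1))) := by
      linarith
    have h3 := le_of_mul_le_mul_left h2 (show (0 : ℚ) < d by linarith)
    rw [← hmm]
    linarith
  · intro j _
    have := S_nonneg d a (mm F) (τ j)
    have h5 : (0 : ℚ) ≤ S d a (mm F) (τ j) / d := div_nonneg this (by linarith)
    exact mul_nonneg hl.le h5
  · intro j _ E hE hOE hEF
    have h1 := hR E hE hOE hEF (τ j)
    have h2 : (lam E : ℚ) - τ j * lead E ≤ (lead F * S d a (mm F) (τ j)) / d := by
      rw [le_div_iff₀ (by linarith)]
      linarith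
    refine h2.trans (le_of_eq ?_)
    ring

end INWM

open INCM in
theorem specINW (hMAW : SpecMAW) (hCDB : SpecCDB) (hRND : SpecRND) (hNUA : SpecNUA)
    (hNUB : SpecNUB) : SpecINW := by
  intro C C' _ _ _ _ _ _ _ _ _ _ _ O W W' O' d a y hO hI hO' hD p e hB
  have ha1 : (1 : ℚ) ≤ a := by exact_mod_cast hD.pos
  have ha0 : (0 : ℚ) < a := by linarith
  have hd2 : 2 ≤ d := hD.deg
  have hd : (2 : ℚ) ≤ d := by exact_mod_cast hd2
  have hdc : (((d - 2 : ℕ) : ℕ) : ℚ) = (d : ℚ) - 2 := by
    rw [Nat.cast_sub hd2]; norm_num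
  refine ⟨?_, ?_⟩
  · intro V _ _ _ _ _ _ _ _ _ _ _ _ F hF hOF hS hlead
    have hl : (0 : ℚ) < lead F := by exact_mod_cast hlead
    set m : ℚ := mm F with hm
    set α : ℚ := m - a * (d - 1) with hα
    have h := INWM.key hMAW hRND hCDB C C' O W W' O' d a y hO hI hO' hD V F hF hOF hS hlead
      ((-α ^ 2 / 4 + α * a / 2) + e + p ^ 2 / 4) ((α - a) / 2 - p / 2) (d - 1)
      (fun l => α + 2 * a * l) (fun _ => (a : ℚ)) (fun _ _ => ha0.le) ?_
    · rw [← hm] at h
      have h1 := (hNUB d a α m hd2 ha0 (by rw [hα]; ring)).1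
      unfold S at h
      beta_reduce at h
      refine h.trans (mul_le_mul_of_nonneg_right ?_ hl.le)
      have e1 : (m - p) ^ 2 / 4 = m ^ 2 / 4 - p * m / 2 + p ^ 2 / 4 := by ring
      rw [e1]
      linarith
    · intro V2 _ _ _ _ _ _ _ _ G hGl hOG hSG hleadG h1 h2
      have hlG : (0 : ℚ) < lead G := by exact_mod_cast hleadG
      have h3 := hB V2 G hGl hOG hSG hleadG
      have h4 := (hNUA d a α (mm G) hd2 ha0 h1 (by rw [hα]; linarith)).1
      unfold chord at h4
      refine h3.trans (mul_le_mul_of_nonneg_right ?_ hlG.le)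
      have e1 : (mm G - p) ^ 2 / 4 = mm G ^ 2 / 4 - p * mm G / 2 + p ^ 2 / 4 := by ring
      rw [e1]
      beta_reduce
      linarith
  · intro η δ hη hδ hJ V _ _ _ _ _ _ _ _ _ _ _ _ F hF hOF hS hlead hm1 hm2
    have hl : (0 : ℚ) < lead F := by exact_mod_cast hlead
    set D : ℚ := min δ (min (a * η / 4) (2 * a ^ 2)) with hDdef
    have hD0 : 0 < D := lt_min hδ (lt_min (by positivity) (by positivity))
    have hD1 : D ≤ δ := min_le_left _ _
    have hD2 : D ≤ a * η / 4 := (min_le_right _ _).trans (min_le_left _ _)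
    have hD3 : D ≤ 2 * a ^ 2 := (min_le_right _ _).trans (min_le_right _ _)
    set m : ℚ := mm F with hm
    set α : ℚ := m - a * (d - 1) with hα
    set k : ℚ := D / (2 * a) with hk
    have hk0 : 0 < k := by positivity
    have hka : k * (2 * a) = D := by
      rw [hk]
      field_simp
    have hk8 : k ≤ η / 8 := by
      rw [hk, div_le_iff₀ (by positivity)]
      linarith
    have hkA : k ≤ a := by
      rw [hk, div_le_iff₀ (by positivity)]
      linarith
    -- the sum with the modified last coefficient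
    have hsum : ∀ X : ℕ → ℚ, ∑ l ∈ Finset.range (d - 1),
        ((a : ℚ) - if l = d - 2 then k else 0) * X l =
        (∑ l ∈ Finset.range (d - 1), (a : ℚ) * X l) - k * X (d - 2) := by
      intro X
      have e1 : ∀ l ∈ Finset.range (d - 1), ((a : ℚ) - if l = d - 2 then k else 0) * X l =
          (a : ℚ) * X l - (if l = d - 2 then k * X (d - 2) else 0) := by
        intro l _
        by_cases hl : l = d - 2
        · rw [if_pos hl, if_pos hl, hl]; ring
        · rw [if_neg hl, if_neg hl]; ring
      rw [Finset.sum_congr rfl e1, Finset.sum_sub_distrib, Finset.sum_ite_eq',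
        if_pos (Finset.mem_range.2 (by omega))]
    have h := INWM.key hMAW hRND hCDB C C' O W W' O' d a y hO hI hO' hD V F hF hOF hS hlead
      ((-α ^ 2 / 4 + α * a / 2) + e + p ^ 2 / 4) ((α - a) / 2 - p / 2) (d - 1)
      (fun l => α + 2 * a * l) (fun l => (a : ℚ) - if l = d - 2 then k else 0) ?_ ?_
    · rw [← hm] at h
      beta_reduce at h
      rw [hsum (fun l => S d a m (α + 2 * a * l) / d)] at h
      have h1 := hNUB d a α m hd2 ha0 (by rw [hα]; ring)
      have h2 := h1.1
      have h3 := h1.2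
      unfold S at h
      beta_reduce at h
      rw [hdc, h3] at h
      have h4 : k * (2 * a / d) = D / d := by
        rw [← hka]; ring
      rw [h4] at h
      refine h.trans (mul_le_mul_of_nonneg_right ?_ hl.le)
      have e1 : (m - p) ^ 2 / 4 = m ^ 2 / 4 - p * m / 2 + p ^ 2 / 4 := by ring
      rw [e1]
      linarith
    · intro l _
      beta_reduce
      split_ifs
      · linarith
      · linarith
    · intro V2 _ _ _ _ _ _ _ _ G hGl hOG hSG hleadG h1 h2
      have hlG : (0 : ℚ) < lead G := by exact_mod_cast hleadG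
      have e1 : (mm G - p) ^ 2 / 4 = mm G ^ 2 / 4 - p * mm G / 2 + p ^ 2 / 4 := by ring
      beta_reduce
      rw [hsum (fun l => max 0 (mm G - (α + 2 * a * l)))]
      beta_reduce
      rw [hdc]
      set t : ℚ := mm G with ht
      have hβ : m + a * (d - 1) = α + 2 * a * (d - 1) := by rw [hα]; ring
      have hN := hNUA d a α t hd2 ha0 h1 (by rw [← hβ]; exact h2)
      have hN1 := hN.1
      have hN2 := hN.2
      unfold chord at hN1 hN2
      rcases le_or_gt t (α + 2 * a * (d - 2)) with hc | hc
      · have h3 := hB V2 G hGl hOG hSG hleadG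
        rw [max_eq_left (by linarith : t - (α + 2 * a * ((d : ℚ) - 2)) ≤ 0), mul_zero]
        rw [← ht] at h3
        refine h3.trans (mul_le_mul_of_nonneg_right ?_ hlG.le)
        rw [e1]
        linarith
      · rw [max_eq_right (by linarith : 0 ≤ t - (α + 2 * a * ((d : ℚ) - 2)))]
        have hN3 := hN2 hc.le
        have hb0 : 0 ≤ α + 2 * a * ((d : ℚ) - 1) - t := by rw [← hβ]; linarith
        have hT0 : 0 ≤ t - (α + 2 * a * ((d : ℚ) - 2)) := by linarith
        rcases le_or_gt t (α + 2 * a * ((d : ℚ) - 1) - η / 2) with hc' | hc'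
        · have h3 := hB V2 G hGl hOG hSG hleadG
          rw [← ht] at h3
          refine h3.trans (mul_le_mul_of_nonneg_right ?_ hlG.le)
          have h4 : k * (t - (α + 2 * a * ((d : ℚ) - 2))) ≤
              (t - (α + 2 * a * ((d : ℚ) - 2))) * (α + 2 * a * ((d : ℚ) - 1) - t) / 4 := by
            have h5 : k ≤ (α + 2 * a * ((d : ℚ) - 1) - t) / 4 := by linarith
            have h6 := mul_le_mul_of_nonneg_right h5 hT0
            linarith
          rw [e1]
          linarith
        · have hm1' : p - η / 2 < m + a * (d - 1) := by linarith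
          have h3 := hJ V2 G hGl hOG hSG hleadG (by rw [hβ] at hm1'; linarith) (by linarith)
          rw [← ht] at h3
          refine h3.trans (mul_le_mul_of_nonneg_right ?_ hlG.le)
          have h4 : k * (t - (α + 2 * a * ((d : ℚ) - 2))) ≤ k * (2 * a) :=
            mul_le_mul_of_nonneg_left (by linarith) hk0.le
          rw [hka] at h4
          have h5 := mul_nonneg hT0 hb0
          rw [e1]
          linarith

end Pool.Agent.Lib.LP.TW
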