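import Pool.Agent.Lib.MP_865fc0_ag.TW.SpecG

/-!
# MP_865fc0_ag, TW, module IVL: tensor products with an invertible sheaf
-/

set_option autoImplicit false

open scoped Pointwise
open Filter

namespace Pool.Agent.Lib.LP.TW

noncomputable section

namespace IVLM

variable {C : Type} [Field C] [Algebra ℂ C] [Algebra K C] [IsScalarTower ℂ K C]
variable {V : Type} [AddCommGroup V] [Module ℂ V] [Module K V] [IsScalarTower ℂ K V]
variable [Module C V] [IsScalarTower ℂ C V] [IsScalarTower K C V]

/-- the product with a sheaf which has a nonzero section does not lower the rank -/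
theorem lead_le [Module.Finite K V] {A : Chart → Submodule ℂ C} {F : Chart → Submodule ℂ V}
    (hA : IsLat A) (hF : IsLat F) {z : C} (hz : z ≠ 0) (hzA : z ∈ A (false, false)) :
    lead F ≤ lead (A • F) := by
  have h1 : lead (ln z • F) = lead F := by
    have hu : IsUnit z := isUnit_iff_ne_zero.2 hz
    unfold lead
    rw [hF.chi_ln hu, hF.chi_ln hu, hF.chi_ln hu, hF.chi_ln hu]
  rw [← h1, (hF.ln_smul z).lead_eq, (hA.fsmul hF).lead_eq]
  have h2 : (ln z • F) (false, false) ≤ (A • F) (false, false) := by
    intro v hv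
    obtain ⟨n, hn, rfl⟩ := mem_ln_smul.1 hv
    exact Submodule.smul_mem_smul hzA hn
  exact_mod_cast Submodule.finrank_mono (Submodule.span_mono h2)

theorem exists_ne {O W W' : Chart → Submodule ℂ C} (hO : IsRingLat O) (h : W * W' = O) :
    ∃ z ∈ W (false, false), z ≠ 0 := by
  by_contra hne
  push Not at hne
  have h1 : (1 : C) ∈ O (false, false) := by
    have h2 := hO.one (false, false)
    exact h2 (Submodule.mem_one.2 ⟨1, map_one _⟩)
  rw [← h] at h1
  have h3 : W (false, false) = ⊥ := by
    rw [eq_bot_iff]
    intro z hz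
    rw [Submodule.mem_bot]
    exact hne z hz
  have h4 : (W * W') (false, false) = ⊥ := by
    show W (false, false) * W' (false, false) = ⊥
    rw [h3, Submodule.bot_mul]
  rw [h4, Submodule.mem_bot] at h1
  exact one_ne_zero h1

end IVLM

open IVLM in
theorem specIVL : SpecIVL := by
  intro C _ _ _ _ O W W' hO hW V _ _ _ _ _ _ _ _ F hF hOF
  have hlat : IsLat (W • F) := hW.lat.fsmul hF
  have hst : O • (W • F) = W • F := by rw [← mulS, hW.st]
  have hmul' : W' * W = O := by rw [mul_comm]; exact hW.mul
  have hinv : W' • (W • F) = F := by rw [← mulS, hmul', hOF]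
  refine ⟨hlat, hst, hinv, ?_, ?_⟩
  · obtain ⟨z, hz, hz0⟩ := exists_ne hO.ring hW.mul
    obtain ⟨z', hz', hz0'⟩ := exists_ne hO.ring hmul'
    have h1 := lead_le hW.lat hF hz0 hz
    have h2 := lead_le hW.lat' hlat hz0' hz'
    rw [hinv] at h2
    exact le_antisymm h2 h1
  · intro U s
    let G : Chart → Submodule ℂ V := fun _ => U.restrictScalars ℂ
    have hG : ∀ A : Chart → Submodule ℂ C, A • G ≤ G := by
      intro A t
      show A t • U.restrictScalars ℂ ≤ U.restrictScalars ℂ
      rw [Submodule.smul_le]
      intro r _ n hn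
      exact U.smul_mem r hn
    have hOG : O • G = G := hO.ring.smul_eq_of_le (hG O)
    have hWG : W • G = G := by
      apply le_antisymm (hG W)
      conv_lhs => rw [← hOG, ← hW.mul, mulS]
      exact SmonoR W (hG W')
    have hWO : W * O = W := by rw [mul_comm]; exact hW.st
    have h := Sinf hO.ring hWO hW.mul hOF hOG
    rw [hWG] at h
    exact congrFun h s

end

end Pool.Agent.Lib.LP.TW
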