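import Pool.Agent.Lib.MP_865fc0_ag.TW.TRG
import Pool.Agent.Lib.MP_865fc0_ag.TW.PHI

/-!
# MP_865fc0_ag, TW: the jump is inherited by cyclic covers
-/

set_option autoImplicit false

open scoped Pointwise
open Filter

namespace Pool.Agent.Lib.LP.TW

theorem phiQG (hT : SpecTRG) (L : Type) [Field L] [Algebra ℂ L] [Algebra K L]
    [IsScalarTower ℂ K L] (p : ℤ) (e η δ : ℚ) (hTF : TG L p e)
    (hgood : GoodQ L (strSheaf L) p e η δ) (t : ℝ) (ht1 : -((η / 2 : ℚ) : ℝ) < t) (ht2 : t < 0) :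
    Phi L t ≤ ((t ^ 2 / 2 - ((δ / 2 : ℚ) : ℝ) : ℝ) : EReal) := by
  have hfin : Module.Finite K L := hTF.full.fin
  have key : ∀ ε : ℝ, 0 < ε → ε ≤ -t → ε ≤ t + ((η / 2 : ℚ) : ℝ) →
      Phi L t ≤ (((ε - t) ^ 2 / 2 - ((δ / 2 : ℚ) : ℝ) : ℝ) : EReal) := by
    intro ε hε hm1 hm2
    unfold Phi
    refine (iInf_le _ ⟨ε, hε⟩).trans ?_
    refine sSup_le ?_
    rintro c ⟨r, F, hr, hsh, hrk, hss, hslope, rfl⟩
    obtain ⟨hiff, hrest⟩ := hT L p e hTF r F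
    obtain ⟨hlat, hOF⟩ := hiff.mp hsh
    obtain ⟨-, hlead, hsl, hsst, hch⟩ := hrest hlat hOF hr hrk
    have hSst := hsst.mp hss
    have hab := abs_lt.mp hslope
    simp only at hab
    have hs1 : (slope L F : ℝ) < 0 := by linarith [hab.2]
    have hs2 : -((η / 2 : ℚ) : ℝ) < (slope L F : ℝ) := by linarith [hab.1]
    have hs1' : slope L F < 0 := by exact_mod_cast hs1
    have hs2' : -(η / 2) < slope L F := by exact_mod_cast hs2
    have hmm1 : (p : ℚ) - η < mm F := by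
      rw [hsl] at hs2'
      linarith
    have hmm2 : mm F < (p : ℚ) := by
      rw [hsl] at hs1'
      linarith
    have hcc := hgood (Fin r → L) F hlat hOF hSst hlead hmm1 hmm2
    rw [hch]
    refine EReal.coe_le_coe_iff.mpr ?_
    have h3 : (cc F - p * mm F / 2 + (p : ℚ) ^ 2 / 4 - e) / 2 ≤ (slope L F) ^ 2 / 2 - δ / 2 := by
      rw [hsl]
      linarith [hcc, show ((mm F - p) / 2) ^ 2 = mm F ^ 2 / 4 - p * mm F / 2 + (p : ℚ) ^ 2 / 4 by ring]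
    have h4 : ((((cc F - p * mm F / 2 + (p : ℚ) ^ 2 / 4 - e) / 2 : ℚ)) : ℝ) ≤
        (slope L F : ℝ) ^ 2 / 2 - ((δ / 2 : ℚ) : ℝ) := by exact_mod_cast h3
    have h5 : (slope L F : ℝ) ^ 2 ≤ (ε - t) ^ 2 := by
      apply sq_le_sq'
      · linarith [hab.1]
      · linarith
    linarith
  have hlim : Tendsto (fun ε : ℝ => (((ε - t) ^ 2 / 2 - ((δ / 2 : ℚ) : ℝ) : ℝ) : EReal))
      (nhdsWithin 0 (Set.Ioi 0)) (nhds (((0 - t) ^ 2 / 2 - ((δ / 2 : ℚ) : ℝ) : ℝ) : EReal)) := by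
    apply Tendsto.mono_left _ nhdsWithin_le_nhds
    apply (continuous_coe_real_ereal.tendsto _).comp
    have : Continuous fun ε : ℝ => (ε - t) ^ 2 / 2 - ((δ / 2 : ℚ) : ℝ) := by fun_prop
    exact this.tendsto 0
  have hev : ∀ᶠ ε in nhdsWithin (0 : ℝ) (Set.Ioi 0),
      Phi L t ≤ (((ε - t) ^ 2 / 2 - ((δ / 2 : ℚ) : ℝ) : ℝ) : EReal) := by
    have h6 : Set.Ioo (0 : ℝ) (min (-t) (t + ((η / 2 : ℚ) : ℝ))) ∈ nhdsWithin (0 : ℝ) (Set.Ioi 0) :=
      Ioo_mem_nhdsGT (lt_min (by linarith) (by linarith))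
    filter_upwards [h6] with ε hε
    exact key ε hε.1 (hε.2.le.trans (min_le_left _ _)) (hε.2.le.trans (min_le_right _ _))
  have h7 := ge_of_tendsto hlim hev
  rwa [show (0 - t) ^ 2 = t ^ 2 by ring] at h7

/-- Bogomolov's inequality on the level of Phi -/
theorem phiBG (hT : SpecTRG) (L : Type) [Field L] [Algebra ℂ L] [Algebra K L]
    [IsScalarTower ℂ K L] (p : ℤ) (e : ℚ) (hTF : TG L p e)
    (hB : ∀ (V : Type) [AddCommGroup V] [Module ℂ V] [Module K V] [IsScalarTower ℂ K V] [Module L V]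
      [IsScalarTower ℂ L V] [IsScalarTower K L V] [Module.Finite K V] (F : Chart → Submodule ℂ V),
      IsLat F → strSheaf L • F = F → Sst (strSheaf L) F → 0 < lead F → cc F ≤ mm F ^ 2 / 4 + e)
    (t : ℝ) :
    Phi L t ≤ ((t ^ 2 / 2 : ℝ) : EReal) := by
  have hfin : Module.Finite K L := hTF.full.fin
  have key : ∀ ε : ℝ, 0 < ε → Phi L t ≤ (((ε + |t|) ^ 2 / 2 : ℝ) : EReal) := by
    intro ε hε
    unfold Phi
    refine (iInf_le _ ⟨ε, hε⟩).trans ?_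
    refine sSup_le ?_
    rintro c ⟨r, F, hr, hsh, hrk, hss, hslope, rfl⟩
    obtain ⟨hiff, hrest⟩ := hT L p e hTF r F
    obtain ⟨hlat, hOF⟩ := hiff.mp hsh
    obtain ⟨-, hlead, hsl, hsst, hch⟩ := hrest hlat hOF hr hrk
    have hSst := hsst.mp hss
    have hab := abs_lt.mp hslope
    simp only at hab
    have hcc := hB (Fin r → L) F hlat hOF hSst hlead
    rw [hch]
    refine EReal.coe_le_coe_iff.mpr ?_
    have h3 : (cc F - p * mm F / 2 + (p : ℚ) ^ 2 / 4 - e) / 2 ≤ (slope L F) ^ 2 / 2 := by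
      rw [hsl]
      linarith [hcc, show ((mm F - p) / 2) ^ 2 = mm F ^ 2 / 4 - p * mm F / 2 + (p : ℚ) ^ 2 / 4 by ring]
    have h4 : ((((cc F - p * mm F / 2 + (p : ℚ) ^ 2 / 4 - e) / 2 : ℚ)) : ℝ) ≤
        (slope L F : ℝ) ^ 2 / 2 := by exact_mod_cast h3
    have h5 : (slope L F : ℝ) ^ 2 ≤ (ε + |t|) ^ 2 := by
      apply sq_le_sq'
      · linarith [hab.1, neg_abs_le t]
      · linarith [hab.2, le_abs_self t]
    linarith
  have hlim : Tendsto (fun ε : ℝ => (((ε + |t|) ^ 2 / 2 : ℝ) : EReal))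
      (nhdsWithin 0 (Set.Ioi 0)) (nhds (((0 + |t|) ^ 2 / 2 : ℝ) : EReal)) := by
    apply Tendsto.mono_left _ nhdsWithin_le_nhds
    apply (continuous_coe_real_ereal.tendsto _).comp
    have : Continuous fun ε : ℝ => (ε + |t|) ^ 2 / 2 := by fun_prop
    exact this.tendsto 0
  have hev : ∀ᶠ ε in nhdsWithin (0 : ℝ) (Set.Ioi 0),
      Phi L t ≤ (((ε + |t|) ^ 2 / 2 : ℝ) : EReal) := by
    filter_upwards [self_mem_nhdsWithin] with ε hε
    exact key ε hε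
  have h7 := ge_of_tendsto hlim hev
  rwa [zero_add, sq_abs] at h7

/-- The inheritance theorem, internal form. -/
theorem inherit (hPHG : SpecPHG) (L L' : Type) [Field L] [Algebra ℂ L] [Algebra K L]
    [IsScalarTower ℂ K L] [Field L'] [Algebra ℂ L'] [Algebra K L'] [IsScalarTower ℂ K L']
    [Algebra L L'] [IsScalarTower K L L'] [IsScalarTower ℂ L L'] (d a : ℕ) (y : L') (p : ℤ) (e : ℚ)
    (h : TG L p e) (hD : CCov L L' (strSheaf L) (strSheaf L') d a y)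
    (hB : ∀ t : ℝ, Phi L t ≤ ((t ^ 2 / 2 : ℝ) : EReal)) (η δ : ℚ) (hη : 0 < η) (hδ : 0 < δ)
    (hJ : ∀ t : ℝ, -(η : ℝ) < t → t < 0 → Phi L t ≤ ((t ^ 2 / 2 - (δ : ℝ) : ℝ) : EReal)) :
    TG L' (p - a * (d - 1)) (e + (a : ℚ) ^ 2 * ((d : ℚ) ^ 2 - 1) / 12) ∧
    (∀ t : ℝ, Phi L' t ≤ ((t ^ 2 / 2 : ℝ) : EReal)) ∧
    ∀ t : ℝ, -((η / 2 : ℚ) : ℝ) < t → t < 0 →
      Phi L' t ≤ ((t ^ 2 / 2 - ((min δ (min (a * η / 4) ((a : ℚ) ^ 2)) / d : ℚ) : ℝ) : ℝ) : EReal) := by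
  have hTRG : SpecTRG := specTRG
  have hMAG : SpecMAG := specMAG (specHNX specBDD) specQUO
  have hRND : SpecRND := specRND (specFIL specCDB specDIV)
  obtain ⟨g1, g2⟩ := hPHG L p e h
  have hBog := g1 hB
  have hQ := g2 η δ hη hδ hJ
  have hGood : Good L (strSheaf L) p e := by
    refine ⟨?_, 2 * η, by linarith, 2 * δ, by linarith, ?_⟩
    · intro V _ _ _ _ _ _ _ _ F
      exact hBog V F
    · intro V _ _ _ _ _ _ _ _ F
      exact hQ V F
  obtain ⟨h1, h2, h3⟩ := specFUC L L' d a y p e hD h.full h.lamO h.chiO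
  have hTG' : TG L' (p - a * (d - 1)) (e + (a : ℚ) ^ 2 * ((d : ℚ) ^ 2 - 1) / 12) :=
    ⟨h1, h2, h3, specOMC L L' d a y p hD h.full h.omega⟩
  have e1 : (((p - a * (d - 1) : ℤ)) : ℚ) = (p : ℚ) - a * (d - 1) := by push_cast; ring
  have hG' := specINC hMAG specCDB hRND specNUA specNUB L L' (strSheaf L) (strSheaf L') d a y h.full
    h1 hD p e hGood
  have hQ' := goodQ_step hMAG specCDB hRND specNUA specNUB L L' (strSheaf L) (strSheaf L') d a y
    h.full h1 hD p e (2 * η) (2 * δ) (by linarith) (by linarith) hGood hQ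
  refine ⟨hTG', fun t => phiBG hTRG L' _ _ hTG' ?_ t, fun t ht1 ht2 => ?_⟩
  · intro V _ _ _ _ _ _ _ _ F
    exact hG'.1 V F
  · rw [← e1] at hQ'
    have h4 := phiQG hTRG L' _ _ _ _ hTG' hQ' t (by
      have : 2 * η / 2 / 2 = η / 2 := by ring
      rw [this]; exact ht1) ht2
    have hd0 : (0 : ℚ) < d := by
      have := hD.deg
      exact_mod_cast (by omega : 0 < d)
    have e2 : min (2 * δ) (min (a * (2 * η) / 4) (2 * (a : ℚ) ^ 2)) / d / 2 =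
        min δ (min (a * η / 4) ((a : ℚ) ^ 2)) / d := by
      have e3 : a * (2 * η) / 4 = 2 * (a * η / 4) := by ring
      rw [e3, ← mul_min_of_nonneg _ _ (by norm_num : (0 : ℚ) ≤ 2),
        ← mul_min_of_nonneg _ _ (by norm_num : (0 : ℚ) ≤ 2)]
      field_simp
    rw [e2] at h4
    exact h4

end Pool.Agent.Lib.LP.TW
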