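import Pool.Agent.Lib.MP_865fc0_ag.TW.SpecG

/-!
# MP_865fc0_ag, TW: the inheritance theorem for surfaces with invertible canonical sheaf
-/

set_option autoImplicit false

open scoped Pointwise
open Filter

namespace Pool.Agent.Lib.LP.TW

namespace INGM

/-- from the bound on the level of the base surface to the bound upstairs -/
theorem step (hIVL : SpecIVL) (hOMI : SpecOMI) (L L' : Type) [Field L] [Algebra ℂ L] [Algebra K L]
    [IsScalarTower ℂ K L] [Field L'] [Algebra ℂ L'] [Algebra K L'] [IsScalarTower ℂ K L']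
    [Algebra L L'] [IsScalarTower K L L'] [IsScalarTower ℂ L L'] (d a : ℕ) (y : L')
    (M : Chart → Submodule ℂ L) (p : ℚ) (hD : CCov L L' (strSheaf L) (strSheaf L') d a y)
    (hO : Full L (strSheaf L)) (hO' : Full L' (strSheaf L'))
    (hI : Inv L (strSheaf L) (canonicalSheaf L) M)
    (hLam : LamW L (strSheaf L) (canonicalSheaf L) p)
    (V : Type) [AddCommGroup V] [Module ℂ V] [Module K V] [IsScalarTower ℂ K V] [Module L V]
    [IsScalarTower ℂ L V] [IsScalarTower K L V] [Module L' V] [IsScalarTower ℂ L' V]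
    [IsScalarTower K L' V] [IsScalarTower L L' V] [Module.Finite K V]
    (F : Chart → Submodule ℂ V) (hF : IsLat F) (hOF : strSheaf L' • F = F) :
    psi (canonicalSheaf L') F = psi (canonicalSheaf L) F +
      ((lam F : ℚ) - 2 * p * lead F) * (a * (d - 1)) / 2 + lead F * ((a : ℚ) * (d - 1)) ^ 2 / 2 := by
  have hd : ((a * (d - 1) : ℕ) : ℚ) = (a : ℚ) * ((d : ℚ) - 1) := by
    have := hD.deg
    rw [Nat.cast_mul, Nat.cast_sub (by omega)]
    norm_num
  have hOF' : strSheaf L • F = F :=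
    ((specCDB L L' (strSheaf L) (strSheaf L') d a y hO hO' hD V F hF).1 hOF).1
  obtain ⟨j1, -, -, j4, -⟩ := hIVL L (strSheaf L) (canonicalSheaf L) M hO hI V F hF hOF'
  have hχ := (hOMI L L' d a y M hD hO hO' hI).2 V F hF hOF
  have hl := hLam V F hF hOF'
  unfold psi
  rw [hχ, j1.chi_eq]
  have h1 : (lam (canonicalSheaf L • F) : ℚ) = ca (canonicalSheaf L • F) +
      cb (canonicalSheaf L • F) := by
    unfold lam
    push_cast
    ring
  rw [h1] at hl
  rw [j4]
  push_cast [hd] at hl ⊢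
  have hd' : (((d - 1 : ℕ) : ℕ) : ℚ) = (d : ℚ) - 1 := by
    have := hD.deg
    rw [Nat.cast_sub (by omega)]
    norm_num
  rw [hd']
  linear_combination ((a : ℚ) * (d - 1) / 2) * hl

end INGM

/-- The inheritance theorem, internal form. -/
theorem inheritG (hIVL : SpecIVL) (hLAW : SpecLAW) (hINW : SpecINW) (hOMI : SpecOMI)
    (hFUG : SpecFUG) (hPHW : SpecPHW) (hPHX : SpecPHX) (hPHY : SpecPHY) (hDUA : SpecDUA)
    (L L' : Type) [Field L] [Algebra ℂ L] [Algebra K L]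
    [IsScalarTower ℂ K L] [Field L'] [Algebra ℂ L'] [Algebra K L'] [IsScalarTower ℂ K L']
    [Algebra L L'] [IsScalarTower K L L'] [IsScalarTower ℂ L L'] (d a : ℕ) (y : L')
    (M : Chart → Submodule ℂ L) (p e : ℚ)
    (h : TH L M p e)
    (hD : CCov L L' (strSheaf L) (strSheaf L') d a y)
    (hB : ∀ t : ℝ, Phi L t ≤ ((t ^ 2 / 2 : ℝ) : EReal)) (η δ : ℚ) (hη : 0 < η) (hδ : 0 < δ)
    (hJ : ∀ t : ℝ, -(η : ℝ) < t → t < 0 → Phi L t ≤ ((t ^ 2 / 2 - (δ : ℝ) : ℝ) : EReal)) :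
    (∃ (M' : Chart → Submodule ℂ L') (p' e' : ℚ), TH L' M' p' e') ∧
    (chi (canonicalSheaf L) 0 0 = chi (strSheaf L) 0 0 →
      chi (canonicalSheaf L') 0 0 = chi (strSheaf L') 0 0 ∧ 0 ≤ Phi L' 0) ∧
    (∀ t : ℝ, Phi L' t ≤ ((t ^ 2 / 2 : ℝ) : EReal)) ∧
    ∀ t : ℝ, -((η / 2 : ℚ) : ℝ) < t → t < 0 →
      Phi L' t ≤ ((t ^ 2 / 2 - ((min δ (min (a * η / 4) ((a : ℚ) ^ 2)) / d : ℚ) : ℝ) : ℝ) : EReal) := by
  obtain ⟨g1, g2⟩ := hPHW L M p e h
  have hGood := g1 hB
  have hJump := g2 η δ hη hδ hJ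
  have hLam := hLAW L (strSheaf L) (canonicalSheaf L) M h.full h.inv p e hGood
  obtain ⟨h1, h2, h3⟩ := hFUG L L' d a y p e hD h.full h.lamO h.chiO
  obtain ⟨⟨M', hM'⟩, -⟩ := hOMI L L' d a y M hD h.full h1 h.inv
  have hTH' : TH L' M' (p - a * (d - 1)) (e + (a : ℚ) ^ 2 * ((d : ℚ) ^ 2 - 1) / 12 +
    ((a : ℚ) * (d - 1)) ^ 2 / 4 - p * (a * (d - 1)) / 2) := ⟨h1, hM', h2, h3⟩
  have hSD' := hDUA L L' d a y M p hD h.full h1 h.inv h.lamO hLam
  obtain ⟨i1, i2⟩ := hINW L L' (strSheaf L) (canonicalSheaf L) M (strSheaf L') d a y h.full h.inv h1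
    hD p e hGood
  have i3 := i2 (2 * η) (2 * δ) (by linarith) (by linarith) hJump
  have hgood' : GoodW L' (strSheaf L') (canonicalSheaf L') (p - a * (d - 1))
      (e + (a : ℚ) ^ 2 * ((d : ℚ) ^ 2 - 1) / 12 + ((a : ℚ) * (d - 1)) ^ 2 / 4 -
        p * (a * (d - 1)) / 2) := by
    intro V _ _ _ _ _ _ _ _ F hF hOF hS hlead
    letI iC : Module L V := Module.compHom V (algebraMap L L')
    have hsm : ∀ (c : L) (v : V), c • v = (algebraMap L L' c) • v := fun _ _ => rfl
    haveI i1' : IsScalarTower L L' V := ⟨fun c c' v => by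
      rw [hsm, Algebra.smul_def, mul_smul]⟩
    haveI i2' : IsScalarTower ℂ L V := ⟨fun z c v => by
      rw [hsm, hsm, Algebra.smul_def, map_mul, ← IsScalarTower.algebraMap_apply, ← Algebra.smul_def,
        smul_assoc]⟩
    haveI i3' : IsScalarTower K L V := ⟨fun z c v => by
      rw [hsm, hsm, Algebra.smul_def, map_mul, ← IsScalarTower.algebraMap_apply, ← Algebra.smul_def,
        smul_assoc]⟩
    have hst := INGM.step hIVL hOMI L L' d a y M p hD h.full h1 h.inv hLam V F hF hOF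
    have hb := i1 V F hF hOF hS hlead
    have hl : (0 : ℚ) < lead F := by exact_mod_cast hlead
    have hmm : (lam F : ℚ) = mm F * lead F := by
      unfold mm
      exact (div_mul_cancel₀ _ hl.ne').symm
    rw [hst, hmm]
    refine (add_le_add (add_le_add hb le_rfl) le_rfl).trans (le_of_eq ?_)
    ring
  have hjump' : JumpW L' (strSheaf L') (canonicalSheaf L') (p - a * (d - 1))
      (e + (a : ℚ) ^ 2 * ((d : ℚ) ^ 2 - 1) / 12 + ((a : ℚ) * (d - 1)) ^ 2 / 4 -
        p * (a * (d - 1)) / 2) (2 * η / 2)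
      (min (2 * δ) (min (a * (2 * η) / 4) (2 * a ^ 2)) / d) := by
    intro V _ _ _ _ _ _ _ _ F hF hOF hS hlead hm1 hm2
    letI iC : Module L V := Module.compHom V (algebraMap L L')
    have hsm : ∀ (c : L) (v : V), c • v = (algebraMap L L' c) • v := fun _ _ => rfl
    haveI i1' : IsScalarTower L L' V := ⟨fun c c' v => by
      rw [hsm, Algebra.smul_def, mul_smul]⟩
    haveI i2' : IsScalarTower ℂ L V := ⟨fun z c v => by
      rw [hsm, hsm, Algebra.smul_def, map_mul, ← IsScalarTower.algebraMap_apply, ← Algebra.smul_def,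
        smul_assoc]⟩
    haveI i3' : IsScalarTower K L V := ⟨fun z c v => by
      rw [hsm, hsm, Algebra.smul_def, map_mul, ← IsScalarTower.algebraMap_apply, ← Algebra.smul_def,
        smul_assoc]⟩
    have hst := INGM.step hIVL hOMI L L' d a y M p hD h.full h1 h.inv hLam V F hF hOF
    have hb := i3 V F hF hOF hS hlead hm1 hm2
    have hl : (0 : ℚ) < lead F := by exact_mod_cast hlead
    have hmm : (lam F : ℚ) = mm F * lead F := by
      unfold mm
      exact (div_mul_cancel₀ _ hl.ne').symm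
    rw [hst, hmm]
    refine (add_le_add (add_le_add hb le_rfl) le_rfl).trans (le_of_eq ?_)
    ring
  obtain ⟨k1, k2⟩ := hPHX L' M' _ _ hTH'
  refine ⟨⟨M', _, _, hTH'⟩, fun hSD => ⟨hSD' hSD, hPHY L' M' _ _ hTH' (hSD' hSD)⟩, k1 hgood', fun t ht1 ht2 => ?_⟩
  have h4 := k2 _ _ hjump' t (by
      have : 2 * η / 2 / 2 = η / 2 := by ring
      rw [this]; exact ht1) ht2
  have hd0 : (0 : ℚ) < d := by
    have := hD.deg
    exact_mod_cast (by omega : 0 < d)
  have e2 : min (2 * δ) (min (a * (2 * η) / 4) (2 * (a : ℚ) ^ 2)) / d / 2 =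
      min δ (min (a * η / 4) ((a : ℚ) ^ 2)) / d := by
    have e3 : a * (2 * η) / 4 = 2 * (a * η / 4) := by ring
    rw [e3, ← mul_min_of_nonneg _ _ (by norm_num : (0 : ℚ) ≤ 2),
      ← mul_min_of_nonneg _ _ (by norm_num : (0 : ℚ) ≤ 2)]
    field_simp
  rw [e2] at h4
  exact h4

end Pool.Agent.Lib.LP.TW
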