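import Pool.Agent.Lib.MP_865fc0_ag.TW.Spec

/-!
# Module KOS: the Koszul complex
-/

set_option autoImplicit false

open scoped Pointwise
open Filter

namespace Pool.Agent.Lib.LP.TW

noncomputable section

namespace KOSM

section abstract

variable {M P Q V : Type} [AddCommGroup M] [Module ℂ M] [AddCommGroup P] [Module ℂ P]
  [AddCommGroup Q] [Module ℂ Q] [AddCommGroup V] [Module ℂ V]

def v00 : (M × M) × (M × M) →ₗ[ℂ] M := LinearMap.fst ℂ M M ∘ₗ LinearMap.fst ℂ (M × M) (M × M)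
def v01 : (M × M) × (M × M) →ₗ[ℂ] M := LinearMap.snd ℂ M M ∘ₗ LinearMap.fst ℂ (M × M) (M × M)
def v10 : (M × M) × (M × M) →ₗ[ℂ] M := LinearMap.fst ℂ M M ∘ₗ LinearMap.snd ℂ (M × M) (M × M)
def v11 : (M × M) × (M × M) →ₗ[ℂ] M := LinearMap.snd ℂ M M ∘ₗ LinearMap.snd ℂ (M × M) (M × M)

def D0 (a b : M →ₗ[ℂ] P) (c d : M →ₗ[ℂ] Q) : (M × M) × (M × M) →ₗ[ℂ] (P × P) × (Q × Q) :=
  LinearMap.prod (LinearMap.prod (a ∘ₗ v11 - b ∘ₗ v01) (b ∘ₗ v00 - a ∘ₗ v10))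
    (LinearMap.prod (d ∘ₗ v10 - c ∘ₗ v11) (c ∘ₗ v01 - d ∘ₗ v00))

def D1 (e f : P →ₗ[ℂ] V) (g h : Q →ₗ[ℂ] V) : (P × P) × (Q × Q) →ₗ[ℂ] V :=
  (e ∘ₗ LinearMap.fst ℂ P P ∘ₗ LinearMap.fst ℂ (P × P) (Q × Q) +
    f ∘ₗ LinearMap.snd ℂ P P ∘ₗ LinearMap.fst ℂ (P × P) (Q × Q)) +
  (g ∘ₗ LinearMap.fst ℂ Q Q ∘ₗ LinearMap.snd ℂ (P × P) (Q × Q) +
    h ∘ₗ LinearMap.snd ℂ Q Q ∘ₗ LinearMap.snd ℂ (P × P) (Q × Q))

theorem D0_apply (a b : M →ₗ[ℂ] P) (c d : M →ₗ[ℂ] Q) (w : (M × M) × (M × M)) :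
    D0 a b c d w = ((a w.2.2 - b w.1.2, b w.1.1 - a w.2.1), (d w.2.1 - c w.2.2,
      c w.1.2 - d w.1.1)) := rfl

theorem D1_apply (e f : P →ₗ[ℂ] V) (g h : Q →ₗ[ℂ] V) (z : (P × P) × (Q × Q)) :
    D1 e f g h z = (e z.1.1 + f z.1.2) + (g z.2.1 + h z.2.2) := rfl

theorem kos_dim [Module.Finite ℂ M] [Module.Finite ℂ P] [Module.Finite ℂ Q]
    (a b : M →ₗ[ℂ] P) (c d : M →ₗ[ℂ] Q) (e f : P →ₗ[ℂ] V) (g h : Q →ₗ[ℂ] V)
    (E : Submodule ℂ V)
    (h1 : ∀ m, e (a m) = g (c m)) (h2 : ∀ m, e (b m) = h (c m)) (h3 : ∀ m, f (a m) = g (d m))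
    (h4 : ∀ m, f (b m) = h (d m))
    (hinj : ∀ w : (M × M) × (M × M), a w.2.1 = b w.1.1 → a w.2.2 = b w.1.2 → c w.1.2 = d w.1.1 →
      c w.2.2 = d w.2.1 → w = 0)
    (hE : ∀ y ∈ E, ∃ (p p' : P) (q q' : Q), y = (e p + f p') + (g q + h q')) :
    4 * Module.finrank ℂ M + Module.finrank ℂ E ≤
      2 * Module.finrank ℂ P + 2 * Module.finrank ℂ Q := by
  have hr := LinearMap.finrank_range_add_finrank_ker (D1 e f g h)
  rw [Module.finrank_prod, Module.finrank_prod, Module.finrank_prod] at hr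
  have hker : LinearMap.ker (D0 a b c d) = ⊥ := by
    rw [LinearMap.ker_eq_bot']
    intro w hw
    rw [D0_apply, Prod.mk_eq_zero, Prod.mk_eq_zero, Prod.mk_eq_zero] at hw
    obtain ⟨⟨e1, e2⟩, e3, e4⟩ := hw
    exact hinj w (sub_eq_zero.mp e2).symm (sub_eq_zero.mp e1) (sub_eq_zero.mp e4)
      (sub_eq_zero.mp e3).symm
  have h0 := LinearMap.finrank_range_of_inj (LinearMap.ker_eq_bot.mp hker)
  rw [Module.finrank_prod, Module.finrank_prod] at h0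
  have hle : LinearMap.range (D0 a b c d) ≤ LinearMap.ker (D1 e f g h) := by
    rintro _ ⟨w, rfl⟩
    rw [LinearMap.mem_ker, D0_apply, D1_apply]
    simp only [map_sub, h1, h2, h3, h4]
    abel
  have hm := Submodule.finrank_mono hle
  have hE' : E ≤ LinearMap.range (D1 e f g h) := by
    intro y hy
    obtain ⟨p, p', q, q', hpq⟩ := hE y hy
    exact ⟨((p, p'), (q, q')), hpq.symm⟩
  have hn := Submodule.finrank_mono hE'
  omega

end abstract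

section sections

variable {V : Type} [AddCommGroup V] [Module ℂ V] [Module K V] [IsScalarTower ℂ K V]
variable {F : Chart → Submodule ℂ V}

/-- multiplication by an element of `K` -/
def mk (k : K) : V →ₗ[ℂ] V where
  toFun v := k • v
  map_add' := smul_add k
  map_smul' c v := by rw [RingHom.id_apply, smul_comm]

theorem mk_apply (k : K) (v : V) : mk k v = k • v := rfl

theorem dim_gen (k k' : K) (M P Q E : Submodule ℂ V) [Module.Finite ℂ M] [Module.Finite ℂ P]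
    [Module.Finite ℂ Q] (hMP : M ≤ P) (hMQ : M ≤ Q) (hk : ∀ v ∈ M, mk k v ∈ P)
    (hk' : ∀ v ∈ M, mk k' v ∈ Q)
    (hinj : ∀ v ∈ M, k • v ∈ M → k' • v ∈ M → k • k' • v ∈ M → v = 0)
    (hE : ∀ y ∈ E, ∃ p ∈ P, ∃ p' ∈ P, ∃ q ∈ Q, ∃ q' ∈ Q, y = (p + k' • p') + (q + k • q')) :
    4 * Module.finrank ℂ M + Module.finrank ℂ E ≤
      2 * Module.finrank ℂ P + 2 * Module.finrank ℂ Q := by
  refine kos_dim (Submodule.inclusion hMP) ((mk k).restrict hk) (Submodule.inclusion hMQ)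
    ((mk k').restrict hk') P.subtype (mk k' ∘ₗ P.subtype) Q.subtype (mk k ∘ₗ Q.subtype) E
    (fun m => rfl) (fun m => rfl) (fun m => rfl) (fun m => smul_comm k' k (m : V)) ?_ ?_
  · rintro ⟨⟨a, b⟩, ⟨c, d⟩⟩ e1 e2 e3 e4
    have f1 : (c : V) = k • (a : V) := congrArg Subtype.val e1
    have f2 : (d : V) = k • (b : V) := congrArg Subtype.val e2
    have f3 : (b : V) = k' • (a : V) := congrArg Subtype.val e3
    have ha : (a : V) = 0 := hinj a a.2 (by rw [← f1]; exact c.2) (by rw [← f3]; exact b.2)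
      (by rw [← f3, ← f2]; exact d.2)
    rw [ha, smul_zero] at f1 f3
    rw [f3, smul_zero] at f2
    have ga : a = 0 := Subtype.ext ha
    have gb : b = 0 := Subtype.ext f3
    have gc : c = 0 := Subtype.ext f1
    have gd : d = 0 := Subtype.ext f2
    rw [ga, gb, gc, gd]
    rfl
  · intro y hy
    obtain ⟨p, hp, p', hp', q, hq, q', hq', h⟩ := hE y hy
    exact ⟨⟨p, hp⟩, ⟨p', hp'⟩, ⟨q, hq⟩, ⟨q', hq'⟩, h⟩

theorem pow_mem_R {s : Chart} {k : K} (h : k ∈ R s) (n : ℕ) : k ^ n ∈ R s :=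
  (Ralg s).pow_mem h n

theorem coefx (s : Chart) (i k : ℕ) (h : i ≤ k) : (wx s ^ k)⁻¹ * x ^ i ∈ R s := by
  rcases hs : s.1 with _ | _
  · have hw : wx s = 1 := by simp [wx, hs]
    rw [hw, one_pow, inv_one, one_mul]
    exact pow_mem_R (x_mem_R hs) i
  · have hw : wx s = x := by simp [wx, hs]
    rw [hw]
    obtain ⟨j, rfl⟩ := Nat.exists_eq_add_of_le h
    have h1 : (x ^ (i + j))⁻¹ * x ^ i = (x⁻¹) ^ j := by
      rw [pow_add, mul_inv, mul_right_comm, inv_mul_cancel₀ (pow_ne_zero _ x_ne_zero), one_mul,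
        inv_pow]
    rw [h1]
    exact pow_mem_R (x_inv_mem_R hs) j

theorem coefu (s : Chart) (i k : ℕ) (h : i ≤ k) : (wu s ^ k)⁻¹ * u ^ i ∈ R s := by
  rcases hs : s.2 with _ | _
  · have hw : wu s = 1 := by simp [wu, hs]
    rw [hw, one_pow, inv_one, one_mul]
    exact pow_mem_R (u_mem_R hs) i
  · have hw : wu s = u := by simp [wu, hs]
    rw [hw]
    obtain ⟨j, rfl⟩ := Nat.exists_eq_add_of_le h
    have h1 : (u ^ (i + j))⁻¹ * u ^ i = (u⁻¹) ^ j := by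
      rw [pow_add, mul_inv, mul_right_comm, inv_mul_cancel₀ (pow_ne_zero _ u_ne_zero), one_mul,
        inv_pow]
    rw [h1]
    exact pow_mem_R (u_inv_mem_R hs) j

theorem mulx (hF : IsLat F) (a b : ℤ) (i k : ℕ) (h : i ≤ k) {v : V} (hv : v ∈ Sec F a b) :
    x ^ i • v ∈ Sec F (a + k) b := by
  rw [mem_Sec] at hv ⊢
  intro s
  have h1 := hF.smul_mem (coefx s i k h) (hv s)
  have h2 : (wx s ^ (a + (k : ℤ)) * wu s ^ b)⁻¹ • x ^ i • v =
      ((wx s ^ k)⁻¹ * x ^ i) • (wx s ^ a * wu s ^ b)⁻¹ • v := by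
    rw [smul_smul, smul_smul]
    congr 1
    rw [zpow_add₀ (wx_ne_zero s), zpow_natCast, mul_inv, mul_inv, mul_inv]
    ring
  rw [h2]
  exact h1

theorem mulu (hF : IsLat F) (a b : ℤ) (i k : ℕ) (h : i ≤ k) {v : V} (hv : v ∈ Sec F a b) :
    u ^ i • v ∈ Sec F a (b + k) := by
  rw [mem_Sec] at hv ⊢
  intro s
  have h1 := hF.smul_mem (coefu s i k h) (hv s)
  have h2 : (wx s ^ a * wu s ^ (b + (k : ℤ)))⁻¹ • u ^ i • v =
      ((wu s ^ k)⁻¹ * u ^ i) • (wx s ^ a * wu s ^ b)⁻¹ • v := by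
    rw [smul_smul, smul_smul]
    congr 1
    rw [zpow_add₀ (wu_ne_zero s), zpow_natCast, mul_inv, mul_inv, mul_inv]
    ring
  rw [h2]
  exact h1

theorem lex (hF : IsLat F) (a b : ℤ) (k : ℕ) : Sec F a b ≤ Sec F (a + k) b := by
  intro v hv
  have h := mulx hF a b 0 k (Nat.zero_le k) hv
  rwa [pow_zero, one_smul] at h

theorem leu (hF : IsLat F) (a b : ℤ) (k : ℕ) : Sec F a b ≤ Sec F a (b + k) := by
  intro v hv
  have h := mulu hF a b 0 k (Nat.zero_le k) hv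
  rwa [pow_zero, one_smul] at h

/-- a section of `F(N,N)` which stays one after multiplication by `x^N`, `u^N`, `x^N u^N` is a
section of `F` -/
theorem down (N : ℕ) {v : V} (h00 : v ∈ Sec F N N) (h10 : x ^ N • v ∈ Sec F N N)
    (h01 : u ^ N • v ∈ Sec F N N) (h11 : x ^ N • u ^ N • v ∈ Sec F N N) : v ∈ Sec F 0 0 := by
  rw [mem_Sec]
  intro s
  rw [zpow_zero, zpow_zero, one_mul, inv_one, one_smul]
  have key : (wx s ^ N * wu s ^ N) • v ∈ Sec F N N := by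
    rcases hs : s.1 with _ | _ <;> rcases ht : s.2 with _ | _
    · have hw : wx s = 1 := by simp [wx, hs]
      have hw' : wu s = 1 := by simp [wu, ht]
      rw [hw, hw', one_pow, one_mul, one_smul]
      exact h00
    · have hw : wx s = 1 := by simp [wx, hs]
      have hw' : wu s = u := by simp [wu, ht]
      rw [hw, hw', one_pow, one_mul]
      exact h01
    · have hw : wx s = x := by simp [wx, hs]
      have hw' : wu s = 1 := by simp [wu, ht]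
      rw [hw, hw', one_pow, mul_one]
      exact h10
    · have hw : wx s = x := by simp [wx, hs]
      have hw' : wu s = u := by simp [wu, ht]
      rw [hw, hw', mul_smul]
      exact h11
  have h := mem_Sec.mp key s
  rw [smul_smul, zpow_natCast, zpow_natCast, inv_mul_cancel₀ (mul_ne_zero
    (pow_ne_zero _ (wx_ne_zero s)) (pow_ne_zero _ (wu_ne_zero s))), one_smul] at h
  exact h

end sections

end KOSM

open KOSM in
theorem specKOS : SpecKOS := by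
  intro V _ _ _ _ _ F hF h0 N hNN h2N hN2 h22 hBd
  have e2 : (2 * (N : ℤ)) = (N : ℤ) + (N : ℕ) := by ring
  -- finiteness
  have hfE : Module.Finite ℂ (Sec F (2 * (N : ℤ)) (2 * (N : ℤ))) := by
    have h := hF.fg_Sec (2 * N)
    rw [Nat.cast_mul, Nat.cast_ofNat] at h
    exact Module.Finite.iff_fg.2 h
  have hMP : Sec F (N : ℤ) (N : ℤ) ≤ Sec F (2 * (N : ℤ)) (N : ℤ) := by
    rw [e2]
    exact lex hF _ _ N
  have hMQ : Sec F (N : ℤ) (N : ℤ) ≤ Sec F (N : ℤ) (2 * (N : ℤ)) := by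
    rw [e2]
    exact leu hF _ _ N
  have hPE : Sec F (2 * (N : ℤ)) (N : ℤ) ≤ Sec F (2 * (N : ℤ)) (2 * (N : ℤ)) := by
    have h := leu hF (2 * (N : ℤ)) (N : ℤ) N
    rwa [← e2] at h
  have hQE : Sec F (N : ℤ) (2 * (N : ℤ)) ≤ Sec F (2 * (N : ℤ)) (2 * (N : ℤ)) := by
    have h := lex hF (N : ℤ) (2 * (N : ℤ)) N
    rwa [← e2] at h
  have hxM : ∀ v ∈ Sec F (N : ℤ) (N : ℤ), mk (x ^ N) v ∈ Sec F (2 * (N : ℤ)) (N : ℤ) := by
    intro v hv
    have h := mulx hF _ _ N N le_rfl hv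
    rwa [← e2] at h
  have huM : ∀ v ∈ Sec F (N : ℤ) (N : ℤ), mk (u ^ N) v ∈ Sec F (N : ℤ) (2 * (N : ℤ)) := by
    intro v hv
    have h := mulu hF _ _ N N le_rfl hv
    rwa [← e2] at h
  have hfP : Module.Finite ℂ (Sec F (2 * (N : ℤ)) (N : ℤ)) :=
    Submodule.finiteDimensional_of_le hPE
  have hfQ : Module.Finite ℂ (Sec F (N : ℤ) (2 * (N : ℤ))) :=
    Submodule.finiteDimensional_of_le hQE
  have hfM : Module.Finite ℂ (Sec F (N : ℤ) (N : ℤ)) :=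
    Submodule.finiteDimensional_of_le (hMP.trans hPE)
  have hdim := dim_gen (x ^ N) (u ^ N) (Sec F (N : ℤ) (N : ℤ)) (Sec F (2 * (N : ℤ)) (N : ℤ))
    (Sec F (N : ℤ) (2 * (N : ℤ))) (Sec F (2 * (N : ℤ)) (2 * (N : ℤ))) hMP hMQ hxM huM ?_ ?_
  · obtain ⟨A, α, β, γ, hp⟩ := hF.chi_bil
    have h1 : (4 : ℤ) * LP.h0 F N N + LP.h0 F (2 * N : ℤ) (2 * N : ℤ) ≤
        2 * LP.h0 F (2 * N : ℤ) N + 2 * LP.h0 F N (2 * N : ℤ) := by
      unfold LP.h0
      exact_mod_cast hdim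
    rw [hNN, h2N, hN2, h22, hp, hp, hp, hp] at h1
    rw [hp]
    linarith
  · intro v h1 h2 h3 h4
    have h := down (F := F) N h1 h2 h3 h4
    rw [h0] at h
    exact (Submodule.mem_bot ℂ).mp h
  · intro y hy
    have h := hBd hy
    unfold Bd at h
    obtain ⟨y1, h1, y2, h2, rfl⟩ := Submodule.mem_sup.mp h
    obtain ⟨q, hq, z1, hz1, rfl⟩ := Submodule.mem_sup.mp h1
    obtain ⟨p, hp, z2, hz2, rfl⟩ := Submodule.mem_sup.mp h2
    obtain ⟨q', hq', rfl⟩ := mem_line_smul.mp hz1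
    obtain ⟨p', hp', rfl⟩ := mem_line_smul.mp hz2
    exact ⟨p, hp, p', hp', q, hq, q', hq', add_comm _ _⟩

end

end Pool.Agent.Lib.LP.TW
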