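import Pool.Agent.Lib.MP_865fc0_ag.TW.SpecG

/-!
# MP_865fc0_ag, TW, module LAS: the degree of `F ⊗ W` for semistable `F`, from Bogomolov's inequality
for all twists `F(m,m)`
-/

set_option autoImplicit false

open scoped Pointwise
open Filter

namespace Pool.Agent.Lib.LP.TW

noncomputable section

namespace LASM

section

variable {V : Type} [AddCommGroup V] [Module ℂ V] [Module K V] [IsScalarTower ℂ K V]

lemma tw_mono {F G : Chart → Submodule ℂ V} (h : F ≤ G) (a b : ℤ) : tw a b F ≤ tw a b G := by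
  intro s v hv
  rw [mem_tw] at hv ⊢
  exact h s hv

variable [Module.Finite K V]

lemma lead_tw {F : Chart → Submodule ℂ V} (hF : IsLat F) (n : ℤ) : lead (tw n n F) = lead F := by
  have h := hF.chi_eq
  unfold lead at h ⊢
  rw [hF.chi_tw, hF.chi_tw, hF.chi_tw, hF.chi_tw]
  rw [h (1 + n) (1 + n), h (1 + n) (0 + n), h (0 + n) (1 + n), h (0 + n) (0 + n)]
  ring

lemma lam_tw {F : Chart → Submodule ℂ V} (hF : IsLat F) (n : ℤ) :
    lam (tw n n F) = lam F + 2 * n * lead F := by
  rw [lam_eq, lam_eq, hF.chi_tw, hF.chi_tw, hF.chi_tw]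
  rw [hF.chi_eq (1 + n) (0 + n), hF.chi_eq (0 + n) (1 + n), hF.chi_eq (0 + n) (0 + n)]
  unfold ca cb
  ring

lemma chi_tw0 {F : Chart → Submodule ℂ V} (hF : IsLat F) (n : ℤ) :
    chi (tw n n F) 0 0 = chi F 0 0 + n * lam F + n ^ 2 * lead F := by
  rw [hF.chi_tw, hF.chi_eq (0 + n) (0 + n)]
  unfold lam
  ring

lemma sst_tw {C : Type} [Field C] [Algebra ℂ C] [Algebra K C] [IsScalarTower ℂ K C] [Module C V]
    [IsScalarTower ℂ C V] [IsScalarTower K C V] {O : Chart → Submodule ℂ C}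
    {F : Chart → Submodule ℂ V} (hF : IsLat F) (hS : Sst O F) (n : ℤ) : Sst O (tw n n F) := by
  intro E' hE' hOE' hE'F
  have h1 : IsLat (tw (-n) (-n) E') := hE'.tw _ _
  have h2 : O • tw (-n) (-n) E' = tw (-n) (-n) E' := by rw [smul_tw, hOE']
  have h3 : tw (-n) (-n) E' ≤ F := by
    have := tw_mono hE'F (-n) (-n)
    rwa [tw_tw, neg_add_cancel, tw_zero] at this
  have h4 := hS _ h1 h2 h3
  rw [lam_tw hE', lead_tw hE'] at h4
  rw [lam_tw hF, lead_tw hF]
  nlinarith

end

lemma eq_zero_of_forall {x y : ℚ} (h : ∀ m : ℤ, (m : ℚ) * x ≤ y) : x = 0 := by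
  rcases lt_trichotomy x 0 with hx | hx | hx
  · exfalso
    obtain ⟨n, hn⟩ := exists_int_gt (y / (-x))
    have h1 := h (-n)
    rw [div_lt_iff₀ (by linarith : (0 : ℚ) < -x)] at hn
    push_cast at h1
    linarith
  · exact hx
  · exfalso
    obtain ⟨n, hn⟩ := exists_int_gt (y / x)
    have h1 := h n
    rw [div_lt_iff₀ hx] at hn
    linarith

end LASM

open LASM in
theorem specLAS (hIVL : SpecIVL) : SpecLAS := by
  intro C _ _ _ _ O W W' hFull hInv p e hG V _ _ _ _ _ _ _ _ F hF hOF hS hpos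
  obtain ⟨hWF, -, -, hlead, -⟩ := hIVL C O W W' hFull hInv V F hF hOF
  have hl : (0 : ℚ) < (lead F : ℚ) := by exact_mod_cast hpos
  have hkey : ∀ m : ℤ, (m : ℚ) * (((lam (W • F) : ℚ) - lam F) / 2 + p * lead F) ≤
      ((mm F - p) ^ 2 / 4 + e) * lead F - psi W F := by
    intro m
    have h1 := hG V (tw m m F) (hF.tw _ _) (by rw [smul_tw, hOF]) (sst_tw hF hS m)
      (by rw [lead_tw hF]; exact hpos)
    have h2 : mm (tw m m F) = mm F + 2 * m := by
      unfold mm
      rw [lead_tw hF, lam_tw hF]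
      push_cast
      field_simp
    have h3 : psi W (tw m m F) = psi W F + m * ((lam F : ℚ) + lam (W • F)) / 2 + m ^ 2 * lead F := by
      unfold psi
      rw [smul_tw, chi_tw0 hF, chi_tw0 hWF, hlead]
      push_cast
      ring
    rw [h2, h3, lead_tw hF] at h1
    have h4 : (mm F) * lead F = lam F := by
      unfold mm
      field_simp
    have h5 : ((mm F + 2 * m - p) ^ 2 / 4 + e) * (lead F : ℚ) =
        ((mm F - p) ^ 2 / 4 + e) * lead F + m * (mm F * lead F - p * lead F) + m ^ 2 * lead F := by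
      ring
    rw [h5, h4] at h1
    linarith
  have h0 := eq_zero_of_forall hkey
  linarith

end

end Pool.Agent.Lib.LP.TW
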