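import Pool.Agent.Lib.MP_865fc0_ag.TW.SpecG

/-!
# MP_865fc0_ag, TW, module LAW (helper99): the degree of `F ⊗ W`
-/

set_option autoImplicit false

open scoped Pointwise
open Filter

namespace Pool.Agent.Lib.LP.TW

noncomputable section

namespace LAWM

section

variable {V : Type} [AddCommGroup V] [Module ℂ V] [Module K V] [IsScalarTower ℂ K V]
variable {C : Type} [Field C] [Algebra ℂ C] [Module C V] [IsScalarTower ℂ C V]

lemma lead_add {V' V'' : Type} [AddCommGroup V'] [Module ℂ V'] [Module K V'] [IsScalarTower ℂ K V']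
    [AddCommGroup V''] [Module ℂ V''] [Module K V''] [IsScalarTower ℂ K V'']
    {F : Chart → Submodule ℂ V} {G : Chart → Submodule ℂ V'} {H : Chart → Submodule ℂ V''}
    (h : ∀ a b, chi F a b = chi G a b + chi H a b) : lead F = lead G + lead H := by
  unfold lead
  rw [h, h, h, h]
  ring

lemma lam_add {V' V'' : Type} [AddCommGroup V'] [Module ℂ V'] [Module K V'] [IsScalarTower ℂ K V']
    [AddCommGroup V''] [Module ℂ V''] [Module K V''] [IsScalarTower ℂ K V'']
    {F : Chart → Submodule ℂ V} {G : Chart → Submodule ℂ V'} {H : Chart → Submodule ℂ V''}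
    (h : ∀ a b, chi F a b = chi G a b + chi H a b) : lam F = lam G + lam H := by
  rw [lam_eq, lam_eq, lam_eq, h, h, h]
  ring

lemma smul_bot_eq (O : Chart → Submodule ℂ C) :
    O • (⊥ : Chart → Submodule ℂ V) = ⊥ := by
  funext s
  rw [Pi.smul_apply', Pi.bot_apply, Submodule.smul_bot]

end

end LAWM

open LAWM in
theorem specLAW (hHNX : SpecHNX) (hQUW : SpecQUW) (hLAS : SpecLAS) : SpecLAW := by
  intro C _ _ _ _ O W W' hO hI p e hg
  have main : ∀ (N : ℕ) (V : Type) [AddCommGroup V] [Module ℂ V] [Module K V]
      [IsScalarTower ℂ K V] [Module C V] [IsScalarTower ℂ C V] [IsScalarTower K C V]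
      [Module.Finite K V] (F : Chart → Submodule ℂ V), IsLat F → O • F = F →
      lead F = (N : ℤ) → (lam (W • F) : ℚ) = lam F - 2 * p * lead F := by
    intro N
    induction N using Nat.strong_induction_on with
    | _ N ih =>
    intro V _ _ _ _ _ _ _ _ F hF hOF hn
    rcases (hF.lead_nonneg).lt_or_eq with hpos | h0
    · by_cases hS : Sst O F
      · exact hLAS C O W W' hO hI p e hg V F hF hOF hS hpos
      · obtain ⟨E, hE, hOE, hEF, hEpos, hmax⟩ := hHNX C O V F hF hOF hpos
        obtain ⟨E₁, hE₁, hOE₁, hEE₁, hE₁F, hlead, V', i1, i2, i3, i4, i5, i6, i7, i8, F', hF', hOF',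
          hchi, hchiW, hlift⟩ := hQUW C O W W' hO hI V F E hF hOF hE hOE hEF
        have hlam1 : lam E ≤ lam E₁ := hE.lam_le hE₁ hEE₁ hlead.symm
        have hlam2 : lam E₁ ≤ lam E := by
          have := hmax E₁ hE₁ hOE₁ hE₁F
          rw [hlead] at this
          exact le_of_mul_le_mul_right this hEpos
        have hlam : lam E₁ = lam E := le_antisymm hlam2 hlam1
        have hE₁pos : 0 < lead E₁ := by rw [hlead]; exact hEpos
        have hmax' : ∀ E' : Chart → Submodule ℂ V, IsLat E' → O • E' = E' → E' ≤ F →
            lam E' * lead E₁ ≤ lam E₁ * lead E' := by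
          intro E' a b c
          rw [hlead, hlam]
          exact hmax E' a b c
        have hleadF : lead F = lead E₁ + lead F' := lead_add hchi
        have hlamF : lam F = lam E₁ + lam F' := lam_add hchi
        have hlamW : lam (W • F) = lam (W • E₁) + lam (W • F') := lam_add hchiW
        have hF'0 : 0 ≤ lead F' := hF'.lead_nonneg
        have hF'pos : 0 < lead F' := by
          rcases hF'0.lt_or_eq with h | h
          · exact h
          · exfalso
            apply hS
            have e1 : lead E₁ = lead F := by rw [hleadF, ← h, add_zero]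
            have e2 : lam E₁ ≤ lam F := hE₁.lam_le hF hE₁F e1
            intro E' a b c
            have e3 := hmax' E' a b c
            rw [e1] at e3
            exact e3.trans (mul_le_mul_of_nonneg_right e2 a.lead_nonneg)
        have c₁ : (lam (W • E₁) : ℚ) = lam E₁ - 2 * p * lead E₁ := by
          refine ih (lead E₁).toNat ?_ V E₁ hE₁ hOE₁ (by rw [Int.toNat_of_nonneg hE₁pos.le])
          omega
        have c₂ : (lam (W • F') : ℚ) = lam F' - 2 * p * lead F' := by
          refine ih (lead F').toNat ?_ V' F' hF' hOF' (by rw [Int.toNat_of_nonneg hF'0])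
          omega
        rw [hlamW, hleadF, hlamF]
        push_cast
        rw [c₁, c₂]
        ring
    · have hb : F = ⊥ := hF.eq_bot_of_lead h0.symm
      subst hb
      rw [smul_bot_eq, ← h0, lam_bot]
      simp
  intro V _ _ _ _ _ _ _ _ F hF hOF
  exact main (lead F).toNat V F hF hOF (by rw [Int.toNat_of_nonneg hF.lead_nonneg])

end

end Pool.Agent.Lib.LP.TW
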