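import Pool.Agent.Lib.MP_865fc0_ag.TW.Spec

/-!
# MP_865fc0_ag, TW: module LIM
-/

set_option autoImplicit false

open scoped Pointwise

namespace Pool.Agent.Lib.LP.TW

namespace LIMM

variable {V : Type} [AddCommGroup V] [Module ℂ V] [Module K V] [IsScalarTower ℂ K V]

theorem line_pow_smul (a : K) (k : ℕ) (M : Submodule ℂ V) :
    line a • line (a ^ k) • M = line (a ^ (k + 1)) • M := by
  rw [smul_smul_sub, line_mul_line, pow_succ']

theorem Bd_step (hBDM : SpecBDM) {F : Chart → Submodule ℂ V} (hF : IsLat F) {N M M' : ℕ}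
    (hNM : N ≤ M) (hMM : M ≤ M') {v : V} (h : (x * u) ^ (M - N) • v ∈ Bd F M) :
    (x * u) ^ (M' - N) • v ∈ Bd F M' := by
  induction M', hMM using Nat.le_induction with
  | base => exact h
  | succ m hm ih =>
    apply (hBDM V F hF m).1
    have e : m + 1 - N = (m - N) + 1 := by omega
    rw [e, pow_succ', mul_smul]
    exact Submodule.smul_mem_smul (mem_line_self _) ih

theorem step (hBDM : SpecBDM) {F : Chart → Submodule ℂ V} (hF : IsLat F) {N : ℕ}
    (hS : ∀ M : ℕ, N ≤ M →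
      Sec F (2 * ((M + 1 : ℕ) : ℤ)) (2 * ((M + 1 : ℕ) : ℤ)) ≤
        line (x * u) • Sec F (2 * M : ℤ) (2 * M : ℤ) ⊔ Bd F (M + 1)) (k : ℕ) :
    Sec F (2 * ((N + k : ℕ) : ℤ)) (2 * ((N + k : ℕ) : ℤ)) ≤
      line ((x * u) ^ k) • Sec F (2 * N : ℤ) (2 * N : ℤ) ⊔ Bd F (N + k) := by
  induction k with
  | zero =>
    rw [pow_zero, line_one, Submodule.one_smul]
    exact le_sup_left
  | succ k ih =>
    refine (hS (N + k) (by omega)).trans ?_
    refine sup_le ?_ le_sup_right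
    refine (Submodule.smul_mono le_rfl ih).trans ?_
    rw [Submodule.smul_sup, line_pow_smul]
    exact sup_le_sup_left (hBDM V F hF (N + k)).1 _

end LIMM

theorem specLIM (hBDM : SpecBDM) (hSUR : SpecSUR) : SpecLIM := by
  intro V _ _ _ _ _ F hF h n1
  obtain ⟨n0, hn0⟩ := hSUR V F hF
  obtain ⟨N, hN0, hN1⟩ : ∃ N : ℕ, n0 ≤ N ∧ n1 ≤ N := ⟨max n0 n1, le_max_left _ _, le_max_right _ _⟩
  have hst := LIMM.step hBDM hF (N := N) (fun M hM => hn0 M (hN0.trans hM))
  have hfg : (Sec F (2 * (N : ℤ)) (2 * (N : ℤ))).FG := by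
    have := hF.fg_Sec (2 * N)
    push_cast at this
    exact this
  obtain ⟨g, hg⟩ := hfg
  have huni : ∃ M : ℕ, N ≤ M ∧ ∀ v ∈ Sec F (2 * (N : ℤ)) (2 * (N : ℤ)),
      (x * u) ^ (M - N) • v ∈ Bd F M := by
    choose! M hM using h N
    refine ⟨N + ∑ v ∈ g, M v, by omega, fun v hv => ?_⟩
    rw [← hg] at hv
    induction hv using Submodule.span_induction with
    | mem v hv =>
      have hv' : v ∈ Sec F (2 * (N : ℤ)) (2 * (N : ℤ)) := by
        rw [← hg]; exact Submodule.subset_span hv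
      obtain ⟨h1, h2⟩ := hM v hv'
      have h3 : M v ≤ ∑ v ∈ g, M v := Finset.single_le_sum (f := M) (fun _ _ => Nat.zero_le _) hv
      exact LIMM.Bd_step hBDM hF h1 (by omega) h2
    | zero => rw [smul_zero]; exact Submodule.zero_mem _
    | add a b _ _ ha hb => rw [smul_add]; exact Submodule.add_mem _ ha hb
    | smul c a _ ha => rw [smul_comm]; exact Submodule.smul_mem _ _ ha
  obtain ⟨M, hNM, hM⟩ := huni
  obtain ⟨k, rfl⟩ := Nat.exists_eq_add_of_le hNM
  refine ⟨N + k, by omega, ?_⟩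
  refine (hst k).trans (sup_le ?_ le_rfl)
  intro v hv
  obtain ⟨a, ha, rfl⟩ := mem_line_smul.1 hv
  have := hM a ha
  rwa [Nat.add_sub_cancel_left] at this

end Pool.Agent.Lib.LP.TW
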