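import Pool.Agent.Lib.MP_865fc0_ag.TW.SpecG

/-!
# MP_865fc0_ag, TW, module MAW: convex majorants, twisted form
-/

set_option autoImplicit false

open scoped Pointwise
open Filter

namespace Pool.Agent.Lib.LP.TW

noncomputable section

namespace MAWM

variable {V : Type} [AddCommGroup V] [Module ℂ V] [Module K V] [IsScalarTower ℂ K V]
variable {C : Type} [Field C] [Algebra ℂ C] [Module C V] [IsScalarTower ℂ C V]

/-- the rational form -/
lemma psi_le {W : Chart → Submodule ℂ C} {F : Chart → Submodule ℂ V} (h : 0 < lead F) (A B : ℚ)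
    (n : ℕ) (τ c : ℕ → ℚ)
    (hcc : psi W F ≤ (A + B * mm F + ∑ j ∈ Finset.range n, c j * max 0 (mm F - τ j)) * lead F) :
    psi W F ≤ A * lead F + B * lam F +
      ∑ j ∈ Finset.range n, c j * max 0 ((lam F : ℚ) - τ j * lead F) := by
  have h1 : (0 : ℚ) < (lead F : ℚ) := by exact_mod_cast h
  unfold mm at hcc
  have h2 : (A + B * ((lam F : ℚ) / (lead F : ℚ)) +
      ∑ j ∈ Finset.range n, c j * max 0 ((lam F : ℚ) / (lead F : ℚ) - τ j)) * (lead F : ℚ) =
      A * lead F + B * lam F + ∑ j ∈ Finset.range n, c j * max 0 ((lam F : ℚ) - τ j * lead F) := by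
    rw [add_mul, add_mul, Finset.sum_mul]
    congr 1
    · field_simp
    · apply Finset.sum_congr rfl
      intro j _
      rw [mul_assoc, max_mul_of_nonneg _ _ h1.le, zero_mul, sub_mul, div_mul_cancel₀ _ h1.ne']
  rwa [h2] at hcc

end MAWM

open MAGM MAWM in
theorem specMAW (hHNX : SpecHNX) (hQUW : SpecQUW) : SpecMAW := by
  intro C _ _ _ _ O W W' hO hW A B α β n τ c hc hyp
  have main : ∀ (N : ℕ) (V : Type) [AddCommGroup V] [Module ℂ V] [Module K V]
      [IsScalarTower ℂ K V] [Module C V] [IsScalarTower ℂ C V] [IsScalarTower K C V]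
      [Module.Finite K V] (F : Chart → Submodule ℂ V), IsLat F → O • F = F → 0 < lead F →
      lead F = (N : ℤ) →
      (∀ E : Chart → Submodule ℂ V, IsLat E → O • E = E → E ≤ F → (lam E : ℚ) ≤ β * lead E) →
      (∀ E : Chart → Submodule ℂ V, IsLat E → O • E = E → E ≤ F →
        α * ((lead F : ℚ) - lead E) ≤ lam F - lam E) →
      ∀ γ : ℕ → ℚ, (∀ j < n, 0 ≤ γ j) →
      (∀ j < n, ∀ E : Chart → Submodule ℂ V, IsLat E → O • E = E → E ≤ F →
        (lam E : ℚ) - τ j * lead E ≤ γ j) →
      psi W F ≤ A * lead F + B * lam F + ∑ j ∈ Finset.range n, c j * γ j := by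
    intro N
    induction N using Nat.strong_induction_on with
    | _ N ih =>
    intro V _ _ _ _ _ _ _ _ F hF hOF hpos hn h1 h2 γ hγ h3
    have hposQ : (0 : ℚ) < (lead F : ℚ) := by exact_mod_cast hpos
    have hβF := h1 F hF hOF le_rfl
    have hαF : α * (lead F : ℚ) ≤ lam F := by
      have := h2 ⊥ IsLat.bot (smul_bot_eq O) bot_le
      rw [lead_bot, lam_bot] at this
      simpa using this
    by_cases hS : Sst O F
    · have h4 := psi_le hpos A B n τ c (hyp V F hF hOF hS hpos ?_ ?_)
      · refine h4.trans ?_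
        have h5 : ∑ j ∈ Finset.range n, c j * max 0 ((lam F : ℚ) - τ j * lead F) ≤
            ∑ j ∈ Finset.range n, c j * γ j := by
          apply Finset.sum_le_sum
          intro j hj
          have hjn := Finset.mem_range.mp hj
          exact mul_le_mul_of_nonneg_left (max_le (hγ j hjn) (h3 j hjn F hF hOF le_rfl)) (hc j hjn)
        linarith
      · unfold mm
        rwa [le_div_iff₀ hposQ]
      · unfold mm
        rwa [div_le_iff₀ hposQ]
    · obtain ⟨E, hE, hOE, hEF, hEpos, hmax⟩ := hHNX C O V F hF hOF hpos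
      obtain ⟨E₁, hE₁, hOE₁, hEE₁, hE₁F, hlead, V', i1, i2, i3, i4, i5, i6, i7, i8, F', hF', hOF',
        hchi, hchiW, hlift⟩ := hQUW C O W W' hO hW V F E hF hOF hE hOE hEF
      have hlam1 : lam E ≤ lam E₁ := hE.lam_le hE₁ hEE₁ hlead.symm
      have hlam2 : lam E₁ ≤ lam E := by
        have := hmax E₁ hE₁ hOE₁ hE₁F
        rw [hlead] at this
        exact le_of_mul_le_mul_right this hEpos
      have hlam : lam E₁ = lam E := le_antisymm hlam2 hlam1
      have hE₁pos : 0 < lead E₁ := by rw [hlead]; exact hEpos
      have hE₁posQ : (0 : ℚ) < (lead E₁ : ℚ) := by exact_mod_cast hE₁pos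
      have hmax' : ∀ E' : Chart → Submodule ℂ V, IsLat E' → O • E' = E' → E' ≤ F →
          lam E' * lead E₁ ≤ lam E₁ * lead E' := by
        intro E' a b c
        rw [hlead, hlam]
        exact hmax E' a b c
      have hS₁ : Sst O E₁ := fun E' a b c => hmax' E' a b (c.trans hE₁F)
      have hleadF : lead F = lead E₁ + lead F' := lead_add hchi
      have hlamF : lam F = lam E₁ + lam F' := lam_add hchi
      have hF'0 : 0 ≤ lead F' := hF'.lead_nonneg
      have hF'pos : 0 < lead F' := by
        rcases hF'0.lt_or_eq with h | h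
        · exact h
        · exfalso
          apply hS
          have e1 : lead E₁ = lead F := by rw [hleadF, ← h, add_zero]
          have e2 : lam E₁ ≤ lam F := hE₁.lam_le hF hE₁F e1
          intro E' a b c
          have e3 := hmax' E' a b c
          rw [e1] at e3
          exact e3.trans (mul_le_mul_of_nonneg_right e2 a.lead_nonneg)
      -- the sublattice `E₁`
      have hβ₁ : (lam E₁ : ℚ) ≤ β * lead E₁ := h1 E₁ hE₁ hOE₁ hE₁F
      have hα₁ : α * (lead E₁ : ℚ) ≤ lam E₁ := by
        have e := hmax' F hF hOF le_rfl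
        have eQ : (lam F : ℚ) * lead E₁ ≤ (lam E₁ : ℚ) * lead F := by exact_mod_cast e
        have e1 : α * (lead F : ℚ) * lead E₁ ≤ (lam F : ℚ) * lead E₁ :=
          mul_le_mul_of_nonneg_right hαF hE₁posQ.le
        have e2 : (α * (lead E₁ : ℚ)) * lead F ≤ (lam E₁ : ℚ) * lead F := by linarith
        exact le_of_mul_le_mul_right e2 hposQ
      have c₁ : psi W E₁ ≤ A * lead E₁ + B * lam E₁ +
          ∑ j ∈ Finset.range n, c j * max 0 ((lam E₁ : ℚ) - τ j * lead E₁) := by
        apply psi_le hE₁pos A B n τ c
        apply hyp V E₁ hE₁ hOE₁ hS₁ hE₁pos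
        · unfold mm
          rwa [le_div_iff₀ hE₁posQ]
        · unfold mm
          rwa [div_le_iff₀ hE₁posQ]
      -- slopes of the sublattices of the quotient
      have hq : ∀ E' : Chart → Submodule ℂ V', IsLat E' → O • E' = E' → E' ≤ F' →
          (lam E' : ℚ) * lead E₁ ≤ (lam E₁ : ℚ) * lead E' := by
        intro E' a b c
        obtain ⟨E'', a'', b'', c'', d''⟩ := hlift E' a b c
        have e1 : lead E'' = lead E₁ + lead E' := lead_add d''
        have e2 : lam E'' = lam E₁ + lam E' := lam_add d''
        have e3 := hmax' E'' a'' b'' c''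
        rw [e1, e2] at e3
        have e4 : lam E' * lead E₁ ≤ lam E₁ * lead E' := by nlinarith
        exact_mod_cast e4
      -- the quotient `F'`
      have c₂ : psi W F' ≤ A * lead F' + B * lam F' +
          ∑ j ∈ Finset.range n, c j * (γ j - max 0 ((lam E₁ : ℚ) - τ j * lead E₁)) := by
        apply ih (lead F').toNat ?_ V' F' hF' hOF' hF'pos (by rw [Int.toNat_of_nonneg hF'0])
        · intro E' a b c
          have e5 := hq E' a b c
          have e6 : (0 : ℚ) ≤ (lead E' : ℚ) := by exact_mod_cast a.lead_nonneg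
          have e7 : (lam E₁ : ℚ) * lead E' ≤ β * lead E₁ * lead E' :=
            mul_le_mul_of_nonneg_right hβ₁ e6
          have e8 : (lam E' : ℚ) * lead E₁ ≤ (β * lead E') * lead E₁ := by linarith
          exact le_of_mul_le_mul_right e8 hE₁posQ
        · intro E' a b c
          obtain ⟨E'', a'', b'', c'', d''⟩ := hlift E' a b c
          have e1 : (lead E'' : ℚ) = lead E₁ + lead E' := by exact_mod_cast lead_add d''
          have e2 : (lam E'' : ℚ) = lam E₁ + lam E' := by exact_mod_cast lam_add d''
          have e3 := h2 E'' a'' b'' c''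
          have e4 : (lead F : ℚ) = lead E₁ + lead F' := by exact_mod_cast hleadF
          have e5 : (lam F : ℚ) = lam E₁ + lam F' := by exact_mod_cast hlamF
          rw [e1, e2, e4, e5] at e3
          have e6 : ((lead E₁ : ℚ) + lead F' - (lead E₁ + lead E')) = lead F' - lead E' := by ring
          rw [e6] at e3
          linarith
        · intro j hj
          have e1 := h3 j hj E₁ hE₁ hOE₁ hE₁F
          have e2 := max_le (hγ j hj) e1
          linarith
        · intro j hj E' a b c
          obtain ⟨E'', a'', b'', c'', d''⟩ := hlift E' a b c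
          have e1 : (lead E'' : ℚ) = lead E₁ + lead E' := by exact_mod_cast lead_add d''
          have e2 : (lam E'' : ℚ) = lam E₁ + lam E' := by exact_mod_cast lam_add d''
          have e3 := h3 j hj E'' a'' b'' c''
          rw [e1, e2] at e3
          rcases le_total 0 ((lam E₁ : ℚ) - τ j * lead E₁) with h | h
          · rw [max_eq_right h]
            linarith
          · rw [max_eq_left h]
            have e5 := hq E' a b c
            have e6 : (0 : ℚ) ≤ (lead E' : ℚ) := by exact_mod_cast a.lead_nonneg
            have e7 : (lam E₁ : ℚ) * lead E' ≤ τ j * lead E₁ * lead E' :=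
              mul_le_mul_of_nonneg_right (by linarith) e6
            have e8 : (lam E' : ℚ) * lead E₁ ≤ (τ j * lead E') * lead E₁ := by linarith
            have e9 := le_of_mul_le_mul_right e8 hE₁posQ
            have e10 := hγ j hj
            linarith
        · omega
      have e4 : (lead F : ℚ) = lead E₁ + lead F' := by exact_mod_cast hleadF
      have e5 : (lam F : ℚ) = lam E₁ + lam F' := by exact_mod_cast hlamF
      have e6 : psi W F = psi W E₁ + psi W F' := by
        unfold psi
        rw [hchi 0 0, hchiW 0 0]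
        push_cast
        ring
      have e7 : ∑ j ∈ Finset.range n, c j * max 0 ((lam E₁ : ℚ) - τ j * lead E₁) +
          ∑ j ∈ Finset.range n, c j * (γ j - max 0 ((lam E₁ : ℚ) - τ j * lead E₁)) =
          ∑ j ∈ Finset.range n, c j * γ j := by
        rw [← Finset.sum_add_distrib]
        apply Finset.sum_congr rfl
        intro j _
        ring
      rw [e4, e5, e6, ← e7]
      linarith
  intro V _ _ _ _ _ _ _ _ F hF hOF hpos h1 h2 γ hγ h3
  exact main (lead F).toNat V F hF hOF hpos (by rw [Int.toNat_of_nonneg hpos.le]) h1 h2 γ hγ h3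

end

end Pool.Agent.Lib.LP.TW
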