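import Pool.Agent.Lib.MP_865fc0_ag.TW.SpecC

/-!
# MP_865fc0_ag, TW, module NUA: the chord interpolation
-/

set_option autoImplicit false

namespace Pool.Agent.Lib.LP.TW

namespace NUAM

lemma sum1 (a s : ℚ) (ha : 0 < a) (k : ℕ) : 2 * a * k ≤ s →
    ∑ l ∈ Finset.range (k + 1), max 0 (s - 2 * a * l) = ((k : ℚ) + 1) * s - a * k * (k + 1) := by
  induction k with
  | zero =>
    intro h
    rw [Finset.sum_range_one]
    push_cast at h ⊢
    rw [max_eq_right (by linarith)]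
    ring
  | succ k ih =>
    intro h
    push_cast at h
    have h1 : 2 * a * (k : ℚ) ≤ s := by nlinarith
    rw [Finset.sum_range_succ, ih h1]
    push_cast
    rw [max_eq_right (by linarith)]
    ring

lemma sum2 (a s : ℚ) (ha : 0 < a) (k : ℕ) (hs : s ≤ 2 * a * (k + 1)) (n : ℕ) :
    ∑ l ∈ Finset.range (k + 1 + n), max 0 (s - 2 * a * l) =
      ∑ l ∈ Finset.range (k + 1), max 0 (s - 2 * a * l) := by
  induction n with
  | zero => rfl
  | succ n ih =>
    have h1 : k + 1 + (n + 1) = (k + 1 + n) + 1 := by ring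
    rw [h1, Finset.sum_range_succ, ih, max_eq_left, add_zero]
    push_cast
    have h2 : 0 ≤ a * (n : ℚ) := by positivity
    nlinarith

lemma chord_eq (d : ℕ) (a α t : ℚ) (ha : 0 < a) (k : ℕ) (hk : k + 1 ≤ d - 1)
    (h1 : α + 2 * a * k ≤ t) (h2 : t ≤ α + 2 * a * (k + 1)) :
    chord d a α t = t ^ 2 / 4 + (t - (α + 2 * a * k)) * (α + 2 * a * (k + 1) - t) / 4 := by
  obtain ⟨n, hn⟩ : ∃ n, d - 1 = k + 1 + n := ⟨d - 1 - (k + 1), by omega⟩
  have h3 : ∀ l : ℕ, a * max 0 (t - (α + 2 * a * (l : ℚ))) =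
      a * max 0 ((t - α) - 2 * a * (l : ℚ)) := by
    intro l
    rw [show t - (α + 2 * a * (l : ℚ)) = (t - α) - 2 * a * (l : ℚ) by ring]
  unfold chord
  rw [Finset.sum_congr rfl (fun l _ => h3 l), ← Finset.mul_sum, hn,
    sum2 a (t - α) ha k (by linarith) n, sum1 a (t - α) ha k (by linarith)]
  ring

end NUAM

theorem specNUA : SpecNUA := by
  intro d a α t hd ha h1 h2
  have hd1 : ((d - 2 : ℕ) : ℚ) = (d : ℚ) - 2 := by
    rw [Nat.cast_sub hd]
    norm_num
  have hlast : α + 2 * a * ((d : ℚ) - 2) ≤ t → chord d a α t =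
      t ^ 2 / 4 + (t - (α + 2 * a * ((d : ℚ) - 2))) * (α + 2 * a * ((d : ℚ) - 1) - t) / 4 := by
    intro h3
    have h4 := NUAM.chord_eq d a α t ha (d - 2) (by omega) (by rw [hd1]; exact h3)
      (by rw [hd1]; linarith)
    rw [hd1] at h4
    rw [h4]
    ring
  refine ⟨?_, hlast⟩
  by_cases h3 : α + 2 * a * ((d : ℚ) - 2) ≤ t
  · rw [hlast h3]
    have h4 : 0 ≤ (t - (α + 2 * a * ((d : ℚ) - 2))) * (α + 2 * a * ((d : ℚ) - 1) - t) :=
      mul_nonneg (by linarith) (by linarith)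
    linarith
  · have h3' : t < α + 2 * a * ((d : ℚ) - 2) := not_le.1 h3
    have hs : 0 ≤ (t - α) / (2 * a) := div_nonneg (by linarith) (by linarith)
    set k := ⌊(t - α) / (2 * a)⌋₊ with hk
    have k1 : (k : ℚ) ≤ (t - α) / (2 * a) := Nat.floor_le hs
    have k2 : (t - α) / (2 * a) < (k : ℚ) + 1 := Nat.lt_floor_add_one _
    rw [le_div_iff₀ (by linarith)] at k1
    rw [div_lt_iff₀ (by linarith)] at k2
    have k3 : (k : ℚ) < ((d - 2 : ℕ) : ℚ) := by
      rw [hd1]
      by_contra hcon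
      have h5 : (d : ℚ) - 2 ≤ k := not_lt.1 hcon
      have h6 : 2 * a * ((d : ℚ) - 2) ≤ 2 * a * k :=
        mul_le_mul_of_nonneg_left h5 (by linarith)
      linarith
    have k4 : k < d - 2 := by exact_mod_cast k3
    have h4 := NUAM.chord_eq d a α t ha k (by omega) (by linarith) (by linarith)
    rw [h4]
    have h5 : 0 ≤ (t - (α + 2 * a * k)) * (α + 2 * a * (k + 1) - t) :=
      mul_nonneg (by linarith) (by linarith)
    linarith

end Pool.Agent.Lib.LP.TW
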