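import Pool.Agent.Lib.MP_865fc0_ag.TW.SpecC

/-!
# Module NUB: the value of the chord at the middle
-/

set_option autoImplicit false

open scoped Pointwise
open Filter

namespace Pool.Agent.Lib.LP.TW

noncomputable section

namespace NUBM

theorem sumA (a : ℚ) (ha : 0 < a) (D : ℕ) : ∀ k : ℕ, k ≤ D →
    ∑ j ∈ Finset.range k, max 0 (2 * a * ((D : ℚ) - j)) = 2 * a * k * D - a * k * (k - 1) := by
  intro k
  induction k with
  | zero =>
    intro _
    simp
  | succ k ih =>
    intro hk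
    rw [Finset.sum_range_succ, ih (by omega)]
    have h1 : (k : ℚ) ≤ D := by exact_mod_cast (by omega : k ≤ D)
    have h2 : 0 ≤ 2 * a * ((D : ℚ) - k) := by
      have h3 : 0 ≤ (D : ℚ) - k := by linarith
      positivity
    rw [max_eq_right h2]
    push_cast
    ring

theorem sumB (a : ℚ) (ha : 0 < a) (D : ℕ) : ∀ n : ℕ,
    ∑ j ∈ Finset.range (D + n), max 0 (2 * a * ((D : ℚ) - j)) = a * D * (D + 1) := by
  intro n
  induction n with
  | zero =>
    rw [add_zero, sumA a ha D D le_rfl]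
    ring
  | succ n ih =>
    rw [← add_assoc, Finset.sum_range_succ, ih]
    have h1 : 2 * a * ((D : ℚ) - ((D + n : ℕ) : ℚ)) ≤ 0 := by
      push_cast
      have h2 : (0 : ℚ) ≤ n := by positivity
      have h3 : 2 * a * ((D : ℚ) - (D + n)) = -(2 * a * n) := by ring
      rw [h3]
      have h4 : 0 ≤ 2 * a * (n : ℚ) := by positivity
      linarith
    rw [max_eq_left h1, add_zero]

theorem sumC (e : ℕ) : ∀ k : ℕ, ∑ l ∈ Finset.range k, (((e : ℚ) - l) * ((e : ℚ) - l + 1)) =
    ((e : ℚ) * (e + 1) * (e + 2) - ((e : ℚ) - k) * ((e : ℚ) - k + 1) * ((e : ℚ) - k + 2)) / 3 := by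
  intro k
  induction k with
  | zero => simp
  | succ k ih =>
    rw [Finset.sum_range_succ, ih]
    push_cast
    ring

/-- the inner sum -/
theorem inner (a α m : ℚ) (ha : 0 < a) (e : ℕ) (hm : m = α + a * e) (l : ℕ) (hl : l ≤ e) :
    ∑ j ∈ Finset.range (e + 1), max 0 (m + a * e - 2 * a * j - (α + 2 * a * l)) =
      a * ((e : ℚ) - l) * ((e : ℚ) - l + 1) := by
  obtain ⟨D, rfl⟩ := Nat.exists_eq_add_of_le hl
  have h1 := sumB a ha D (l + 1)
  have h2 : D + (l + 1) = l + D + 1 := by omega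
  rw [h2] at h1
  have h3 : ∀ j ∈ Finset.range (l + D + 1),
      max 0 (m + a * ((l + D : ℕ) : ℚ) - 2 * a * j - (α + 2 * a * l)) =
        max 0 (2 * a * ((D : ℚ) - j)) := by
    intro j _
    congr 1
    rw [hm]
    push_cast
    ring
  rw [Finset.sum_congr rfl h3, h1]
  push_cast
  ring

end NUBM

open NUBM in
theorem specNUB : SpecNUB := by
  intro d a α m hd ha hm
  obtain ⟨e, rfl⟩ : ∃ e, d = e + 1 := ⟨d - 1, by omega⟩
  have hd1 : ((e + 1 : ℕ) : ℚ) - 1 = e := by push_cast; ring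
  have he : e + 1 - 1 = e := rfl
  rw [hd1] at hm
  rw [hd1, he]
  have hpos : ((e + 1 : ℕ) : ℚ) ≠ 0 := by positivity
  constructor
  · have h1 : ∀ l ∈ Finset.range e, a * ((∑ j ∈ Finset.range (e + 1),
        max 0 (m + a * e - 2 * a * j - (α + 2 * a * l))) / ((e + 1 : ℕ) : ℚ)) =
        a ^ 2 / ((e + 1 : ℕ) : ℚ) * (((e : ℚ) - l) * ((e : ℚ) - l + 1)) := by
      intro l hl
      rw [inner a α m ha e hm l (Finset.mem_range.mp hl).le]
      ring
    rw [Finset.sum_congr rfl h1, ← Finset.mul_sum, sumC e e, hm]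
    push_cast at hpos ⊢
    field_simp
    ring
  · have h2 : ((e + 1 : ℕ) : ℚ) - 2 = ((e - 1 : ℕ) : ℚ) := by
      have : 1 ≤ e := by omega
      push_cast [Nat.cast_sub this]
      ring
    rw [h2, inner a α m ha e hm (e - 1) (by omega)]
    have : 1 ≤ e := by omega
    push_cast [Nat.cast_sub this]
    ring

end

end Pool.Agent.Lib.LP.TW
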