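import Pool.Agent.Lib.MP_865fc0_ag.TW.SpecC

/-!
# MP_865fc0_ag, TW, module OMC: the canonical sheaf of a cyclic cover
-/

set_option autoImplicit false

open scoped Pointwise
open Filter

namespace Pool.Agent.Lib.LP.TW

namespace OMCM

section trace

variable {L L' : Type} [Field L] [Field L'] [Algebra L L']

theorem exists_basis (d : ℕ) (y : L')
    (free : ∀ g : ℕ → L, ∑ i ∈ Finset.range d, algebraMap L L' (g i) * y ^ i = 0 → ∀ i < d, g i = 0)
    (gen : ∀ v : L', ∃ g : ℕ → L, v = ∑ i ∈ Finset.range d, algebraMap L L' (g i) * y ^ i) :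
    ∃ b : Module.Basis (Fin d) L L', ∀ i, b i = y ^ (i : ℕ) := by
  have hli : LinearIndependent L (fun i : Fin d => y ^ (i : ℕ)) := by
    rw [Fintype.linearIndependent_iff]
    intro g hg i
    have h1 := free (fun k => if hk : k < d then g ⟨k, hk⟩ else 0) (by
      rw [← hg, Finset.sum_range]
      refine Finset.sum_congr rfl fun k _ => ?_
      rw [dif_pos k.2, Algebra.smul_def]) i i.2
    simpa using h1
  have hsp : ⊤ ≤ Submodule.span L (Set.range (fun i : Fin d => y ^ (i : ℕ))) := by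
    intro v _
    obtain ⟨g, rfl⟩ := gen v
    refine Submodule.sum_mem _ fun i hi => ?_
    rw [← Algebra.smul_def]
    exact Submodule.smul_mem _ _ (Submodule.subset_span ⟨⟨i, Finset.mem_range.mp hi⟩, rfl⟩)
  exact ⟨Module.Basis.mk hli hsp, fun i => by rw [Module.Basis.mk_apply]⟩

theorem repr_pow {d : ℕ} {y : L'} (b : Module.Basis (Fin d) L L') (hb : ∀ i, b i = y ^ (i : ℕ))
    {f : L} (hf : y ^ d = algebraMap L L' f) (k : ℕ) (j : Fin d) (h1 : k ≠ (j : ℕ))
    (h2 : k ≠ (j : ℕ) + d) (h3 : k < 2 * d) : b.repr (y ^ k) j = 0 := by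
  by_cases hk : k < d
  · have h4 : y ^ k = b ⟨k, hk⟩ := (hb ⟨k, hk⟩).symm
    rw [h4, b.repr_self, Finsupp.single_apply, if_neg]
    intro h5
    exact h1 (by rw [← h5])
  · have hkd : k - d < d := by omega
    have h4 : y ^ k = f • b ⟨k - d, hkd⟩ := by
      rw [hb, Algebra.smul_def, ← hf, ← pow_add]
      congr 1
      show k = d + (k - d)
      omega
    rw [h4, map_smul, Finsupp.smul_apply, b.repr_self, Finsupp.single_apply, if_neg, smul_zero]
    intro h5
    have h6 : k - d = (j : ℕ) := by rw [← h5]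
    omega

theorem tr_pow {d : ℕ} {y : L'} (b : Module.Basis (Fin d) L L') (hb : ∀ i, b i = y ^ (i : ℕ))
    {f : L} (hf : y ^ d = algebraMap L L' f) (i : ℕ) (hi : i < d) :
    Algebra.trace L L' (y ^ i) = if i = 0 then (d : L) else 0 := by
  rw [Algebra.trace_eq_matrix_trace b, Matrix.trace]
  have h1 : ∀ j : Fin d, (Algebra.leftMulMatrix b (y ^ i)).diag j = if i = 0 then 1 else 0 := by
    intro j
    rw [Matrix.diag_apply, Algebra.leftMulMatrix_eq_repr_mul, hb, ← pow_add]
    split_ifs with h0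
    · subst h0
      rw [zero_add, ← hb, b.repr_self, Finsupp.single_eq_same]
    · have := j.2
      exact repr_pow b hb hf _ j (by omega) (by omega) (by omega)
  rw [Finset.sum_congr rfl fun j _ => h1 j]
  split_ifs
  · simp
  · simp

theorem tr_eq {d : ℕ} {y : L'} (b : Module.Basis (Fin d) L L') (hb : ∀ i, b i = y ^ (i : ℕ))
    {f : L} (hf : y ^ d = algebraMap L L' f) (e : Fin d) (he : (e : ℕ) = d - 1) (x : L') :
    Algebra.trace L L' x = d * b.repr (x * y ^ (d - 1)) e := by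
  have h1 : Algebra.trace L L' = (d : L) • (b.coord e ∘ₗ LinearMap.mulRight L (y ^ (d - 1))) := by
    refine b.ext fun i => ?_
    have hi := i.2
    rw [LinearMap.smul_apply, LinearMap.comp_apply, LinearMap.mulRight_apply,
      Module.Basis.coord_apply, hb, tr_pow b hb hf i hi, ← pow_add]
    split_ifs with h0
    · rw [h0, zero_add, ← he, ← hb, b.repr_self, Finsupp.single_eq_same, smul_eq_mul, mul_one]
    · rw [repr_pow b hb hf _ e (by omega) (by omega) (by omega), smul_zero]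
  rw [h1]
  rfl

theorem tr_mul {d : ℕ} {y : L'} (b : Module.Basis (Fin d) L L') (hb : ∀ i, b i = y ^ (i : ℕ))
    {f : L} (hf : y ^ d = algebraMap L L' f) (e : Fin d) (he : (e : ℕ) = d - 1) (g α : ℕ → L) (v : L')
    (hv : v * y ^ (d - 1) = ∑ i ∈ Finset.range d, algebraMap L L' (α i) * y ^ i) :
    Algebra.trace L L' ((∑ i ∈ Finset.range d, algebraMap L L' (g i) * y ^ i) * v) =
      d * ∑ i ∈ Finset.range d, g i * α (d - 1 - i) := by
  have h1 : (∑ i ∈ Finset.range d, algebraMap L L' (g i) * y ^ i) * v * y ^ (d - 1) =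
      ∑ i ∈ Finset.range d, ∑ j ∈ Finset.range d, (g i * α j) • y ^ (i + j) := by
    rw [mul_assoc, hv, Finset.sum_mul_sum]
    refine Finset.sum_congr rfl fun i _ => Finset.sum_congr rfl fun j _ => ?_
    rw [Algebra.smul_def, map_mul, pow_add]
    ring
  rw [tr_eq b hb hf e he, h1, map_sum, Finsupp.finsetSum_apply]
  congr 1
  refine Finset.sum_congr rfl fun i hi => ?_
  have hi := Finset.mem_range.mp hi
  rw [map_sum, Finsupp.finsetSum_apply, Finset.sum_eq_single (d - 1 - i)]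
  · have h2 : i + (d - 1 - i) = (e : ℕ) := by omega
    rw [map_smul, Finsupp.smul_apply, h2, ← hb, b.repr_self, Finsupp.single_eq_same, smul_eq_mul, mul_one]
  · intro j hj hne
    have hj := Finset.mem_range.mp hj
    rw [map_smul, Finsupp.smul_apply, repr_pow b hb hf _ e (by omega) (by omega) (by omega), smul_zero]
  · intro h
    exact absurd (Finset.mem_range.mpr (by omega)) h

end trace

section main

variable {L L' : Type} [Field L] [Algebra ℂ L] [Algebra K L] [IsScalarTower ℂ K L]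
  [Field L'] [Algebra ℂ L'] [Algebra K L'] [IsScalarTower ℂ K L'] [Algebra L L']
  [IsScalarTower K L L'] [IsScalarTower ℂ L L']

theorem smul_map (κ : K) (f : L) : κ • algebraMap L L' f = algebraMap L L' (κ • f) := by
  rw [Algebra.algebraMap_eq_smul_one, Algebra.algebraMap_eq_smul_one, smul_assoc]

theorem smul_dec (κ : K) (d : ℕ) (g : ℕ → L) (y : L') :
    κ • ∑ i ∈ Finset.range d, algebraMap L L' (g i) * y ^ i =
      ∑ i ∈ Finset.range d, algebraMap L L' (κ • g i) * y ^ i := by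
  rw [Finset.smul_sum]
  refine Finset.sum_congr rfl fun i _ => ?_
  rw [← smul_mul_assoc, smul_map]

theorem uniq {O : Chart → Submodule ℂ L} {O' : Chart → Submodule ℂ L'} {d a : ℕ} {y : L'}
    (h : CCov L L' O O' d a y) {g g' : ℕ → L}
    (e : ∑ i ∈ Finset.range d, algebraMap L L' (g i) * y ^ i =
      ∑ i ∈ Finset.range d, algebraMap L L' (g' i) * y ^ i) : ∀ i < d, g i = g' i := by
  have h1 : ∑ i ∈ Finset.range d, algebraMap L L' (g i - g' i) * y ^ i = 0 := by
    rw [← sub_eq_zero.mpr e, ← Finset.sum_sub_distrib]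
    refine Finset.sum_congr rfl fun i _ => ?_
    rw [map_sub]
    ring
  intro i hi
  exact sub_eq_zero.mp (h.free (fun i => g i - g' i) h1 i hi)

theorem mem_tw_iff {O : Chart → Submodule ℂ L} {O' : Chart → Submodule ℂ L'} {d a : ℕ} {y : L'}
    (h : CCov L L' O O' d a y) (n : ℤ) (s : Chart) (g : ℕ → L) :
    ∑ i ∈ Finset.range d, algebraMap L L' (g i) * y ^ i ∈ tw n n O' s ↔
      ∀ i < d, g i ∈ tw (n - ((a * i : ℕ) : ℤ)) (n - ((a * i : ℕ) : ℤ)) O s := by
  have hg : ∀ i : ℕ, g i ∈ tw (n - ((a * i : ℕ) : ℤ)) (n - ((a * i : ℕ) : ℤ)) O s ↔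
      (wx s ^ n * wu s ^ n)⁻¹ • g i ∈ tw (-((a * i : ℕ) : ℤ)) (-((a * i : ℕ) : ℤ)) O s := by
    intro i
    have h1 : tw (n - ((a * i : ℕ) : ℤ)) (n - ((a * i : ℕ) : ℤ)) O s =
        tw n n (tw (-((a * i : ℕ) : ℤ)) (-((a * i : ℕ) : ℤ)) O) s := by
      rw [tw_tw, ← sub_eq_add_neg]
    rw [h1, mem_tw]
  rw [mem_tw, smul_dec, h.eq]
  constructor
  · rintro ⟨g₁, hg₁, e⟩ i hi
    rw [hg i, uniq h e i hi]
    exact hg₁ i hi
  · intro h1
    exact ⟨_, fun i hi => (hg i).mp (h1 i hi), rfl⟩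

theorem mem_str {d a : ℕ} {y : L'} (h : CCov L L' (strSheaf L) (strSheaf L') d a y) (s : Chart)
    (g : ℕ → L) :
    ∑ i ∈ Finset.range d, algebraMap L L' (g i) * y ^ i ∈ strSheaf L' s ↔
      ∀ i < d, g i ∈ tw (-((a * i : ℕ) : ℤ)) (-((a * i : ℕ) : ℤ)) (strSheaf L) s := by
  rw [h.eq]
  constructor
  · rintro ⟨g₁, hg₁, e⟩ i hi
    rw [uniq h e i hi]
    exact hg₁ i hi
  · intro h1
    exact ⟨_, h1, rfl⟩

theorem y_ne {d a : ℕ} {y : L'} (h : CCov L L' (strSheaf L) (strSheaf L') d a y) : y ≠ 0 := by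
  rintro rfl
  have hd := h.deg
  have h1 := h.free (fun i => if i = 1 then 1 else 0) (by
    refine Finset.sum_eq_zero fun i _ => ?_
    by_cases h2 : i = 1
    · subst h2
      simp
    · simp [h2]) 1 (by omega)
  simp at h1

theorem nat_mem {s : Chart} {r : K} {d : ℕ} (hd : d ≠ 0) : r * d ∈ Ralg s ↔ r ∈ Ralg s := by
  constructor
  · intro h
    have h1 := (Ralg s).smul_mem h ((1 : ℂ) / d)
    have e : ((1 : ℂ) / d) • (r * d) = r := by
      rw [Algebra.smul_def]
      have h2 : algebraMap ℂ K ((1 : ℂ) / d) * d = 1 := by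
        have h3 : (d : K) = algebraMap ℂ K d := by rw [map_natCast]
        rw [h3, ← map_mul, one_div, inv_mul_cancel₀ (by exact_mod_cast hd), map_one]
      linear_combination r * h2
    rwa [e] at h1
  · intro h
    exact (Ralg s).mul_mem h (natCast_mem (Ralg s) d)

/-- the canonical sheaf of the cyclic cover -/
theorem mem_can [Module.Finite K L] {d a : ℕ} {y : L'}
    (h : CCov L L' (strSheaf L) (strSheaf L') d a y) (s : Chart) (v : L') (α : ℕ → L)
    (hv : v * y ^ (d - 1) = ∑ i ∈ Finset.range d, algebraMap L L' (α i) * y ^ i) :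
    v ∈ canonicalSheaf L' s ↔
      ∀ i < d, α (d - 1 - i) ∈ tw ((a * i : ℕ) : ℤ) ((a * i : ℕ) : ℤ) (canonicalSheaf L) s := by
  obtain ⟨b, hb⟩ := exists_basis d y h.free h.gen
  obtain ⟨f, hf⟩ := h.root
  have : Module.Finite L L' := Module.Finite.of_basis b
  have hd := h.deg
  have hd0 : d ≠ 0 := by omega
  -- the trace
  have htr : ∀ g : ℕ → L, Algebra.trace K L' ((∑ i ∈ Finset.range d, algebraMap L L' (g i) * y ^ i) * v) =
      Algebra.trace K L (∑ i ∈ Finset.range d, g i * α (d - 1 - i)) * d := by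
    intro g
    rw [← Algebra.trace_trace (S := L), tr_mul b hb hf ⟨d - 1, by omega⟩ rfl g α v hv]
    have e3 : (d : L) * (∑ i ∈ Finset.range d, g i * α (d - 1 - i)) =
        (d : K) • (∑ i ∈ Finset.range d, g i * α (d - 1 - i)) := by
      rw [Algebra.smul_def, map_natCast]
    rw [e3, map_smul, smul_eq_mul, mul_comm]
  have key : v ∈ canonicalSheaf L' s ↔ ∀ g : ℕ → L,
      (∀ i < d, g i ∈ tw (-((a * i : ℕ) : ℤ)) (-((a * i : ℕ) : ℤ)) (strSheaf L) s) →
      wx s ^ 2 * wu s ^ 2 * Algebra.trace K L (∑ i ∈ Finset.range d, g i * α (d - 1 - i)) ∈ Ralg s := by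
    constructor
    · intro hvm g hg
      have h1 := hvm _ ((mem_str h s g).mpr hg)
      rw [htr, ← mul_assoc] at h1
      exact (nat_mem hd0).mp h1
    · intro hh w hw
      obtain ⟨g, rfl⟩ := h.gen w
      rw [htr, ← mul_assoc]
      exact (nat_mem hd0).mpr (hh g ((mem_str h s g).mp hw))
  rw [key]
  have hc1 : ∀ i : ℕ, (wx s ^ ((a * i : ℕ) : ℤ) * wu s ^ ((a * i : ℕ) : ℤ))⁻¹ =
      wx s ^ (-((a * i : ℕ) : ℤ)) * wu s ^ (-((a * i : ℕ) : ℤ)) := by
    intro i
    rw [mul_inv, zpow_neg, zpow_neg]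
  constructor
  · intro hh i hi
    rw [mem_tw, hc1]
    intro g' hg'
    have hg : (wx s ^ (-((a * i : ℕ) : ℤ)) * wu s ^ (-((a * i : ℕ) : ℤ))) • g' ∈
        tw (-((a * i : ℕ) : ℤ)) (-((a * i : ℕ) : ℤ)) (strSheaf L) s := by
      rw [mem_tw, smul_smul, inv_mul_cancel₀ (wab_ne_zero s _ _), one_smul]
      exact hg'
    have h1 := hh (fun k => if k = i then
        (wx s ^ (-((a * i : ℕ) : ℤ)) * wu s ^ (-((a * i : ℕ) : ℤ))) • g' else 0) (by
      intro k _
      by_cases hki : k = i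
      · subst hki
        rw [if_pos rfl]
        exact hg
      · rw [if_neg hki]
        exact Submodule.zero_mem _)
    rw [Finset.sum_eq_single i (fun k _ hki => by rw [if_neg hki, zero_mul])
      (fun h => absurd (Finset.mem_range.mpr hi) h), if_pos rfl, smul_mul_assoc, ← mul_smul_comm] at h1
    exact h1
  · intro hh g hg
    rw [map_sum, Finset.mul_sum]
    refine Subalgebra.sum_mem _ fun i hi => ?_
    have hi := Finset.mem_range.mp hi
    have h2 := hh i hi
    have h1 := hg i hi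
    rw [mem_tw] at h1
    rw [mem_tw, hc1] at h2
    have h3 := h2 _ h1
    rw [smul_mul_smul_comm, inv_mul_cancel₀ (wab_ne_zero s _ _), one_smul] at h3
    exact h3

end main

end OMCM

open OMCM in
theorem specOMC : SpecOMC := by
  intro L L' _ _ _ _ _ _ _ _ _ _ _ d a y p h hfull hz
  have := hfull.fin
  obtain ⟨z, hz0, hz⟩ := hz
  have hy := y_ne h
  have hd := h.deg
  have hyd : y ^ (d - 1) ≠ 0 := pow_ne_zero _ hy
  have hzz : algebraMap L L' z ≠ 0 := by
    rw [Ne, map_eq_zero]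
    exact hz0
  refine ⟨algebraMap L L' z / y ^ (d - 1), div_ne_zero hzz hyd, ?_⟩
  funext s
  ext v
  obtain ⟨α, hv⟩ := h.gen (v * y ^ (d - 1))
  rw [mem_can h s v α hv]
  -- membership in the canonical sheaf of `L`
  have hcan : ∀ (i : ℤ) (t : L), t ∈ tw i i (canonicalSheaf L) s ↔
      z⁻¹ * t ∈ tw (i - p) (i - p) (strSheaf L) s := by
    intro i t
    rw [mem_tw, hz]
    have e : i - p = i + -p := by ring
    rw [e, ← tw_tw, mem_tw]
    constructor
    · intro ht
      obtain ⟨n, hn, hn2⟩ := mem_ln_smul.mp ht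
      have e2 : (wx s ^ i * wu s ^ i)⁻¹ • (z⁻¹ * t) = n := by
        rw [← mul_smul_comm, ← hn2, smul_eq_mul, ← mul_assoc, inv_mul_cancel₀ hz0, one_mul]
      rw [e2]
      exact hn
    · intro ht
      refine mem_ln_smul.mpr ⟨_, ht, ?_⟩
      rw [smul_eq_mul, mul_smul_comm, ← mul_assoc, mul_inv_cancel₀ hz0, one_mul]
  have hq : v ∈ (ln (algebraMap L L' z / y ^ (d - 1)) • tw (-(p - a * (d - 1))) (-(p - a * (d - 1)))
      (strSheaf L')) s ↔ ∑ i ∈ Finset.range d, algebraMap L L' (z⁻¹ * α i) * y ^ i ∈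
        tw (-(p - a * (d - 1))) (-(p - a * (d - 1))) (strSheaf L') s := by
    have e : ∑ i ∈ Finset.range d, algebraMap L L' (z⁻¹ * α i) * y ^ i =
        y ^ (d - 1) / algebraMap L L' z * v := by
      have e1 : y ^ (d - 1) / algebraMap L L' z * v = (algebraMap L L' z)⁻¹ * (v * y ^ (d - 1)) := by
        rw [div_eq_mul_inv]
        ring
      rw [e1, hv, Finset.mul_sum]
      refine Finset.sum_congr rfl fun i _ => ?_
      rw [map_mul, map_inv₀]
      ring
    rw [e]
    constructor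
    · intro ht
      obtain ⟨n, hn, hn2⟩ := mem_ln_smul.mp ht
      have e2 : y ^ (d - 1) / algebraMap L L' z * v = n := by
        rw [← hn2, smul_eq_mul, ← mul_assoc]
        have e3 : y ^ (d - 1) / algebraMap L L' z * (algebraMap L L' z / y ^ (d - 1)) = 1 := by
          field_simp
        rw [e3, one_mul]
      rw [e2]
      exact hn
    · intro ht
      refine mem_ln_smul.mpr ⟨_, ht, ?_⟩
      rw [smul_eq_mul, ← mul_assoc]
      have e3 : algebraMap L L' z / y ^ (d - 1) * (y ^ (d - 1) / algebraMap L L' z) = 1 := by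
        field_simp
      rw [e3, one_mul]
  rw [hq, mem_tw_iff h]
  have hcast : ∀ i : ℕ, i < d → (-(p - (a : ℤ) * ((d : ℤ) - 1))) - ((a * (d - 1 - i) : ℕ) : ℤ) =
      ((a * i : ℕ) : ℤ) - p := by
    intro i hi
    have e1 : ((d - 1 - i : ℕ) : ℤ) = (d : ℤ) - 1 - i := by omega
    rw [Nat.cast_mul, e1, Nat.cast_mul]
    ring
  constructor
  · intro hh i hi
    have h1 := (hcan _ _).mp (hh (d - 1 - i) (by omega))
    have e1 : d - 1 - (d - 1 - i) = i := by omega
    have h2 := hcast (d - 1 - i) (by omega)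
    rw [e1] at h1 h2
    rw [← h2] at h1
    exact h1
  · intro hh i hi
    have h1 := hh (d - 1 - i) (by omega)
    rw [hcast i hi] at h1
    exact (hcan _ _).mpr h1

end Pool.Agent.Lib.LP.TW
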