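import Pool.Agent.Lib.MP_865fc0_ag.TW.Spec
import Pool.Agent.Lib.MP_865fc0_ag.Limit

/-!
# MP_865fc0_ag, TW, PHZ: the structure sheaf shows that `0 ≤ Φ(0)`
-/

set_option autoImplicit false

open scoped Pointwise
open Filter

namespace Pool.Agent.Lib.LP.TW

namespace PHZM

variable {L : Type} [Field L] [Algebra ℂ L] [Algebra K L] [IsScalarTower ℂ K L]

/-- `L` as the space `Fin 1 → L` -/
noncomputable def psi (L : Type) [Field L] [Algebra K L] : L →ₗ[K] (Fin 1 → L) :=
  (((LinearEquiv.funUnique (Fin 1) L L).symm : L ≃ₗ[L] (Fin 1 → L)) : L →ₗ[L] (Fin 1 → L)).restrictScalars K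

theorem psi_inj : Function.Injective (psi L) :=
  ((LinearEquiv.funUnique (Fin 1) L L).symm : L ≃ₗ[L] (Fin 1 → L)).injective

theorem psi_one : psi L 1 = fun _ => 1 := by
  funext i
  rfl

theorem stable {p : ℤ} {e : ℚ} (H : TF L p e) :
    strSheaf L • mapL (psi L) (strSheaf L) = mapL (psi L) (strSheaf L) := by
  funext s
  have h5 := map_smul_sub
    (((LinearEquiv.funUnique (Fin 1) L L).symm : L ≃ₗ[L] (Fin 1 → L)) : L →ₗ[L] (Fin 1 → L))
    (strSheaf L s) (strSheaf L s)
  have h6 : strSheaf L s • strSheaf L s = strSheaf L s := congrFun H.full.ring.mul s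
  rw [h6] at h5
  exact h5.symm

theorem rk_one : rk L (mapL (psi L) (strSheaf L)) = 1 := by
  have h1 : Submodule.span L (⋃ s, (mapL (psi L) (strSheaf L) s : Set (Fin 1 → L))) = ⊤ := by
    rw [eq_top_iff]
    intro v _
    have h2 : (fun _ => 1 : Fin 1 → L) ∈
        Submodule.span L (⋃ s, (mapL (psi L) (strSheaf L) s : Set (Fin 1 → L))) := by
      apply Submodule.subset_span
      refine Set.mem_iUnion.2 ⟨(false, false), ?_⟩
      exact ⟨1, (Oalg L (false, false)).one_mem, psi_one⟩
    have h3 : v = v 0 • (fun _ => 1 : Fin 1 → L) := by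
      funext i
      rw [Subsingleton.elim i 0]
      simp
    rw [h3]
    exact Submodule.smul_mem _ _ h2
  unfold rk
  rw [h1, finrank_top]
  simp

theorem val_zero (hT : SpecTRN) {p : ℤ} {e : ℚ} (H : TF L p e) : Val L 0 0 := by
  have hfin : Module.Finite K L := H.full.fin
  have hlat : IsLat (mapL (psi L) (strSheaf L)) := H.full.ring.lat.map (psi L)
  have hO := stable H
  have hrk := rk_one (L := L)
  have hchi : ∀ a b, chi (mapL (psi L) (strSheaf L)) a b = chi (strSheaf L) a b := fun a b =>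
    H.full.ring.lat.chi_map_of_injective (psi L) psi_inj a b
  obtain ⟨hsh, hrest⟩ := hT L p e H 1 (mapL (psi L) (strSheaf L))
  obtain ⟨hlead, hpos, hslope, -, hch2⟩ := hrest hlat hO one_pos hrk
  have hlam : lam (mapL (psi L) (strSheaf L)) = p * Module.finrank K L := by
    rw [← H.lamO, lam_eq, lam_eq, hchi, hchi, hchi]
  have hd : (0 : ℚ) < Module.finrank K L := by
    rw [hlead] at hpos
    have : (0 : ℤ) < Module.finrank K L := by simpa using hpos
    exact_mod_cast this
  have hmm : mm (mapL (psi L) (strSheaf L)) = p := by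
    unfold mm
    rw [hlam, hlead]
    push_cast
    field_simp
  have hcc : cc (mapL (psi L) (strSheaf L)) = (p : ℚ) ^ 2 / 4 + e := by
    unfold cc
    rw [hchi, hlead, H.chiO]
    push_cast
    field_simp
  refine ⟨1, mapL (psi L) (strSheaf L), one_pos, hsh.2 ⟨hlat, hO⟩, hrk, ?_, ?_, ?_⟩
  · intro E _ _ h1 h2
    rw [hrk] at h2
    omega
  · rw [hslope, hmm]
    ring
  · rw [hch2, hmm, hcc]
    ring

end PHZM

theorem specPHZ (hT : SpecTRN) : SpecPHZ := by
  intro L _ _ _ _ p e H
  rw [Phi_eq]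
  refine le_iInf fun ε => ?_
  have := le_SupE (PHZM.val_zero hT H) (t := 0) (ε := ε) (by simpa using ε.2)
  simpa using this

end Pool.Agent.Lib.LP.TW
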