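import Pool.Agent.Lib.MP_865fc0_ag.TW.Spec

/-!
# QUO: saturation and quotients
-/

set_option autoImplicit false

open scoped Pointwise
open Filter

namespace Pool.Agent.Lib.LP.TW

namespace QUOM

section

variable {C : Type} [Field C] [Algebra ℂ C] [Algebra K C] [IsScalarTower ℂ K C]
variable {O : Chart → Submodule ℂ C}
variable {V : Type} [AddCommGroup V] [Module ℂ V] [Module K V] [IsScalarTower ℂ K V]
variable [Module C V] [IsScalarTower ℂ C V] [IsScalarTower K C V]
variable {F : Chart → Submodule ℂ V}

theorem smul_mem_span (hO : Full C O) (hF : O • F = F) (l : C) {v : V}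
    (hv : v ∈ Submodule.span K (F (false, false) : Set V)) :
    l • v ∈ Submodule.span K (F (false, false) : Set V) := by
  have hl : l ∈ Submodule.span K (O (false, false) : Set C) := by
    rw [hO.span]; trivial
  induction hv using Submodule.span_induction with
  | mem v hv =>
    induction hl using Submodule.span_induction with
    | mem l hl =>
      apply Submodule.subset_span
      have : l • v ∈ (O • F) (false, false) := Submodule.smul_mem_smul hl hv
      rwa [hF] at this
    | zero => rw [zero_smul]; exact Submodule.zero_mem _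
    | add a b _ _ ha hb => rw [add_smul]; exact Submodule.add_mem _ ha hb
    | smul a b _ hb => rw [smul_assoc]; exact Submodule.smul_mem _ _ hb
  | zero => rw [smul_zero]; exact Submodule.zero_mem _
  | add a b _ _ ha hb => rw [smul_add]; exact Submodule.add_mem _ ha hb
  | smul a b _ hb => rw [smul_comm]; exact Submodule.smul_mem _ _ hb

/-- the `K`-span as a `C`-subspace -/
def WC (hO : Full C O) (hF : O • F = F) : Submodule C V where
  carrier := (Submodule.span K (F (false, false) : Set V) : Set V)
  add_mem' := fun ha hb => Submodule.add_mem _ ha hb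
  zero_mem' := Submodule.zero_mem _
  smul_mem' := fun l _ hv => smul_mem_span hO hF l hv

theorem mem_WC (hO : Full C O) (hF : O • F = F) {v : V} :
    v ∈ WC hO hF ↔ v ∈ Submodule.span K (F (false, false) : Set V) := Iff.rfl

/-- stability from elements -/
theorem stab (hO : Full C O) {G : Chart → Submodule ℂ V}
    (h : ∀ s, ∀ r ∈ O s, ∀ v ∈ G s, r • v ∈ G s) : O • G = G := by
  apply hO.ring.smul_eq_of_le
  intro s
  show O s • G s ≤ G s
  rw [Submodule.smul_le]
  exact h s

theorem stab' {G : Chart → Submodule ℂ V} (hG : O • G = G) {s : Chart} {r : C} (hr : r ∈ O s)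
    {v : V} (hv : v ∈ G s) : r • v ∈ G s := by
  have h : r • v ∈ (O • G) s := Submodule.smul_mem_smul hr hv
  rwa [hG] at h

end

end QUOM

open QUOM in
theorem specQUO : SpecQUO := by
  intro C _ _ _ _ O hO V _ _ _ _ _ _ _ _ F E hF hOF hE hOE hEF
  let W : Submodule C V := WC hO hOE
  let q : V →ₗ[K] (V ⧸ W) :=
    { toFun := fun v => W.mkQ v
      map_add' := fun a b => map_add W.mkQ a b
      map_smul' := fun k v => rfl }
  have hqC : ∀ (r : C) (v : V), q (r • v) = r • q v := fun r v => rfl
  have hqs : Function.Surjective q := W.mkQ_surjective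
  have hq0 : ∀ v : V, q v = 0 ↔ v ∈ Submodule.span K (E (false, false) : Set V) := by
    intro v
    show W.mkQ v = 0 ↔ _
    rw [Submodule.mkQ_apply, Submodule.Quotient.mk_eq_zero]
    exact Iff.rfl
  have st1 : IsScalarTower ℂ K (V ⧸ W) := by
    constructor
    intro a b v
    obtain ⟨v, rfl⟩ := W.mkQ_surjective v
    show W.mkQ ((a • b) • v) = W.mkQ (a • b • v)
    rw [smul_assoc]
  have st2 : IsScalarTower ℂ C (V ⧸ W) := by
    constructor
    intro a b v
    obtain ⟨v, rfl⟩ := W.mkQ_surjective v
    show W.mkQ ((a • b) • v) = W.mkQ (a • b • v)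
    rw [smul_assoc]
  have st3 : IsScalarTower K C (V ⧸ W) := by
    constructor
    intro a b v
    obtain ⟨v, rfl⟩ := W.mkQ_surjective v
    show W.mkQ ((a • b) • v) = W.mkQ (a • b • v)
    rw [smul_assoc]
  have hfin : Module.Finite K (V ⧸ W) := Module.Finite.of_surjective q hqs
  set E₁ : Chart → Submodule ℂ V := fun s => F s ⊓ LinearMap.ker (q.restrictScalars ℂ) with hE₁
  have hmem : ∀ s v, v ∈ E₁ s ↔ v ∈ F s ∧ q v = 0 := fun s v => Iff.rfl
  have hlat : IsLat E₁ := hF.inf_ker q
  have hOE₁ : O • E₁ = E₁ := by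
    apply stab hO
    intro s r hr v hv
    rw [hmem] at hv ⊢
    exact ⟨stab' hOF hr hv.1, by rw [hqC, hv.2, smul_zero]⟩
  have hEE : E ≤ E₁ := by
    intro s v hv
    exact (hmem s v).2 ⟨hEF s hv, (hq0 v).2 (hE.mem_span hv)⟩
  refine ⟨E₁, hlat, hOE₁, hEE, fun s => inf_le_left, ?_, V ⧸ W, inferInstance, inferInstance,
    inferInstance, st1, inferInstance, st2, st3, hfin, mapL q F, hF.map q, ?_, ?_, ?_⟩
  · rw [hlat.lead_eq, hE.lead_eq]
    have : Submodule.span K (E₁ (false, false) : Set V) =
        Submodule.span K (E (false, false) : Set V) := by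
      apply le_antisymm
      · rw [Submodule.span_le]
        intro v hv
        exact (hq0 v).1 ((hmem _ v).1 hv).2
      · exact Submodule.span_mono (hEE _)
    rw [this]
  · apply stab hO
    rintro s r hr v ⟨v, hv, rfl⟩
    exact ⟨r • v, stab' hOF hr hv, hqC r v⟩
  · intro a b
    have := hF.chi_map q a b
    linarith
  · intro E' hE' hOE' hE'F
    set E'' : Chart → Submodule ℂ V := fun s => F s ⊓ (E' s).comap (q.restrictScalars ℂ) with hE''
    have hmem2 : ∀ s v, v ∈ E'' s ↔ v ∈ F s ∧ q v ∈ E' s := fun s v => Iff.rfl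
    have hlat2 : IsLat E'' := hF.inf_comap hE' q
    refine ⟨E'', hlat2, ?_, fun s => inf_le_left, ?_⟩
    · apply stab hO
      intro s r hr v hv
      rw [hmem2] at hv ⊢
      refine ⟨stab' hOF hr hv.1, ?_⟩
      rw [hqC]
      exact stab' hOE' hr hv.2
    · intro a b
      have h1 := hlat2.chi_map q a b
      have h2 : mapL q E'' = E' := by
        funext s
        apply le_antisymm
        · rintro _ ⟨v, hv, rfl⟩
          exact ((hmem2 s v).1 hv).2
        · intro v' hv'
          obtain ⟨v, hv, rfl⟩ := hE'F s hv'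
          exact ⟨v, (hmem2 s v).2 ⟨hv, hv'⟩, rfl⟩
      have h3 : (fun s => E'' s ⊓ LinearMap.ker (q.restrictScalars ℂ)) = E₁ := by
        funext s
        ext v
        constructor
        · rintro ⟨hv1, hv2⟩
          exact ⟨hv1.1, hv2⟩
        · rintro ⟨hv1, hv2⟩
          refine ⟨⟨hv1, ?_⟩, hv2⟩
          have hv3 : q v = 0 := hv2
          show q v ∈ E' s
          rw [hv3]
          exact Submodule.zero_mem _
      rw [h2, h3] at h1
      linarith

end Pool.Agent.Lib.LP.TW
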