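import Pool.Agent.Lib.MP_865fc0_ag.TW.Spec

/-! # Module REA: monomial multiples of local sections which are coboundaries. -/

set_option autoImplicit false

open scoped Pointwise
open Filter

namespace Pool.Agent.Lib.LP.TW

namespace REAM

lemma mon_neg' (p : ℤ × ℤ) : mon (-p) = (mon p)⁻¹ := by
  have h : mon (-p) * mon p = 1 := by
    rw [← mon_add, neg_add_cancel, mon_zero]
  exact eq_inv_of_mul_eq_one_left h

lemma wab_eq (t : Chart) (a b : ℤ) :
    wx t ^ a * wu t ^ b = mon ((if t.1 then a else 0), (if t.2 then b else 0)) := by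
  unfold wx wu mon
  split_ifs <;> simp

lemma wdiv_eq (s t : Chart) (m : ℕ) : (w s / w t) ^ m =
    mon ((if s.1 then (m : ℤ) else 0) - (if t.1 then (m : ℤ) else 0),
      (if s.2 then (m : ℤ) else 0) - (if t.2 then (m : ℤ) else 0)) := by
  have h : ∀ r : Chart, w r ^ m = w r ^ (m : ℤ) := fun r => (zpow_natCast _ _).symm
  rw [div_pow, h s, h t, w_pow_eq_mon, w_pow_eq_mon, div_eq_mul_inv, ← mon_neg', ← mon_add]
  congr 1

variable {V : Type} [AddCommGroup V] [Module ℂ V] [Module K V] [IsScalarTower ℂ K V]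

lemma secmem {F : Chart → Submodule ℂ V} (hF : IsLat F) {s : Chart} {v : V} (hv : v ∈ F s) :
    ∃ m : ℕ, ∀ p q a b : ℤ, (if s.1 then (m : ℤ) else 0) ≤ p →
      p + m - (if s.1 then (m : ℤ) else 0) ≤ a → (if s.2 then (m : ℤ) else 0) ≤ q →
      q + m - (if s.2 then (m : ℤ) else 0) ≤ b → mon (p, q) • v ∈ Sec F a b := by
  obtain ⟨m, hm⟩ := hF.glue_all hv
  refine ⟨m, fun p q a b h1 h2 h3 h4 => ?_⟩
  rw [mem_Sec]
  intro t
  have h5 := hm m le_rfl t
  have h6 : (wx t ^ a * wu t ^ b)⁻¹ * mon (p, q) =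
      mon (p - (if t.1 then a else 0) - ((if s.1 then (m : ℤ) else 0) -
          (if t.1 then (m : ℤ) else 0)),
        q - (if t.2 then b else 0) - ((if s.2 then (m : ℤ) else 0) -
          (if t.2 then (m : ℤ) else 0))) * (w s / w t) ^ m := by
    rw [wab_eq, wdiv_eq, ← mon_neg', ← mon_add, ← mon_add]
    congr 1
    ext
    · simp only [Prod.fst_add, Prod.neg_mk]
      ring
    · simp only [Prod.snd_add, Prod.neg_mk]
      ring
  rw [smul_smul, h6, mul_smul]
  refine hF.smul_mem ?_ h5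
  rw [R_eq]
  apply mon_mem_MonS
  simp only [Quad, Set.mem_ofPred_eq]
  constructor
  · by_cases ht : t.1 = true
    · simp only [ht, if_true]
      omega
    · simp only [ht, Bool.false_eq_true, if_false]
      omega
  · by_cases ht : t.2 = true
    · simp only [ht, if_true]
      omega
    · simp only [ht, Bool.false_eq_true, if_false]
      omega

lemma zmem {F : Chart → Submodule ℂ V} (N : ℕ) {g : V} (h : (x * u) ^ N • g ∈ Bd F N) :
    g ∈ Zs F := by
  have hne : (x * u) ^ N ≠ 0 := pow_ne_zero _ (mul_ne_zero x_ne_zero u_ne_zero)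
  have h1 : g ∈ line (((x * u) ^ N)⁻¹) • Bd F N := by
    rw [mem_line_smul]
    refine ⟨_, h, ?_⟩
    rw [smul_smul, inv_mul_cancel₀ hne, one_smul]
  exact (le_iSup (fun N : ℕ => line (((x * u) ^ N)⁻¹) • Bd F N) N) h1

end REAM

open REAM

theorem specREA : SpecREA := by
  intro V _ _ _ _ F hF s v hv i j hc
  obtain ⟨m, hm⟩ := secmem hF hv
  obtain ⟨N, hN⟩ : ∃ N : ℕ, (N : ℤ) = |i| + |j| + m := by
    refine ⟨(|i| + |j| + m).toNat, ?_⟩
    have h1 := abs_nonneg i
    have h2 := abs_nonneg j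
    omega
  have hi1 := le_abs_self i
  have hi2 := neg_abs_le i
  have hj1 := le_abs_self j
  have hj2 := neg_abs_le j
  have hx : (x : K) ^ N = mon ((N : ℤ), 0) := by simp [mon]
  have hu : (u : K) ^ N = mon (0, (N : ℤ)) := by simp [mon]
  have hxu : (x * u : K) ^ N = x ^ N * u ^ N := mul_pow _ _ _
  refine zmem N ?_
  have hs1 : (if s.1 then (m : ℤ) else 0) ≤ m ∧ 0 ≤ (if s.1 then (m : ℤ) else 0) := by
    split_ifs <;> omega
  have hs2 : (if s.2 then (m : ℤ) else 0) ≤ m ∧ 0 ≤ (if s.2 then (m : ℤ) else 0) := by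
    split_ifs <;> omega
  have e1 : (x * u : K) ^ N • (mon (i, j) • v) = (x : K) ^ N • (mon (i, N + j) • v) := by
    rw [hxu, hx, hu, smul_smul, smul_smul, ← mon_add, ← mon_add, ← mon_add]
    congr 2
    ext <;> simp
  have e2 : (x * u : K) ^ N • (mon (i, j) • v) = mon (N + i, N + j) • v := by
    rw [hxu, hx, hu, smul_smul, ← mon_add, ← mon_add]
    congr 2
    ext <;> simp
  have e3 : (x * u : K) ^ N • (mon (i, j) • v) = (u : K) ^ N • (mon (N + i, j) • v) := by
    rw [hxu, hx, hu, smul_smul, smul_smul, ← mon_add, ← mon_add, ← mon_add]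
    congr 2
    ext <;> simp
  unfold Bd
  rcases hc with ⟨h0, h⟩ | ⟨h0, h⟩ | ⟨h0, h⟩ | ⟨h0, h⟩
  · rw [e1]
    refine Submodule.mem_sup_left (Submodule.mem_sup_right (mem_line_smul.mpr ⟨_, ?_, rfl⟩))
    refine hm _ _ _ _ ?_ ?_ ?_ ?_
    · simp only [h0, Bool.false_eq_true, if_false]
      omega
    · simp only [h0, Bool.false_eq_true, if_false]
      omega
    · omega
    · omega
  · rw [e2]
    refine Submodule.mem_sup_left (Submodule.mem_sup_left ?_)
    refine hm _ _ _ _ ?_ ?_ ?_ ?_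
    · simp only [h0, if_true]
      omega
    · simp only [h0, if_true]
      omega
    · omega
    · omega
  · rw [e3]
    refine Submodule.mem_sup_right (Submodule.mem_sup_right (mem_line_smul.mpr ⟨_, ?_, rfl⟩))
    refine hm _ _ _ _ ?_ ?_ ?_ ?_
    · omega
    · omega
    · simp only [h0, Bool.false_eq_true, if_false]
      omega
    · simp only [h0, Bool.false_eq_true, if_false]
      omega
  · rw [e2]
    refine Submodule.mem_sup_right (Submodule.mem_sup_left ?_)
    refine hm _ _ _ _ ?_ ?_ ?_ ?_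
    · omega
    · omega
    · simp only [h0, if_true]
      omega
    · simp only [h0, if_true]
      omega

end Pool.Agent.Lib.LP.TW
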