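import Pool.Agent.Lib.MP_865fc0_ag.TW.Spec

/-!
# MP_865fc0_ag, module REB: the residue pairing with values in the function field
-/

set_option autoImplicit false

open scoped Pointwise
open Filter

namespace Pool.Agent.Lib.LP.TW

noncomputable section

namespace REBM

/-- the exponent of the dual monomial -/
def tau (p : ℤ × ℤ) : ℤ × ℤ := (-p.1 - 1, -p.2 - 1)

theorem tau_inj : Function.Injective tau := by
  intro p q h
  have h1 := congrArg Prod.fst h
  have h2 := congrArg Prod.snd h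
  simp only [tau] at h1 h2
  ext <;> omega

theorem mon_smul_mon {V : Type} [AddCommGroup V] [Module K V] (p q : ℤ × ℤ) (v : V) :
    mon p • mon q • v = mon (p + q) • v := by
  rw [← mul_smul, ← mon_add]

theorem xu_pow (n : ℕ) : (x * u) ^ n = mon ((n : ℤ), (n : ℤ)) := by
  unfold mon
  rw [mul_pow, zpow_natCast, zpow_natCast]

theorem ww_pow (m : ℕ) :
    (w (false, false) / w (true, true)) ^ m = mon (-(m : ℤ), -(m : ℤ)) := by
  have h1 : w (false, false) = 1 := by simp [w, wx, wu]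
  have h2 : w (true, true) = x * u := by simp [w, wx, wu]
  rw [h1, h2, one_div, inv_pow, xu_pow]
  unfold mon
  rw [mul_inv, zpow_neg, zpow_neg]

end REBM

open REBM in
theorem specREB (hREA : SpecREA) : SpecREB := by
  intro V _ _ _ _ F hF Λ hΛ
  -- (S1)
  have S1 : ∀ (s : Chart) (v : V), v ∈ F s → ∀ p : ℤ × ℤ, Λ (mon p • v) ≠ 0 →
      (s.1 = false → p.1 < 0) ∧ (s.1 = true → 0 < p.1) ∧ (s.2 = false → p.2 < 0) ∧
        (s.2 = true → 0 < p.2) := by
    intro s v hv p hp
    have key : ¬ ((s.1 = false ∧ 0 ≤ p.1) ∨ (s.1 = true ∧ p.1 ≤ 0) ∨ (s.2 = false ∧ 0 ≤ p.2) ∨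
        (s.2 = true ∧ p.2 ≤ 0)) := fun h => hp (hΛ _ (hREA V F hF s v hv p.1 p.2 h))
    refine ⟨fun h => ?_, fun h => ?_, fun h => ?_, fun h => ?_⟩
    · by_contra hc
      exact key (Or.inl ⟨h, not_lt.1 hc⟩)
    · by_contra hc
      exact key (Or.inr (Or.inl ⟨h, not_lt.1 hc⟩))
    · by_contra hc
      exact key (Or.inr (Or.inr (Or.inl ⟨h, not_lt.1 hc⟩)))
    · by_contra hc
      exact key (Or.inr (Or.inr (Or.inr ⟨h, not_lt.1 hc⟩)))
  -- (S2)
  have S2 : ∀ v ∈ Gs F, (Function.support fun p : ℤ × ℤ => Λ (mon p • v)).Finite := by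
    rintro v ⟨n, hn⟩
    rw [xu_pow] at hn
    obtain ⟨m, hm⟩ := hF.glue (false, false) (true, true) _ hn
    rw [ww_pow, mon_smul_mon] at hm
    refine ((Set.finite_Icc ((n : ℤ) - m) n).prod (Set.finite_Icc ((n : ℤ) - m) n)).subset ?_
    intro p hp
    rw [Function.mem_support] at hp
    have h1 := S1 _ _ hn (p - ((n : ℤ), (n : ℤ))) (by rw [mon_smul_mon, sub_add_cancel]; exact hp)
    have h2 := S1 _ _ hm (p - ((-(m : ℤ), -(m : ℤ)) + ((n : ℤ), (n : ℤ))))
      (by rw [mon_smul_mon, sub_add_cancel]; exact hp)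
    have a1 := h1.1 rfl
    have a2 := h1.2.2.1 rfl
    have a3 := h2.2.1 rfl
    have a4 := h2.2.2.2 rfl
    simp only [Prod.fst_sub, Prod.snd_sub, Prod.fst_add, Prod.snd_add] at a1 a2 a3 a4
    refine ⟨⟨?_, ?_⟩, ⟨?_, ?_⟩⟩ <;> omega
  have S3 : ∀ v ∈ Gs F,
      (Function.support fun p : ℤ × ℤ => Λ (mon p • v) • mon (tau p)).Finite := by
    intro v hv
    refine (S2 v hv).subset ?_
    intro p hp
    rw [Function.mem_support] at hp ⊢
    intro h
    apply hp
    rw [h, zero_smul]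
  refine ⟨fun v => ∑ᶠ p : ℤ × ℤ, Λ (mon p • v) • mon (tau p), ?_, ?_, ?_, ?_, ?_⟩
  · intro v hv v' hv'
    change ∑ᶠ p : ℤ × ℤ, Λ (mon p • (v + v')) • mon (tau p) = _
    rw [← finsum_add_distrib (S3 v hv) (S3 v' hv')]
    refine finsum_congr fun p => ?_
    rw [smul_add, map_add, add_smul]
  · intro v hv c
    change ∑ᶠ p : ℤ × ℤ, Λ (mon p • (c • v)) • mon (tau p) = c • ∑ᶠ p : ℤ × ℤ, _
    rw [smul_finsum]
    refine finsum_congr fun p => ?_
    rw [smul_comm (mon p) c v, map_smul, smul_assoc]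
  · intro v hv q
    change ∑ᶠ p : ℤ × ℤ, Λ (mon p • (mon q • v)) • mon (tau p) = mon q * ∑ᶠ p : ℤ × ℤ, _
    rw [← finsum_comp_equiv (Equiv.addRight q) (f := fun p : ℤ × ℤ => Λ (mon p • v) • mon (tau p)),
      mul_finsum]
    refine finsum_congr fun p => ?_
    change _ = mon q * (Λ (mon (p + q) • v) • mon (tau (p + q)))
    rw [mon_smul_mon, mul_smul_comm, ← mon_add]
    congr 2
    ext
    · simp only [tau, Prod.fst_add]; omega
    · simp only [tau, Prod.snd_add]; omega
  · intro v hv h0 hc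
    change ∑ᶠ p : ℤ × ℤ, Λ (mon p • v) • mon (tau p) = 0 at hc
    rw [finsum_eq_sum_of_support_subset _ (s := (S2 v hv).toFinset) (by
      intro p hp
      rw [Set.Finite.coe_toFinset]
      rw [Function.mem_support] at hp ⊢
      intro h
      apply hp
      rw [h, zero_smul])] at hc
    have hli := linearIndependent_mon.comp tau tau_inj
    have h1 := linearIndependent_iff'.1 hli (S2 v hv).toFinset (fun p => Λ (mon p • v)) hc 0
      (by
        rw [Set.Finite.mem_toFinset, Function.mem_support, mon_zero, one_smul]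
        exact h0)
    rw [mon_zero, one_smul] at h1
    exact h0 h1
  · intro s v hv
    change ∑ᶠ p : ℤ × ℤ, Λ (mon p • v) • mon (tau p) ∈ tw (-2) (-2) R s
    unfold tw
    rw [line_wab_smul_R]
    refine finsum_induction (fun z => z ∈ MonS (Quad2 s (-2) (-2))) (Submodule.zero_mem _)
      (fun a b ha hb => Submodule.add_mem _ ha hb) ?_
    intro p
    by_cases hp : Λ (mon p • v) = 0
    · rw [hp, zero_smul]
      exact Submodule.zero_mem _
    · refine Submodule.smul_mem _ _ (mon_mem_MonS ?_)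
      obtain ⟨h1, h2, h3, h4⟩ := S1 s v hv p hp
      simp only [Quad2, Set.mem_ofPred_eq, tau]
      obtain ⟨s1, s2⟩ := s
      cases s1 <;> cases s2 <;> simp at h1 h2 h3 h4 ⊢ <;> omega

end

end Pool.Agent.Lib.LP.TW
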