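import Pool.Agent.Lib.MP_865fc0_ag.TW.Spec
import Pool.Agent.Lib.MP_865fc0_ag.Poly

/-!
# MP_865fc0_ag, TW: module REC
-/

set_option autoImplicit false

open scoped Pointwise

namespace Pool.Agent.Lib.LP.TW

namespace RECM

variable {V : Type} [AddCommGroup V] [Module ℂ V] [Module K V] [IsScalarTower ℂ K V]
variable {F : Chart → Submodule ℂ V}

theorem mon_mem_R {q : ℤ × ℤ} (h1 : 0 ≤ q.1) (h2 : 0 ≤ q.2) : mon q ∈ R (false, false) := by
  rw [R_eq]
  apply mon_mem_MonS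
  simp only [Quad, Set.mem_ofPred_eq]
  simp [h1, h2]

theorem xu_pow (n : ℕ) : (x * u) ^ n = mon ((n : ℤ), (n : ℤ)) := by
  unfold mon
  rw [mul_pow, zpow_natCast, zpow_natCast]

theorem gs_mono (hF : IsLat F) {v : V} {n m : ℕ} (hnm : n ≤ m)
    (h : (x * u) ^ n • v ∈ F (false, false)) : (x * u) ^ m • v ∈ F (false, false) := by
  obtain ⟨k, rfl⟩ := Nat.exists_eq_add_of_le hnm
  rw [pow_add, mul_comm, mul_smul]
  apply hF.smul_mem _ h
  rw [xu_pow]
  exact mon_mem_R (by simp) (by simp)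

theorem gs_of_mem {v : V} (h : v ∈ F (false, false)) : v ∈ Gs F :=
  ⟨0, by rw [pow_zero, one_smul]; exact h⟩

theorem gs_add (hF : IsLat F) {v v' : V} (h : v ∈ Gs F) (h' : v' ∈ Gs F) : v + v' ∈ Gs F := by
  obtain ⟨n, hn⟩ := h
  obtain ⟨m, hm⟩ := h'
  refine ⟨max n m, ?_⟩
  rw [smul_add]
  exact Submodule.add_mem _ (gs_mono hF (le_max_left _ _) hn) (gs_mono hF (le_max_right _ _) hm)

theorem gs_smul {v : V} (c : ℂ) (h : v ∈ Gs F) : c • v ∈ Gs F := by
  obtain ⟨n, hn⟩ := h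
  refine ⟨n, ?_⟩
  rw [smul_comm]
  exact Submodule.smul_mem _ _ hn

theorem gs_mon (hF : IsLat F) {v : V} (q : ℤ × ℤ) (h : v ∈ Gs F) : mon q • v ∈ Gs F := by
  obtain ⟨n, hn⟩ := h
  refine ⟨(q.1.natAbs + q.2.natAbs) + n, ?_⟩
  have h1 : (x * u) ^ ((q.1.natAbs + q.2.natAbs) + n) • mon q • v =
      mon (((q.1.natAbs + q.2.natAbs : ℕ) : ℤ) + q.1, ((q.1.natAbs + q.2.natAbs : ℕ) : ℤ) + q.2) •
        (x * u) ^ n • v := by
    rw [smul_smul, smul_smul]
    congr 1
    have h2 : (((q.1.natAbs + q.2.natAbs : ℕ) : ℤ) + q.1,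
        ((q.1.natAbs + q.2.natAbs : ℕ) : ℤ) + q.2) =
        (((q.1.natAbs + q.2.natAbs : ℕ) : ℤ), ((q.1.natAbs + q.2.natAbs : ℕ) : ℤ)) + q := by
      ext <;> simp
    rw [h2, mon_add, ← xu_pow, pow_add]
    ring
  rw [h1]
  apply hF.smul_mem _ hn
  apply mon_mem_R
  · show 0 ≤ ((q.1.natAbs + q.2.natAbs : ℕ) : ℤ) + q.1
    omega
  · show 0 ≤ ((q.1.natAbs + q.2.natAbs : ℕ) : ℤ) + q.2
    omega

theorem main (V : Type) [AddCommGroup V] [Module ℂ V] [Module K V]
    [IsScalarTower ℂ K V] [Module.Finite K V] (F : Chart → Submodule ℂ V) (hF : IsLat F)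
    (Φ : V → K)
    (hadd : ∀ v ∈ Gs F, ∀ v' ∈ Gs F, Φ (v + v') = Φ v + Φ v')
    (hsm : ∀ v ∈ Gs F, ∀ c : ℂ, Φ (c • v) = c • Φ v)
    (hmon : ∀ v ∈ Gs F, ∀ q : ℤ × ℤ, Φ (mon q • v) = mon q * Φ v) :
    ∃ φ : V →ₗ[K] K, ∀ v ∈ Gs F, φ v = Φ v := by
  have h0 : (0 : V) ∈ Gs F := gs_of_mem (Submodule.zero_mem _)
  have hΦ0 : Φ 0 = 0 := by
    have := hsm 0 h0 0
    rwa [zero_smul, zero_smul] at this
  -- linearity over the coordinate ring
  have hR : ∀ r ∈ R (false, false), ∀ v ∈ Gs F, r • v ∈ Gs F ∧ Φ (r • v) = r * Φ v := by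
    intro r hr v hv
    rw [R_eq] at hr
    unfold MonS at hr
    induction hr using Submodule.span_induction with
    | mem r hr =>
      obtain ⟨q, -, rfl⟩ := hr
      exact ⟨gs_mon hF q hv, hmon v hv q⟩
    | zero =>
      rw [zero_smul, zero_mul]
      exact ⟨h0, hΦ0⟩
    | add a b _ _ ha hb =>
      rw [add_smul, add_mul]
      exact ⟨gs_add hF ha.1 hb.1, by rw [hadd _ ha.1 _ hb.1, ha.2, hb.2]⟩
    | smul c a _ ha =>
      rw [smul_assoc, smul_mul_assoc]
      exact ⟨gs_smul c ha.1, by rw [hsm _ ha.1, ha.2]⟩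
  obtain ⟨b, hbF, hspan, hli⟩ := exists_linearIndependent K (F (false, false) : Set V)
  have hli' : LinearIndepOn K id b := hli
  let B := Module.Basis.extend hli'
  let φ : V →ₗ[K] K := B.constr K (fun i => Φ i.1)
  have hφb : ∀ v ∈ b, φ v = Φ v := by
    intro v hv
    have hv' : v ∈ hli'.extend (Set.subset_univ b) := hli'.subset_extend _ hv
    have h1 : B ⟨v, hv'⟩ = v := Module.Basis.extend_apply_self hli' ⟨v, hv'⟩
    have h2 := B.constr_basis K (fun i => Φ i.1) ⟨v, hv'⟩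
    rw [h1] at h2
    exact h2
  refine ⟨φ, fun g hg => ?_⟩
  have key : ∀ g ∈ Submodule.span K b, ∃ r ∈ R (false, false), r ≠ 0 ∧ r • g ∈ Gs F ∧
      φ (r • g) = Φ (r • g) := by
    intro g hg
    induction hg using Submodule.span_induction with
    | mem g hg =>
      refine ⟨1, one_mem_R _, one_ne_zero, ?_, ?_⟩
      · rw [one_smul]; exact gs_of_mem (hbF hg)
      · rw [one_smul]; exact hφb g hg
    | zero =>
      refine ⟨1, one_mem_R _, one_ne_zero, ?_, ?_⟩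
      · rw [smul_zero]; exact h0
      · rw [smul_zero, map_zero, hΦ0]
    | add a c _ _ ha hc =>
      obtain ⟨r, hr, hr0, h1, h2⟩ := ha
      obtain ⟨r', hr', hr0', h3, h4⟩ := hc
      have e : (r * r') • (a + c) = r' • (r • a) + r • (r' • c) := by
        rw [smul_add, smul_smul, smul_smul, mul_comm r' r]
      have h5 := hR r' hr' _ h1
      have h6 := hR r hr _ h3
      refine ⟨r * r', ?_, mul_ne_zero hr0 hr0', ?_, ?_⟩
      · exact (Ralg (false, false)).mul_mem hr hr'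
      · rw [e]; exact gs_add hF h5.1 h6.1
      · rw [e, map_add, hadd _ h5.1 _ h6.1, h5.2, h6.2, map_smul φ r' (r • a), map_smul φ r (r' • c),
          h2, h4]
        rfl
    | smul k a _ ha =>
      obtain ⟨r, hr, hr0, h1, h2⟩ := ha
      obtain ⟨c, hc, d, hd, hk⟩ := exists_frac (false, false) k
      by_cases hd0 : d = 0
      · have hk0 : k = 0 := by rw [hk, hd0, div_zero]
        refine ⟨1, one_mem_R _, one_ne_zero, ?_, ?_⟩
        · rw [hk0, zero_smul, smul_zero]; exact h0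
        · rw [hk0, zero_smul, smul_zero, map_zero, hΦ0]
      · have e : (d * r) • (k • a) = c • (r • a) := by
          rw [smul_smul, smul_smul, hk]
          congr 1
          field_simp
        have h5 := hR c hc _ h1
        refine ⟨d * r, (Ralg (false, false)).mul_mem hd hr, mul_ne_zero hd0 hr0, ?_, ?_⟩
        · rw [e]; exact h5.1
        · rw [e, h5.2, map_smul φ c (r • a), h2]; rfl
  have hgs : g ∈ Submodule.span K b := by
    rw [hspan]
    obtain ⟨n, hn⟩ := hg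
    have h1 : (x * u) ^ n ≠ 0 := pow_ne_zero _ (mul_ne_zero x_ne_zero u_ne_zero)
    have h2 : g = ((x * u) ^ n)⁻¹ • ((x * u) ^ n • g) := by
      rw [smul_smul, inv_mul_cancel₀ h1, one_smul]
    rw [h2]
    exact Submodule.smul_mem _ _ (Submodule.subset_span hn)
  obtain ⟨r, hr, hr0, h1, h2⟩ := key g hgs
  rw [(hR r hr g hg).2, map_smul] at h2
  exact mul_left_cancel₀ hr0 h2

end RECM

theorem specREC : SpecREC := fun V _ _ _ _ _ F hF Φ h1 h2 h3 => RECM.main V F hF Φ h1 h2 h3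

end Pool.Agent.Lib.LP.TW
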