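import Pool.Agent.Lib.MP_865fc0_ag.TW.SpecC

/-!
# MP_865fc0_ag, TW, module RND: the Harder-Narasimhan polygon below a cyclic cover

From FIL: the sheaves `J j ≤ F` over `O'` have `∑ lead (J j) = d lead G` and
`∑ (lam (J j) - 2 a j lead (J j)) = d lam G - a d (d-1) lead G`; semistability bounds `lam (J j)`.
-/

set_option autoImplicit false

open scoped Pointwise
open Filter

namespace Pool.Agent.Lib.LP.TW

noncomputable section

namespace RNDM

variable {V : Type} [AddCommGroup V] [Module ℂ V] [Module K V] [IsScalarTower ℂ K V]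

theorem lead_mono [Module.Finite K V] {E F : Chart → Submodule ℂ V} (hE : IsLat E) (hF : IsLat F)
    (h : E ≤ F) : lead E ≤ lead F := by
  rw [hE.lead_eq, hF.lead_eq]
  exact_mod_cast Submodule.finrank_mono (Submodule.span_mono (h (false, false)))

theorem lead_shift [Module.Finite K V] {F : Chart → Submodule ℂ V} (hF : IsLat F) (s : ℤ) :
    chi F (1 - s) (1 - s) - chi F (1 - s) (0 - s) - chi F (0 - s) (1 - s) + chi F (0 - s) (0 - s) =
      lead F := by
  rw [hF.chi_eq (1 - s) (1 - s), hF.chi_eq (1 - s) (0 - s), hF.chi_eq (0 - s) (1 - s),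
    hF.chi_eq (0 - s) (0 - s)]
  ring

theorem lam_shift [Module.Finite K V] {F : Chart → Submodule ℂ V} (hF : IsLat F) (s : ℤ) :
    chi F (1 - s) (0 - s) + chi F (0 - s) (1 - s) - 2 * chi F (0 - s) (0 - s) =
      lam F - 2 * s * lead F := by
  rw [hF.chi_eq (1 - s) (0 - s), hF.chi_eq (0 - s) (1 - s), hF.chi_eq (0 - s) (0 - s)]
  unfold lam
  ring

theorem gauss (a : ℚ) (d : ℕ) :
    ∑ j ∈ Finset.range d, 2 * a * (j : ℚ) = a * d * (d - 1) := by
  induction d with
  | zero => simp
  | succ n ih =>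
    rw [Finset.sum_range_succ, ih]
    push_cast
    ring

end RNDM

open RNDM in
theorem specRND (hFIL : SpecFIL) : SpecRND := by
  intro C C' _ _ _ _ _ _ _ _ _ _ _ O O' d a y hO hO' hcov V _ _ _ _ _ _ _ _ _ _ _ _ F hF hOF
    hst h0 G hG hOG hGF τ
  obtain ⟨J, hJ, hsum⟩ := hFIL C C' O O' d a y hO hO' hcov V F hF hOF G hG hOG hGF
  have hJL : ∀ j < d, IsLat (J j) := fun j hj => (hJ j hj).1
  -- the two sum identities
  have e11 := hsum 1 1
  have e10 := hsum 1 0
  have e01 := hsum 0 1
  have e00 := hsum 0 0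
  have h1 : ∑ j ∈ Finset.range d, lead (J j) = ∑ j ∈ Finset.range d, lead G := by
    have hl : ∑ j ∈ Finset.range d, lead (J j) =
        ∑ j ∈ Finset.range d, (chi (J j) (1 - (a * j : ℕ)) (1 - (a * j : ℕ)) -
          chi (J j) (1 - (a * j : ℕ)) (0 - (a * j : ℕ)) -
          chi (J j) (0 - (a * j : ℕ)) (1 - (a * j : ℕ)) +
          chi (J j) (0 - (a * j : ℕ)) (0 - (a * j : ℕ))) := by
      refine Finset.sum_congr rfl fun j hj => ?_
      exact (lead_shift (hJL j (Finset.mem_range.mp hj)) _).symm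
    have hr : ∑ j ∈ Finset.range d, lead G =
        ∑ j ∈ Finset.range d, (chi G (1 - (a * j : ℕ)) (1 - (a * j : ℕ)) -
          chi G (1 - (a * j : ℕ)) (0 - (a * j : ℕ)) -
          chi G (0 - (a * j : ℕ)) (1 - (a * j : ℕ)) +
          chi G (0 - (a * j : ℕ)) (0 - (a * j : ℕ))) := by
      refine Finset.sum_congr rfl fun j _ => ?_
      exact (lead_shift hG _).symm
    rw [hl, hr]
    simp only [Finset.sum_add_distrib, Finset.sum_sub_distrib]
    rw [e11, e10, e01, e00]
  have h2 : ∑ j ∈ Finset.range d, (lam (J j) - 2 * ((a * j : ℕ) : ℤ) * lead (J j)) =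
      ∑ j ∈ Finset.range d, (lam G - 2 * ((a * j : ℕ) : ℤ) * lead G) := by
    have hl : ∑ j ∈ Finset.range d, (lam (J j) - 2 * ((a * j : ℕ) : ℤ) * lead (J j)) =
        ∑ j ∈ Finset.range d, (chi (J j) (1 - (a * j : ℕ)) (0 - (a * j : ℕ)) +
          chi (J j) (0 - (a * j : ℕ)) (1 - (a * j : ℕ)) -
          2 * chi (J j) (0 - (a * j : ℕ)) (0 - (a * j : ℕ))) := by
      refine Finset.sum_congr rfl fun j hj => ?_
      exact (lam_shift (hJL j (Finset.mem_range.mp hj)) _).symm
    have hr : ∑ j ∈ Finset.range d, (lam G - 2 * ((a * j : ℕ) : ℤ) * lead G) =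
        ∑ j ∈ Finset.range d, (chi G (1 - (a * j : ℕ)) (0 - (a * j : ℕ)) +
          chi G (0 - (a * j : ℕ)) (1 - (a * j : ℕ)) -
          2 * chi G (0 - (a * j : ℕ)) (0 - (a * j : ℕ))) := by
      refine Finset.sum_congr rfl fun j _ => ?_
      exact (lam_shift hG _).symm
    rw [hl, hr]
    simp only [Finset.sum_add_distrib, Finset.sum_sub_distrib, ← Finset.mul_sum]
    rw [e10, e01, e00]
  -- over the rationals
  have h1q : ∑ j ∈ Finset.range d, (lead (J j) : ℚ) = d * lead G := by
    have h := congrArg (fun z : ℤ => (z : ℚ)) h1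
    simp only [Int.cast_sum, Finset.sum_const, Finset.card_range, nsmul_eq_mul, Int.cast_mul,
      Int.cast_natCast] at h
    exact h
  have h2q : ∑ j ∈ Finset.range d, ((lam (J j) : ℚ) - 2 * a * j * lead (J j)) =
      d * lam G - a * d * (d - 1) * lead G := by
    have h := congrArg (fun z : ℤ => (z : ℚ)) h2
    simp only [Int.cast_sum, Int.cast_sub, Int.cast_mul, Int.cast_ofNat, Int.cast_natCast,
      Nat.cast_mul] at h
    have hL : ∑ j ∈ Finset.range d, ((lam (J j) : ℚ) - 2 * a * j * lead (J j)) =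
        ∑ j ∈ Finset.range d, ((lam (J j) : ℚ) - 2 * (a * j) * lead (J j)) :=
      Finset.sum_congr rfl fun j _ => by ring
    have hR : ∑ j ∈ Finset.range d, ((lam G : ℚ) - 2 * (a * j) * lead G) =
        d * lam G - a * d * (d - 1) * lead G := by
      rw [Finset.sum_sub_distrib, Finset.sum_const, Finset.card_range, nsmul_eq_mul,
        ← gauss (a : ℚ) d, Finset.sum_mul]
      congr 1
      exact Finset.sum_congr rfl fun j _ => by ring
    rw [hL, h, hR]
  have hleadF : (0 : ℚ) < lead F := by exact_mod_cast h0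
  -- the bound for one term
  have hterm : ∀ j ∈ Finset.range d,
      ((lam (J j) : ℚ) - 2 * a * j * lead (J j)) + (a * (d - 1) - τ) * lead (J j) ≤
        lead F * max 0 (mm F + a * (d - 1) - 2 * a * j - τ) := by
    intro j hj
    obtain ⟨hL, hOJ, hJF⟩ := hJ j (Finset.mem_range.mp hj)
    have hn : (0 : ℚ) ≤ lead (J j) := by exact_mod_cast hL.lead_nonneg
    have hm : (lead (J j) : ℚ) ≤ lead F := by exact_mod_cast lead_mono hL hF hJF
    have hs : lam (J j) * lead F ≤ lam F * lead (J j) := hst (J j) hL hOJ hJF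
    have hsq : (lam (J j) : ℚ) * lead F ≤ lam F * lead (J j) := by exact_mod_cast hs
    have hl : (lam (J j) : ℚ) ≤ mm F * lead (J j) := by
      unfold mm
      rw [div_mul_eq_mul_div, le_div_iff₀ hleadF]
      exact hsq
    have h3 : ((lam (J j) : ℚ) - 2 * a * j * lead (J j)) + (a * (d - 1) - τ) * lead (J j) ≤
        lead (J j) * (mm F + a * (d - 1) - 2 * a * j - τ) := by
      nlinarith [hl]
    have h4 : lead (J j) * (mm F + a * (d - 1) - 2 * a * j - τ) ≤
        lead (J j) * max 0 (mm F + a * (d - 1) - 2 * a * j - τ) :=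
      mul_le_mul_of_nonneg_left (le_max_right _ _) hn
    have h5 : lead (J j) * max 0 (mm F + a * (d - 1) - 2 * a * j - τ) ≤
        lead F * max 0 (mm F + a * (d - 1) - 2 * a * j - τ) :=
      mul_le_mul_of_nonneg_right hm (le_max_left _ _)
    exact h3.trans (h4.trans h5)
  calc (d : ℚ) * (lam G - τ * lead G)
      = (d * lam G - a * d * (d - 1) * lead G) + (a * (d - 1) - τ) * (d * lead G) := by ring
    _ = ∑ j ∈ Finset.range d, (((lam (J j) : ℚ) - 2 * a * j * lead (J j)) +
          (a * (d - 1) - τ) * lead (J j)) := by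
        rw [Finset.sum_add_distrib, ← Finset.mul_sum, h1q, h2q]
    _ ≤ ∑ j ∈ Finset.range d, lead F * max 0 (mm F + a * (d - 1) - 2 * a * j - τ) :=
        Finset.sum_le_sum hterm
    _ = lead F * ∑ j ∈ Finset.range d, max 0 (mm F + a * (d - 1) - 2 * a * j - τ) := by
        rw [Finset.mul_sum]

end

end Pool.Agent.Lib.LP.TW
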