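import Pool.Agent.Lib.MP_865fc0_ag.TW.Spec

/-!
# MP_865fc0_ag, TW, module SUR: the top cohomology becomes stationary
-/

set_option autoImplicit false

open scoped Pointwise
open Filter

namespace Pool.Agent.Lib.LP.TW

noncomputable section

namespace SURM

variable {V : Type} [AddCommGroup V] [Module ℂ V] [Module K V] [IsScalarTower ℂ K V]

/-- monomials of the coordinate rings -/
theorem mono_mem_R (s : Chart) (i j : ℕ) (c d : ℤ) (h1 : (i : ℤ) ≤ c) (h2 : (j : ℤ) ≤ d) :
    (wx s ^ c * wu s ^ d)⁻¹ * (x ^ i * u ^ j) ∈ R s := by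
  have h : (wx s ^ c * wu s ^ d)⁻¹ * (x ^ i * u ^ j) =
      mon ((if s.1 then (i : ℤ) - c else i), (if s.2 then (j : ℤ) - d else j)) := by
    unfold wx wu mon
    rw [← zpow_natCast x i, ← zpow_natCast u j]
    have hx := x_ne_zero
    have hu := u_ne_zero
    split_ifs
    · rw [zpow_sub₀ hx, zpow_sub₀ hu]
      field_simp
    · rw [zpow_sub₀ hx, one_zpow]
      field_simp
    · rw [zpow_sub₀ hu, one_zpow]
      field_simp
    · rw [one_zpow, one_zpow]
      simp
  rw [h, R_eq]
  apply mon_mem_MonS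
  simp only [Quad, Set.mem_ofPred_eq]
  split_ifs <;> omega

theorem step {F : Chart → Submodule ℂ V} (hF : IsLat F) (i j : ℕ) {a b a' b' : ℤ}
    (h1 : a + i ≤ a') (h2 : b + j ≤ b') {v : V} (hv : v ∈ Sec F a b) :
    (x ^ i * u ^ j) • v ∈ Sec F a' b' := by
  rw [mem_Sec] at hv ⊢
  intro s
  have h3 := hF.smul_mem (mono_mem_R s i j (a' - a) (b' - b) (by omega) (by omega)) (hv s)
  have h4 : ((wx s ^ (a' - a) * wu s ^ (b' - b))⁻¹ * (x ^ i * u ^ j)) * (wx s ^ a * wu s ^ b)⁻¹ =
      (wx s ^ a' * wu s ^ b')⁻¹ * (x ^ i * u ^ j) := by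
    have e1 : wx s ^ a' = wx s ^ (a' - a) * wx s ^ a := by
      rw [← zpow_add₀ (wx_ne_zero s)]
      congr 1
      ring
    have e2 : wu s ^ b' = wu s ^ (b' - b) * wu s ^ b := by
      rw [← zpow_add₀ (wu_ne_zero s)]
      congr 1
      ring
    rw [e1, e2]
    simp only [mul_inv]
    ring
  rw [smul_smul, h4] at h3
  rwa [smul_smul]

/-- the abstract step -/
theorem seq (T : ℕ → Submodule ℂ V) (z : K) (n0 : ℕ) (hm : ∀ k, T k ≤ T (k + 1))
    (hz : ∀ k, line z • T k ≤ T (k + 1)) (hb : ∀ k, n0 ≤ k → T (k + 1) ≤ T k ⊔ line z • T k)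
    (N : ℕ) (hN : n0 ≤ N) :
    T (2 * N + 2) ≤ T (N + 1) ⊔ line z • T (2 * N) ⊔ line (z ^ (N + 1)) • T (N + 1) := by
  have a1 : ∀ k, T (N + 1 + k + 1) ≤ T (N + 1) ⊔ line z • T (N + 1 + k) := by
    intro k
    induction k with
    | zero => exact hb (N + 1) (by omega)
    | succ k ih =>
      refine (hb (N + 1 + (k + 1)) (by omega)).trans (sup_le (ih.trans ?_) le_sup_right)
      exact sup_le_sup_left (Submodule.smul_mono le_rfl (hm (N + 1 + k))) _
  have a2 : ∀ k, T (N + 1 + k) ≤ T (N + k) ⊔ line (z ^ k) • T (N + 1) := by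
    intro k
    induction k with
    | zero =>
      rw [pow_zero, line_one, Submodule.one_smul]
      exact le_sup_right
    | succ k ih =>
      refine (hb (N + 1 + k) (by omega)).trans (sup_le ?_ ?_)
      · have e : N + (k + 1) = N + 1 + k := by ring
        rw [e]
        exact le_sup_left
      · refine (Submodule.smul_mono le_rfl ih).trans ?_
        rw [Submodule.smul_sup, smul_smul_sub, line_mul_line, ← pow_succ']
        exact sup_le_sup_right (hz (N + k)) _
  have h1 := a1 N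
  have h2 := a2 N
  have e1 : N + 1 + N + 1 = 2 * N + 2 := by ring
  have e2 : N + N = 2 * N := by ring
  rw [e1] at h1
  rw [e2] at h2
  refine h1.trans (sup_le (le_sup_left.trans le_sup_left) ?_)
  refine (Submodule.smul_mono le_rfl h2).trans ?_
  rw [Submodule.smul_sup, smul_smul_sub, line_mul_line, ← pow_succ']
  exact sup_le (le_sup_right.trans le_sup_left) le_sup_right

theorem sec_mono {F : Chart → Submodule ℂ V} (hF : IsLat F) {a b a' b' : ℤ}
    (h1 : a ≤ a') (h2 : b ≤ b') : Sec F a b ≤ Sec F a' b' := by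
  intro v hv
  have h := step hF 0 0 (a' := a') (b' := b') (by simpa using h1) (by simpa using h2) hv
  simpa using h

theorem x_sec {F : Chart → Submodule ℂ V} (hF : IsLat F) {a b a' b' : ℤ}
    (h1 : a + 1 ≤ a') (h2 : b ≤ b') : line x • Sec F a b ≤ Sec F a' b' := by
  intro v hv
  obtain ⟨w, hw, rfl⟩ := mem_line_smul.1 hv
  have h := step hF 1 0 (a' := a') (b' := b') (by simpa using h1) (by simpa using h2) hw
  simpa using h

theorem u_sec {F : Chart → Submodule ℂ V} (hF : IsLat F) {a b a' b' : ℤ}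
    (h1 : a ≤ a') (h2 : b + 1 ≤ b') : line u • Sec F a b ≤ Sec F a' b' := by
  intro v hv
  obtain ⟨w, hw, rfl⟩ := mem_line_smul.1 hv
  have h := step hF 0 1 (a' := a') (b' := b') (by simpa using h1) (by simpa using h2) hw
  simpa using h

end SURM

open SURM in
theorem specSUR (hBIG : SpecBIG) : SpecSUR := by
  intro V _ _ _ _ _ F hF
  obtain ⟨n0, hn0⟩ := hBIG V F hF
  refine ⟨n0, fun N hN => ?_⟩
  have e1 : (2 * ((N + 1 : ℕ) : ℤ)) = ((2 * N + 2 : ℕ) : ℤ) := by push_cast; ring
  have e2 : (2 * (N : ℤ)) = ((2 * N : ℕ) : ℤ) := by push_cast; ring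
  have hx := seq (fun k : ℕ => Sec F (k : ℤ) ((2 * N + 2 : ℕ) : ℤ)) x n0
    (fun k => sec_mono hF (by push_cast; omega) le_rfl)
    (fun k => x_sec hF (by push_cast; omega) le_rfl)
    (fun k hk => by
      have h := (hn0 k hk (2 * N + 2)).1
      simpa using h) N hN
  have hu := seq (fun k : ℕ => Sec F ((2 * N : ℕ) : ℤ) (k : ℤ)) u n0
    (fun k => sec_mono hF le_rfl (by push_cast; omega))
    (fun k => u_sec hF le_rfl (by push_cast; omega))
    (fun k hk => by
      have h := (hn0 k hk (2 * N)).2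
      simpa using h) N hN
  unfold Bd
  rw [e1, e2]
  refine hx.trans (sup_le (sup_le ?_ ?_) ?_)
  · exact (le_sup_left.trans le_sup_left).trans le_sup_right
  · refine (Submodule.smul_mono le_rfl hu).trans ?_
    rw [Submodule.smul_sup, Submodule.smul_sup, smul_smul_sub, smul_smul_sub, line_mul_line,
      line_mul_line, mul_comm x (u ^ (N + 1)), ← line_mul_line (u ^ (N + 1)) x, ← smul_smul_sub]
    have h3 : line x • Sec F ((2 * N : ℕ) : ℤ) ((N + 1 : ℕ) : ℤ) ≤
        Sec F ((2 * N + 2 : ℕ) : ℤ) ((N + 1 : ℕ) : ℤ) :=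
      x_sec hF (by push_cast; omega) le_rfl
    refine sup_le (sup_le ?_ le_sup_left) ?_
    · exact ((h3.trans le_sup_left).trans le_sup_right).trans le_sup_right
    · exact (((Submodule.smul_mono le_rfl h3).trans le_sup_right).trans le_sup_right).trans
        le_sup_right
  · exact (le_sup_right.trans le_sup_left).trans le_sup_right

end

end Pool.Agent.Lib.LP.TW
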