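import Pool.Agent.Lib.MP_865fc0_ag.TW.SpecC

/-!
# TW, module TOC: the surfaces of the tower of cyclic covers
-/

set_option autoImplicit false

open scoped Pointwise

namespace Pool.Agent.Lib.LP.TW

theorem specTOC (hBAS : SpecBAS) (hINC : SpecINC) (hFUB : SpecFUB) (hFUC : SpecFUC)
    (hOMC : SpecOMC) (hHCB : SpecHCB) (hHCC : SpecHCC) : SpecTOC := by
  intro L _ _ _ hT h
  revert hT
  induction h with
  | base =>
    intro hT
    obtain ⟨h1, h2, h3, h4, h5⟩ := hFUB
    refine ⟨2, 0, ?_⟩
    constructor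
    · rw [h1]; exact h2
    · rw [h1, h3, Module.finrank_self]; norm_num
    · rw [h1, h4, Module.finrank_self]; norm_num
    · refine ⟨1, one_ne_zero, ?_⟩
      rw [h1, h5]
      funext s
      show tw (-2) (-2) R s = line (1 : K) • tw (-2) (-2) R s
      rw [line_one, Submodule.one_smul]
    · rw [h1]
      have := hBAS
      unfold SpecBAS at this
      exact_mod_cast this
    · rw [h1]; exact hHCB
  | step L L' d a y hL hD ih =>
    intro hT
    obtain ⟨p, e, hp⟩ := ih
    obtain ⟨h1, h2, h3⟩ := hFUC L L' d a y p e hD hp.full hp.lamO hp.chiO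
    refine ⟨p - a * (d - 1), e + (a : ℚ) ^ 2 * ((d : ℚ) ^ 2 - 1) / 12, ?_⟩
    constructor
    · exact h1
    · exact h2
    · exact h3
    · exact hOMC L L' d a y p hD hp.full hp.omega
    · have := hINC L L' (strSheaf L) (strSheaf L') d a y hp.full h1 hD p e hp.good
      have e1 : (((p - a * (d - 1) : ℤ)) : ℚ) = (p : ℚ) - a * (d - 1) := by push_cast; ring
      rw [e1]
      exact this
    · exact hHCC L L' d a y hD hp.h1

end Pool.Agent.Lib.LP.TW
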