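import Pool.Agent.Lib.MP_865fc0_ag.TW.Spec

/-!
# MP_865fc0_ag, TW: module TRN (comparison of the official definitions with the internal ones)
-/

set_option autoImplicit false

open scoped Pointwise
open Filter

namespace Pool.Agent.Lib.LP.TW

namespace TRNM

section sheaf

variable {L : Type} [Field L] [Algebra ℂ L] [Algebra K L] [IsScalarTower ℂ K L]
variable {V : Type} [AddCommGroup V] [Module ℂ V] [Module K V] [IsScalarTower ℂ K V]
variable [Module L V] [IsScalarTower ℂ L V] [IsScalarTower K L V]
variable {F E : Chart → Submodule ℂ V}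

theorem isLat (H : Full L (strSheaf L)) (hF : IsSheaf L F) : IsLat F where
  fg := by
    intro s
    obtain ⟨T, hT⟩ := hF.fg s
    rw [isSheaf_fg_iff] at hT
    obtain ⟨T0, hT0, h0⟩ := H.ring.lat.fg s
    refine ⟨T0 • Submodule.span ℂ (T : Set V),
      fg_smul hT0 (Submodule.fg_span T.finite_toSet), ?_⟩
    rw [hT, h0]
    exact Submodule.smul_assoc (R s) T0 _
  glue := hF.glue

theorem stable (H : Full L (strSheaf L)) (hF : IsSheaf L F) : strSheaf L • F = F := by
  funext s
  obtain ⟨T, hT⟩ := hF.fg s
  rw [isSheaf_fg_iff] at hT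
  show strSheaf L s • F s = F s
  conv_lhs => rw [hT]
  conv_rhs => rw [hT]
  rw [smul_smul_sub]
  congr 1
  exact congrFun H.ring.mul s

theorem of_lat (H : Full L (strSheaf L)) (hF : IsLat F) (hO : strSheaf L • F = F) :
    IsSheaf L F where
  fg := by
    intro s
    obtain ⟨T, ⟨t, ht⟩, hT⟩ := hF.fg s
    refine ⟨t, ?_⟩
    rw [isSheaf_fg_iff, ht]
    apply le_antisymm
    · rw [hT, Submodule.smul_le]
      intro r hr v hv
      have h1 : algebraMap K L r ∈ strSheaf L s := by
        rw [Algebra.algebraMap_eq_smul_one]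
        exact H.ring.lat.smul_mem hr (Submodule.one_le.1 (H.ring.one s))
      rw [← algebraMap_smul L r v]
      exact Submodule.smul_mem_smul h1 hv
    · have h1 : T ≤ F s := by
        rw [hT]
        intro v hv
        rw [← one_smul K v]
        exact Submodule.smul_mem_smul (one_mem_R s) hv
      refine (Submodule.smul_mono le_rfl h1).trans ?_
      exact (congrFun hO s).le
  glue := hF.glue

/-- The `K`-span of a stable lattice is an `L`-subspace. -/
theorem smul_mem_span (H : Full L (strSheaf L)) (hO : strSheaf L • F = F) (l : L) {v : V}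
    (hv : v ∈ Submodule.span K (F (false, false) : Set V)) :
    l • v ∈ Submodule.span K (F (false, false) : Set V) := by
  have hl : l ∈ Submodule.span K (strSheaf L (false, false) : Set L) := by
    rw [H.span]; trivial
  induction hv using Submodule.span_induction with
  | mem v hv =>
    induction hl using Submodule.span_induction with
    | mem l hl =>
      apply Submodule.subset_span
      have : l • v ∈ (strSheaf L • F) (false, false) := Submodule.smul_mem_smul hl hv
      rwa [hO] at this
    | zero => rw [zero_smul]; exact Submodule.zero_mem _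
    | add a b _ _ ha hb => rw [add_smul]; exact Submodule.add_mem _ ha hb
    | smul a b _ hb => rw [smul_assoc]; exact Submodule.smul_mem _ _ hb
  | zero => rw [smul_zero]; exact Submodule.zero_mem _
  | add a b _ _ ha hb => rw [smul_add]; exact Submodule.add_mem _ ha hb
  | smul a b _ hb => rw [smul_comm]; exact Submodule.smul_mem _ _ hb

theorem lead_rk (H : Full L (strSheaf L)) [Module.Finite K V] (hF : IsLat F)
    (hO : strSheaf L • F = F) : lead F = Module.finrank K L * rk L F := by
  rw [hF.lead_eq]
  unfold rk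
  let U : Submodule L V :=
    { carrier := Submodule.span K (F (false, false) : Set V)
      add_mem' := fun h1 h2 => Submodule.add_mem _ h1 h2
      zero_mem' := Submodule.zero_mem _
      smul_mem' := fun l v hv => smul_mem_span H hO l hv }
  have hU : Submodule.span L (⋃ s, (F s : Set V)) = U := by
    apply le_antisymm
    · rw [Submodule.span_le]
      intro v hv
      obtain ⟨s, hs⟩ := Set.mem_iUnion.1 hv
      exact hF.mem_span hs
    · intro v hv
      have hv' : v ∈ Submodule.span K (F (false, false) : Set V) := hv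
      have h1 : Submodule.span K (F (false, false) : Set V) ≤
          (Submodule.span L (⋃ s, (F s : Set V))).restrictScalars K := by
        rw [Submodule.span_le]
        intro v hv
        exact Submodule.subset_span (Set.mem_iUnion.2 ⟨_, hv⟩)
      exact h1 hv'
  rw [hU]
  have h2 : Module.finrank K (Submodule.span K (F (false, false) : Set V)) =
      Module.finrank K U :=
    LinearEquiv.finrank_eq
      { toFun := fun v => ⟨v.1, v.2⟩
        map_add' := fun _ _ => rfl
        map_smul' := fun _ _ => rfl
        invFun := fun v => ⟨v.1, v.2⟩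
        left_inv := fun _ => rfl
        right_inv := fun _ => rfl }
  have := H.fin
  rw [h2, ← Module.finrank_mul_finrank K L U]
  push_cast
  rfl

theorem dpos (H : Full L (strSheaf L)) : (0 : ℚ) < Module.finrank K L := by
  have := H.fin
  exact_mod_cast (Module.finrank_pos : 0 < Module.finrank K L)

theorem deg_eq {p : ℤ} {e : ℚ} (H : TF L p e) [Module.Finite K V] (hF : IsLat F)
    (hO : strSheaf L • F = F) : deg L F = lam F - p * lead F := by
  have := H.full.fin
  unfold deg
  rw [hF.linCoeff_eq, H.full.ring.lat.linCoeff_eq, H.lamO, lead_rk H.full hF hO]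
  push_cast
  ring

/-- Official semistability implies the internal one. -/
theorem sst_of_isSemistable {p : ℤ} {e : ℚ} (H : TF L p e) [Module.Finite K V] (hF : IsLat F)
    (hO : strSheaf L • F = F) (h : IsSemistable L F) : Sst (strSheaf L) F := by
  intro E hE hOE hEF
  have hd := dpos H.full
  have hlE := lead_rk H.full hE hOE
  have hlF := lead_rk H.full hF hO
  have hlE' : (lead E : ℚ) = Module.finrank K L * rk L E := by rw [hlE]; push_cast; rfl
  have hlF' : (lead F : ℚ) = Module.finrank K L * rk L F := by rw [hlF]; push_cast; rfl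
  have hmono : lead E ≤ lead F := by
    rw [hE.lead_eq, hF.lead_eq]
    exact_mod_cast Submodule.finrank_mono (Submodule.span_mono (hEF _))
  rcases Nat.eq_zero_or_pos (rk L E) with h0 | h0
  · have hE0 : E = ⊥ := hE.eq_bot_of_lead (by rw [hlE, h0]; simp)
    rw [hE0, lam_bot, hE0.symm, hlE, h0]
    simp
  · have hle : rk L E ≤ rk L F := by
      have h1 : (lead E : ℚ) ≤ lead F := by exact_mod_cast hmono
      rw [hlE', hlF'] at h1
      exact_mod_cast le_of_mul_le_mul_left h1 hd
    rcases hle.lt_or_eq with hlt | heq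
    · have h1 := h E (of_lat H.full hE hOE) hEF h0 hlt
      rw [deg_eq H hE hOE, deg_eq H hF hO, hlE', hlF'] at h1
      have hE' : (0 : ℚ) < rk L E := by exact_mod_cast h0
      have hd' : (0 : ℚ) < (rk L F : ℚ) - rk L E := by
        rw [sub_pos]; exact_mod_cast hlt
      rw [div_le_div_iff₀ hE' hd'] at h1
      have h2 : (lam E : ℚ) * rk L F ≤ lam F * rk L E := by linarith
      have h3 : (lam E * lead F : ℚ) ≤ lam F * lead E := by
        rw [hlE', hlF']
        have h4 := mul_le_mul_of_nonneg_left h2 hd.le
        linarith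
      exact_mod_cast h3
    · have hl : lead E = lead F := by rw [hlE, hlF, heq]
      rw [← hl]
      exact mul_le_mul_of_nonneg_right (hE.lam_le hF hEF hl) hE.lead_nonneg

/-- Internal semistability implies the official one. -/
theorem isSemistable_of_sst {p : ℤ} {e : ℚ} (H : TF L p e) [Module.Finite K V] (hF : IsLat F)
    (hO : strSheaf L • F = F) (h : Sst (strSheaf L) F) : IsSemistable L F := by
  intro E hE hEF h0 hlt
  have hd := dpos H.full
  have hElat := isLat H.full hE
  have hOE := stable H.full hE
  have hlE := lead_rk H.full hElat hOE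
  have hlF := lead_rk H.full hF hO
  have hlE' : (lead E : ℚ) = Module.finrank K L * rk L E := by rw [hlE]; push_cast; rfl
  have hlF' : (lead F : ℚ) = Module.finrank K L * rk L F := by rw [hlF]; push_cast; rfl
  have h1 : (lam E * lead F : ℚ) ≤ lam F * lead E := by exact_mod_cast h E hElat hOE hEF
  rw [deg_eq H hElat hOE, deg_eq H hF hO]
  have hE' : (0 : ℚ) < rk L E := by exact_mod_cast h0
  have hd' : (0 : ℚ) < (rk L F : ℚ) - rk L E := by
    rw [sub_pos]; exact_mod_cast hlt
  rw [div_le_div_iff₀ hE' hd', hlE', hlF']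
  rw [hlE', hlF'] at h1
  have h2 : (lam E : ℚ) * rk L F ≤ lam F * rk L E := by
    apply le_of_mul_le_mul_left _ hd
    linarith
  linarith

theorem chi_omega {p : ℤ} {e : ℚ} (H : TF L p e) [Module.Finite K V] (hF : IsLat F)
    (hO : strSheaf L • F = F) :
    IsLat (canonicalSheaf L • F) ∧ chi (canonicalSheaf L • F) 0 0 = chi F (-p) (-p) := by
  obtain ⟨z, hz, hω⟩ := H.omega
  have h1 : canonicalSheaf L • F = ln z • tw (-p) (-p) F := by
    rw [hω]
    have h2 : (ln z • tw (-p) (-p) (strSheaf L)) • F = ln z • (tw (-p) (-p) (strSheaf L) • F) := by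
      funext s
      exact Submodule.smul_assoc (line z) (tw (-p) (-p) (strSheaf L) s) (F s)
    rw [h2, tw_fsmul, hO]
  rw [h1]
  refine ⟨(hF.tw _ _).ln_smul z, ?_⟩
  rw [(hF.tw _ _).chi_ln hz.isUnit, hF.chi_tw, zero_add]

theorem ch2_eq {p : ℤ} {e : ℚ} (H : TF L p e) [Module.Finite K V] (hF : IsLat F)
    (hO : strSheaf L • F = F) :
    ch2 L F = chi F 0 0 + ((p : ℚ) ^ 2 * lead F - p * lam F) / 2 -
      ((p : ℚ) ^ 2 / 4 + e) * lead F := by
  have := H.full.fin
  obtain ⟨hωF, hχ⟩ := chi_omega H hF hO
  have h1 : twistCanonical L F = canonicalSheaf L • F := rfl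
  have hlF' : (lead F : ℚ) = Module.finrank K L * rk L F := by
    rw [lead_rk H.full hF hO]; push_cast; rfl
  unfold ch2
  rw [h1, hF.eulerChar_eq, hωF.eulerChar_eq, H.full.ring.lat.eulerChar_eq, hχ, H.chiO,
    hF.chi_eq (-p) (-p)]
  unfold lam
  push_cast
  rw [hlF']
  ring

end sheaf

end TRNM

theorem specTRN : SpecTRN := by
  intro L _ _ _ _ p e H r F
  have := H.full.fin
  refine ⟨⟨fun h => ⟨TRNM.isLat H.full h, TRNM.stable H.full h⟩,
    fun h => TRNM.of_lat H.full h.1 h.2⟩, ?_⟩
  intro hF hO hr hrk
  have hd := TRNM.dpos H.full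
  have hlF := TRNM.lead_rk H.full hF hO
  rw [hrk] at hlF
  have hlF' : (lead F : ℚ) = Module.finrank K L * r := by rw [hlF]; push_cast; rfl
  have hr' : (0 : ℚ) < r := by exact_mod_cast hr
  have hlpos : (0 : ℚ) < lead F := by rw [hlF']; exact mul_pos hd hr'
  have hne : (lead F : ℚ) ≠ 0 := hlpos.ne'
  have hH : Hsq L * r = 2 * lead F := by unfold Hsq; rw [hlF']; ring
  refine ⟨hlF, by exact_mod_cast hlpos, ?_,
    ⟨TRNM.sst_of_isSemistable H hF hO, TRNM.isSemistable_of_sst H hF hO⟩, ?_⟩
  · unfold slope mm
    rw [hrk, hH, TRNM.deg_eq H hF hO]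
    field_simp
  · rw [hH, TRNM.ch2_eq H hF hO]
    unfold cc mm
    field_simp
    ring

end Pool.Agent.Lib.LP.TW
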