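import Pool.Agent.Lib.MP_865fc0_ag.TW.Spec

/-!
# MP_865fc0_ag, TW, module VAN: a semistable sheaf on `P^1 x P^1` with slope near zero has
nonpositive Euler characteristic
-/

set_option autoImplicit false

open scoped Pointwise
open Filter

namespace Pool.Agent.Lib.LP.TW

noncomputable section

namespace VANM

variable {V : Type} [AddCommGroup V] [Module ℂ V] [Module K V] [IsScalarTower ℂ K V]

theorem R_smul {E : Chart → Submodule ℂ V} (hE : IsLat E) : R • E = E := by
  funext s
  exact hE.smul_eq s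

theorem lead_R : lead R = 1 := by
  unfold lead
  rw [chi_R, chi_R, chi_R, chi_R]
  norm_num

theorem lam_R : lam R = 2 := by
  rw [lam_eq, chi_R, chi_R, chi_R]
  norm_num

theorem lead_twR : lead (tw (-2) (-2) R) = 1 := by
  unfold lead
  rw [isLat_R.chi_tw, isLat_R.chi_tw, isLat_R.chi_tw, isLat_R.chi_tw, chi_R, chi_R, chi_R, chi_R]
  norm_num

theorem lam_twR : lam (tw (-2) (-2) R) = -2 := by
  rw [lam_eq, isLat_R.chi_tw, isLat_R.chi_tw, isLat_R.chi_tw, chi_R, chi_R, chi_R]
  norm_num

theorem sec_bot [Module.Finite K V] {F : Chart → Submodule ℂ V} (hF : IsLat F) (hS : Sst R F)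
    (h : lam F < 2 * lead F) : Sec F 0 0 = ⊥ := by
  rw [eq_bot_iff]
  intro v hv
  rw [Submodule.mem_bot]
  by_contra hne
  have hv' : ∀ s, v ∈ F s := by
    intro s
    have := mem_Sec.1 hv s
    rwa [zpow_zero, zpow_zero, one_mul, inv_one, one_smul] at this
  have hE : IsLat (mapL (LinearMap.toSpanSingleton K V v) R) := isLat_R.map _
  have hle : mapL (LinearMap.toSpanSingleton K V v) R ≤ F := by
    intro s m hm
    obtain ⟨r, hr, rfl⟩ := hm
    exact hF.smul_mem hr (hv' s)
  have hinj : Function.Injective (LinearMap.toSpanSingleton K V v) := by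
    intro a b hab
    rw [LinearMap.toSpanSingleton_apply, LinearMap.toSpanSingleton_apply] at hab
    exact smul_left_injective K hne hab
  have hchi := isLat_R.chi_map_of_injective _ hinj
  have h1 := hS _ hE (R_smul hE) hle
  rw [lam_congr hchi, lead_congr hchi, lam_R, lead_R] at h1
  linarith

theorem no_map [Module.Finite K V] {F : Chart → Submodule ℂ V} (hF : IsLat F) (hS : Sst R F)
    (hl : 0 < lead F) (h : -2 * lead F < lam F) (φ : V →ₗ[K] K)
    (hφ : ∀ s, ∀ v ∈ F s, φ v ∈ tw (-2) (-2) R s) : ∀ s, ∀ v ∈ F s, φ v = 0 := by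
  by_contra hcon
  push Not at hcon
  obtain ⟨s, v, hv, hne⟩ := hcon
  have hI : IsLat (mapL φ F) := hF.map φ
  have hE := hF.inf_ker φ
  have hIle : mapL φ F ≤ tw (-2) (-2) R := by
    intro t m hm
    obtain ⟨n, hn, rfl⟩ := hm
    exact hφ t n hn
  have hfull : Submodule.span K (mapL φ F (false, false) : Set K) = ⊤ := by
    obtain ⟨n, hn⟩ := hF.glue s (false, false) v hv
    have hmem : φ ((w s / w (false, false)) ^ n • v) ∈ mapL φ F (false, false) := ⟨_, hn, rfl⟩
    have hw : (w s / w (false, false)) ^ n ≠ 0 := by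
      refine pow_ne_zero _ (div_ne_zero ?_ ?_)
      · exact mul_ne_zero (wx_ne_zero s) (wu_ne_zero s)
      · exact mul_ne_zero (wx_ne_zero _) (wu_ne_zero _)
    have hz : φ ((w s / w (false, false)) ^ n • v) ≠ 0 := by
      rw [map_smul]
      exact smul_ne_zero hw hne
    rw [eq_top_iff]
    intro z _
    have h1 : z = (z * (φ ((w s / w (false, false)) ^ n • v))⁻¹) •
        φ ((w s / w (false, false)) ^ n • v) := by
      rw [smul_eq_mul, inv_mul_cancel_right₀ hz]
    rw [h1]
    exact Submodule.smul_mem _ _ (Submodule.subset_span hmem)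
  have hleadI : lead (mapL φ F) = 1 := by
    rw [hI.lead_of_full hfull, Module.finrank_self]
    rfl
  have hlamI : lam (mapL φ F) ≤ -2 := by
    have := hI.lam_le (isLat_R.tw (-2) (-2)) hIle (by rw [hleadI, lead_twR])
    rwa [lam_twR] at this
  have hchi := hF.chi_map φ
  have e1 : lam (mapL φ F) + lam (fun s => F s ⊓ LinearMap.ker (φ.restrictScalars ℂ)) = lam F := by
    rw [lam_eq, lam_eq, lam_eq]
    have a1 := hchi 1 0
    have a2 := hchi 0 1
    have a3 := hchi 0 0
    linarith
  have e2 : lead (mapL φ F) + lead (fun s => F s ⊓ LinearMap.ker (φ.restrictScalars ℂ)) =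
      lead F := by
    unfold lead
    have a1 := hchi 1 0
    have a2 := hchi 0 1
    have a3 := hchi 0 0
    have a4 := hchi 1 1
    linarith
  have h1 := hS _ hE (R_smul hE) (fun s => inf_le_left)
  rw [hleadI] at e2
  have e3 : lam (fun s => F s ⊓ LinearMap.ker (φ.restrictScalars ℂ)) =
      lam F - lam (mapL φ F) := by linarith
  have e4 : lead (fun s => F s ⊓ LinearMap.ker (φ.restrictScalars ℂ)) = lead F - 1 := by linarith
  rw [e3, e4] at h1
  have h2 : lam (mapL φ F) * lead F ≤ -2 * lead F := mul_le_mul_of_nonneg_right hlamI hl.le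
  nlinarith

end VANM

open VANM in
theorem specVAN (hRRI : SpecRRI) : SpecVAN := by
  intro V _ _ _ _ _ F hF hS hl h1 h2
  have hlQ : (0 : ℚ) < lead F := by exact_mod_cast hl
  have h1' : -2 * lead F < lam F := by
    unfold mm at h1
    rw [lt_div_iff₀ hlQ] at h1
    exact_mod_cast h1
  have h2' : lam F < 2 * lead F := by
    unfold mm at h2
    rw [div_lt_iff₀ hlQ] at h2
    exact_mod_cast h2
  exact hRRI V F hF (sec_bot hF hS h2') fun φ hφ => no_map hF hS hl h1' φ hφ

end

end Pool.Agent.Lib.LP.TW
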