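import Pool.Agent.Lib.MP_865fc0_ag.TW.FinC
import Pool.Agent.Lib.MP_865fc0_ag.TW.BIG
import Pool.Agent.Lib.MP_865fc0_ag.TW.HBI
import Pool.Agent.Lib.MP_865fc0_ag.TW.KOS
import Pool.Agent.Lib.MP_865fc0_ag.TW.BDM
import Pool.Agent.Lib.MP_865fc0_ag.TW.SUR
import Pool.Agent.Lib.MP_865fc0_ag.TW.LIM
import Pool.Agent.Lib.MP_865fc0_ag.TW.REA
import Pool.Agent.Lib.MP_865fc0_ag.TW.REB
import Pool.Agent.Lib.MP_865fc0_ag.TW.REC
import Pool.Agent.Lib.MP_865fc0_ag.TW.RRI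
import Pool.Agent.Lib.MP_865fc0_ag.TW.VAN
import Pool.Agent.Lib.MP_865fc0_ag.TW.BAS
import Pool.Agent.Lib.MP_865fc0_ag.TW.BDD
import Pool.Agent.Lib.MP_865fc0_ag.TW.HNX
import Pool.Agent.Lib.MP_865fc0_ag.TW.QUO
import Pool.Agent.Lib.MP_865fc0_ag.TW.FUB
import Pool.Agent.Lib.MP_865fc0_ag.TW.HCB
import Pool.Agent.Lib.MP_865fc0_ag.TW.HCO
import Pool.Agent.Lib.MP_865fc0_ag.TW.TRN
import Pool.Agent.Lib.MP_865fc0_ag.TW.PHZ
import Pool.Agent.Lib.MP_865fc0_ag.TW.PHN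
import Pool.Agent.Lib.MP_865fc0_ag.TW.CDB
import Pool.Agent.Lib.MP_865fc0_ag.TW.DIV
import Pool.Agent.Lib.MP_865fc0_ag.TW.FIL
import Pool.Agent.Lib.MP_865fc0_ag.TW.RND
import Pool.Agent.Lib.MP_865fc0_ag.TW.MAG
import Pool.Agent.Lib.MP_865fc0_ag.TW.NUA
import Pool.Agent.Lib.MP_865fc0_ag.TW.NUB
import Pool.Agent.Lib.MP_865fc0_ag.TW.INC
import Pool.Agent.Lib.MP_865fc0_ag.TW.FUC
import Pool.Agent.Lib.MP_865fc0_ag.TW.OMC
import Pool.Agent.Lib.MP_865fc0_ag.TW.HCC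
import Pool.Agent.Lib.MP_865fc0_ag.TW.TOC
import Pool.Agent.Lib.MP_865fc0_ag.TW.EXA
import Pool.Agent.Lib.MP_865fc0_ag.TW.EXC

/-!
# MP_865fc0_ag, TW: all modules together
-/

namespace Pool.Agent.Lib.LP.TW

theorem main_towC (L : Type) [Field L] [Algebra ℂ L] [Algebra K L] [IsScalarTower ℂ K L]
    (hL : TowC L) :
    FiniteDimensional K L ∧ H1Vanishes L ∧ 0 ≤ Phi L 0 ∧
    (∃ η : ℝ, 0 < η ∧ ∃ δ : ℝ, 0 < δ ∧ ∀ t : ℝ, -η < t → t < 0 →
      Phi L t ≤ ((-δ : ℝ) : EReal)) ∧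
    ¬ ContinuousAt (Phi L) 0 := by
  have hBIG : SpecBIG := specBIG
  have hHBI : SpecHBI := specHBI hBIG
  have hKOS : SpecKOS := specKOS
  have hBDM : SpecBDM := specBDM
  have hSUR : SpecSUR := specSUR hBIG
  have hLIM : SpecLIM := specLIM hBDM hSUR
  have hREA : SpecREA := specREA
  have hREB : SpecREB := specREB hREA
  have hREC : SpecREC := specREC
  have hRRI : SpecRRI := specRRI hHBI hKOS hBDM hLIM hREB hREC
  have hVAN : SpecVAN := specVAN hRRI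
  have hBAS : SpecBAS := specBAS hVAN
  have hBDD : SpecBDD := specBDD
  have hHNX : SpecHNX := specHNX hBDD
  have hQUO : SpecQUO := specQUO
  have hMAG : SpecMAG := specMAG hHNX hQUO
  have hCDB : SpecCDB := specCDB
  have hDIV : SpecDIV := specDIV
  have hFIL : SpecFIL := specFIL hCDB hDIV
  have hRND : SpecRND := specRND hFIL
  have hINC : SpecINC := specINC hMAG hCDB hRND specNUA specNUB
  have hTOC : SpecTOC := specTOC hBAS hINC specFUB specFUC specOMC specHCB specHCC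
  have hTRN : SpecTRN := specTRN
  exact towC_result hTOC specHCO (specPHZ hTRN) (specPHN hTRN) L hL

theorem main_explicitC (L : Type) [Field L] [Algebra ℂ L] [Algebra K L] [IsScalarTower ℂ K L]
    (d a : ℕ) (y : L) (f : K) (hd : 2 ≤ d) (ha : 1 ≤ a) (hy : y ^ d = algebraMap K L f)
    (hn : Module.finrank K L = d)
    (hL : ∀ v : L, ∃ g : ℕ → K, v = ∑ i ∈ Finset.range d, algebraMap K L (g i) * y ^ i)
    (hs : ∀ s : Chart, ∃ φ : Ralg s, Squarefree φ ∧ f = w s ^ (d * a) * (φ : K)) : TowC L :=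
  TowC.step K L d a y TowC.base (specEXC specEXA L d a y f hd ha hy hn hL hs)

end Pool.Agent.Lib.LP.TW
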