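import Pool.Agent.Lib.MP_865fc0_ag.TW.SpecG
import Pool.Agent.Lib.MP_865fc0_ag.TW.OMC

/-!
# MP_865fc0_ag, TW, module OMG: the canonical sheaf of a cyclic cover of a Gorenstein surface
-/

set_option autoImplicit false

open scoped Pointwise
open Filter

namespace Pool.Agent.Lib.LP.TW

namespace OMGM

open OMCM

variable {L L' : Type} [Field L] [Algebra ℂ L] [Algebra K L] [IsScalarTower ℂ K L]
  [Field L'] [Algebra ℂ L'] [Algebra K L'] [IsScalarTower ℂ K L'] [Algebra L L']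
  [IsScalarTower K L L'] [IsScalarTower ℂ L L']

theorem can_mul (s : Chart) (w o : L) (hw : w ∈ canonicalSheaf L s) (ho : o ∈ strSheaf L s) :
    w * o ∈ canonicalSheaf L s := by
  intro b hb
  have h1 : b * (w * o) = (b * o) * w := by ring
  rw [h1]
  exact hw (b * o) ((Oalg L s).mul_mem hb ho)

theorem can_mul_tw (n : ℤ) (s : Chart) (w o : L) (hw : w ∈ canonicalSheaf L s)
    (ho : o ∈ tw n n (strSheaf L) s) : w * o ∈ tw n n (canonicalSheaf L) s := by
  rw [mem_tw] at ho ⊢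
  rw [← mul_smul_comm]
  exact can_mul s w _ hw ho

/-- the coefficients of a section of `ω ⊗ O'` -/
theorem exists_coeff {d a : ℕ} {y : L'} (h : CCov L L' (strSheaf L) (strSheaf L') d a y) (s : Chart)
    (v : L') (hv : v ∈ (canonicalSheaf L s • strSheaf L' s : Submodule ℂ L')) :
    ∃ g : ℕ → L, (∀ i < d, g i ∈ tw (-((a * i : ℕ) : ℤ)) (-((a * i : ℕ) : ℤ)) (canonicalSheaf L) s) ∧
      v = ∑ i ∈ Finset.range d, algebraMap L L' (g i) * y ^ i := by
  refine Submodule.smul_induction_on hv ?_ ?_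
  · intro w hw v' hv'
    rw [h.eq] at hv'
    obtain ⟨g, hg, e⟩ := hv'
    refine ⟨fun i => w * g i, fun i hi => can_mul_tw _ s w _ hw (hg i hi), ?_⟩
    rw [e, Finset.smul_sum]
    refine Finset.sum_congr rfl fun i _ => ?_
    rw [Algebra.smul_def, map_mul]
    ring
  · rintro v₁ v₂ ⟨g₁, hg₁, e₁⟩ ⟨g₂, hg₂, e₂⟩
    refine ⟨fun i => g₁ i + g₂ i, fun i hi => Submodule.add_mem _ (hg₁ i hi) (hg₂ i hi), ?_⟩
    rw [e₁, e₂, ← Finset.sum_add_distrib]
    refine Finset.sum_congr rfl fun i _ => ?_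
    rw [map_add]
    ring

theorem mem_prod {d a : ℕ} {y : L'} (h : CCov L L' (strSheaf L) (strSheaf L') d a y) (s : Chart)
    (g : ℕ → L) :
    ∑ i ∈ Finset.range d, algebraMap L L' (g i) * y ^ i ∈
        (canonicalSheaf L s • strSheaf L' s : Submodule ℂ L') ↔
      ∀ i < d, g i ∈ tw (-((a * i : ℕ) : ℤ)) (-((a * i : ℕ) : ℤ)) (canonicalSheaf L) s := by
  constructor
  · intro hv
    obtain ⟨g₁, hg₁, e⟩ := exists_coeff h s _ hv
    intro i hi
    rw [uniq h e i hi]
    exact hg₁ i hi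
  · intro hg
    refine Submodule.sum_mem _ fun i hi => ?_
    have hi := Finset.mem_range.mp hi
    have h1 := hg i hi
    rw [mem_tw] at h1
    obtain ⟨c, hc⟩ : ∃ c : K, c = wx s ^ (-((a * i : ℕ) : ℤ)) * wu s ^ (-((a * i : ℕ) : ℤ)) := ⟨_, rfl⟩
    have hc0 : c ≠ 0 := by
      rw [hc]
      exact wab_ne_zero s _ _
    rw [← hc] at h1
    have h2 : algebraMap L L' (c • (1 : L)) * y ^ i ∈ strSheaf L' s := by
      have h3 := (mem_str h s (fun k => if k = i then c • (1 : L) else 0)).mpr (by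
        intro k _
        by_cases hki : k = i
        · subst hki
          rw [if_pos rfl, mem_tw, ← hc, smul_smul, inv_mul_cancel₀ hc0, one_smul]
          exact (Oalg L s).one_mem
        · rw [if_neg hki]
          exact Submodule.zero_mem _)
      rw [Finset.sum_eq_single i (fun k _ hki => by rw [if_neg hki, map_zero, zero_mul])
        (fun h => absurd (Finset.mem_range.mpr hi) h), if_pos rfl] at h3
      exact h3
    have h4 : algebraMap L L' (g i) * y ^ i = (c⁻¹ • g i) • (algebraMap L L' (c • (1 : L)) * y ^ i) := by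
      rw [Algebra.smul_def, ← mul_assoc, ← map_mul, smul_mul_smul_comm, inv_mul_cancel₀ hc0, one_smul,
        mul_one]
    rw [h4]
    exact Submodule.smul_mem_smul h1 h2

end OMGM

open OMCM OMGM in
theorem specOMG : SpecOMG := by
  intro L L' _ _ _ _ _ _ _ _ _ _ _ d a y h hfull
  have := hfull.fin
  have hy := y_ne h
  have hd := h.deg
  have hyd : y ^ (d - 1) ≠ 0 := pow_ne_zero _ hy
  funext s
  ext v
  obtain ⟨α, hv⟩ := h.gen (v * y ^ (d - 1))
  rw [mem_can h s v α hv]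
  have hq : v ∈ (ln ((y ^ (d - 1))⁻¹) • tw ((a * (d - 1) : ℕ) : ℤ) ((a * (d - 1) : ℕ) : ℤ)
      (canonicalSheaf L • strSheaf L')) s ↔ v * y ^ (d - 1) ∈
        tw ((a * (d - 1) : ℕ) : ℤ) ((a * (d - 1) : ℕ) : ℤ) (canonicalSheaf L • strSheaf L') s := by
    constructor
    · intro ht
      obtain ⟨n, hn, hn2⟩ := mem_ln_smul.mp ht
      have e2 : v * y ^ (d - 1) = n := by
        rw [← hn2, smul_eq_mul]
        field_simp
      rw [e2]
      exact hn
    · intro ht
      refine mem_ln_smul.mpr ⟨_, ht, ?_⟩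
      rw [smul_eq_mul]
      field_simp
  rw [hq, hv, mem_tw, smul_dec]
  have hp : ∑ i ∈ Finset.range d, algebraMap L L'
      ((wx s ^ ((a * (d - 1) : ℕ) : ℤ) * wu s ^ ((a * (d - 1) : ℕ) : ℤ))⁻¹ • α i) * y ^ i ∈
        (canonicalSheaf L • strSheaf L') s ↔ ∀ i < d, α i ∈ tw
          (((a * (d - 1) : ℕ) : ℤ) - ((a * i : ℕ) : ℤ)) (((a * (d - 1) : ℕ) : ℤ) - ((a * i : ℕ) : ℤ))
            (canonicalSheaf L) s := by
    rw [Pi.smul_apply', mem_prod h]
    refine forall_congr' fun i => imp_congr_right fun _ => ?_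
    rw [sub_eq_add_neg, ← tw_tw, mem_tw (F := tw _ _ _)]
  rw [hp]
  have hcast : ∀ i : ℕ, i < d → ((a * (d - 1) : ℕ) : ℤ) - ((a * (d - 1 - i) : ℕ) : ℤ) =
      ((a * i : ℕ) : ℤ) := by
    intro i hi
    have e1 : ((d - 1 - i : ℕ) : ℤ) = ((d - 1 : ℕ) : ℤ) - i := by omega
    rw [Nat.cast_mul, Nat.cast_mul, e1, Nat.cast_mul]
    ring
  constructor
  · intro hh i hi
    have h1 := hh (d - 1 - i) (by omega)
    have e1 : d - 1 - (d - 1 - i) = i := by omega
    have h2 := hcast (d - 1 - i) (by omega)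
    rw [e1] at h1 h2
    rw [h2]
    exact h1
  · intro hh i hi
    have h1 := hh (d - 1 - i) (by omega)
    rw [hcast i hi] at h1
    exact h1

end Pool.Agent.Lib.LP.TW
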