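import Pool.Agent.Lib.MP_865fc0_ag.TW.SpecI
import Pool.Agent.Lib.MP_865fc0_ag.TW.TRN
import Pool.Agent.Lib.MP_865fc0_ag.Limit

/-!
# MP_865fc0_ag, TW, PHG: from bounds for the Le Potier function to bounds for sheaves
-/

set_option autoImplicit false

open scoped Pointwise
open Filter

namespace Pool.Agent.Lib.LP.TW

namespace PHGM

section

variable {L : Type} [Field L] [Algebra ℂ L] [Algebra K L] [IsScalarTower ℂ K L]
variable {V : Type} [AddCommGroup V] [Module ℂ V] [Module K V] [IsScalarTower ℂ K V]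
variable [Module L V] [IsScalarTower ℂ L V] [IsScalarTower K L V]
variable {V' : Type} [AddCommGroup V'] [Module ℂ V'] [Module K V'] [IsScalarTower ℂ K V']
variable [Module L V'] [IsScalarTower ℂ L V'] [IsScalarTower K L V']
variable {F : Chart → Submodule ℂ V}

theorem stab (φ : V →ₗ[L] V') (hO : strSheaf L • F = F) :
    strSheaf L • mapL (φ.restrictScalars K) F = mapL (φ.restrictScalars K) F := by
  funext s
  have h5 := map_smul_sub φ (strSheaf L s) (F s)
  have h6 : strSheaf L s • F s = F s := congrFun hO s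
  rw [h6] at h5
  exact h5.symm

theorem exists_psi (H : Full L (strSheaf L)) [Module.Finite K V] (hF : IsLat F)
    (hO : strSheaf L • F = F) : ∃ (r : ℕ) (ψ : (Fin r → L) →ₗ[L] V), Function.Injective ψ ∧
      (∀ v ∈ Submodule.span K (F (false, false) : Set V), ∃ a, ψ a = v) ∧
      lead F = Module.finrank K L * r := by
  have hfin : Module.Finite K L := H.fin
  have hfinLV : Module.Finite L V := Module.Finite.of_restrictScalars_finite K L V
  let U : Submodule L V :=
    { carrier := Submodule.span K (F (false, false) : Set V)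
      add_mem' := fun h1 h2 => Submodule.add_mem _ h1 h2
      zero_mem' := Submodule.zero_mem _
      smul_mem' := fun l v hv => TRNM.smul_mem_span H hO l hv }
  have hleadU : lead F = Module.finrank K L * Module.finrank L U := by
    rw [hF.lead_eq]
    have h2 : Module.finrank K (Submodule.span K (F (false, false) : Set V)) =
        Module.finrank K U :=
      LinearEquiv.finrank_eq
        { toFun := fun v => ⟨v.1, v.2⟩
          map_add' := fun _ _ => rfl
          map_smul' := fun _ _ => rfl
          invFun := fun v => ⟨v.1, v.2⟩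
          left_inv := fun _ => rfl
          right_inv := fun _ => rfl }
    rw [h2, ← Module.finrank_mul_finrank K L U]
    push_cast
    rfl
  have b := Module.finBasis L U
  refine ⟨Module.finrank L U, U.subtype ∘ₗ (b.equivFun.symm : (Fin _ → L) ≃ₗ[L] U).toLinearMap,
    ?_, ?_, hleadU⟩
  · intro a a' h
    have h1 : b.equivFun.symm a = b.equivFun.symm a' := Subtype.ext h
    exact b.equivFun.symm.injective h1
  · intro v hv
    refine ⟨b.equivFun ⟨v, hv⟩, ?_⟩
    show ((b.equivFun.symm (b.equivFun ⟨v, hv⟩) : U) : V) = v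
    rw [LinearEquiv.symm_apply_apply]

theorem val {p : ℤ} {e : ℚ} (hT : SpecTRG) (H : TG L p e) [Module.Finite K V] (hF : IsLat F)
    (hO : strSheaf L • F = F) (hS : Sst (strSheaf L) F) (hpos : 0 < lead F) :
    Val L ((mm F - p) / 2) ((cc F - p * mm F / 2 + (p : ℚ) ^ 2 / 4 - e) / 2) := by
  have hfin : Module.Finite K L := H.full.fin
  have hd : (0 : ℚ) < Module.finrank K L := TRNM.dpos H.full
  obtain ⟨r, ψ, hψ, hsurj, hlead⟩ := exists_psi H.full hF hO
  obtain ⟨φ, hφ⟩ := ψ.exists_leftInverse_of_injective (LinearMap.ker_eq_bot.2 hψ)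
  have hφ' : ∀ a, φ (ψ a) = a := fun a => LinearMap.congr_fun hφ a
  have hback : ∀ (s : Chart), ∀ v ∈ F s, ψ (φ v) = v := by
    intro s v hv
    obtain ⟨a, rfl⟩ := hsurj v (hF.mem_span hv)
    rw [hφ']
  obtain ⟨F', hF'def⟩ : ∃ F' : Chart → Submodule ℂ (Fin r → L),
      F' = mapL (φ.restrictScalars K) F := ⟨_, rfl⟩
  have hF' : IsLat F' := by rw [hF'def]; exact hF.map _
  have hO' : strSheaf L • F' = F' := by rw [hF'def]; exact stab φ hO
  have hinj : Function.Injective (ψ.restrictScalars K) := hψ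
  have hmap : mapL (ψ.restrictScalars K) F' = F := by
    funext s
    ext v
    rw [mem_mapL, hF'def]
    constructor
    · rintro ⟨m, hm, rfl⟩
      obtain ⟨f, hf, rfl⟩ := mem_mapL.1 hm
      show ψ (φ f) ∈ F s
      rw [hback s f hf]
      exact hf
    · intro hv
      exact ⟨φ v, mem_mapL.2 ⟨v, hv, rfl⟩, hback s v hv⟩
  have hchi : ∀ a b, chi F' a b = chi F a b := by
    intro a b
    have h1 := hF'.chi_map_of_injective (ψ.restrictScalars K) hinj a b
    rw [hmap] at h1
    exact h1.symm
  have hl : lead F' = lead F := by unfold lead; rw [hchi, hchi, hchi, hchi]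
  have hlam : lam F' = lam F := by rw [lam_eq, lam_eq, hchi, hchi, hchi]
  have hmm : mm F' = mm F := by unfold mm; rw [hl, hlam]
  have hcc : cc F' = cc F := by unfold cc; rw [hl, hchi]
  have hS' : Sst (strSheaf L) F' := by
    intro E hE hOE hEF
    have h1 : mapL (ψ.restrictScalars K) E ≤ F := by
      rw [← hmap]
      intro s
      exact Submodule.map_mono (hEF s)
    have h2 := hS _ (hE.map (ψ.restrictScalars K)) (stab ψ hOE) h1
    have hchiE : ∀ a b, chi (mapL (ψ.restrictScalars K) E) a b = chi E a b := fun a b =>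
      hE.chi_map_of_injective (ψ.restrictScalars K) hinj a b
    have h3 : lead (mapL (ψ.restrictScalars K) E) = lead E := by
      unfold lead; rw [hchiE, hchiE, hchiE, hchiE]
    have h4 : lam (mapL (ψ.restrictScalars K) E) = lam E := by
      rw [lam_eq, lam_eq, hchiE, hchiE, hchiE]
    rw [h3, h4] at h2
    rw [hl, hlam]
    exact h2
  have hr : 0 < r := by
    rcases Nat.eq_zero_or_pos r with h0 | h0
    · rw [hlead, h0] at hpos
      simp at hpos
    · exact h0
  have hrk : rk L F' = r := by
    have h1 := TRNM.lead_rk H.full hF' hO'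
    rw [hl, hlead] at h1
    have h2 : (0 : ℤ) < Module.finrank K L := by exact_mod_cast hd
    have h3 := mul_left_cancel₀ h2.ne' h1
    exact_mod_cast h3.symm
  obtain ⟨hsh, hrest⟩ := hT L p e H r F'
  obtain ⟨-, -, hslope, hss, hch2⟩ := hrest hF' hO' hr hrk
  refine ⟨r, F', hr, hsh.2 ⟨hF', hO'⟩, hrk, hss.2 hS', ?_, ?_⟩
  · rw [hslope, hmm]
  · rw [hch2, hmm, hcc]

theorem le_phi {m y : ℚ} (h : Val L m y) : (((y : ℚ) : ℝ) : EReal) ≤ Phi L (m : ℝ) := by
  rw [Phi_eq]
  refine le_iInf fun ε => ?_
  exact le_SupE h (by rw [sub_self, abs_zero]; exact ε.2)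

end

end PHGM

open PHGM in
theorem specPHG (hT : SpecTRG) : SpecPHG := by
  intro L _ _ _ _ p e H
  constructor
  · intro hPhi V _ _ _ _ _ _ _ _ F hF hO hS hpos
    have h1 := (le_phi (val hT H hF hO hS hpos)).trans (hPhi _)
    rw [EReal.coe_le_coe_iff] at h1
    have h2 : (cc F - p * mm F / 2 + (p : ℚ) ^ 2 / 4 - e) / 2 ≤ ((mm F - p) / 2) ^ 2 / 2 := by
      exact_mod_cast h1
    nlinarith
  · intro η δ hη hδ hPhi V _ _ _ _ _ _ _ _ F hF hO hS hpos h3 h4
    have h5 : -η < (mm F - p) / 2 := by linarith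
    have h6 : (mm F - p) / 2 < 0 := by linarith
    have h1 := (le_phi (val hT H hF hO hS hpos)).trans
      (hPhi _ (by exact_mod_cast h5) (by exact_mod_cast h6))
    rw [EReal.coe_le_coe_iff] at h1
    have h2 : (cc F - p * mm F / 2 + (p : ℚ) ^ 2 / 4 - e) / 2 ≤
        ((mm F - p) / 2) ^ 2 / 2 - δ := by
      exact_mod_cast h1
    nlinarith

end Pool.Agent.Lib.LP.TW
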