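import Pool.Agent.Lib.MP_865fc0_ag.TW.SpecG
import Pool.Agent.Lib.MP_865fc0_ag.TW.PHG

/-!
# MP_865fc0_ag, TW, PHW: from bounds for the Le Potier function to bounds for sheaves, general case
-/

set_option autoImplicit false

open scoped Pointwise
open Filter

namespace Pool.Agent.Lib.LP.TW

namespace PHWM

section

variable {L : Type} [Field L] [Algebra ℂ L] [Algebra K L] [IsScalarTower ℂ K L]
variable {V : Type} [AddCommGroup V] [Module ℂ V] [Module K V] [IsScalarTower ℂ K V]
variable [Module L V] [IsScalarTower ℂ L V] [IsScalarTower K L V]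
variable {V' : Type} [AddCommGroup V'] [Module ℂ V'] [Module K V'] [IsScalarTower ℂ K V']
variable [Module L V'] [IsScalarTower ℂ L V'] [IsScalarTower K L V']
variable {F : Chart → Submodule ℂ V}

theorem map_W (W : Chart → Submodule ℂ L) (φ : V →ₗ[L] V') (F : Chart → Submodule ℂ V) :
    mapL (φ.restrictScalars K) (W • F) = W • mapL (φ.restrictScalars K) F := by
  funext s
  exact map_smul_sub φ (W s) (F s)

theorem val {M : Chart → Submodule ℂ L} {p e : ℚ} (hI : SpecIVL) (hT : SpecTRW) (H : TH L M p e)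
    [Module.Finite K V] (hF : IsLat F)
    (hO : strSheaf L • F = F) (hS : Sst (strSheaf L) F) (hpos : 0 < lead F) :
    Val L ((mm F - p) / 2) (psi (canonicalSheaf L) F / (2 * lead F) - e / 2) := by
  have hfin : Module.Finite K L := H.full.fin
  have hd : (0 : ℚ) < Module.finrank K L := TRNM.dpos H.full
  obtain ⟨r, ψ, hψ, hsurj, hlead⟩ := PHGM.exists_psi H.full hF hO
  obtain ⟨φ, hφ⟩ := ψ.exists_leftInverse_of_injective (LinearMap.ker_eq_bot.2 hψ)
  have hφ' : ∀ a, φ (ψ a) = a := fun a => LinearMap.congr_fun hφ a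
  have hback : ∀ (s : Chart), ∀ v ∈ F s, ψ (φ v) = v := by
    intro s v hv
    obtain ⟨a, rfl⟩ := hsurj v (hF.mem_span hv)
    rw [hφ']
  obtain ⟨F', hF'def⟩ : ∃ F' : Chart → Submodule ℂ (Fin r → L),
      F' = mapL (φ.restrictScalars K) F := ⟨_, rfl⟩
  have hF' : IsLat F' := by rw [hF'def]; exact hF.map _
  have hO' : strSheaf L • F' = F' := by rw [hF'def]; exact PHGM.stab φ hO
  have hinj : Function.Injective (ψ.restrictScalars K) := hψ
  have hmap : mapL (ψ.restrictScalars K) F' = F := by
    funext s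
    ext v
    rw [mem_mapL, hF'def]
    constructor
    · rintro ⟨m, hm, rfl⟩
      obtain ⟨f, hf, rfl⟩ := mem_mapL.1 hm
      show ψ (φ f) ∈ F s
      rw [hback s f hf]
      exact hf
    · intro hv
      exact ⟨φ v, mem_mapL.2 ⟨v, hv, rfl⟩, hback s v hv⟩
  have hchi : ∀ a b, chi F' a b = chi F a b := by
    intro a b
    have h1 := hF'.chi_map_of_injective (ψ.restrictScalars K) hinj a b
    rw [hmap] at h1
    exact h1.symm
  have hWF' : IsLat (canonicalSheaf L • F') :=
    (hI L (strSheaf L) (canonicalSheaf L) M H.full H.inv _ F' hF' hO').1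
  have hchiW : ∀ a b, chi (canonicalSheaf L • F') a b = chi (canonicalSheaf L • F) a b := by
    intro a b
    have h1 := hWF'.chi_map_of_injective (ψ.restrictScalars K) hinj a b
    rw [map_W, hmap] at h1
    exact h1.symm
  have hl : lead F' = lead F := by unfold lead; rw [hchi, hchi, hchi, hchi]
  have hlam : lam F' = lam F := by rw [lam_eq, lam_eq, hchi, hchi, hchi]
  have hmm : mm F' = mm F := by unfold mm; rw [hl, hlam]
  have hpsi : psi (canonicalSheaf L) F' = psi (canonicalSheaf L) F := by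
    unfold psi
    rw [hchi, hchiW]
  have hS' : Sst (strSheaf L) F' := by
    intro E hE hOE hEF
    have h1 : mapL (ψ.restrictScalars K) E ≤ F := by
      rw [← hmap]
      intro s
      exact Submodule.map_mono (hEF s)
    have h2 := hS _ (hE.map (ψ.restrictScalars K)) (PHGM.stab ψ hOE) h1
    have hchiE : ∀ a b, chi (mapL (ψ.restrictScalars K) E) a b = chi E a b := fun a b =>
      hE.chi_map_of_injective (ψ.restrictScalars K) hinj a b
    have h3 : lead (mapL (ψ.restrictScalars K) E) = lead E := by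
      unfold lead; rw [hchiE, hchiE, hchiE, hchiE]
    have h4 : lam (mapL (ψ.restrictScalars K) E) = lam E := by
      rw [lam_eq, lam_eq, hchiE, hchiE, hchiE]
    rw [h3, h4] at h2
    rw [hl, hlam]
    exact h2
  have hr : 0 < r := by
    rcases Nat.eq_zero_or_pos r with h0 | h0
    · rw [hlead, h0] at hpos
      simp at hpos
    · exact h0
  have hrk : rk L F' = r := by
    have h1 := TRNM.lead_rk H.full hF' hO'
    rw [hl, hlead] at h1
    have h2 : (0 : ℤ) < Module.finrank K L := by exact_mod_cast hd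
    have h3 := mul_left_cancel₀ h2.ne' h1
    exact_mod_cast h3.symm
  obtain ⟨hsh, hrest⟩ := hT L M p e H r F'
  obtain ⟨-, -, hslope, hss, hch2⟩ := hrest hF' hO' hr hrk
  refine ⟨r, F', hr, hsh.2 ⟨hF', hO'⟩, hrk, hss.2 hS', ?_, ?_⟩
  · rw [hslope, hmm]
  · rw [hch2, hpsi, hl]

end

end PHWM

open PHWM in
theorem specPHW (hI : SpecIVL) (hT : SpecTRW) : SpecPHW := by
  intro L _ _ _ _ M p e H
  constructor
  · intro hPhi V _ _ _ _ _ _ _ _ F hF hO hS hpos
    have h1 := (PHGM.le_phi (val hI hT H hF hO hS hpos)).trans (hPhi _)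
    rw [EReal.coe_le_coe_iff] at h1
    have h2 : psi (canonicalSheaf L) F / (2 * lead F) - e / 2 ≤ ((mm F - p) / 2) ^ 2 / 2 := by
      exact_mod_cast h1
    have hl : (0 : ℚ) < lead F := by exact_mod_cast hpos
    have h3 : psi (canonicalSheaf L) F / (2 * lead F) ≤ ((mm F - p) ^ 2 / 4 + e) / 2 := by
      linarith
    rw [div_le_iff₀ (by linarith)] at h3
    linarith
  · intro η δ hη hδ hPhi V _ _ _ _ _ _ _ _ F hF hO hS hpos h3 h4
    have h5 : -η < (mm F - p) / 2 := by linarith
    have h6 : (mm F - p) / 2 < 0 := by linarith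
    have h1 := (PHGM.le_phi (val hI hT H hF hO hS hpos)).trans
      (hPhi _ (by exact_mod_cast h5) (by exact_mod_cast h6))
    rw [EReal.coe_le_coe_iff] at h1
    have h2 : psi (canonicalSheaf L) F / (2 * lead F) - e / 2 ≤
        ((mm F - p) / 2) ^ 2 / 2 - δ := by
      exact_mod_cast h1
    have hl : (0 : ℚ) < lead F := by exact_mod_cast hpos
    have h3 : psi (canonicalSheaf L) F / (2 * lead F) ≤ ((mm F - p) ^ 2 / 4 + e - 2 * δ) / 2 := by
      linarith
    rw [div_le_iff₀ (by linarith)] at h3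
    linarith

end Pool.Agent.Lib.LP.TW
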