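import Pool.Agent.Lib.MP_865fc0_ag.TW.SpecG

/-!
# MP_865fc0_ag, TW, module PHX: from bounds for sheaves to bounds for `Φ`
-/

set_option autoImplicit false

open scoped Pointwise
open Filter

namespace Pool.Agent.Lib.LP.TW

theorem phiQW (hT : SpecTRW) (L : Type) [Field L] [Algebra ℂ L] [Algebra K L]
    [IsScalarTower ℂ K L] (M : Chart → Submodule ℂ L) (p e η δ : ℚ) (hTF : TH L M p e)
    (hgood : JumpW L (strSheaf L) (canonicalSheaf L) p e η δ) (t : ℝ) (ht1 : -((η / 2 : ℚ) : ℝ) < t) (ht2 : t < 0) :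
    Phi L t ≤ ((t ^ 2 / 2 - ((δ / 2 : ℚ) : ℝ) : ℝ) : EReal) := by
  have hfin : Module.Finite K L := hTF.full.fin
  have key : ∀ ε : ℝ, 0 < ε → ε ≤ -t → ε ≤ t + ((η / 2 : ℚ) : ℝ) →
      Phi L t ≤ (((ε - t) ^ 2 / 2 - ((δ / 2 : ℚ) : ℝ) : ℝ) : EReal) := by
    intro ε hε hm1 hm2
    unfold Phi
    refine (iInf_le _ ⟨ε, hε⟩).trans ?_
    refine sSup_le ?_
    rintro c ⟨r, F, hr, hsh, hrk, hss, hslope, rfl⟩
    obtain ⟨hiff, hrest⟩ := hT L M p e hTF r F
    obtain ⟨hlat, hOF⟩ := hiff.mp hsh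
    obtain ⟨-, hlead, hsl, hsst, hch⟩ := hrest hlat hOF hr hrk
    have hSst := hsst.mp hss
    have hab := abs_lt.mp hslope
    simp only at hab
    have hs1 : (slope L F : ℝ) < 0 := by linarith [hab.2]
    have hs2 : -((η / 2 : ℚ) : ℝ) < (slope L F : ℝ) := by linarith [hab.1]
    have hs1' : slope L F < 0 := by exact_mod_cast hs1
    have hs2' : -(η / 2) < slope L F := by exact_mod_cast hs2
    have hmm1 : (p : ℚ) - η < mm F := by
      rw [hsl] at hs2'
      linarith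
    have hmm2 : mm F < (p : ℚ) := by
      rw [hsl] at hs1'
      linarith
    have hcc := hgood (Fin r → L) F hlat hOF hSst hlead hmm1 hmm2
    rw [hch]
    refine EReal.coe_le_coe_iff.mpr ?_
    have hl0 : (0 : ℚ) < lead F := by exact_mod_cast hlead
    have h3 : psi (canonicalSheaf L) F / (2 * lead F) - e / 2 ≤ (slope L F) ^ 2 / 2 - δ / 2 := by
      rw [hsl]
      have h3a : psi (canonicalSheaf L) F / (2 * lead F) ≤ ((mm F - p) ^ 2 / 4 + e - δ) / 2 := by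
        rw [div_le_iff₀ (by linarith)]
        refine hcc.trans (le_of_eq ?_)
        ring
      have h3b : ((mm F - p) / 2) ^ 2 = (mm F - p) ^ 2 / 4 := by ring
      rw [h3b]
      linarith
    have h4 : ((((psi (canonicalSheaf L) F / (2 * lead F) - e / 2 : ℚ)) : ℝ)) ≤
        (slope L F : ℝ) ^ 2 / 2 - ((δ / 2 : ℚ) : ℝ) := by exact_mod_cast h3
    have h5 : (slope L F : ℝ) ^ 2 ≤ (ε - t) ^ 2 := by
      apply sq_le_sq'
      · linarith [hab.1]
      · linarith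
    linarith
  have hlim : Tendsto (fun ε : ℝ => (((ε - t) ^ 2 / 2 - ((δ / 2 : ℚ) : ℝ) : ℝ) : EReal))
      (nhdsWithin 0 (Set.Ioi 0)) (nhds (((0 - t) ^ 2 / 2 - ((δ / 2 : ℚ) : ℝ) : ℝ) : EReal)) := by
    apply Tendsto.mono_left _ nhdsWithin_le_nhds
    apply (continuous_coe_real_ereal.tendsto _).comp
    have : Continuous fun ε : ℝ => (ε - t) ^ 2 / 2 - ((δ / 2 : ℚ) : ℝ) := by fun_prop
    exact this.tendsto 0
  have hev : ∀ᶠ ε in nhdsWithin (0 : ℝ) (Set.Ioi 0),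
      Phi L t ≤ (((ε - t) ^ 2 / 2 - ((δ / 2 : ℚ) : ℝ) : ℝ) : EReal) := by
    have h6 : Set.Ioo (0 : ℝ) (min (-t) (t + ((η / 2 : ℚ) : ℝ))) ∈ nhdsWithin (0 : ℝ) (Set.Ioi 0) :=
      Ioo_mem_nhdsGT (lt_min (by linarith) (by linarith))
    filter_upwards [h6] with ε hε
    exact key ε hε.1 (hε.2.le.trans (min_le_left _ _)) (hε.2.le.trans (min_le_right _ _))
  have h7 := ge_of_tendsto hlim hev
  rwa [show (0 - t) ^ 2 = t ^ 2 by ring] at h7

/-- Bogomolov's inequality on the level of Phi -/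
theorem phiBW (hT : SpecTRW) (L : Type) [Field L] [Algebra ℂ L] [Algebra K L]
    [IsScalarTower ℂ K L] (M : Chart → Submodule ℂ L) (p e : ℚ) (hTF : TH L M p e)
    (hB : GoodW L (strSheaf L) (canonicalSheaf L) p e)
    (t : ℝ) :
    Phi L t ≤ ((t ^ 2 / 2 : ℝ) : EReal) := by
  have hfin : Module.Finite K L := hTF.full.fin
  have key : ∀ ε : ℝ, 0 < ε → Phi L t ≤ (((ε + |t|) ^ 2 / 2 : ℝ) : EReal) := by
    intro ε hε
    unfold Phi
    refine (iInf_le _ ⟨ε, hε⟩).trans ?_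
    refine sSup_le ?_
    rintro c ⟨r, F, hr, hsh, hrk, hss, hslope, rfl⟩
    obtain ⟨hiff, hrest⟩ := hT L M p e hTF r F
    obtain ⟨hlat, hOF⟩ := hiff.mp hsh
    obtain ⟨-, hlead, hsl, hsst, hch⟩ := hrest hlat hOF hr hrk
    have hSst := hsst.mp hss
    have hab := abs_lt.mp hslope
    simp only at hab
    have hcc := hB (Fin r → L) F hlat hOF hSst hlead
    rw [hch]
    refine EReal.coe_le_coe_iff.mpr ?_
    have hl0 : (0 : ℚ) < lead F := by exact_mod_cast hlead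
    have h3 : psi (canonicalSheaf L) F / (2 * lead F) - e / 2 ≤ (slope L F) ^ 2 / 2 := by
      rw [hsl]
      have h3a : psi (canonicalSheaf L) F / (2 * lead F) ≤ ((mm F - p) ^ 2 / 4 + e) / 2 := by
        rw [div_le_iff₀ (by linarith)]
        refine hcc.trans (le_of_eq ?_)
        ring
      have h3b : ((mm F - p) / 2) ^ 2 = (mm F - p) ^ 2 / 4 := by ring
      rw [h3b]
      linarith
    have h4 : ((((psi (canonicalSheaf L) F / (2 * lead F) - e / 2 : ℚ)) : ℝ)) ≤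
        (slope L F : ℝ) ^ 2 / 2 := by exact_mod_cast h3
    have h5 : (slope L F : ℝ) ^ 2 ≤ (ε + |t|) ^ 2 := by
      apply sq_le_sq'
      · linarith [hab.1, neg_abs_le t]
      · linarith [hab.2, le_abs_self t]
    linarith
  have hlim : Tendsto (fun ε : ℝ => (((ε + |t|) ^ 2 / 2 : ℝ) : EReal))
      (nhdsWithin 0 (Set.Ioi 0)) (nhds (((0 + |t|) ^ 2 / 2 : ℝ) : EReal)) := by
    apply Tendsto.mono_left _ nhdsWithin_le_nhds
    apply (continuous_coe_real_ereal.tendsto _).comp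
    have : Continuous fun ε : ℝ => (ε + |t|) ^ 2 / 2 := by fun_prop
    exact this.tendsto 0
  have hev : ∀ᶠ ε in nhdsWithin (0 : ℝ) (Set.Ioi 0),
      Phi L t ≤ (((ε + |t|) ^ 2 / 2 : ℝ) : EReal) := by
    filter_upwards [self_mem_nhdsWithin] with ε hε
    exact key ε hε
  have h7 := ge_of_tendsto hlim hev
  rwa [zero_add, sq_abs] at h7

theorem specPHX (hT : SpecTRW) : SpecPHX := by
  intro L _ _ _ _ M p e h
  exact ⟨fun hB t => phiBW hT L M p e h hB t, fun η δ hJ t h1 h2 => phiQW hT L M p e η δ h hJ t h1 h2⟩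

end Pool.Agent.Lib.LP.TW
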