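import Pool.Agent.Lib.MP_865fc0_ag.TW.SpecG
import Pool.Agent.Lib.MP_865fc0_ag.Limit

/-!
# MP_865fc0_ag, TW, PHY: the structure sheaf shows that `0 ≤ Φ(0)`, for invertible `ω`
-/

set_option autoImplicit false

open scoped Pointwise
open Filter

namespace Pool.Agent.Lib.LP.TW

namespace PHYM

variable {L : Type} [Field L] [Algebra ℂ L] [Algebra K L] [IsScalarTower ℂ K L]

/-- `L` as the space `Fin 1 → L` -/
noncomputable def emb (L : Type) [Field L] [Algebra K L] : L →ₗ[K] (Fin 1 → L) :=
  (((LinearEquiv.funUnique (Fin 1) L L).symm : L ≃ₗ[L] (Fin 1 → L)) : L →ₗ[L] (Fin 1 → L)).restrictScalars K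

theorem emb_inj : Function.Injective (emb L) :=
  ((LinearEquiv.funUnique (Fin 1) L L).symm : L ≃ₗ[L] (Fin 1 → L)).injective

theorem emb_one : emb L 1 = fun _ => 1 := by
  funext i
  rfl

theorem stable {M : Chart → Submodule ℂ L} {p e : ℚ} (H : TH L M p e) :
    strSheaf L • mapL (emb L) (strSheaf L) = mapL (emb L) (strSheaf L) := by
  funext s
  have h5 := map_smul_sub
    (((LinearEquiv.funUnique (Fin 1) L L).symm : L ≃ₗ[L] (Fin 1 → L)) : L →ₗ[L] (Fin 1 → L))
    (strSheaf L s) (strSheaf L s)
  have h6 : strSheaf L s • strSheaf L s = strSheaf L s := congrFun H.full.ring.mul s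
  rw [h6] at h5
  exact h5.symm

theorem omega_smul {M : Chart → Submodule ℂ L} {p e : ℚ} (H : TH L M p e) :
    canonicalSheaf L • mapL (emb L) (strSheaf L) = mapL (emb L) (canonicalSheaf L) := by
  funext s
  have h5 := map_smul_sub
    (((LinearEquiv.funUnique (Fin 1) L L).symm : L ≃ₗ[L] (Fin 1 → L)) : L →ₗ[L] (Fin 1 → L))
    (canonicalSheaf L s) (strSheaf L s)
  have h7 : strSheaf L s * canonicalSheaf L s = canonicalSheaf L s := congrFun H.inv.st s
  have h6 : canonicalSheaf L s • strSheaf L s = canonicalSheaf L s := by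
    have h8 : canonicalSheaf L s * strSheaf L s = canonicalSheaf L s := by
      rw [mul_comm]
      exact h7
    exact h8
  rw [h6] at h5
  exact h5.symm

theorem rk_one : rk L (mapL (emb L) (strSheaf L)) = 1 := by
  have h1 : Submodule.span L (⋃ s, (mapL (emb L) (strSheaf L) s : Set (Fin 1 → L))) = ⊤ := by
    rw [eq_top_iff]
    intro v _
    have h2 : (fun _ => 1 : Fin 1 → L) ∈
        Submodule.span L (⋃ s, (mapL (emb L) (strSheaf L) s : Set (Fin 1 → L))) := by
      apply Submodule.subset_span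
      refine Set.mem_iUnion.2 ⟨(false, false), ?_⟩
      exact ⟨1, (Oalg L (false, false)).one_mem, emb_one⟩
    have h3 : v = v 0 • (fun _ => 1 : Fin 1 → L) := by
      funext i
      rw [Subsingleton.elim i 0]
      simp
    rw [h3]
    exact Submodule.smul_mem _ _ h2
  unfold rk
  rw [h1, finrank_top]
  simp

theorem val_zero (hT : SpecTRW) {M : Chart → Submodule ℂ L} {p e : ℚ} (H : TH L M p e)
    (hom : chi (canonicalSheaf L) 0 0 = chi (strSheaf L) 0 0) : Val L 0 0 := by
  have hfin : Module.Finite K L := H.full.fin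
  have hlat : IsLat (mapL (emb L) (strSheaf L)) := H.full.ring.lat.map (emb L)
  have hO := stable H
  have hrk := rk_one (L := L)
  have hchi : ∀ a b, chi (mapL (emb L) (strSheaf L)) a b = chi (strSheaf L) a b := fun a b =>
    H.full.ring.lat.chi_map_of_injective (emb L) emb_inj a b
  have hchiw : ∀ a b, chi (mapL (emb L) (canonicalSheaf L)) a b = chi (canonicalSheaf L) a b :=
    fun a b => H.inv.lat.chi_map_of_injective (emb L) emb_inj a b
  obtain ⟨hsh, hrest⟩ := hT L M p e H 1 (mapL (emb L) (strSheaf L))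
  obtain ⟨hlead, hpos, hslope, -, hch2⟩ := hrest hlat hO one_pos hrk
  have hlam : lam (mapL (emb L) (strSheaf L)) = lam (strSheaf L) := by
    rw [lam_eq, lam_eq, hchi, hchi, hchi]
  have hd : (0 : ℚ) < Module.finrank K L := by
    rw [hlead] at hpos
    have : (0 : ℤ) < Module.finrank K L := by simpa using hpos
    exact_mod_cast this
  have hmm : mm (mapL (emb L) (strSheaf L)) = p := by
    unfold mm
    rw [hlam, hlead, H.lamO]
    push_cast
    field_simp
  have hpsi : psi (canonicalSheaf L) (mapL (emb L) (strSheaf L)) = e * Module.finrank K L := by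
    unfold psi
    rw [omega_smul H, hchi, hchiw, hom, H.chiO]
    ring
  refine ⟨1, mapL (emb L) (strSheaf L), one_pos, hsh.2 ⟨hlat, hO⟩, hrk, ?_, ?_, ?_⟩
  · intro E _ _ h1 h2
    rw [hrk] at h2
    omega
  · rw [hslope, hmm]
    ring
  · rw [hch2, hpsi, hlead]
    push_cast
    field_simp
    ring

end PHYM

theorem specPHY (hT : SpecTRW) : SpecPHY := by
  intro L _ _ _ _ M p e H hom
  rw [Phi_eq]
  refine le_iInf fun ε => ?_
  have := le_SupE (PHYM.val_zero hT H hom) (t := 0) (ε := ε) (by simpa using ε.2)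
  simpa using this

end Pool.Agent.Lib.LP.TW
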