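import Pool.Agent.Lib.MP_865fc0_ag.TW.SpecG
import Pool.Agent.Lib.MP_865fc0_ag.TW.QUO

/-!
# QUW: saturation and quotients, with an invertible sheaf
-/

set_option autoImplicit false

open scoped Pointwise
open Filter

namespace Pool.Agent.Lib.LP.TW

open QUOM in
theorem specQUW (hIVL : SpecIVL) : SpecQUW := by
  intro C _ _ _ _ O W W' hO hW V _ _ _ _ _ _ _ _ F E hF hOF hE hOE hEF
  let U : Submodule C V := WC hO hOE
  let q : V →ₗ[K] (V ⧸ U) :=
    { toFun := fun v => U.mkQ v
      map_add' := fun a b => map_add U.mkQ a b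
      map_smul' := fun k v => rfl }
  have hqC : ∀ (r : C) (v : V), q (r • v) = r • q v := fun r v => rfl
  have hqs : Function.Surjective q := U.mkQ_surjective
  have hq0 : ∀ v : V, q v = 0 ↔ v ∈ Submodule.span K (E (false, false) : Set V) := by
    intro v
    show U.mkQ v = 0 ↔ _
    rw [Submodule.mkQ_apply, Submodule.Quotient.mk_eq_zero]
    exact Iff.rfl
  have st1 : IsScalarTower ℂ K (V ⧸ U) := by
    constructor
    intro a b v
    obtain ⟨v, rfl⟩ := U.mkQ_surjective v
    show U.mkQ ((a • b) • v) = U.mkQ (a • b • v)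
    rw [smul_assoc]
  have st2 : IsScalarTower ℂ C (V ⧸ U) := by
    constructor
    intro a b v
    obtain ⟨v, rfl⟩ := U.mkQ_surjective v
    show U.mkQ ((a • b) • v) = U.mkQ (a • b • v)
    rw [smul_assoc]
  have st3 : IsScalarTower K C (V ⧸ U) := by
    constructor
    intro a b v
    obtain ⟨v, rfl⟩ := U.mkQ_surjective v
    show U.mkQ ((a • b) • v) = U.mkQ (a • b • v)
    rw [smul_assoc]
  have hfin : Module.Finite K (V ⧸ U) := Module.Finite.of_surjective q hqs
  set E₁ : Chart → Submodule ℂ V := fun s => F s ⊓ LinearMap.ker (q.restrictScalars ℂ) with hE₁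
  have hmem : ∀ s v, v ∈ E₁ s ↔ v ∈ F s ∧ q v = 0 := fun s v => Iff.rfl
  have hlat : IsLat E₁ := hF.inf_ker q
  have hOE₁ : O • E₁ = E₁ := by
    apply stab hO
    intro s r hr v hv
    rw [hmem] at hv ⊢
    exact ⟨stab' hOF hr hv.1, by rw [hqC, hv.2, smul_zero]⟩
  have hEE : E ≤ E₁ := by
    intro s v hv
    exact (hmem s v).2 ⟨hEF s hv, (hq0 v).2 (hE.mem_span hv)⟩
  refine ⟨E₁, hlat, hOE₁, hEE, fun s => inf_le_left, ?_, V ⧸ U, inferInstance, inferInstance,
    inferInstance, st1, inferInstance, st2, st3, hfin, mapL q F, hF.map q, ?_, ?_, ?_, ?_⟩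
  · rw [hlat.lead_eq, hE.lead_eq]
    have : Submodule.span K (E₁ (false, false) : Set V) =
        Submodule.span K (E (false, false) : Set V) := by
      apply le_antisymm
      · rw [Submodule.span_le]
        intro v hv
        exact (hq0 v).1 ((hmem _ v).1 hv).2
      · exact Submodule.span_mono (hEE _)
    rw [this]
  · apply stab hO
    rintro s r hr v ⟨v, hv, rfl⟩
    exact ⟨r • v, stab' hOF hr hv, hqC r v⟩
  · intro a b
    have := hF.chi_map q a b
    linarith
  · intro a b
    obtain ⟨hWF, -, -, -, hinf⟩ := hIVL C O W W' hO hW V F hF hOF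
    have h1 := hWF.chi_map q a b
    have h2 : (fun s => (W • F) s ⊓ LinearMap.ker (q.restrictScalars ℂ)) = W • E₁ := by
      funext s
      have h3 : LinearMap.ker (q.restrictScalars ℂ) = U.restrictScalars ℂ := by
        ext v
        show U.mkQ v = 0 ↔ v ∈ U
        rw [Submodule.mkQ_apply, Submodule.Quotient.mk_eq_zero]
      show (W • F) s ⊓ LinearMap.ker (q.restrictScalars ℂ) =
        W s • (F s ⊓ LinearMap.ker (q.restrictScalars ℂ))
      rw [h3, hinf U s]
    have h4 : mapL q (W • F) = W • mapL q F := by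
      funext s
      exact map_smul_sub U.mkQ (W s) (F s)
    rw [h2, h4] at h1
    linarith
  · intro E' hE' hOE' hE'F
    set E'' : Chart → Submodule ℂ V := fun s => F s ⊓ (E' s).comap (q.restrictScalars ℂ) with hE''
    have hmem2 : ∀ s v, v ∈ E'' s ↔ v ∈ F s ∧ q v ∈ E' s := fun s v => Iff.rfl
    have hlat2 : IsLat E'' := hF.inf_comap hE' q
    refine ⟨E'', hlat2, ?_, fun s => inf_le_left, ?_⟩
    · apply stab hO
      intro s r hr v hv
      rw [hmem2] at hv ⊢
      refine ⟨stab' hOF hr hv.1, ?_⟩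
      rw [hqC]
      exact stab' hOE' hr hv.2
    · intro a b
      have h1 := hlat2.chi_map q a b
      have h2 : mapL q E'' = E' := by
        funext s
        apply le_antisymm
        · rintro _ ⟨v, hv, rfl⟩
          exact ((hmem2 s v).1 hv).2
        · intro v' hv'
          obtain ⟨v, hv, rfl⟩ := hE'F s hv'
          exact ⟨v, (hmem2 s v).2 ⟨hv, hv'⟩, rfl⟩
      have h3 : (fun s => E'' s ⊓ LinearMap.ker (q.restrictScalars ℂ)) = E₁ := by
        funext s
        ext v
        constructor
        · rintro ⟨hv1, hv2⟩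
          exact ⟨hv1.1, hv2⟩
        · rintro ⟨hv1, hv2⟩
          refine ⟨⟨hv1, ?_⟩, hv2⟩
          have hv3 : q v = 0 := hv2
          show q v ∈ E' s
          rw [hv3]
          exact Submodule.zero_mem _
      rw [h2, h3] at h1
      linarith

end Pool.Agent.Lib.LP.TW
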