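import Pool.Agent.Lib.MP_865fc0_ag.TW.SpecG

/-!
# MP_865fc0_ag, TW: module TRW (comparison of the official definitions with the internal ones, for an
invertible canonical sheaf)
-/

set_option autoImplicit false

open scoped Pointwise
open Filter

namespace Pool.Agent.Lib.LP.TW

namespace TRWM

section sheaf

variable {L : Type} [Field L] [Algebra ℂ L] [Algebra K L] [IsScalarTower ℂ K L]
variable {V : Type} [AddCommGroup V] [Module ℂ V] [Module K V] [IsScalarTower ℂ K V]
variable [Module L V] [IsScalarTower ℂ L V] [IsScalarTower K L V]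
variable {F E : Chart → Submodule ℂ V}

theorem deg_eq {M : Chart → Submodule ℂ L} {p e : ℚ} (H : TH L M p e) [Module.Finite K V]
    (hF : IsLat F) (hO : strSheaf L • F = F) : deg L F = lam F - p * lead F := by
  have := H.full.fin
  unfold deg
  rw [hF.linCoeff_eq, H.full.ring.lat.linCoeff_eq, H.lamO, TRGM.lead_rk H.full hF hO]
  push_cast
  ring

/-- Official semistability implies the internal one. -/
theorem sst_of_isSemistable {M : Chart → Submodule ℂ L} {p e : ℚ} (H : TH L M p e)
    [Module.Finite K V] (hF : IsLat F)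
    (hO : strSheaf L • F = F) (h : IsSemistable L F) : Sst (strSheaf L) F := by
  intro E hE hOE hEF
  have hd := TRGM.dpos H.full
  have hlE := TRGM.lead_rk H.full hE hOE
  have hlF := TRGM.lead_rk H.full hF hO
  have hlE' : (lead E : ℚ) = Module.finrank K L * rk L E := by rw [hlE]; push_cast; rfl
  have hlF' : (lead F : ℚ) = Module.finrank K L * rk L F := by rw [hlF]; push_cast; rfl
  have hmono : lead E ≤ lead F := by
    rw [hE.lead_eq, hF.lead_eq]
    exact_mod_cast Submodule.finrank_mono (Submodule.span_mono (hEF _))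
  rcases Nat.eq_zero_or_pos (rk L E) with h0 | h0
  · have hE0 : E = ⊥ := hE.eq_bot_of_lead (by rw [hlE, h0]; simp)
    rw [hE0, lam_bot, hE0.symm, hlE, h0]
    simp
  · have hle : rk L E ≤ rk L F := by
      have h1 : (lead E : ℚ) ≤ lead F := by exact_mod_cast hmono
      rw [hlE', hlF'] at h1
      exact_mod_cast le_of_mul_le_mul_left h1 hd
    rcases hle.lt_or_eq with hlt | heq
    · have h1 := h E (TRGM.of_lat H.full hE hOE) hEF h0 hlt
      rw [deg_eq H hE hOE, deg_eq H hF hO, hlE', hlF'] at h1
      have hE' : (0 : ℚ) < rk L E := by exact_mod_cast h0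
      have hd' : (0 : ℚ) < (rk L F : ℚ) - rk L E := by
        rw [sub_pos]; exact_mod_cast hlt
      rw [div_le_div_iff₀ hE' hd'] at h1
      have h2 : (lam E : ℚ) * rk L F ≤ lam F * rk L E := by linarith
      have h3 : (lam E * lead F : ℚ) ≤ lam F * lead E := by
        rw [hlE', hlF']
        have h4 := mul_le_mul_of_nonneg_left h2 hd.le
        linarith
      exact_mod_cast h3
    · have hl : lead E = lead F := by rw [hlE, hlF, heq]
      rw [← hl]
      exact mul_le_mul_of_nonneg_right (hE.lam_le hF hEF hl) hE.lead_nonneg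

/-- Internal semistability implies the official one. -/
theorem isSemistable_of_sst {M : Chart → Submodule ℂ L} {p e : ℚ} (H : TH L M p e)
    [Module.Finite K V] (hF : IsLat F)
    (hO : strSheaf L • F = F) (h : Sst (strSheaf L) F) : IsSemistable L F := by
  intro E hE hEF h0 hlt
  have hd := TRGM.dpos H.full
  have hElat := TRGM.isLat H.full hE
  have hOE := TRGM.stable H.full hE
  have hlE := TRGM.lead_rk H.full hElat hOE
  have hlF := TRGM.lead_rk H.full hF hO
  have hlE' : (lead E : ℚ) = Module.finrank K L * rk L E := by rw [hlE]; push_cast; rfl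
  have hlF' : (lead F : ℚ) = Module.finrank K L * rk L F := by rw [hlF]; push_cast; rfl
  have h1 : (lam E * lead F : ℚ) ≤ lam F * lead E := by exact_mod_cast h E hElat hOE hEF
  rw [deg_eq H hElat hOE, deg_eq H hF hO]
  have hE' : (0 : ℚ) < rk L E := by exact_mod_cast h0
  have hd' : (0 : ℚ) < (rk L F : ℚ) - rk L E := by
    rw [sub_pos]; exact_mod_cast hlt
  rw [div_le_div_iff₀ hE' hd', hlE', hlF']
  rw [hlE', hlF'] at h1
  have h2 : (lam E : ℚ) * rk L F ≤ lam F * rk L E := by
    apply le_of_mul_le_mul_left _ hd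
    linarith
  linarith

theorem ch2_eq (hIVL : SpecIVL) {M : Chart → Submodule ℂ L} {p e : ℚ} (H : TH L M p e)
    [Module.Finite K V] (hF : IsLat F) (hO : strSheaf L • F = F) :
    ch2 L F = psi (canonicalSheaf L) F - e * lead F := by
  have := H.full.fin
  have hωF : IsLat (canonicalSheaf L • F) :=
    (hIVL L (strSheaf L) (canonicalSheaf L) M H.full H.inv V F hF hO).1
  have h1 : twistCanonical L F = canonicalSheaf L • F := rfl
  have hlF' : (lead F : ℚ) = Module.finrank K L * rk L F := by
    rw [TRGM.lead_rk H.full hF hO]; push_cast; rfl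
  unfold ch2 psi
  rw [h1, hF.eulerChar_eq, hωF.eulerChar_eq, H.full.ring.lat.eulerChar_eq, H.chiO, hlF']
  ring

end sheaf

end TRWM

theorem specTRW (hIVL : SpecIVL) : SpecTRW := by
  intro L _ _ _ _ M p e H r F
  have := H.full.fin
  refine ⟨⟨fun h => ⟨TRGM.isLat H.full h, TRGM.stable H.full h⟩,
    fun h => TRGM.of_lat H.full h.1 h.2⟩, ?_⟩
  intro hF hO hr hrk
  have hd := TRGM.dpos H.full
  have hlF := TRGM.lead_rk H.full hF hO
  rw [hrk] at hlF
  have hlF' : (lead F : ℚ) = Module.finrank K L * r := by rw [hlF]; push_cast; rfl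
  have hr' : (0 : ℚ) < r := by exact_mod_cast hr
  have hlpos : (0 : ℚ) < lead F := by rw [hlF']; exact mul_pos hd hr'
  have hne : (lead F : ℚ) ≠ 0 := hlpos.ne'
  have hH : Hsq L * r = 2 * lead F := by unfold Hsq; rw [hlF']; ring
  refine ⟨hlF, by exact_mod_cast hlpos, ?_,
    ⟨TRWM.sst_of_isSemistable H hF hO, TRWM.isSemistable_of_sst H hF hO⟩, ?_⟩
  · unfold slope mm
    rw [hrk, hH, TRWM.deg_eq H hF hO]
    field_simp
  · rw [hH, TRWM.ch2_eq hIVL H hF hO]
    field_simp

end Pool.Agent.Lib.LP.TW
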