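import Pool.Agent.Lib.MP_865fc0_ag.TW.SpecG

/-! # MP_865fc0_ag, TW, module WLT: an invertible canonical sheaf is a lattice -/

set_option autoImplicit false

open scoped Pointwise

namespace Pool.Agent.Lib.LP.TW

namespace WLTM

variable {L : Type} [Field L] [Algebra ℂ L] [Algebra K L] [IsScalarTower ℂ K L]

theorem mem_can {s : Chart} {v : L} : v ∈ canonicalSheaf L s ↔
    ∀ a ∈ Oalg L s, wx s ^ 2 * wu s ^ 2 * Algebra.trace K L (a * v) ∈ Ralg s := Iff.rfl

theorem smul_sub_mul (I : Submodule ℂ K) (N P : Submodule ℂ L) : (I • N) * P = I • (N * P) := by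
  apply le_antisymm
  · rw [Submodule.mul_le]
    intro a ha b hb
    refine Submodule.smul_induction_on ha ?_ ?_
    · intro r hr n hn
      rw [smul_mul_assoc]
      exact Submodule.smul_mem_smul hr (Submodule.mul_mem_mul hn hb)
    · intro a a' h h'
      rw [add_mul]
      exact Submodule.add_mem _ h h'
  · rw [Submodule.smul_le]
    intro r hr z hz
    refine Submodule.mul_induction_on hz ?_ ?_
    · intro n hn b hb
      rw [← smul_mul_assoc]
      exact Submodule.mul_mem_mul (Submodule.smul_mem_smul hr hn) hb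
    · intro a a' h h'
      rw [smul_add]
      exact Submodule.add_mem _ h h'

theorem O_mul_can (s : Chart) {a v : L} (ha : a ∈ strSheaf L s) (hv : v ∈ canonicalSheaf L s) :
    a * v ∈ canonicalSheaf L s := by
  rw [mem_can] at hv ⊢
  intro b hb
  have h := hv (b * a) ((Oalg L s).mul_mem hb ha)
  rwa [mul_assoc b a v] at h

variable {M : Chart → Submodule ℂ L}

theorem char (hW : ∀ s, canonicalSheaf L s * M s = strSheaf L s) (s : Chart) (v : L)
    (h : ∀ m ∈ M s, v * m ∈ strSheaf L s) : v ∈ canonicalSheaf L s := by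
  have h1 : (1 : L) ∈ canonicalSheaf L s * M s := by
    rw [hW]; exact (Oalg L s).one_mem
  have key : ∀ z ∈ canonicalSheaf L s * M s, v * z ∈ canonicalSheaf L s := by
    intro z hz
    refine Submodule.mul_induction_on hz ?_ ?_
    · intro a ha m hm
      have h2 : v * (a * m) = (v * m) * a := by ring
      rw [h2]
      exact O_mul_can s (h m hm) ha
    · intro a a' h h'
      rw [mul_add]
      exact Submodule.add_mem _ h h'
  have h3 := key 1 h1
  rwa [mul_one] at h3

theorem exists_fg (hW : ∀ s, canonicalSheaf L s * M s = strSheaf L s) (s : Chart) :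
    ∃ V0 : Submodule ℂ L, V0.FG ∧ V0 ≤ canonicalSheaf L s ∧ (1 : L) ∈ V0 * M s := by
  have h1 : (1 : L) ∈ canonicalSheaf L s * M s := by
    rw [hW]; exact (Oalg L s).one_mem
  refine Submodule.mul_induction_on (C := fun z => ∃ V0 : Submodule ℂ L, V0.FG ∧
    V0 ≤ canonicalSheaf L s ∧ z ∈ V0 * M s) h1 ?_ ?_
  · intro a ha m hm
    exact ⟨Submodule.span ℂ {a}, Submodule.fg_span_singleton a,
      (Submodule.span_singleton_le_iff_mem _ _).2 ha,
      Submodule.mul_mem_mul (Submodule.mem_span_singleton_self a) hm⟩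
  · rintro a a' ⟨V, hV, hV', h⟩ ⟨V', hV1, hV1', h'⟩
    refine ⟨V ⊔ V', hV.sup hV1, sup_le hV' hV1', Submodule.add_mem _ ?_ ?_⟩
    · exact (show V * M s ≤ (V ⊔ V') * M s from mul_le_mul_left le_sup_left _) h
    · exact (show V' * M s ≤ (V ⊔ V') * M s from mul_le_mul_left le_sup_right _) h'

theorem fg (hO : IsRingLat (strSheaf L)) (hW : ∀ s, canonicalSheaf L s * M s = strSheaf L s)
    (s : Chart) : ∃ T : Submodule ℂ L, T.FG ∧ canonicalSheaf L s = R s • T := by
  obtain ⟨T0, hT0, hT⟩ := hO.lat.fg s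
  obtain ⟨V0, hV0, hV, h1⟩ := exists_fg hW s
  refine ⟨T0 * V0, hT0.mul hV0, ?_⟩
  rw [← smul_sub_mul, ← hT]
  apply le_antisymm
  · intro v hv
    have key : ∀ z ∈ V0 * M s, v * z ∈ strSheaf L s * V0 := by
      intro z hz
      refine Submodule.mul_induction_on hz ?_ ?_
      · intro a ha m hm
        have h2 : v * (a * m) = (v * m) * a := by ring
        rw [h2]
        refine Submodule.mul_mem_mul ?_ ha
        rw [← hW s]
        exact Submodule.mul_mem_mul hv hm
      · intro a a' h h'
        rw [mul_add]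
        exact Submodule.add_mem _ h h'
    have h3 := key 1 h1
    rwa [mul_one] at h3
  · rw [Submodule.mul_le]
    intro a ha b hb
    exact O_mul_can s ha (hV hb)

theorem glue (hO : IsRingLat (strSheaf L)) (hM : IsLat M)
    (hW : ∀ s, canonicalSheaf L s * M s = strSheaf L s) (s t : Chart) (v : L)
    (hv : v ∈ canonicalSheaf L s) : ∃ n : ℕ, (w s / w t) ^ n • v ∈ canonicalSheaf L t := by
  obtain ⟨T, ⟨S, hS⟩, hT⟩ := hM.fg t
  have hTM : T ≤ M t := by
    intro m hm
    rw [hT]
    have h := Submodule.smul_mem_smul (one_mem_R t) hm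
    rwa [one_smul] at h
  -- one element
  have h1 : ∀ m : L, ∃ k : ℕ, m ∈ T → (w s / w t) ^ k • (v * m) ∈ strSheaf L t := by
    intro m
    by_cases hm : m ∈ T
    · obtain ⟨n, hn⟩ := hM.glue t s m (hTM hm)
      have h2 : v * ((w t / w s) ^ n • m) ∈ strSheaf L s := by
        rw [← hW s]
        exact Submodule.mul_mem_mul hv hn
      obtain ⟨k, hk⟩ := hO.lat.glue s t _ h2
      refine ⟨k, fun _ => ?_⟩
      have h3 := hO.lat.smul_mem (w_div_pow_mem s t n) hk
      have h4 : (w s / w t) ^ n • (w s / w t) ^ k • (v * ((w t / w s) ^ n • m)) =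
          (w s / w t) ^ k • (v * m) := by
        rw [mul_smul_comm, smul_smul, smul_smul]
        congr 1
        have hs := w_ne_zero s
        have ht := w_ne_zero t
        rw [mul_right_comm, ← mul_pow, div_mul_div_comm, mul_comm (w s) (w t), div_self
          (mul_ne_zero ht hs), one_pow, one_mul]
      rwa [h4] at h3
    · exact ⟨0, fun h => absurd h hm⟩
  choose k hk using h1
  refine ⟨∑ m ∈ S, k m, ?_⟩
  apply char hW
  have h5 : T ≤ (strSheaf L t).comap
      (((Algebra.lsmul ℂ ℂ L ((w s / w t) ^ (∑ m ∈ S, k m)) : L →ₗ[ℂ] L)).comp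
        (LinearMap.mulLeft ℂ v)) := by
    rw [← hS, Submodule.span_le]
    intro m hm
    have hmT : m ∈ T := by rw [← hS]; exact Submodule.subset_span hm
    have h6 : k m ≤ ∑ m ∈ S, k m := Finset.single_le_sum (f := k) (fun _ _ => Nat.zero_le _) hm
    exact hO.lat.glue_mono h6 (hk m hmT)
  intro m hm
  rw [hT] at hm
  rw [smul_mul_assoc]
  refine Submodule.smul_induction_on hm ?_ ?_
  · intro r hr n hn
    have h7 : (w s / w t) ^ (∑ m ∈ S, k m) • (v * n) ∈ strSheaf L t := h5 hn
    have h8 := hO.lat.smul_mem hr h7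
    rw [mul_smul_comm, smul_comm]
    exact h8
  · intro a a' h h'
    rw [mul_add, smul_add]
    exact Submodule.add_mem _ h h'

end WLTM

theorem specWLT : SpecWLT := by
  intro L _ _ _ _ M hF hM hOM hWM
  have hO := hF.ring
  have hW : ∀ s, canonicalSheaf L s * M s = strSheaf L s := fun s => congrFun hWM s
  refine ⟨⟨WLTM.fg hO hW, WLTM.glue hO hM hW⟩, hM, ?_, hOM, hWM⟩
  funext s
  show strSheaf L s * canonicalSheaf L s = canonicalSheaf L s
  apply le_antisymm
  · rw [Submodule.mul_le]
    intro a ha b hb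
    exact WLTM.O_mul_can s ha hb
  · intro v hv
    have h := Submodule.mul_mem_mul (show (1 : L) ∈ strSheaf L s from (Oalg L s).one_mem) hv
    rwa [one_mul] at h

end Pool.Agent.Lib.LP.TW
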