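import Pool.Agent.Lib.MP_865fc0_ag.TW.TranG
import Pool.Agent.Lib.MP_865fc0_ag.TW.PHG
import Pool.Agent.Lib.MP_865fc0_ag.TW.FUL
import Pool.Agent.Lib.MP_865fc0_ag.TW.IVL
import Pool.Agent.Lib.MP_865fc0_ag.TW.QUW
import Pool.Agent.Lib.MP_865fc0_ag.TW.MAW
import Pool.Agent.Lib.MP_865fc0_ag.TW.LAS
import Pool.Agent.Lib.MP_865fc0_ag.TW.LAW
import Pool.Agent.Lib.MP_865fc0_ag.TW.INW
import Pool.Agent.Lib.MP_865fc0_ag.TW.OMG
import Pool.Agent.Lib.MP_865fc0_ag.TW.OMI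
import Pool.Agent.Lib.MP_865fc0_ag.TW.FUG
import Pool.Agent.Lib.MP_865fc0_ag.TW.WLT
import Pool.Agent.Lib.MP_865fc0_ag.TW.TRW
import Pool.Agent.Lib.MP_865fc0_ag.TW.PHW
import Pool.Agent.Lib.MP_865fc0_ag.TW.PHX
import Pool.Agent.Lib.MP_865fc0_ag.TW.PHY
import Pool.Agent.Lib.MP_865fc0_ag.TW.DUA

/-!
# The inheritance theorem: all modules together
-/

namespace Pool.Agent.Lib.LePotier

open Pool.Agent.Lib.LP (K)
open Pool.Agent.Lib.LP.TW

/-- The inheritance theorem. -/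
theorem cover_inheritance (L L' : Type) [Field L] [Algebra ℂ L] [Algebra K L] [IsScalarTower ℂ K L]
    [Field L'] [Algebra ℂ L'] [Algebra K L'] [IsScalarTower ℂ K L'] [Algebra L L']
    [IsScalarTower K L L'] [IsScalarTower ℂ L L'] (d a : ℕ) (y : L')
    (hL : FiniteDimensional K L) (hG : Gorenstein L) (hC : CyclicCover L L' d a y)
    (η δ : ℝ) (hη : 0 < η) (hδ : 0 < δ) (hJ : JumpsBy L η δ) :
    FiniteDimensional K L' ∧ Gorenstein L' ∧
      JumpsBy L' (η / 2) (min δ (min (a * η / 4) ((a : ℝ) ^ 2)) / d) ∧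
      (∀ k : ℤ, CanonicalClass L k → CanonicalClass L' (k + a * (d - 1))) ∧
      (SerreDuality L ∨ (∃ k : ℤ, CanonicalClass L k) →
        SerreDuality L' ∧ Phi L' 0 = 0 ∧ ¬ ContinuousAt (Phi L') 0) := by
  have hHNX : SpecHNX := specHNX specBDD
  have hIVL : SpecIVL := specIVL
  have hQUW : SpecQUW := specQUW hIVL
  have hMAW : SpecMAW := specMAW hHNX hQUW
  have hLAS : SpecLAS := specLAS hIVL
  have hLAW : SpecLAW := specLAW hHNX hQUW hLAS
  have hRND : SpecRND := specRND (specFIL specCDB specDIV)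
  have hINW : SpecINW := specINW hMAW specCDB hRND specNUA specNUB
  have hOMG : SpecOMG := specOMG
  have hOMI : SpecOMI := specOMI hOMG
  have hTRW : SpecTRW := specTRW hIVL
  obtain ⟨h1, h2, h3, h4⟩ := main_inheritG specFUL hIVL hLAW hINW hOMI specFUG specWLT
    (specPHW hIVL hTRW) (specPHX hTRW) (specPHY hTRW) (specDUA hOMI) L L' d a y hL hG hC η δ hη hδ hJ
  refine ⟨h1, h2, h3, fun k hk => ?_, fun h => h4 ?_⟩
  · exact (main_inherit specFUL (specPHG specTRG) L L' k d a y hL hk hC η δ hη hδ hJ).2.1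
  · rcases h with h | ⟨k, hk⟩
    · exact h
    · exact hk.serre specFUL hL hJ.1

end Pool.Agent.Lib.LePotier
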