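import Pool.Agent.Lib.MP_865fc0_ag.TW.SpecG
import Pool.Agent.Lib.MP_865fc0_ag.TW.CDB

/-!
# OMI: the canonical sheaf of a cyclic cover is invertible (helper28)
-/

set_option autoImplicit false

open scoped Pointwise
open Filter

namespace Pool.Agent.Lib.LP.TW

namespace OMIM

section mixed

variable {L L' : Type} [Field L] [Algebra ℂ L] [Algebra K L] [IsScalarTower ℂ K L]
variable [Field L'] [Algebra ℂ L'] [Algebra K L'] [IsScalarTower ℂ K L'] [Algebra L L']
variable [IsScalarTower K L L'] [IsScalarTower ℂ L L']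
variable {V : Type} [AddCommGroup V] [Module ℂ V] [Module L V] [IsScalarTower ℂ L V]
variable [Module L' V] [IsScalarTower ℂ L' V] [IsScalarTower L L' V]

/-- associativity for two rings -/
theorem mixS (A : Chart → Submodule ℂ L) (X : Chart → Submodule ℂ L')
    (F : Chart → Submodule ℂ V) : (A • X) • F = A • (X • F) := by
  funext s
  exact Submodule.smul_assoc (A s) (X s) (F s)

theorem mixM (A : Chart → Submodule ℂ L) (X Y : Chart → Submodule ℂ L') :
    (A • X) * Y = A • (X * Y) := mixS (V := L') A X Y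

/-- `y` is not zero -/
theorem y_ne {O : Chart → Submodule ℂ L} {O' : Chart → Submodule ℂ L'} {d a : ℕ} {y : L'}
    (h : CCov L L' O O' d a y) : y ≠ 0 := by
  intro hy
  have h1 := h.free (fun i => if i = 1 then 1 else 0) (by
    refine Finset.sum_eq_zero fun i _ => ?_
    show algebraMap L L' (if i = 1 then 1 else 0) * y ^ i = 0
    by_cases hi : i = 1
    · rw [hi, hy]
      simp
    · rw [if_neg hi, map_zero, zero_mul]) 1 h.deg
  simp at h1

end mixed

end OMIM

open OMIM in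
theorem specOMI (hOMG : SpecOMG) : SpecOMI := by
  intro L L' _ _ _ _ _ _ _ _ _ _ _ d a y M hC hF hF' hI
  have hω := hOMG L L' d a y hC hF
  set j : ℤ := ((a * (d - 1) : ℕ) : ℤ) with hj
  set O' : Chart → Submodule ℂ L' := strSheaf L' with hO'
  set W : Chart → Submodule ℂ L := canonicalSheaf L with hW
  have hy : y ≠ 0 := y_ne hC
  have hyd : y ^ (d - 1) ≠ 0 := pow_ne_zero _ hy
  have hOO : strSheaf L • O' = O' :=
    ((specCDB L L' (strSheaf L) O' d a y hF hF' hC L' O' hF'.ring.lat).1 hF'.ring.mul).1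
  have hPlat : IsLat (W • O') := hI.lat.fsmul hF'.ring.lat
  have hQlat : IsLat (M • O') := hI.lat'.fsmul hF'.ring.lat
  have hPO : (W • O') * O' = W • O' := by rw [mixM, hF'.ring.mul]
  have hQO : (M • O') * O' = M • O' := by rw [mixM, hF'.ring.mul]
  have hPQ : (W • O') * (M • O') = O' := by
    rw [mixM, mul_comm O', mixM, hF'.ring.mul, ← mulS, hI.mul, hOO]
  constructor
  · refine ⟨ln (y ^ (d - 1)) • tw (-j) (-j) (M • O'), ?_, ?_, ?_, ?_, ?_⟩
    · rw [hω]
      exact (hPlat.tw _ _).ln_smul _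
    · exact (hQlat.tw _ _).ln_smul _
    · rw [hω]
      show O' * (ln ((y ^ (d - 1))⁻¹) * tw j j (W • O')) = ln ((y ^ (d - 1))⁻¹) * tw j j (W • O')
      rw [mul_comm O', mul_assoc, tw_mul, hPO]
    · show O' * (ln (y ^ (d - 1)) * tw (-j) (-j) (M • O')) = ln (y ^ (d - 1)) * tw (-j) (-j) (M • O')
      rw [mul_comm O', mul_assoc, tw_mul, hQO]
    · rw [hω]
      show (ln ((y ^ (d - 1))⁻¹) * tw j j (W • O')) *
        (ln (y ^ (d - 1)) * tw (-j) (-j) (M • O')) = O'
      rw [mul_mul_mul_comm, ← ln_mul, inv_mul_cancel₀ hyd, ln_one, one_mul, tw_mul,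
        mul_comm (W • O'), tw_mul, mul_comm (M • O'), hPQ, tw_tw, add_neg_cancel, tw_zero]
  · intro V _ _ _ _ _ _ _ _ _ _ _ _ F hFl hFO
    have h1 : canonicalSheaf L' • F = ln ((y ^ (d - 1))⁻¹) • tw j j (W • F) := by
      rw [hω]
      have h2 : (ln ((y ^ (d - 1))⁻¹) • tw j j (W • O')) • F =
          ln ((y ^ (d - 1))⁻¹) • (tw j j (W • O') • F) := mulS _ _ F
      rw [h2, tw_fsmul, mixS, hFO]
    have hlat : IsLat (W • F) := hI.lat.fsmul hFl
    rw [h1, (hlat.tw j j).chi_ln (isUnit_iff_ne_zero.2 (inv_ne_zero hyd)), hlat.chi_tw, zero_add]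

end Pool.Agent.Lib.LP.TW
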