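import Pool.Agent.Lib.MP_865fc0_ag.TW.Spec

/-!
# MP_865fc0_ag, TW, module OMS: the canonical sheaf of a double cover
-/

set_option autoImplicit false

open scoped Pointwise
open Filter

namespace Pool.Agent.Lib.LP.TW

namespace OMSM

section trace

variable {L L' : Type} [Field L] [Field L'] [Algebra L L']

theorem exists_basis (y : L')
    (free : ∀ f g : L, algebraMap L L' f + algebraMap L L' g * y = 0 → f = 0 ∧ g = 0)
    (gen : ∀ v : L', ∃ f g : L, v = algebraMap L L' f + algebraMap L L' g * y) :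
    ∃ b : Module.Basis (Fin 2) L L', b 0 = 1 ∧ b 1 = y := by
  have hli : LinearIndependent L ![(1 : L'), y] := by
    rw [LinearIndependent.pair_iff]
    intro s t h
    rw [Algebra.smul_def, Algebra.smul_def, mul_one] at h
    exact free s t h
  have hsp : ⊤ ≤ Submodule.span L (Set.range ![(1 : L'), y]) := by
    intro v _
    obtain ⟨f, g, rfl⟩ := gen v
    have h1 : (1 : L') ∈ Submodule.span L (Set.range ![(1 : L'), y]) :=
      Submodule.subset_span ⟨0, rfl⟩
    have h2 : y ∈ Submodule.span L (Set.range ![(1 : L'), y]) :=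
      Submodule.subset_span ⟨1, rfl⟩
    have h3 := Submodule.add_mem _ (Submodule.smul_mem _ f h1) (Submodule.smul_mem _ g h2)
    rw [Algebra.smul_def, Algebra.smul_def, mul_one] at h3
    exact h3
  refine ⟨Module.Basis.mk hli hsp, ?_, ?_⟩
  · rw [Module.Basis.mk_apply]; rfl
  · rw [Module.Basis.mk_apply]; rfl

theorem tr_eq (b : Module.Basis (Fin 2) L L') {y : L'} (b0 : b 0 = 1) (b1 : b 1 = y) {d : L}
    (hd : y * y = algebraMap L L' d) (f g : L) :
    Algebra.trace L L' (algebraMap L L' f + algebraMap L L' g * y) = 2 * f := by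
  have h1 : (algebraMap L L' f + algebraMap L L' g * y) * b 0 = f • b 0 + g • b 1 := by
    rw [b0, b1, Algebra.smul_def, Algebra.smul_def]
    ring
  have h2 : (algebraMap L L' f + algebraMap L L' g * y) * b 1 = (g * d) • b 0 + f • b 1 := by
    rw [b0, b1, Algebra.smul_def, Algebra.smul_def, map_mul, ← hd]
    ring
  rw [Algebra.trace_eq_matrix_trace b, Matrix.trace_fin_two, Algebra.leftMulMatrix_eq_repr_mul,
    Algebra.leftMulMatrix_eq_repr_mul, h1, h2, map_add, map_add, map_smul, map_smul, map_smul,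
    map_smul, b.repr_self, b.repr_self]
  simp
  ring

end trace

section main

variable {L L' : Type} [Field L] [Algebra ℂ L] [Algebra K L] [IsScalarTower ℂ K L]
  [Field L'] [Algebra ℂ L'] [Algebra K L'] [IsScalarTower ℂ K L'] [Algebra L L']
  [IsScalarTower K L L'] [IsScalarTower ℂ L L'] {a : ℕ} {y : L'}

theorem y_ne (h : DCov L L' (strSheaf L) (strSheaf L') a y) : y ≠ 0 := by
  rintro rfl
  have h1 := h.free 0 1 (by simp)
  exact one_ne_zero h1.2

theorem mem_str (h : DCov L L' (strSheaf L) (strSheaf L') a y) (s : Chart) (f g : L) :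
    algebraMap L L' f + algebraMap L L' g * y ∈ strSheaf L' s ↔
      f ∈ strSheaf L s ∧ g ∈ tw (-a) (-a) (strSheaf L) s := by
  rw [h.eq]
  constructor
  · rintro ⟨f', hf', g', hg', he⟩
    have h1 := h.free (f - f') (g - g') (by
      rw [map_sub, map_sub]
      linear_combination he)
    rw [sub_eq_zero.mp h1.1, sub_eq_zero.mp h1.2]
    exact ⟨hf', hg'⟩
  · rintro ⟨hf, hg⟩
    exact ⟨f, hf, g, hg, rfl⟩

theorem smul_map (k : K) (f : L) : k • algebraMap L L' f = algebraMap L L' (k • f) := by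
  rw [Algebra.smul_def, Algebra.smul_def, map_mul, ← IsScalarTower.algebraMap_apply K L L']

theorem smul_comb (k : K) (f g : L) (y : L') :
    k • (algebraMap L L' f + algebraMap L L' g * y) =
      algebraMap L L' (k • f) + algebraMap L L' (k • g) * y := by
  rw [smul_add, smul_map, ← smul_map k g, smul_mul_assoc]

theorem two_mem {s : Chart} {r : K} : r * 2 ∈ Ralg s ↔ r ∈ Ralg s := by
  constructor
  · intro h
    have h1 := (Ralg s).smul_mem h ((1 : ℂ) / 2)
    have e : ((1 : ℂ) / 2) • (r * 2) = r := by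
      rw [Algebra.smul_def]
      have h2 : algebraMap ℂ K ((1 : ℂ) / 2) * 2 = 1 := by
        have h3 : (2 : K) = algebraMap ℂ K 2 := by rw [map_ofNat]
        rw [h3, ← map_mul]
        norm_num
      linear_combination r * h2
    rwa [e] at h1
  · intro h
    have h1 := (Ralg s).add_mem h h
    rwa [← mul_two] at h1

/-- the canonical sheaf of the double cover -/
theorem mem_can [Module.Finite K L] (h : DCov L L' (strSheaf L) (strSheaf L') a y) (s : Chart)
    (v : L') (α β : L) (hv : v * y = algebraMap L L' α + algebraMap L L' β * y) :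
    v ∈ canonicalSheaf L' s ↔ β ∈ canonicalSheaf L s ∧ α ∈ tw a a (canonicalSheaf L) s := by
  obtain ⟨b, b0, b1⟩ := exists_basis y h.free h.gen
  obtain ⟨d, hd⟩ := h.sq
  have : Module.Finite L L' := Module.Finite.of_basis b
  have hy := y_ne h
  have hd0 : d ≠ 0 := by
    rintro rfl
    rw [map_zero] at hd
    exact hy (mul_self_eq_zero.mp hd)
  have hv2 : v = algebraMap L L' β + algebraMap L L' (α / d) * y := by
    have h1 : algebraMap L L' d ≠ 0 := by
      rw [← hd]
      exact mul_ne_zero hy hy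
    apply mul_right_cancel₀ hy
    rw [hv, map_div₀, ← hd]
    field_simp
    ring
  -- the trace
  have htr : ∀ f g : L, Algebra.trace K L' ((algebraMap L L' f + algebraMap L L' g * y) * v) =
      Algebra.trace K L (f * β + g * α) * 2 := by
    intro f g
    have e : (algebraMap L L' f + algebraMap L L' g * y) * v =
        algebraMap L L' (f * β + g * α) + algebraMap L L' (f * (α / d) + g * β) * y := by
      rw [hv2]
      have e1 : algebraMap L L' (g * α) = algebraMap L L' g * algebraMap L L' (α / d) * (y * y) := by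
        rw [hd, ← map_mul, ← map_mul]
        congr 1
        field_simp
      rw [map_add (algebraMap L L') (f * β) (g * α), e1, map_add, map_mul, map_mul, map_mul]
      ring
    rw [e, ← Algebra.trace_trace (S := L), tr_eq b b0 b1 hd]
    have e3 : (2 : L) * (f * β + g * α) = (2 : K) • (f * β + g * α) := by
      rw [Algebra.smul_def, map_ofNat]
    rw [e3, map_smul, smul_eq_mul, mul_comm]
  have key : v ∈ canonicalSheaf L' s ↔ ∀ f ∈ strSheaf L s, ∀ g ∈ tw (-a) (-a) (strSheaf L) s,
      wx s ^ 2 * wu s ^ 2 * Algebra.trace K L (f * β + g * α) ∈ Ralg s := by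
    constructor
    · intro hvm f hf g hg
      have h1 := hvm _ ((mem_str h s f g).mpr ⟨hf, hg⟩)
      rw [htr, ← mul_assoc] at h1
      exact two_mem.mp h1
    · intro hh w hw
      obtain ⟨f, g, rfl⟩ := h.gen w
      obtain ⟨hf, hg⟩ := (mem_str h s f g).mp hw
      rw [htr, ← mul_assoc]
      exact two_mem.mpr (hh f hf g hg)
  rw [key]
  have hz : (0 : L) ∈ strSheaf L s := Submodule.zero_mem _
  have hz' : (0 : L) ∈ tw (-a) (-a) (strSheaf L) s := Submodule.zero_mem _
  have hc1 : (wx s ^ (a : ℤ) * wu s ^ (a : ℤ))⁻¹ = wx s ^ (-(a : ℤ)) * wu s ^ (-(a : ℤ)) := by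
    rw [mul_inv, zpow_neg, zpow_neg]
  constructor
  · intro hh
    refine ⟨?_, ?_⟩
    · intro f hf
      have h1 := hh f hf 0 hz'
      rwa [zero_mul, add_zero] at h1
    · rw [mem_tw, hc1]
      intro g' hg'
      have hg : (wx s ^ (-(a : ℤ)) * wu s ^ (-(a : ℤ))) • g' ∈ tw (-a) (-a) (strSheaf L) s := by
        rw [mem_tw, smul_smul, inv_mul_cancel₀ (wab_ne_zero s _ _), one_smul]
        exact hg'
      have h1 := hh 0 hz _ hg
      rw [zero_mul, zero_add, smul_mul_assoc, ← mul_smul_comm] at h1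
      exact h1
  · rintro ⟨h1, h2⟩ f hf g hg
    rw [map_add, mul_add]
    refine (Ralg s).add_mem (h1 f hf) ?_
    rw [mem_tw] at hg
    rw [mem_tw, hc1] at h2
    have h3 := h2 _ hg
    rw [smul_mul_smul_comm, inv_mul_cancel₀ (wab_ne_zero s _ _), one_smul] at h3
    exact h3

end main

end OMSM

open OMSM in
theorem specOMS : SpecOMS := by
  intro L L' _ _ _ _ _ _ _ _ _ _ _ a y p h hfull hz
  have := hfull.fin
  obtain ⟨z, hz0, hz⟩ := hz
  have hy := y_ne h
  have hzz : algebraMap L L' z ≠ 0 := by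
    rw [Ne, map_eq_zero]
    exact hz0
  refine ⟨algebraMap L L' z / y, div_ne_zero hzz hy, ?_⟩
  funext s
  ext v
  obtain ⟨α, β, hv⟩ := h.gen (v * y)
  rw [mem_can h s v α β hv]
  -- membership in the canonical sheaf of `L`
  have hcan : ∀ (i : ℤ) (t : L), t ∈ tw i i (canonicalSheaf L) s ↔
      z⁻¹ * t ∈ tw (i - p) (i - p) (strSheaf L) s := by
    intro i t
    rw [mem_tw, hz]
    have e : i - p = i + -p := by ring
    rw [e, ← tw_tw, mem_tw]
    constructor
    · intro ht
      obtain ⟨n, hn, hn2⟩ := mem_ln_smul.mp ht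
      have e2 : (wx s ^ i * wu s ^ i)⁻¹ • (z⁻¹ * t) = n := by
        rw [← mul_smul_comm, ← hn2, smul_eq_mul, ← mul_assoc, inv_mul_cancel₀ hz0, one_mul]
      rw [e2]
      exact hn
    · intro ht
      refine mem_ln_smul.mpr ⟨_, ht, ?_⟩
      rw [smul_eq_mul, mul_smul_comm, ← mul_assoc, mul_inv_cancel₀ hz0, one_mul]
  have h0 : β ∈ canonicalSheaf L s ↔ z⁻¹ * β ∈ tw (-p) (-p) (strSheaf L) s := by
    have h1 := hcan 0 β
    rw [tw_zero, zero_sub] at h1
    exact h1
  rw [h0, hcan a α]
  have hq : v ∈ (ln (algebraMap L L' z / y) • tw (-(p - a)) (-(p - a)) (strSheaf L')) s ↔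
      algebraMap L L' (z⁻¹ * α) + algebraMap L L' (z⁻¹ * β) * y ∈
        tw (-(p - a)) (-(p - a)) (strSheaf L') s := by
    have e : algebraMap L L' (z⁻¹ * α) + algebraMap L L' (z⁻¹ * β) * y =
        y / algebraMap L L' z * v := by
      have e1 : y / algebraMap L L' z * v = (algebraMap L L' z)⁻¹ * (v * y) := by
        rw [div_eq_mul_inv]
        ring
      rw [e1, hv, map_mul, map_mul, map_inv₀]
      ring
    rw [e]
    constructor
    · intro ht
      obtain ⟨n, hn, hn2⟩ := mem_ln_smul.mp ht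
      have e2 : y / algebraMap L L' z * v = n := by
        rw [← hn2, smul_eq_mul, ← mul_assoc]
        have e3 : y / algebraMap L L' z * (algebraMap L L' z / y) = 1 := by
          field_simp
        rw [e3, one_mul]
      rw [e2]
      exact hn
    · intro ht
      refine mem_ln_smul.mpr ⟨_, ht, ?_⟩
      rw [smul_eq_mul, ← mul_assoc]
      have e3 : algebraMap L L' z / y * (y / algebraMap L L' z) = 1 := by
        field_simp
      rw [e3, one_mul]
  rw [hq, mem_tw (F := strSheaf L'), smul_comb, mem_str h]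
  have e4 : (-(p - (a : ℤ))) = (a : ℤ) - p := by ring
  rw [e4]
  have h5 : (wx s ^ ((a : ℤ) - p) * wu s ^ ((a : ℤ) - p))⁻¹ • (z⁻¹ * α) ∈ strSheaf L s ↔
      z⁻¹ * α ∈ tw ((a : ℤ) - p) ((a : ℤ) - p) (strSheaf L) s := mem_tw.symm
  have h6 : (wx s ^ ((a : ℤ) - p) * wu s ^ ((a : ℤ) - p))⁻¹ • (z⁻¹ * β) ∈
      tw (-a) (-a) (strSheaf L) s ↔ z⁻¹ * β ∈ tw (-p) (-p) (strSheaf L) s := by
    rw [← mem_tw (F := tw (-a) (-a) (strSheaf L)), tw_tw]
    have e5 : ((a : ℤ) - p) + -(a : ℤ) = -p := by ring
    rw [e5]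
  rw [h5, h6]
  exact and_comm

end Pool.Agent.Lib.LP.TW
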