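import Pool.Agent.Lib.MP_865fc0_ag.TW.Spec

/-!
# MP_865fc0_ag, TW, module PHN: the Le Potier function is bounded above by a negative number
to the left of zero
-/

set_option autoImplicit false

open scoped Pointwise
open Filter

namespace Pool.Agent.Lib.LP.TW

namespace PHNM

theorem arith {p e m c d η μ : ℚ} (hμ : μ = (m - p) / 2) (h1 : -η < μ) (h2 : μ < 0) (hη : 0 < η)
    (hη1 : η ≤ 1) (hη2 : η ≤ d / 2) (hc : c ≤ m ^ 2 / 4 + e - d) :
    (c - p * m / 2 + p ^ 2 / 4 - e) / 2 ≤ -(d / 4) := by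
  have h3 : (c - p * m / 2 + p ^ 2 / 4 - e) / 2 ≤ (μ ^ 2 - d) / 2 := by
    rw [hμ]
    linarith [hc, show ((m - p) / 2) ^ 2 = m ^ 2 / 4 - p * m / 2 + p ^ 2 / 4 by ring]
  have h4 : μ ^ 2 ≤ η := by nlinarith
  linarith

end PHNM

theorem specPHN (hT : SpecTRN) : SpecPHN := by
  intro L _ _ _ _ p e hTF
  obtain ⟨η, hη, δ, hδ, hgood⟩ := hTF.good.2
  have hfin : Module.Finite K L := hTF.full.fin
  obtain ⟨η', hη'⟩ : ∃ η' : ℚ, η' = min (η / 2) (min (δ / 2) 1) := ⟨_, rfl⟩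
  have hpos : 0 < η' := by
    rw [hη']
    exact lt_min (by linarith) (lt_min (by linarith) one_pos)
  have hle1 : η' ≤ η / 2 := by
    rw [hη']
    exact min_le_left _ _
  have hle2 : η' ≤ δ / 2 := by
    rw [hη']
    exact (min_le_right _ _).trans (min_le_left _ _)
  have hle3 : η' ≤ 1 := by
    rw [hη']
    exact (min_le_right _ _).trans (min_le_right _ _)
  refine ⟨(η' : ℝ), by exact_mod_cast hpos, ((δ / 4 : ℚ) : ℝ), by
    have : (0 : ℚ) < δ / 4 := by linarith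
    exact_mod_cast this, ?_⟩
  intro t ht1 ht2
  have hε : 0 < min (-t) (t + (η' : ℝ)) := lt_min (by linarith) (by linarith)
  unfold Phi
  refine (iInf_le _ ⟨min (-t) (t + (η' : ℝ)), hε⟩).trans ?_
  refine sSup_le ?_
  rintro c ⟨r, F, hr, hsh, hrk, hss, hslope, rfl⟩
  obtain ⟨hiff, hrest⟩ := hT L p e hTF r F
  obtain ⟨hlat, hOF⟩ := hiff.mp hsh
  obtain ⟨-, hlead, hsl, hsst, hch⟩ := hrest hlat hOF hr hrk
  have hSst := hsst.mp hss
  have hab := abs_lt.mp hslope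
  have hm1 : min (-t) (t + (η' : ℝ)) ≤ -t := min_le_left _ _
  have hm2 : min (-t) (t + (η' : ℝ)) ≤ t + (η' : ℝ) := min_le_right _ _
  have hs1 : (slope L F : ℝ) < 0 := by linarith [hab.2]
  have hs2 : -(η' : ℝ) < (slope L F : ℝ) := by linarith [hab.1]
  have hs1' : slope L F < 0 := by exact_mod_cast hs1
  have hs2' : -η' < slope L F := by exact_mod_cast hs2
  have hmm1 : (p : ℚ) - η < mm F := by
    rw [hsl] at hs2'
    linarith
  have hmm2 : mm F < (p : ℚ) := by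
    rw [hsl] at hs1'
    linarith
  have hcc := hgood (Fin r → L) F hlat hOF hSst hlead hmm1 hmm2
  rw [hch]
  refine EReal.coe_le_coe_iff.mpr ?_
  have hfinal : (cc F - p * mm F / 2 + (p : ℚ) ^ 2 / 4 - e) / 2 ≤ -(δ / 4) :=
    PHNM.arith hsl hs2' hs1' hpos hle3 hle2 hcc
  exact_mod_cast hfinal

end Pool.Agent.Lib.LP.TW
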