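import Pool.Agent.Lib.MP_865fc0_ag.TW.MainC

/-!
# MP_865fc0_ag, TW: the explicit bound to the left of zero
-/

set_option autoImplicit false

open scoped Pointwise
open Filter

namespace Pool.Agent.Lib.LP.TW

/-- the jump to the left of slope zero, with constants -/
def GoodQ (C : Type) [Field C] [Algebra ℂ C] [Algebra K C] [IsScalarTower ℂ K C]
    (O : Chart → Submodule ℂ C) (p e η δ : ℚ) : Prop :=
  ∀ (V : Type) [AddCommGroup V] [Module ℂ V] [Module K V]
    [IsScalarTower ℂ K V] [Module C V] [IsScalarTower ℂ C V] [IsScalarTower K C V]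
    [Module.Finite K V] (F : Chart → Submodule ℂ V), IsLat F → O • F = F → Sst O F → 0 < lead F →
    p - η < mm F → mm F < p → cc F ≤ mm F ^ 2 / 4 + e - δ

theorem goodQ_base (hVAN : SpecVAN) : GoodQ K R 2 0 1 (1 / 4) := by
  intro V i1 i2 m1 i4 m2 i6 i7 i8 F hF hOF hS hpos h1 h2
  have hm : m2 = m1 := by
    apply Module.ext'
    intro r v
    have h := i7.smul_assoc r (1 : K) v
    rw [smul_eq_mul, mul_one] at h
    rw [h]
    congr 1
    exact @one_smul K V _ m2.toMulAction v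
  subst hm
  rw [add_zero]
  exact BASM.key2 hVAN F hF hS hpos (by linarith) h2

theorem GoodQ.mono {C : Type} [Field C] [Algebra ℂ C] [Algebra K C] [IsScalarTower ℂ K C]
    {O : Chart → Submodule ℂ C} {p e η δ η' δ' : ℚ} (h : GoodQ C O p e η δ) (h1 : η' ≤ η)
    (h2 : δ' ≤ δ) : GoodQ C O p e η' δ' := by
  intro V _ _ _ _ _ _ _ _ F hF hOF hS hpos h3 h4
  have := h V F hF hOF hS hpos (by linarith) h4
  linarith

theorem goodQ_step (hMAG : SpecMAG) (hCDB : SpecCDB) (hRND : SpecRND) (hNUA : SpecNUA)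
    (hNUB : SpecNUB) (C C' : Type) [Field C] [Algebra ℂ C] [Algebra K C] [IsScalarTower ℂ K C]
    [Field C'] [Algebra ℂ C'] [Algebra K C'] [IsScalarTower ℂ K C'] [Algebra C C']
    [IsScalarTower K C C'] [IsScalarTower ℂ C C'] (O : Chart → Submodule ℂ C)
    (O' : Chart → Submodule ℂ C') (d a : ℕ) (y : C') (hO : Full C O) (hO' : Full C' O')
    (hD : CCov C C' O O' d a y) (p e η δ : ℚ) (hη : 0 < η) (hδ : 0 < δ) (hG : Good C O p e)
    (hJ : GoodQ C O p e η δ) :
    GoodQ C' O' (p - a * (d - 1)) (e + (a : ℚ) ^ 2 * ((d : ℚ) ^ 2 - 1) / 12) (η / 2)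
      (min δ (min (a * η / 4) (2 * a ^ 2)) / d) := by
  obtain ⟨hB, -⟩ := hG
  have ha1 : (1 : ℚ) ≤ a := by exact_mod_cast hD.pos
  have ha0 : (0 : ℚ) < a := by linarith
  have hd2 : 2 ≤ d := hD.deg
  have hd : (2 : ℚ) ≤ d := by exact_mod_cast hd2
  have hdc : (((d - 2 : ℕ) : ℕ) : ℚ) = (d : ℚ) - 2 := by
    rw [Nat.cast_sub hd2]; norm_num
  intro V _ _ _ _ _ _ _ _ F hF hOF hS hlead hm1 hm2
  set D : ℚ := min δ (min (a * η / 4) (2 * a ^ 2)) with hDdef
  have hD0 : 0 < D := lt_min hδ (lt_min (by positivity) (by positivity))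
  have hD1 : D ≤ δ := min_le_left _ _
  have hD2 : D ≤ a * η / 4 := (min_le_right _ _).trans (min_le_left _ _)
  have hD3 : D ≤ 2 * a ^ 2 := (min_le_right _ _).trans (min_le_right _ _)
  set m : ℚ := mm F with hm
  set α : ℚ := m - a * (d - 1) with hα
  set k : ℚ := D / (2 * a) with hk
  have hk0 : 0 < k := by positivity
  have hka : k * (2 * a) = D := by
    rw [hk]
    field_simp
  have hk8 : k ≤ η / 8 := by
    rw [hk, div_le_iff₀ (by positivity)]
    linarith
  have hkA : k ≤ a := by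
    rw [hk, div_le_iff₀ (by positivity)]
    linarith
  -- the sum with the modified last coefficient
  have hsum : ∀ X : ℕ → ℚ, ∑ l ∈ Finset.range (d - 1),
      ((a : ℚ) - if l = d - 2 then k else 0) * X l =
      (∑ l ∈ Finset.range (d - 1), (a : ℚ) * X l) - k * X (d - 2) := by
    intro X
    have e1 : ∀ l ∈ Finset.range (d - 1), ((a : ℚ) - if l = d - 2 then k else 0) * X l =
        (a : ℚ) * X l - (if l = d - 2 then k * X (d - 2) else 0) := by
      intro l _
      by_cases hl : l = d - 2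
      · rw [if_pos hl, if_pos hl, hl]; ring
      · rw [if_neg hl, if_neg hl]; ring
    rw [Finset.sum_congr rfl e1, Finset.sum_sub_distrib, Finset.sum_ite_eq',
      if_pos (Finset.mem_range.2 (by omega))]
  have h := INCM.key hMAG hCDB hRND C C' O O' d a y hO hO' hD V F hF hOF hS hlead
    ((-α ^ 2 / 4 + α * a / 2) + e) ((α - a) / 2) (d - 1) (fun l => α + 2 * a * l)
    (fun l => (a : ℚ) - if l = d - 2 then k else 0) ?_ ?_
  · rw [← hm] at h
    rw [hsum (fun l => INCM.S d a m (α + 2 * a * l) / d)] at h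
    have h1 := hNUB d a α m hd2 ha0 (by rw [hα]; ring)
    have h2 := h1.1
    have h3 := h1.2
    unfold INCM.S at h
    rw [hdc, h3] at h
    have h4 : k * (2 * a / d) = D / d := by
      rw [← hka]; ring
    rw [h4] at h
    linarith
  · intro l _
    split_ifs
    · linarith
    · linarith
  · intro V2 _ _ _ _ _ _ _ _ G hGl hOG hSG hleadG h1 h2
    rw [hsum (fun l => max 0 (mm G - (α + 2 * a * l)))]
    rw [hdc]
    set t : ℚ := mm G with ht
    have hβ : m + a * (d - 1) = α + 2 * a * (d - 1) := by rw [hα]; ring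
    have hN := hNUA d a α t hd2 ha0 h1 (by rw [← hβ]; exact h2)
    have hN1 := hN.1
    have hN2 := hN.2
    unfold chord at hN1 hN2
    rcases le_or_gt t (α + 2 * a * (d - 2)) with hc | hc
    · have h3 := hB V2 G hGl hOG hSG hleadG
      rw [max_eq_left (by linarith : t - (α + 2 * a * ((d : ℚ) - 2)) ≤ 0), mul_zero]
      rw [← ht] at h3
      linarith
    · rw [max_eq_right (by linarith : 0 ≤ t - (α + 2 * a * ((d : ℚ) - 2)))]
      have hN3 := hN2 hc.le
      have hb0 : 0 ≤ α + 2 * a * ((d : ℚ) - 1) - t := by rw [← hβ]; linarith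
      have hT0 : 0 ≤ t - (α + 2 * a * ((d : ℚ) - 2)) := by linarith
      rcases le_or_gt t (α + 2 * a * ((d : ℚ) - 1) - η / 2) with hc' | hc'
      · have h3 := hB V2 G hGl hOG hSG hleadG
        rw [← ht] at h3
        have h4 : k * (t - (α + 2 * a * ((d : ℚ) - 2))) ≤
            (t - (α + 2 * a * ((d : ℚ) - 2))) * (α + 2 * a * ((d : ℚ) - 1) - t) / 4 := by
          have h5 : k ≤ (α + 2 * a * ((d : ℚ) - 1) - t) / 4 := by linarith
          have h6 := mul_le_mul_of_nonneg_right h5 hT0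
          linarith
        linarith
      · have hm1' : p - η / 2 < m + a * (d - 1) := by linarith
        have h3 := hJ V2 G hGl hOG hSG hleadG (by rw [hβ] at hm1'; linarith) (by linarith)
        rw [← ht] at h3
        have h4 : k * (t - (α + 2 * a * ((d : ℚ) - 2))) ≤ k * (2 * a) :=
          mul_le_mul_of_nonneg_left (by linarith) hk0.le
        rw [hka] at h4
        have h5 := mul_nonneg hT0 hb0
        linarith

/-- the constants of a tower of degree `N`: `η = 1/N`, `δ = 1/(4N)` -/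
theorem goodQ_stepN (hMAG : SpecMAG) (hCDB : SpecCDB) (hRND : SpecRND) (hNUA : SpecNUA)
    (hNUB : SpecNUB) (C C' : Type) [Field C] [Algebra ℂ C] [Algebra K C] [IsScalarTower ℂ K C]
    [Field C'] [Algebra ℂ C'] [Algebra K C'] [IsScalarTower ℂ K C'] [Algebra C C']
    [IsScalarTower K C C'] [IsScalarTower ℂ C C'] (O : Chart → Submodule ℂ C)
    (O' : Chart → Submodule ℂ C') (d a : ℕ) (y : C') (hO : Full C O) (hO' : Full C' O')
    (hD : CCov C C' O O' d a y) (p e : ℚ) (N : ℚ) (hN : 1 ≤ N) (hG : Good C O p e)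
    (hJ : GoodQ C O p e (1 / N) (1 / (4 * N))) :
    GoodQ C' O' (p - a * (d - 1)) (e + (a : ℚ) ^ 2 * ((d : ℚ) ^ 2 - 1) / 12) (1 / (d * N))
      (1 / (4 * (d * N))) := by
  have ha1 : (1 : ℚ) ≤ a := by exact_mod_cast hD.pos
  have hd : (2 : ℚ) ≤ d := by exact_mod_cast hD.deg
  have hN0 : 0 < N := by linarith
  have hNi : 1 / N ≤ 1 := by rw [div_le_one hN0]; exact hN
  have hNi0 : 0 < 1 / N := by positivity
  refine (goodQ_step hMAG hCDB hRND hNUA hNUB C C' O O' d a y hO hO' hD p e (1 / N) (1 / (4 * N))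
    hNi0 (by positivity) hG hJ).mono ?_ ?_
  · rw [div_div]
    apply one_div_le_one_div_of_le (by positivity)
    nlinarith
  · have e1 : 1 / (4 * (d * N)) = 1 / (4 * N) / d := by
      rw [div_div]; ring_nf
    rw [e1]
    apply div_le_div_of_nonneg_right _ (by linarith)
    apply le_min le_rfl
    have e2 : 1 / (4 * N) = (1 / N) / 4 := by rw [div_div, mul_comm]
    rw [e2]
    apply le_min
    · have := mul_le_mul_of_nonneg_right ha1 hNi0.le
      linarith
    · nlinarith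

theorem towQ (hVAN : SpecVAN) (hMAG : SpecMAG) (hCDB : SpecCDB) (hRND : SpecRND)
    (hNUA : SpecNUA) (hNUB : SpecNUB) (hBAS : SpecBAS) (hFUB : SpecFUB) (hFUC : SpecFUC)
    (hOMC : SpecOMC) (hHCB : SpecHCB) (hHCC : SpecHCC)
    (L : Type) [Field L] [Algebra ℂ L] [Algebra K L] [hT : IsScalarTower ℂ K L] (h : TowC L) :
    ∃ (p : ℤ) (e : ℚ), TF L p e ∧
      GoodQ L (strSheaf L) p e (1 / (Module.finrank K L : ℚ)) (1 / (4 * (Module.finrank K L : ℚ))) := by
  revert hT
  induction h with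
  | base =>
    intro hT
    obtain ⟨h1, h2, h3, h4, h5⟩ := hFUB
    refine ⟨2, 0, ?_, ?_⟩
    · constructor
      · rw [h1]; exact h2
      · rw [h1, h3, Module.finrank_self]; norm_num
      · rw [h1, h4, Module.finrank_self]; norm_num
      · refine ⟨1, one_ne_zero, ?_⟩
        rw [h1, h5]
        funext s
        show tw (-2) (-2) R s = line (1 : K) • tw (-2) (-2) R s
        rw [line_one, Submodule.one_smul]
      · rw [h1]
        have := hBAS
        unfold SpecBAS at this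
        exact_mod_cast this
      · rw [h1]; exact hHCB
    · rw [h1, Module.finrank_self]
      have := goodQ_base hVAN
      norm_num at this ⊢
      exact this
  | step L L' d a y hL hD ih =>
    intro hT
    obtain ⟨p, e, hp, hq⟩ := ih
    have hf : Module.Finite K L := hp.full.fin
    obtain ⟨h1, h2, h3⟩ := hFUC L L' d a y p e hD hp.full hp.lamO hp.chiO
    have e1 : (((p - a * (d - 1) : ℤ)) : ℚ) = (p : ℚ) - a * (d - 1) := by push_cast; ring
    refine ⟨p - a * (d - 1), e + (a : ℚ) ^ 2 * ((d : ℚ) ^ 2 - 1) / 12, ?_, ?_⟩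
    · constructor
      · exact h1
      · exact h2
      · exact h3
      · exact hOMC L L' d a y p hD hp.full hp.omega
      · have := specINC hMAG hCDB hRND hNUA hNUB L L' (strSheaf L) (strSheaf L') d a y hp.full h1 hD
          p e hp.good
        rw [e1]
        exact this
      · exact hHCC L L' d a y hD hp.h1
    · have hN : (1 : ℚ) ≤ (Module.finrank K L : ℚ) := by
        exact_mod_cast Module.finrank_pos (R := K) (M := L)
      have h4 : (Module.finrank K L' : ℚ) = d * (Module.finrank K L : ℚ) := by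
        have := FUCM.finrank' hD hf
        rw [this]
        push_cast
        ring
      rw [e1, h4]
      exact goodQ_stepN hMAG hCDB hRND hNUA hNUB L L' (strSheaf L) (strSheaf L') d a y hp.full h1 hD
        p e (Module.finrank K L) hN hp.good hq

theorem phiQ (hT : SpecTRN) (L : Type) [Field L] [Algebra ℂ L] [Algebra K L]
    [IsScalarTower ℂ K L] (p : ℤ) (e η δ : ℚ) (hTF : TF L p e)
    (hgood : GoodQ L (strSheaf L) p e η δ) (t : ℝ) (ht1 : -((η / 2 : ℚ) : ℝ) < t) (ht2 : t < 0) :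
    Phi L t ≤ ((t ^ 2 / 2 - ((δ / 2 : ℚ) : ℝ) : ℝ) : EReal) := by
  have hfin : Module.Finite K L := hTF.full.fin
  have key : ∀ ε : ℝ, 0 < ε → ε ≤ -t → ε ≤ t + ((η / 2 : ℚ) : ℝ) →
      Phi L t ≤ (((ε - t) ^ 2 / 2 - ((δ / 2 : ℚ) : ℝ) : ℝ) : EReal) := by
    intro ε hε hm1 hm2
    unfold Phi
    refine (iInf_le _ ⟨ε, hε⟩).trans ?_
    refine sSup_le ?_
    rintro c ⟨r, F, hr, hsh, hrk, hss, hslope, rfl⟩
    obtain ⟨hiff, hrest⟩ := hT L p e hTF r F
    obtain ⟨hlat, hOF⟩ := hiff.mp hsh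
    obtain ⟨-, hlead, hsl, hsst, hch⟩ := hrest hlat hOF hr hrk
    have hSst := hsst.mp hss
    have hab := abs_lt.mp hslope
    simp only at hab
    have hs1 : (slope L F : ℝ) < 0 := by linarith [hab.2]
    have hs2 : -((η / 2 : ℚ) : ℝ) < (slope L F : ℝ) := by linarith [hab.1]
    have hs1' : slope L F < 0 := by exact_mod_cast hs1
    have hs2' : -(η / 2) < slope L F := by exact_mod_cast hs2
    have hmm1 : (p : ℚ) - η < mm F := by
      rw [hsl] at hs2'
      linarith
    have hmm2 : mm F < (p : ℚ) := by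
      rw [hsl] at hs1'
      linarith
    have hcc := hgood (Fin r → L) F hlat hOF hSst hlead hmm1 hmm2
    rw [hch]
    refine EReal.coe_le_coe_iff.mpr ?_
    have h3 : (cc F - p * mm F / 2 + (p : ℚ) ^ 2 / 4 - e) / 2 ≤ (slope L F) ^ 2 / 2 - δ / 2 := by
      rw [hsl]
      linarith [hcc, show ((mm F - p) / 2) ^ 2 = mm F ^ 2 / 4 - p * mm F / 2 + (p : ℚ) ^ 2 / 4 by ring]
    have h4 : ((((cc F - p * mm F / 2 + (p : ℚ) ^ 2 / 4 - e) / 2 : ℚ)) : ℝ) ≤
        (slope L F : ℝ) ^ 2 / 2 - ((δ / 2 : ℚ) : ℝ) := by exact_mod_cast h3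
    have h5 : (slope L F : ℝ) ^ 2 ≤ (ε - t) ^ 2 := by
      apply sq_le_sq'
      · linarith [hab.1]
      · linarith
    linarith
  have hlim : Tendsto (fun ε : ℝ => (((ε - t) ^ 2 / 2 - ((δ / 2 : ℚ) : ℝ) : ℝ) : EReal))
      (nhdsWithin 0 (Set.Ioi 0)) (nhds (((0 - t) ^ 2 / 2 - ((δ / 2 : ℚ) : ℝ) : ℝ) : EReal)) := by
    apply Tendsto.mono_left _ nhdsWithin_le_nhds
    apply (continuous_coe_real_ereal.tendsto _).comp
    have : Continuous fun ε : ℝ => (ε - t) ^ 2 / 2 - ((δ / 2 : ℚ) : ℝ) := by fun_prop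
    exact this.tendsto 0
  have hev : ∀ᶠ ε in nhdsWithin (0 : ℝ) (Set.Ioi 0),
      Phi L t ≤ (((ε - t) ^ 2 / 2 - ((δ / 2 : ℚ) : ℝ) : ℝ) : EReal) := by
    have h6 : Set.Ioo (0 : ℝ) (min (-t) (t + ((η / 2 : ℚ) : ℝ))) ∈ nhdsWithin (0 : ℝ) (Set.Ioi 0) :=
      Ioo_mem_nhdsGT (lt_min (by linarith) (by linarith))
    filter_upwards [h6] with ε hε
    exact key ε hε.1 (hε.2.le.trans (min_le_left _ _)) (hε.2.le.trans (min_le_right _ _))
  have h7 := ge_of_tendsto hlim hev
  rwa [show (0 - t) ^ 2 = t ^ 2 by ring] at h7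

/-- Bogomolov's inequality for the surfaces of the towers -/
theorem phiB (hT : SpecTRN) (L : Type) [Field L] [Algebra ℂ L] [Algebra K L]
    [IsScalarTower ℂ K L] (p : ℤ) (e : ℚ) (hTF : TF L p e) (t : ℝ) :
    Phi L t ≤ ((t ^ 2 / 2 : ℝ) : EReal) := by
  have hfin : Module.Finite K L := hTF.full.fin
  have key : ∀ ε : ℝ, 0 < ε → Phi L t ≤ (((ε + |t|) ^ 2 / 2 : ℝ) : EReal) := by
    intro ε hε
    unfold Phi
    refine (iInf_le _ ⟨ε, hε⟩).trans ?_
    refine sSup_le ?_
    rintro c ⟨r, F, hr, hsh, hrk, hss, hslope, rfl⟩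
    obtain ⟨hiff, hrest⟩ := hT L p e hTF r F
    obtain ⟨hlat, hOF⟩ := hiff.mp hsh
    obtain ⟨-, hlead, hsl, hsst, hch⟩ := hrest hlat hOF hr hrk
    have hSst := hsst.mp hss
    have hab := abs_lt.mp hslope
    simp only at hab
    have hcc := hTF.good.1 (Fin r → L) F hlat hOF hSst hlead
    rw [hch]
    refine EReal.coe_le_coe_iff.mpr ?_
    have h3 : (cc F - p * mm F / 2 + (p : ℚ) ^ 2 / 4 - e) / 2 ≤ (slope L F) ^ 2 / 2 := by
      rw [hsl]
      linarith [hcc, show ((mm F - p) / 2) ^ 2 = mm F ^ 2 / 4 - p * mm F / 2 + (p : ℚ) ^ 2 / 4 by ring]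
    have h4 : ((((cc F - p * mm F / 2 + (p : ℚ) ^ 2 / 4 - e) / 2 : ℚ)) : ℝ) ≤
        (slope L F : ℝ) ^ 2 / 2 := by exact_mod_cast h3
    have h5 : (slope L F : ℝ) ^ 2 ≤ (ε + |t|) ^ 2 := by
      apply sq_le_sq'
      · linarith [hab.1, neg_abs_le t]
      · linarith [hab.2, le_abs_self t]
    linarith
  have hlim : Tendsto (fun ε : ℝ => (((ε + |t|) ^ 2 / 2 : ℝ) : EReal))
      (nhdsWithin 0 (Set.Ioi 0)) (nhds (((0 + |t|) ^ 2 / 2 : ℝ) : EReal)) := by
    apply Tendsto.mono_left _ nhdsWithin_le_nhds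
    apply (continuous_coe_real_ereal.tendsto _).comp
    have : Continuous fun ε : ℝ => (ε + |t|) ^ 2 / 2 := by fun_prop
    exact this.tendsto 0
  have hev : ∀ᶠ ε in nhdsWithin (0 : ℝ) (Set.Ioi 0),
      Phi L t ≤ (((ε + |t|) ^ 2 / 2 : ℝ) : EReal) := by
    filter_upwards [self_mem_nhdsWithin] with ε hε
    exact key ε hε
  have h7 := ge_of_tendsto hlim hev
  rwa [zero_add, sq_abs] at h7

/-- All properties of the surfaces of the towers. -/
theorem main_quant (L : Type) [Field L] [Algebra ℂ L] [Algebra K L] [IsScalarTower ℂ K L]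
    (hL : TowC L) : (∀ t : ℝ, Phi L t ≤ ((t ^ 2 / 2 : ℝ) : EReal)) ∧
    ∀ t : ℝ, -(1 / (Hsq L : ℝ)) < t → t < 0 →
      Phi L t ≤ ((t ^ 2 / 2 - 1 / (4 * (Hsq L : ℝ)) : ℝ) : EReal) := by
  have hBIG : SpecBIG := specBIG
  have hHBI : SpecHBI := specHBI hBIG
  have hKOS : SpecKOS := specKOS
  have hBDM : SpecBDM := specBDM
  have hSUR : SpecSUR := specSUR hBIG
  have hLIM : SpecLIM := specLIM hBDM hSUR
  have hREB : SpecREB := specREB specREA
  have hRRI : SpecRRI := specRRI hHBI hKOS hBDM hLIM hREB specREC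
  have hVAN : SpecVAN := specVAN hRRI
  have hMAG : SpecMAG := specMAG (specHNX specBDD) specQUO
  have hRND : SpecRND := specRND (specFIL specCDB specDIV)
  obtain ⟨p, e, T, hq⟩ := towQ hVAN hMAG specCDB hRND specNUA specNUB (specBAS hVAN) specFUB specFUC
    specOMC specHCB specHCC L hL
  refine ⟨phiB specTRN L p e T, fun t ht1 ht2 => ?_⟩
  have h := phiQ specTRN L p e _ _ T hq t
  have e1 : (Hsq L : ℝ) = 2 * (Module.finrank K L : ℝ) := by
    unfold Hsq
    push_cast
    ring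
  have e2 : (((1 / (Module.finrank K L : ℚ) / 2 : ℚ)) : ℝ) = 1 / (Hsq L : ℝ) := by
    rw [e1]
    push_cast
    rw [div_div, mul_comm]
  have e3 : (((1 / (4 * (Module.finrank K L : ℚ)) / 2 : ℚ)) : ℝ) = 1 / (4 * (Hsq L : ℝ)) := by
    rw [e1]
    push_cast
    rw [div_div]
    congr 1
    ring
  rw [e2, e3] at h
  exact h ht1 ht2

end Pool.Agent.Lib.LP.TW
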