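import Pool.Agent.Lib.MP_865fc0_ag.TW.Spec

/-!
# MP_865fc0_ag, TW, module RNA: subsheaves of a semistable sheaf on a double cover
-/

set_option autoImplicit false

open scoped Pointwise
open Filter

namespace Pool.Agent.Lib.LP.TW

noncomputable section

namespace RNAM

section

variable {V : Type} [AddCommGroup V] [Module ℂ V] [Module K V] [IsScalarTower ℂ K V]

lemma tw_mono {F G : Chart → Submodule ℂ V} (h : F ≤ G) (a b : ℤ) : tw a b F ≤ tw a b G :=
  fun s => Submodule.smul_mono le_rfl (h s)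

lemma lead_tw [Module.Finite K V] {F : Chart → Submodule ℂ V} (hF : IsLat F) (n : ℤ) :
    lead (tw n n F) = lead F := by
  unfold lead
  rw [hF.chi_tw, hF.chi_tw, hF.chi_tw, hF.chi_tw, hF.chi_eq, hF.chi_eq (1 + n) (0 + n),
    hF.chi_eq (0 + n) (1 + n), hF.chi_eq (0 + n) (0 + n), hF.chi_eq 1 1, hF.chi_eq 1 0,
    hF.chi_eq 0 1]
  ring

lemma lam_tw [Module.Finite K V] {F : Chart → Submodule ℂ V} (hF : IsLat F) (n : ℤ) :
    lam (tw n n F) = lam F + 2 * n * lead F := by
  rw [lam_eq, lam_eq, hF.chi_tw, hF.chi_tw, hF.chi_tw, hF.chi_eq (1 + n) (0 + n),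
    hF.chi_eq (0 + n) (1 + n), hF.chi_eq (0 + n) (0 + n), hF.chi_eq 1 0, hF.chi_eq 0 1]
  ring

lemma lead_sup [Module.Finite K V] {F G : Chart → Submodule ℂ V} (hF : IsLat F) (hG : IsLat G) :
    lead (F ⊔ G) + lead (F ⊓ G) = lead F + lead G := by
  have a1 := hF.chi_sup hG 1 0
  have a2 := hF.chi_sup hG 0 1
  have a3 := hF.chi_sup hG 0 0
  have a4 := hF.chi_sup hG 1 1
  unfold lead
  linarith

lemma lam_sup [Module.Finite K V] {F G : Chart → Submodule ℂ V} (hF : IsLat F) (hG : IsLat G) :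
    lam (F ⊔ G) + lam (F ⊓ G) = lam F + lam G := by
  have a1 := hF.chi_sup hG 1 0
  have a2 := hF.chi_sup hG 0 1
  have a3 := hF.chi_sup hG 0 0
  rw [lam_eq, lam_eq, lam_eq, lam_eq]
  linarith

variable {C C' : Type} [Field C] [Algebra ℂ C] [Field C'] [Algebra ℂ C'] [Algebra C C']
  [Module C V] [IsScalarTower ℂ C V] [Module C' V] [IsScalarTower ℂ C' V] [IsScalarTower C C' V]

omit [Module K V] [IsScalarTower ℂ K V] in
/-- the action of `C` commutes with the multiplication by an element of `C'` -/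
lemma comm_ln (y : C') (A : Chart → Submodule ℂ C) (X : Chart → Submodule ℂ V) :
    A • (ln y • X) = ln y • (A • X) := by
  apply le_antisymm
  · intro s
    show A s • (ln y • X) s ≤ (ln y • (A • X)) s
    rw [Submodule.smul_le]
    intro r hr n hn
    obtain ⟨n', hn', rfl⟩ := mem_ln_smul.1 hn
    rw [mem_ln_smul]
    exact ⟨r • n', Submodule.smul_mem_smul hr hn', (smul_comm r y n').symm⟩
  · intro s v hv
    obtain ⟨z, hz, rfl⟩ := mem_ln_smul.1 hv
    have hz' : z ∈ A s • X s := hz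
    refine Submodule.smul_induction_on hz' ?_ ?_
    · intro r hr n hn
      rw [← smul_comm r y n]
      exact Submodule.smul_mem_smul hr (mem_ln_smul.2 ⟨n, hn, rfl⟩)
    · intro z1 z2 h1 h2
      rw [smul_add]
      exact Submodule.add_mem _ h1 h2

end

end RNAM

open RNAM in
theorem specRNA (hEXM : SpecEXM) (hDCB : SpecDCB) : SpecRNA := by
  intro C C' _ _ _ _ _ _ _ _ _ _ _ O O' a y hO hO' hD V _ _ _ _ _ _ _ _ _ _ _ _ F hF hOF hS hl
    E hE hOE hEF
  have hy : y ≠ 0 := by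
    intro h0
    have h1 := (hD.free 0 1 (by rw [h0]; simp)).2
    exact one_ne_zero h1
  have hyu : IsUnit y := isUnit_iff_ne_zero.2 hy
  have hyi : IsUnit y⁻¹ := isUnit_iff_ne_zero.2 (inv_ne_zero hy)
  have hl' : (0 : ℚ) < lead F := by exact_mod_cast hl
  obtain ⟨hOFc, hyF⟩ := (hDCB C C' O O' a y hO hO' hD V F hF).1 hOF
  set τ : ℚ := mm F + a with hτ
  obtain ⟨G, hG, hOG, hGF, hmax⟩ := hEXM C O V F hF τ
  set G' : Chart → Submodule ℂ V := ln y • tw (-a) (-a) G with hG'def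
  have hG' : IsLat G' := (hG.tw _ _).ln_smul y
  have hG'F : G' ≤ F := (SmonoR (ln y) (tw_mono hGF _ _)).trans hyF
  obtain ⟨hOG', hyyG⟩ := (hDCB C C' O O' a y hO hO' hD V G hG).2.2 hOG
  -- the sum is stable
  have hM : IsLat (G ⊔ G') := hG.sup hG'
  have hOM : O' • (G ⊔ G') = G ⊔ G' := by
    apply (hDCB C C' O O' a y hO hO' hD V (G ⊔ G') hM).2.1
    · rw [Ssup, hOG, hOG']
    · rw [tw_sup, Ssup]
      apply sup_le
      · exact le_sup_right
      · refine le_trans ?_ le_sup_left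
        have e1 : tw (-a) (-a) G' = ln y • tw (-2 * a) (-2 * a) G := by
          rw [hG'def, ← smul_tw, tw_tw]
          congr 2 <;> ring
        rw [e1]
        exact hyyG
  have hMF : G ⊔ G' ≤ F := sup_le hGF hG'F
  have h1 := hS (G ⊔ G') hM hOM hMF
  -- the intersection
  have hI : IsLat (G ⊓ G') := hG.inf hG'
  have hOI : O • (G ⊓ G') = G ⊓ G' := by
    apply hO.ring.smul_eq_of_le
    apply le_inf
    · exact (SmonoR O inf_le_left).trans hOG.le
    · exact (SmonoR O inf_le_right).trans hOG'.le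
  set J : Chart → Submodule ℂ V := ln y⁻¹ • tw a a (G ⊓ G') with hJdef
  have hJ : IsLat J := (hI.tw _ _).ln_smul _
  have hOJ : O • J = J := by
    rw [hJdef, comm_ln, smul_tw, hOI]
  have hJG : J ≤ G := by
    have e1 : tw a a (G ⊓ G') ≤ ln y • G := by
      refine (tw_mono inf_le_right _ _).trans ?_
      rw [hG'def, ← smul_tw, tw_tw, add_neg_cancel, tw_zero]
    have e2 : ln y⁻¹ • ln y • G = G := by
      rw [← mulS, ← ln_mul, inv_mul_cancel₀ hy, ln_one, oneS]
    rw [hJdef]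
    refine (SmonoR _ e1).trans ?_
    rw [e2]
  have h2 := hmax J hJ hOJ (hJG.trans hGF)
  -- numbers
  have l1 : lead G' = lead G := by
    rw [← lead_tw hG (-a)]
    exact lead_congr (fun b c => (hG.tw _ _).chi_ln hyu b c)
  have l2 : lam G' = lam G - 2 * a * lead G := by
    have e1 : lam G' = lam (tw (-a) (-a) G) := lam_congr (fun b c => (hG.tw _ _).chi_ln hyu b c)
    rw [e1, lam_tw hG (-a)]
    ring
  have l3 : lead J = lead (G ⊓ G') := by
    rw [← lead_tw hI a]
    exact lead_congr (fun b c => (hI.tw _ _).chi_ln hyi b c)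
  have l4 : lam J = lam (G ⊓ G') + 2 * a * lead (G ⊓ G') := by
    have e1 : lam J = lam (tw a a (G ⊓ G')) := lam_congr (fun b c => (hI.tw _ _).chi_ln hyi b c)
    rw [e1, lam_tw hI a]
  have l5 := lead_sup hG hG'
  have l6 := lam_sup hG hG'
  have l7 : 0 ≤ lead (G ⊓ G') := hI.lead_nonneg
  rw [l1] at l5
  rw [l2] at l6
  rw [l3, l4] at h2
  have l5' : (lead (G ⊔ G') : ℚ) + lead (G ⊓ G') = lead G + lead G := by exact_mod_cast l5
  have l6' : (lam (G ⊔ G') : ℚ) + lam (G ⊓ G') = lam G + (lam G - 2 * a * lead G) := by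
    exact_mod_cast l6
  have l7' : (0 : ℚ) ≤ lead (G ⊓ G') := by exact_mod_cast l7
  have ha : (0 : ℚ) ≤ a := Nat.cast_nonneg a
  have h1' : (lam (G ⊔ G') : ℚ) ≤ mm F * lead (G ⊔ G') := by
    unfold mm
    rw [div_mul_eq_mul_div, le_div_iff₀ hl']
    exact_mod_cast h1
  push_cast at h2
  have key : (lam G : ℚ) - τ * lead G ≤ 0 := by
    have e1 : (lead (G ⊔ G') : ℚ) = 2 * lead G - lead (G ⊓ G') := by linarith
    rw [e1] at h1'
    have e2 : (lam (G ⊔ G') : ℚ) = 2 * lam G - 2 * a * lead G - lam (G ⊓ G') := by linarith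
    rw [e2] at h1'
    rw [hτ] at h2 ⊢
    nlinarith [mul_nonneg ha l7']
  have h3 := hmax E hE hOE hEF
  linarith

end

end Pool.Agent.Lib.LP.TW
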