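import Pool.Agent.Lib.MP_865fc0_ag.TW.Spec

/-!
# MP_865fc0_ag, TW, module RNB: quotients of a semistable sheaf on a double cover
-/

set_option autoImplicit false

open scoped Pointwise
open Filter

namespace Pool.Agent.Lib.LP.TW

noncomputable section

namespace RNBM

section one

variable {C' : Type} [Field C'] [Algebra ℂ C'] [Algebra K C'] [IsScalarTower ℂ K C']
variable {V : Type} [AddCommGroup V] [Module ℂ V] [Module K V] [IsScalarTower ℂ K V]
variable [Module C' V] [IsScalarTower ℂ C' V] [IsScalarTower K C' V]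

omit [Algebra K C'] [IsScalarTower ℂ K C'] [Module K V] [IsScalarTower ℂ K V] [IsScalarTower K C' V] in
theorem mem_ln {z : C'} (hz : z ≠ 0) {P : Chart → Submodule ℂ V} {s : Chart} {v : V} :
    v ∈ (ln z • P) s ↔ z⁻¹ • v ∈ P s :=
  mem_line_smul_iff (mul_inv_cancel₀ hz)

omit [Algebra K C'] [IsScalarTower ℂ K C'] [Module K V] [IsScalarTower ℂ K V] [IsScalarTower K C' V] in
theorem ln_inf {z : C'} (hz : z ≠ 0) (P Q : Chart → Submodule ℂ V) :
    ln z • (P ⊓ Q) = ln z • P ⊓ ln z • Q := by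
  funext s
  ext v
  rw [mem_ln hz, Pi.inf_apply, Pi.inf_apply, Submodule.mem_inf, Submodule.mem_inf, mem_ln hz,
    mem_ln hz]

omit [Algebra K C'] [IsScalarTower ℂ K C'] [Module K V] [IsScalarTower ℂ K V] [IsScalarTower K C' V] in
theorem ln_cancel {z t : C'} (h : z * t = 1) (P : Chart → Submodule ℂ V) :
    ln z • ln t • P = P := by
  rw [← mulS, ← ln_mul, h, ln_one, oneS]

theorem lead_mono [Module.Finite K V] {E F : Chart → Submodule ℂ V} (hE : IsLat E)
    (hF : IsLat F) (h : E ≤ F) : lead E ≤ lead F := by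
  rw [hE.lead_eq, hF.lead_eq]
  have h1 : Submodule.span K (E (false, false) : Set V) ≤
      Submodule.span K (F (false, false) : Set V) := Submodule.span_mono (h (false, false))
  exact_mod_cast Submodule.finrank_mono h1

theorem tw_mono {E F : Chart → Submodule ℂ V} (h : E ≤ F) (a b : ℤ) : tw a b E ≤ tw a b F :=
  fun s => Submodule.smul_mono le_rfl (h s)

/-- the effect of the twist by `(-a, -a)` on the coefficients -/
theorem lead_tw [Module.Finite K V] {F : Chart → Submodule ℂ V} (hF : IsLat F) (a : ℤ) :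
    lead (tw a a F) = lead F := by
  have h := hF.chi_eq
  unfold lead
  rw [hF.chi_tw, hF.chi_tw, hF.chi_tw, hF.chi_tw, h (1 + a) (1 + a), h (1 + a) (0 + a),
    h (0 + a) (1 + a), h (0 + a) (0 + a)]
  have h1 := h 1 1
  have h2 := h 1 0
  have h3 := h 0 1
  unfold lead at *
  ring

theorem lam_tw [Module.Finite K V] {F : Chart → Submodule ℂ V} (hF : IsLat F) (a : ℤ) :
    lam (tw a a F) = lam F + 2 * a * lead F := by
  have h := hF.chi_eq
  rw [lam_eq, hF.chi_tw, hF.chi_tw, hF.chi_tw, h (1 + a) (0 + a), h (0 + a) (1 + a),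
    h (0 + a) (0 + a)]
  unfold lam
  ring

end one

section two

variable {C C' : Type} [Field C] [Algebra ℂ C] [Field C'] [Algebra ℂ C'] [Algebra C C']
variable {V : Type} [AddCommGroup V] [Module ℂ V] [Module C V] [IsScalarTower ℂ C V]
variable [Module C' V] [IsScalarTower ℂ C' V] [IsScalarTower C C' V]

/-- families over `C` commute with elements of `C'` -/
theorem ln_comm (O : Chart → Submodule ℂ C) (z : C') (P : Chart → Submodule ℂ V) :
    O • (ln z • P) = ln z • (O • P) := by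
  have : SMulCommClass C C' V := IsScalarTower.to_smulCommClass
  funext s
  apply le_antisymm
  · intro v hv
    refine Submodule.smul_induction_on (p := fun v => v ∈ (ln z • (O • P)) s) hv ?_ ?_
    · intro f hf n hn
      obtain ⟨m, hm, rfl⟩ := mem_ln_smul.mp hn
      rw [smul_comm f z m]
      exact mem_ln_smul.mpr ⟨f • m, Submodule.smul_mem_smul hf hm, rfl⟩
    · intro a b ha hb
      exact add_mem ha hb
  · intro v hv
    obtain ⟨n, hn, rfl⟩ := mem_ln_smul.mp hv
    refine Submodule.smul_induction_on (p := fun n => z • n ∈ (O • (ln z • P)) s) hn ?_ ?_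
    · intro f hf m hm
      rw [← smul_comm f z m]
      exact Submodule.smul_mem_smul hf (mem_ln_smul.mpr ⟨m, hm, rfl⟩)
    · intro a b ha hb
      rw [smul_add]
      exact add_mem ha hb

end two

end RNBM

open RNBM in
/-- Module RNB. -/
theorem specRNB (hEXM : SpecEXM) (hDCB : SpecDCB) : SpecRNB := by
  intro C C' _ _ _ _ _ _ _ _ _ _ _ O O' a y hO hO' hc V _ _ _ _ _ _ _ _ _ _ _ _ F hF hOF hs hl
  have hy : y ≠ 0 := by
    rintro rfl
    have h1 := hc.free 0 1 (by rw [map_zero, mul_zero, add_zero])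
    exact one_ne_zero h1.2
  have hyi : y⁻¹ ≠ 0 := inv_ne_zero hy
  have hyu : IsUnit y := IsUnit.mk0 _ hy
  obtain ⟨hF1, hF2⟩ := (hDCB C C' O O' a y hO hO' hc V F hF).1 hOF
  set m : ℚ := mm F with hm
  obtain ⟨E, hE, hOE, hEF, hmax⟩ := hEXM C O V F hF (m - a)
  have hlQ : (0 : ℚ) < lead F := by exact_mod_cast hl
  have hlamF : (lam F : ℚ) = m * lead F := by
    rw [hm]; unfold mm; field_simp
  -- the largest stable sublattice of `E`
  set N : Chart → Submodule ℂ V := E ⊓ ln y⁻¹ • tw (a : ℤ) (a : ℤ) E with hN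
  have hNlat : IsLat N := hE.inf ((hE.tw _ _).ln_smul y⁻¹)
  obtain ⟨hD1, hD2⟩ := (hDCB C C' O O' a y hO hO' hc V E hE).2.2 hOE
  -- the sublattice generated by `E`
  set A : Chart → Submodule ℂ V := ln y • tw (-(a : ℤ)) (-(a : ℤ)) E with hA
  have hAlat : IsLat A := (hE.tw _ _).ln_smul y
  have hOA : O • A = A := hD1
  have hyN : ln y • tw (-(a : ℤ)) (-(a : ℤ)) N = A ⊓ E := by
    rw [hN, tw_inf, ln_inf hy, ← smul_tw, ln_cancel (mul_inv_cancel₀ hy), tw_tw,
      neg_add_cancel, tw_zero]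
  have hAle : A ≤ ln y⁻¹ • tw (a : ℤ) (a : ℤ) E := by
    have h1 := SmonoR (ln y⁻¹) (tw_mono hD2 (a : ℤ) (a : ℤ))
    have h2 : ln y⁻¹ • tw (a : ℤ) (a : ℤ)
        (ln y • ln y • tw (-2 * (a : ℤ)) (-2 * (a : ℤ)) E) = A := by
      rw [← smul_tw, ← smul_tw, ln_cancel (inv_mul_cancel₀ hy), tw_tw, hA]
      congr 2 <;> ring
    rw [h2] at h1
    exact h1
  have hON : O • N = N := by
    apply hO.ring.smul_eq_of_le
    rw [hN]
    refine le_inf ((SmonoR O inf_le_left).trans hOE.le) ((SmonoR O inf_le_right).trans ?_)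
    rw [ln_comm, smul_tw, hOE]
  have hyNN : ln y • tw (-(a : ℤ)) (-(a : ℤ)) N ≤ N := by
    rw [hyN]
    exact le_inf inf_le_right (inf_le_left.trans hAle)
  have hO'N : O' • N = N := (hDCB C C' O O' a y hO hO' hc V N hNlat).2.1 hON hyNN
  have hNE : N ≤ E := inf_le_left
  have hAF : A ≤ F := (SmonoR (ln y) (tw_mono hEF _ _)).trans hF2
  have hX : IsLat (A ⊔ E) := hAlat.sup hE
  have hOX : O • (A ⊔ E) = A ⊔ E := by rw [Ssup, hOA, hOE]
  have hXF : A ⊔ E ≤ F := sup_le hAF hEF
  -- numbers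
  have hNt : IsLat (tw (-(a : ℤ)) (-(a : ℤ)) N) := hNlat.tw _ _
  have hEt : IsLat (tw (-(a : ℤ)) (-(a : ℤ)) E) := hE.tw _ _
  have hchi : ∀ b c, chi (A ⊔ E) b c + chi (tw (-(a : ℤ)) (-(a : ℤ)) N) b c =
      chi (tw (-(a : ℤ)) (-(a : ℤ)) E) b c + chi E b c := by
    intro b c
    have h1 := hAlat.chi_sup hE b c
    rw [← hyN, hNt.chi_ln hyu] at h1
    rw [h1, hA, hEt.chi_ln hyu]
  have hlead : lead (A ⊔ E) + lead N = 2 * lead E := by
    rw [← lead_tw hNlat (-(a : ℤ))]
    have e := lead_tw hE (-(a : ℤ))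
    have h11 := hchi 1 1
    have h10 := hchi 1 0
    have h01 := hchi 0 1
    have h00 := hchi 0 0
    unfold lead at *
    linarith
  have hlam : lam (A ⊔ E) + (lam N - 2 * a * lead N) = (lam E - 2 * a * lead E) + lam E := by
    have e1 := lam_tw hNlat (-(a : ℤ))
    have e2 := lam_tw hE (-(a : ℤ))
    have h10 := hchi 1 0
    have h01 := hchi 0 1
    have h00 := hchi 0 0
    rw [lam_eq] at e1 e2
    have e3 := lam_eq (A ⊔ E)
    have e4 := lam_eq E
    linarith
  have hr := lead_mono hX hF hXF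
  have hmx := hmax (A ⊔ E) hX hOX hXF
  have hss := hs N hNlat hO'N (hNE.trans hEF)
  have hleadQ : (lead (A ⊔ E) : ℚ) + lead N = 2 * lead E := by exact_mod_cast hlead
  have hlamQ : (lam (A ⊔ E) : ℚ) + (lam N - 2 * a * lead N) = (lam E - 2 * a * lead E) + lam E := by
    exact_mod_cast hlam
  have hrQ : (lead (A ⊔ E) : ℚ) ≤ lead F := by exact_mod_cast hr
  have hssQ : (lam N : ℚ) * lead F ≤ lam F * lead N := by exact_mod_cast hss
  have hsN : (lam N : ℚ) ≤ m * lead N := by
    rw [hlamF] at hssQ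
    have h1 : (lam N : ℚ) * lead F ≤ (m * lead N) * lead F := by linarith
    exact le_of_mul_le_mul_right h1 hlQ
  have ha : (0 : ℚ) ≤ a := Nat.cast_nonneg a
  have hmain : (lam E : ℚ) - (m - a) * lead E ≤ lam F - (m - a) * lead F := by
    have h1 : (a : ℚ) * (lead (A ⊔ E) - lead E) ≤ a * (lead F - lead E) :=
      mul_le_mul_of_nonneg_left (by linarith) ha
    rw [hlamF]
    have h2 : (lead N : ℚ) = 2 * lead E - lead (A ⊔ E) := by linarith
    rw [h2] at hsN hlamQ
    linarith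
  intro E' hE' hOE' hE'F
  have h1 := hmax E' hE' hOE' hE'F
  linarith

end

end Pool.Agent.Lib.LP.TW
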