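import Pool.Agent.Lib.MP_865fc0_ag.TW.Spec

/-! # Module RRI: the Riemann-Roch inequality. -/

set_option autoImplicit false

open scoped Pointwise
open Filter

namespace Pool.Agent.Lib.LP.TW

namespace RRIM

lemma monR {p q : ℤ} (hp : 0 ≤ p) (hq : 0 ≤ q) : mon (p, q) ∈ R (false, false) := by
  rw [R_eq]
  apply mon_mem_MonS
  simp only [Quad, Set.mem_ofPred_eq, Bool.false_eq_true, if_false]
  exact ⟨hp, hq⟩

lemma xu_pow (n : ℕ) : (x * u : K) ^ n = mon ((n : ℤ), (n : ℤ)) := by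
  simp [mon, mul_pow]

lemma xu_ne (n : ℕ) : (x * u : K) ^ n ≠ 0 := pow_ne_zero _ (mul_ne_zero x_ne_zero u_ne_zero)

variable {V : Type} [AddCommGroup V] [Module ℂ V] [Module K V] [IsScalarTower ℂ K V]

lemma gs_of {F : Chart → Submodule ℂ V} (hF : IsLat F) {s : Chart} {v : V} (hv : v ∈ F s) :
    v ∈ Gs F := by
  obtain ⟨n, hn⟩ := hF.glue s (false, false) v hv
  refine ⟨n, ?_⟩
  have h1 : w (false, false) = 1 := by simp [w, wx, wu]
  rw [h1, div_one] at hn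
  have h2 : (x * u : K) ^ n = mon ((n : ℤ) - (if s.1 then (n : ℤ) else 0),
      (n : ℤ) - (if s.2 then (n : ℤ) else 0)) * w s ^ n := by
    have h3 : w s ^ n = w s ^ (n : ℤ) := (zpow_natCast _ _).symm
    rw [xu_pow, h3, w_pow_eq_mon, ← mon_add]
    congr 1
    ext
    · simp only [Prod.fst_add, sub_add_cancel]
    · simp only [Prod.snd_add, sub_add_cancel]
  rw [h2, mul_smul]
  refine hF.smul_mem (monR ?_ ?_) hn
  · split_ifs <;> omega
  · split_ifs <;> omega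

/-- the increasing family of the divided coboundaries -/
lemma fam_mono {F : Chart → Submodule ℂ V} (hB : ∀ N : ℕ, line (x * u) • Bd F N ≤ Bd F (N + 1)) :
    Monotone (fun N : ℕ => line (((x * u : K) ^ N)⁻¹) • Bd F N) := by
  refine monotone_nat_of_le_succ fun N => ?_
  intro v hv
  have hv' : v ∈ line (((x * u : K) ^ N)⁻¹) • Bd F N := hv
  obtain ⟨b, hb, rfl⟩ := mem_line_smul.mp hv'
  show ((x * u : K) ^ N)⁻¹ • b ∈ line (((x * u : K) ^ (N + 1))⁻¹) • Bd F (N + 1)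
  rw [mem_line_smul]
  refine ⟨(x * u : K) • b, hB N (mem_line_smul.mpr ⟨b, hb, rfl⟩), ?_⟩
  rw [smul_smul]
  congr 1
  have h1 : (x * u : K) ≠ 0 := mul_ne_zero x_ne_zero u_ne_zero
  rw [pow_succ, mul_inv, mul_assoc, inv_mul_cancel₀ h1, mul_one]

lemma of_zs {F : Chart → Submodule ℂ V} (hB : ∀ N : ℕ, line (x * u) • Bd F N ≤ Bd F (N + 1))
    {g : V} (hg : g ∈ Zs F) (N : ℕ) : ∃ M : ℕ, N ≤ M ∧ (x * u : K) ^ M • g ∈ Bd F M := by
  unfold Zs at hg
  have hm := fam_mono hB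
  rw [Submodule.mem_iSup_of_directed _ hm.directed_le] at hg
  obtain ⟨M, hM⟩ := hg
  refine ⟨max N M, le_max_left _ _, ?_⟩
  have h1 : g ∈ line (((x * u : K) ^ (max N M))⁻¹) • Bd F (max N M) := hm (le_max_right N M) hM
  obtain ⟨b, hb, hbg⟩ := mem_line_smul.mp h1
  rw [← hbg, smul_smul, mul_inv_cancel₀ (xu_ne _), one_smul]
  exact hb

end RRIM

open RRIM

theorem specRRI (hHBI : SpecHBI) (hKOS : SpecKOS) (hBDM : SpecBDM) (hLIM : SpecLIM)
    (hREB : SpecREB) (hREC : SpecREC) : SpecRRI := by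
  intro V _ _ _ _ _ F hF hsec hdual
  by_cases hyp : ∀ N : ℕ, ∀ v ∈ Sec F (2 * N : ℤ) (2 * N : ℤ), ∃ M : ℕ, N ≤ M ∧
    (x * u) ^ (M - N) • v ∈ Bd F M
  · obtain ⟨n0, hn0⟩ := hHBI V F hF
    obtain ⟨N, hN, hle⟩ := hLIM V F hF hyp n0
    have h2N : n0 ≤ 2 * N := by omega
    have e : ((2 * N : ℕ) : ℤ) = 2 * (N : ℤ) := by push_cast; ring
    have a1 := hn0 N N hN hN
    have a2 := hn0 (2 * N) N h2N hN
    have a3 := hn0 N (2 * N) hN h2N
    have a4 := hn0 (2 * N) (2 * N) h2N h2N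
    rw [e] at a2 a3 a4
    exact hKOS V F hF hsec N a1 a2 a3 a4 hle
  · exfalso
    push Not at hyp
    obtain ⟨N, v, hv, hM⟩ := hyp
    have hB : ∀ N : ℕ, line (x * u) • Bd F N ≤ Bd F (N + 1) := fun N => (hBDM V F hF N).1
    have hgv : (x * u : K) ^ N • (((x * u : K) ^ N)⁻¹ • v) = v := by
      rw [smul_smul, mul_inv_cancel₀ (xu_ne _), one_smul]
    have hgz : ((x * u : K) ^ N)⁻¹ • v ∉ Zs F := by
      intro h
      obtain ⟨M, hNM, hb⟩ := of_zs hB h N
      refine hM M hNM ?_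
      have h1 : (x * u : K) ^ M • (((x * u : K) ^ N)⁻¹ • v) = (x * u : K) ^ (M - N) • v := by
        obtain ⟨k, rfl⟩ := Nat.exists_eq_add_of_le hNM
        rw [Nat.add_sub_cancel_left, add_comm N k, pow_add, mul_smul, hgv]
      rw [h1] at hb
      exact hb
    have hv0 : v ∈ F (false, false) := by
      rw [mem_Sec] at hv
      have h := hv (false, false)
      have h1 : wx (false, false) = 1 := by simp [wx]
      have h2 : wu (false, false) = 1 := by simp [wu]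
      rw [h1, h2, one_zpow, one_mul, inv_one, one_smul] at h
      exact h
    have hgs : ((x * u : K) ^ N)⁻¹ • v ∈ Gs F := by
      refine ⟨N, ?_⟩
      rw [hgv]
      exact hv0
    generalize ((x * u : K) ^ N)⁻¹ • v = g at hgv hgz hgs
    obtain ⟨Λ, hΛg, hΛ⟩ := Submodule.exists_le_ker_of_notMem hgz
    obtain ⟨Φ, hadd, hsm, hmon, hne, hloc⟩ := hREB V F hF Λ
      (fun z hz => LinearMap.mem_ker.mp (hΛ hz))
    obtain ⟨φ, hφ⟩ := hREC V F hF Φ hadd hsm hmon
    have h1 : ∀ s, ∀ v ∈ F s, φ v ∈ tw (-2) (-2) R s := by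
      intro s y hy
      rw [hφ y (gs_of hF hy)]
      exact hloc s y hy
    have h2 := hdual φ h1 (false, false) v hv0
    rw [← hgv, map_smul, hφ g hgs, smul_eq_mul] at h2
    rcases mul_eq_zero.mp h2 with h3 | h3
    · exact xu_ne N h3
    · exact hne g hgs hΛg h3

end Pool.Agent.Lib.LP.TW
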