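import Pool.Agent.Lib.MP_865fc0_ag.TW.TRG
import Pool.Agent.Lib.MP_865fc0_ag.TW.PHI

/-!
# MP_865fc0_ag, TW: if `ω_S = O_S(-p,-p)` and `Φ ≤ t²/2` then `H · K_S` is as it should be
-/

set_option autoImplicit false

open scoped Pointwise
open Filter

namespace Pool.Agent.Lib.LP.TW

namespace RRLM

theorem lam_tw' {V : Type} [AddCommGroup V] [Module ℂ V] [Module K V] [IsScalarTower ℂ K V]
    [Module.Finite K V] {F : Chart → Submodule ℂ V} (hF : IsLat F) (a : ℤ) :
    lam (tw a a F) = lam F + 2 * a * lead F := by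
  have h := hF.chi_eq
  rw [lam_eq, hF.chi_tw, hF.chi_tw, hF.chi_tw, h (1 + a) (0 + a), h (0 + a) (1 + a),
    h (0 + a) (0 + a)]
  unfold lam
  ring

theorem lead_tw' {V : Type} [AddCommGroup V] [Module ℂ V] [Module K V] [IsScalarTower ℂ K V]
    [Module.Finite K V] {F : Chart → Submodule ℂ V} (hF : IsLat F) (a : ℤ) :
    lead (tw a a F) = lead F := by
  have h := hF.chi_eq
  have e : lead (tw a a F) = chi F (1 + a) (1 + a) - chi F (1 + a) (0 + a) - chi F (0 + a) (1 + a) +
      chi F (0 + a) (0 + a) := by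
    unfold lead
    rw [hF.chi_tw, hF.chi_tw, hF.chi_tw, hF.chi_tw]
  rw [e, h (1 + a) (1 + a), h (1 + a) (0 + a), h (0 + a) (1 + a), h (0 + a) (0 + a)]
  ring

theorem key (L : Type) [Field L] [Algebra ℂ L] [Algebra K L] [IsScalarTower ℂ K L]
    (hF : Full L (strSheaf L)) (p : ℤ)
    (hω : ∃ z : L, z ≠ 0 ∧ canonicalSheaf L = ln z • tw (-p) (-p) (strSheaf L))
    (hB : ∀ t : ℝ, Phi L t ≤ ((t ^ 2 / 2 : ℝ) : EReal)) (m : ℤ) :
    ((lam (strSheaf L) : ℚ) - p * Module.finrank K L) * (m - p / 2) ≤ 0 := by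
  have hfin := hF.fin
  have hO := hF.ring.lat
  have hn : lead (strSheaf L) = Module.finrank K L := by
    rw [hO.lead_eq, hF.span, finrank_top]
  have hnpos : (0 : ℚ) < Module.finrank K L := TRGM.dpos hF
  have hT : IsLat (tw m m (strSheaf L)) := hO.tw m m
  have hG : IsLat (mapL (PHIM.psi L) (tw m m (strSheaf L))) := hT.map _
  have hOT : strSheaf L • tw m m (strSheaf L) = tw m m (strSheaf L) := by
    rw [smul_tw]
    congr 1
    exact hF.ring.mul
  have hOG : strSheaf L • mapL (PHIM.psi L) (tw m m (strSheaf L)) =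
      mapL (PHIM.psi L) (tw m m (strSheaf L)) := by
    funext s
    have h5 := map_smul_sub
      (((LinearEquiv.funUnique (Fin 1) L L).symm : L ≃ₗ[L] (Fin 1 → L)) : L →ₗ[L] (Fin 1 → L))
      (strSheaf L s) (tw m m (strSheaf L) s)
    have h6 : strSheaf L s • tw m m (strSheaf L) s = tw m m (strSheaf L) s := congrFun hOT s
    rw [h6] at h5
    exact h5.symm
  have hchi : ∀ a b, chi (mapL (PHIM.psi L) (tw m m (strSheaf L))) a b =
      chi (strSheaf L) (a + m) (b + m) := fun a b => by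
    rw [hT.chi_map_of_injective (PHIM.psi L) PHIM.psi_inj a b, hO.chi_tw]
  have hlead : lead (mapL (PHIM.psi L) (tw m m (strSheaf L))) = Module.finrank K L := by
    rw [← hn, ← lead_tw' hO m]
    apply lead_congr
    intro a b
    rw [hchi, hO.chi_tw]
  have hlam : lam (mapL (PHIM.psi L) (tw m m (strSheaf L))) =
      lam (strSheaf L) + 2 * m * Module.finrank K L := by
    rw [← hn, ← lam_tw' hO m, lam_eq, lam_eq, hchi, hchi, hchi, hO.chi_tw, hO.chi_tw, hO.chi_tw]
  have hrk : rk L (mapL (PHIM.psi L) (tw m m (strSheaf L))) = 1 := by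
    have h1 := TRGM.lead_rk hF hG hOG
    rw [hlead] at h1
    have h2 : (Module.finrank K L : ℚ) * 1 =
        Module.finrank K L * rk L (mapL (PHIM.psi L) (tw m m (strSheaf L))) := by
      rw [mul_one]; exact_mod_cast h1
    have h3 := mul_left_cancel₀ hnpos.ne' h2
    exact_mod_cast h3.symm
  have hsh := TRGM.of_lat hF hG hOG
  have hss : IsSemistable L (mapL (PHIM.psi L) (tw m m (strSheaf L))) := by
    intro E _ _ h1 h2
    rw [hrk] at h2
    omega
  have hslope : slope L (mapL (PHIM.psi L) (tw m m (strSheaf L))) = m := by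
    unfold slope deg Hsq
    rw [hG.linCoeff_eq, hO.linCoeff_eq, hrk, hlam]
    push_cast
    field_simp
    ring
  obtain ⟨z, hz, hω⟩ := hω
  have h1 : canonicalSheaf L • mapL (PHIM.psi L) (tw m m (strSheaf L)) =
      ln z • tw (-p) (-p) (mapL (PHIM.psi L) (tw m m (strSheaf L))) := by
    rw [hω]
    have h2 : (ln z • tw (-p) (-p) (strSheaf L)) • mapL (PHIM.psi L) (tw m m (strSheaf L)) =
        ln z • (tw (-p) (-p) (strSheaf L) • mapL (PHIM.psi L) (tw m m (strSheaf L))) := by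
      funext s
      exact Submodule.smul_assoc (line z) (tw (-p) (-p) (strSheaf L) s)
        (mapL (PHIM.psi L) (tw m m (strSheaf L)) s)
    rw [h2, tw_fsmul, hOG]
  have hωlat : IsLat (canonicalSheaf L • mapL (PHIM.psi L) (tw m m (strSheaf L))) := by
    rw [h1]
    exact (hG.tw _ _).ln_smul z
  have hωchi : chi (canonicalSheaf L • mapL (PHIM.psi L) (tw m m (strSheaf L))) 0 0 =
      chi (strSheaf L) (-p + m) (-p + m) := by
    rw [h1, (hG.tw _ _).chi_ln hz.isUnit, hG.chi_tw, zero_add, hchi]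
  have hch2 : ch2 L (mapL (PHIM.psi L) (tw m m (strSheaf L))) =
      Module.finrank K L * (m : ℚ) ^ 2 +
        ((lam (strSheaf L) : ℚ) - p * Module.finrank K L) * (m - p / 2) := by
    have h3 : twistCanonical L (mapL (PHIM.psi L) (tw m m (strSheaf L))) =
      canonicalSheaf L • mapL (PHIM.psi L) (tw m m (strSheaf L)) := rfl
    unfold ch2
    rw [h3, hG.eulerChar_eq, hωlat.eulerChar_eq, hO.eulerChar_eq, hωchi, hchi, hrk,
      hO.chi_eq (0 + m) (0 + m), hO.chi_eq (-p + m) (-p + m), hn]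
    unfold lam
    push_cast
    ring
  have hle : (((ch2 L (mapL (PHIM.psi L) (tw m m (strSheaf L))) / (Hsq L * (1 : ℕ)) : ℚ) : ℝ) :
      EReal) ≤ Phi L m := by
    unfold Phi
    refine le_iInf fun ε => le_sSup ?_
    refine ⟨1, _, one_pos, hsh, hrk, hss, ?_, rfl⟩
    rw [hslope]
    have : ((m : ℚ) : ℝ) - (m : ℝ) = 0 := by push_cast; ring
    rw [this, abs_zero]
    exact ε.2
  have h4 := hle.trans (hB m)
  rw [EReal.coe_le_coe_iff] at h4
  have h5 : (ch2 L (mapL (PHIM.psi L) (tw m m (strSheaf L))) / (Hsq L * (1 : ℕ)) : ℚ) ≤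
      (m : ℚ) ^ 2 / 2 := by exact_mod_cast h4
  rw [hch2] at h5
  unfold Hsq at h5
  rw [div_le_iff₀ (by positivity)] at h5
  push_cast at h5
  linarith

end RRLM

theorem specRRL (L : Type) [Field L] [Algebra ℂ L] [Algebra K L] [IsScalarTower ℂ K L]
    (hF : Full L (strSheaf L)) (p : ℤ)
    (hω : ∃ z : L, z ≠ 0 ∧ canonicalSheaf L = ln z • tw (-p) (-p) (strSheaf L))
    (hB : ∀ t : ℝ, Phi L t ≤ ((t ^ 2 / 2 : ℝ) : EReal)) :
    lam (strSheaf L) = p * Module.finrank K L := by
  have h1 := RRLM.key L hF p hω hB (|p| + 1)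
  have h2 := RRLM.key L hF p hω hB (-|p| - 1)
  have h3 : (p : ℚ) ≤ |(p : ℚ)| := le_abs_self _
  have h4 : -(p : ℚ) ≤ |(p : ℚ)| := neg_le_abs _
  have h0 : (0 : ℚ) ≤ |(p : ℚ)| := abs_nonneg _
  push_cast at h1 h2
  have h5 : (lam (strSheaf L) : ℚ) - p * Module.finrank K L = 0 := by
    apply le_antisymm
    · by_contra h
      have := mul_pos (not_le.1 h) (by linarith : (0 : ℚ) < |(p : ℚ)| + 1 - p / 2)
      linarith
    · by_contra h
      have := mul_pos_of_neg_of_neg (not_le.1 h) (by linarith : -|(p : ℚ)| - 1 - p / 2 < 0)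
      linarith
  have h6 : (lam (strSheaf L) : ℚ) = ((p * Module.finrank K L : ℤ) : ℚ) := by
    push_cast
    linarith
  exact_mod_cast h6

end Pool.Agent.Lib.LP.TW
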