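import Pool.Agent.Lib.MP_865fc0_ag.Translate

/-!
# MP_865fc0_ag, TW: the conjecture of Fu, Li and Zhao for towers of double covers

THEOREM.  Let `S` be obtained from `P = P^1 x P^1` by finitely many double covers, each branched
along a divisor of `|2 a H|`, `a ≥ 1` (`H` = the pull back of `O(1,1)`, `S` normal; for instance
smooth).  Then `H^1(O_S) = 0` and `Φ_{S,H}` is not continuous at `0`: `Φ(0) ≥ 0` and `Φ ≤ -δ` on
`(-η, 0)` for some `η, δ > 0`.

Notation.  For a lattice `F` (a torsion-free sheaf, `Lattice.lean`), `χ(F(n,n)) = lead n² + lam n +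
χ(F)`, `mm F = lam/lead`, `cc F = χ(F)/lead`.  Then `mm (tw n n F) = mm F + 2 n` and
`cc (tw n n F) = cc F + n mm F + n²`.  On a surface with `ω = O(-p,-p)`: slope `= (mm - p)/2`,
Bogomolov's inequality is `cc ≤ mm²/4 + e`, `e = cc O - p²/4`, and
`ch₂/(H² rk) = (cc - p mm/2 + p²/4 - e)/2`.

Idea.  (1) On `P`: a semistable `F` with `-2 < mm F < 2` (slope in `(-2,0)`) has `h⁰ = h² = 0`, so
`χ(F) ≤ 0`.  (2) Let `S → S'` be a double cover with branch divisor in `|2aH|`, `F` semistable on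
`S`.  All subsheaves and quotients of `F` as a sheaf on `S'` have `mm` in `[mm F - a, mm F + a]`
(RN1, RN2).  So `cc F` is bounded by any linear function that majorizes the semistable sheaves on
`S'` with `mm` in this interval (MAJ).  The right end of the interval is where the slopes on `S'`
are close to the slope of `F`, so the jump at `0-` on `S'` gives one on `S` (IND).

Conventions.  Module `XXX` = file `TW/XXX.lean`, imports `Pool.Agent.Lib.MP_865fc0_ag.TW.Spec`,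
namespace `Pool.Agent.Lib.LP.TW`, theorem `specXXX (hyps in the order of Uses) : SpecXXX`, own lemmas
in `namespace XXXM`.  Useful files of `Lib/MP_865fc0_ag`: Lattice, Mono, Bound, Noeth, Exact
(`Sec_sup`, `Sec_inf`, `hf_map`), Hilb (`tw_sup_x`, `tw_inf_x`, `second_diff_x`), Chi (`chi_sup`,
`chi_map`, `chi_unique`), Rank (`lead_eq`, `isLat_R`, `chi_R`, `Sec_R`), Semi, Stab, Translate
(`lam_le`, `eq_bot_of_lead`, `inf_comap`).
-/

set_option autoImplicit false

open scoped Pointwise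
open Filter

namespace Pool.Agent.Lib.LP.TW

noncomputable section

/-! ## Definitions -/

section defs

variable {V : Type} [AddCommGroup V] [Module ℂ V] [Module K V] [IsScalarTower ℂ K V]

/-- the normalized linear coefficient -/
def mm (F : Chart → Submodule ℂ V) : ℚ := (lam F : ℚ) / (lead F : ℚ)

/-- the normalized Euler characteristic -/
def cc (F : Chart → Submodule ℂ V) : ℚ := (chi F 0 0 : ℚ) / (lead F : ℚ)

/-- the coboundaries in degree two -/
def Bd (F : Chart → Submodule ℂ V) (N : ℕ) : Submodule ℂ V :=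
  (Sec F (N : ℤ) (2 * N : ℤ) ⊔ line (x ^ N) • Sec F (N : ℤ) (2 * N : ℤ)) ⊔
    (Sec F (2 * N : ℤ) (N : ℤ) ⊔ line (u ^ N) • Sec F (2 * N : ℤ) (N : ℤ))

/-- the union of the `(x u)^(-N) Bd F N` -/
def Zs (F : Chart → Submodule ℂ V) : Submodule ℂ V :=
  ⨆ N : ℕ, line (((x * u) ^ N)⁻¹) • Bd F N

/-- the sections over the intersection of the four charts -/
def Gs (F : Chart → Submodule ℂ V) : Set V :=
  {v | ∃ n : ℕ, (x * u) ^ n • v ∈ F (false, false)}

end defs

/-- `O` is a sheaf of rings with fraction field `C`. -/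
structure Full (C : Type) [Field C] [Algebra ℂ C] [Algebra K C] [IsScalarTower ℂ K C]
    (O : Chart → Submodule ℂ C) : Prop where
  fin : Module.Finite K C
  ring : IsRingLat O
  span : Submodule.span K (O (false, false) : Set C) = ⊤

/-- Bogomolov's inequality and the jump to the left of slope zero. -/
def Good (C : Type) [Field C] [Algebra ℂ C] [Algebra K C] [IsScalarTower ℂ K C]
    (O : Chart → Submodule ℂ C) (p e : ℚ) : Prop :=
  (∀ (V : Type) [AddCommGroup V] [Module ℂ V] [Module K V] [IsScalarTower ℂ K V] [Module C V]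
    [IsScalarTower ℂ C V] [IsScalarTower K C V] [Module.Finite K V] (F : Chart → Submodule ℂ V),
    IsLat F → O • F = F → Sst O F → 0 < lead F → cc F ≤ mm F ^ 2 / 4 + e) ∧
  ∃ η > (0 : ℚ), ∃ δ > (0 : ℚ), ∀ (V : Type) [AddCommGroup V] [Module ℂ V] [Module K V]
    [IsScalarTower ℂ K V] [Module C V] [IsScalarTower ℂ C V] [IsScalarTower K C V]
    [Module.Finite K V] (F : Chart → Submodule ℂ V), IsLat F → O • F = F → Sst O F → 0 < lead F →
    p - η < mm F → mm F < p → cc F ≤ mm F ^ 2 / 4 + e - δ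

/-- `C' = C(y)`, `y² ∈ C`, and `O' = O + O(-a,-a) y`: the surface of `O'` is the double cover of
that of `O` branched along the divisor `y² = 0` of `|2 a H|`. -/
structure DCov (C C' : Type) [Field C] [Algebra ℂ C] [Algebra K C] [IsScalarTower ℂ K C]
    [Field C'] [Algebra ℂ C'] [Algebra K C'] [IsScalarTower ℂ K C'] [Algebra C C']
    (O : Chart → Submodule ℂ C) (O' : Chart → Submodule ℂ C') (a : ℕ) (y : C') : Prop where
  pos : 1 ≤ a
  sq : ∃ d : C, y * y = algebraMap C C' d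
  free : ∀ f g : C, algebraMap C C' f + algebraMap C C' g * y = 0 → f = 0 ∧ g = 0
  gen : ∀ v : C', ∃ f g : C, v = algebraMap C C' f + algebraMap C C' g * y
  eq : ∀ (s : Chart) (v : C'), v ∈ O' s ↔
    ∃ f ∈ O s, ∃ g ∈ tw (-a) (-a) O s, v = algebraMap C C' f + algebraMap C C' g * y

/-- the sections of `O(n,n)` over the intersection of two charts -/
def Loc {C : Type} [Field C] [Algebra ℂ C] [Algebra K C] [IsScalarTower ℂ K C]
    (O : Chart → Submodule ℂ C) (n : ℤ) (s t : Chart) : Set C :=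
  {v | ∃ k : ℕ, (w t / w s) ^ k • v ∈ tw n n O s}

/-- `H^1(O(n,n)) = 0` for all integers `n` -/
def H1n (C : Type) [Field C] [Algebra ℂ C] [Algebra K C] [IsScalarTower ℂ K C]
    (O : Chart → Submodule ℂ C) : Prop :=
  ∀ (n : ℤ) (c : Chart → Chart → C), (∀ s t, c s t ∈ Loc O n s t) →
    (∀ s t r, c s t + c t r = c s r) →
    ∃ g : Chart → C, (∀ s, g s ∈ tw n n O s) ∧ ∀ s t, c s t = g s - g t

/-- all that is needed of a surface of a tower -/
structure TF (L : Type) [Field L] [Algebra ℂ L] [Algebra K L] [IsScalarTower ℂ K L]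
    (p : ℤ) (e : ℚ) : Prop where
  full : Full L (strSheaf L)
  lamO : lam (strSheaf L) = p * Module.finrank K L
  chiO : (chi (strSheaf L) 0 0 : ℚ) = ((p : ℚ) ^ 2 / 4 + e) * Module.finrank K L
  omega : ∃ z : L, z ≠ 0 ∧ canonicalSheaf L = ln z • tw (-p) (-p) (strSheaf L)
  good : Good L (strSheaf L) p e
  h1 : H1n L (strSheaf L)

/-- The function fields of the surfaces obtained from `P^1 x P^1` by finitely many double covers,
each branched along a divisor of `|2 a H|`, `a ≥ 1`. -/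
inductive Tow : (L : Type) → [Field L] → [Algebra ℂ L] → [Algebra K L] → Prop
  | base : Tow K
  | step (L L' : Type) [Field L] [Algebra ℂ L] [Algebra K L] [IsScalarTower ℂ K L] [Field L']
      [Algebra ℂ L'] [Algebra K L'] [IsScalarTower ℂ K L'] [Algebra L L'] [IsScalarTower K L L']
      [IsScalarTower ℂ L L'] (a : ℕ) (y : L') :
      Tow L → DCov L L' (strSheaf L) (strSheaf L') a y → Tow L'

/-! ## Part 1: the Riemann-Roch inequality on `P^1 x P^1` -/

/-- BIG [220].  Uses: nothing.  Proof: the bigraded analogue of `Noeth.lean` and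
`IsLat.exists_gen` (Exact.lean).  `M = ⊕_{a,b ≥ 0} Sec F a b T^a U^b` is a module over the
`ℂ`-algebra `S` generated by `T, x T, U, u U` (finitely generated, so noetherian); by
`exists_bound'` (with `c` a common denominator) `c Sec F a b ⊆ ⊕_i W(a+N) .. b_i`, more precisely
the coordinates of `c v` lie in `MonS (Box2 (a+N) (b+N))` (`Rank.lean`; `Sec_R`), so `M` embeds in a
finitely generated `S`-module and is finitely generated.  If all generators have bidegree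
`≤ (n0, n0)`, then for `a ≥ n0` every element of bidegree `(a+1, b)` is a combination of products
(monomial of positive `T`-degree) x (generator): in `Sec F a b + x Sec F a b`.  Same for `u`.  (For
the formal module use twice iterated `PolynomialModule`, or `ℕ × ℕ →₀ V`, or replace `V` by
`Polynomial`-like sequences; any noetherian argument is fine.) -/
def SpecBIG : Prop := ∀ (V : Type) [AddCommGroup V] [Module ℂ V] [Module K V]
  [IsScalarTower ℂ K V] [Module.Finite K V] (F : Chart → Submodule ℂ V), IsLat F →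
  ∃ n0 : ℕ, ∀ a : ℕ, n0 ≤ a → ∀ b : ℕ,
    Sec F ((a : ℤ) + 1) b ≤ Sec F a b ⊔ line x • Sec F a b ∧
    Sec F b ((a : ℤ) + 1) ≤ Sec F b a ⊔ line u • Sec F b a

/-- HBI [150].  Uses: BIG.  Proof: for `a ≥ max n0 1`, `b ≥ 0` the map `(v, v') ↦ v + x v'` from
`(Sec F a b)²` onto `Sec F (a+1) b` has kernel `≅ {v' ∈ Sec F a b : x v' ∈ Sec F a b}
= Sec F (a-1) b` (check on the charts; cf. `tw_inf_x` in Hilb.lean), so
`h0 (a+1) b - 2 h0 a b + h0 (a-1) b = 0`; the same in `b`.  So for `a, b ≥ n1` `h0 F a b` is a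
polynomial `A a b + α a + β b + γ` with integer coefficients, which is `chi F` by `chi_unique`. -/
def SpecHBI : Prop := ∀ (V : Type) [AddCommGroup V] [Module ℂ V] [Module K V]
  [IsScalarTower ℂ K V] [Module.Finite K V] (F : Chart → Submodule ℂ V), IsLat F →
  ∃ n0 : ℕ, ∀ a b : ℕ, n0 ≤ a → n0 ≤ b → h0 F a b = chi F a b

/-- KOS [180].  Uses: nothing.  Proof: let `M = Sec F N N`, `P = Sec F 2N N`, `Q = Sec F N 2N`,
`E = Sec F 2N 2N` (finite-dimensional over `ℂ`: `fg_Sec` for the diagonal ones, `P, Q ≤ E`), with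
`s_0 = 1, s_1 = x^N, t_0 = 1, t_1 = u^N`.  `d0 : M⁴ → P² × Q²`,
`(v_ij) ↦ (p_j = s_0 v_1j - s_1 v_0j, q_i = t_0 v_i1 - t_1 v_i0)`;
`d1 : P² × Q² → E`, `(p_j, q_i) ↦ (t_0 p_1 - t_1 p_0) - (s_0 q_1 - s_1 q_0)`.  `d1 ∘ d0 = 0`, the range
of `d1` is `Bd F N ≥ E`.  `d0` is injective: if `d0 v = 0` then `v_1j = x^N v_0j`, `v_i1 = u^N v_i0`, so
`v = v_00` and `x^N v, u^N v, x^N u^N v` are in `M = Sec F N N`; looking at the four charts,
`v ∈ Sec F 0 0 = 0`.  So `dim E ≤ 2 dim P + 2 dim Q - 4 dim M`; and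
`χ(F) = 4 χ(N,N) - 2 χ(2N,N) - 2 χ(N,2N) + χ(2N,2N)` (`chi_eq`), so `χ(F) ≤ 0`. -/
def SpecKOS : Prop := ∀ (V : Type) [AddCommGroup V] [Module ℂ V] [Module K V]
  [IsScalarTower ℂ K V] [Module.Finite K V] (F : Chart → Submodule ℂ V), IsLat F →
  Sec F 0 0 = ⊥ → ∀ N : ℕ, h0 F N N = chi F N N → h0 F (2 * N : ℤ) N = chi F (2 * N : ℤ) N →
  h0 F N (2 * N : ℤ) = chi F N (2 * N : ℤ) →
  h0 F (2 * N : ℤ) (2 * N : ℤ) = chi F (2 * N : ℤ) (2 * N : ℤ) →
  Sec F (2 * N : ℤ) (2 * N : ℤ) ≤ Bd F N → chi F 0 0 ≤ 0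

/-- BDM [100].  Uses: nothing.  Proof: on the charts, `Sec F a b ≤ Sec F a' b'` and
`x^i u^j Sec F a b ≤ Sec F a' b'` if `0 ≤ i ≤ a' - a`, `0 ≤ j ≤ b' - b`.  For the first statement e.g.
`x u x^N Sec F N 2N = x^(N+1) (u Sec F N 2N) ≤ x^(N+1) Sec F (N+1) (2N+2)` and
`x u Sec F N 2N ≤ Sec F (N+1) (2N+2)`. -/
def SpecBDM : Prop := ∀ (V : Type) [AddCommGroup V] [Module ℂ V] [Module K V]
  [IsScalarTower ℂ K V] (F : Chart → Submodule ℂ V), IsLat F → ∀ N : ℕ,
  line (x * u) • Bd F N ≤ Bd F (N + 1) ∧ Bd F N ≤ Sec F (2 * N : ℤ) (2 * N : ℤ)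

/-- SUR [130].  Uses: BIG.  Proof: let `N ≥ n0`.  By BIG, applied `N + 1` times,
`Sec F (2N+2) b = ∑_{i ≤ N+1} x^i Sec F (N+1) b` (`b = 2N+2`); `i = 0` and `i = N+1` give elements of
`Bd F (N+1)`, and for `1 ≤ i ≤ N` `x^i Sec F (N+1) b ≤ x Sec F 2N b`.  Similarly
`Sec F 2N (2N+2) ≤ Sec F 2N (N+1) + u^(N+1) Sec F 2N (N+1) + u Sec F 2N 2N`, and
`x Sec F 2N (N+1) ≤ Sec F (2N+2) (N+1)`. -/
def SpecSUR : Prop := ∀ (V : Type) [AddCommGroup V] [Module ℂ V] [Module K V]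
  [IsScalarTower ℂ K V] [Module.Finite K V] (F : Chart → Submodule ℂ V), IsLat F →
  ∃ n0 : ℕ, ∀ N : ℕ, n0 ≤ N →
    Sec F (2 * ((N + 1 : ℕ) : ℤ)) (2 * ((N + 1 : ℕ) : ℤ)) ≤
      line (x * u) • Sec F (2 * N : ℤ) (2 * N : ℤ) ⊔ Bd F (N + 1)

/-- LIM [100].  Uses: BDM SUR.  Proof: let `N = max n0 n1`.  By induction (SUR, BDM)
`Sec F 2M 2M ≤ (x u)^(M-N) Sec F 2N 2N + Bd F M` for all `M ≥ N`.  `Sec F 2N 2N` is
finite-dimensional (`fg_Sec`), so by the hypothesis (and BDM, to increase `M`) there is one `M ≥ N`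
with `(x u)^(M-N) Sec F 2N 2N ≤ Bd F M`. -/
def SpecLIM : Prop := ∀ (V : Type) [AddCommGroup V] [Module ℂ V] [Module K V]
  [IsScalarTower ℂ K V] [Module.Finite K V] (F : Chart → Submodule ℂ V), IsLat F →
  (∀ N : ℕ, ∀ v ∈ Sec F (2 * N : ℤ) (2 * N : ℤ), ∃ M : ℕ, N ≤ M ∧
    (x * u) ^ (M - N) • v ∈ Bd F M) →
  ∀ n1 : ℕ, ∃ N : ℕ, n1 ≤ N ∧ Sec F (2 * N : ℤ) (2 * N : ℤ) ≤ Bd F N

/-- REA [150].  Uses: nothing.  Proof: e.g. `s.1 = false`, `0 ≤ i`.  Let `g = x^i u^j v`.  For large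
`N`, `u^N g ∈ Sec F N 2N`, so `(x u)^N g ∈ x^N Sec F N 2N ≤ Bd F N`.  Check on the chart `t`: by
`glue_all` there is `m` with `(w s / w t)^m v ∈ F t`, and
`(wx t^N wu t^(2N))⁻¹ u^N g = r (w s / w t)^m v` with `r = (x^i wx t^(m-N)) (u^(N+j) wu t^(m-2N)
wu s^(-m))`, a monomial of `R t` for large `N`: the power of `x` is `i ≥ 0` (`t.1 = false`) or
`i + m - N ≤ 0` (`t.1 = true`), the power of `u` is `N + j`, `N + j - m` (`≥ 0`, `t.2 = false`) or
`j + m - N`, `j - N` (`≤ 0`, `t.2 = true`).  The case `s.1 = true`, `i ≤ 0`: `u^N g x^N` replaced by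
`u^N x^N g ∈ Sec F N 2N`.  Same for `u`. -/
def SpecREA : Prop := ∀ (V : Type) [AddCommGroup V] [Module ℂ V] [Module K V]
  [IsScalarTower ℂ K V] (F : Chart → Submodule ℂ V), IsLat F → ∀ (s : Chart) (v : V), v ∈ F s →
  ∀ i j : ℤ, ((s.1 = false ∧ 0 ≤ i) ∨ (s.1 = true ∧ i ≤ 0) ∨ (s.2 = false ∧ 0 ≤ j) ∨
    (s.2 = true ∧ j ≤ 0)) → mon (i, j) • v ∈ Zs F

/-- REB [150].  Uses: REA.  Proof: `Φ v = ∑ᶠ p, Λ (mon p • v) • mon (-p.1-1, -p.2-1)`.  For `v ∈ Gs F`
the support is finite: `w = (x u)^n v ∈ F (false,false)`, and `w' = (x u)^(-m) w ∈ F (true,true)` for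
some `m` (glue); by REA `Λ (mon p • v) = 0` unless `p.1, p.2 < n` (REA for `w`) and
`p.1 - n + m > 0`, `p.2 - n + m > 0` (REA for `w'`).  Linearity, and `Φ (mon q • v) = mon q * Φ v`
(substitution).  The coefficient of `mon (-1,-1)` is `Λ v` (the `mon` are linearly independent):
`Λ v ≠ 0` implies `Φ v ≠ 0`.  For `v ∈ F s` only the `p` with `p.1 < 0` (`s.1 = false`) or `p.1 > 0`
(`s.1 = true`) occur, so the exponents `-p.1-1` are `≥ 0`, respectively `≤ -2`; same for `u`: so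
`Φ v ∈ tw (-2) (-2) R s`. -/
def SpecREB : Prop := ∀ (V : Type) [AddCommGroup V] [Module ℂ V] [Module K V]
  [IsScalarTower ℂ K V] (F : Chart → Submodule ℂ V), IsLat F → ∀ Λ : V →ₗ[ℂ] ℂ,
  (∀ z ∈ Zs F, Λ z = 0) → ∃ Φ : V → K,
    (∀ v ∈ Gs F, ∀ v' ∈ Gs F, Φ (v + v') = Φ v + Φ v') ∧
    (∀ v ∈ Gs F, ∀ c : ℂ, Φ (c • v) = c • Φ v) ∧
    (∀ v ∈ Gs F, ∀ q : ℤ × ℤ, Φ (mon q • v) = mon q * Φ v) ∧
    (∀ v ∈ Gs F, Λ v ≠ 0 → Φ v ≠ 0) ∧
    ∀ s, ∀ v ∈ F s, Φ v ∈ tw (-2) (-2) R s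

/-- REC [150].  Uses: nothing.  Proof: `Gs F` is closed under addition, scalars and monomials, so
`Φ` is `R (false,false)`-linear on it (`R_eq`, `MonS`).  Let `U` be the `K`-span of
`F (false,false)`; `Gs F ⊆ U`.  Choose a `K`-basis `b_i` of `U` in `F (false,false)` and a projection
`V → U`, and put `φ (b_i) = Φ (b_i)`.  For `g ∈ Gs F`, `g = ∑ k_i b_i`; multiply by a common
denominator `r ∈ R (false,false)`, `r ≠ 0` (`exists_frac`, Poly.lean):
`r Φ g = Φ (r g) = ∑ (r k_i) Φ (b_i) = r φ g`. -/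
def SpecREC : Prop := ∀ (V : Type) [AddCommGroup V] [Module ℂ V] [Module K V]
  [IsScalarTower ℂ K V] [Module.Finite K V] (F : Chart → Submodule ℂ V), IsLat F → ∀ Φ : V → K,
  (∀ v ∈ Gs F, ∀ v' ∈ Gs F, Φ (v + v') = Φ v + Φ v') →
  (∀ v ∈ Gs F, ∀ c : ℂ, Φ (c • v) = c • Φ v) →
  (∀ v ∈ Gs F, ∀ q : ℤ × ℤ, Φ (mon q • v) = mon q * Φ v) →
  ∃ φ : V →ₗ[K] K, ∀ v ∈ Gs F, φ v = Φ v

/-- RRI [120].  Uses: HBI KOS BDM LIM REB REC.  The Riemann-Roch inequality `χ ≤ h⁰ + h²`.  Proof: if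
the hypothesis of LIM holds take `N` from LIM (`n1` from HBI) and apply KOS.  Otherwise there are `N`
and `v ∈ Sec F 2N 2N` with `(x u)^(M-N) v ∉ Bd F M` for all `M ≥ N`.  The subspaces
`(x u)^(-M) Bd F M` increase (BDM), so `g = (x u)^(-N) v` is not in `Zs F`; take a linear `Λ` on `V`
that vanishes on `Zs F` with `Λ g ≠ 0` (`Submodule.exists_le_ker_of_notMem` or a complement), `Φ`
from REB, `φ` from REC.  `g ∈ Gs F`, so `φ g = Φ g ≠ 0` and `φ ((x u)^N g) ≠ 0`,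
`(x u)^N g = v ∈ F (false,false)`; `F s ⊆ Gs F` (glue), so `φ` contradicts the hypothesis. -/
def SpecRRI : Prop := ∀ (V : Type) [AddCommGroup V] [Module ℂ V] [Module K V]
  [IsScalarTower ℂ K V] [Module.Finite K V] (F : Chart → Submodule ℂ V), IsLat F →
  Sec F 0 0 = ⊥ →
  (∀ φ : V →ₗ[K] K, (∀ s, ∀ v ∈ F s, φ v ∈ tw (-2) (-2) R s) → ∀ s, ∀ v ∈ F s, φ v = 0) →
  chi F 0 0 ≤ 0

/-! ## Part 2: semistable sheaves on `P^1 x P^1` -/

/-- VAN [130].  Uses: RRI.  Proof: `Sec F 0 0 = 0`: if `v ≠ 0` is in it, `E = mapL (k ↦ k v) R ≤ F` is a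
lattice with `chi E = chi R` (`chi_map_of_injective`, `chi_R`), so `lead E = 1`, `lam E = 2`, and
`Sst` gives `2 lead F ≤ lam F`, i.e. `mm F ≥ 2`.  Let `φ` be as in RRI and not zero on `F`.
`E = F ⊓ ker φ` (`inf_ker`), `I = mapL φ F ≤ tw (-2) (-2) R`; `chi F = chi E + chi I` (`chi_map`),
`lead I = 1`, `lam I ≤ lam (tw (-2) (-2) R) = -2` (`lam_le`, `chi_tw`).  `Sst`:
`(lam F - lam I) lead F ≤ lam F (lead F - 1)`, so `lam F ≤ lam I lead F ≤ -2 lead F`: contradiction. -/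
def SpecVAN : Prop := ∀ (V : Type) [AddCommGroup V] [Module ℂ V] [Module K V]
  [IsScalarTower ℂ K V] [Module.Finite K V] (F : Chart → Submodule ℂ V), IsLat F →
  Sst R F → 0 < lead F → -2 < mm F → mm F < 2 → chi F 0 0 ≤ 0

/-- BAS [130].  Uses: VAN.  Proof: choose `n` with `|mm F + 2n| ≤ 1`; `tw n n F` is semistable
(twisting is a bijection on sublattices, `lam (tw n n E) = lam E + 2 n lead E`), `mm = mm F + 2n`,
`0 ≥ cc (tw n n F) = cc F + n mm F + n²`, so `cc F ≤ mm²/4 - (mm/2 + n)² ≤ mm²/4`.  Jump: `η = 1`,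
`δ = 1/4`: `1 < mm F < 2`, `cc F ≤ 0 ≤ mm²/4 - 1/4`.  (`C = K`: the `Module K V` in `Good K R` may be
two different structures a priori; they agree by `IsScalarTower K K V`: `k • v = (k • 1) • v`.) -/
def SpecBAS : Prop := Good K R 2 0

/-! ## Part 3: maximal sublattices and linear majorants -/

/-- BDD [150].  Uses: nothing.  Slopes of sublattices are bounded.  Proof: by `exists_bound'` there are
a `K`-basis `b_1..b_d` of `V`, `c ≠ 0` and `N` with `c F s ⊆ ⊕ (w s)^N R s b_i` (see Bound.lean; work with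
what it gives: the coordinates of `c v`, `v ∈ Sec F n n`, are in `W (n+N)`).  Let `E ≤ F`,
`k = lead E` = the dimension of its `K`-span `U`.  There are `k` of the coordinates which are
`K`-linearly independent on `U`: this gives a `K`-linear injective map `U → K^k` which sends
`c Sec E n n` into `W(n+N)^k`: `h⁰(E(n,n)) ≤ k (n+N+1)²` for all `n ≥ 0`; compare with
`h0_diag`: `k n² + lam E n + .. ≤ k (n + N + 1)²`, so `lam E ≤ 2 k (N + 1)`. -/
def SpecBDD : Prop := ∀ (V : Type) [AddCommGroup V] [Module ℂ V] [Module K V]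
  [IsScalarTower ℂ K V] [Module.Finite K V] (F : Chart → Submodule ℂ V), IsLat F →
  ∃ B : ℤ, ∀ E : Chart → Submodule ℂ V, IsLat E → E ≤ F → lam E ≤ B * lead E

/-- EXM [100].  Uses: BDD.  Proof: the numbers `lam E - τ lead E` are bounded above (`0 ≤ lead E ≤
lead F`, BDD) and are in `(1/q) ℤ`, `q` the denominator of `τ`; `E = ⊥` is allowed. -/
def SpecEXM : Prop := ∀ (C : Type) [Field C] [Algebra ℂ C] [Algebra K C] [IsScalarTower ℂ K C]
  (O : Chart → Submodule ℂ C) (V : Type) [AddCommGroup V] [Module ℂ V] [Module K V]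
  [IsScalarTower ℂ K V] [Module C V] [IsScalarTower ℂ C V] [IsScalarTower K C V]
  [Module.Finite K V] (F : Chart → Submodule ℂ V), IsLat F → ∀ τ : ℚ,
  ∃ E₀ : Chart → Submodule ℂ V, IsLat E₀ ∧ O • E₀ = E₀ ∧ E₀ ≤ F ∧
    ∀ E : Chart → Submodule ℂ V, IsLat E → O • E = E → E ≤ F →
      (lam E : ℚ) - τ * lead E ≤ lam E₀ - τ * lead E₀

/-- HNX [100].  Uses: BDD.  Proof: for each value `k ≥ 1` of `lead E` (`E ≤ F` stable, `k ≤ lead F`) let
`E_k` have the largest `lam` (BDD); take the best quotient `lam E_k / k`.  For `lead E' = 0`, `E' = ⊥`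
(`eq_bot_of_lead`, `lam_bot`).  `F` itself is a candidate. -/
def SpecHNX : Prop := ∀ (C : Type) [Field C] [Algebra ℂ C] [Algebra K C] [IsScalarTower ℂ K C]
  (O : Chart → Submodule ℂ C) (V : Type) [AddCommGroup V] [Module ℂ V] [Module K V]
  [IsScalarTower ℂ K V] [Module C V] [IsScalarTower ℂ C V] [IsScalarTower K C V]
  [Module.Finite K V] (F : Chart → Submodule ℂ V), IsLat F → O • F = F → 0 < lead F →
  ∃ E : Chart → Submodule ℂ V, IsLat E ∧ O • E = E ∧ E ≤ F ∧ 0 < lead E ∧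
    ∀ E' : Chart → Submodule ℂ V, IsLat E' → O • E' = E' → E' ≤ F →
      lam E' * lead E ≤ lam E * lead E'

/-- QUO [200].  Uses: nothing.  Saturation and quotients.  Proof: let `W` be the `K`-span of
`E (false,false)`; it contains all `E s` (`IsLat.mem_span`) and is a `C`-subspace (`Full.span`, as
`SurfFacts.smul_mem_span` in Translate.lean).  `V' = V ⧸ W` (quotient of `C`-modules, with its
`ℂ`- and `K`-structures), `q` the projection, `E₁ s = F s ⊓ W`: a lattice (`inf_ker`), stable,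
`lead E₁ = lead E` (same `K`-span, `lead_eq`).  `F' = mapL q F`; `chi_map` gives the first formula;
`E'' s = F s ⊓ q⁻¹ (E' s)` (`inf_comap`), `mapL q E'' = E'`, `E'' ⊓ ker q = E₁`: the second one.
(`chi_map` in Chi.lean: `chi (mapL φ F) = chi F - chi (F ⊓ ker φ)`.) -/
def SpecQUO : Prop := ∀ (C : Type) [Field C] [Algebra ℂ C] [Algebra K C] [IsScalarTower ℂ K C]
  (O : Chart → Submodule ℂ C), Full C O → ∀ (V : Type) [AddCommGroup V] [Module ℂ V] [Module K V]
  [IsScalarTower ℂ K V] [Module C V] [IsScalarTower ℂ C V] [IsScalarTower K C V]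
  [Module.Finite K V] (F E : Chart → Submodule ℂ V), IsLat F → O • F = F → IsLat E → O • E = E →
  E ≤ F → ∃ E₁ : Chart → Submodule ℂ V, IsLat E₁ ∧ O • E₁ = E₁ ∧ E ≤ E₁ ∧ E₁ ≤ F ∧
    lead E₁ = lead E ∧
    ∃ (V' : Type) (_ : AddCommGroup V') (_ : Module ℂ V') (_ : Module K V')
      (_ : IsScalarTower ℂ K V') (_ : Module C V') (_ : IsScalarTower ℂ C V')
      (_ : IsScalarTower K C V') (_ : Module.Finite K V') (F' : Chart → Submodule ℂ V'),
      IsLat F' ∧ O • F' = F' ∧ (∀ a b, chi F a b = chi E₁ a b + chi F' a b) ∧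
      ∀ E' : Chart → Submodule ℂ V', IsLat E' → O • E' = E' → E' ≤ F' →
        ∃ E'' : Chart → Submodule ℂ V, IsLat E'' ∧ O • E'' = E'' ∧ E'' ≤ F ∧
          ∀ a b, chi E'' a b = chi E₁ a b + chi E' a b

/-- MAJ [200].  Uses: HNX QUO.  Linear majorants.  Proof: strong induction on `lead F` (over all `V`).
`α ≤ mm F ≤ β` (take `E = ⊥` and `E = F`).  If `Sst O F`: the hypothesis.  Otherwise let `E` be as in HNX;
`mm E > mm F`.  QUO for `E`: `lam E ≤ lam E₁` (`lam_le`) and maximality give `lam E₁ = lam E`; so `E₁` is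
also of maximal slope, hence `Sst O E₁`, and `lead E₁ < lead F` (otherwise `lam E₁ ≤ lam F`, `lam_le`,
contradicts `mm E > mm F`).  `mm E₁ ∈ [α, β]`, so `cc E₁ ≤ A + B mm E₁` by the hypothesis.
`F'` has `lead F' = lead F - lead E₁ ∈ (0, lead F)` and satisfies the conditions: for stable
`E' ≤ F'`, `lam E' = lam E'' - lam E₁ ≤ mm E₁ (lead E'' - lead E₁) ≤ β lead E'`, and
`α (lead F' - lead E') = α (lead F - lead E'') ≤ lam F - lam E'' = lam F' - lam E'`.  Add
`χ(E₁) ≤ A lead E₁ + B lam E₁` and `χ(F') ≤ A lead F' + B lam F'`. -/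
def SpecMAJ : Prop := ∀ (C : Type) [Field C] [Algebra ℂ C] [Algebra K C] [IsScalarTower ℂ K C]
  (O : Chart → Submodule ℂ C), Full C O → ∀ A B α β : ℚ,
  (∀ (V : Type) [AddCommGroup V] [Module ℂ V] [Module K V] [IsScalarTower ℂ K V] [Module C V]
    [IsScalarTower ℂ C V] [IsScalarTower K C V] [Module.Finite K V] (F : Chart → Submodule ℂ V),
    IsLat F → O • F = F → Sst O F → 0 < lead F → α ≤ mm F → mm F ≤ β → cc F ≤ A + B * mm F) →
  ∀ (V : Type) [AddCommGroup V] [Module ℂ V] [Module K V] [IsScalarTower ℂ K V] [Module C V]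
    [IsScalarTower ℂ C V] [IsScalarTower K C V] [Module.Finite K V] (F : Chart → Submodule ℂ V),
    IsLat F → O • F = F → 0 < lead F →
    (∀ E : Chart → Submodule ℂ V, IsLat E → O • E = E → E ≤ F → (lam E : ℚ) ≤ β * lead E) →
    (∀ E : Chart → Submodule ℂ V, IsLat E → O • E = E → E ≤ F →
      α * ((lead F : ℚ) - lead E) ≤ lam F - lam E) →
    cc F ≤ A + B * mm F

/-! ## Part 4: double covers -/

/-- DCB [120].  Uses: nothing.  Proof: `O • F ≤ O' • F` (`f • v = (algebraMap f) • v`,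
`IsScalarTower C C' V`), `ln y • tw (-a) (-a) F ≤ O' • F` (`y g ∈ O' s` for `g ∈ tw (-a) (-a) O s`,
`1 ∈ O s`); and conversely an element of `O' s • F s` is a sum of `(f + g y) v`.  Third: `y² = d ∈ C`;
`(g y)(g' y) = g g' d ∈ O' s` for `g, g' ∈ tw (-a) (-a) O s`, so (`DCov.free`, `DCov.eq`) `g g' d ∈ O s`:
`d tw (-2a) (-2a) O ≤ O`. -/
def SpecDCB : Prop := ∀ (C C' : Type) [Field C] [Algebra ℂ C] [Algebra K C] [IsScalarTower ℂ K C]
  [Field C'] [Algebra ℂ C'] [Algebra K C'] [IsScalarTower ℂ K C'] [Algebra C C']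
  [IsScalarTower K C C'] [IsScalarTower ℂ C C'] (O : Chart → Submodule ℂ C)
  (O' : Chart → Submodule ℂ C') (a : ℕ) (y : C'), Full C O → Full C' O' → DCov C C' O O' a y →
  ∀ (V : Type) [AddCommGroup V] [Module ℂ V] [Module K V] [IsScalarTower ℂ K V] [Module C V]
    [IsScalarTower ℂ C V] [IsScalarTower K C V] [Module C' V] [IsScalarTower ℂ C' V]
    [IsScalarTower K C' V] [IsScalarTower C C' V] (F : Chart → Submodule ℂ V), IsLat F →
    (O' • F = F → O • F = F ∧ ln y • tw (-a) (-a) F ≤ F) ∧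
    (O • F = F → ln y • tw (-a) (-a) F ≤ F → O' • F = F) ∧
    (O • F = F → O • (ln y • tw (-a) (-a) F) = ln y • tw (-a) (-a) F ∧
      ln y • ln y • tw (-2 * a) (-2 * a) F ≤ F)

/-- RNA [150].  Uses: EXM DCB.  Subsheaves.  Proof: let `m = mm F`, `τ = m + a`, `G = E₀` from EXM (for
`O`); it is enough that `lam G - τ lead G ≤ 0`.  Write `G' = ln y • tw (-a) (-a) G ≤ F` (DCB),
`M = G ⊔ G'`, `I = G ⊓ G'`, `ρ = lead G`.  `M` is `O'`-stable (DCB: `y G'(-a) ≤ G`), so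
`lam M ≤ m lead M`.  `chi G' b c = chi G (b-a) (c-a)` (`chi_ln`, `chi_tw`), so `lead G' = ρ`,
`lam G' = lam G - 2aρ`.  `I = ln y • tw (-a) (-a) J`, `J = ln y⁻¹ • tw a a I ≤ G` stable, so
`lam J - τ lead J ≤ lam G - τ ρ` and `lam I = lam J - 2 a lead I`, `lead J = lead I`.  `chi_sup`:
`lead M = 2ρ - lead I`, `lam M = 2 lam G - 2aρ - lam I ≥ lam G + (m - a)(ρ - lead I)`.  So
`lam G ≤ m (2ρ - lead I) - (m - a)(ρ - lead I) = mρ + a (ρ - lead I) ≤ τ ρ`. -/
def SpecRNA : Prop := ∀ (C C' : Type) [Field C] [Algebra ℂ C] [Algebra K C] [IsScalarTower ℂ K C]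
  [Field C'] [Algebra ℂ C'] [Algebra K C'] [IsScalarTower ℂ K C'] [Algebra C C']
  [IsScalarTower K C C'] [IsScalarTower ℂ C C'] (O : Chart → Submodule ℂ C)
  (O' : Chart → Submodule ℂ C') (a : ℕ) (y : C'), Full C O → Full C' O' → DCov C C' O O' a y →
  ∀ (V : Type) [AddCommGroup V] [Module ℂ V] [Module K V] [IsScalarTower ℂ K V] [Module C V]
    [IsScalarTower ℂ C V] [IsScalarTower K C V] [Module C' V] [IsScalarTower ℂ C' V]
    [IsScalarTower K C' V] [IsScalarTower C C' V] [Module.Finite K V]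
    (F : Chart → Submodule ℂ V), IsLat F → O' • F = F → Sst O' F → 0 < lead F →
    ∀ E : Chart → Submodule ℂ V, IsLat E → O • E = E → E ≤ F →
      (lam E : ℚ) ≤ (mm F + a) * lead E

/-- RNB [170].  Uses: EXM DCB.  Quotients.  Proof: let `m = mm F`, `τ = m - a`, `E = E₀` from EXM: it
minimizes `f(E) = (lam F - lam E) - τ (lead F - lead E)`; to show `f(E) ≥ 0`.  Let
`N = E ⊓ ln y⁻¹ • tw a a E` (the largest `O'`-stable sublattice of `E`; DCB), and
`X = ln y • E ⊔ tw a a E ≤ tw a a F`, `X' = tw (-a) (-a) X ≤ F`, stable.  `chi_sup` for `ln y • E`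
and `tw a a E`, with intersection `ln y • N`:
`lam E - lam N = lam X - lam (tw a a E)`, `lead E - lead N = lead X - lead E`, and
`lam X = lam X' + 2 a lead X`, `lam (tw a a E) = lam E + 2 a lead E`.  Maximality at `X'`:
`lam X' - lam E ≤ τ (lead X - lead E)`.  With `r = lead E - lead N = lead X - lead E`,
`q = lead F - lead E ≥ r` (`X' ≤ F`): `lam E - lam N ≤ (m + a) r`.  Semistability of `F` at `N`:
`lam F - lam N ≥ m (q + r)`.  So `lam F - lam E ≥ m q - a r ≥ (m - a) q`. -/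
def SpecRNB : Prop := ∀ (C C' : Type) [Field C] [Algebra ℂ C] [Algebra K C] [IsScalarTower ℂ K C]
  [Field C'] [Algebra ℂ C'] [Algebra K C'] [IsScalarTower ℂ K C'] [Algebra C C']
  [IsScalarTower K C C'] [IsScalarTower ℂ C C'] (O : Chart → Submodule ℂ C)
  (O' : Chart → Submodule ℂ C') (a : ℕ) (y : C'), Full C O → Full C' O' → DCov C C' O O' a y →
  ∀ (V : Type) [AddCommGroup V] [Module ℂ V] [Module K V] [IsScalarTower ℂ K V] [Module C V]
    [IsScalarTower ℂ C V] [IsScalarTower K C V] [Module C' V] [IsScalarTower ℂ C' V]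
    [IsScalarTower K C' V] [IsScalarTower C C' V] [Module.Finite K V]
    (F : Chart → Submodule ℂ V), IsLat F → O' • F = F → Sst O' F → 0 < lead F →
    ∀ E : Chart → Submodule ℂ V, IsLat E → O • E = E → E ≤ F →
      (mm F - a) * ((lead F : ℚ) - lead E) ≤ lam F - lam E

/-- IND [150].  Uses: MAJ DCB RNA RNB.  Proof: let `F` be semistable over `O'`, `m = mm F`; give `V` the
`C`-structure by restriction (`Module.compHom`).  First part: MAJ with `α = m - a`, `β = m + a`,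
`A = (a² - m²)/4 + e`, `B = m/2`: for semistable `G` over `O` with `|t - m| ≤ a`, `t = mm G`,
`cc G ≤ t²/4 + e ≤ A + B t` since `(t - m)² ≤ a²`.  Result: `cc F ≤ m²/4 + e + a²/4`.  Second part:
with `η, δ` of `O` let `η' = η/2`, `δ₁ = min δ (a η/4)`; for `p - a - η' < m < p - a` use
`A + B t = (m² + 2 m (t - m) + a²)/4 + e - δ₁ (t - m + a)/(2a)`.  Let `τ = t - m`.  If `τ ≤ a - η/2`:
`(a² - τ²)/4 ≥ (η/2)(a + τ)/4 ≥ δ₁ (τ + a)/(2a)`.  If `τ > a - η/2` then `p - η < t < p`, so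
`cc G ≤ t²/4 + e - δ ≤ (m² + 2mτ + a²)/4 + e - δ₁`.  Result: `cc F ≤ m²/4 + e + a²/4 - δ₁/2`. -/
def SpecIND : Prop := ∀ (C C' : Type) [Field C] [Algebra ℂ C] [Algebra K C] [IsScalarTower ℂ K C]
  [Field C'] [Algebra ℂ C'] [Algebra K C'] [IsScalarTower ℂ K C'] [Algebra C C']
  [IsScalarTower K C C'] [IsScalarTower ℂ C C'] (O : Chart → Submodule ℂ C)
  (O' : Chart → Submodule ℂ C') (a : ℕ) (y : C'), Full C O → Full C' O' → DCov C C' O O' a y →
  ∀ p e : ℚ, Good C O p e → Good C' O' (p - a) (e + (a : ℚ) ^ 2 / 4)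

/-! ## Part 5: the surfaces of the tower -/

/-- FUB [100].  Uses: nothing.  Proof: `strSheaf K = R` (`mem_Ralg_of_isIntegral`, Poly.lean), `isLat_R`,
`R_mul_R`, `one_le_R`, `1 ∈ R`; `chi_R`: `lam R = 2`, `chi R 0 0 = 1`, `finrank K K = 1`; the canonical
sheaf of `K`: `trace K K v = v`, so `v ∈ ω s` iff `wx² wu² v a ∈ R s` for all `a ∈ R s` iff
`v ∈ tw (-2) (-2) R s` (`z = 1`). -/
def SpecFUB : Prop := strSheaf K = R ∧ Full K R ∧ lam R = 2 ∧ chi R 0 0 = 1 ∧
  canonicalSheaf K = tw (-2) (-2) R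

/-- FUS [170].  Uses: nothing.  Proof: write `O = strSheaf L`, `O' = strSheaf L'`.  `L' = L + L y` is finite
over `K`, `finrank K L' = 2 finrank K L` (basis `1, y` over `L`: `free`, `gen`).  `O' =
mapL (algebraMap) O ⊔ mapL (g ↦ g y) (tw (-a) (-a) O)`, both lattices, with intersection `⊥` (`free`):
`O'` is a lattice, `chi O' b c = chi O b c + chi O (b-a) (c-a)` (`chi_sup`, `chi_map_of_injective`,
`chi_tw`, `chi_bot`).  It is a ring: `strSheaf` comes from a subalgebra.  `K`-span: contains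
`L` and `L y`.  `lead O = finrank K L`, so `lam O' = 2 lam O - 2 a finrank K L`,
`chi O' 0 0 = 2 chi O 0 0 - a lam O + a² finrank K L` (`chi_eq`; note `ca + cb = lam`). -/
def SpecFUS : Prop := ∀ (L L' : Type) [Field L] [Algebra ℂ L] [Algebra K L] [IsScalarTower ℂ K L]
  [Field L'] [Algebra ℂ L'] [Algebra K L'] [IsScalarTower ℂ K L'] [Algebra L L']
  [IsScalarTower K L L'] [IsScalarTower ℂ L L'] (a : ℕ) (y : L') (p : ℤ) (e : ℚ),
  DCov L L' (strSheaf L) (strSheaf L') a y → Full L (strSheaf L) →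
  lam (strSheaf L) = p * Module.finrank K L →
  (chi (strSheaf L) 0 0 : ℚ) = ((p : ℚ) ^ 2 / 4 + e) * Module.finrank K L →
  Full L' (strSheaf L') ∧ lam (strSheaf L') = (p - a) * Module.finrank K L' ∧
  (chi (strSheaf L') 0 0 : ℚ) =
    (((p - a : ℤ) : ℚ) ^ 2 / 4 + (e + (a : ℚ) ^ 2 / 4)) * Module.finrank K L'

/-- OMS [170].  Uses: nothing.  Proof: `Tr_{L'/K} = Tr_{L/K} ∘ Tr_{L'/L}` (`Algebra.trace_trace`), and
`Tr_{L'/L} (f + g y) = 2 f` (basis `1, y`, `y² = d`; `free`, `gen`).  Write `v = β + α / y`,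
`α, β ∈ L` (`y ≠ 0`).  `v ∈ ω'(s)` iff for all `f ∈ O s`, `g ∈ tw (-a) (-a) O s` the traces of
`f v` and `g y v` are fine: `Tr_{L'/L} (f v) = 2 f β`, `Tr_{L'/L} (g y v) = 2 g α`: iff `β ∈ ω(s)` and
`α g ∈ ω(s)` for all such `g` (`ω(s)` is an `O s`-module), i.e. `α ∈ tw a a ω s`.  With
`ω = z O(-p,-p)`: `v ∈ ω'(s)` iff `v y = α + β y` with `α ∈ z tw (a-p) (a-p) O s`,
`β ∈ z tw (-p) (-p) O s`, i.e. `v y ∈ z tw (a-p) (a-p) O' s`.  `z' = z / y`. -/
def SpecOMS : Prop := ∀ (L L' : Type) [Field L] [Algebra ℂ L] [Algebra K L] [IsScalarTower ℂ K L]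
  [Field L'] [Algebra ℂ L'] [Algebra K L'] [IsScalarTower ℂ K L'] [Algebra L L']
  [IsScalarTower K L L'] [IsScalarTower ℂ L L'] (a : ℕ) (y : L') (p : ℤ),
  DCov L L' (strSheaf L) (strSheaf L') a y → Full L (strSheaf L) →
  (∃ z : L, z ≠ 0 ∧ canonicalSheaf L = ln z • tw (-p) (-p) (strSheaf L)) →
  ∃ z : L', z ≠ 0 ∧ canonicalSheaf L' = ln z • tw (-(p - a)) (-(p - a)) (strSheaf L')

/-- HCB [170].  Uses: nothing.  `H^1(P, O(n,n)) = 0` for all `n`.  Proof: all modules in sight are spanned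
by monomials: `tw n n R s = MonS (Q_s)`, `Q_s = {p : p.1 ≥ 0 or p.1 ≤ n, p.2 ≥ 0 or p.2 ≤ n}` according
to `s` (`s.1 = false`: `p.1 ≥ 0`; `s.1 = true`: `p.1 ≤ n`), and `Loc R n s t ⊆ MonS (Q_st)`, where
`Q_st = Q_s` with the conditions in the directions where `s`, `t` differ omitted.  Decompose the
cocycle into coefficients (`mon` is linearly independent): for each `p` the numbers `c_st(p)` form a
cocycle with `c_st(p) = 0` if `p ∉ Q_st`.  For fixed `p` let `A = {s : p ∈ Q_s}`: need `g` with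
`g_s = 0` for `s ∉ A`, `c_st = g_s - g_t`.  `A = A₁ × A₂`.  If `A` is nonempty put `g_s = c_{s t}`,
`t ∉ A` if there is one (`c_st = 0` for `s, t ∉ A`: if `A₁, A₂ ≠ ∅` and e.g. `s.1 ∉ A₁`, `t ∉ A`, compare
`c_st` through the chart with both coordinates outside: `p ∉ Q_st` unless they differ exactly in the
bad directions..) ; finite case check over `A₁, A₂ ⊆ {false, true}` by `decide`-like reasoning; if `A`
is all charts use `g_s = c_{s,(false,false)}`; if `A = ∅`: one of `A₁, A₂` is empty, e.g.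
`A₁ = ∅`, i.e. `p.1 < 0` and `p.1 > n`; then `c_st = 0` if `s.1 = t.1`, and for `s.1 ≠ t.1` `c_st(p) ≠ 0`
needs the `u`-condition for both values unless `s.2 ≠ t.2`; on `P^1 x P^1` with both twists equal to
`n`, `p.1 ∈ (n, 0)` means `n ≤ -2` and then `p.2 ≥ 0` and `p.2 ≤ n` cannot both hold, so
`c_{(0,j),(1,j)}(p) = 0` for some `j`, hence `c = 0`. -/
def SpecHCB : Prop := H1n K R

/-- HCS [100].  Uses: nothing.  Proof: write `c s t = c₀ s t + c₁ s t y` (`gen`, `free`).  `v = f + g y` is in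
`Loc O' n s t` iff `f ∈ Loc O n s t` and `g ∈ Loc O (n - a) s t`; `tw n n O' s = tw n n O s +
tw (n-a) (n-a) O s y` (`DCov.eq`).  Apply `H1n L O` to `c₀` (twist `n`) and `c₁` (twist `n - a`). -/
def SpecHCS : Prop := ∀ (L L' : Type) [Field L] [Algebra ℂ L] [Algebra K L] [IsScalarTower ℂ K L]
  [Field L'] [Algebra ℂ L'] [Algebra K L'] [IsScalarTower ℂ K L'] [Algebra L L']
  [IsScalarTower K L L'] [IsScalarTower ℂ L L'] (a : ℕ) (y : L'),
  DCov L L' (strSheaf L) (strSheaf L') a y → H1n L (strSheaf L) → H1n L' (strSheaf L')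

/-- TOW [100].  Uses: BAS IND FUB FUS OMS HCB HCS.  Proof: induction on `Tow`. -/
def SpecTOW : Prop := ∀ (L : Type) [Field L] [Algebra ℂ L] [Algebra K L] [IsScalarTower ℂ K L],
  Tow L → ∃ (p : ℤ) (e : ℚ), TF L p e

/-! ## Part 6: the Le Potier function -/

/-- HCO [80].  Uses: nothing.  Proof: `n = 0`, `tw 0 0 = id`.  An element of `Oalg L s ⊔ Oalg L t` is a
polynomial in elements of `Oalg L s` and `Oalg L t` (`Algebra.adjoin_induction` or
`Subalgebra.mem_sup..`); for `b ∈ Oalg L t`, `(w t / w s)^k b ∈ Oalg L s` for some `k` (glue), and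
`Loc` is closed under sums and products. -/
def SpecHCO : Prop := ∀ (L : Type) [Field L] [Algebra ℂ L] [Algebra K L] [IsScalarTower ℂ K L]
  (p : ℤ) (e : ℚ), TF L p e → H1Vanishes L

/-- TRN [200].  Uses: nothing.  The official definitions.  Proof: copy Translate.lean, with `8` replaced
by `d = finrank K L`, `SurfFacts` by `TF` (`lead_eq`, `deg_eq`, `Hsq_eq`, `sst_of_isSemistable`,
`isSemistable_of_sst`, `of_lat`, `isLat`, `stable`).  `twistCanonical L F = canonicalSheaf L • F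
= ln z • tw (-p) (-p) F`, so its `chi 0 0` is `chi F (-p) (-p) = p² lead - p lam + chi F 0 0`;
`ch2 = chi F 0 0 + (p² lead - p lam)/2 - rk chi O 0 0`, `rk chi O 0 0 = (p²/4 + e) lead F`.
`slope = (lam - p lead)/(2 d rk)`, `d rk = lead`. -/
def SpecTRN : Prop := ∀ (L : Type) [Field L] [Algebra ℂ L] [Algebra K L] [IsScalarTower ℂ K L]
  (p : ℤ) (e : ℚ), TF L p e → ∀ (r : ℕ) (F : Chart → Submodule ℂ (Fin r → L)),
  (IsSheaf L F ↔ IsLat F ∧ strSheaf L • F = F) ∧
  (IsLat F → strSheaf L • F = F → 0 < r → rk L F = r →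
    lead F = Module.finrank K L * r ∧ 0 < lead F ∧ slope L F = (mm F - p) / 2 ∧
    (IsSemistable L F ↔ Sst (strSheaf L) F) ∧
    ch2 L F / (Hsq L * r) = (cc F - p * mm F / 2 + (p : ℚ) ^ 2 / 4 - e) / 2)

/-- PHZ [100].  Uses: TRN.  Proof: as `val_zero`, `Phi_zero_nonneg` in Limit.lean: the structure sheaf in
`Fin 1 → L`: `mm = p`, `cc = p²/4 + e`, so slope `0`, `ch2 = 0`; semistable since the rank is one. -/
def SpecPHZ : Prop := ∀ (L : Type) [Field L] [Algebra ℂ L] [Algebra K L] [IsScalarTower ℂ K L]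
  (p : ℤ) (e : ℚ), TF L p e → 0 ≤ Phi L 0

/-- PHN [130].  Uses: TRN.  Proof: with `η, δ` from `TF.good`: if `F` is semistable with slope
`μ ∈ (-η/2, 0)` then `mm F = p + 2μ ∈ (p - η, p)`, so
`ch2/(H² r) ≤ (mm²/4 - p mm/2 + p²/4 - δ)/2 = μ²/2 - δ/2`.  Let `η' = min (η/2) (δ/2) 1 ..` so that
`μ²/2 ≤ δ/4` for `|μ| < η'`; for `t ∈ (-η', 0)` take `ε = min (-t) (t + η')` in the definition of `Phi`:
`Phi L t ≤ -δ/4`. -/
def SpecPHN : Prop := ∀ (L : Type) [Field L] [Algebra ℂ L] [Algebra K L] [IsScalarTower ℂ K L]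
  (p : ℤ) (e : ℚ), TF L p e → ∃ η : ℝ, 0 < η ∧ ∃ δ : ℝ, 0 < δ ∧ ∀ t : ℝ, -η < t → t < 0 →
    Phi L t ≤ ((-δ : ℝ) : EReal)

/-- EXS [200].  Uses: nothing.  Explicit double planes are in the class.  Let `y² = f ∈ K` and suppose that
in every chart `f / (w s)^(2a)` is a squarefree element of the coordinate ring (i.e. the branch curve
`f = 0` of bidegree `(2a,2a)` is reduced; smooth curves are), `f` not a square.  Then `K(y)` is a double
cover of `P`.  Proof: `Oalg L s` is the integral closure of `Ralg s` (a unique factorization domain: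
`polyEquiv`) in `L = K + K y`.  `v = g + h y` is integral iff its trace `2 g` and norm `g² - h² f` are in
`Ralg s` (integrally closed) iff `g ∈ Ralg s` and `h² f ∈ Ralg s`; with `f = (w s)^(2a) f_s`,
`(h (w s)^a)² f_s ∈ Ralg s` iff `h (w s)^a ∈ Ralg s` (`f_s` squarefree), i.e.
`h ∈ tw (-a) (-a) R s`. -/
def SpecEXS : Prop := ∀ (L : Type) [Field L] [Algebra ℂ L] [Algebra K L] [IsScalarTower ℂ K L]
  (a : ℕ) (y : L) (f : K), 1 ≤ a → y * y = algebraMap K L f → (∀ k : K, k * k ≠ f) →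
  (∀ v : L, ∃ g h : K, v = algebraMap K L g + algebraMap K L h * y) →
  (∀ s : Chart, ∃ φ : Ralg s, Squarefree φ ∧ f = w s ^ (2 * a) * (φ : K)) →
  DCov K L (strSheaf K) (strSheaf L) a y

end

end Pool.Agent.Lib.LP.TW
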