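import Pool.Agent.Lib.MP_865fc0_ag.TW.Inh

/-!
# MP_865fc0_ag, TW: the jump is inherited by cyclic covers, for all Gorenstein surfaces (part four)

THEOREM.  As in SpecI, but with `ω_S` any INVERTIBLE sheaf (for instance `S` smooth, `K_S` arbitrary):
`Φ_S(t) ≤ t²/2` and `Φ_S(t) ≤ t²/2 - δ` on `(-η, 0)` pass to every simple cyclic cover.

Idea.  Replace `χ(F)` by `psi F = (χ(F) + χ(F ⊗ ω))/2 = ch_2(F) + rk χ(O)`, an additive function.  The
formula `lam (ω F) = lam F - 2 p lead F` (Riemann-Roch, `p = lam O / lead O`) FOLLOWS from `Φ ≤ t²/2`,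
applied to all twists `F(m,m)` of a semistable `F` (LAS), and then for all `F` by induction (LAW).
`ω_{S'} = y^(1-d) ω_S(j,j) ⊗ O'`, `j = a(d-1)`, so `χ(ω_{S'} F) = χ((ω_S F)(j,j))`.

Conventions as in Spec.lean: module `XXX` = file `TW/XXX.lean`, imports this file
(`Pool.Agent.Lib.MP_865fc0_ag.TW.SpecG`) and any file of the base or of TW, namespace
`Pool.Agent.Lib.LP.TW`, theorem `specXXX (hyps in the order of Uses) : SpecXXX`, own lemmas in
`namespace XXXM`.  MOST MODULES ARE COPIES WITH SMALL CHANGES of the file named in the docstring.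
-/

set_option autoImplicit false

open scoped Pointwise
open Filter

namespace Pool.Agent.Lib.LP.TW

noncomputable section

/-- `W` is an invertible sheaf of fractional ideals, `W'` its inverse. -/
structure Inv (C : Type) [Field C] [Algebra ℂ C] [Algebra K C] [IsScalarTower ℂ K C]
    (O W W' : Chart → Submodule ℂ C) : Prop where
  lat : IsLat W
  lat' : IsLat W'
  st : O * W = W
  st' : O * W' = W'
  mul : W * W' = O

/-- `(χ(F) + χ(F ⊗ W))/2` -/
def psi {C : Type} [Field C] [Algebra ℂ C] {V : Type} [AddCommGroup V] [Module ℂ V] [Module K V]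
    [IsScalarTower ℂ K V] [Module C V] [IsScalarTower ℂ C V] (W : Chart → Submodule ℂ C)
    (F : Chart → Submodule ℂ V) : ℚ :=
  ((chi F 0 0 : ℚ) + chi (W • F) 0 0) / 2

/-- Bogomolov's inequality -/
def GoodW (C : Type) [Field C] [Algebra ℂ C] [Algebra K C] [IsScalarTower ℂ K C]
    (O W : Chart → Submodule ℂ C) (p e : ℚ) : Prop :=
  ∀ (V : Type) [AddCommGroup V] [Module ℂ V] [Module K V] [IsScalarTower ℂ K V] [Module C V]
    [IsScalarTower ℂ C V] [IsScalarTower K C V] [Module.Finite K V] (F : Chart → Submodule ℂ V),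
    IsLat F → O • F = F → Sst O F → 0 < lead F →
    psi W F ≤ ((mm F - p) ^ 2 / 4 + e) * lead F

/-- the jump to the left of slope zero -/
def JumpW (C : Type) [Field C] [Algebra ℂ C] [Algebra K C] [IsScalarTower ℂ K C]
    (O W : Chart → Submodule ℂ C) (p e η δ : ℚ) : Prop :=
  ∀ (V : Type) [AddCommGroup V] [Module ℂ V] [Module K V] [IsScalarTower ℂ K V] [Module C V]
    [IsScalarTower ℂ C V] [IsScalarTower K C V] [Module.Finite K V] (F : Chart → Submodule ℂ V),
    IsLat F → O • F = F → Sst O F → 0 < lead F → p - η < mm F → mm F < p →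
    psi W F ≤ ((mm F - p) ^ 2 / 4 + e - δ) * lead F

/-- the degree of `F ⊗ W` -/
def LamW (C : Type) [Field C] [Algebra ℂ C] [Algebra K C] [IsScalarTower ℂ K C]
    (O W : Chart → Submodule ℂ C) (p : ℚ) : Prop :=
  ∀ (V : Type) [AddCommGroup V] [Module ℂ V] [Module K V] [IsScalarTower ℂ K V] [Module C V]
    [IsScalarTower ℂ C V] [IsScalarTower K C V] [Module.Finite K V] (F : Chart → Submodule ℂ V),
    IsLat F → O • F = F → (lam (W • F) : ℚ) = lam F - 2 * p * lead F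

/-- what is needed of a surface -/
structure TH (L : Type) [Field L] [Algebra ℂ L] [Algebra K L] [IsScalarTower ℂ K L]
    (M : Chart → Submodule ℂ L) (p e : ℚ) : Prop where
  full : Full L (strSheaf L)
  inv : Inv L (strSheaf L) (canonicalSheaf L) M
  lamO : (lam (strSheaf L) : ℚ) = p * Module.finrank K L
  chiO : (chi (strSheaf L) 0 0 : ℚ) = e * Module.finrank K L

/-- IVL [80].  Uses: nothing.  `IsLat (W • F)` is `IsLat.fsmul`; the next two by `mulS` and commutativity of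
`*`.  `lead (W • F) = lead F`: take `0 ≠ w ∈ W (false,false)`, `0 ≠ w' ∈ W' (false,false)` (the product `O` is
not zero); `ln w • F`.. or directly with `lead_eq`: the `K`-spans of `F (false,false)` and
`(W • F) (false,false)` contain `w` times, resp. `w'` times, each other, and multiplication by `w` is
`K`-linear injective: `finrank` inequalities (`LinearMap.finrank_le_finrank_of_injective`-like).
Last: `W • (F ⊓ U) = (W • F) ⊓ U` on each chart, for a `C`-subspace `U`: `v ∈ W F ∩ U` is in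
`O v = W (W' v)`, and `W' v ⊆ W' W F ∩ U = F ∩ U`. -/
def SpecIVL : Prop := ∀ (C : Type) [Field C] [Algebra ℂ C] [Algebra K C] [IsScalarTower ℂ K C]
  (O W W' : Chart → Submodule ℂ C), Full C O → Inv C O W W' →
  ∀ (V : Type) [AddCommGroup V] [Module ℂ V] [Module K V] [IsScalarTower ℂ K V] [Module C V]
    [IsScalarTower ℂ C V] [IsScalarTower K C V] [Module.Finite K V] (F : Chart → Submodule ℂ V),
    IsLat F → O • F = F → IsLat (W • F) ∧ O • (W • F) = W • F ∧ W' • (W • F) = F ∧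
      lead (W • F) = lead F ∧
      ∀ (U : Submodule C V) (s : Chart), (W s • (F s ⊓ U.restrictScalars ℂ) : Submodule ℂ V) =
        (W • F) s ⊓ U.restrictScalars ℂ

/-- QUW [220].  Uses: IVL.  COPY OF QUO.lean with one more formula: `χ(W F) = χ(W E₁) + χ(W F')`.  There
`E₁ = F ⊓ U` for a `C`-subspace `U` and `F' = mapL q F` for the `C`-linear projection `q`; by IVL
`W • E₁ = (W • F) ⊓ U` and `W • mapL q F = mapL q (W • F)` (`map_smul_sub`); `chi_map` for `W • F`. -/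
def SpecQUW : Prop := ∀ (C : Type) [Field C] [Algebra ℂ C] [Algebra K C] [IsScalarTower ℂ K C]
  (O W W' : Chart → Submodule ℂ C), Full C O → Inv C O W W' → ∀ (V : Type) [AddCommGroup V]
  [Module ℂ V] [Module K V]
  [IsScalarTower ℂ K V] [Module C V] [IsScalarTower ℂ C V] [IsScalarTower K C V]
  [Module.Finite K V] (F E : Chart → Submodule ℂ V), IsLat F → O • F = F → IsLat E → O • E = E →
  E ≤ F → ∃ E₁ : Chart → Submodule ℂ V, IsLat E₁ ∧ O • E₁ = E₁ ∧ E ≤ E₁ ∧ E₁ ≤ F ∧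
    lead E₁ = lead E ∧
    ∃ (V' : Type) (_ : AddCommGroup V') (_ : Module ℂ V') (_ : Module K V')
      (_ : IsScalarTower ℂ K V') (_ : Module C V') (_ : IsScalarTower ℂ C V')
      (_ : IsScalarTower K C V') (_ : Module.Finite K V') (F' : Chart → Submodule ℂ V'),
      IsLat F' ∧ O • F' = F' ∧ (∀ a b, chi F a b = chi E₁ a b + chi F' a b) ∧
      (∀ a b, chi (W • F) a b = chi (W • E₁) a b + chi (W • F') a b) ∧
      ∀ E' : Chart → Submodule ℂ V', IsLat E' → O • E' = E' → E' ≤ F' →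
        ∃ E'' : Chart → Submodule ℂ V, IsLat E'' ∧ O • E'' = E'' ∧ E'' ≤ F ∧
          ∀ a b, chi E'' a b = chi E₁ a b + chi E' a b

/-- MAW [220].  Uses: HNX QUW.  COPY OF MAG.lean with `psi W` in place of `chi · 0 0` (additive by the two
formulas of QUW). -/
def SpecMAW : Prop := ∀ (C : Type) [Field C] [Algebra ℂ C] [Algebra K C] [IsScalarTower ℂ K C]
  (O W W' : Chart → Submodule ℂ C), Full C O → Inv C O W W' → ∀ (A B α β : ℚ) (n : ℕ)
  (τ c : ℕ → ℚ), (∀ j < n, 0 ≤ c j) →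
  (∀ (V : Type) [AddCommGroup V] [Module ℂ V] [Module K V] [IsScalarTower ℂ K V] [Module C V]
    [IsScalarTower ℂ C V] [IsScalarTower K C V] [Module.Finite K V] (F : Chart → Submodule ℂ V),
    IsLat F → O • F = F → Sst O F → 0 < lead F → α ≤ mm F → mm F ≤ β →
    psi W F ≤ (A + B * mm F + ∑ j ∈ Finset.range n, c j * max 0 (mm F - τ j)) * lead F) →
  ∀ (V : Type) [AddCommGroup V] [Module ℂ V] [Module K V] [IsScalarTower ℂ K V] [Module C V]
    [IsScalarTower ℂ C V] [IsScalarTower K C V] [Module.Finite K V] (F : Chart → Submodule ℂ V),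
    IsLat F → O • F = F → 0 < lead F →
    (∀ E : Chart → Submodule ℂ V, IsLat E → O • E = E → E ≤ F → (lam E : ℚ) ≤ β * lead E) →
    (∀ E : Chart → Submodule ℂ V, IsLat E → O • E = E → E ≤ F →
      α * ((lead F : ℚ) - lead E) ≤ lam F - lam E) →
    ∀ γ : ℕ → ℚ, (∀ j < n, 0 ≤ γ j) →
    (∀ j < n, ∀ E : Chart → Submodule ℂ V, IsLat E → O • E = E → E ≤ F →
      (lam E : ℚ) - τ j * lead E ≤ γ j) →
    psi W F ≤ A * lead F + B * lam F + ∑ j ∈ Finset.range n, c j * γ j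

/-- LAS [110].  Uses: IVL.  Let `F` be semistable.  `tw m m F` is semistable (BAS.lean: twisting), with
`lead` unchanged, `mm = mm F + 2m`, `W • tw m m F = tw m m (W • F)` (`smul_tw`), so
`psi W (tw m m F) = psi W F + m (lam F + lam (W F))/2 + m² lead F` (`chi_tw`, `chi_eq`, `lead (W F) = lead F`).
`GoodW` for it: `psi W F + m (lam F + lam (W F))/2 ≤ ((mm F - p)²/4 + m (mm F - p) + e) lead F` for ALL
integers `m`, so `(lam F + lam (W F))/2 = (mm F - p) lead F = lam F - p lead F`. -/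
def SpecLAS : Prop := ∀ (C : Type) [Field C] [Algebra ℂ C] [Algebra K C] [IsScalarTower ℂ K C]
  (O W W' : Chart → Submodule ℂ C), Full C O → Inv C O W W' → ∀ p e : ℚ, GoodW C O W p e →
  ∀ (V : Type) [AddCommGroup V] [Module ℂ V] [Module K V] [IsScalarTower ℂ K V] [Module C V]
    [IsScalarTower ℂ C V] [IsScalarTower K C V] [Module.Finite K V] (F : Chart → Submodule ℂ V),
    IsLat F → O • F = F → Sst O F → 0 < lead F → (lam (W • F) : ℚ) = lam F - 2 * p * lead F

/-- LAW [120].  Uses: HNX QUW LAS.  By strong induction on `lead F`, over all `V`.  `lead F = 0`: `F = ⊥`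
(`eq_bot_of_lead`), `W • ⊥ = ⊥`.  `Sst O F`: LAS.  Otherwise `E` from HNX, `E₁, F'` from QUW (as in
MAG.lean): `0 < lead E₁ < lead F`, `0 < lead F' < lead F`; both sides are additive. -/
def SpecLAW : Prop := ∀ (C : Type) [Field C] [Algebra ℂ C] [Algebra K C] [IsScalarTower ℂ K C]
  (O W W' : Chart → Submodule ℂ C), Full C O → Inv C O W W' → ∀ p e : ℚ, GoodW C O W p e →
  LamW C O W p

/-- INW [250].  Uses: MAW CDB RND NUA NUB.  COPY OF INC.lean (key) and of `goodQ_step` in Quant.lean, with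
`psi W` in place of `chi · 0 0` and the majorant `chord + (-p t/2 + p²/4 + e)` in place of `chord + e`:
`A = -α²/4 + α a/2 + e + p²/4`, `B = (α - a)/2 - p/2`.  Here `V` has both structures. -/
def SpecINW : Prop := ∀ (C C' : Type) [Field C] [Algebra ℂ C] [Algebra K C] [IsScalarTower ℂ K C]
  [Field C'] [Algebra ℂ C'] [Algebra K C'] [IsScalarTower ℂ K C'] [Algebra C C']
  [IsScalarTower K C C'] [IsScalarTower ℂ C C'] (O W W' : Chart → Submodule ℂ C)
  (O' : Chart → Submodule ℂ C') (d a : ℕ) (y : C'), Full C O → Inv C O W W' → Full C' O' →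
  CCov C C' O O' d a y → ∀ p e : ℚ, GoodW C O W p e →
  (∀ (V : Type) [AddCommGroup V] [Module ℂ V] [Module K V] [IsScalarTower ℂ K V] [Module C V]
    [IsScalarTower ℂ C V] [IsScalarTower K C V] [Module C' V] [IsScalarTower ℂ C' V]
    [IsScalarTower K C' V] [IsScalarTower C C' V] [Module.Finite K V]
    (F : Chart → Submodule ℂ V), IsLat F → O' • F = F → Sst O' F → 0 < lead F →
    psi W F ≤ ((mm F - p) ^ 2 / 4 + e + (a : ℚ) ^ 2 * ((d : ℚ) ^ 2 - 1) / 12) * lead F) ∧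
  ∀ η δ : ℚ, 0 < η → 0 < δ → JumpW C O W p e η δ →
  (∀ (V : Type) [AddCommGroup V] [Module ℂ V] [Module K V] [IsScalarTower ℂ K V] [Module C V]
    [IsScalarTower ℂ C V] [IsScalarTower K C V] [Module C' V] [IsScalarTower ℂ C' V]
    [IsScalarTower K C' V] [IsScalarTower C C' V] [Module.Finite K V]
    (F : Chart → Submodule ℂ V), IsLat F → O' • F = F → Sst O' F → 0 < lead F →
    p - a * (d - 1) - η / 2 < mm F → mm F < p - a * (d - 1) →
    psi W F ≤ ((mm F - p) ^ 2 / 4 + e + (a : ℚ) ^ 2 * ((d : ℚ) ^ 2 - 1) / 12 -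
      min δ (min (a * η / 4) (2 * a ^ 2)) / d) * lead F)

/-- OMG [250].  Uses: nothing.  COPY OF OMC.lean: `v ∈ ω'(s)` iff `α_(d-1-i) g ∈ ω(s)` for all `i < d`,
`g ∈ tw (-ia) (-ia) O s`, where `v y^(d-1) = ∑ α_j y^j`; iff `α_(d-1-i) ∈ tw (ia) (ia) ω s` (as
`O ω = ω`); iff `v y^(d-1) ∈ tw j j (ω • O') s`, `j = a (d-1)` (`ω • O' = ⊕ ω(-ia) y^i`).
`canonicalSheaf L • strSheaf L'` is a family of subspaces of `L'` (`L'` is an `L`-module). -/
def SpecOMG : Prop := ∀ (L L' : Type) [Field L] [Algebra ℂ L] [Algebra K L] [IsScalarTower ℂ K L]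
  [Field L'] [Algebra ℂ L'] [Algebra K L'] [IsScalarTower ℂ K L'] [Algebra L L']
  [IsScalarTower K L L'] [IsScalarTower ℂ L L'] (d a : ℕ) (y : L'),
  CCov L L' (strSheaf L) (strSheaf L') d a y → Full L (strSheaf L) →
  canonicalSheaf L' = ln ((y ^ (d - 1))⁻¹) • tw ((a * (d - 1) : ℕ) : ℤ) ((a * (d - 1) : ℕ) : ℤ)
    (canonicalSheaf L • strSheaf L')

/-- OMI [150].  Uses: OMG.  `M' = ln (y^(d-1)) • tw (-j) (-j) (M • O')`.  `ω' M' = O'` by commutativity
(`ω • O'` is the image of `ω` under `algebraMap L L'` times `O'`, so `(ω • O') * (M • O') = (ω * M) • O' =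
O • O' = O'`), `IsLat` by `fsmul` (for `L'` as an `L`-module), `tw`, `ln_smul`; `y ≠ 0`.  Last formula:
`ω' • F = ln .. • tw j j (ω • (O' • F)) = ln .. • tw j j (ω • F)` (`Submodule.smul_assoc`, `tw_fsmul`),
`chi_ln`, `chi_tw`. -/
def SpecOMI : Prop := ∀ (L L' : Type) [Field L] [Algebra ℂ L] [Algebra K L] [IsScalarTower ℂ K L]
  [Field L'] [Algebra ℂ L'] [Algebra K L'] [IsScalarTower ℂ K L'] [Algebra L L']
  [IsScalarTower K L L'] [IsScalarTower ℂ L L'] (d a : ℕ) (y : L') (M : Chart → Submodule ℂ L),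
  CCov L L' (strSheaf L) (strSheaf L') d a y → Full L (strSheaf L) → Full L' (strSheaf L') →
  Inv L (strSheaf L) (canonicalSheaf L) M →
  (∃ M' : Chart → Submodule ℂ L', Inv L' (strSheaf L') (canonicalSheaf L') M') ∧
  ∀ (V : Type) [AddCommGroup V] [Module ℂ V] [Module K V] [IsScalarTower ℂ K V] [Module L V]
    [IsScalarTower ℂ L V] [IsScalarTower K L V] [Module L' V] [IsScalarTower ℂ L' V]
    [IsScalarTower K L' V] [IsScalarTower L L' V] [Module.Finite K V]
    (F : Chart → Submodule ℂ V), IsLat F → strSheaf L' • F = F →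
    chi (canonicalSheaf L' • F) 0 0 =
      chi (canonicalSheaf L • F) ((a * (d - 1) : ℕ) : ℤ) ((a * (d - 1) : ℕ) : ℤ)

/-- FUG [60].  Uses: nothing.  As FUC (see FUC.lean, its formula for `chi O'` is general), `p, e` rational:
`lam O' = d lam O - a d (d-1) n`, `χ(O') = d χ(O) - a d (d-1)/2 lam O + a² d (d-1)(2d-1)/6 n`. -/
def SpecFUG : Prop := ∀ (L L' : Type) [Field L] [Algebra ℂ L] [Algebra K L] [IsScalarTower ℂ K L]
  [Field L'] [Algebra ℂ L'] [Algebra K L'] [IsScalarTower ℂ K L'] [Algebra L L']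
  [IsScalarTower K L L'] [IsScalarTower ℂ L L'] (d a : ℕ) (y : L') (p e : ℚ),
  CCov L L' (strSheaf L) (strSheaf L') d a y → Full L (strSheaf L) →
  (lam (strSheaf L) : ℚ) = p * Module.finrank K L →
  (chi (strSheaf L) 0 0 : ℚ) = e * Module.finrank K L →
  Full L' (strSheaf L') ∧ (lam (strSheaf L') : ℚ) = (p - a * (d - 1)) * Module.finrank K L' ∧
  (chi (strSheaf L') 0 0 : ℚ) = (e + (a : ℚ) ^ 2 * ((d : ℚ) ^ 2 - 1) / 12 +
    ((a : ℚ) * (d - 1)) ^ 2 / 4 - p * (a * (d - 1)) / 2) * Module.finrank K L'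

/-- WLT [120].  Uses: nothing.  `ω` is a lattice if it is invertible with a lattice `M` as inverse.
Proof: `O s * ω s ≤ ω s` by the definition of `canonicalSheaf` (trace condition for all `a ∈ Oalg L s`),
`1 ∈ O s`: `st`.  Finitely generated: `1 = ∑ v_i m_i`, `v_i ∈ ω s`, `m_i ∈ M s`, so `ω s = ∑ O s v_i`
(`v = ∑ v_i (m_i v)`, `m_i v ∈ M s ω s = O s`); `O s = R s • T₀`.  `ω s = {v : v M s ≤ O s}` (if
`v M s ≤ O s` then `v ∈ v O s = v M s ω s ≤ ω s`).  Glue: `v ∈ ω s`, `c = w s / w t ∈ R t`; `M t = R t • T`, `T`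
finitely generated; for `m` in a finite generating set of `T`: `(w t / w s)^n m ∈ M s` (`glue`), so
`(w t / w s)^n m v ∈ O s`, so `(w s / w t)^k (w t / w s)^n m v ∈ O t`, so `c^(k+n) m v ∈ O t` (multiply by
`c^(2n) ∈ R t`).  One exponent for all `m`: `c^N v M t ≤ O t`. -/
def SpecWLT : Prop := ∀ (L : Type) [Field L] [Algebra ℂ L] [Algebra K L] [IsScalarTower ℂ K L]
  (M : Chart → Submodule ℂ L), Full L (strSheaf L) → IsLat M → strSheaf L * M = M →
  canonicalSheaf L * M = strSheaf L → Inv L (strSheaf L) (canonicalSheaf L) M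

/-- TRW [150].  Uses: IVL.  COPY OF TRG.lean: `deg F = lam F - p lead F`, `ch2 F = psi ω F - e lead F`. -/
def SpecTRW : Prop := ∀ (L : Type) [Field L] [Algebra ℂ L] [Algebra K L] [IsScalarTower ℂ K L]
  (M : Chart → Submodule ℂ L) (p e : ℚ), TH L M p e →
  ∀ (r : ℕ) (F : Chart → Submodule ℂ (Fin r → L)),
  (IsSheaf L F ↔ IsLat F ∧ strSheaf L • F = F) ∧
  (IsLat F → strSheaf L • F = F → 0 < r → rk L F = r →
    lead F = Module.finrank K L * r ∧ 0 < lead F ∧ slope L F = (mm F - p) / 2 ∧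
    (IsSemistable L F ↔ Sst (strSheaf L) F) ∧
    ch2 L F / (Hsq L * r) = psi (canonicalSheaf L) F / (2 * lead F) - e / 2)

/-- PHW [130].  Uses: IVL TRW.  COPY OF PHG.lean (from bounds for `Φ` to bounds for sheaves); in addition
`χ(ω F') = χ(ω F)` since `mapL ψ (ω • F') = ω • mapL ψ F' = ω • F` (`ψ` is `L`-linear). -/
def SpecPHW : Prop := ∀ (L : Type) [Field L] [Algebra ℂ L] [Algebra K L] [IsScalarTower ℂ K L]
  (M : Chart → Submodule ℂ L) (p e : ℚ), TH L M p e →
  ((∀ t : ℝ, Phi L t ≤ ((t ^ 2 / 2 : ℝ) : EReal)) →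
    GoodW L (strSheaf L) (canonicalSheaf L) p e) ∧
  ∀ η δ : ℚ, 0 < η → 0 < δ →
    (∀ t : ℝ, -(η : ℝ) < t → t < 0 → Phi L t ≤ ((t ^ 2 / 2 - (δ : ℝ) : ℝ) : EReal)) →
    JumpW L (strSheaf L) (canonicalSheaf L) p e (2 * η) (2 * δ)

/-- PHX [120].  Uses: TRW.  The converse.  COPY OF `phiQG`, `phiBG` (Inh.lean). -/
def SpecPHX : Prop := ∀ (L : Type) [Field L] [Algebra ℂ L] [Algebra K L] [IsScalarTower ℂ K L]
  (M : Chart → Submodule ℂ L) (p e : ℚ), TH L M p e →
  (GoodW L (strSheaf L) (canonicalSheaf L) p e →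
    ∀ t : ℝ, Phi L t ≤ ((t ^ 2 / 2 : ℝ) : EReal)) ∧
  ∀ η δ : ℚ, JumpW L (strSheaf L) (canonicalSheaf L) p e η δ →
    ∀ t : ℝ, -((η / 2 : ℚ) : ℝ) < t → t < 0 →
      Phi L t ≤ ((t ^ 2 / 2 - ((δ / 2 : ℚ) : ℝ) : ℝ) : EReal)

/-- PHY [100].  Uses: TRW.  COPY OF PHI.lean: the structure sheaf has slope `0` and
`ch2 = (χ(ω) - χ(O))/2 = 0`. -/
def SpecPHY : Prop := ∀ (L : Type) [Field L] [Algebra ℂ L] [Algebra K L] [IsScalarTower ℂ K L]
  (M : Chart → Submodule ℂ L) (p e : ℚ), TH L M p e →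
  chi (canonicalSheaf L) 0 0 = chi (strSheaf L) 0 0 → 0 ≤ Phi L 0

/-- DUA [150].  Uses: OMI.  `χ(ω_{S'}) = χ(O_{S'})`.  Proof: `χ(ω') = χ(ω' • O') = χ((ω • O')(j,j))` (OMI for
`V = L'`, `F = strSheaf L'`), and `ω • O' = ⊕_{i<d} ω(-ia) y^i`, so (COPY OF the computation of `chi O'` in
FUC.lean, with `ω` in place of `O` on the right) `χ(ω'(0,0)) = ∑_{i<d} χ(ω(j-ia, j-ia))`; with
`χ(ω(m,m)) = n m² + lam ω m + χ(ω)`, `lam ω = -lam O` (`LamW` for `V = L`, `F = O`: `lam ω = lam O - 2 p n`,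
`p n = lam O`), `χ(ω) = χ(O)`: this is `∑ χ(O(-(j-ia)))`, the same as `χ(O') = ∑ χ(O(-ia))` (`i ↦ d-1-i`). -/
def SpecDUA : Prop := ∀ (L L' : Type) [Field L] [Algebra ℂ L] [Algebra K L] [IsScalarTower ℂ K L]
  [Field L'] [Algebra ℂ L'] [Algebra K L'] [IsScalarTower ℂ K L'] [Algebra L L']
  [IsScalarTower K L L'] [IsScalarTower ℂ L L'] (d a : ℕ) (y : L') (M : Chart → Submodule ℂ L)
  (p : ℚ), CCov L L' (strSheaf L) (strSheaf L') d a y → Full L (strSheaf L) → Full L' (strSheaf L') →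
  Inv L (strSheaf L) (canonicalSheaf L) M → (lam (strSheaf L) : ℚ) = p * Module.finrank K L →
  LamW L (strSheaf L) (canonicalSheaf L) p →
  chi (canonicalSheaf L) 0 0 = chi (strSheaf L) 0 0 →
  chi (canonicalSheaf L') 0 0 = chi (strSheaf L') 0 0

end

end Pool.Agent.Lib.LP.TW
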