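import Pool.Agent.Lib.MP_865fc0_ag.TW.Quant

/-!
# MP_865fc0_ag, TW: the jump is inherited by cyclic covers (third part of the plan)

THEOREM.  Let `S` be a normal surface, finite over `P^1 x P^1`, `H` the pull back of `O(1,1)`, with
`ω_S = O_S(-pH)` (so that the linear coefficient of `χ(O_S(nH))` is `p H²/2`), `Φ_S(t) ≤ t²/2` for all
`t` and `Φ_S(t) ≤ t²/2 - δ` for `-η < t < 0`.  Let `S'` be a simple cyclic cover of `S` of degree `d`,
totally branched along a reduced divisor of `|daH|`.  Then `ω_{S'} = O_{S'}(-(p - a(d-1))H)`,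
`Φ_{S'}(t) ≤ t²/2` for all `t` and `Φ_{S'}(t) ≤ t²/2 - min(δ, aη/4, a²)/d` for `-η/2 < t < 0`.

The step from `S` to `S'` is proved (`goodQ_step`, INC).  Missing: FUL and PHG.

Conventions as in Spec.lean: module `XXX` = file `TW/XXX.lean`, imports this file
(`Pool.Agent.Lib.MP_865fc0_ag.TW.SpecI`) and any file of the base or of TW, namespace
`Pool.Agent.Lib.LP.TW`, theorem `specXXX (hyps in the order of Uses) : SpecXXX`, own lemmas in
`namespace XXXM`.
-/

set_option autoImplicit false

open scoped Pointwise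
open Filter

namespace Pool.Agent.Lib.LP.TW

noncomputable section

/-- what is needed of the surface -/
structure TG (L : Type) [Field L] [Algebra ℂ L] [Algebra K L] [IsScalarTower ℂ K L]
    (p : ℤ) (e : ℚ) : Prop where
  full : Full L (strSheaf L)
  lamO : lam (strSheaf L) = p * Module.finrank K L
  chiO : (chi (strSheaf L) 0 0 : ℚ) = ((p : ℚ) ^ 2 / 4 + e) * Module.finrank K L
  omega : ∃ z : L, z ≠ 0 ∧ canonicalSheaf L = ln z • tw (-p) (-p) (strSheaf L)

/-- TRG: the comparison TRN with `TG` in place of `TF` (captain). -/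
def SpecTRG : Prop := ∀ (L : Type) [Field L] [Algebra ℂ L] [Algebra K L] [IsScalarTower ℂ K L]
  (p : ℤ) (e : ℚ), TG L p e → ∀ (r : ℕ) (F : Chart → Submodule ℂ (Fin r → L)),
  (IsSheaf L F ↔ IsLat F ∧ strSheaf L • F = F) ∧
  (IsLat F → strSheaf L • F = F → 0 < r → rk L F = r →
    lead F = Module.finrank K L * r ∧ 0 < lead F ∧ slope L F = (mm F - p) / 2 ∧
    (IsSemistable L F ↔ Sst (strSheaf L) F) ∧
    ch2 L F / (Hsq L * r) = (cc F - p * mm F / 2 + (p : ℚ) ^ 2 / 4 - e) / 2)

/-- FUL [150].  Uses: nothing.  The structure sheaf of the normalization in a finite extension `L / K`.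
Proof.  `Oalg L s` is the integral closure of `Ralg s` in `L` (`Defs.lean`; its carrier is the set of
the integral elements).  `Ralg s` is integrally closed and noetherian with fraction field `K` (Poly.lean:
`polyEquiv` or similar, see EXC.lean, EXS.lean for how they use it), `L / K` is separable
(characteristic zero: `Algebra.IsSeparable.of_integral`-like instance for `CharZero K`), so the integral
closure is a finitely generated module (`IsIntegralClosure.isNoetherian` or `IsIntegralClosure.finite`):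
`strSheaf L s = R s • T`, `T` the `ℂ`-span of a finite generating set.  Glue: if `v` is a root of the monic
`X^n + ∑ a_i X^i`, `a_i ∈ R s`, let `c = w s / w t ∈ R t` (a monomial) and take `m ≥ 1` with `c^m a_i ∈ R t`
for all `i < n` (`isLat_R.glue`); then `c^m v` is a root of `X^n + ∑ c^(m(n-i)) a_i X^i`, with
coefficients in `R t`.  Ring: `O * O = O`, `1 ≤ O` since `Oalg L s` is a subalgebra.  Span: every `l ∈ L`
is `v / r`, `v` integral over `R (false,false)`, `0 ≠ r ∈ R (false,false)`
(`exists_integral_multiple` / `IsIntegralClosure.exists_smul_eq_mul`-like). -/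
def SpecFUL : Prop := ∀ (L : Type) [Field L] [Algebra ℂ L] [Algebra K L] [IsScalarTower ℂ K L],
  FiniteDimensional K L → Full L (strSheaf L)

/-- PHG [150].  Uses: TRG.  From bounds for `Φ` to bounds for sheaves.  Proof.  Let `F` in `V` be as in
`GoodQ`.  `U = Submodule.span K (F (false,false))` is an `L`-subspace (copy `TRNM.smul_mem_span` and the
construction of `U` in `TRNM.lead_rk`), `r = finrank L U > 0` (`lead F > 0`).  Choose an `L`-linear
injective `ψ : (Fin r → L) → V` with range `U` (a basis of `U`) and an `L`-linear `φ : V → (Fin r → L)` with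
`φ ∘ ψ = id` (`LinearMap.exists_leftInverse_of_injective`).  `F' = mapL φ F` (`φ` as `K`-linear map) is a
lattice (`IsLat.map`), stable (as `PHZM.stable`, `map_smul_sub`), and `mapL ψ F' = F` since `ψ φ v = v` for
`v ∈ U` and `F s ⊆ U` (`IsLat.mem_span`).  By `chi_map_of_injective` (for `ψ`) `chi F' = chi F`, so `lead`,
`lam`, `mm`, `cc` agree.  `Sst O F'`: for `E' ≤ F'` use `mapL ψ E' ≤ F`.  `rk L F' = r` from TRG's formula or
`TRNM.lead_rk` (`lead F' = finrank K L * rk L F'` and `lead F = finrank K U = finrank K L * r`).  So by TRG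
`F'` is a semistable sheaf of slope `μ = (mm F - p)/2` with `c = ch2/(H² r) = (cc F - p mm F/2 + p²/4 - e)/2`,
and `(c : EReal) ≤ Phi L μ` directly from the definition of `Phi` (`le_iInf`, `le_sSup`, `|μ - μ| = 0 < ε`).
Apply the hypothesis with `t = μ` and compute: `μ²/2 = (mm F²/4 - p mm F/2 + p²/4)/2`. -/
def SpecPHG : Prop := ∀ (L : Type) [Field L] [Algebra ℂ L] [Algebra K L] [IsScalarTower ℂ K L]
  (p : ℤ) (e : ℚ), TG L p e →
  ((∀ t : ℝ, Phi L t ≤ ((t ^ 2 / 2 : ℝ) : EReal)) →
    ∀ (V : Type) [AddCommGroup V] [Module ℂ V] [Module K V] [IsScalarTower ℂ K V] [Module L V]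
      [IsScalarTower ℂ L V] [IsScalarTower K L V] [Module.Finite K V] (F : Chart → Submodule ℂ V),
      IsLat F → strSheaf L • F = F → Sst (strSheaf L) F → 0 < lead F → cc F ≤ mm F ^ 2 / 4 + e) ∧
  ∀ η δ : ℚ, 0 < η → 0 < δ →
    (∀ t : ℝ, -(η : ℝ) < t → t < 0 → Phi L t ≤ ((t ^ 2 / 2 - (δ : ℝ) : ℝ) : EReal)) →
    GoodQ L (strSheaf L) p e (2 * η) (2 * δ)

end

end Pool.Agent.Lib.LP.TW
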