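import Pool.Agent.Lib.MP_865fc0_ag.TW.Spec

/-!
# TW, module TOW: the surfaces of the tower
-/

set_option autoImplicit false

open scoped Pointwise

namespace Pool.Agent.Lib.LP.TW

theorem specTOW (hBAS : SpecBAS) (hIND : SpecIND) (hFUB : SpecFUB) (hFUS : SpecFUS)
    (hOMS : SpecOMS) (hHCB : SpecHCB) (hHCS : SpecHCS) : SpecTOW := by
  intro L _ _ _ hT h
  revert hT
  induction h with
  | base =>
    intro hT
    obtain ⟨h1, h2, h3, h4, h5⟩ := hFUB
    refine ⟨2, 0, ?_⟩
    constructor
    · rw [h1]; exact h2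
    · rw [h1, h3, Module.finrank_self]; norm_num
    · rw [h1, h4, Module.finrank_self]; norm_num
    · refine ⟨1, one_ne_zero, ?_⟩
      rw [h1, h5]
      funext s
      show tw (-2) (-2) R s = line (1 : K) • tw (-2) (-2) R s
      rw [line_one, Submodule.one_smul]
    · rw [h1]
      have := hBAS
      unfold SpecBAS at this
      exact_mod_cast this
    · rw [h1]; exact hHCB
  | step L L' a y hL hD ih =>
    intro hT
    obtain ⟨p, e, hp⟩ := ih
    obtain ⟨h1, h2, h3⟩ := hFUS L L' a y p e hD hp.full hp.lamO hp.chiO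
    refine ⟨p - a, e + (a : ℚ) ^ 2 / 4, ?_⟩
    constructor
    · exact h1
    · exact h2
    · exact h3
    · exact hOMS L L' a y p hD hp.full hp.omega
    · have := hIND L L' (strSheaf L) (strSheaf L') a y hp.full h1 hD p e hp.good
      have e1 : (((p - a : ℤ)) : ℚ) = (p : ℚ) - a := by push_cast; ring
      rw [e1]
      exact this
    · exact hHCS L L' a y hD hp.h1

end Pool.Agent.Lib.LP.TW
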