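import Pool.Agent.Lib.MP_865fc0_ag.TW.Def
import Pool.Agent.Lib.MP_865fc0_ag.TW.Quant

/-!
# The two versions of the definitions agree
-/

set_option autoImplicit false
set_option linter.unusedSectionVars false

open scoped Pointwise
open Filter

namespace Pool.Agent.Lib.LePotier

open Pool.Agent.Lib.LP (K Chart wx wu w Ralg)

section surface

variable (L : Type*) [Field L] [Algebra ℂ L] [Algebra K L] [IsScalarTower ℂ K L]

theorem Oalg_eq (s : Chart) : Oalg L s = LP.Oalg L s := by
  apply le_antisymm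
  · exact Algebra.adjoin_le fun v hv => hv
  · intro v hv
    exact Algebra.subset_adjoin hv

theorem Oalg_eq' : Oalg L = LP.Oalg L := funext (Oalg_eq L)

theorem H1Vanishes_iff : H1Vanishes L ↔ LP.H1Vanishes L := by
  unfold H1Vanishes LP.H1Vanishes
  rw [Oalg_eq' L]

theorem strSheaf_eq : strSheaf L = LP.strSheaf L := by
  funext s
  unfold strSheaf LP.strSheaf
  rw [Oalg_eq L s]

theorem canonicalSheaf_eq : canonicalSheaf L = LP.canonicalSheaf L := by
  funext s
  unfold canonicalSheaf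
  rw [Oalg_eq L s]
  exact Submodule.span_eq (LP.canonicalSheaf L s)

end surface

section sheaves

variable {V : Type*} [AddCommGroup V] [Module ℂ V] [Module K V] [IsScalarTower ℂ K V]

theorem sections_eq (F : Chart → Submodule ℂ V) (a b : ℤ) :
    sections F a b = LP.sections F a b :=
  Submodule.span_eq (LP.sections F a b)

theorem sections_eq' (F : Chart → Submodule ℂ V) : sections F = LP.sections F := by
  funext a b
  exact sections_eq F a b

theorem isHilbertPolynomial_eq (F : Chart → Submodule ℂ V) :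
    IsHilbertPolynomial F = LP.IsHilbertPolynomial F := by
  funext p
  unfold IsHilbertPolynomial LP.IsHilbertPolynomial
  rw [sections_eq' F]

open Classical in
theorem dite_congr' {P Q : (ℤ → ℤ → ℤ) → Prop} (h : P = Q) :
    (if h : ∃ p, P p then h.choose else 0) = (if h : ∃ p, Q p then h.choose else 0) := by
  subst h
  rfl

theorem eulerChar_eq (F : Chart → Submodule ℂ V) : eulerChar F = LP.eulerChar F :=
  dite_congr' (isHilbertPolynomial_eq F)

theorem linCoeff_eq (F : Chart → Submodule ℂ V) : linCoeff F = LP.linCoeff F := by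
  unfold linCoeff LP.linCoeff
  rw [eulerChar_eq]

variable (L : Type*) [Field L] [Algebra ℂ L] [Algebra K L] [IsScalarTower ℂ K L]
variable [Module L V] [IsScalarTower ℂ L V] [IsScalarTower K L V]

theorem span_congr' {A B : Subalgebra ℂ L} (h : A = B) (T : Set V) :
    ((Submodule.span A T : Submodule A V) : Set V) = (Submodule.span B T : Submodule B V) := by
  subst h
  rfl

theorem isSheaf_iff (F : Chart → Submodule ℂ V) : IsSheaf L F ↔ LP.IsSheaf L F := by
  constructor
  · rintro ⟨h1, h2⟩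
    refine ⟨fun s => ?_, h2⟩
    obtain ⟨T, hT⟩ := h1 s
    exact ⟨T, by rw [hT]; exact span_congr' L (Oalg_eq L s) _⟩
  · rintro ⟨h1, h2⟩
    refine ⟨fun s => ?_, h2⟩
    obtain ⟨T, hT⟩ := h1 s
    exact ⟨T, by rw [hT]; exact (span_congr' L (Oalg_eq L s) _).symm⟩

theorem rk_eq (F : Chart → Submodule ℂ V) : rk L F = LP.rk L F := rfl

theorem Hsq_eq : Hsq L = LP.Hsq L := rfl

theorem deg_eq (F : Chart → Submodule ℂ V) : deg L F = LP.deg L F := by
  unfold deg LP.deg
  rw [linCoeff_eq, linCoeff_eq, strSheaf_eq, rk_eq]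

theorem slope_eq (F : Chart → Submodule ℂ V) : slope L F = LP.slope L F := by
  unfold slope LP.slope
  rw [deg_eq, rk_eq, Hsq_eq]

theorem twistCanonical_eq (F : Chart → Submodule ℂ V) :
    twistCanonical L F = LP.twistCanonical L F := by
  funext s
  unfold twistCanonical LP.twistCanonical
  rw [canonicalSheaf_eq]

theorem ch2_eq (F : Chart → Submodule ℂ V) : ch2 L F = LP.ch2 L F := by
  unfold ch2 LP.ch2
  rw [eulerChar_eq, eulerChar_eq, eulerChar_eq, strSheaf_eq, rk_eq, twistCanonical_eq]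

theorem isSemistable_iff (F : Chart → Submodule ℂ V) :
    IsSemistable L F ↔ LP.IsSemistable L F := by
  unfold IsSemistable LP.IsSemistable
  simp only [isSheaf_iff, rk_eq, deg_eq]

end sheaves

theorem Phi_eq (L : Type*) [Field L] [Algebra ℂ L] [Algebra K L] [IsScalarTower ℂ K L] :
    Phi L = LP.Phi L := by
  funext t
  unfold Phi LP.Phi
  simp only [isSheaf_iff, rk_eq, isSemistable_iff, slope_eq, ch2_eq, Hsq_eq]

theorem mem_tw_neg {L : Type} [Field L] [Algebra ℂ L] [Algebra K L] [IsScalarTower ℂ K L]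
    (s : Chart) (n : ℕ) (g : L) :
    g ∈ LP.tw (-(n : ℤ)) (-(n : ℤ)) (LP.strSheaf L) s ↔
      algebraMap K L (w s ^ n) * g ∈ Oalg L s := by
  rw [LP.mem_tw, Oalg_eq]
  have h1 : (wx s ^ (-(n : ℤ)) * wu s ^ (-(n : ℤ)))⁻¹ = w s ^ n := by
    rw [zpow_neg, zpow_neg, zpow_natCast, zpow_natCast, ← mul_inv, inv_inv, ← mul_pow]
    rfl
  rw [h1, Algebra.smul_def]
  rfl

theorem CyclicCover.ccov {L L' : Type} [Field L] [Algebra ℂ L] [Algebra K L] [IsScalarTower ℂ K L]
    [Field L'] [Algebra ℂ L'] [Algebra K L'] [IsScalarTower ℂ K L'] [Algebra L L']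
    {d a : ℕ} {y : L'} (h : CyclicCover L L' d a y) :
    LP.TW.CCov L L' (LP.strSheaf L) (LP.strSheaf L') d a y where
  deg := h.two_le
  pos := h.one_le
  root := h.root
  free := h.unique
  gen := h.exists_repr
  eq := fun s v => by
    have h1 : v ∈ LP.strSheaf L' s ↔ v ∈ Oalg L' s := by rw [Oalg_eq]; exact Iff.rfl
    rw [h1, h.mem_iff s v]
    constructor
    · rintro ⟨g, hg, hv⟩
      exact ⟨g, fun i hi => (mem_tw_neg s (a * i) (g i)).2 (hg i hi), hv⟩
    · rintro ⟨g, hg, hv⟩
      exact ⟨g, fun i hi => (mem_tw_neg s (a * i) (g i)).1 (hg i hi), hv⟩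

theorem cyclicCover_of_ccov {L L' : Type} [Field L] [Algebra ℂ L] [Algebra K L]
    [IsScalarTower ℂ K L]
    [Field L'] [Algebra ℂ L'] [Algebra K L'] [IsScalarTower ℂ K L'] [Algebra L L']
    {d a : ℕ} {y : L'} (h : LP.TW.CCov L L' (LP.strSheaf L) (LP.strSheaf L') d a y) :
    CyclicCover L L' d a y where
  two_le := h.deg
  one_le := h.pos
  root := h.root
  unique := h.free
  exists_repr := h.gen
  mem_iff := fun s v => by
    have h1 : v ∈ Oalg L' s ↔ v ∈ LP.strSheaf L' s := by rw [Oalg_eq]; exact Iff.rfl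
    rw [h1, h.eq s v]
    constructor
    · rintro ⟨g, hg, hv⟩
      exact ⟨g, fun i hi => (mem_tw_neg s (a * i) (g i)).1 (hg i hi), hv⟩
    · rintro ⟨g, hg, hv⟩
      exact ⟨g, fun i hi => (mem_tw_neg s (a * i) (g i)).2 (hg i hi), hv⟩

theorem Tower.towC {L : Type} [iF : Field L] [iC : Algebra ℂ L] [iK : Algebra K L]
    (h : Tower L) : LP.TW.TowC L := by
  induction h with
  | base => exact LP.TW.TowC.base
  | step L L' d a y _ hc ih => exact LP.TW.TowC.step L L' d a y ih hc.ccov

/-- Towers of cyclic covers. -/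
theorem main_tower (L : Type) [Field L] [Algebra ℂ L] [Algebra K L] [IsScalarTower ℂ K L]
    (hL : Tower L) :
    FiniteDimensional K L ∧ H1Vanishes L ∧ Phi L 0 = 0 ∧
      (∀ t : ℝ, -(1 / (Hsq L : ℝ)) < t → t < 0 →
        Phi L t ≤ ((t ^ 2 / 2 - 1 / (4 * (Hsq L : ℝ)) : ℝ) : EReal)) ∧
      ¬ ContinuousAt (Phi L) 0 := by
  rw [H1Vanishes_iff, Phi_eq]
  obtain ⟨h1, h2, h3, -, h5⟩ := LP.TW.main_towC L hL.towC
  obtain ⟨h6, h7⟩ := LP.TW.main_quant L hL.towC
  refine ⟨h1, h2, le_antisymm ?_ h3, h7, h5⟩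
  have h8 := h6 0
  have e : ((0 : ℝ) ^ 2 / 2) = 0 := by norm_num
  rw [e] at h8
  exact h8

/-- Explicit cyclic covers of `P^1 x P^1`. -/
theorem main_explicit (L : Type) [Field L] [Algebra ℂ L] [Algebra K L] [IsScalarTower ℂ K L]
    (d a : ℕ) (y : L) (f : K) (hd : 2 ≤ d) (ha : 1 ≤ a) (hy : y ^ d = algebraMap K L f)
    (hn : Module.finrank K L = d) (hL : Algebra.adjoin K {y} = ⊤) (hs : ReducedCurve f (d * a)) :
    CyclicCover K L d a y := by
  apply cyclicCover_of_ccov
  refine LP.TW.specEXC LP.TW.specEXA L d a y f hd ha hy hn ?_ hs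
  intro v
  have hv : v ∈ Algebra.adjoin K {y} := by rw [hL]; trivial
  rw [Algebra.adjoin_singleton_eq_range_aeval] at hv
  obtain ⟨P, rfl⟩ := hv
  have hm : (Polynomial.X ^ d - Polynomial.C f : Polynomial K).Monic :=
    Polynomial.monic_X_pow_sub_C f (by omega)
  have h1 : Polynomial.aeval y P =
      Polynomial.aeval y (P %ₘ (Polynomial.X ^ d - Polynomial.C f)) := by
    conv_lhs => rw [← Polynomial.modByMonic_add_div P (Polynomial.X ^ d - Polynomial.C f)]
    rw [map_add, map_mul]
    have h2 : Polynomial.aeval y (Polynomial.X ^ d - Polynomial.C f : Polynomial K) = 0 := by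
      simp [hy]
    rw [h2, zero_mul, add_zero]
  refine ⟨fun i => (P %ₘ (Polynomial.X ^ d - Polynomial.C f)).coeff i, ?_⟩
  show Polynomial.aeval y P = _
  rw [h1]
  have h3 : (P %ₘ (Polynomial.X ^ d - Polynomial.C f)).natDegree < d := by
    have h4 := Polynomial.natDegree_modByMonic_lt P hm (by
      intro h5
      have h6 := congrArg Polynomial.natDegree h5
      rw [Polynomial.natDegree_X_pow_sub_C, Polynomial.natDegree_one] at h6
      omega)
    rwa [Polynomial.natDegree_X_pow_sub_C] at h4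
  rw [Polynomial.aeval_eq_sum_range' h3]
  apply Finset.sum_congr rfl
  intro i _
  rw [Algebra.smul_def]

end Pool.Agent.Lib.LePotier
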