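import Pool.Agent.Lib.MP_865fc0_ag.TW.DefI
import Pool.Agent.Lib.MP_865fc0_ag.TW.Tran
import Pool.Agent.Lib.MP_865fc0_ag.TW.Inh
import Pool.Agent.Lib.MP_865fc0_ag.TW.RRL

/-!
# The inheritance of the jump, in terms of the definitions of `Def.lean`
-/

set_option autoImplicit false
set_option linter.unusedSectionVars false

open scoped Pointwise
open Filter

namespace Pool.Agent.Lib.LePotier

open Pool.Agent.Lib.LP (K Chart wx wu w Ralg)

section

variable {L : Type} [Field L] [Algebra ℂ L] [Algebra K L] [IsScalarTower ℂ K L]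

theorem mem_twist (s : Chart) (p : ℤ) (z v : L) (hz : z ≠ 0) :
    v ∈ (LP.ln z • LP.tw (-p) (-p) (LP.strSheaf L)) s ↔
      algebraMap K L (w s ^ p) * (z⁻¹ * v) ∈ Oalg L s := by
  have h0 : v ∈ (LP.ln z • LP.tw (-p) (-p) (LP.strSheaf L)) s ↔
      z⁻¹ • v ∈ LP.tw (-p) (-p) (LP.strSheaf L) s :=
    LP.mem_line_smul_iff (mul_inv_cancel₀ hz)
  rw [h0, LP.mem_tw, Oalg_eq]
  have h1 : (wx s ^ (-p) * wu s ^ (-p))⁻¹ = w s ^ p := by
    rw [zpow_neg, zpow_neg, ← mul_inv, inv_inv, ← mul_zpow]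
    rfl
  rw [h1, Algebra.smul_def]
  rfl

theorem CanonicalClass.tg (hFUL : LP.TW.SpecFUL) {k : ℤ} (hfin : FiniteDimensional K L)
    (h : CanonicalClass L k) (hB : ∀ t : ℝ, Phi L t ≤ ((t ^ 2 / 2 : ℝ) : EReal)) :
    ∃ e : ℚ, LP.TW.TG L (-k) e := by
  have hF : LP.TW.Full L (LP.strSheaf L) := hFUL L hfin
  have hn : (Module.finrank K L : ℚ) ≠ 0 := by
    have : 0 < Module.finrank K L := Module.finrank_pos
    exact_mod_cast this.ne'
  have hω : ∃ z : L, z ≠ 0 ∧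
      LP.canonicalSheaf L = LP.ln z • LP.tw (-(-k)) (-(-k)) (LP.strSheaf L) := by
    obtain ⟨z, hz, h1⟩ := h
    refine ⟨z, hz, ?_⟩
    rw [← canonicalSheaf_eq]
    funext s
    ext v
    rw [h1 s v, mem_twist s (-k) z v hz]
  rw [Phi_eq] at hB
  refine ⟨(LP.chi (LP.strSheaf L) 0 0 : ℚ) / Module.finrank K L - (k : ℚ) ^ 2 / 4, hF, ?_, ?_, hω⟩
  · exact LP.TW.specRRL L hF (-k) hω hB
  · field_simp
    push_cast
    ring

theorem CanonicalClass.of_tg {p : ℤ} {e : ℚ} (h : LP.TW.TG L p e) : CanonicalClass L (-p) := by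
  obtain ⟨z, hz, h1⟩ := h.omega
  refine ⟨z, hz, fun s v => ?_⟩
  rw [canonicalSheaf_eq, h1, mem_twist s p z v hz, neg_neg]

end

/-- The inheritance theorem for rational constants. -/
theorem inheritQ (hFUL : LP.TW.SpecFUL) (hPHG : LP.TW.SpecPHG) (L L' : Type) [Field L]
    [Algebra ℂ L] [Algebra K L]
    [IsScalarTower ℂ K L] [Field L'] [Algebra ℂ L'] [Algebra K L'] [IsScalarTower ℂ K L']
    [Algebra L L'] [IsScalarTower K L L'] [IsScalarTower ℂ L L'] (k : ℤ) (d a : ℕ) (y : L')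
    (hfin : FiniteDimensional K L) (hK : CanonicalClass L k) (hC : CyclicCover L L' d a y)
    (η δ : ℚ) (hη : 0 < η) (hδ : 0 < δ) (hJ : JumpsBy L η δ) :
    FiniteDimensional K L' ∧ CanonicalClass L' (k + a * (d - 1)) ∧ 0 ≤ Phi L' 0 ∧
    JumpsBy L' ((η / 2 : ℚ) : ℝ) ((min δ (min (a * η / 4) ((a : ℚ) ^ 2)) / d : ℚ) : ℝ) := by
  obtain ⟨e, hT⟩ := hK.tg hFUL hfin hJ.1
  have hB := hJ.1
  have hJ2 := hJ.2
  rw [Phi_eq] at hB hJ2
  obtain ⟨h1, h2, h3⟩ := LP.TW.inherit hPHG L L' d a y (-k) e hT hC.ccov hB η δ hη hδ hJ2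
  have h4 := CanonicalClass.of_tg h1
  have e1 : -(-k - a * (d - 1)) = k + (a : ℤ) * ((d : ℤ) - 1) := by ring
  rw [e1] at h4
  refine ⟨h1.full.fin, h4, ?_, ?_⟩
  · rw [Phi_eq]
    exact LP.TW.specPHI LP.TW.specTRG L' _ _ h1
  · unfold JumpsBy
    rw [Phi_eq]
    exact ⟨h2, h3⟩

theorem JumpsBy.mono {L : Type} [Field L] [Algebra ℂ L] [Algebra K L] [IsScalarTower ℂ K L]
    {η δ η' δ' : ℝ} (h : JumpsBy L η δ) (h1 : η' ≤ η) (h2 : δ' ≤ δ) : JumpsBy L η' δ' := by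
  refine ⟨h.1, fun t ht1 ht2 => (h.2 t (by linarith) ht2).trans ?_⟩
  exact EReal.coe_le_coe_iff.mpr (by linarith)

/-- The inheritance theorem. -/
theorem main_inherit (hFUL : LP.TW.SpecFUL) (hPHG : LP.TW.SpecPHG) (L L' : Type) [Field L]
    [Algebra ℂ L] [Algebra K L]
    [IsScalarTower ℂ K L] [Field L'] [Algebra ℂ L'] [Algebra K L'] [IsScalarTower ℂ K L']
    [Algebra L L'] [IsScalarTower K L L'] [IsScalarTower ℂ L L'] (k : ℤ) (d a : ℕ) (y : L')
    (hfin : FiniteDimensional K L) (hK : CanonicalClass L k) (hC : CyclicCover L L' d a y)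
    (η δ : ℝ) (hη : 0 < η) (hδ : 0 < δ) (hJ : JumpsBy L η δ) :
    FiniteDimensional K L' ∧ CanonicalClass L' (k + a * (d - 1)) ∧
    JumpsBy L' (η / 2) (min δ (min (a * η / 4) ((a : ℝ) ^ 2)) / d) ∧ Phi L' 0 = 0 ∧
    ¬ ContinuousAt (Phi L') 0 := by
  have ha : (1 : ℝ) ≤ a := by exact_mod_cast hC.one_le
  have hd : (2 : ℝ) ≤ d := by exact_mod_cast hC.two_le
  have hrat : ∀ x : ℝ, 0 < x → ∀ ε : ℝ, 0 < ε → ∃ q : ℚ, 0 < q ∧ x - ε < q ∧ (q : ℝ) < x := by
    intro x hx ε hε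
    obtain ⟨q, hq1, hq2⟩ := exists_rat_btwn (max_lt (by linarith : x - ε < x) hx)
    exact ⟨q, by exact_mod_cast (le_max_right _ _).trans_lt hq1, (le_max_left _ _).trans_lt hq1, hq2⟩
  obtain ⟨η1, hη1, -, hη1'⟩ := hrat η hη 1 one_pos
  obtain ⟨δ1, hδ1, -, hδ1'⟩ := hrat δ hδ 1 one_pos
  obtain ⟨h1, h2, h3, h4⟩ := inheritQ hFUL hPHG L L' k d a y hfin hK hC η1 δ1 hη1 hδ1
    (hJ.mono hη1'.le hδ1'.le)
  have hmain : JumpsBy L' (η / 2) (min δ (min (a * η / 4) ((a : ℝ) ^ 2)) / d) := by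
    refine ⟨h4.1, fun t ht1 ht2 => ?_⟩
    have key : ∀ ε : ℝ, 0 < ε → ε < η + 2 * t →
        Phi L' t ≤ ((t ^ 2 / 2 - min δ (min (a * η / 4) ((a : ℝ) ^ 2)) / d + a * ε : ℝ) : EReal) := by
      intro ε hε hε2
      obtain ⟨η0, hη0, hη0', hη0''⟩ := hrat η hη ε hε
      obtain ⟨δ0, hδ0, hδ0', hδ0''⟩ := hrat δ hδ ε hε
      obtain ⟨-, -, -, h5⟩ := inheritQ hFUL hPHG L L' k d a y hfin hK hC η0 δ0 hη0 hδ0
        (hJ.mono hη0''.le hδ0''.le)
      refine (h5.2 t ?_ ht2).trans ?_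
      · push_cast
        linarith
      · apply EReal.coe_le_coe_iff.mpr
        push_cast
        have hm : min δ (min (a * η / 4) ((a : ℝ) ^ 2)) - a * ε ≤
            min (δ0 : ℝ) (min (a * η0 / 4) ((a : ℝ) ^ 2)) := by
          have haε : ε ≤ a * ε := by nlinarith
          refine le_min ?_ (le_min ?_ ?_)
          · have := min_le_left δ (min (a * η / 4) ((a : ℝ) ^ 2))
            linarith
          · have h6 := (min_le_right δ (min (a * η / 4) ((a : ℝ) ^ 2))).trans (min_le_left _ _)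
            have h7 : (a : ℝ) * (η - ε) ≤ a * η0 :=
              mul_le_mul_of_nonneg_left hη0'.le (by linarith)
            nlinarith
          · have h6 := (min_le_right δ (min (a * η / 4) ((a : ℝ) ^ 2))).trans (min_le_right _ _)
            nlinarith
        have h8 : (min δ (min (a * η / 4) ((a : ℝ) ^ 2)) - a * ε) / d ≤
            min (δ0 : ℝ) (min (a * η0 / 4) ((a : ℝ) ^ 2)) / d :=
          div_le_div_of_nonneg_right hm (by linarith)
        have h9 : a * ε / d ≤ a * ε := div_le_self (by positivity) (by linarith)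
        rw [sub_div] at h8
        linarith
    have hlim : Tendsto (fun ε : ℝ =>
        ((t ^ 2 / 2 - min δ (min (a * η / 4) ((a : ℝ) ^ 2)) / d + a * ε : ℝ) : EReal))
        (nhdsWithin 0 (Set.Ioi 0))
        (nhds ((t ^ 2 / 2 - min δ (min (a * η / 4) ((a : ℝ) ^ 2)) / d + a * 0 : ℝ) : EReal)) := by
      apply Tendsto.mono_left _ nhdsWithin_le_nhds
      apply (continuous_coe_real_ereal.tendsto _).comp
      have : Continuous fun ε : ℝ => t ^ 2 / 2 - min δ (min (a * η / 4) ((a : ℝ) ^ 2)) / d + a * ε := by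
        fun_prop
      exact this.tendsto 0
    have hev : ∀ᶠ ε in nhdsWithin (0 : ℝ) (Set.Ioi 0),
        Phi L' t ≤ ((t ^ 2 / 2 - min δ (min (a * η / 4) ((a : ℝ) ^ 2)) / d + a * ε : ℝ) : EReal) := by
      have h6 : Set.Ioo (0 : ℝ) (η + 2 * t) ∈ nhdsWithin (0 : ℝ) (Set.Ioi 0) :=
        Ioo_mem_nhdsGT (by linarith)
      filter_upwards [h6] with ε hε
      exact key ε hε.1 hε.2
    have h7 := ge_of_tendsto hlim hev
    rwa [mul_zero, add_zero] at h7
  have h0 : Phi L' 0 ≤ 0 := by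
    have h8 := h4.1 0
    have e : ((0 : ℝ) ^ 2 / 2) = 0 := by norm_num
    rw [e] at h8
    exact h8
  refine ⟨h1, h2, hmain, le_antisymm h0 h3, ?_⟩
  have hD : 0 < min δ (min (a * η / 4) ((a : ℝ) ^ 2)) / d :=
    div_pos (lt_min hδ (lt_min (by positivity) (by positivity))) (by linarith)
  obtain ⟨D, hDdef⟩ : ∃ D, D = min δ (min (a * η / 4) ((a : ℝ) ^ 2)) / d := ⟨_, rfl⟩
  rw [← hDdef] at hmain hD
  apply LP.TW.not_continuousAt h3 (η := min (η / 2) (min D 1)) (δ := D / 2)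
    (lt_min (by linarith) (lt_min hD one_pos)) (by linarith)
  intro t ht1 ht2
  have m1 : min (η / 2) (min D 1) ≤ η / 2 := min_le_left _ _
  have m2 : min (η / 2) (min D 1) ≤ D := (min_le_right _ _).trans (min_le_left _ _)
  have m3 : min (η / 2) (min D 1) ≤ 1 := (min_le_right _ _).trans (min_le_right _ _)
  refine (hmain.2 t (by linarith) ht2).trans ?_
  apply EReal.coe_le_coe_iff.mpr
  have h9 : t ^ 2 ≤ D := by nlinarith
  linarith

end Pool.Agent.Lib.LePotier
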