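import Pool.Agent.Lib.MP_865fc0_ag.TW.DefG
import Pool.Agent.Lib.MP_865fc0_ag.TW.TranI
import Pool.Agent.Lib.MP_865fc0_ag.TW.InhG

/-!
# The inheritance of the jump, general form, in terms of the definitions of `Def.lean`
-/

set_option autoImplicit false
set_option linter.unusedSectionVars false

open scoped Pointwise
open Filter

namespace Pool.Agent.Lib.LePotier

open Pool.Agent.Lib.LP (K Chart wx wu w Ralg)

section

variable {L : Type} [Field L] [Algebra ℂ L] [Algebra K L] [IsScalarTower ℂ K L]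

theorem Gorenstein.th (hFUL : LP.TW.SpecFUL) (hWLT : LP.TW.SpecWLT)
    (hfin : FiniteDimensional K L) (h : Gorenstein L) :
    ∃ (M : Chart → Submodule ℂ L) (p e : ℚ), LP.TW.TH L M p e := by
  have hF : LP.TW.Full L (LP.strSheaf L) := hFUL L hfin
  have hn : (Module.finrank K L : ℚ) ≠ 0 := by
    have : 0 < Module.finrank K L := Module.finrank_pos
    exact_mod_cast this.ne'
  obtain ⟨M, hM, hMs⟩ := h
  rw [isSheaf_iff] at hM
  have h1 : LP.IsLat M := LP.TW.TRGM.isLat hF hM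
  have h2 : LP.strSheaf L * M = M := LP.TW.TRGM.stable hF hM
  have h3 : LP.canonicalSheaf L * M = LP.strSheaf L := by
    funext s
    have h4 := hMs s
    rw [canonicalSheaf_eq, strSheaf_eq] at h4
    exact h4
  have hI := hWLT L M hF h1 h2 h3
  refine ⟨M, (LP.lam (LP.strSheaf L) : ℚ) / Module.finrank K L,
    (LP.chi (LP.strSheaf L) 0 0 : ℚ) / Module.finrank K L, hF, hI, ?_, ?_⟩
  · rw [div_mul_cancel₀ _ hn]
  · rw [div_mul_cancel₀ _ hn]

theorem Gorenstein.of_th {M : Chart → Submodule ℂ L} {p e : ℚ} (h : LP.TW.TH L M p e) :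
    Gorenstein L := by
  have hfin := h.full.fin
  refine ⟨M, ?_, fun s => ?_⟩
  · rw [isSheaf_iff]
    exact LP.TW.TRGM.of_lat h.full h.inv.lat' h.inv.st'
  · rw [canonicalSheaf_eq, strSheaf_eq]
    exact congrFun h.inv.mul s

theorem serre_iff {M : Chart → Submodule ℂ L} {p e : ℚ} (h : LP.TW.TH L M p e) :
    SerreDuality L ↔ LP.chi (LP.canonicalSheaf L) 0 0 = LP.chi (LP.strSheaf L) 0 0 := by
  have hfin := h.full.fin
  unfold SerreDuality
  rw [eulerChar_eq, eulerChar_eq, canonicalSheaf_eq, strSheaf_eq, h.inv.lat.eulerChar_eq,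
    h.full.ring.lat.eulerChar_eq]

/-- `K_S ~ kH` and Bogomolov's inequality imply `χ(ω_S) = χ(O_S)`. -/
theorem CanonicalClass.serre (hFUL : LP.TW.SpecFUL) {k : ℤ} (hfin : FiniteDimensional K L)
    (h : CanonicalClass L k) (hB : ∀ t : ℝ, Phi L t ≤ ((t ^ 2 / 2 : ℝ) : EReal)) :
    SerreDuality L := by
  obtain ⟨e, hT⟩ := h.tg hFUL hfin hB
  obtain ⟨z, hz, hω⟩ := hT.omega
  have hO := hT.full.ring.lat
  have hn : LP.lead (LP.strSheaf L) = Module.finrank K L := by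
    rw [hO.lead_eq, hT.full.span, finrank_top]
  have hlat : LP.IsLat (LP.canonicalSheaf L) := by
    rw [hω]
    exact (hO.tw _ _).ln_smul z
  have hl := hT.lamO
  unfold SerreDuality
  rw [eulerChar_eq, eulerChar_eq, canonicalSheaf_eq, strSheaf_eq, hlat.eulerChar_eq,
    hO.eulerChar_eq, hω, (hO.tw _ _).chi_ln hz.isUnit, hO.chi_tw, hO.chi_eq]
  unfold LP.lam at hl
  rw [hn]
  linear_combination k * hl

end

/-- The inheritance theorem for rational constants. -/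
theorem inheritGQ (hFUL : LP.TW.SpecFUL) (hIVL : LP.TW.SpecIVL) (hLAW : LP.TW.SpecLAW)
    (hINW : LP.TW.SpecINW) (hOMI : LP.TW.SpecOMI) (hFUG : LP.TW.SpecFUG) (hWLT : LP.TW.SpecWLT)
    (hPHW : LP.TW.SpecPHW) (hPHX : LP.TW.SpecPHX) (hPHY : LP.TW.SpecPHY) (hDUA : LP.TW.SpecDUA)
    (L L' : Type) [Field L] [Algebra ℂ L] [Algebra K L]
    [IsScalarTower ℂ K L] [Field L'] [Algebra ℂ L'] [Algebra K L'] [IsScalarTower ℂ K L']
    [Algebra L L'] [IsScalarTower K L L'] [IsScalarTower ℂ L L'] (d a : ℕ) (y : L')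
    (hfin : FiniteDimensional K L) (hK : Gorenstein L) (hC : CyclicCover L L' d a y)
    (η δ : ℚ) (hη : 0 < η) (hδ : 0 < δ) (hJ : JumpsBy L η δ) :
    FiniteDimensional K L' ∧ Gorenstein L' ∧
    (SerreDuality L → SerreDuality L' ∧ 0 ≤ Phi L' 0) ∧
    JumpsBy L' ((η / 2 : ℚ) : ℝ) ((min δ (min (a * η / 4) ((a : ℚ) ^ 2)) / d : ℚ) : ℝ) := by
  obtain ⟨M, p, e, hT⟩ := hK.th hFUL hWLT hfin
  have hB := hJ.1
  have hJ2 := hJ.2
  rw [Phi_eq] at hB hJ2
  obtain ⟨⟨M', p', e', h1⟩, h3, h4, h5⟩ := LP.TW.inheritG hIVL hLAW hINW hOMI hFUG hPHW hPHX hPHY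
    hDUA L L' d a y M p e hT hC.ccov hB η δ hη hδ hJ2
  refine ⟨h1.full.fin, Gorenstein.of_th h1, ?_, ?_⟩
  · rw [Phi_eq, serre_iff h1, serre_iff hT]
    exact h3
  · unfold JumpsBy
    rw [Phi_eq]
    exact ⟨h4, h5⟩

/-- The inheritance theorem. -/
theorem main_inheritG (hFUL : LP.TW.SpecFUL) (hIVL : LP.TW.SpecIVL) (hLAW : LP.TW.SpecLAW)
    (hINW : LP.TW.SpecINW) (hOMI : LP.TW.SpecOMI) (hFUG : LP.TW.SpecFUG) (hWLT : LP.TW.SpecWLT)
    (hPHW : LP.TW.SpecPHW) (hPHX : LP.TW.SpecPHX) (hPHY : LP.TW.SpecPHY) (hDUA : LP.TW.SpecDUA)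
    (L L' : Type) [Field L]
    [Algebra ℂ L] [Algebra K L]
    [IsScalarTower ℂ K L] [Field L'] [Algebra ℂ L'] [Algebra K L'] [IsScalarTower ℂ K L']
    [Algebra L L'] [IsScalarTower K L L'] [IsScalarTower ℂ L L'] (d a : ℕ) (y : L')
    (hfin : FiniteDimensional K L) (hK : Gorenstein L) (hC : CyclicCover L L' d a y)
    (η δ : ℝ) (hη : 0 < η) (hδ : 0 < δ) (hJ : JumpsBy L η δ) :
    FiniteDimensional K L' ∧ Gorenstein L' ∧
    JumpsBy L' (η / 2) (min δ (min (a * η / 4) ((a : ℝ) ^ 2)) / d) ∧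
    (SerreDuality L → SerreDuality L' ∧ Phi L' 0 = 0 ∧ ¬ ContinuousAt (Phi L') 0) := by
  have ha : (1 : ℝ) ≤ a := by exact_mod_cast hC.one_le
  have hd : (2 : ℝ) ≤ d := by exact_mod_cast hC.two_le
  have hrat : ∀ x : ℝ, 0 < x → ∀ ε : ℝ, 0 < ε → ∃ q : ℚ, 0 < q ∧ x - ε < q ∧ (q : ℝ) < x := by
    intro x hx ε hε
    obtain ⟨q, hq1, hq2⟩ := exists_rat_btwn (max_lt (by linarith : x - ε < x) hx)
    exact ⟨q, by exact_mod_cast (le_max_right _ _).trans_lt hq1, (le_max_left _ _).trans_lt hq1, hq2⟩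
  obtain ⟨η1, hη1, -, hη1'⟩ := hrat η hη 1 one_pos
  obtain ⟨δ1, hδ1, -, hδ1'⟩ := hrat δ hδ 1 one_pos
  obtain ⟨h1, h2, h3, h4⟩ := inheritGQ hFUL hIVL hLAW hINW hOMI hFUG hWLT hPHW hPHX hPHY hDUA L L' d a y hfin hK hC η1 δ1 hη1 hδ1
    (hJ.mono hη1'.le hδ1'.le)
  have hmain : JumpsBy L' (η / 2) (min δ (min (a * η / 4) ((a : ℝ) ^ 2)) / d) := by
    refine ⟨h4.1, fun t ht1 ht2 => ?_⟩
    have key : ∀ ε : ℝ, 0 < ε → ε < η + 2 * t →
        Phi L' t ≤ ((t ^ 2 / 2 - min δ (min (a * η / 4) ((a : ℝ) ^ 2)) / d + a * ε : ℝ) : EReal) := by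
      intro ε hε hε2
      obtain ⟨η0, hη0, hη0', hη0''⟩ := hrat η hη ε hε
      obtain ⟨δ0, hδ0, hδ0', hδ0''⟩ := hrat δ hδ ε hε
      obtain ⟨-, -, -, h5⟩ := inheritGQ hFUL hIVL hLAW hINW hOMI hFUG hWLT hPHW hPHX hPHY hDUA L L' d a y hfin hK hC η0 δ0 hη0 hδ0
        (hJ.mono hη0''.le hδ0''.le)
      refine (h5.2 t ?_ ht2).trans ?_
      · push_cast
        linarith
      · apply EReal.coe_le_coe_iff.mpr
        push_cast
        have hm : min δ (min (a * η / 4) ((a : ℝ) ^ 2)) - a * ε ≤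
            min (δ0 : ℝ) (min (a * η0 / 4) ((a : ℝ) ^ 2)) := by
          have haε : ε ≤ a * ε := by nlinarith
          refine le_min ?_ (le_min ?_ ?_)
          · have := min_le_left δ (min (a * η / 4) ((a : ℝ) ^ 2))
            linarith
          · have h6 := (min_le_right δ (min (a * η / 4) ((a : ℝ) ^ 2))).trans (min_le_left _ _)
            have h7 : (a : ℝ) * (η - ε) ≤ a * η0 :=
              mul_le_mul_of_nonneg_left hη0'.le (by linarith)
            nlinarith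
          · have h6 := (min_le_right δ (min (a * η / 4) ((a : ℝ) ^ 2))).trans (min_le_right _ _)
            nlinarith
        have h8 : (min δ (min (a * η / 4) ((a : ℝ) ^ 2)) - a * ε) / d ≤
            min (δ0 : ℝ) (min (a * η0 / 4) ((a : ℝ) ^ 2)) / d :=
          div_le_div_of_nonneg_right hm (by linarith)
        have h9 : a * ε / d ≤ a * ε := div_le_self (by positivity) (by linarith)
        rw [sub_div] at h8
        linarith
    have hlim : Tendsto (fun ε : ℝ =>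
        ((t ^ 2 / 2 - min δ (min (a * η / 4) ((a : ℝ) ^ 2)) / d + a * ε : ℝ) : EReal))
        (nhdsWithin 0 (Set.Ioi 0))
        (nhds ((t ^ 2 / 2 - min δ (min (a * η / 4) ((a : ℝ) ^ 2)) / d + a * 0 : ℝ) : EReal)) := by
      apply Tendsto.mono_left _ nhdsWithin_le_nhds
      apply (continuous_coe_real_ereal.tendsto _).comp
      have : Continuous fun ε : ℝ => t ^ 2 / 2 - min δ (min (a * η / 4) ((a : ℝ) ^ 2)) / d + a * ε := by
        fun_prop
      exact this.tendsto 0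
    have hev : ∀ᶠ ε in nhdsWithin (0 : ℝ) (Set.Ioi 0),
        Phi L' t ≤ ((t ^ 2 / 2 - min δ (min (a * η / 4) ((a : ℝ) ^ 2)) / d + a * ε : ℝ) : EReal) := by
      have h6 : Set.Ioo (0 : ℝ) (η + 2 * t) ∈ nhdsWithin (0 : ℝ) (Set.Ioi 0) :=
        Ioo_mem_nhdsGT (by linarith)
      filter_upwards [h6] with ε hε
      exact key ε hε.1 hε.2
    have h7 := ge_of_tendsto hlim hev
    rwa [mul_zero, add_zero] at h7
  have h0 : Phi L' 0 ≤ 0 := by
    have h8 := h4.1 0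
    have e : ((0 : ℝ) ^ 2 / 2) = 0 := by norm_num
    rw [e] at h8
    exact h8
  refine ⟨h1, h2, hmain, fun hS => ⟨(h3 hS).1, le_antisymm h0 (h3 hS).2, ?_⟩⟩
  have hD : 0 < min δ (min (a * η / 4) ((a : ℝ) ^ 2)) / d :=
    div_pos (lt_min hδ (lt_min (by positivity) (by positivity))) (by linarith)
  obtain ⟨D, hDdef⟩ : ∃ D, D = min δ (min (a * η / 4) ((a : ℝ) ^ 2)) / d := ⟨_, rfl⟩
  rw [← hDdef] at hmain hD
  apply LP.TW.not_continuousAt (h3 hS).2 (η := min (η / 2) (min D 1)) (δ := D / 2)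
    (lt_min (by linarith) (lt_min hD one_pos)) (by linarith)
  intro t ht1 ht2
  have m1 : min (η / 2) (min D 1) ≤ η / 2 := min_le_left _ _
  have m2 : min (η / 2) (min D 1) ≤ D := (min_le_right _ _).trans (min_le_left _ _)
  have m3 : min (η / 2) (min D 1) ≤ 1 := (min_le_right _ _).trans (min_le_right _ _)
  refine (hmain.2 t (by linarith) ht2).trans ?_
  apply EReal.coe_le_coe_iff.mpr
  have h9 : t ^ 2 ≤ D := by nlinarith
  linarith

end Pool.Agent.Lib.LePotier
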